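import Pool.Agent.Lib.AA25.U

/-! One band, and all bands. -/

namespace MP7ebc2a.AA

lemma avg_le {L R : Multiset ℕ} (h : ∀ a ∈ L, ∀ b ∈ R, b ≤ a) :
    L.card * R.sum ≤ R.card * L.sum := by
  induction L using Multiset.induction_on with
  | empty => simp
  | cons a L ih =>
    have h1 := ih fun x hx => h x (Multiset.mem_cons_of_mem hx)
    have h2 : R.sum ≤ R.card * a := sum_le (h a (Multiset.mem_cons_self _ _))
    rw [Multiset.card_cons, Multiset.sum_cons]
    nlinarith

lemma AP_par (i ε : ℕ) (hε : ε < 2) : AP (4 * i + 2 - ε) % 2 = ε := by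
  have := AP_two (4 * i + 2 - ε)
  interval_cases ε
  · have h : AP (4 * i + 2 - 0) = 2 * ((4 * i + 3) * (i + 1)) := by
      simp only [Nat.sub_zero] at this ⊢; nlinarith
    omega
  · have e : 4 * i + 2 - 1 = 4 * i + 1 := by omega
    rw [e] at this ⊢
    have h : AP (4 * i + 1) = 2 * (4 * i * i + 5 * i + 1) + 1 := by nlinarith
    omega

theorem st_BAND (hSB : St_SB) (hEX : St_EX) (hCH : St_CH) : St_BAND := by
  intro d z Λ P ε M hodd h5 hdz hz hP hΛ hM
  rcases M.empty_or_exists_mem with rfl | ⟨x0, hx0⟩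
  · refine ⟨0, le_rfl, by simp, 0, by simp, Or.inl rfl, by simp, fun F hF hs => ?_⟩
    obtain rfl : F = 0 := Multiset.eq_zero_of_forall_notMem fun f hf => by
      have := Multiset.single_le_sum (fun _ _ => Nat.zero_le _) f hf
      have := (hF f hf).2.1
      omega
    exact ⟨0, by simpa using hCH.nil d⟩
  have hε : ε < 2 := by have := (hM x0 hx0).1; omega
  have hc : 0 < M.card := Multiset.card_pos_iff_exists_mem.2 ⟨_, hx0⟩
  have s1 : M.card * (28 * z) ≤ M.sum := sum_ge fun x hx => (hM x hx).2.1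
  have ex : ∃ i, 3 * M.sum ≤ d * AP (4 * i + 2 - ε) * M.card := ⟨3 * M.sum, by
    have a1 := AP_two (4 * (3 * M.sum) + 2 - ε)
    have a2 : 3 * M.sum ≤ AP (4 * (3 * M.sum) + 2 - ε) := by
      have : 4 * (3 * M.sum) + 1 ≤ 4 * (3 * M.sum) + 2 - ε := by omega
      nlinarith
    exact a2.trans ((Nat.le_mul_of_pos_left _ (by omega)).trans (Nat.le_mul_of_pos_right _ hc))⟩
  classical
  have i1 := Nat.find_spec ex
  have i0 : Nat.find ex ≠ 0 := fun h0 => by
    rw [h0] at i1
    have a1 : AP (4 * 0 + 2 - ε) ≤ 6 := by interval_cases ε <;> decide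
    have a2 : d * AP (4 * 0 + 2 - ε) * M.card ≤ z * 6 * M.card :=
      Nat.mul_le_mul_right _ (Nat.mul_le_mul hdz a1)
    have := Nat.mul_pos (by omega : 0 < z) hc
    linarith
  obtain ⟨i, hi⟩ := Nat.exists_eq_succ_of_ne_zero i0
  have i2 := Nat.find_min ex (by omega : i < Nat.find ex)
  rw [hi] at i1
  obtain ⟨q, hq⟩ : ∃ q, q = 4 * i + 2 - ε := ⟨_, rfl⟩
  have e1 : 4 * i.succ + 2 - ε = q + 4 := by omega
  have e2 : 4 * (i + 2) + 2 - ε = q + 8 := by omega
  have par := AP_par (i + 2) ε hε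
  rw [e1] at i1
  rw [e2] at par
  rw [← hq, not_le] at i2
  have b0 := AP_two q
  have b4 : AP (q + 4) = AP q + 4 * q + 14 := by have := AP_two (q + 4); linarith
  have b8 : AP (q + 8) = AP q + 8 * q + 44 := by have := AP_two (q + 8); linarith
  have k1 : ∀ b ∈ M, 25 * AP q < 18 * b := fun b hb => by
    have a1 : (M.map (5 * ·)).sum ≤ (M.map (5 * ·)).card * (6 * b) := sum_le fun x hx => by
      obtain ⟨y, hy, rfl⟩ := Multiset.mem_map.1 hx
      exact (hM y hy).2.2.2 b hb
    rw [Multiset.sum_map_mul_left, Multiset.map_id', Multiset.card_map] at a1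
    have a2 : 5 * AP q * M.card ≤ d * AP q * M.card :=
      Nat.mul_le_mul_right _ (Nat.mul_le_mul_right _ h5)
    have a3 : M.card * (25 * AP q) < M.card * (18 * b) := by linarith
    exact lt_of_mul_lt_mul_left a3 (Nat.zero_le _)
  have k2 : q + 8 ≤ P := by
    by_contra hq
    have := k1 x0 hx0
    have := (hM x0 hx0).2.2.1
    have := Nat.pow_lt_pow_left (by omega : P < 2 * q) (by norm_num : 2 ≠ 0)
    linarith [Nat.zero_le q, Nat.zero_le (q * q)]
  have k3 : ∀ b ∈ M, AP (q + 8) + 5 * z ≤ b := fun b hb => by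
    have a1 := k1 b hb
    have a2 := (hM b hb).2.1
    have a3 : 100 * q ≤ b := by
      by_contra h
      have := Nat.mul_le_mul_right q (by omega : 28000 ≤ q)
      linarith [Nat.zero_le q]
    omega
  obtain ⟨L, l1, l2, l3⟩ := hEX.top M (M.card % (q + 8)) (Nat.mod_le _ _)
  obtain ⟨R, rfl⟩ := Multiset.le_iff_exists_add.1 l1
  rw [add_tsub_cancel_left] at l3
  have l4 := avg_le l3
  have l5 : L.card < q + 8 := l2 ▸ Nat.mod_lt _ (by omega)
  obtain ⟨K, hK⟩ : ∃ K, R.card = K * (q + 8) := ⟨(L + R).card / (q + 8), by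
    have := Nat.div_add_mod' (L + R).card (q + 8)
    rw [← l2, Multiset.card_add] at this
    rw [Multiset.card_add]
    omega⟩
  have c3 := CP_three (q + 8)
  simp only [Multiset.card_add, Multiset.sum_add] at i1 i2 s1 hc
  have r1 : 3 * R.sum ≤ d * AP (q + 4) * R.card := by
    refine Nat.le_of_mul_le_mul_left ?_ hc
    have := Nat.mul_le_mul_left R.card i1
    linarith
  have r2 : 3 * (d * (K * CP (q + 8))) = d * AP (q + 4) * R.card + d * (4 * q + 30) * R.card := by
    rw [hK, show 3 * (d * (K * CP (q + 8))) = d * K * (3 * CP (q + 8)) by ring, c3, b8, b4]; ring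
  obtain ⟨D, hD⟩ : ∃ D, d * (K * CP (q + 8)) = R.sum + D :=
    Nat.exists_eq_add_of_le (by omega)
  have mR : ∀ x ∈ R, x ∈ L + R := fun x hx => Multiset.mem_add.2 (Or.inr hx)
  refine ⟨L, l1, by omega, D, ?_, ?_, ?_, fun F hF hs => ?_⟩
  · have a1 := sum_par fun x hx => (hM x (mR x hx)).1
    have a2 : (d * (K * CP (q + 8))) % 2 = (K * (q + 8) * ε) % 2 := by
      have a3 : CP (q + 8) % 2 = ((q + 8) * ε) % 2 := by
        have : ((q + 8) * AP (q + 8)) % 2 = ((q + 8) * ε) % 2 := by
          rw [Nat.mul_mod, par, Nat.mul_mod (q + 8) ε, Nat.mod_eq_of_lt hε]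
        omega
      rw [Nat.mul_mod, Nat.odd_iff.1 hodd, one_mul, Nat.mod_mod, Nat.mul_mod, a3, mul_assoc,
        ← Nat.mul_mod]
    rw [hK] at a1
    rw [Nat.even_iff]
    omega
  · rcases Nat.eq_zero_or_pos K with rfl | hK0
    · left; simp at hD; omega
    · right
      have a1 : q + 8 ≤ R.card := by rw [hK]; exact Nat.le_mul_of_pos_left _ hK0
      have a2 : 84 * z ≤ d * AP (q + 4) := by
        refine Nat.le_of_mul_le_mul_left ?_ hc
        linarith
      have a3 : AP (q + 4) ≤ (4 * q + 30) * R.card := by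
        have := Nat.mul_le_mul_left (4 * q + 30) a1
        linarith [Nat.zero_le q, Nat.zero_le (q * q)]
      have a4 := Nat.mul_le_mul_left d a3
      linarith [Nat.zero_le z]
  · have a1 : L.sum ≤ L.card * Λ := sum_le fun x hx =>
      (hM x (Multiset.mem_add.2 (Or.inl hx))).2.2.1
    have a2 : L.card * Λ ≤ P * Λ := Nat.mul_le_mul_right _ (by omega)
    have a3 : d * (8 * q + 44) * R.card ≤ d * (8 * P) * (L.card + R.card) :=
      Nat.mul_le_mul (Nat.mul_le_mul_left _ (by omega)) (by omega)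
    have a4 : d * AP q * R.card ≤ d * AP q * (L.card + R.card) := Nat.mul_le_mul_left _ (by omega)
    rw [b4] at r2
    rw [Multiset.card_add]
    linarith [Nat.zero_le (d * P * L.card), Nat.zero_le (d * P * R.card)]
  · have hs' : (R + F).sum = d * (K * CP (q + 8)) := by rw [Multiset.sum_add, hs, hD]
    rw [add_tsub_cancel_left]
    refine hSB.sb d (q + 8) K R F hodd h5 (by omega) hK (fun b hb => ?_) (fun f hf => (hF f hf).1)
      hs' (card_of_ge (by omega) (fun x hx => ?_) hs')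
    · have := k3 b (mR b hb)
      exact ⟨by rw [par]; exact (hM b (mR b hb)).1, by omega, fun f hf => by
        have := (hF f hf).2.2; omega⟩
    · rcases Multiset.mem_add.1 hx with hx | hx
      · have := (hM x (mR x hx)).2.1; omega
      · have := (hF x hx).2.1; omega

theorem st_BANDS (hB : St_BAND) (hSB : St_SB) (hEX : St_EX) (hCH : St_CH) : St_BANDS := by
  intro d z Λ P ε H j M S hodd h5 hdz hz hP hΛ hH hM hS
  induction j generalizing M S with
  | zero =>
    obtain rfl : M = 0 := Multiset.eq_zero_of_forall_notMem fun x hx => by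
      have := hM x hx
      omega
    exact ⟨0, le_rfl, 0, Multiset.zero_le _, by simp, by simp, by simp, 0, by simpa using hCH.nil d⟩
  | succ j ih =>
    obtain ⟨M1, h1⟩ : ∃ M1, M1 = M.filter fun x => 5 ^ j * x < 6 ^ j * (28 * z) := ⟨_, rfl⟩
    obtain ⟨M2, h2⟩ : ∃ M2, M2 = M.filter fun x => ¬ 5 ^ j * x < 6 ^ j * (28 * z) := ⟨_, rfl⟩
    have hsp : M1 + M2 = M := by rw [h1, h2]; exact Multiset.filter_add_not _ _
    obtain ⟨L2, a1, a2, D, a3, a4, a5, a6⟩ := hB d z Λ P ε M2 hodd h5 hdz hz hP hΛ fun x hx => by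
      rw [h2] at hx ⊢
      obtain ⟨b1, b2, b3, b4⟩ := hM x (Multiset.mem_filter.1 hx).1
      refine ⟨b1, b2, b3, fun y hy => ?_⟩
      have b5 := not_lt.1 (Multiset.mem_filter.1 hy).2
      have : 5 ^ j * (5 * x) < 5 ^ j * (6 * y) := by
        rw [pow_succ, pow_succ] at b4
        linarith
      exact (lt_of_mul_lt_mul_left this (Nat.zero_le _)).le
    have hc : M.card = M1.card + M2.card := by rw [← hsp, Multiset.card_add]
    rw [hc] at hS
    obtain ⟨F2, f1, f2, f3, f4⟩ := fill hEX (S := S) (by omega : 2 ≤ z) hH a3 a4 (by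
      linarith [Nat.zero_le (j * (P * Λ)), Nat.zero_le (3 * d * P * M1.card)])
    have f5 := Nat.mul_le_mul_left z (hEX.sub H (2 * z) (5 * z) S F2)
    obtain ⟨L1, b1, F1, b2, b3, b4, b5, b6⟩ := ih M1 (S - F2) (fun x hx => by
      rw [h1] at hx
      obtain ⟨b1, b2, b3, _⟩ := hM x (Multiset.mem_filter.1 hx).1
      exact ⟨b1, b2, b3, (Multiset.mem_filter.1 hx).2⟩) (by linarith)
    refine ⟨L1 + L2, hsp ▸ add_le_add b1 a1, F1 + F2, (le_tsub_iff_right f1).1 b2, ?_,
      fun f hf => ?_, ?_, ?_⟩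
    · rw [Multiset.card_add]; linarith
    · rcases Multiset.mem_add.1 hf with hf | hf
      exacts [b4 f hf, f4 f hf]
    · rw [Multiset.sum_add, hc]; linarith
    · have := hSB.add d _ _ b6 (a6 F2 f4 f2)
      obtain ⟨R1, rfl⟩ := Multiset.le_iff_exists_add.1 b1
      obtain ⟨R2, rfl⟩ := Multiset.le_iff_exists_add.1 a1
      rw [add_tsub_cancel_left, add_tsub_cancel_left] at this
      rw [← hsp, add_add_add_comm L1 R1, add_tsub_cancel_left, add_add_add_comm]
      exact this

end MP7ebc2a.AA
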