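import Pool.Agent.Lib.AA25.Blue

/-! Conjugate partitions and the elementary rules. -/

namespace MP7ebc2a.AA
open Equiv Finset

namespace CH

lemma sorted {X : Type} (P : Multiset X) (g : X → ℕ) :
    ∃ (n : ℕ) (f : Fin n → X), P = univ.val.map f ∧ Antitone fun i => g (f i) := by
  induction P using Quotient.inductionOn with
  | h l =>
    refine ⟨l.length, l.get ∘ Tuple.sort fun i => OrderDual.toDual (g (l.get i)), ?_,
      fun i j h => Tuple.monotone_sort (fun i => OrderDual.toDual (g (l.get i))) h⟩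
    rw [← Multiset.map_map, Multiset.map_univ_val_equiv, Fin.univ_val_map, List.ofFn_get]
    rfl

lemma conj_eq {n : ℕ} (lam : Fin n → ℕ) (N : ℕ) :
    conj (univ.val.map lam) N = univ.val.map fun k : Fin N => colLen lam k :=
  Multiset.map_congr rfl fun _ _ => countP_univ _ _ _

lemma cnt {n N : ℕ} {lam : Fin n → ℕ} (hl : Antitone lam) (i : Fin n) (h : lam i ≤ N) :
    #{k : Fin N | (i : ℕ) < colLen lam k} = lam i := by
  simp only [lt_colLen hl]
  exact card_lt_fin h

lemma ch (P : Multiset (ℕ × ℕ)) (N N' : ℕ) (hP : Chain P) (h : ∀ x ∈ P, x.1 ≤ N ∧ x.2 ≤ N') :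
    conj (P.map fun x => x.1 + x.2) (N + N') = conj (P.map Prod.fst) N + conj (P.map Prod.snd) N' := by
  obtain ⟨n, f, rfl, hf⟩ := sorted P fun x => x.1 + x.2
  have m : ∀ i, f i ∈ univ.val.map f := fun i => Multiset.mem_map_of_mem _ (mem_univ_val i)
  have a1 : Antitone fun i => (f i).1 := fun i j hij => by
    have := hf hij; have := hP _ (m i) _ (m j); beta_reduce at *; omega
  have a2 : Antitone fun i => (f i).2 := fun i j hij => by
    have := hf hij; have := hP _ (m j) _ (m i); have := a1 hij; beta_reduce at *; omega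
  have b : ∀ (lam : Fin n → ℕ) (N : ℕ), ∀ x ∈ univ.val.map fun k : Fin N => colLen lam k, x ≤ n :=
    fun lam N x hx => by
      obtain ⟨k, -, rfl⟩ := Multiset.mem_map.1 hx
      exact colLen_le _ _
  simp only [Multiset.map_map, Function.comp_def, conj_eq]
  refine ext_count (b _ _) (fun x hx => (Multiset.mem_add.1 hx).elim (b _ _ x) (b _ _ x)) (by simp)
    fun i => ?_
  have := h _ (m i)
  rw [Multiset.countP_add, countP_univ, countP_univ, countP_univ, cnt hf i (by omega), cnt a1 i this.1,
    cnt a2 i this.2]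

lemma conj_sum (s : Multiset ℕ) (N : ℕ) (h : ∀ x ∈ s, x ≤ N) : (conj s N).sum = s.sum := by
  induction s using Multiset.induction_on with
  | empty => simp [conj]
  | cons a s ih =>
    rw [Multiset.sum_cons, ← ih fun x hx => h x (Multiset.mem_cons_of_mem hx), add_comm]
    simp only [conj, Multiset.countP_cons, Multiset.sum_map_add]
    exact congrArg _ ((card_filter _ _).symm.trans (card_lt_fin (h a (Multiset.mem_cons_self _ _))))

lemma zero {m d : ℕ} {s t : Multiset ℕ} (e : s.filter (· ≠ 0) = t.filter (· ≠ 0)) (h : GR m d s) :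
    GR m d t := by
  obtain ⟨N, h1, h2⟩ := h
  have c : ∀ (s : Multiset ℕ) (k : ℕ), s.countP (k < ·) = (s.filter (· ≠ 0)).countP (k < ·) :=
    fun s k => by
      rw [Multiset.countP_filter]
      exact Multiset.countP_congr rfl fun x _ => propext (by omega)
  refine ⟨N, fun x hx => ?_, ?_⟩
  · by_cases z : x = 0
    · omega
    · exact h1 x (Multiset.mem_filter.1 (e ▸ Multiset.mem_filter.2 ⟨hx, z⟩ : x ∈ s.filter (· ≠ 0))).1
  · rwa [show conj t N = conj s N from Multiset.map_congr rfl fun k _ => by rw [c, ← e, ← c]]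

lemma nil (d : ℕ) : GR 0 d 0 := by
  refine ⟨0, by simp, by simp [conj], d + 1, ⟨d + 1, by ring⟩, ?_⟩
  exact good_of_phi (ν := fun _ : Fin 0 => 0) (fun _ => le_rfl) ⟨d + 1, by ring⟩ 1 (fun k => k.elim0)
    (by simp) (fun j => j.elim0) (by simp [Phi, EE])

lemma dbl {m c : ℕ} (hm : 0 < m) {ν : Multiset ℕ} (h : ∀ x ∈ ν, x ≤ m) (hs : ν.sum = m * c) :
    Good m (c + c) (ν + ν) := by
  obtain ⟨T, h1, rfl, h3⟩ := cyc hm ν h 0
  refine Good.double ⟨h1, fun j hj => ?_⟩
  have := h3 j hj
  rw [zero_add, hs, cn_mul hm] at this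
  simpa [cn] using this

end CH

open CH in
theorem st_CH : St_CH where
  ch := ch
  sum m d s := by
    rintro ⟨N, h1, -, e, -, h3⟩
    have := good_sum h3
    rw [Multiset.sum_add, conj_sum s N h1, Multiset.sum_replicate, smul_eq_mul] at this
    linarith
  zero _ _ _ _ := zero
  nil := nil
  plus m d d' P hP := by
    rintro ⟨N, h1, h2, e, h3, h4⟩ ⟨N', h1', h2', e', h3', h4'⟩
    have b : ∀ x ∈ P, x.1 ≤ N ∧ x.2 ≤ N' := fun x hx =>
      ⟨h1 _ (Multiset.mem_map_of_mem _ hx), h1' _ (Multiset.mem_map_of_mem _ hx)⟩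
    refine ⟨N + N', fun x hx => ?_, ?_⟩
    · obtain ⟨y, hy, rfl⟩ := Multiset.mem_map.1 hx
      exact add_le_add (b y hy).1 (b y hy).2
    have a : d + d' + (e + 1 + e' + 1) = d + (e + 1) + (d' + (e' + 1)) := by ring
    rw [ch P N N' hP b]
    refine ⟨fun x hx => (Multiset.mem_add.1 hx).elim (h2 x) (h2' x), e + 1 + e', a ▸ h3.add h3', ?_⟩
    rw [a, add_assoc (e + 1), Multiset.replicate_add, add_add_add_comm (conj _ _)]
    exact h4.add h4'
  wt m d s := by
    rintro ⟨c, rfl⟩ h1 h2 h3
    rcases Nat.eq_zero_or_pos m with rfl | hm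
    · refine zero ?_ (nil _)
      rw [Multiset.filter_zero, eq_comm, Multiset.filter_eq_nil]
      exact fun x hx => by have := Multiset.countP_eq_zero.1 (Nat.le_zero.1 h3) x hx; omega
    have e : s = (s.map fun x => (x / 2, x / 2)).map fun x => x.1 + x.2 := by
      rw [Multiset.map_map]
      exact (Multiset.map_id s).symm.trans (Multiset.map_congr rfl fun x hx => by
        have := Nat.even_iff.1 (h1 x hx); simp only [id, Function.comp]; omega)
    have b : ∀ x ∈ s, x ≤ s.sum := fun x hx => Multiset.single_le_sum (fun _ _ => Nat.zero_le _) x hx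
    have c1 := ch (s.map fun x => (x / 2, x / 2)) s.sum s.sum (fun x hx y hy h => by
      obtain ⟨x, -, rfl⟩ := Multiset.mem_map.1 hx
      obtain ⟨y, -, rfl⟩ := Multiset.mem_map.1 hy
      exact h.le) fun x hx => by
      obtain ⟨x, hy, rfl⟩ := Multiset.mem_map.1 hx
      have := b x hy
      constructor <;> simp only <;> omega
    rw [← e] at c1
    simp only [Multiset.map_map, Function.comp_def] at c1
    have c0 : ∀ x ∈ conj s (s.sum + s.sum), x ≤ m := fun x hx => by
      obtain ⟨k, -, rfl⟩ := Multiset.mem_map.1 hx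
      refine le_trans ?_ h3
      rw [Multiset.countP_eq_card_filter, Multiset.countP_eq_card_filter]
      exact Multiset.card_le_card (Multiset.monotone_filter_right s fun x h => Nat.zero_lt_of_lt h)
    have c2 := conj_sum s (s.sum + s.sum) fun x hx => (b x hx).trans (Nat.le_add_right _ _)
    refine ⟨s.sum + s.sum, fun x hx => (b x hx).trans (Nat.le_add_right _ _), c0, 1,
      ⟨c + 1, by ring⟩, ?_⟩
    rw [c1] at c0 c2 ⊢
    rw [Multiset.sum_add] at c2
    rw [show c + c + (1 + 1) = c + 1 + (c + 1) by ring, Multiset.replicate_add,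
      add_add_add_comm (conj _ _)]
    refine dbl hm (fun x hx => (Multiset.mem_add.1 hx).elim (fun h => c0 x (Multiset.mem_add.2
      (Or.inl h))) fun h => (Multiset.eq_of_mem_replicate h).le) ?_
    rw [Multiset.sum_add, Multiset.sum_replicate, one_smul]
    linarith
  one m := by
    rcases Nat.eq_zero_or_pos m with rfl | hm
    · exact nil 1
    have e : conj (Multiset.replicate m 1) 1 = Multiset.replicate 1 m := by
      simp [conj, Multiset.countP_eq_card_filter, Multiset.filter_eq_self.2, Multiset.mem_replicate]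
    refine ⟨1, fun x hx => (Multiset.eq_of_mem_replicate hx).le, ?_⟩
    rw [e]
    exact ⟨fun x hx => (Multiset.eq_of_mem_replicate hx).le, 0, by decide,
      dbl hm (fun x hx => (Multiset.eq_of_mem_replicate hx).le) (by simp)⟩
  inv m d lam hl := by
    rintro ⟨N, h1, -, e, h3, h4⟩ V _ _ _ ρ hp hi hw
    rw [conj_eq] at h4
    obtain ⟨Z, z1, τ, z2, z3⟩ := fill_of_good (fun k => colLen_le lam k) h3 h4
    exact invariant_of_Phi ρ hp hw _
      (fun i => cnt hl i (h1 _ (Multiset.mem_map_of_mem _ (mem_univ_val i)))) Z z1 τ z2 z3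

end MP7ebc2a.AA
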