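import Pool.Agent.Lib.AA25.U

/-! The packing for even `d`. -/

namespace MP7ebc2a.AA
open Multiset

namespace EVEN

lemma add_le_sep {U V s : Multiset ℕ} (hU : U ≤ s) (hV : V ≤ s) (h : ∀ x ∈ U, x ∉ V) :
    U + V ≤ s := by
  rw [le_iff_count] at *
  intro a
  rw [count_add]
  by_cases ha : a ∈ U
  · rw [count_eq_zero.2 (h a ha)]
    simpa using hU a
  · rw [count_eq_zero.2 ha]
    simpa using hV a

/-- many rows of small multiplicity between `y` and `b` force a gap -/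
lemma gap {M : Multiset ℕ} {μ y b w : ℕ} (hμ : ∀ x ∈ M, M.count x ≤ μ)
    (h : ∀ x ∈ M, y ≤ x ∧ x ≤ b) (hc : w * μ < M.card) : y + w ≤ b := by
  by_contra hlt
  have h1 : M.toFinset ⊆ Finset.Icc y b := fun x hx =>
    Finset.mem_Icc.2 (h x (mem_toFinset.1 hx))
  have h2 := Finset.card_le_card h1
  rw [Nat.card_Icc] at h2
  have h3 : M.card ≤ M.toFinset.card * μ := by
    rw [← toFinset_sum_count_eq]
    simpa using Finset.sum_le_card_nsmul M.toFinset (fun a => M.count a) μ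
      fun x hx => hμ x (mem_toFinset.1 hx)
  have h4 : M.toFinset.card * μ ≤ w * μ := Nat.mul_le_mul_right _ (by omega)
  omega

lemma AP2 : AP 2 = 3 * 2 := by decide
lemma CP2 : CP 2 = 4 := by decide

/-- the bin with the small seed -/
lemma two (hSB : St_SB) {d z k f : ℕ} {B S : Multiset ℕ} (hd : Even d) (h4 : 4 ≤ d) (hz : d ≤ z)
    (cB : B.card = 2 * k) (cS : S.card = 2 * k) (h1 : ∀ x ∈ B + S, x % 2 = 1 ∧ 8 * z ≤ x)
    (h2 : ∀ b ∈ B, ∀ x ∈ S, x + 2 * d ≤ b) (f1 : z ≤ f) (f2 : f ≤ 4 * z)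
    (h3 : d ∣ (B + S).sum + f) : f % 2 = 0 ∧ GD d (B + S + {f}) := by
  have p1 := sum_par fun x hx => (h1 x hx).1
  have p2 := sum_ge fun x hx => (h1 x hx).2
  rw [card_add, cB, cS] at p1 p2
  have p3 : ((B + S).sum + f) % 2 = 0 := Nat.even_iff.1 (even_iff_two_dvd.2 (hd.two_dvd.trans h3))
  have p4 : f % 2 = 0 := by omega
  refine ⟨p4, ?_⟩
  have := hSB.sbe d 2 k 2 B S 0 {f} hd h4 (by norm_num) AP2 (by rw [cB]; ring)
    (by rw [cS, CP2]; ring) (fun b hb => ?_)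
    (fun x hx => Nat.odd_iff.2 (h1 x (mem_add.2 (Or.inr hx))).1) (by simp) (fun x hx => ?_)
    (by simpa using h3) ?_
  · simpa using this
  · have q := h1 b (mem_add.2 (Or.inl hb))
    rw [AP2]
    refine ⟨by omega, by omega, fun x hx => ?_⟩
    simp only [add_zero, mem_add, mem_singleton] at hx
    rcases hx with hx | rfl
    · have := h2 b hb x hx
      omega
    · omega
  · rw [mem_singleton] at hx
    subst hx
    refine ⟨Nat.even_iff.2 p4, fun y hy => ?_⟩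
    have := h1 y (mem_add.2 (Or.inr hy))
    omega
  · rw [add_zero, sum_add, card_add, card_add, cB, cS, CP2, sum_singleton, card_singleton,
      card_zero]
    have : d * k ≤ k * z := by rw [mul_comm]; exact Nat.mul_le_mul_left _ hz
    nlinarith

/-- the large odd rows go into two bins -/
lemma high (hEX : St_EX) (hSB : St_SB) {d z n t μ : ℕ} {s M : Multiset ℕ} (hd : Even d)
    (h4 : 4 ≤ d) (hz : d ≤ z) (c : M.card = 4 * n) (ht : 2 * t ≤ n) (hμ : d * μ < t)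
    (h1 : ∀ x ∈ M, x % 2 = 1 ∧ 8 * z ≤ x) (h2 : ∀ x ∈ M, M.count x ≤ μ)
    (res : ∀ c N, 1 ≤ c → c ≤ 20 → ∃ e ∈ s, c * z ≤ e ∧ e ≤ (c + 1) * z ∧ d ∣ N + e) :
    ∃ f ∈ s, ∃ f' ∈ s, f % 2 = 0 ∧ f' % 2 = 0 ∧ z ≤ f ∧ f ≤ 2 * z ∧ 3 * z ≤ f' ∧ f' ≤ 4 * z ∧
      GD d (M + {f} + {f'}) := by
  obtain ⟨b, rfl⟩ : ∃ b, n = t + b := Nat.exists_eq_add_of_le (by omega)
  obtain ⟨Q4, a1, a2, a3⟩ := hEX.top M (2 * b) (by omega)
  obtain ⟨M3, rfl⟩ := exists_add_of_le a1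
  rw [add_tsub_cancel_left] at a3
  rw [card_add] at c
  obtain ⟨Q3, b1, b2, b3⟩ := hEX.top M3 (2 * t) (by omega)
  obtain ⟨M2, rfl⟩ := exists_add_of_le b1
  rw [add_tsub_cancel_left] at b3
  rw [card_add] at c
  obtain ⟨Q2, c1, c2, c3⟩ := hEX.top M2 (2 * b) (by omega)
  obtain ⟨Q1, rfl⟩ := exists_add_of_le c1
  rw [add_tsub_cancel_left] at c3
  rw [card_add] at c
  have m2 : ∀ x ∈ Q2, Q2.count x ≤ μ := fun x hx => by
    have := h2 x (by simp [hx])
    simp only [count_add] at this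
    omega
  have m3 : ∀ x ∈ Q3, Q3.count x ≤ μ := fun x hx => by
    have := h2 x (by simp [hx])
    simp only [count_add] at this
    omega
  obtain ⟨f, f0, f1, f2, f3⟩ := res 1 (Q3 + Q1).sum (by norm_num) (by norm_num)
  obtain ⟨f', g0, g1, g2, g3⟩ := res 3 (Q4 + Q2).sum (by norm_num) (by norm_num)
  obtain ⟨u1, u2⟩ := two hSB (k := t) hd h4 hz b2 (by omega)
    (fun x hx => h1 x (by rcases mem_add.1 hx with h | h <;> simp [h]))
    (fun y hy x hx => gap m2 (fun w hw => ⟨c3 w hw x hx, b3 y hy w (by simp [hw])⟩)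
      (by rw [c2, mul_assoc]; omega)) (by omega) (by omega) f3
  obtain ⟨v1, v2⟩ := two hSB (k := b) hd h4 hz a2 c2
    (fun x hx => h1 x (by rcases mem_add.1 hx with h | h <;> simp [h]))
    (fun y hy x hx => gap m3 (fun w hw => ⟨b3 w hw x (by simp [hx]), a3 y hy w (by simp [hw])⟩)
      (by rw [b2, mul_assoc]; omega)) (by omega) (by omega) g3
  refine ⟨f, f0, f', g0, u1, v1, by omega, by omega, g1, g2, ?_⟩
  have e : Q4 + (Q3 + (Q2 + Q1)) + {f} + {f'} = Q3 + Q1 + {f} + (Q4 + Q2 + {f'}) := by abel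
  rw [e]
  exact hSB.add _ _ _ u2 v2

/-- the bin with the large seed -/
lemma low (hSB : St_SB) {d z p a K e : ℕ} {B S : Multiset ℕ} (hd : Even d) (h4 : 4 ≤ d)
    (hp : 1 ≤ p) (ha : AP p = 3 * a) (ha2 : a % 2 = 1) (hz : d * a ≤ z) (cB : B.card = K * p)
    (cS : S.card = K * (CP p - p)) (hQ : (CP p - p) % 2 = 0)
    (h1 : ∀ x ∈ B, x % 2 = 0 ∧ 20 * z ≤ x) (h2 : ∀ x ∈ S, x % 2 = 1 ∧ x ≤ 10 * z)
    (e1 : 12 * z ≤ e) (e2 : e ≤ 13 * z) (h3 : d ∣ (B + S).sum + e) :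
    e % 2 = 0 ∧ GD d (B + S + {e}) := by
  have p1 := sum_par fun x hx => (h1 x hx).1
  have p2 := sum_par fun x hx => (h2 x hx).1
  have p3 := sum_ge fun x hx => (h1 x hx).2
  have p4 : ((B + S).sum + e) % 2 = 0 := Nat.even_iff.1 (even_iff_two_dvd.2 (hd.two_dvd.trans h3))
  have p5 : S.card % 2 = 0 := by
    rw [cS]
    exact Nat.even_iff.1 (Even.mul_left (Nat.even_iff.2 hQ) _)
  rw [sum_add] at p4
  have p6 : e % 2 = 0 := by omega
  have p7 : d ≤ d * a := Nat.le_mul_of_pos_right _ (by omega)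
  have p8 : (d - 4) * a + 4 * a = d * a := by
    rw [← add_mul]
    congr 1
    omega
  refine ⟨p6, ?_⟩
  have := hSB.sbe d p K a B S {e} 0 hd h4 hp ha cB cS (fun b hb => ?_)
    (fun x hx => Nat.odd_iff.2 (h2 x hx).1) (fun x hx => ?_) (by simp) (by simpa using h3) ?_
  · simpa using this
  · have q := h1 b hb
    rw [ha]
    refine ⟨by omega, by omega, fun x hx => ?_⟩
    simp only [add_zero, mem_add, mem_singleton] at hx
    rcases hx with hx | rfl
    · have := h2 x hx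
      omega
    · omega
  · rw [mem_singleton] at hx
    subst hx
    refine ⟨Nat.even_iff.2 p6, by omega, fun y hy => ?_⟩
    rw [add_zero] at hy
    have := h2 y hy
    omega
  · rw [add_zero, sum_add, sum_add, card_add, card_add, sum_singleton, card_singleton]
    have q1 : B.card + S.card = K * CP p := by
      rw [cB, cS, ← mul_add]
      congr 1
      have := le_CP p hp
      omega
    rw [q1, CP_eq ha]
    rw [cB] at p3
    have q2 : K * p * (d * a) ≤ K * p * z := Nat.mul_le_mul_left _ hz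
    have q3 : d * (K * (p * a) + 1 + K * (p * a) + 1) = 2 * (K * p * (d * a)) + 2 * d := by ring
    have q4 : K * p * (20 * z) = 20 * (K * p * z) := by ring
    omega

/-- the packing, with the supply of rows as hypotheses -/
lemma core (hEX : St_EX) (hSB : St_SB) (hCH : St_CH) {d z p a q t μ j m : ℕ} {s : Multiset ℕ}
    (hd : Even d) (h4 : 4 ≤ d) (hp : 1 ≤ p) (ha : AP p = 3 * a) (ha2 : a % 2 = 1)
    (hz : d * a ≤ z) (hq : CP p - p = p * q) (hQ : p * q % 4 = 2) (n1 : 6 * (p * q) ≤ z)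
    (n2 : 2 * s.card ≤ q * z) (n3 : 8 * t ≤ p * q) (n4 : d * μ < t) (n5 : 2 * j ≤ z)
    (n6 : d * s.card ≤ j * z) (hμ : ∀ x ∈ s, 8 * z ≤ x → s.count x ≤ μ)
    (res : ∀ c N, 1 ≤ c → c ≤ 20 → ∃ e ∈ s, c * z ≤ e ∧ e ≤ (c + 1) * z ∧ d ∣ N + e)
    (ap : ∀ c ε K, 1 ≤ c → c ≤ 20 → ε < 2 → 2 * K ≤ z →
      ∃ U ≤ s, U.card = K ∧ ∀ x ∈ U, c * z ≤ x ∧ x ≤ (c + 2) * z ∧ x % 2 = ε)
    (hs : s.sum = m * d) : GD d s := by
  have dz : d ≤ z := le_trans (Nat.le_mul_of_pos_right _ (by omega)) hz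
  obtain ⟨O, hO⟩ : ∃ O, O = s.filter (· % 2 = 1) := ⟨_, rfl⟩
  obtain ⟨E, hE⟩ : ∃ E, E = s.filter (¬ · % 2 = 1) := ⟨_, rfl⟩
  obtain ⟨Lo, hLo⟩ : ∃ Lo, Lo = O.filter (· ≤ 10 * z) := ⟨_, rfl⟩
  obtain ⟨Hi, hHi⟩ : ∃ Hi, Hi = O.filter (¬ · ≤ 10 * z) := ⟨_, rfl⟩
  have s1 : O + E = s := by rw [hO, hE]; exact filter_add_not _ _
  have s2 : Lo + Hi = O := by rw [hLo, hHi]; exact filter_add_not _ _
  have o1 : ∀ x ∈ O, x % 2 = 1 := fun x hx => by rw [hO] at hx; exact (mem_filter.1 hx).2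
  have o2 : ∀ x ∈ E, x % 2 = 0 := fun x hx => by
    rw [hE] at hx
    have := (mem_filter.1 hx).2
    omega
  have o3 : ∀ x ∈ Lo, x % 2 = 1 ∧ x ≤ 10 * z := fun x hx => by
    rw [hLo] at hx
    exact ⟨o1 x (mem_filter.1 hx).1, (mem_filter.1 hx).2⟩
  have o4 : ∀ x ∈ Hi, x % 2 = 1 ∧ 8 * z ≤ x := fun x hx => by
    rw [hHi] at hx
    have := (mem_filter.1 hx).2
    exact ⟨o1 x (mem_filter.1 hx).1, by omega⟩
  have par : (Lo.card + Hi.card) % 2 = 0 := by
    have p1 := sum_par o1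
    have p2 := sum_par o2
    have p3 : s.sum % 2 = 0 := by
      rw [hs]
      exact Nat.even_iff.1 (hd.mul_left _)
    rw [← s1, sum_add] at p3
    rw [← card_add, s2]
    omega
  obtain ⟨W, w1, w2, w3⟩ := ap 8 1 (3 * (p * q)) (by norm_num) (by norm_num) (by norm_num)
    (by omega)
  have w4 : W ≤ Lo := by
    rw [hLo, hO]
    exact le_filter.2 ⟨le_filter.2 ⟨w1, fun x hx => (w3 x hx).2.2⟩, fun x hx => (w3 x hx).2.1⟩
  obtain ⟨K, r, k1, k2, k3, n, k4⟩ : ∃ K r, Lo.card = K * (p * q) + r ∧ p * q ≤ r ∧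
      r ≤ 3 * (p * q) ∧ ∃ n, Hi.card + r = 4 * n := by
    have c1 := card_le_card w4
    generalize p * q = Q at *
    have Q0 : 0 < Q := by omega
    have c2 := Nat.div_add_mod' Lo.card Q
    have c3 := Nat.mod_lt Lo.card Q0
    have c4 : 2 ≤ Lo.card / Q := (Nat.le_div_iff_mul_le Q0).2 (by omega)
    obtain ⟨k, hk⟩ := Nat.exists_eq_add_of_le c4
    rw [hk, add_mul] at c2
    have c5 : k * Q % 2 = 0 := Nat.even_iff.1 (Even.mul_left (Nat.even_iff.2 (by omega)) _)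
    by_cases c6 : (Hi.card + Lo.card % Q) % 4 = 0
    · exact ⟨k, Lo.card % Q + 2 * Q, by omega, by omega, by omega,
        (Hi.card + (Lo.card % Q + 2 * Q)) / 4, by omega⟩
    · exact ⟨k + 1, Lo.card % Q + Q, by rw [add_mul]; omega, by omega, by omega,
        (Hi.card + (Lo.card % Q + Q)) / 4, by omega⟩
  obtain ⟨U, u1, u2, -⟩ := hEX.top W r (by omega)
  obtain ⟨S, hS⟩ := exists_add_of_le (u1.trans w4)
  have cS : S.card = K * (CP p - p) := by
    have := congrArg card hS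
    rw [card_add] at this
    rw [hq]
    omega
  have q0 : 0 < q := Nat.pos_of_ne_zero (by rintro rfl; simp at hQ)
  have kp : 2 * (K * p) ≤ z := by
    have c1 : Lo.card ≤ s.card := by
      rw [← s1, ← s2, card_add, card_add]
      omega
    refine Nat.le_of_mul_le_mul_left ?_ q0
    have : q * (2 * (K * p)) = 2 * (K * (p * q)) := by ring
    omega
  obtain ⟨B, b1, b2, b3⟩ := ap 20 0 (K * p) (by norm_num) (by norm_num) (by norm_num) kp
  obtain ⟨Z, z1, z2, z3⟩ := ap 5 0 j (by norm_num) (by norm_num) (by norm_num) n5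
  obtain ⟨e, e0, e1, e2, e3⟩ := res 12 (B + S).sum (by norm_num) (by norm_num)
  obtain ⟨e4, G1⟩ := low hSB hd h4 hp ha ha2 hz b2 cS (by omega)
    (fun x hx => ⟨(b3 x hx).2.2, (b3 x hx).1⟩) (fun x hx => o3 x (by simp [hS, hx])) e1 e2 e3
  have hs' : Hi + U ≤ s := by
    rw [← s1, ← s2, hS]
    exact Multiset.le_iff_exists_add.2 ⟨S + E, by abel⟩
  have o5 : ∀ x ∈ Hi + U, x % 2 = 1 ∧ 8 * z ≤ x := fun x hx => by
    rcases mem_add.1 hx with h | h
    · exact o4 x h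
    · have := w3 x (mem_of_le u1 h)
      exact ⟨this.2.2, this.1⟩
  obtain ⟨f, f0, f', g0, f1, g1, f2, f3, g2, g3, G2⟩ := high hEX hSB (n := n) (s := s)
    (M := Hi + U) hd h4 dz (by rw [card_add]; omega) (by omega) n4 o5
    (fun x hx => (count_le_of_le x hs').trans (hμ x (mem_of_le hs' hx) (o5 x hx).2)) res
  have t1 : B + {e} ≤ s := add_le_sep b1 (singleton_le.2 e0) fun x hx hx' => by
    have := b3 x hx
    rw [mem_singleton] at hx'
    omega
  have t2 : B + {e} + {f} ≤ s := add_le_sep t1 (singleton_le.2 f0) fun x hx hx' => by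
    simp only [mem_add, mem_singleton] at hx hx'
    rcases hx with hx | hx
    · have := b3 x hx
      omega
    · omega
  have t3 : B + {e} + {f} + {f'} ≤ s := add_le_sep t2 (singleton_le.2 g0) fun x hx hx' => by
    simp only [mem_add, mem_singleton] at hx hx'
    rcases hx with (hx | hx) | hx
    · have := b3 x hx
      omega
    · omega
    · omega
  have t4 : B + {e} + {f} + {f'} + Z ≤ s := add_le_sep t3 z1 fun x hx hx' => by
    have := z3 x hx'
    simp only [mem_add, mem_singleton] at hx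
    rcases hx with ((hx | hx) | hx) | hx
    · have := b3 x hx
      omega
    · omega
    · omega
    · omega
  have t5 : B + {e} + {f} + {f'} + Z ≤ E := by
    rw [hE]
    refine le_filter.2 ⟨t4, fun x hx => ?_⟩
    simp only [mem_add, mem_singleton] at hx
    rcases hx with (((hx | hx) | hx) | hx) | hx
    · have := b3 x hx
      omega
    · omega
    · omega
    · omega
    · have := z3 x hx
      omega
  obtain ⟨R, hR⟩ := exists_add_of_le t5
  have G3 := hSB.add _ _ _ G1 G2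
  have e5 : s = B + S + {e} + (Hi + U + {f} + {f'}) + (Z + R) := by
    rw [← s1, ← s2, hS, hR]
    abel
  have d1 : d ∣ (Z + R).sum := by
    obtain ⟨m', hm'⟩ := G3
    have y1 := hCH.sum _ _ _ hm'
    have y2 : d ∣ s.sum := hs ▸ Dvd.intro_left _ rfl
    rw [e5, sum_add, y1] at y2
    exact (Nat.dvd_add_right (Dvd.intro_left _ rfl)).1 y2
  obtain ⟨m', hm'⟩ := d1
  rw [e5]
  refine hSB.add _ _ _ G3 ⟨m', hCH.wt m' d _ hd (fun x hx => Nat.even_iff.2 (o2 x ?_))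
    (by rw [hm', mul_comm]) ((countP_le_card _ _).trans ?_)⟩
  · rw [hR]
    rcases mem_add.1 hx with h | h <;> simp [h]
  · have y1 : (Z + R).card ≤ s.card := by
      rw [e5, card_add _ (Z + R)]
      omega
    have y2 := sum_ge fun x hx => (z3 x hx).1
    rw [z2] at y2
    refine Nat.le_of_mul_le_mul_left ?_ (by omega : 0 < d)
    have y3 : d * (Z + R).card ≤ d * s.card := Nat.mul_le_mul_left _ y1
    have y4 : j * (5 * z) = 5 * (j * z) := by ring
    rw [← hm', sum_add]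
    omega

end EVEN

open EVEN in
theorem st_EVEN (hEX : St_EX) (hSB : St_SB) (hCH : St_CH) (hT : St_TYP) : St_EVEN := by
  intro h d m s hd h4 hh hH hs hm
  obtain ⟨-, t2, -⟩ := hT h s hs hH
  obtain ⟨t3, t4⟩ := hs
  have d1 : 1 ≤ d := by omega
  have h0 : 0 < h := by omega
  obtain ⟨y, hy⟩ : ∃ y, y = h ^ 7 := ⟨_, rfl⟩
  have y1 : 1 ≤ y := hy ▸ Nat.one_le_pow _ _ h0
  have y2 : y ^ 2 = h ^ 14 := by rw [hy]; ring
  have y3 : y ^ 3 = h ^ 21 := by rw [hy]; ring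
  have y4 : y ≤ y ^ 2 := by nlinarith
  have y5 : y ^ 2 ≤ y ^ 3 := by nlinarith
  obtain ⟨L, hL⟩ : ∃ L, h ^ 89 = L + 1 :=
    ⟨h ^ 89 - 1, by have := Nat.one_le_pow 89 h h0; omega⟩
  have z1 := m1 hh d1 89 96 (by norm_num)
  have z2 := m0 hh d1 95 96 (by norm_num)
  have z3 := m1 hh d1 95 96 (by norm_num)
  have z4 := m0 hh d1 0 89 (by norm_num)
  have z5 : 0 < h ^ 95 := Nat.pow_pos h0
  have z6 : h ^ 89 ≤ d * h ^ 89 := Nat.le_mul_of_pos_left _ d1
  have z7 : 0 < d * h ^ 95 := Nat.mul_pos d1 z5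
  rw [pow_zero] at z4
  have hdf : ∀ a b, 1 ≤ a → b ≤ h ^ 96 → df (h ^ 96) a b s ≤ h ^ 95 := fun a b h1 h2 =>
    (hEX.mono _ a b 1 (h ^ 96) s s h1 h2 fun _ _ _ => le_rfl).trans t4
  have win : ∀ c c', 1 ≤ c → c' ≤ 30 → 1 ≤ c * (d * h ^ 89) ∧ c' * (d * h ^ 89) ≤ h ^ 96 :=
    fun c c' h1 h2 => ⟨Nat.mul_pos h1 (by omega),
      (Nat.mul_le_mul_right _ h2).trans (by omega)⟩
  refine core hEX hSB hCH (z := d * h ^ 89) (p := 12 * (2 * y + 1) + 1)
    (q := 24 * (2 * y + 1) ^ 2 + 10 * (2 * y + 1)) (t := h ^ 13) (μ := h ^ 12) (j := h ^ 13)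
    hd h4 (by omega) (AP_1 _) (by omega) (Nat.mul_le_mul_left _ ?_) ?_ ?_ ?_ ?_ ?_ ?_ ?_ ?_ ?_ ?_ ?_
    hm
  · have := m0 hh d1 14 89 (by norm_num)
    nlinarith
  · rw [CP_eq (AP_1 _)]
    exact Nat.sub_eq_of_eq_add (by ring)
  · have : (12 * (2 * y + 1) + 1) * (24 * (2 * y + 1) ^ 2 + 10 * (2 * y + 1)) =
        4 * (576 * y ^ 3 + 1008 * y ^ 2 + 581 * y + 110) + 2 := by ring
    omega
  · have a1 := m0 hh d1 21 22 (by norm_num)
    have a2 := m0 hh d1 22 89 (by norm_num)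
    have : (12 * (2 * y + 1) + 1) * (24 * (2 * y + 1) ^ 2 + 10 * (2 * y + 1)) =
        4 * (576 * y ^ 3 + 1008 * y ^ 2 + 581 * y + 110) + 2 := by ring
    omega
  · have a1 := m0 hh d1 102 103 (by norm_num)
    have a2 : h ^ 14 * h ^ 89 ≤ (24 * (2 * y + 1) ^ 2 + 10 * (2 * y + 1)) * (d * h ^ 89) :=
      Nat.mul_le_mul (by nlinarith) z6
    have a3 : h ^ 14 * h ^ 89 = h ^ 103 := by ring
    omega
  · have a1 := m0 hh d1 13 14 (by norm_num)
    have : (12 * (2 * y + 1) + 1) * (24 * (2 * y + 1) ^ 2 + 10 * (2 * y + 1)) =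
        4 * (576 * y ^ 3 + 1008 * y ^ 2 + 581 * y + 110) + 2 := by ring
    omega
  · have a1 := m1 hh d1 12 13 (by norm_num)
    have a2 : 0 < h ^ 13 := Nat.pow_pos h0
    omega
  · have a1 := m0 hh d1 13 89 (by norm_num)
    omega
  · calc d * s.card ≤ d * h ^ 102 := Nat.mul_le_mul_left _ t2
      _ = h ^ 13 * (d * h ^ 89) := by ring
  · intro x hx h1
    have a1 := (t3 x hx).2
    have a2 : h ^ 89 * s.count x ≤ x * s.count x := Nat.mul_le_mul_right _ (by omega)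
    have a3 : h ^ 101 = h ^ 89 * h ^ 12 := by ring
    exact Nat.le_of_mul_le_mul_left (a2.trans (a3 ▸ a1)) (by omega)
  · intro c N c1 c2
    obtain ⟨w1, w2⟩ := win c (c + 1) c1 (by omega)
    have r1 := Nat.mod_lt (N + c * (d * h ^ 89)) d1
    have r2 : (c + 1) * (d * h ^ 89) = c * (d * h ^ 89) + d + d * L := by rw [hL]; ring
    have r3 : (c + 1) * (d * h ^ 89) ≤ 60 * d * L := by
      calc (c + 1) * (d * h ^ 89) ≤ 30 * (d * (2 * L)) :=
            Nat.mul_le_mul (by omega) (Nat.mul_le_mul_left _ (by omega))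
        _ = 60 * d * L := by ring
    obtain ⟨U, u1, -, u3, u4⟩ := hEX.dist (h ^ 96) (c * (d * h ^ 89)) ((c + 1) * (d * h ^ 89)) d
      (c * (d * h ^ 89) + (d - (N + c * (d * h ^ 89)) % d)) L 1 s d1 w1 (by omega) (by omega)
      (lt_of_le_of_lt (hdf _ _ w1 w2) (dist_cond w2 r3 (by omega) (by
        have : 2 * (60 * d) * h ^ 95 = 120 * (d * h ^ 95) := by ring
        omega)))
    obtain ⟨e, rfl⟩ := card_eq_one.1 u3
    obtain ⟨v1, v2, v3⟩ := u4 e (mem_singleton_self e)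
    refine ⟨e, singleton_le.1 u1, v1, v2, Nat.dvd_of_mod_eq_zero ?_⟩
    rw [Nat.add_mod, v3, ← Nat.add_mod, ← add_assoc]
    have r4 := Nat.div_add_mod (N + c * (d * h ^ 89)) d
    have r5 : N + c * (d * h ^ 89) + (d - (N + c * (d * h ^ 89)) % d) =
        d * ((N + c * (d * h ^ 89)) / d + 1) := by
      rw [mul_add]
      omega
    rw [r5, Nat.mul_mod_right]
  · intro c ε K c1 c2 he hK
    obtain ⟨w1, w2⟩ := win c (c + 2) c1 (by omega)
    have r1 : c * (d * h ^ 89) % 2 = 0 := Nat.even_iff.1 ((hd.mul_right _).mul_left _)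
    have r2 : (c + 2) * (d * h ^ 89) = c * (d * h ^ 89) + 2 * (d * h ^ 89) := by ring
    have r3 : (c + 2) * (d * h ^ 89) ≤ 30 * (d * h ^ 89) := Nat.mul_le_mul_right _ (by omega)
    obtain ⟨U, u1, -, u3, u4⟩ := hEX.dist (h ^ 96) (c * (d * h ^ 89)) ((c + 2) * (d * h ^ 89)) 2
      (c * (d * h ^ 89) + ε) (d * h ^ 89 - 1) K s (by norm_num) w1 (by omega) (by omega)
      (lt_of_le_of_lt (hdf _ _ w1 w2) (dist_cond (c := 60) w2 (by omega) (by omega) (by omega)))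
    exact ⟨U, u1, u3, fun x hx => ⟨(u4 x hx).1, (u4 x hx).2.1, by have := (u4 x hx).2.2; omega⟩⟩

end MP7ebc2a.AA
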