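import Pool.Agent.Lib.AA25.Blue

/-! Block FIN: from typical partitions to weights. -/

namespace MP7ebc2a.AA
open Finset Filter

namespace FIN

lemma ex_anti (m : ℕ) (s : Multiset ℕ) (hs : s.card = m) :
    ∃ lam : Fin m → ℕ, Antitone lam ∧ univ.val.map lam = s := by
  have hl : (s.sort (· ≥ ·)).length = m := by rw [Multiset.length_sort, hs]
  have hp : (s.sort (· ≥ ·)).Pairwise (· ≥ ·) := Multiset.pairwise_sort s _
  have he : ((s.sort (· ≥ ·) : List ℕ) : Multiset ℕ) = s := Multiset.sort_eq s _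
  generalize s.sort (· ≥ ·) = L at hl hp he
  subst hl
  refine ⟨L.get, ?_, ?_⟩
  · intro i j hij
    rcases eq_or_lt_of_le hij with h | h
    · rw [h]
    · exact List.pairwise_iff_get.1 hp i j h
  · rw [Fin.univ_val_map, List.ofFn_get, he]

lemma anti_inj {m : ℕ} {f g : Fin m → ℕ} (hf : Antitone f) (hg : Antitone g)
    (h : (univ.val.map f).filter (· ≠ 0) = (univ.val.map g).filter (· ≠ 0)) : f = g := by
  have e : univ.val.map f = univ.val.map g := by
    have c1 : (univ.val.map f).card = (univ.val.map g).card := by simp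
    generalize univ.val.map f = s at h c1
    generalize univ.val.map g = t at h c1
    have a1 := Multiset.filter_add_not (· ≠ 0) s
    have a2 := Multiset.filter_add_not (· ≠ 0) t
    have b1 : s.filter (fun a => ¬ a ≠ 0) =
        Multiset.replicate (s.filter (fun a => ¬ a ≠ 0)).card 0 :=
      Multiset.eq_replicate_card.2 fun b hb => by simpa using (Multiset.mem_filter.1 hb).2
    have b2 : t.filter (fun a => ¬ a ≠ 0) =
        Multiset.replicate (t.filter (fun a => ¬ a ≠ 0)).card 0 :=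
      Multiset.eq_replicate_card.2 fun b hb => by simpa using (Multiset.mem_filter.1 hb).2
    have d1 := congrArg Multiset.card a1
    have d2 := congrArg Multiset.card a2
    rw [Multiset.card_add] at d1 d2
    rw [h] at d1
    have d3 : (s.filter (fun a => ¬ a ≠ 0)).card = (t.filter (fun a => ¬ a ≠ 0)).card := by omega
    rw [← a1, ← a2, h, b1, d3, ← b2]
  rw [Fin.univ_val_map, Fin.univ_val_map, Multiset.coe_eq_coe] at e
  apply List.ofFn_injective
  refine List.Perm.eq_of_pairwise (le := (· ≥ ·)) (fun a b _ _ h1 h2 => le_antisymm h2 h1) ?_ ?_ e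
  · exact List.pairwise_ofFn.2 fun i j hij => hf hij.le
  · exact List.pairwise_ofFn.2 fun i j hij => hg hij.le

lemma large : ∃ H : ℕ, ∀ h ≥ H, 5 ^ h * h ^ 101 < 6 ^ h ∧ harmonic (h ^ 101) ≤ h := by
  have t1 := tendsto_pow_const_div_const_pow_of_one_lt 101 (r := 6 / 5) (by norm_num)
  have e1 := t1.eventually (gt_mem_nhds (show (0 : ℝ) < 1 by norm_num))
  have t2 := (Real.isLittleO_log_id_atTop.bound (show (0 : ℝ) < 1 / 202 by norm_num))
  have e2 := tendsto_natCast_atTop_atTop.eventually t2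
  obtain ⟨H, hH⟩ := eventually_atTop.1 (e1.and (e2.and (eventually_ge_atTop 2)))
  refine ⟨H, fun h hh => ?_⟩
  obtain ⟨a1, a2, a3⟩ := hH h hh
  constructor
  · have p5 : (0 : ℝ) < 5 ^ h := pow_pos (by norm_num) _
    have p6 : (0 : ℝ) < (6 / 5) ^ h := pow_pos (by norm_num) _
    rw [div_lt_one p6, div_pow, lt_div_iff₀ p5, mul_comm] at a1
    exact_mod_cast a1
  · have b1 := harmonic_le_one_add_log (h ^ 101)
    rw [Nat.cast_pow, Real.log_pow] at b1
    have b2 : (2 : ℝ) ≤ h := by exact_mod_cast a3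
    simp only [id, Real.norm_eq_abs] at a2
    rw [abs_of_nonneg (show (0 : ℝ) ≤ h by linarith)] at a2
    have b3 := le_abs_self (Real.log h)
    have b4 : ((harmonic (h ^ 101) : ℚ) : ℝ) ≤ h := by
      push_cast at b1
      linarith
    exact_mod_cast b4

lemma root (n : ℕ) : ∃ h : ℕ, h ^ 200 ≤ n ∧ n < (h + 1) ^ 200 := by
  have ex : ∃ k : ℕ, n < (k + 1) ^ 200 :=
    ⟨n, lt_of_lt_of_le (Nat.lt_succ_self n) (Nat.le_self_pow (by norm_num) _)⟩
  classical
  refine ⟨Nat.find ex, ?_, Nat.find_spec ex⟩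
  rcases hk : Nat.find ex with _ | k
  · simp
  · exact not_lt.1 (Nat.find_min ex (by omega))

lemma sizes (K m d h : ℕ) (hd : 1 ≤ d) (h1 : d ^ 400 ≤ m) (h2 : K ^ 400 ≤ m)
    (h3 : d * m < (h + 1) ^ 200) : K * d ≤ h := by
  have a0 : 0 < d := hd
  have a1 : ((K * d) ^ 200) ^ 2 ≤ m ^ 2 := by
    rw [← pow_mul, mul_pow, sq m]
    exact Nat.mul_le_mul h2 h1
  have a2 : (K * d) ^ 200 ≤ m := (Nat.pow_le_pow_iff_left two_ne_zero).1 a1
  have a3 : (K * d) ^ 200 < (h + 1) ^ 200 :=
    lt_of_le_of_lt (a2.trans (Nat.le_mul_of_pos_left _ a0)) h3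
  exact Nat.lt_succ_iff.1 (lt_of_pow_lt_pow_left₀ 200 (Nat.zero_le _) a3)

end FIN

open Classical in
theorem st_FIN (hP3 : St_P3) (hO : St_ODD) (hE : St_EVEN) (hT : St_TYP) (hCH : St_CH) :
    St_FIN := by
  intro ε hε
  obtain ⟨η, η0, η1, η2⟩ : ∃ η : ℝ, 0 < η ∧ 2 * η ≤ 1 ∧ 2 * η ≤ ε :=
    ⟨min 1 ε / 2, by positivity, by linarith [min_le_left 1 ε], by linarith [min_le_right 1 ε]⟩
  obtain ⟨h0, hh0⟩ := hP3 η η0
  obtain ⟨H, hH⟩ := FIN.large
  obtain ⟨K, K0, K1, K2⟩ : ∃ K : ℕ, h0 ≤ K ∧ H ≤ K ∧ 10000 ≤ K :=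
    ⟨h0 + H + 10000, by omega, by omega, by omega⟩
  refine ⟨K ^ 400, fun m hm d hd hdm => ?_⟩
  obtain ⟨h, r1, r2⟩ := FIN.root (d * m)
  have s1 := FIN.sizes K m d h (by omega) hdm hm r2
  have s2 : K ≤ h := (Nat.le_mul_of_pos_right _ (by omega)).trans s1
  have s3 : 10000 * d ≤ h := (Nat.mul_le_mul_right _ K2).trans s1
  obtain ⟨l1, l2⟩ := hH h (by omega)
  have s4 : h ^ 102 ≤ m := by
    have a1 : h * h ^ 102 ≤ h * m :=
      calc h * h ^ 102 = h ^ 103 := (pow_succ' h 102).symm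
        _ ≤ h ^ 200 := Nat.pow_le_pow_right (by omega) (by norm_num)
        _ ≤ d * m := r1
        _ ≤ h * m := Nat.mul_le_mul_right _ (by omega)
    exact Nat.le_of_mul_le_mul_left a1 (by omega)
  have p3 := hh0 h (by omega) (d * m) r1 r2
  have gd : ∀ s : Multiset ℕ, Typ h s → s.sum = m * d → GD d s := fun s t1 t2 => by
    rcases Nat.even_or_odd d with e | e
    · exact hE h d m s e hd s3 l2 t1 t2
    · exact hO h d m s e (by obtain ⟨k, hk⟩ := e; omega) s3 l1 l2 t1 t2
  clear hh0 hH hO hE hP3 r1 r2 l1 hdm hm s1 s2 K0 K1 K2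
  generalize hn : d * m = n at p3 ⊢
  obtain ⟨A, hA⟩ : ∃ A, A = (piAntidiag univ n).filter fun lam : Fin m → ℕ => Antitone lam :=
    ⟨_, rfl⟩
  obtain ⟨B, hB⟩ : ∃ B, B = (piAntidiag univ n).filter fun lam : Fin m → ℕ =>
    Antitone lam ∧ ¬ HasInv lam := ⟨_, rfl⟩
  obtain ⟨N, hN⟩ : ∃ N, N = univ.filter fun l : Nat.Partition n => ¬ Typ h l.parts := ⟨_, rfl⟩
  obtain ⟨T, hTT⟩ : ∃ T, T = univ.filter fun l : Nat.Partition n => Typ h l.parts := ⟨_, rfl⟩
  rw [← hA, ← hB]
  rw [← hN] at p3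
  have c0 : T.card + N.card = pn n := by
    rw [hTT, hN, card_filter_add_card_filter_not]; rfl
  have c1 : B.card ≤ N.card := by
    refine le_trans (card_le_card_of_injOn
      (t := N.image fun l => l.parts) (fun lam => (univ.val.map lam).filter (· ≠ 0)) ?_ ?_)
      card_image_le
    · intro lam hl
      rw [hB, mem_coe, mem_filter, mem_piAntidiag] at hl
      obtain ⟨⟨u1, -⟩, u2, u3⟩ := hl
      have u4 : (univ.val.map lam).sum = n := u1
      refine mem_coe.2 (mem_image.2 ⟨Nat.Partition.ofSums n _ u4, ?_, rfl⟩)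
      rw [hN, mem_filter]
      refine ⟨mem_univ _, fun ty => u3 ?_⟩
      have u5 := (Nat.Partition.ofSums n _ u4).parts_sum
      obtain ⟨m', g⟩ := gd _ ty (by rw [u5, ← hn, mul_comm])
      have u6 := hCH.sum _ _ _ g
      have u7 : m' = m := by
        rw [u5, ← hn, mul_comm] at u6
        exact (Nat.eq_of_mul_eq_mul_right (by omega) u6).symm
      subst u7
      refine hCH.inv _ d lam u2 (hCH.zero _ _ _ _ ?_ g)
      exact Multiset.filter_eq_self.2 fun a ha =>
        ((Nat.Partition.ofSums n _ u4).parts_pos ha).ne'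
    · intro f hf g hg e
      rw [hB, mem_coe, mem_filter] at hf hg
      exact FIN.anti_inj hf.2.1 hg.2.1 e
  have c2 : T.card ≤ A.card := by
    have e : T.card = (T.image fun l => l.parts).card :=
      (card_image_of_injective _ fun a b hab => Nat.Partition.ext hab).symm
    rw [e]
    refine le_trans (card_le_card ?_)
      (card_image_le (s := A) (f := fun lam => (univ.val.map lam).filter (· ≠ 0)))
    intro s hs
    obtain ⟨l, hl, rfl⟩ := mem_image.1 hs
    rw [hTT, mem_filter] at hl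
    have u1 : l.parts.card ≤ m := (hT h _ hl.2 l2).2.1.trans s4
    obtain ⟨lam, v1, v2⟩ := FIN.ex_anti m (l.parts + Multiset.replicate (m - l.parts.card) 0)
      (by rw [Multiset.card_add, Multiset.card_replicate]; omega)
    refine mem_image.2 ⟨lam, ?_, ?_⟩
    · rw [hA, mem_filter, mem_piAntidiag]
      refine ⟨⟨?_, fun i _ => mem_univ i⟩, v1⟩
      have : (univ.val.map lam).sum = n := by
        rw [v2, Multiset.sum_add, l.parts_sum]; simp
      exact this
    · rw [v2, Multiset.filter_add, Multiset.filter_eq_self.2 fun a ha => (l.parts_pos ha).ne',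
        Multiset.filter_eq_nil.2 fun a ha => by simp [Multiset.eq_of_mem_replicate ha], add_zero]
  have d0 : (T.card : ℝ) + N.card = pn n := by exact_mod_cast c0
  have d1 : (B.card : ℝ) ≤ N.card := by exact_mod_cast c1
  have d2 : (T.card : ℝ) ≤ A.card := by exact_mod_cast c2
  have d3 : (0 : ℝ) ≤ pn n := Nat.cast_nonneg _
  have d4 : (pn n : ℝ) ≤ 2 * A.card := by nlinarith
  have d5 : (0 : ℝ) ≤ A.card := Nat.cast_nonneg _
  nlinarith

end MP7ebc2a.AA
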