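import Pool.Agent.Lib.AA25.Blue

/-! Coefficient extraction, and signed sums over line preserving permutations. -/

namespace MP7ebc2a.AA
open Equiv Finset

namespace FIB

lemma exists_equiv {J J' σ : Type*} [Fintype J] [Fintype J'] [DecidableEq σ] (t : J → σ)
    (t' : J' → σ) (h : ∀ a, #{j | t j = a} = #{j | t' j = a}) : ∃ w : J ≃ J', ∀ j, t' (w j) = t j :=
  ⟨ofFiberEquiv fun a => Fintype.equivOfCardEq (by
    rw [Fintype.card_subtype, Fintype.card_subtype, h]), ofFiberEquiv_map _⟩

lemma exists_perm {J σ : Type*} [Fintype J] {t t' : J → σ}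
    (h : univ.val.map t = univ.val.map t') : ∃ w : Perm J, ∀ j, t' (w j) = t j := by
  classical
  refine exists_equiv t t' fun a => ?_
  have := congrArg (Multiset.countP (· = a)) h
  rwa [countP_univ, countP_univ] at this

lemma map_perm {J σ : Type*} [Fintype J] {t t' : J → σ} (w : Perm J) (h : ∀ j, t' (w j) = t j) :
    univ.val.map t = univ.val.map t' := by
  rw [← funext h]
  exact (Multiset.map_map t' w _).symm.trans (by rw [Multiset.map_univ_val_equiv w])

end FIB

theorem st_FIB : St_FIB := by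
  intro R I J σ _ _ s c t χ h hχ
  classical
  let e : I → σ →₀ ℕ := fun i => ∑ j, Finsupp.single (t i j) 1
  let g : (σ →₀ ℕ) → R := fun m => if h : ∃ i ∈ s, e i = m then χ h.choose else 0
  have h1 : ∀ i ∈ s, g (e i) = χ i := fun i hi => by
    have h2 : ∃ i' ∈ s, e i' = e i := ⟨i, hi, rfl⟩
    obtain ⟨w, hw⟩ := FIB.exists_equiv (t h2.choose) (t i) fun a => by
      have := DFunLike.congr_fun h2.choose_spec.2 a
      simpa only [e, Finsupp.finsetSum_apply, Finsupp.single_apply, ← card_filter] using this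
    exact (dif_pos h2).trans (hχ _ h2.choose_spec.1 i hi w hw)
  have h2 := congrArg ((MvPolynomial.basisMonomials σ R).constr R g) h
  rw [map_sum, map_zero] at h2
  rw [← h2]
  refine sum_congr rfl fun i hi => ?_
  have h3 : ∏ j, (MvPolynomial.X (t i j) : MvPolynomial σ R) =
      MvPolynomial.basisMonomials σ R (e i) := by
    rw [MvPolynomial.coe_basisMonomials]
    exact (MvPolynomial.monomial_sum_one _ _).symm
  rw [h3, MvPolynomial.C_mul', map_smul, Module.Basis.constr_basis, h1 i hi, smul_eq_mul]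

/-- the same for polynomial functions -/
lemma FIB.fn {I J σ : Type} [Fintype J] (s : Finset I) (c : I → ℂ) (t : I → J → σ) (χ : I → ℂ)
    (h : ∀ z : σ → ℂ, ∑ i ∈ s, c i * ∏ j, z (t i j) = 0)
    (hχ : ∀ i ∈ s, ∀ i' ∈ s, ∀ w : Perm J, (∀ j, t i' (w j) = t i j) → χ i = χ i') :
    ∑ i ∈ s, c i * χ i = 0 :=
  st_FIB s c t χ (MvPolynomial.funext fun z => by simpa using h z) hχ

theorem st_SIG : St_SIG := by
  intro R ι _ _ _ ν M
  let _ : LinearOrder ι := LinearOrder.lift' (Fintype.equivFin ι) (Equiv.injective _)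
  let A : Matrix (Bx ν) (Bx ν) R := Matrix.of fun x y => if y.1 = x.1 then M x y else 0
  have h1 : A.BlockTriangular fun x => x.1 := fun x y h => if_neg h.ne
  have h2 := @Matrix.BlockTriangular.det_fintype _ _ _ _ _ _ _ _ _ _ _ h1
  rw [← Matrix.det_transpose, Matrix.det_apply'] at h2
  rw [sum_filter]
  refine (sum_congr rfl fun g _ => ?_).trans (h2.trans (prod_congr rfl fun k _ => ?_))
  · simp only [A, Matrix.transpose_apply, Matrix.of_apply, Fintype.prod_ite_zero, mul_ite, mul_zero]
  · rw [← Matrix.det_submatrix_equiv_self (sigmaSubtype k).symm]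
    congr 1
    ext i j
    exact if_pos rfl

end MP7ebc2a.AA
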