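import Pool.Agent.Lib.AA25.B_TR
import Pool.Agent.Lib.AA25.B_FIB

/-! The link between products of minors and the hub. -/

namespace MP7ebc2a.AA
open Equiv Finset

namespace LINK

variable {m d N : ℕ} {ν : Fin N → ℕ}

lemma phi_eq {R : Type} [CommRing R] (hν : ∀ k, ν k ≤ m) (A : Matrix (Fin m) (Fin m) R)
    (f : Bx ν → Fin m) : Phi hν d A (fun k i => f ⟨k, i⟩) =
    ∑ w : Perm (Fin m), ∑ g : Perm (Bx ν) with ∀ x, (g x).1 = x.1,
      (((Perm.sign w : ℤˣ) : ℤ) : R) ^ d * (((Perm.sign g : ℤˣ) : ℤ) : R) *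
        ∏ x : Bx ν, A (Fin.castLE (hν x.1) x.2) (w (f (g x))) := by
  refine sum_congr rfl fun w _ => ?_
  simp only [mul_assoc, ← mul_sum]
  rw [st_SIG ν fun x y => A (Fin.castLE (hν x.1) x.2) (w (f y))]
  rfl

lemma content_eq (τ : Fill m ν) (j : Fin m) : content τ j = #{x : Bx ν | τ x.1 x.2 = j} := by
  rw [content, card_filter, Fintype.sum_sigma]
  simp only [card_filter]

lemma card_fst (j : Fin m) : #{p : Fin m × Fin d | p.1 = j} = d := by
  rw [card_filter, Fintype.sum_prod_type_right]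
  simp

lemma fiber {β α γ : Type} (ρ ρ' : β ≃ α × γ) (h : ∀ x, (ρ' x).1 = (ρ x).1) :
    ∃ σ : α → Perm γ, ρ' = ρ.trans (prodCongrRight σ) := by
  have h1 : ∀ p, (ρ' (ρ.symm p)).1 = p.1 := fun p => by rw [h, apply_symm_apply]
  have h2 : ∀ p, (ρ (ρ'.symm p)).1 = p.1 := fun p => by rw [← h, apply_symm_apply]
  refine ⟨fun j => ⟨fun k => (ρ' (ρ.symm (j, k))).2, fun k => (ρ (ρ'.symm (j, k))).2, fun k => ?_,
    fun k => ?_⟩, Equiv.ext fun x => Prod.ext (h x) ?_⟩
  · have : (j, (ρ' (ρ.symm (j, k))).2) = ρ' (ρ.symm (j, k)) := Prod.ext (h1 (j, k)).symm rfl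
    simp only [this, symm_apply_apply, apply_symm_apply]
  · have : (j, (ρ (ρ'.symm (j, k))).2) = ρ (ρ'.symm (j, k)) := Prod.ext (h2 (j, k)).symm rfl
    simp only [this, symm_apply_apply, apply_symm_apply]
  · simp [prodCongrRight]

end LINK

open LINK in
theorem st_LINK : St_LINK := by
  intro m d N ν hν
  constructor
  · rintro ⟨-, e, he, hG⟩
    obtain ⟨Z, -, τ, h1, h2⟩ := fill_of_good hν he hG
    obtain ⟨ρ, hρ⟩ := FIB.exists_equiv (fun x : Bx ν => τ x.1 x.2) (fun p : Fin m × Fin d => p.1)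
      fun a => by rw [← content_eq, h1, card_fst]
    refine ⟨fun ρ => ∑ w : Perm (Fin m), ((Perm.sign w : ℤˣ) : ℤ) ^ d *
      ∏ x : Bx ν, Z (Fin.castLE (hν x.1) x.2) (w (ρ x).1), fun g hg ρ => ?_, fun w ρ => ?_,
      fun σ ρ => by rw [pow_zero, one_mul]; rfl, ρ, fun h => h2 ?_⟩
    · refine sum_congr rfl fun w _ => congrArg _ (Eq.trans (prod_congr rfl fun x _ => ?_)
        (Equiv.prod_comp g fun x => Z (Fin.castLE (hν x.1) x.2) (w (ρ x).1)))
      rw [show Fin.castLE (hν (g x).1) (g x).2 = Fin.castLE (hν x.1) x.2 from Fin.ext (hg x)]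
      rfl
    · beta_reduce
      rw [mul_sum, ← Equiv.sum_comp (Equiv.mulRight w) fun u => _ * (_ * ∏ x : Bx ν, Z _ (u (ρ x).1))]
      refine sum_congr rfl fun u _ => ?_
      rw [← mul_assoc, ← mul_pow, coe_mulRight, Perm.sign_mul, Units.val_mul, mul_left_comm, DUAL.usq,
        mul_one]
      rfl
    · rw [← h, show τ = fun k i => (ρ ⟨k, i⟩).1 from funext₂ fun k i => (hρ ⟨k, i⟩).symm,
        phi_eq hν Z fun x => (ρ x).1, sum_comm, alt]
      refine sum_congr rfl fun g _ => ?_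
      rw [mul_sum]
      exact sum_congr rfl fun w _ => by simp only [Int.cast_id, trans_apply]; ring
  · rintro ⟨φ, h1, h2, h3, ρ, h4⟩
    refine ⟨fun x hx => ?_, d + 1, ⟨d + 1, by ring⟩, ?_⟩
    · obtain ⟨k, -, rfl⟩ := Multiset.mem_map.1 hx
      exact hν k
    have h5 : Phi hν d (Matrix.mvPolynomialX (Fin m) (Fin m) ℂ) (fun k i => (ρ ⟨k, i⟩).1) ≠ 0 := by
      intro h
      have := st_FIB (R := ℂ) ((univ : Finset (Perm (Fin m))) ×ˢ
          (univ.filter fun g : Perm (Bx ν) => ∀ x, (g x).1 = x.1))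
        (fun i => (((Perm.sign i.1 : ℤˣ) : ℤ) : ℂ) ^ d * ((Perm.sign i.2 : ℤˣ) : ℤ))
        (fun i x => (Fin.castLE (hν x.1) x.2, ((i.2.trans ρ).trans (prodCongrLeft fun _ => i.1) x).1))
        (fun i => φ ((i.2.trans ρ).trans (prodCongrLeft fun _ => i.1))) (by
          rw [← h, phi_eq hν _ fun x => (ρ x).1, sum_product]
          simp only [map_mul, map_pow, map_intCast]
          rfl) (fun i _ i' _ w hw => by
          generalize (i.2.trans ρ).trans (prodCongrLeft fun _ => i.1) = a at hw ⊢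
          generalize (i'.2.trans ρ).trans (prodCongrLeft fun _ => i'.1) = a' at hw ⊢
          obtain ⟨σ, e⟩ := fiber (w.trans a') a fun x => (congrArg Prod.snd (hw x)).symm
          rw [e, h3, pow_zero, one_mul, h1 w fun x => congrArg (fun p => (p.1 : ℕ)) (hw x)])
      rw [sum_product] at this
      have e : ∀ (w : Perm (Fin m)) (g : Perm (Bx ν)), (((Perm.sign w : ℤˣ) : ℤ) : ℂ) ^ d *
          ((Perm.sign g : ℤˣ) : ℤ) * φ ((g.trans ρ).trans (prodCongrLeft fun _ => w)) =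
          ((((Perm.sign g : ℤˣ) : ℤ) * φ (g.trans ρ) : ℤ) : ℂ) := fun w g => by
        rw [h2]
        push_cast
        linear_combination (((Perm.sign g : ℤˣ) : ℤ) * φ (g.trans ρ) : ℂ) * sign_sq (R := ℂ) w d
      simp only [e, ← Int.cast_sum, sum_const, nsmul_eq_mul] at this
      exact h4 ((mul_eq_zero.1 (Int.cast_eq_zero.1 this)).resolve_left
        (Nat.cast_ne_zero.2 (card_ne_zero_of_mem (mem_univ 1))))
    obtain ⟨z, hz⟩ : ∃ z, MvPolynomial.eval z ((Matrix.mvPolynomialX (Fin m) (Fin m) ℂ).det *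
        Phi hν d (Matrix.mvPolynomialX (Fin m) (Fin m) ℂ) fun k i => (ρ ⟨k, i⟩).1) ≠ 0 := by
      by_contra! h
      exact mul_ne_zero (Matrix.det_mvPolynomialX_ne_zero _ _) h5
        (MvPolynomial.funext fun z => by rw [h, map_zero])
    rw [map_mul, map_Phi, RingHom.map_det] at hz
    refine good_of_phi hν ⟨d + 1, by ring⟩ _ _ (left_ne_zero_of_mul hz) (fun j => ?_)
      (right_ne_zero_of_mul hz)
    exact (content_eq _ j).trans ((card_equiv ρ fun x => by simp).trans (card_fst j))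

end MP7ebc2a.AA
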