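import Pool.Agent.Lib.AA25.Blue

/-! Elementary inequalities for the partition function. -/

namespace MP7ebc2a.AA
open Finset

namespace P1

lemma cnt (n i t : ℕ) (hi : 0 < i) (h : i * t ≤ n) :
    (univ.filter fun l : Nat.Partition n => t ≤ l.parts.count i).card = pn (n - i * t) := by
  symm
  rw [pn, ← card_univ]
  refine card_bij (fun l _ => ⟨l.parts + Multiset.replicate t i, fun {x} hx => ?_, ?_⟩) ?_ ?_ ?_
  · rcases Multiset.mem_add.1 hx with hx | hx
    · exact l.parts_pos hx
    · rw [Multiset.eq_of_mem_replicate hx]; exact hi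
  · rw [Multiset.sum_add, l.parts_sum, Multiset.sum_replicate, smul_eq_mul, mul_comm t]; omega
  · intro l _
    simp
  · intro l _ l' _ e
    exact Nat.Partition.ext (add_right_cancel (congrArg Nat.Partition.parts e))
  · intro l hl
    have h1 := Multiset.le_count_iff_replicate_le.1 (mem_filter.1 hl).2
    have h2 := Multiset.sub_add_cancel h1
    refine ⟨⟨l.parts - Multiset.replicate t i, fun {x} hx =>
      l.parts_pos (Multiset.mem_of_le tsub_le_self hx), ?_⟩, mem_univ _, Nat.Partition.ext h2⟩
    have h3 := congrArg Multiset.sum h2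
    rw [Multiset.sum_add, l.parts_sum, Multiset.sum_replicate, smul_eq_mul, mul_comm t] at h3
    omega

lemma mono : Monotone pn := fun a b h => by
  have := cnt b 1 (b - a) one_pos (by omega)
  rw [show b - 1 * (b - a) = a by omega] at this
  rw [← this]
  exact card_le_univ _

lemma dbl (J k : ℕ) (hJ : 0 < J) (h1 : 4 * k ≤ J ^ 2) (h2 : J ≤ k) : 2 * pn (k - J) ≤ pn k := by
  have a : ∀ l : Nat.Partition k, ∑ i ∈ range (J + 1), (if 1 ≤ l.parts.count i then i else 0) ≤ k :=
    fun l => by
    conv_rhs => rw [← l.parts_sum, sum_multiset_count_of_subset _ (range (k + 1)) fun x hx =>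
      mem_range.2 (Nat.lt_succ_of_le (Nat.Partition.le_of_mem_parts (Multiset.mem_toFinset.1 hx)))]
    refine le_trans (sum_le_sum fun i _ => ?_) (sum_le_sum_of_subset (range_subset_range.2 (by omega)))
    split_ifs with h
    · exact Nat.le_mul_of_pos_left _ h
    · exact Nat.zero_le _
  have b : (∑ i ∈ range (J + 1), i) * pn (k - J) ≤ k * pn k := by
    calc _ = ∑ i ∈ range (J + 1), i * pn (k - J) := sum_mul _ _ _
      _ ≤ ∑ i ∈ range (J + 1), ∑ l : Nat.Partition k, (if 1 ≤ l.parts.count i then i else 0) := by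
        refine sum_le_sum fun i hi => ?_
        have := mem_range.1 hi
        rcases Nat.eq_zero_or_pos i with rfl | h0
        · simp
        · rw [← sum_filter, sum_const, cnt k i 1 h0 (by omega), smul_eq_mul, mul_comm]
          exact Nat.mul_le_mul_right _ (mono (by omega))
      _ ≤ ∑ _l : Nat.Partition k, k := by
        rw [sum_comm]
        exact sum_le_sum fun l _ => a l
      _ = k * pn k := by rw [sum_const, card_univ, smul_eq_mul, mul_comm, pn]
  have c := sum_range_id_mul_two (J + 1)
  rw [Nat.add_sub_cancel] at c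
  have d : 2 * k ≤ ∑ i ∈ range (J + 1), i := by nlinarith
  refine Nat.le_of_mul_le_mul_left ?_ (show 0 < k by omega)
  nlinarith [Nat.mul_le_mul_right (pn (k - J)) d]

lemma few (n r : ℕ) : ∃ S : Finset (Multiset ℕ), S.card ≤ (n + 1) ^ (2 * r) ∧
    ∀ s : Multiset ℕ, s.toFinset.card ≤ r → (∀ x ∈ s, x ≤ n ∧ s.count x ≤ n) → s ∈ S := by
  induction r with
  | zero => exact ⟨{0}, by simp, fun s h _ => by simpa using h⟩
  | succ r ih =>
    obtain ⟨S, h1, h2⟩ := ih
    refine ⟨((range (n + 1) ×ˢ range (n + 1)) ×ˢ S).image fun x =>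
      Multiset.replicate x.1.2 x.1.1 + x.2, card_image_le.trans ?_, fun s hs hb => ?_⟩
    · rw [card_product, card_product, card_range, show 2 * (r + 1) = 2 + 2 * r by ring, pow_add, sq]
      exact Nat.mul_le_mul_left _ h1
    · by_cases h0 : s = 0
      · exact mem_image.2 ⟨((0, 0), 0), by simp [h2 0 (by simp) (by simp)], by simp [h0]⟩
      · obtain ⟨a, ha⟩ := Multiset.exists_mem_of_ne_zero h0
        refine mem_image.2 ⟨((a, s.count a), s.filter fun x => ¬ x = a), ?_, ?_⟩
        · simp only [mem_product, mem_range, Nat.lt_succ_iff]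
          refine ⟨hb a ha, h2 _ ?_ fun x hx => ⟨(hb x (Multiset.mem_filter.1 hx).1).1,
            (Multiset.count_le_of_le _ (Multiset.filter_le _ _)).trans
              (hb x (Multiset.mem_filter.1 hx).1).2⟩⟩
          have : (s.filter fun x => ¬ x = a).toFinset = s.toFinset.erase a := by
            ext x; simp [and_comm]
          rw [this, card_erase_of_mem (Multiset.mem_toFinset.2 ha)]
          omega
        · simp only
          rw [← Multiset.filter_eq', Multiset.filter_add_not]

lemma cnt_le {k : ℕ} (l : Nat.Partition k) {x : ℕ} (hx : x ∈ l.parts) : l.parts.count x ≤ k := by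
  have h1 := Multiset.le_count_iff_replicate_le.1 (le_refl (l.parts.count x))
  have h3 := congrArg Multiset.sum (Multiset.sub_add_cancel h1)
  rw [Multiset.sum_add, l.parts_sum, Multiset.sum_replicate, smul_eq_mul] at h3
  have := Nat.le_mul_of_pos_right (l.parts.count x) (l.parts_pos hx)
  omega

lemma many (k : ℕ) : ∑ l ∈ univ.filter (fun l : Nat.Partition k => l.parts.count 1 = 0),
    l.parts.toFinset.card ≤ pn k := by
  rw [← card_sigma, pn, ← card_univ,
    ← card_image_of_injective (f := Nat.Partition.parts) _ fun _ _ => Nat.Partition.ext]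
  refine card_le_card_of_injOn (fun x => x.1.parts.erase x.2 + Multiset.replicate x.2 1) ?_ ?_
  · rintro ⟨l, i⟩ hx
    simp only [coe_sigma, Set.mem_sigma_iff, mem_coe, Multiset.mem_toFinset] at hx
    refine mem_image.2 ⟨⟨_, fun {x} hx' => ?_, ?_⟩, mem_univ _, rfl⟩
    · rcases Multiset.mem_add.1 hx' with h | h
      · exact l.parts_pos (Multiset.mem_of_mem_erase h)
      · rw [Multiset.eq_of_mem_replicate h]; exact one_pos
    · have := Multiset.sum_erase hx.2
      rw [l.parts_sum] at this
      simp only [Multiset.sum_add, Multiset.sum_replicate, smul_eq_mul]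
      omega
  · rintro ⟨l, i⟩ hx ⟨l', i'⟩ hx' e
    simp only [coe_sigma, Set.mem_sigma_iff, mem_coe, Multiset.mem_toFinset, mem_filter] at hx hx' e
    have e1 := congrArg (Multiset.count 1) e
    have z := Multiset.count_le_of_le 1 (Multiset.erase_le i l.parts)
    have z' := Multiset.count_le_of_le 1 (Multiset.erase_le i' l'.parts)
    simp only [Multiset.count_add, Multiset.count_replicate_self] at e1
    obtain rfl : i = i' := by omega
    have e2 := add_right_cancel e
    obtain rfl : l = l' := Nat.Partition.ext (by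
      rw [← Multiset.cons_erase hx.2, e2, Multiset.cons_erase hx'.2])
    rfl

end P1

theorem st_P1 : St_P1 := ⟨P1.cnt, P1.mono, P1.dbl⟩

theorem st_P2 : St_P2 := by
  intro n k r _ hk
  obtain ⟨S, h1, h2⟩ := P1.few n r
  set A := univ.filter fun l : Nat.Partition k => l.parts.count 1 = 0 with hA
  rw [← card_filter_add_card_filter_not (s := A) fun l => r ≤ l.parts.toFinset.card, mul_add]
  refine Nat.add_le_add ?_ (Nat.mul_le_mul_left _ (le_trans ?_ h1))
  · refine le_trans ?_ ((sum_le_sum_of_subset (filter_subset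
      (fun l => r ≤ l.parts.toFinset.card) A)).trans (P1.many k))
    rw [mul_comm]
    exact card_nsmul_le_sum _ _ _ fun l hl => (mem_filter.1 hl).2
  · refine card_le_card_of_injOn Nat.Partition.parts (fun l hl => ?_) fun _ _ _ _ => Nat.Partition.ext
    refine h2 _ (not_le.1 (mem_filter.1 hl).2).le fun x hx =>
      ⟨(Nat.Partition.le_of_mem_parts hx).trans hk, (P1.cnt_le l hx).trans hk⟩

end MP7ebc2a.AA
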