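import Pool.Agent.Lib.AA25.B_EX

/-! Almost every partition is typical. -/

namespace MP7ebc2a.AA
open Finset

namespace P3

lemma iter (h1 : St_P1) {J n : ℕ} (hJ : 0 < J) (h4 : 4 * n ≤ J ^ 2) (a : ℕ) :
    a * J ≤ n → 2 ^ a * pn (n - a * J) ≤ pn n := by
  induction a with
  | zero => simp
  | succ a ih =>
    intro ha
    rw [add_mul, one_mul] at ha
    have := h1.dbl J (n - a * J) hJ (by omega) (by omega)
    rw [pow_succ, mul_assoc, show n - (a + 1) * J = n - a * J - J by rw [add_mul]; omega]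
    exact (Nat.mul_le_mul_left _ this).trans (ih (by omega))

lemma compl (h1 : St_P1) {n i t : ℕ} (hi : 0 < i) (h : i * t ≤ n) :
    (univ.filter fun l : Nat.Partition n => l.parts.count i < t).card + pn (n - i * t) = pn n := by
  rw [← h1.cnt n i t hi h, add_comm, pn, ← card_univ,
    ← card_filter_add_card_filter_not (s := univ) fun l : Nat.Partition n => t ≤ l.parts.count i]
  simp only [not_le]

lemma step (h1 : St_P1) (h2 : St_P2) {n r : ℕ} (hr : 0 < r) (hb : r * (n + 1) ^ (2 * r) ≤ pn n)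
    (m : ℕ) : m ≤ n → r * pn n ≤ r * pn (n - m) + 2 * m * pn n := by
  induction m with
  | zero => simp
  | succ m ih =>
    intro hm
    have a := compl h1 (n := n - m) (i := 1) (t := 1) one_pos (by omega)
    have b := h2 n (n - m) r hr (by omega)
    have c := h1.mono (show n - m ≤ n by omega)
    have d := ih (by omega)
    simp only [Nat.lt_one_iff] at a
    rw [show n - m - 1 * 1 = n - (m + 1) by omega] at a
    rw [← a, mul_add] at d
    nlinarith

lemma ev : ∃ h0 : ℕ, ∀ h ≥ h0, (h + 1) ^ 201 ≤ 2 ^ (h / 10) := by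
  have t := (tendsto_pow_const_div_const_pow_of_one_lt 201 (r := 2) one_lt_two).eventually
    (gt_mem_nhds (show (0 : ℝ) < 1 / 20 ^ 201 by positivity))
  obtain ⟨g0, hg⟩ := Filter.eventually_atTop.1 t
  refine ⟨10 * (g0 + 1), fun h hh => ?_⟩
  have a := hg (h / 10) (by omega)
  rw [div_lt_div_iff₀ (by positivity) (by positivity), one_mul, ← mul_pow] at a
  have b : (h / 10 * 20) ^ 201 < 2 ^ (h / 10) := by exact_mod_cast a
  exact (Nat.pow_le_pow_left (by omega) _).trans b.le

lemma two {h : ℕ} (hh : 400 ≤ h) : (h + 1) ^ 200 ≤ 2 * h ^ 200 := by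
  have h0 : (400 : ℝ) ≤ h := by exact_mod_cast hh
  have p : (0 : ℝ) < h + 1 := by linarith
  have u : 1 / ((h : ℝ) + 1) ≤ 1 / 400 := by gcongr; linarith
  have a := one_add_mul_le_pow (a := -(1 / ((h : ℝ) + 1))) (by linarith) 200
  rw [show 1 + -(1 / ((h : ℝ) + 1)) = h / (h + 1) by field_simp; ring, div_pow,
    le_div_iff₀ (by positivity)] at a
  have b : ((h : ℝ) + 1) ^ 200 ≤ 2 * h ^ 200 := by
    have q : (0 : ℝ) < (h + 1) ^ 200 := by positivity
    generalize ((h : ℝ) + 1) ^ 200 = x at *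
    generalize (h : ℝ) ^ 200 = y at *
    push_cast at a
    nlinarith
  exact_mod_cast b

open Classical in
lemma big (h1 : St_P1) {n X : ℕ} (hX : X ≤ n) :
    (univ.filter fun l : Nat.Partition n => ∃ x ∈ l.parts, X < x * l.parts.count x).card ≤
      n * pn (n - X) := by
  refine (card_le_card (t := (Icc 1 n).biUnion fun i => univ.filter fun l : Nat.Partition n =>
    X < i * l.parts.count i) fun l hl => ?_).trans ((card_biUnion_le_card_mul _ _ (pn (n - X)) ?_).trans
      (by simp))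
  · obtain ⟨x, hx, h⟩ := (mem_filter.1 hl).2
    exact mem_biUnion.2 ⟨x, mem_Icc.2 ⟨l.parts_pos hx, Nat.Partition.le_of_mem_parts hx⟩,
      mem_filter.2 ⟨mem_univ _, h⟩⟩
  · intro i hi
    have i0 : 0 < i := (mem_Icc.1 hi).1
    have e : ∀ c, X < i * c ↔ X / i + 1 ≤ c := fun c => by
      rw [Nat.succ_le_iff, Nat.div_lt_iff_lt_mul i0, mul_comm]
    by_cases hc : i * (X / i + 1) ≤ n
    · simp only [e]
      rw [h1.cnt n i _ i0 hc]
      exact h1.mono (by have := (e _).2 le_rfl; omega)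
    · rw [card_eq_zero.2 (filter_eq_empty_iff.2 fun l _ h => hc ?_)]
      · exact Nat.zero_le _
      · have g1 := Multiset.le_count_iff_replicate_le.1 ((e _).1 h)
        have g3 := congrArg Multiset.sum (Multiset.sub_add_cancel g1)
        rw [Multiset.sum_add, l.parts_sum, Multiset.sum_replicate, smul_eq_mul, mul_comm _ i] at g3
        omega

lemma defi (h1 : St_P1) (h2 : St_P2) {n r H : ℕ} (hr : 0 < r) (hb : r * (n + 1) ^ (2 * r) ≤ pn n)
    (hH : H ≤ n) : r * ∑ l : Nat.Partition n, df H 1 H l.parts ≤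
      2 * H * pn n * ∑ i ∈ Icc 1 H, H / i := by
  simp only [df]
  rw [sum_comm, mul_sum, mul_sum]
  refine sum_le_sum fun i hi => ?_
  have i0 : 0 < i := (mem_Icc.1 hi).1
  have a0 : i * (H / i) ≤ H := Nat.mul_div_le _ _
  have a := compl h1 (n := n) (t := H / i) i0 (by omega)
  have b := step h1 h2 hr hb (i * (H / i)) (by omega)
  have c : ∑ l : Nat.Partition n, (H / i - l.parts.count i) ≤
      (univ.filter fun l : Nat.Partition n => l.parts.count i < H / i).card * (H / i) := by
    rw [← smul_eq_mul, ← sum_const, sum_filter]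
    refine sum_le_sum fun l _ => ?_
    split_ifs <;> omega
  generalize (univ.filter fun l : Nat.Partition n => l.parts.count i < H / i).card = w at *
  have d : r * w ≤ 2 * H * pn n := by
    have := Nat.mul_le_mul_right (pn n) a0
    rw [← a, mul_add] at b
    rw [a] at b
    nlinarith
  calc _ ≤ r * (w * (H / i)) := Nat.mul_le_mul_left _ c
    _ = r * w * (H / i) := by ring
    _ ≤ _ := Nat.mul_le_mul_right _ d

end P3

open P3 in
theorem st_P3 (h1 : St_P1) (h2 : St_P2) : St_P3 := by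
  classical
  intro ε hε
  obtain ⟨h0, hev⟩ := ev
  refine ⟨max (max h0 400) ⌈3 / ε⌉₊, fun h hh n n1 n2 => ?_⟩
  simp only [ge_iff_le, max_le_iff] at hh
  obtain ⟨⟨a1, a2⟩, a3⟩ := hh
  have e1 := hev h a1
  have e2 := two a2
  have hp : 0 < h := by omega
  have pw : ∀ {a b : ℕ}, a ≤ b → h ^ a ≤ h ^ b := fun hab => Nat.pow_le_pow_right hp hab
  have J0 : 0 < 3 * h ^ 100 := Nat.mul_pos (by omega) (Nat.pow_pos hp)
  have J4 : 4 * n ≤ (3 * h ^ 100) ^ 2 := by
    rw [mul_pow, ← pow_mul, show 100 * 2 = 200 from rfl]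
    omega
  have e3 : (h + 1) * (h + 1) ^ 200 ≤ 2 ^ (h / 10) := (pow_succ' _ _).symm.trans_le e1
  have e4 : n + 1 ≤ 2 ^ (h / 10) :=
    le_trans (le_trans n2 (Nat.le_mul_of_pos_left _ (Nat.succ_pos h))) e3
  have b1 : h * (n * pn (n - h ^ 101)) ≤ pn n := by
    have u : h / 10 * (3 * h ^ 100) ≤ h ^ 101 := by
      rw [pow_succ' h 100, ← mul_assoc]
      exact Nat.mul_le_mul_right _ (by omega)
    have v := pw (show 101 ≤ 200 by omega)
    refine le_trans ?_ (iter h1 J0 J4 (h / 10) (by omega))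
    rw [← mul_assoc]
    exact Nat.mul_le_mul ((Nat.mul_le_mul (by omega) n2.le).trans e3) (h1.mono (by omega))
  have hb : h ^ 99 * (n + 1) ^ (2 * h ^ 99) ≤ pn n := by
    have r0 : 0 < h ^ 99 := Nat.pow_pos hp
    have v := pw (show 99 ≤ 200 by omega)
    have u : h / 10 * (3 * h ^ 99) * (3 * h ^ 100) ≤ n := by
      refine le_trans ?_ n1
      calc _ = (h / 10 * 9) * (h ^ 99 * h ^ 100) := by ring
        _ ≤ h * (h ^ 99 * h ^ 100) := Nat.mul_le_mul_right _ (by omega)
        _ = h ^ 200 := by ring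
    refine le_trans ?_ ((Nat.le_mul_of_pos_right _ Fintype.card_pos).trans (iter h1 J0 J4 _ u))
    calc _ ≤ (n + 1) ^ (h ^ 99) * (n + 1) ^ (2 * h ^ 99) :=
          Nat.mul_le_mul_right _ (le_trans (by omega) (Nat.le_self_pow r0.ne' _))
      _ = (n + 1) ^ (3 * h ^ 99) := by rw [← pow_add]; congr 1; omega
      _ ≤ _ := by rw [pow_mul 2]; exact Nat.pow_le_pow_left e4 _
  have hs : ∑ i ∈ Icc 1 (h ^ 96), h ^ 96 / i ≤ h ^ 96 * h := by
    have u : (harmonic (h ^ 96) : ℝ) ≤ h := by
      refine (harmonic_le_one_add_log _).trans ?_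
      have v : h ^ 96 ≤ 2 ^ (h / 10) := by have := pw (show 96 ≤ 200 by omega); omega
      have w : Real.log (h ^ 96 : ℕ) ≤ Real.log (2 ^ (h / 10)) :=
        Real.log_le_log (Nat.cast_pos.2 (Nat.pow_pos hp)) (by exact_mod_cast v)
      rw [Real.log_pow] at w
      have x : ((h / 10 + 1 : ℕ) : ℝ) ≤ h := by exact_mod_cast (by omega : h / 10 + 1 ≤ h)
      have y : Real.log 2 ≤ 1 := (Real.log_le_sub_one_of_pos two_pos).trans (by norm_num)
      have z := mul_le_mul_of_nonneg_left y (Nat.cast_nonneg (α := ℝ) (h / 10))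
      rw [Nat.cast_add, Nat.cast_one] at x
      linarith
    have u' : harmonic (h ^ 96) ≤ h := by exact_mod_cast u
    have := (EX.harm (h ^ 96) (h ^ 96)).trans (mul_le_mul_of_nonneg_left u' (Nat.cast_nonneg _))
    exact_mod_cast this
  have b2 : h * (univ.filter fun l : Nat.Partition n =>
      h ^ 95 < df (h ^ 96) 1 (h ^ 96) l.parts).card ≤ 2 * pn n := by
    have u := (defi h1 h2 (H := h ^ 96) (Nat.pow_pos hp) hb ((pw (by omega)).trans n1)).trans
      (Nat.mul_le_mul_left _ hs)
    have v := (card_nsmul_le_sum (univ.filter fun l : Nat.Partition n =>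
      h ^ 95 < df (h ^ 96) 1 (h ^ 96) l.parts) (fun l => df (h ^ 96) 1 (h ^ 96) l.parts) (h ^ 95)
      fun l hl => (mem_filter.1 hl).2.le).trans (sum_le_sum_of_subset (subset_univ _))
    have w := (Nat.mul_le_mul_left (h ^ 99) v).trans u
    refine Nat.le_of_mul_le_mul_left (c := h ^ 193) ?_ (Nat.pow_pos hp)
    refine le_trans (le_of_eq ?_) (w.trans_eq ?_)
    · rw [smul_eq_mul]; ring
    · ring
  have b3 := big h1 ((pw (show 101 ≤ 200 by omega)).trans n1)
  have b4 : h * (univ.filter fun l : Nat.Partition n => ¬ Typ h l.parts).card ≤ 3 * pn n := by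
    have u := (card_le_card (s := univ.filter fun l : Nat.Partition n => ¬ Typ h l.parts)
      fun l hl => ?_).trans (card_union_le (univ.filter fun l : Nat.Partition n =>
        ∃ x ∈ l.parts, h ^ 101 < x * l.parts.count x) (univ.filter fun l : Nat.Partition n =>
          h ^ 95 < df (h ^ 96) 1 (h ^ 96) l.parts))
    · have v := Nat.mul_le_mul_left h u
      have w := Nat.mul_le_mul_left h b3
      rw [mul_add] at v
      omega
    · by_contra hc
      simp only [mem_union, mem_filter, mem_univ, true_and, not_or, not_exists, not_and,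
        not_lt] at hc
      exact (mem_filter.1 hl).2 ⟨fun x hx => ⟨l.parts_pos hx, hc.1 x hx⟩, hc.2⟩
  have b5 : (h : ℝ) * (univ.filter fun l : Nat.Partition n => ¬ Typ h l.parts).card ≤ 3 * pn n := by
    exact_mod_cast b4
  have b6 : 3 ≤ h * ε := by
    rw [← div_le_iff₀ hε]
    exact (Nat.le_ceil _).trans (by exact_mod_cast a3)
  have hp' : (0 : ℝ) < h := by exact_mod_cast hp
  refine le_of_mul_le_mul_left (b5.trans ?_) hp'
  rw [← mul_assoc]
  exact mul_le_mul_of_nonneg_right b6 (Nat.cast_nonneg _)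

end MP7ebc2a.AA
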