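import Pool.Agent.Lib.AA25.U

/-! Bins built from copies of one seed. -/

namespace MP7ebc2a.AA
open Multiset

lemma GR.cast {m m' d : ℕ} {s s' : Multiset ℕ} (h : GR m d s) (h1 : m' = m) (h2 : s' = s) :
    GR m' d s' := by
  subst h1 h2; exact h

lemma gr_nsmul (hU : St_UNION) (hCH : St_CH) {m d : ℕ} {s : Multiset ℕ} (h : GR m d s) (K : ℕ) :
    GR (K * m) d (K • s) := by
  induction K with
  | zero => simpa using hCH.nil d
  | succ K ih => rw [succ_nsmul, Nat.succ_mul]; exact hU _ _ _ _ _ ih h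

/-- the rows of `B`, split as `a` plus a remainder -/
def lv (a : ℕ) (B : Multiset ℕ) : Multiset (ℕ × ℕ) := B.map fun b => (a, b - a)

lemma lv_fst (a : ℕ) (B : Multiset ℕ) : (lv a B).map Prod.fst = replicate B.card a := by
  simp [lv]

lemma lv_sum {a : ℕ} {B : Multiset ℕ} (h : ∀ b ∈ B, a ≤ b) :
    (lv a B).map (fun x => x.1 + x.2) = B := by
  rw [lv, map_map]
  exact (map_congr rfl fun b hb => Nat.add_sub_cancel' (h b hb)).trans (map_id' B)

lemma mem_lv {a : ℕ} {B : Multiset ℕ} {x : ℕ × ℕ} : x ∈ lv a B ↔ ∃ b ∈ B, (a, b - a) = x :=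
  mem_map

lemma pair_sum (P : Multiset (ℕ × ℕ)) :
    (P.map fun x => x.1 + x.2).sum = (P.map Prod.fst).sum + (P.map Prod.snd).sum :=
  sum_map_add

lemma plus_even (hCH : St_CH) {m d e : ℕ} {P : Multiset (ℕ × ℕ)} (hP : Chain P)
    (h1 : GR m e (P.map Prod.fst)) (h2 : ∀ x ∈ P, Even x.2) (he : e ≤ d) (hd : Even (d - e))
    (h3 : (P.map fun x => x.1 + x.2).sum = d * m) (h4 : P.card ≤ m) :
    GR m d (P.map fun x => x.1 + x.2) := by
  obtain ⟨k, rfl⟩ := Nat.exists_eq_add_of_le he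
  rw [Nat.add_sub_cancel_left] at hd
  refine hCH.plus m e k P hP h1 (hCH.wt m k _ hd (fun x hx => ?_) ?_
    ((countP_le_card _ _).trans (by simpa using h4)))
  · obtain ⟨y, hy, rfl⟩ := mem_map.1 hx
    exact h2 y hy
  · rw [pair_sum, hCH.sum _ _ _ h1] at h3
    linarith

lemma seed0 (hS : St_SEED) {p : ℕ} (hp : 1 ≤ p) : GR (CP p) 3 (replicate p (AP p)) := by
  have := hS p 0 hp
  obtain ⟨q, rfl⟩ := Nat.exists_eq_add_of_le' hp
  simpa [replicate_succ] using this

lemma gr_pad (hCH : St_CH) {m d : ℕ} {s : Multiset ℕ} (h : GR m d s) (k : ℕ) :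
    GR m d (s + replicate k 0) :=
  hCH.zero m d _ _ (by
    rw [filter_add, (filter_eq_nil (s := replicate k 0)).2 fun x hx => by
      simp [eq_of_mem_replicate hx], add_zero]) h

/-- the seed for even `d` -/
lemma seedE (hS : St_SEED) (hCH : St_CH) {d p a : ℕ} (hd : Even d) (h4 : 4 ≤ d) (hp : 1 ≤ p)
    (ha : AP p = 3 * a) :
    GR (CP p) d (replicate p (AP p + 1 + (d - 4) * a) + replicate (CP p - p) 1) := by
  have c1 := le_CP p hp
  have a1 : GR (CP p) (3 + 1) (replicate p (AP p + 1) + replicate (CP p - p) 1) := by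
    have := hCH.plus (CP p) 3 1 (replicate p (AP p, 1) + replicate (CP p - p) (0, 1))
      (fun x hx y hy _ => by
        rcases mem_add.1 hx with hx | hx <;> rcases mem_add.1 hy with hy | hy <;>
          simp [eq_of_mem_replicate hx, eq_of_mem_replicate hy])
      (by simpa using gr_pad hCH (seed0 hS hp) (CP p - p))
      (by simpa [← replicate_add, c1] using hCH.one (CP p))
    simpa using this
  have e4 : Even (d - 4) := (Nat.even_sub h4).2 (by simp [hd]; decide)
  have := plus_even hCH (m := CP p) (d := d) (e := 4)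
    (P := replicate p (AP p + 1, (d - 4) * a) + replicate (CP p - p) (1, 0))
    (fun x hx y hy => by
      rcases mem_add.1 hx with hx | hx <;> rcases mem_add.1 hy with hy | hy <;>
        simp [eq_of_mem_replicate hx, eq_of_mem_replicate hy])
    (by simpa using a1) (fun x hx => by
      rcases mem_add.1 hx with hx | hx <;> simp [eq_of_mem_replicate hx, e4.mul_right]) h4 e4
    (by
      obtain ⟨k, rfl⟩ := Nat.exists_eq_add_of_le h4
      obtain ⟨c, hc⟩ := Nat.exists_eq_add_of_le c1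
      have := CP_eq ha
      simp only [Multiset.map_add, map_replicate, sum_add, sum_replicate, smul_eq_mul,
        Nat.add_sub_cancel_left, hc, ha]
      rw [hc] at this
      have : k * (p + c) = k * (p * a) := by rw [this]
      linarith)
    (by simp [c1])
  simpa using this

theorem st_SB (hS : St_SEED) (hCH : St_CH) (hU : St_UNION) (hB : St_BOX) (hEX : St_EX) :
    St_SB where
  add d s s' := fun ⟨_, h⟩ ⟨_, h'⟩ => ⟨_, hU _ _ _ _ _ h h'⟩
  sb d p K B F hd h5 hp h1 h2 h3 h4 h6 := by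
    have e : (lv (AP p) B + lv 0 F).map (fun x => x.1 + x.2) = B + F := by
      rw [Multiset.map_add, lv_sum fun b hb => (h2 b hb).2.1, lv_sum fun _ _ => Nat.zero_le _]
    have a3 := AP_ge p hp
    refine ⟨K * CP p, e ▸ plus_even hCH (e := 3) (fun x hx y hy hxy => ?_) ?_ (fun x hx => ?_)
      (by omega) ?_ (e ▸ h4) (by simpa [lv] using h6)⟩
    · simp only [mem_add, mem_lv] at hx hy
      rcases hx with ⟨a, ha, rfl⟩ | ⟨a, ha, rfl⟩ <;> rcases hy with ⟨b, hb, rfl⟩ | ⟨b, hb, rfl⟩ <;>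
        dsimp only at hxy ⊢
      all_goals first | omega | (have := (h2 b hb).2.2 a ha; omega)
    · rw [Multiset.map_add, lv_fst, lv_fst, h1]
      have := gr_pad hCH (gr_nsmul hU hCH (seed0 hS hp) K) F.card
      rwa [nsmul_replicate] at this
    · simp only [mem_add, mem_lv] at hx
      rcases hx with ⟨a, ha, rfl⟩ | ⟨a, ha, rfl⟩
      · have := h2 a ha
        rw [Nat.even_iff]; dsimp only; omega
      · exact h3 a ha
    · have := Nat.odd_iff.1 hd
      rw [Nat.even_iff]; omega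
  sbx d p K Hs O Ex hd h5 hp hK hA n1 c1 c2 h1 h2 h3 h4 := by
    obtain ⟨e, he⟩ : ∃ e, e = Ex.card / K := ⟨_, rfl⟩
    obtain ⟨r, hr⟩ : ∃ r, r = Ex.card % K := ⟨_, rfl⟩
    have r1 : r < K := hr ▸ Nat.mod_lt _ (by omega)
    have r2 : K * e + r = Ex.card := by rw [he, hr]; exact Nat.div_add_mod _ _
    rw [← he] at h2
    obtain ⟨R, t1, t2, t3⟩ := hEX.top Hs r (by omega)
    obtain ⟨R', rfl⟩ := Multiset.le_iff_exists_add.1 t1
    rw [add_tsub_cancel_left] at t3
    obtain ⟨k, rfl⟩ := Nat.exists_eq_add_of_le r1.le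
    have c3 : R'.card = k := by rw [card_add] at c1; omega
    have a3 := AP_ge p (by omega)
    have a4 := Nat.odd_iff.1 hA
    obtain ⟨b0, hb0⟩ : ∃ b0, b0 ∈ O := card_pos_iff_exists_mem.1 (by
      rw [c2]; exact Nat.mul_pos (by omega) (by omega))
    have o1 : ∀ x ∈ R, x % 2 = 1 ∧ b0 + 2 * e + 2 ≤ x ∧ ∀ b ∈ O, b + 2 * e + 2 ≤ x := fun x hx =>
      ⟨Nat.odd_iff.1 (h1 x (by simp [hx])), h2 x (by simp [hx]) _ hb0, h2 x (by simp [hx])⟩
    have o2 : ∀ x ∈ R', x % 2 = 1 ∧ b0 + 2 * e + 2 ≤ x ∧ ∀ b ∈ O, b + 2 * e + 2 ≤ x := fun x hx =>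
      ⟨Nat.odd_iff.1 (h1 x (by simp [hx])), h2 x (by simp [hx]) _ hb0, h2 x (by simp [hx])⟩
    have o3 : ∀ x ∈ O, x % 2 = 1 := fun x hx => Nat.odd_iff.1 (h1 x (by simp [hx]))
    have o4 : ∀ x ∈ Ex, x % 2 = 1 ∧ AP p + x ≤ b0 + 1 := fun x hx =>
      ⟨Nat.odd_iff.1 (h1 x (by simp [hx])), (h3 _ hb0).2 x hx⟩
    have o5 := (h3 _ hb0).1
    have o6 : ∀ a ∈ R', ∀ b ∈ R, a < b := fun a ha b hb =>
      lt_of_le_of_ne (t3 b hb a ha) fun h => by
        subst h
        exact disjoint_left.1 (disjoint_of_nodup_add n1) hb ha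
    have e1 : (lv (AP p + 2 * (e + 1)) R + lv (AP p + 2 * e) R' + lv (AP p) O + lv 1 Ex).map
        (fun x => x.1 + x.2) = R + R' + O + Ex := by
      rw [Multiset.map_add, Multiset.map_add, Multiset.map_add, lv_sum fun b hb => by have := o1 b hb; omega,
        lv_sum fun b hb => by have := o2 b hb; omega, lv_sum fun b hb => (h3 b hb).1,
        lv_sum fun b hb => by have := o4 b hb; omega]
    have c4 := Nat.mul_le_mul_left (r + k) (le_CP p (by omega))
    obtain ⟨q, rfl⟩ := Nat.exists_eq_add_of_le' (by omega : 1 ≤ p)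
    rw [Nat.add_sub_cancel] at c2
    refine ⟨(r + k) * CP (q + 1) + Ex.card, e1 ▸ plus_even hCH (e := 3)
      (fun x hx y hy hxy => ?_) ?_ (fun x hx => ?_) (by omega) ?_ (e1 ▸ h4) ?_⟩
    · simp only [mem_add, mem_lv] at hx hy
      rcases hx with ((⟨a, ha, rfl⟩ | ⟨a, ha, rfl⟩) | ⟨a, ha, rfl⟩) | ⟨a, ha, rfl⟩ <;>
        rcases hy with ((⟨b, hb, rfl⟩ | ⟨b, hb, rfl⟩) | ⟨b, hb, rfl⟩) | ⟨b, hb, rfl⟩ <;>
        dsimp only at hxy ⊢
      all_goals first
        | omega
        | (have := o6 a ha b hb; have := o1 b hb; have := o2 a ha; omega)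
        | (have := (o1 b hb).2.2 a ha; omega)
        | (have := (o2 b hb).2.2 a ha; omega)
        | (have := o1 b hb; have := o4 a ha; omega)
        | (have := o2 b hb; have := o4 a ha; omega)
        | (have := (h3 b hb).2 a ha; omega)
    · have := hU _ _ _ _ _ (gr_nsmul hU hCH (hS (q + 1) (e + 1) (by omega)) r)
        (gr_nsmul hU hCH (hS (q + 1) e (by omega)) k)
      refine GR.cast this ?_ ?_
      · rw [← r2]; ring
      · simp only [Multiset.map_add, lv_fst, t2, c3, c2, ← r2, ← singleton_add, nsmul_add, nsmul_replicate,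
          nsmul_singleton, Nat.add_sub_cancel]
        rw [show (r + k) * q = r * q + k * q by ring, show (r + k) * e + r = r * (e + 1) + k * e
          by ring, replicate_add, replicate_add]
        abel
    · simp only [mem_add, mem_lv] at hx
      rw [Nat.even_iff]
      rcases hx with ((⟨a, ha, rfl⟩ | ⟨a, ha, rfl⟩) | ⟨a, ha, rfl⟩) | ⟨a, ha, rfl⟩ <;> dsimp only
      · have := o1 a ha; omega
      · have := o2 a ha; omega
      · have := o3 a ha; have := (h3 a ha).1; omega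
      · have := o4 a ha; omega
    · have := Nat.odd_iff.1 hd
      rw [Nat.even_iff]; omega
    · simp only [lv, card_add, card_map, t2, c3, c2]
      linarith
  sbe d p K a B S mid F hd h4 hp ha c1 c2 h1 h2 h3 h5 h6 h7 := by
    obtain ⟨X, hX⟩ : ∃ X, X = AP p + 1 + (d - 4) * a := ⟨_, rfl⟩
    have a3 := AP_ge p hp
    have x1 : d ≤ X := by
      have := Nat.le_mul_of_pos_right (d - 4) (by omega : 0 < a)
      omega
    have d2 := Nat.even_iff.1 hd
    have x2 : X % 2 = (AP p + 1) % 2 := by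
      have : ((d - 4) * a) % 2 = 0 :=
        Nat.even_iff.1 (Even.mul_right (Nat.even_iff.2 (by omega)) _)
      omega
    have g1 := hU _ _ _ _ _ (gr_nsmul hU hCH (seedE hS hCH hd h4 hp ha) K)
      (gr_nsmul hU hCH (hCH.wt 1 d {d} hd (by simpa using hd) (by simp)
        ((countP_le_card _ _).trans (by simp))) mid.card)
    rw [← hX] at h1 g1
    have o2 : ∀ x ∈ S, x % 2 = 1 := fun x hx => Nat.odd_iff.1 (h2 x hx)
    have e1 : (lv X B + lv 1 S + lv d mid + lv 0 F).map (fun x => x.1 + x.2) =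
        B + S + mid + F := by
      rw [Multiset.map_add, Multiset.map_add, Multiset.map_add, lv_sum fun b hb => (h1 b hb).2.1,
        lv_sum fun b hb => by have := o2 b hb; omega, lv_sum fun b hb => (h3 b hb).2.1,
        lv_sum fun _ _ => Nat.zero_le _]
    have g2 : GR (K * CP p + mid.card * 1) d
        ((lv X B + lv 1 S + lv d mid + lv 0 F).map Prod.fst) := by
      refine GR.cast (gr_pad hCH g1 F.card) rfl ?_
      simp only [Multiset.map_add, lv_fst, c1, c2, nsmul_add, nsmul_replicate, nsmul_singleton, mul_comm K]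
    obtain ⟨M, hM⟩ := h6
    have s1 := pair_sum (lv X B + lv 1 S + lv d mid + lv 0 F)
    rw [e1, hCH.sum _ _ _ g2, hM] at s1
    rw [hM] at h7
    have h8 := Nat.le_of_mul_le_mul_left h7 (by omega)
    obtain ⟨m2, rfl⟩ : ∃ m2, M = K * CP p + mid.card * 1 + m2 :=
      Nat.exists_eq_add_of_le (by omega)
    refine ⟨_, e1 ▸ hB _ m2 d _ hd (fun x hx y hy hxy => ?_) g2 (hCH.wt m2 d _ hd
      (fun x hx => ?_) (by linarith) ((countP_le_card _ _).trans ?_))⟩
    · simp only [mem_add, mem_lv] at hx hy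
      rcases hx with ((⟨a, ha, rfl⟩ | ⟨a, ha, rfl⟩) | ⟨a, ha, rfl⟩) | ⟨a, ha, rfl⟩ <;>
        rcases hy with ((⟨b, hb, rfl⟩ | ⟨b, hb, rfl⟩) | ⟨b, hb, rfl⟩) | ⟨b, hb, rfl⟩ <;>
        dsimp only at hxy ⊢
      all_goals first
        | omega
        | (have := (h1 b hb).2.2 a (by simp [ha]); omega)
        | (have := (h3 b hb).2.2 a (by simp [ha]); omega)
        | (have := (h5 a ha).2 b hb; omega)
    · obtain ⟨y, hy, rfl⟩ := mem_map.1 hx
      simp only [mem_add, mem_lv] at hy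
      rw [Nat.even_iff]
      rcases hy with ((⟨a, ha, rfl⟩ | ⟨a, ha, rfl⟩) | ⟨a, ha, rfl⟩) | ⟨a, ha, rfl⟩ <;> dsimp only
      · have := h1 a ha; omega
      · have := o2 a ha; omega
      · have := Nat.even_iff.1 (h3 a ha).1; have := (h3 a ha).2.1; omega
      · have := Nat.even_iff.1 (h5 a ha).1; omega
    · simp only [lv, card_add, card_map] at h8 ⊢
      omega

end MP7ebc2a.AA
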