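import Pool.Agent.Lib.AA25.Blue

/-! Small facts shared by the packing blocks. -/

namespace MP7ebc2a.AA

lemma AP_two (p : ℕ) : 2 * AP p = (p + 1) * (p + 2) := by
  have := Nat.add_one_mul_choose_eq (p + 1) 1
  simp only [Nat.choose_one_right] at this
  unfold AP
  linarith

lemma CP_three (p : ℕ) : 3 * CP p = p * AP p := by
  have := Nat.choose_succ_right_eq (p + 2) 2
  unfold AP CP
  simp only [Nat.add_sub_cancel] at this
  linarith

lemma CP_eq {p a : ℕ} (h : AP p = 3 * a) : CP p = p * a := by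
  have := CP_three p
  rw [h] at this
  linarith

lemma AP_ge (p : ℕ) (h : 1 ≤ p) : 3 ≤ AP p := by
  have := AP_two p
  nlinarith

lemma le_CP (p : ℕ) (h : 1 ≤ p) : p ≤ CP p := by
  have := CP_three p
  have := AP_ge p h
  nlinarith

lemma AP_1 (g : ℕ) : AP (12 * g + 1) = 3 * (24 * g ^ 2 + 10 * g + 1) := by
  have := AP_two (12 * g + 1); linarith

lemma AP_7 (g : ℕ) : AP (12 * g + 7) = 3 * (24 * g ^ 2 + 34 * g + 12) := by
  have := AP_two (12 * g + 7); linarith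

lemma AP_2 (g : ℕ) : AP (12 * g + 2) = 3 * (24 * g ^ 2 + 14 * g + 2) := by
  have := AP_two (12 * g + 2); linarith

section pw
variable {h d : ℕ}

lemma m1 (hd : 10000 * d ≤ h) (h1 : 1 ≤ d) (a b : ℕ) (hab : a < b) :
    10000 * (d * h ^ a) ≤ h ^ b :=
  calc 10000 * (d * h ^ a) = h ^ a * (10000 * d) := by ring
    _ ≤ h ^ a * h := Nat.mul_le_mul_left _ hd
    _ = h ^ (a + 1) := by ring
    _ ≤ h ^ b := Nat.pow_le_pow_right (by omega) hab

lemma m0 (hd : 10000 * d ≤ h) (h1 : 1 ≤ d) (a b : ℕ) (hab : a < b) :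
    10000 * h ^ a ≤ h ^ b :=
  le_trans (Nat.mul_le_mul_left _ (Nat.le_mul_of_pos_left _ h1)) (m1 hd h1 a b hab)

lemma m2 (hd : 10000 * d ≤ h) (h1 : 1 ≤ d) (a b : ℕ) (hab : a < b) :
    10000 * (d * h ^ a) ≤ d * h ^ b :=
  (m1 hd h1 a b hab).trans (Nat.le_mul_of_pos_left _ h1)

lemma m3 (hd : 10000 * d ≤ h) (h1 : 1 ≤ d) (a b : ℕ) (hab : a < b) :
    10000 * h ^ a ≤ d * h ^ b :=
  (m0 hd h1 a b hab).trans (Nat.le_mul_of_pos_left _ h1)

end pw

lemma dist_cond {H b c L D : ℕ} (h1 : b ≤ H) (h2 : b ≤ c * L) (h0 : 0 < b) (h3 : 2 * c * D < H) :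
    D < H / b * L := by
  have a1 : 1 ≤ H / b := (Nat.one_le_div_iff h0).2 h1
  have a2 : H < (H / b + 1) * b := by
    have := Nat.lt_div_mul_add (a := H) h0
    linarith
  have a3 : (H / b + 1) * b ≤ (2 * (H / b)) * (c * L) := Nat.mul_le_mul (by omega) h2
  have a4 : 2 * c * D < 2 * c * (H / b * L) := by linarith
  exact lt_of_mul_lt_mul_left a4 (Nat.zero_le _)

lemma sum_ge {M : Multiset ℕ} {a : ℕ} (h : ∀ x ∈ M, a ≤ x) : M.card * a ≤ M.sum := by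
  simpa using Multiset.card_nsmul_le_sum h

lemma sum_le {M : Multiset ℕ} {a : ℕ} (h : ∀ x ∈ M, x ≤ a) : M.sum ≤ M.card * a := by
  simpa using Multiset.sum_le_card_nsmul M a h

lemma sum_par {M : Multiset ℕ} {ε : ℕ} (h : ∀ x ∈ M, x % 2 = ε) :
    M.sum % 2 = (M.card * ε) % 2 := by
  induction M using Multiset.induction_on with
  | empty => simp
  | cons a M ih =>
    have h1 := h a (Multiset.mem_cons_self _ _)
    have h2 := ih fun x hx => h x (Multiset.mem_cons_of_mem hx)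
    rw [Multiset.sum_cons, Multiset.card_cons, add_mul]
    omega

/-- the plain bin when `3 ∣ A` -/
lemma sba (hSB : St_SB) {d p a : ℕ} {B F : Multiset ℕ} (hd : Odd d) (h5 : 5 ≤ d) (hp : 1 ≤ p)
    (ha : AP p = 3 * a) (h1 : p ∣ B.card)
    (h2 : ∀ b ∈ B, b % 2 = a % 2 ∧ 3 * a ≤ b ∧ ∀ f ∈ F, 3 * a + f ≤ b) (h3 : ∀ f ∈ F, Even f)
    (h4 : (B + F).sum = B.card * (d * a)) (h6 : (B + F).card ≤ B.card * a) : GD d (B + F) := by
  obtain ⟨K, hK⟩ := h1
  refine hSB.sb d p K B F hd h5 hp (by rw [hK, mul_comm]) (fun b hb => ?_) h3 ?_ ?_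
  · rw [ha]
    exact ⟨by have := (h2 b hb).1; omega, (h2 b hb).2⟩
  · rw [h4, CP_eq ha, hK]; ring
  · rw [CP_eq ha]
    refine h6.trans (le_of_eq ?_)
    rw [hK]; ring

lemma card_of_ge {M : Multiset ℕ} {d c : ℕ} (hd : 0 < d) (h : ∀ x ∈ M, d ≤ x)
    (hs : M.sum = d * c) : M.card ≤ c := by
  have := sum_ge h
  rw [hs, mul_comm] at this
  exact Nat.le_of_mul_le_mul_left this hd

/-- fill an even deficiency exactly -/
lemma fill (hEX : St_EX) {H z D : ℕ} {S : Multiset ℕ} (hz : 2 ≤ z) (hH : 30 * z ≤ H) (hD : Even D)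
    (h1 : D = 0 ∨ 18 * z ≤ D) (h2 : 180 * (z * df H (2 * z) (5 * z) S + D) ≤ z * H) :
    ∃ F ≤ S, F.sum = D ∧ z * F.card ≤ D ∧ ∀ f ∈ F, Even f ∧ 2 * z ≤ f ∧ f ≤ 5 * z := by
  have z0 : 0 < 6 * z := by omega
  have a1 := Nat.div_mul_le_self D (6 * z)
  have a2 := Nat.lt_div_mul_add (a := D) z0
  obtain ⟨k, hk⟩ : ∃ k, k = D / (6 * z) := ⟨_, rfl⟩
  rw [← hk] at a1 a2
  have a3 : D ≤ 8 * (k * z) := by
    rcases h1 with h1 | h1
    · omega
    · have : 3 ≤ k := by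
        rw [hk, Nat.le_div_iff_mul_le z0]; omega
      nlinarith
  have a4 : 180 * (df H (2 * z) (5 * z) S + 2 * k) ≤ H := by
    refine Nat.le_of_mul_le_mul_left ?_ (by omega : 0 < z)
    nlinarith
  obtain ⟨U, u1, u2, u3, u4⟩ := hEX.ex H z 2 5 0 k D S hz (by norm_num) (by norm_num) hH
    (by norm_num) hD (by nlinarith) (by nlinarith) a4
  exact ⟨U, u1, u3, by rw [u2]; nlinarith, fun f hf =>
    ⟨Nat.even_iff.2 (u4 f hf).2.2, (u4 f hf).1, (u4 f hf).2.1⟩⟩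

end MP7ebc2a.AA
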