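import Pool.Agent.Lib.AA25.B_PYR
import Pool.Agent.Lib.AA25.U

/-! The cubic monomials in `p` variables together with `e` monomials `x₀² y` give the seed. -/

namespace MP7ebc2a.AA
open Equiv Finset

namespace SEED

lemma card_sym (p : ℕ) : Fintype.card (Sym (Fin p) 3) = CP p := by
  rw [Sym.card_sym_eq_choose, Fintype.card_fin]
  rfl

lemma count_all {p : ℕ} (ρ : Fin p) : ∑ s : Sym (Fin p) 3, s.1.count ρ = AP p := by
  have h1 : ∀ ρ' : Fin p, ∑ s : Sym (Fin p) 3, s.1.count ρ' = ∑ s : Sym (Fin p) 3, s.1.count ρ :=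
    fun ρ' => by
      rw [← Equiv.sum_comp (Sym.equivCongr (swap ρ ρ'))]
      refine sum_congr rfl fun s _ => ?_
      have := Multiset.count_map_eq_count' (swap ρ ρ') s.1 (swap ρ ρ').injective ρ
      rw [swap_apply_left] at this
      exact this
  have h2 : ∑ ρ' : Fin p, ∑ s : Sym (Fin p) 3, s.1.count ρ' = 3 * CP p := by
    rw [sum_comm, sum_congr rfl fun s _ =>
      (Multiset.sum_count_eq_card fun a _ => mem_univ a).trans s.2]
    rw [sum_const, card_univ, card_sym, smul_eq_mul, mul_comm]
  rw [sum_congr rfl fun ρ' _ => h1 ρ', sum_const, card_univ, Fintype.card_fin, smul_eq_mul,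
    CP_three] at h2
  exact Nat.eq_of_mul_eq_mul_left ρ.pos h2

lemma exists_fn {X : Type} (s : Sym X 3) : ∃ f : Fin 3 → X, univ.val.map f = s.1 := by
  obtain ⟨x, y, z, h⟩ := Multiset.card_eq_three.1 s.2
  exact ⟨![x, y, z], by rw [h]; rfl⟩

lemma count_fn {X : Type} [DecidableEq X] (f : Fin 3 → X) (x : X) :
    ∑ l, (if f l = x then 1 else 0) = (univ.val.map f).count x := by
  rw [← card_filter, Multiset.count_map]
  exact congrArg card (filter_congr fun l _ => eq_comm)

lemma countP_rep (q : ℕ → Prop) [DecidablePred q] (n a : ℕ) :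
    (Multiset.replicate n a).countP q = if q a then n else 0 := by
  split_ifs with h
  · rw [Multiset.countP_eq_card.2 fun x hx => by rwa [Multiset.eq_of_mem_replicate hx],
      Multiset.card_replicate]
  · exact Multiset.countP_eq_zero.2 fun x hx => by rwa [Multiset.eq_of_mem_replicate hx]

end SEED

open SEED in
theorem st_SEED (hTR : St_TR) (hL : St_LINK) : St_SEED := by
  intro p e hp
  have hA := AP_ge p hp
  have hC := le_CP p hp
  choose c0 hc0 using exists_fn (X := Fin p)
  obtain ⟨s, hs⟩ : ∃ s, s = (AP p + 2 * e) ::ₘ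
    (Multiset.replicate (p - 1) (AP p) + Multiset.replicate e 1) := ⟨_, rfl⟩
  rw [← hs]
  let ν : Fin (AP p + 2 * e) → ℕ := fun k => s.countP ((k : ℕ) < ·)
  have hν : ∀ k, ν k = (if (k : ℕ) < AP p then p - 1 else 0) + (if (k : ℕ) < 1 then e else 0) + 1 :=
    fun k => by
      simp only [ν, hs, Multiset.countP_cons, Multiset.countP_add, countP_rep, k.2,
        if_true]
  let z : Fin (p + e) := ⟨0, by omega⟩
  let c : Sym (Fin p) 3 ⊕ Fin e → Fin 3 → Fin (p + e) :=
    Sum.elim (fun s l => Fin.castAdd e (c0 s l)) fun k => ![z, z, Fin.natAdd p k]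
  have c1 : ∀ s, univ.val.map (c (.inl s)) = s.1.map (Fin.castAdd e) := fun s => by
    rw [← hc0, Multiset.map_map]; rfl
  have c2 : ∀ k i, univ.val.map (c (.inr k)) = univ.val.map (c i) → Sum.inr k = i := by
    intro k i h
    have : c (.inr k) 2 ∈ univ.val.map (c i) := h ▸ Multiset.mem_map_of_mem _ (mem_univ_val _)
    obtain ⟨l, -, hl⟩ := Multiset.mem_map.1 this
    have hl : (c i l : ℕ) = p + k := congrArg Fin.val hl
    rcases i with s | k'
    · have : (c (.inl s) l : ℕ) < p := (c0 s l).2
      omega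
    · refine congrArg _ (Fin.ext ?_)
      fin_cases l
      · have : (0 : ℕ) = p + k := hl
        omega
      · have : (0 : ℕ) = p + k := hl
        omega
      · have : p + k' = p + k := hl
        omega
  have c3 : ∀ t : Fin 3 → Fin (p + e), (∀ l, (t l : ℕ) < p) →
      ∃ i, univ.val.map (c i) = univ.val.map t := fun t h =>
    ⟨.inl ⟨univ.val.map fun l => ⟨t l, h l⟩, Multiset.card_map _ _⟩,
      (c1 _).trans (Multiset.map_map (Fin.castAdd e) (fun l : Fin 3 => ⟨t l, h l⟩) univ.val)⟩
  have key := st_PYR (p + e) (AP p + 2 * e) 3 c ν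
    (fun k => by rw [hν]; split_ifs <;> omega) (fun i j h => ?_) (fun j t h => ?_) fun r => ?_
  · refine ⟨AP p + 2 * e, fun x hx => ?_, (hL (CP p + e) 3 _ ν fun k => ?_).2
      (hTR _ _ _ _ 3 1 0 3 0 (Equiv.refl _) (Fintype.equivFinOfCardEq ?_) (fun _ _ => Iff.rfl)
        (fun _ _ => Iff.rfl) rfl rfl key)⟩
    · simp only [hs, Multiset.mem_cons, Multiset.mem_add, Multiset.mem_replicate] at hx
      omega
    · rw [hν]; split_ifs <;> omega
    · rw [Fintype.card_sum, card_sym, Fintype.card_fin]
  · rcases i with s | k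
    · rcases j with s' | k'
      · rw [c1, c1] at h
        exact congrArg _ (Subtype.ext (Multiset.map_injective (Fin.castAdd_injective _ _) h))
      · exact (c2 _ _ h.symm).symm
    · exact c2 _ _ h
  · rcases j with s | k
    · exact c3 t fun l => lt_of_le_of_lt (h l) (c0 s l).2
    · have t0 : (t 0 : ℕ) ≤ 0 := h 0
      have t1 : (t 1 : ℕ) ≤ 0 := h 1
      have t2 := (t 2).2
      by_cases h2 : (t 2 : ℕ) < p
      · refine c3 t fun l => ?_
        fin_cases l
        · exact lt_of_le_of_lt t0 hp
        · exact lt_of_le_of_lt t1 hp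
        · exact h2
      · refine ⟨.inr ⟨t 2 - p, by omega⟩, congrArg (fun f => univ.val.map f) (funext fun l => ?_)⟩
        fin_cases l
        · exact Fin.ext (Nat.le_zero.1 t0).symm
        · exact Fin.ext (Nat.le_zero.1 t1).symm
        · exact Fin.ext (Nat.add_sub_cancel' (not_lt.1 h2))
  · have r2 := r.2
    have c4 : ∀ k, ∑ l, (if c (.inr k) l = r then 1 else 0) =
        (if (r : ℕ) = 0 then 2 else 0) + if p + k = r then 1 else 0 := fun k => by
      have e0 : c (.inr k) 0 = r ↔ (r : ℕ) = 0 := Fin.ext_iff.trans eq_comm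
      have e1 : c (.inr k) 1 = r ↔ (r : ℕ) = 0 := Fin.ext_iff.trans eq_comm
      have e2 : c (.inr k) 2 = r ↔ p + k = r := Fin.ext_iff
      rw [Fin.sum_univ_three, if_congr e0 rfl rfl, if_congr e1 rfl rfl, if_congr e2 rfl rfl]
      split_ifs <;> rfl
    rw [filter_congr (q := fun k : Fin (AP p + 2 * e) => (k : ℕ) <
        if (r : ℕ) = 0 then AP p + 2 * e else if (r : ℕ) < p then AP p else 1) fun k _ => by
        have := k.2
        rw [hν]; split_ifs <;> omega,
      card_lt_fin (by split_ifs <;> omega), card_filter, Fintype.sum_prod_type,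
      Fintype.sum_sum_type, sum_congr rfl fun s _ => (count_fn _ r).trans (congrArg _ (c1 s)),
      sum_congr rfl fun k _ => c4 k, sum_add_distrib, sum_const, card_univ, Fintype.card_fin,
      smul_eq_mul]
    clear c4
    induction r using Fin.addCases with
    | left ρ =>
      have := ρ.2
      rw [sum_congr rfl fun s _ => Multiset.count_map_eq_count' _ _ (Fin.castAdd_injective _ _) _,
        count_all, sum_eq_zero fun k _ => if_neg (by rw [Fin.val_castAdd]; omega), Fin.val_castAdd]
      split_ifs <;> omega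
    | right k =>
      rw [sum_eq_zero fun s _ => Multiset.count_eq_zero.2 fun h => ?_, Fin.val_natAdd,
        sum_eq_single k (fun k' _ h => if_neg fun h' => h (Fin.ext (by omega))) (by simp)]
      · split_ifs <;> omega
      · obtain ⟨a, -, ha⟩ := Multiset.mem_map.1 h
        have : (a : ℕ) = p + k := congrArg Fin.val ha
        omega

end MP7ebc2a.AA
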