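import Pool.Agent.Lib.AA25.B_TR

/-! The product rule for the hub. -/

namespace MP7ebc2a.AA
open Equiv Finset MvPolynomial

namespace PROD

variable {β α ι κ : Type} [Fintype β] [DecidableEq β] [Fintype α] [DecidableEq α] [DecidableEq κ]
  {d : ℕ}

/-- the symmetrised variable of a tuple of labels -/
noncomputable def Y (b : ℕ) (t : Fin d → ι) : MvPolynomial (Fin d → ι) ℤ :=
  ∑ σ : Perm (Fin d), C (((Perm.sign σ : ℤˣ) : ℤ) ^ b) * X fun k => t (σ.symm k)

lemma Y_perm (b : ℕ) (t : Fin d → ι) (π : Perm (Fin d)) :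
    Y b (fun k => t (π.symm k)) = C (((Perm.sign π : ℤˣ) : ℤ) ^ b) * Y b t := by
  unfold Y
  rw [mul_sum, ← Equiv.sum_comp (Equiv.mulRight π) fun σ => C _ * (C _ * X fun k => t (σ.symm k))]
  refine sum_congr rfl fun σ _ => ?_
  rw [← mul_assoc, ← C_mul, ← mul_pow, coe_mulRight, Perm.sign_mul, Units.val_mul, mul_left_comm,
    DUAL.usq, mul_one]
  rfl

/-- the monomial of a labelled filling -/
noncomputable def W (u : β → ι) (b : ℕ) (τ : β ≃ α × Fin d) : MvPolynomial (Fin d → ι) ℤ :=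
  ∏ j, Y b fun k => u (τ.symm (j, k))

/-- its signed sum -/
noncomputable def Q (u : β → ι) (v : β → κ) (b : ℕ) (τ : β ≃ α × Fin d) :
    MvPolynomial (Fin d → ι) ℤ :=
  ∑ g : Perm β with ∀ x, v (g x) = v x, C ((Perm.sign g : ℤˣ) : ℤ) * W u b (g.trans τ)

lemma of_Q {u : β → ι} {v : β → κ} {b : ℕ} {τ : β ≃ α × Fin d} (h : Q u v b τ ≠ 0) :
    GH β α u v d 0 b := by
  obtain ⟨μ, hμ⟩ := ne_zero_iff.1 h
  refine ⟨fun ρ => coeff μ (W u b ρ), fun g hg ρ => ?_, fun w ρ => ?_, fun σ ρ => ?_, τ, ?_⟩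
  · refine congrArg (coeff μ) (prod_congr rfl fun j _ => congrArg (Y b) (funext fun k => ?_))
    rw [← hg]
    simp
  · rw [pow_zero, one_mul]
    exact congrArg (coeff μ) (Equiv.prod_comp w.symm fun j => Y b fun k => u (ρ.symm (j, k)))
  · beta_reduce
    rw [← coeff_C_mul, ← prod_pow, map_prod, W, W, ← prod_mul_distrib]
    exact congrArg (coeff μ) (prod_congr rfl fun j _ => Y_perm b (fun k => u (ρ.symm (j, k))) (σ j))
  · simpa only [Q, alt, coeff_sum, coeff_C_mul] using hμ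

lemma to_Q (hF : St_FIB) {u : β → ι} {v : β → κ} {b : ℕ} (h : GH β α u v d 0 b) :
    ∃ τ : β ≃ α × Fin d, Q u v b τ ≠ 0 := by
  obtain ⟨φ, h1, h2, h3, τ, h4⟩ := h
  refine ⟨τ, fun h => h4 ?_⟩
  have := hF ((univ.filter fun g : Perm β => ∀ x, v (g x) = v x) ×ˢ (univ : Finset (α → Perm (Fin d))))
    (fun i => ((Perm.sign i.1 : ℤˣ) : ℤ) * (∏ j, ((Perm.sign (i.2 j) : ℤˣ) : ℤ)) ^ b)
    (fun i j k => u (((i.1.trans τ).trans (prodCongrRight i.2)).symm (j, k)))
    (fun i => φ ((i.1.trans τ).trans (prodCongrRight i.2))) (by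
      rw [← h, Q, sum_product]
      refine sum_congr rfl fun g _ => ?_
      simp only [W, Y, prod_univ_sum, Fintype.piFinset_univ, mul_sum]
      refine sum_congr rfl fun σ _ => ?_
      rw [prod_mul_distrib, ← map_prod, prod_pow, C_mul, mul_assoc]
      rfl) (fun i _ i' _ w hw => by
      generalize (i.1.trans τ).trans (prodCongrRight i.2) = ρ at hw ⊢
      generalize (i'.1.trans τ).trans (prodCongrRight i'.2) = ρ' at hw ⊢
      have e := h2 w.symm ρ'
      rw [pow_zero, one_mul] at e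
      refine Eq.trans (congrArg φ ?_) ((h1 (ρ.trans (ρ'.trans (prodCongrLeft fun _ => w.symm)).symm)
        (fun x => (congrFun (hw (ρ x).1) (ρ x).2).trans (by simp)) _).trans e)
      rw [Equiv.trans_assoc, symm_trans_self, trans_refl])
  rw [sum_product] at this
  have e : ∀ (g : Perm β) (σ : α → Perm (Fin d)), ((Perm.sign g : ℤˣ) : ℤ) *
      (∏ j, ((Perm.sign (σ j) : ℤˣ) : ℤ)) ^ b * φ ((g.trans τ).trans (prodCongrRight σ)) =
      ((Perm.sign g : ℤˣ) : ℤ) * φ (g.trans τ) := fun g σ => by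
    rw [h3, mul_assoc, ← mul_assoc (_ ^ b), ← mul_pow, ← Units.coe_prod, DUAL.usq, one_pow, one_mul]
  simp only [e, sum_const, nsmul_eq_mul, ← mul_sum] at this
  exact (mul_eq_zero.1 this).resolve_left (Nat.cast_ne_zero.2 (card_ne_zero_of_mem (mem_univ 1)))

end PROD

open PROD in
theorem st_PROD (hF : St_FIB) : St_PROD := by
  intro β β' α α' ι κ κ' _ _ _ _ _ _ _ _ _ _ u v u' v' d b h h'
  obtain ⟨τ, h⟩ := to_Q hF h
  obtain ⟨τ', h'⟩ := to_Q hF h'
  refine of_Q (τ := (τ.sumCongr τ').trans (sumProdDistrib α α' (Fin d)).symm)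
    fun h0 => mul_ne_zero h h' (Eq.trans ?_ h0)
  rw [Q, Q, sum_mul_sum, ← sum_product']
  refine sum_nbij (Perm.sumCongrHom β β') (fun g hg => ?_) Perm.sumCongrHom_injective.injOn
    (fun g hg => ?_) fun g _ => ?_
  · simp only [mem_product, mem_filter, mem_univ, true_and] at hg ⊢
    rintro (x | x) <;> simp [hg.1, hg.2]
  · have hg := (mem_filter.1 hg).2
    obtain ⟨p, rfl⟩ := Perm.mem_sumCongrHom_range_of_perm_mapsTo_inl (σ := g) (by
      rintro _ ⟨x, rfl⟩
      have := hg (Sum.inl x)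
      rcases e : g (Sum.inl x) with y | y
      · exact ⟨y, rfl⟩
      · simp [e] at this)
    refine ⟨p, ?_, rfl⟩
    simp only [coe_product, Set.mem_prod, mem_coe, mem_filter, mem_univ, true_and]
    exact ⟨fun x => by simpa using hg (Sum.inl x), fun x => by simpa using hg (Sum.inr x)⟩
  · rw [Perm.sumCongrHom_apply, Perm.sign_sumCongr, Units.val_mul, C_mul, mul_mul_mul_comm, W, W, W,
      Fintype.prod_sum_type]
    rfl

end MP7ebc2a.AA
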