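import Pool.Agent.Lib.AA25.B_LINK
import Pool.Agent.Lib.AA25.B_PROD
import Pool.Agent.Lib.AA25.B_CH

/-! Union of rows and union of columns. -/

namespace MP7ebc2a.AA
open Equiv Finset

namespace UNION

lemma tr {β β' α ι ι' κ κ' : Type} [Fintype β] [DecidableEq β] [Fintype α] [DecidableEq α]
    [Fintype β'] [DecidableEq β'] [DecidableEq κ] [DecidableEq κ'] {u : β → ι} {v : β → κ}
    {u' : β' → ι'} {v' : β' → κ'} {d a b : ℕ} (e : β ≃ β')
    (hu : ∀ x y, u x = u y ↔ u' (e x) = u' (e y)) (hv : ∀ x y, v x = v y ↔ v' (e x) = v' (e y)) :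
    GH β α u v d a b ↔ GH β' α u' v' d a b :=
  ⟨st_TR _ _ _ _ _ _ _ _ _ e (Equiv.refl _) hu hv rfl rfl, st_TR _ _ _ _ _ _ _ _ _ e.symm (Equiv.refl _)
    (fun x y => by rw [hu, apply_symm_apply, apply_symm_apply])
    (fun x y => by rw [hv, apply_symm_apply, apply_symm_apply]) rfl rfl⟩

lemma par {β α ι κ : Type} [Fintype β] [DecidableEq β] [Fintype α] [DecidableEq α] [DecidableEq κ]
    {u : β → ι} {v : β → κ} {d a b a' b' : ℕ} (h : GH β α u v d a b) (ha : a % 2 = a' % 2)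
    (hb : b % 2 = b' % 2) : GH β α u v d a' b' :=
  st_TR _ _ _ _ _ _ _ _ _ (Equiv.refl _) (Equiv.refl _) (fun _ _ => Iff.rfl) (fun _ _ => Iff.rfl) ha hb h

variable {J J' : Type} [Fintype J] [DecidableEq J] [Fintype J'] [DecidableEq J'] {m m' d : ℕ}

lemma ps {ν : J → ℕ} {ν' : J' → ℕ} {b : ℕ}
    (h : GH (Bx ν) (Fin m) (fun x => (x.2 : ℕ)) (fun x => x.1) d 0 b)
    (h' : GH (Bx ν') (Fin m') (fun x => (x.2 : ℕ)) (fun x => x.1) d 0 b) :
    GH (Bx (Sum.elim ν ν')) (Fin (m + m')) (fun x => (x.2 : ℕ)) (fun x => x.1) d 0 b := by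
  refine st_TR _ _ _ _ _ _ _ _ _ (sumSigmaDistrib fun i => Fin (Sum.elim ν ν' i)).symm finSumFinEquiv
    ?_ ?_ rfl rfl (st_PROD st_FIB _ _ _ _ _ _ h h')
  · rintro (x | x) (y | y) <;> rfl
  · rintro (x | x) (y | y) <;> rfl

omit [DecidableEq J] [DecidableEq J'] in
lemma map_elim (ν : J → ℕ) (ν' : J' → ℕ) :
    univ.val.map (Sum.elim ν ν') = univ.val.map ν + univ.val.map ν' := by
  rw [← univ_disjSum_univ, val_disjSum, Multiset.disjSum, Multiset.map_add, Multiset.map_map,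
    Multiset.map_map]
  rfl

lemma link {ν : J → ℕ} (h : ∀ k, ν k ≤ m) : GC m d (univ.val.map ν) ↔
    GH (Bx ν) (Fin m) (fun x => (x.2 : ℕ)) (fun x => x.1) d d 0 := by
  let f := (Fintype.equivFin J).symm
  rw [← Multiset.map_univ_val_equiv f, Multiset.map_map, st_LINK m d _ (ν ∘ f) fun k => h _]
  exact tr (sigmaCongrLeft (β := fun k => Fin (ν k)) f) (fun _ _ => Iff.rfl)
    fun _ _ => f.apply_eq_iff_eq.symm

lemma hub {lam : J → ℕ} {N : ℕ} (h : ∀ j, lam j ≤ N) (h' : ∀ x ∈ conj (univ.val.map lam) N, x ≤ m) :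
    GC m d (conj (univ.val.map lam) N) ↔
      GH (Bx lam) (Fin m) (fun x => x.1) (fun x => (x.2 : ℕ)) d d 0 := by
  let g := (Fintype.equivFin J).symm
  let f := (Tuple.sort fun i => OrderDual.toDual (lam (g i))).trans g
  have hf : Antitone (lam ∘ f) := fun i j h =>
    Tuple.monotone_sort (fun i => OrderDual.toDual (lam (g i))) h
  rw [← Multiset.map_univ_val_equiv f, Multiset.map_map, CH.conj_eq] at h' ⊢
  rw [link fun k => h' _ (Multiset.mem_map_of_mem _ (mem_univ_val k))]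
  let e : Bx (fun k : Fin N => colLen (lam ∘ f) k) ≃ Bx (lam ∘ f) :=
    ⟨fun x => ⟨⟨x.2, x.2.2.trans_le (colLen_le _ _)⟩, x.1, (lt_colLen hf _ _).1 x.2.2⟩,
      fun x => ⟨⟨x.2, x.2.2.trans_le (h _)⟩, x.1, (lt_colLen hf _ _).2 x.2.2⟩, fun _ => rfl, fun _ => rfl⟩
  exact tr (e.trans (sigmaCongrLeft (β := fun k => Fin (lam k)) f))
    (fun x y => (f.apply_eq_iff_eq.trans (Fin.ext_iff (a := (e x).1) (b := (e y).1))).symm)
    fun _ _ => Fin.ext_iff

lemma cnt_le {s : Multiset ℕ} {N : ℕ} (h : ∀ x ∈ s, x ≤ N) (h' : ∀ x ∈ conj s N, x ≤ m) (k : ℕ) :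
    s.countP (k < ·) ≤ m := by
  by_cases hk : k < N
  · exact h' _ (Multiset.mem_map_of_mem _ (mem_univ_val (⟨k, hk⟩ : Fin N)))
  · rw [Multiset.countP_eq_zero.2 fun x hx => by have := h x hx; omega]
    exact Nat.zero_le _

end UNION

open UNION in
theorem st_UNION : St_UNION := by
  rintro m m' d s s' ⟨N, h1, h2⟩ ⟨N', h1', h2'⟩
  have b : ∀ x ∈ s + s', x ≤ N + N' := fun x hx => (Multiset.mem_add.1 hx).elim
    (fun h => (h1 x h).trans (Nat.le_add_right _ _)) fun h => (h1' x h).trans (Nat.le_add_left _ _)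
  have c : ∀ x ∈ conj (s + s') (N + N'), x ≤ m + m' := fun x hx => by
    obtain ⟨k, -, rfl⟩ := Multiset.mem_map.1 hx
    rw [Multiset.countP_add]
    exact add_le_add (cnt_le h1 h2.1 k) (cnt_le h1' h2'.1 k)
  refine ⟨N + N', b, ?_⟩
  obtain ⟨n, f, rfl, -⟩ := CH.sorted s id
  obtain ⟨n', f', rfl, -⟩ := CH.sorted s' id
  have m1 : ∀ {J : Type} [Fintype J] (f : J → ℕ) (j : J), f j ∈ univ.val.map f :=
    fun f j => Multiset.mem_map_of_mem _ (mem_univ_val j)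
  have g := st_DUAL _ _ _ _ _ ((hub (fun j => h1 _ (m1 f j)) h2.1).1 h2)
  have g' := st_DUAL _ _ _ _ _ ((hub (fun j => h1' _ (m1 f' j)) h2'.1).1 h2')
  rw [← map_elim] at b c ⊢
  exact (hub (fun j => b _ (m1 _ j)) c).2 (par (st_DUAL _ _ _ _ _
    (ps (par g (by omega) rfl) (par g' (by omega) rfl))) (by omega) rfl)

open UNION in
theorem st_BOX : St_BOX := by
  rintro m m' d P hd hP ⟨N, h1, h2⟩ ⟨N', h1', h2'⟩
  have hd := Nat.even_iff.1 hd
  have b : ∀ x ∈ P, x.1 ≤ N ∧ x.2 ≤ N' := fun x hx =>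
    ⟨h1 _ (Multiset.mem_map_of_mem _ hx), h1' _ (Multiset.mem_map_of_mem _ hx)⟩
  refine ⟨N + N', fun x hx => ?_, ?_⟩
  · obtain ⟨y, hy, rfl⟩ := Multiset.mem_map.1 hx
    exact add_le_add (b y hy).1 (b y hy).2
  have a := fun k => h2.1 _ (Multiset.mem_map_of_mem _ (mem_univ_val k))
  have a' := fun k => h2'.1 _ (Multiset.mem_map_of_mem _ (mem_univ_val k))
  rw [CH.ch P N N' hP b, conj, conj, ← map_elim]
  refine (link ?_).2 (par (ps (par ((link a).1 h2) hd rfl) (par ((link a').1 h2') hd rfl)) hd.symm rfl)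
  rintro (k | k)
  exacts [(a k).trans (Nat.le_add_right _ _), (a' k).trans (Nat.le_add_left _ _)]

end MP7ebc2a.AA
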