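import Pool.Agent.Lib.AA25.B_ODD
import Pool.Agent.Lib.AA25.B_BAND
import Pool.Agent.Lib.AA25.B_SB
import Pool.Agent.Lib.AA25.B_CH
import Pool.Agent.Lib.AA25.B_P1
import Pool.Agent.Lib.AA25.B_P3
import Pool.Agent.Lib.AA25.B_SEED
import Pool.Agent.Lib.AA25.B_UNION
import Pool.Agent.Lib.AA25.B_LINK
import Pool.Agent.Lib.AA25.B_EVEN
import Pool.Agent.Lib.AA25.B_FIN

/-! Assembly of the blocks. -/

namespace MP7ebc2a.AA

theorem all_SB : St_SB := st_SB (st_SEED st_TR st_LINK) st_CH st_UNION st_BOX st_EX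

theorem all_ODD : St_ODD :=
  st_ODD st_EX all_SB st_CH (st_BANDS (st_BAND all_SB st_EX st_CH) all_SB st_EX st_CH) st_TYP

theorem all_P3 : St_P3 := st_P3 st_P1 st_P2

theorem all_FIN : St_FIN :=
  st_FIN all_P3 all_ODD (st_EVEN st_EX all_SB st_CH st_TYP) st_TYP st_CH

end MP7ebc2a.AA
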