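import Pool.Agent.Lib.AA25.Blue2

/-! Few short columns. -/

namespace MP7ebc2a.AA

namespace BIN

lemma take {H a b B : ℕ} {M U : Multiset ℕ} (h : U ≤ M) (hd : df H a b M + U.card ≤ B) :
    ∃ M', M = U + M' ∧ df H a b M' ≤ B :=
  ⟨M - U, (add_tsub_cancel_of_le h).symm, (st_EX.sub H a b M U).trans hd⟩

lemma win {H z c c' t k B : ℕ} {M : Multiset ℕ} (hz : 2 ≤ z) (h1 : 1 ≤ c) (h2 : c' ≤ 20)
    (h3 : c + 1 ≤ t) (h4 : t + 1 ≤ c') (hH : 30 * z ≤ H) (hd : df H 1 (20 * z) M ≤ B)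
    (hB : 180 * (B + 2 * k) ≤ H) :
    ∃ U M', M = U + M' ∧ df H 1 (20 * z) M' ≤ B + 2 * k ∧ U.card = 2 * k ∧
      U.sum = 2 * k * (t * z) ∧ ∀ x ∈ U, c * z ≤ x ∧ x ≤ c' * z := by
  have e1 : df H (c * z) (c' * z) M ≤ df H 1 (20 * z) M :=
    st_EX.mono H _ _ _ _ M M (Nat.mul_pos h1 (by omega)) (Nat.mul_le_mul_right z h2)
      fun _ _ _ => le_rfl
  obtain ⟨U, hU, c1, c2, c3⟩ := st_EX.ex H z c c' 0 k (2 * k * (t * z)) M hz h1 (by omega) hH
    (by omega) ⟨k * (t * z), by ring⟩ (Nat.mul_le_mul_left _ (Nat.mul_le_mul_right z h3))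
    (by
      have := Nat.mul_le_mul_left (2 * k) (Nat.mul_le_mul_right z h4)
      linarith) (by omega)
  obtain ⟨M', e, d⟩ := take (H := H) (a := 1) (b := 20 * z) (B := B + 2 * k) hU (by omega)
  exact ⟨U, M', e, d, c1, c2, fun x hx => ⟨(c3 x hx).1, (c3 x hx).2.1⟩⟩

lemma cnt {p : ℕ → Prop} [DecidablePred p] {U ν : Multiset ℕ} {N : ℕ} (h : U + U ≤ ν)
    (hp : ∀ x ∈ U, p x) (hN : N ≤ 2 * U.card) : N ≤ ν.countP p := by
  have h1 := Multiset.countP_le_of_le p h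
  rw [Multiset.countP_add, Multiset.countP_eq_card.2 hp] at h1
  omega

end BIN

theorem st_BIN (hC : St_CC) (hS : St_SUP) : St_BIN := by
  intro h m S P hh hm hm' hl hc hx he hd
  have p1 := n0 hh 1 93 (by omega)
  have p2 := n0 hh 93 94 (by omega)
  have p3 := n0 hh 94 95 (by omega)
  have p4 := n0 hh 95 96 (by omega)
  have p5 := n0 hh 96 100 (by omega)
  have p6 := n0 hh 100 187 (by omega)
  have p7 := n0 hh 1 10 (by omega)
  rw [pow_one] at p1 p7
  have p8 : h ^ 177 * h ^ 10 = h ^ 187 := by ring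
  have fill := fun r D P => hS.fill h (h ^ 96 / 2) r D P hh (by omega)
  have p9 : 2 * (h ^ 96 / 2) + 1 ≥ h ^ 96 := by omega
  have p0 : 1000000 ≤ h := hh
  clear hh hS
  generalize h ^ 96 / 2 = H at *
  generalize h ^ 94 = z at *
  generalize h ^ 93 = t93 at *
  generalize h ^ 95 = t95 at *
  generalize h ^ 96 = t96 at *
  generalize h ^ 100 = t100 at *
  generalize h ^ 187 = t187 at *
  generalize h ^ 177 = t177 at *
  generalize h ^ 10 = t10 at *
  obtain ⟨W1, M1, e1, d1, c1, s1, w1⟩ := BIN.win (c := 2) (c' := 5) (t := 3) (k := 17500 * h)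
    (by omega) (by omega) (by omega) le_rfl (by omega) (by omega) hd (by omega)
  obtain ⟨W2, M2, e2, d2, c2, s2, w2⟩ := BIN.win (c := 9) (c' := 11) (t := 10) (k := 17500 * h)
    (by omega) (by omega) (by omega) le_rfl le_rfl (by omega) d1 (by omega)
  obtain ⟨W3, M3, e3, d3, c3, s3, w3⟩ := BIN.win (c := 12) (c' := 19) (t := 15) (k := 17500 * h)
    (by omega) (by omega) (by omega) (by omega) (by omega) (by omega) d2 (by omega)
  obtain ⟨σ, hσ⟩ := he
  have z0 : 0 < 20 * z := by omega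
  obtain ⟨s, hs⟩ : ∃ s, s = σ + (W1.sum + W2.sum + W3.sum) := ⟨_, rfl⟩
  have a1 := Nat.div_add_mod s (20 * z)
  have a2 := Nat.mod_lt s z0
  have a3 : s / (20 * z) ≤ 50000 * h := by
    refine Nat.div_le_of_le_mul ?_
    have := (sum_le hx).trans (Nat.mul_le_mul_right _ hc)
    rw [hs, s1, s2, s3]
    have e : 20 * z * (50000 * h) = 1000000 * (h * z) := by ring
    have e0 : 896 * h * (20 * z) = 17920 * (h * z) := by ring
    have e1 : 2 * (17500 * h) * (3 * z) = 105000 * (h * z) := by ring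
    have e2 : 2 * (17500 * h) * (10 * z) = 350000 * (h * z) := by ring
    have e3 : 2 * (17500 * h) * (15 * z) = 525000 * (h * z) := by ring
    rw [e, e1, e2, e3]
    rw [e0] at this
    omega
  obtain ⟨q, hq⟩ : ∃ q, q = s / (20 * z) := ⟨_, rfl⟩
  obtain ⟨ρ, hρ⟩ : ∃ ρ, ρ = s % (20 * z) := ⟨_, rfl⟩
  rw [← hq] at a1 a3
  rw [← hρ] at a1 a2
  have a4 : 20 * z * 5 ≤ 20 * z * t10 := Nat.mul_le_mul_left _ (by omega)
  obtain ⟨F1, f1, g1, k1, b1⟩ := fill (20 * z) (100 * z - ρ) M3 (by omega) (Or.inr (by omega))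
    (by omega) (by omega)
  obtain ⟨M4, e4, d4⟩ := BIN.take (H := H) (a := 1) (b := 20 * z) (B := 10 * t95) f1
    (by omega)
  obtain ⟨r, hr⟩ : ∃ r, m = 20 * z + r := Nat.exists_eq_add_of_le (by omega)
  have a5 : r * (q + 5) ≤ r * t10 := Nat.mul_le_mul_left _ (by omega)
  have a6 : r * t10 ≤ t177 * t10 := Nat.mul_le_mul_right _ (by omega)
  have a7 : 4 * r ≤ r * (q + 5) := by
    rw [mul_comm]
    exact Nat.mul_le_mul_left _ (by omega)
  obtain ⟨F2, f2, g2, -, b2⟩ := fill r (r * (q + 5)) M4 d4 (Or.inr a7) a5 (by omega)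
  obtain ⟨M5, e5⟩ := exists_add_of_le f2
  obtain ⟨ν, hν⟩ : ∃ ν, ν = S + (W1 + W2 + W3 + F1 + (W1 + W2 + W3 + F1)) := ⟨_, rfl⟩
  have G1 : GC (20 * z) (2 * (q + 5)) ν := by
    refine hC.win _ _ h ν (by omega) ((Nat.log_mono_right (by omega)).trans_lt hl) ?_ ?_
      (BIN.cnt (U := W1) ?_ (fun x hx => by have := w1 x hx; omega) (by omega))
      (BIN.cnt (U := W2) ?_ (fun x hx => by have := w2 x hx; omega) (by omega))
      (BIN.cnt (U := W3) ?_ (fun x hx => by have := w3 x hx; omega) (by omega))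
    · have b : ∀ x ∈ W1 + W2 + W3 + F1, x ≤ 20 * z := by
        intro x hx
        simp only [Multiset.mem_add] at hx
        rcases hx with ((hx | hx) | hx) | hx
        · have := w1 x hx; omega
        · have := w2 x hx; omega
        · have := w3 x hx; omega
        · exact b1 x hx
      intro x hx'
      rw [hν, Multiset.mem_add, Multiset.mem_add, or_self] at hx'
      exact hx'.elim (hx x) (b x)
    · have b : 20 * z * (2 * (q + 5)) = 2 * (20 * z * q) + 200 * z := by ring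
      rw [hν, b]
      simp only [Multiset.sum_add]
      omega
    · exact le_iff_exists_add.2 ⟨S + (W2 + W3 + F1 + (W2 + W3 + F1)), by rw [hν]; abel⟩
    · exact le_iff_exists_add.2 ⟨S + (W1 + W3 + F1 + (W1 + W3 + F1)), by rw [hν]; abel⟩
    · exact le_iff_exists_add.2 ⟨S + (W1 + W2 + F1 + (W1 + W2 + F1)), by rw [hν]; abel⟩
  have G2 := hC.box _ _ _ _ _ ⟨q + 5, by ring⟩ G1 (hC.pairs r (q + 5) F2 b2 g2)
  refine ⟨W1 + W2 + W3 + F1 + F2, le_iff_exists_add.2 ⟨M5, by rw [e1, e2, e3, e4, e5]; abel⟩,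
    2 * (q + 5), ⟨q + 5, by ring⟩, ?_⟩
  have e : S + (W1 + W2 + W3 + F1 + F2 + (W1 + W2 + W3 + F1 + F2)) = ν + (F2 + F2) := by
    rw [hν]; abel
  rw [e, hr]
  exact G2

end MP7ebc2a.AA
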