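import Pool.Agent.Lib.AA25.Blue2

/-! All degrees: many letters and no very long column. -/

namespace MP7ebc2a.AA

namespace FARE

lemma longs (hC : St_CC) (hL : St_LONG) {h m : ℕ} (hh : 10 ^ 6 ≤ h) (hm : m ≤ h ^ 177)
    (M L : Multiset ℕ) (h1 : ∀ c ∈ L, 20 * h ^ 94 < c ∧ c ≤ m ∧ c ≤ h ^ 103)
    (h2 : df (h ^ 96) 1 (20 * h ^ 94) M + L.card * (5 * h ^ 93) ≤ 4 * h ^ 95) :
    ∃ U ≤ M, U.card ≤ L.card * (5 * h ^ 93) ∧ ∃ g, Even g ∧ GC m g (L + U) := by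
  induction L using Multiset.induction_on with
  | empty => exact ⟨0, Multiset.zero_le _, by simp, 2 * 0, by simp, hC.pairs m 0 0 (by simp) (by simp)⟩
  | cons c L ih =>
    rw [Multiset.card_cons, add_mul, one_mul] at h2 ⊢
    obtain ⟨U, a1, a2, g, a3, a4⟩ := ih (fun x hx => h1 x (Multiset.mem_cons_of_mem hx)) (by omega)
    obtain ⟨c1, c2, c3⟩ := h1 c (Multiset.mem_cons_self _ _)
    have := st_EX.sub (h ^ 96) 1 (20 * h ^ 94) M U
    obtain ⟨U', b1, b2, g', b3, b4⟩ := hL h m c (M - U) hh c1 c2 c3 hm (by omega)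
    refine ⟨U + U', ?_, by rw [Multiset.card_add]; omega, g + g', a3.add b3, ?_⟩
    · rw [add_comm]
      exact (le_tsub_iff_right a1).1 b1
    · have e : c ::ₘ L + (U + U') = L + U + c ::ₘ U' := by
        simp only [← Multiset.singleton_add]
        abel
      rw [e]
      exact hC.plus _ _ _ _ _ a4 b4

end FARE

theorem st_FARE (hC : St_CC) (hS : St_SUP) (hQ : St_QUAD) (hL : St_LONG) (hB : St_BIN) :
    St_FARE := by
  intro h m d ν hh hd m1 m2 hl hν hs hdf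
  have p1 := n0 hh 93 94 (by omega)
  have p2 := n0 hh 94 95 (by omega)
  have p3 := n0 hh 95 96 (by omega)
  have p4 := n0 hh 0 10 (by omega)
  have p5 := n0 hh 177 187 (by omega)
  have p6 := n0 hh 0 93 (by omega)
  have p7 := n0 hh 0 100 (by omega)
  rw [pow_zero] at p4 p6 p7
  have m0 : 0 < m := by omega
  obtain ⟨V1, L, e1, f1, c1⟩ := group_all m0 hl (ν.filter (20 * h ^ 94 < ·))
    fun x hx => (hν x (Multiset.mem_filter.1 hx).1).1
  obtain ⟨Sh, hSh⟩ : ∃ Sh, Sh = ν.filter fun x => ¬20 * h ^ 94 < x := ⟨_, rfl⟩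
  have e0 : ν = V1 + L + Sh := by rw [← e1, hSh, Multiset.filter_add_not]
  have s1 : ∀ x ∈ Sh, x ≤ 20 * h ^ 94 ∧ x ≤ m := fun x hx => by
    rw [hSh, Multiset.mem_filter] at hx
    exact ⟨not_lt.1 hx.2, (hν x hx.1).1⟩
  have d1 : df (h ^ 96) 1 (20 * h ^ 94) Sh ≤ 2 * h ^ 95 :=
    (st_EX.mono _ _ _ 1 (h ^ 96) Sh ν le_rfl (by omega) fun i _ hi => by
      rw [hSh, Multiset.count_filter, if_pos (not_lt.2 hi)]).trans hdf
  have c2 : L.card * (5 * h ^ 93) ≤ 4480 * h ^ 94 :=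
    (Nat.mul_le_mul_right _ c1).trans_eq (by ring)
  obtain ⟨U, u1, u2, g1, g1e, G1⟩ := FARE.longs hC hL hh m2 Sh L (fun c hc => by
    have : c ∈ ν.filter (20 * h ^ 94 < ·) := e1 ▸ Multiset.mem_add.2 (Or.inr hc)
    rw [Multiset.mem_filter] at this
    exact ⟨this.2, hν c this.1⟩) (by omega)
  have d2 := st_EX.sub (h ^ 96) 1 (20 * h ^ 94) Sh U
  obtain ⟨D, P, e2, hP⟩ := hS.half (Sh - U)
  have d3 := hP (h ^ 96) 1 (20 * h ^ 94)
  have e3 : Sh = U + (D + (P + P)) := by rw [← e2, add_tsub_cancel_of_le u1]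
  have sD : ∀ x ∈ D, x ≤ 20 * h ^ 94 ∧ x ≤ m := fun x hx => s1 x (by simp [e3, hx])
  have sP : ∀ x ∈ P, x ≤ m := fun x hx => (s1 x (by simp [e3, hx])).2
  obtain ⟨V2, S, e4, f2, c3⟩ := group_all m0 hl D fun x hx => (sD x hx).2
  obtain ⟨σ, f3⟩ := f1.add f2
  obtain ⟨D', P', e5, hP'⟩ := hS.half P
  have d4 := hP' (h ^ 96 / 2) 1 (20 * h ^ 94)
  have r1 := Nat.mod_lt σ m0
  have r2 : 5 * m ≤ m * h ^ 10 := by rw [mul_comm]; exact Nat.mul_le_mul_left _ (by omega)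
  obtain ⟨Q, q1, q2, q3, q4⟩ := hS.fill h (h ^ 96 / 2 / 2) m (5 * m - σ % m) P' hh (by omega)
    (by omega) (Or.inr (by omega)) (by omega) (by omega)
  have G2 := hQ m σ (σ / m + 5) _ Q m0 f3 q4 (by
    have := Nat.div_add_mod σ m
    rw [q2, mul_add]
    omega)
  have q5 : Q + Q ≤ P := e5 ▸ le_add_left (add_le_add q1 q1)
  have d5 := st_EX.sub (h ^ 96 / 2) 1 (20 * h ^ 94) P (Q + Q)
  rw [Multiset.card_add] at d5
  obtain ⟨P2, hP2⟩ : ∃ P2, P2 = P - (Q + Q) := ⟨_, rfl⟩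
  have e6 : P = Q + Q + P2 := by rw [hP2, add_tsub_cancel_of_le q5]
  rw [← hP2] at d5
  have e7 : ν = L + U + (V1 + V2 + (Q + Q + (Q + Q))) + (S + (P2 + P2)) := by
    rw [e0, e3, e4, e6]
    abel
  have t1 := hC.sum _ _ _ G1
  have t2 := hC.sum _ _ _ G2
  obtain ⟨k, rfl⟩ := hd
  obtain ⟨k1, rfl⟩ := g1e
  generalize σ / m + 5 = q at G2 t2
  have t3 : m * k + m * k = m * k1 + m * k1 + 4 * (m * q) + (S.sum + (P2.sum + P2.sum)) := by
    rw [← mul_add, ← hs, e7, Multiset.sum_add, Multiset.sum_add, t1, t2, Multiset.sum_add,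
      Multiset.sum_add]
    ring
  obtain ⟨F, b1, g2, ⟨k2, rfl⟩, G3⟩ := hB h m S P2 hh m1 m2 hl c3
    (fun x hx => (sD x (by simp [e4, hx])).1) (Nat.even_iff.2 (by omega)) (by omega)
  obtain ⟨P3, rfl⟩ := exists_add_of_le b1
  have t4 := hC.sum _ _ _ G3
  rw [Multiset.sum_add, Multiset.sum_add, mul_add] at t4
  rw [Multiset.sum_add] at t3
  have t5 : m * k = m * (k1 + 2 * q + k2) + P3.sum := by
    rw [mul_add, mul_add, mul_left_comm]
    omega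
  obtain ⟨j, rfl⟩ := Nat.exists_eq_add_of_le
    (Nat.le_of_mul_le_mul_left (show m * (k1 + 2 * q + k2) ≤ m * k by omega) m0)
  have G4 := hC.pairs m j P3 (fun x hx => sP x (by simp [e6, hx])) (by
    rw [mul_add m _ j] at t5
    omega)
  have G := hC.plus _ _ _ _ _ (hC.plus _ _ _ _ _ G1 G2) (hC.plus _ _ _ _ _ G3 G4)
  have e8 : S + (F + F) + (P3 + P3) = S + (F + P3 + (F + P3)) := by abel
  have e9 : k1 + k1 + 4 * q + (k2 + k2 + 2 * j) =
    k1 + 2 * q + k2 + j + (k1 + 2 * q + k2 + j) := by ring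
  rwa [e8, ← e7, e9] at G

theorem st_FAR (hC : St_CC) (hE : St_FARE) (hO : St_ODDG) : St_FAR := by
  intro h m d ν hh m1 m2 hl hν hs hdf
  rcases Nat.even_or_odd d with hd | hd
  · exact hE h m d ν hh hd m1 m2 hl hν hs (by omega)
  obtain ⟨μ, a1, a2, a3⟩ := hO h m ν hh m1 m2 hdf
  have d1 := st_EX.sub (h ^ 96) 1 (h ^ 96) ν μ
  have p7 := n0 hh 0 100 (by omega)
  rw [pow_zero] at p7
  have t1 := hC.sum _ _ _ a3
  obtain ⟨ν', rfl⟩ := exists_add_of_le a1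
  rw [add_tsub_cancel_left] at d1
  rw [Multiset.sum_add, t1] at hs
  obtain ⟨j, rfl⟩ := Nat.exists_eq_add_of_le
    (Nat.le_of_mul_le_mul_left (show m * 7 ≤ m * d by omega) (by omega))
  refine hC.plus _ _ _ _ _ a3 (hE h m j ν' hh ?_ m1 m2 hl
    (fun x hx => hν x (Multiset.mem_add.2 (Or.inr hx))) ?_ (by omega))
  · rw [Nat.odd_iff] at hd
    exact Nat.even_iff.2 (by omega)
  · rw [mul_add] at hs
    omega

end MP7ebc2a.AA
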