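import Pool.Agent.Lib.AA25.Blue2

/-! From typical partitions to weights, for all degrees. -/

namespace MP7ebc2a.AA
open Finset

namespace FIN2

lemma root (k n : ℕ) (hk : k ≠ 0) : ∃ h : ℕ, h ^ k ≤ n ∧ n < (h + 1) ^ k := by
  have ex : ∃ h : ℕ, n < (h + 1) ^ k :=
    ⟨n, lt_of_lt_of_le (Nat.lt_succ_self n) (Nat.le_self_pow hk _)⟩
  classical
  refine ⟨Nat.find ex, ?_, Nat.find_spec ex⟩
  rcases hj : Nat.find ex with _ | j
  · simp [hk]
  · exact not_lt.1 (Nat.find_min ex (by omega))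

lemma lg {h m : ℕ} (hh : 0 < h) (e : (h + 1) ^ 201 ≤ 2 ^ (h / 10)) (h0 : h ^ 100 ≤ m)
    (hm : m ≤ h ^ 177) : Nat.log 2 m < h := by
  have := Nat.pow_pos (n := 100) hh
  refine Nat.log_lt_of_lt_pow (by omega) (hm.trans_lt (lt_of_le_of_lt (le_trans ?_ e) ?_))
  · exact (Nat.pow_le_pow_left (by omega) _).trans (Nat.pow_le_pow_right (by omega) (by norm_num))
  · exact Nat.pow_lt_pow_right (by norm_num) (by omega)

lemma fin {p w b n n' h η ε : ℝ} (d4 : 0 ≤ p) (η1 : 2 * η ≤ 1) (η2 : 4 * η ≤ ε) (hε : 0 < ε)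
    (hp : 0 < h) (h8 : 8 ≤ h * ε) (p3 : n ≤ η * p) (d1 : p ≤ w + n) (d2 : b ≤ n + n')
    (d3 : h * n' ≤ 2 * p) : b ≤ ε * w := by
  have d5 : p ≤ 2 * w := by nlinarith
  have d6 : 4 * n' ≤ ε * p := by
    refine le_of_mul_le_mul_left ?_ hp
    nlinarith [mul_le_mul_of_nonneg_right h8 d4]
  nlinarith [mul_le_mul_of_nonneg_right η2 d4, mul_le_mul_of_nonneg_left d5 hε.le]

end FIN2

open FIN2 Classical in
theorem st_FINA (hP : St_P4) (hF : St_FAR) (hO : St_ODD2) (hE : St_EVEN2) (hT : St_TRF) :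
    St_FINA := by
  intro ε hε
  obtain ⟨η, η0, η1, η2⟩ : ∃ η : ℝ, 0 < η ∧ 2 * η ≤ 1 ∧ 4 * η ≤ ε :=
    ⟨min 1 ε / 4, by positivity, by linarith [min_le_left 1 ε], by linarith [min_le_right 1 ε]⟩
  obtain ⟨h0, hh0⟩ := all_P3 η η0
  obtain ⟨h1, hh1⟩ := FIN.large
  obtain ⟨h2, hh2⟩ := P3.ev
  obtain ⟨h3, hh3⟩ := hP
  obtain ⟨K, K0, K1, K2, K3, K4, K5⟩ : ∃ K : ℕ, h0 ≤ K ∧ h1 ≤ K ∧ h2 ≤ K ∧ h3 ≤ K ∧ 10 ^ 6 ≤ K ∧
      ⌈8 / ε⌉₊ ≤ K :=
    ⟨h0 + h1 + h2 + h3 + 10 ^ 6 + ⌈8 / ε⌉₊, by omega, by omega, by omega, by omega, by omega,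
      by omega⟩
  have hε8 : ∀ h, K ≤ h → (8 : ℝ) ≤ h * ε := fun h hh => by
    rw [← div_le_iff₀ hε]
    exact (Nat.le_ceil _).trans (by exact_mod_cast K5.trans hh)
  refine ⟨K ^ 200, fun m hm d hd => ?_⟩
  have c1 : ∀ h, K ≤ h → h ^ 200 ≤ d * m → h ^ 100 ≤ m → m ≤ h ^ 103 →
      ((Bad m (d * m)).card : ℝ) ≤ ε * (Wt m (d * m)).card := fun h hh a1 a2 a3 => by
    have hp : 0 < h := by omega
    have a4 : m ≤ h ^ 177 := a3.trans (Nat.pow_le_pow_right hp (by norm_num))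
    have b1 := hh3 h (by omega) (d * m) m (h ^ 96) (h ^ 95) a1 a2 le_rfl (Nat.pow_pos hp)
      (le_of_eq (by ring))
    have b2 : (Bad m (d * m)).card ≤
        ((PM (d * m) m).filter fun l => h ^ 95 < df (h ^ 96) 1 (h ^ 96) l.parts).card := by
      refine (hT.colB m d).trans (card_le_card fun l hl => ?_)
      obtain ⟨l1, l2⟩ := mem_filter.1 hl
      refine mem_filter.2 ⟨l1, not_le.1 fun l3 => l2 ?_⟩
      exact hF h m d _ (by omega) a2 a4 (lg hp (hh2 h (by omega)) a2 a4)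
        (fun x hx => ⟨(mem_filter.1 l1).2 x hx, ((mem_filter.1 l1).2 x hx).trans a3⟩)
        (by rw [l.parts_sum, mul_comm]) l3
    have b3 : (h : ℝ) * (Bad m (d * m)).card ≤ 2 * (Wt m (d * m)).card := by
      exact_mod_cast ((Nat.mul_le_mul_left h b2).trans b1).trans
        (Nat.mul_le_mul_left 2 (hT.colA m _))
    have hp' : (0 : ℝ) < h := by exact_mod_cast hp
    refine le_of_mul_le_mul_left (b3.trans ?_) hp'
    rw [← mul_assoc]
    exact mul_le_mul_of_nonneg_right (by linarith [hε8 h hh]) (Nat.cast_nonneg _)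
  have kp : 0 < K := by omega
  by_cases hc : m ≤ d
  · obtain ⟨h, r1, r2⟩ := root 100 m (by norm_num)
    have s1 : K ≤ h := Nat.lt_succ_iff.1 (lt_of_pow_lt_pow_left₀ 100 (Nat.zero_le _)
      (((Nat.pow_le_pow_right kp (by norm_num)).trans hm).trans_lt r2))
    refine c1 h s1 ?_ r1 ((Nat.pow_le_pow_iff_left two_ne_zero).1 ?_)
    · rw [show h ^ 200 = h ^ 100 * h ^ 100 by ring]
      exact Nat.mul_le_mul (r1.trans hc) r1
    · have a1 := Nat.pow_le_pow_left r2.le 2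
      have a2 := P3.two (h := h) (by omega)
      have a3 := n0 (h := h) (by omega) 200 206 (by norm_num)
      rw [← pow_mul] at a1 ⊢
      norm_num at a1 ⊢
      omega
  obtain ⟨h, r1, r2⟩ := root 200 (d * m) (by norm_num)
  have s1 : K ≤ h := Nat.lt_succ_iff.1 (lt_of_pow_lt_pow_left₀ 200 (Nat.zero_le _)
    ((le_trans hm (Nat.le_mul_of_pos_left _ (by omega))).trans_lt r2))
  have hp : 0 < h := by omega
  have pw : ∀ {a b : ℕ}, a ≤ b → h ^ a ≤ h ^ b := fun hab => Nat.pow_le_pow_right hp hab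
  have s2 : h ^ 100 ≤ m := (Nat.pow_le_pow_iff_left two_ne_zero).1 (by
    rw [← pow_mul, sq m]
    exact r1.trans (Nat.mul_le_mul_right _ (by omega)))
  by_cases hc' : m ≤ h ^ 103
  · exact c1 h s1 r1 s2 hc'
  obtain ⟨l1, l2⟩ := hh1 h (by omega)
  have p3 := hh0 h (by omega) (d * m) r1 r2
  have p4 := hh3 h (by omega) (d * m) (d * m) (h ^ 70) (h ^ 43) r1 ((pw (by norm_num)).trans r1)
    (pw (by norm_num)) (Nat.pow_pos hp) (le_of_eq (by ring))
  have p5 : (PM (d * m) (d * m)).card ≤ pn (d * m) := card_le_univ _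
  obtain ⟨N, hN⟩ : ∃ N, N = univ.filter fun l : Nat.Partition (d * m) => ¬ Typ h l.parts := ⟨_, rfl⟩
  obtain ⟨N', hN'⟩ : ∃ N', N' = (PM (d * m) (d * m)).filter fun l =>
    h ^ 43 < df (h ^ 70) 1 (h ^ 70) l.parts := ⟨_, rfl⟩
  rw [← hN] at p3
  rw [← hN'] at p4
  have ty := fun (l : Nat.Partition (d * m)) t => st_TYP h l.parts t l2
  have t1 : pn (d * m) ≤ (Wt m (d * m)).card + N.card := by
    rw [pn, ← card_univ, ← card_filter_add_card_filter_not (s := univ)
      fun l : Nat.Partition (d * m) => Typ h l.parts, hN]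
    refine Nat.add_le_add_right (le_trans (card_le_card fun l hl => ?_) (hT.rowA m _)) _
    exact mem_filter.2 ⟨mem_univ _, (ty l (mem_filter.1 hl).2).2.1.trans
      ((pw (by norm_num)).trans (not_le.1 hc').le)⟩
  have t2 : (Bad m (d * m)).card ≤ N.card + N'.card := by
    by_cases hd' : d ≤ h ^ 24
    · refine (hT.rowB m d (by omega)).trans (le_trans (card_le_card fun l hl => ?_)
        (card_union_le _ _))
      by_contra hl'
      rw [mem_union, hN, hN', not_or, mem_filter, mem_filter, not_and, not_and, not_not,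
        not_lt] at hl'
      have u1 := hl'.1 (mem_univ _)
      have u2 := hl'.2 (mem_filter.2 ⟨mem_univ _, fun x hx => Nat.Partition.le_of_mem_parts hx⟩)
      have u3 : l.parts.sum = m * d := by rw [l.parts_sum, mul_comm]
      refine (mem_filter.1 hl).2 ?_
      rcases Nat.even_or_odd d with e | e
      · exact hE h d m _ e hd hd' (by omega) l2 u1 u2 u3
      · by_cases h20 : 20 ≤ d
        · exact hO h d m _ e h20 hd' (by omega) l1 l2 u1 u3
        · exact all_ODD h d m _ e (by obtain ⟨k, hk⟩ := e; omega) (by omega) l1 l2 u1 u3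
    · have a4 : m ≤ h ^ 177 := by
        refine Nat.le_of_mul_le_mul_left (c := h ^ 24) ?_ (Nat.pow_pos hp)
        have a1 := Nat.mul_le_mul_right m (not_le.1 hd').le
        have a2 := P3.two (h := h) (by omega)
        have a3 := n0 (h := h) (by omega) 200 201 (by norm_num)
        rw [← pow_add]
        norm_num
        omega
      refine le_trans ((hT.colB m d).trans (card_le_card fun l hl => ?_)) (Nat.le_add_right _ _)
      rw [hN]
      refine mem_filter.2 ⟨mem_univ _, fun t => (mem_filter.1 hl).2 ?_⟩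
      exact hF h m d _ (by omega) s2 a4 (lg hp (hh2 h (by omega)) s2 a4)
        (fun x hx => ⟨(mem_filter.1 (mem_filter.1 hl).1).2 x hx,
          ((ty l t).1 x hx).trans (pw (by norm_num))⟩) (by rw [l.parts_sum, mul_comm]) t.2
  have d1 : (pn (d * m) : ℝ) ≤ (Wt m (d * m)).card + N.card := by exact_mod_cast t1
  have d2 : ((Bad m (d * m)).card : ℝ) ≤ N.card + N'.card := by exact_mod_cast t2
  have d3 : (h : ℝ) * N'.card ≤ 2 * pn (d * m) := by
    exact_mod_cast p4.trans (Nat.mul_le_mul_left 2 p5)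
  have hp' : (0 : ℝ) < h := by exact_mod_cast hp
  exact fin (Nat.cast_nonneg _) η1 η2 hε hp' (hε8 h s1) p3 d1 d2 d3

open Classical in
theorem st_FIN2 (hA : St_FINA) (hP : St_P5) (hC : St_CC) (hS : St_SMALL) (hT : St_TRF) :
    St_FIN2 := by
  intro ε hε
  obtain ⟨M, hM⟩ := hA ε hε
  choose! n0 hn0 using fun m => hP m (216 * m ^ 2 + 20) ⌈1 / ε⌉₊
  refine ⟨(range M).sup n0, fun m d h3 h4 hn => ?_⟩
  by_cases hm : M ≤ m
  · exact hM m hm d h4
  have a1 := hn0 m (by omega) (d * m) ((le_sup (f := n0) (mem_range.2 (by omega))).trans hn)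
  have a2 : (Bad m (d * m)).card ≤ ((PM (d * m) m).filter fun l =>
      ∃ i, 0 < i ∧ i < m ∧ l.parts.count i < 216 * m ^ 2 + 20).card := by
    refine (hT.colB m d).trans (card_le_card fun l hl => ?_)
    obtain ⟨l1, l2⟩ := mem_filter.1 hl
    refine mem_filter.2 ⟨l1, by_contra fun l3 => l2 ?_⟩
    simp only [not_exists, not_and, not_lt] at l3
    have u1 := (mem_filter.1 l1).2
    have u3 : l.parts.sum = m * d := by rw [l.parts_sum, mul_comm]
    by_cases h5 : 5 ≤ m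
    · exact hC.far m d _ h5 (by have := l3 2 (by omega) (by omega); omega) u1 u3
    · exact hS m d _ (by omega) (fun x hx => ⟨l.parts_pos hx, u1 x hx⟩) u3
        fun i i0 i1 => by have := l3 i i0 i1; omega
  have a3 : (⌈1 / ε⌉₊ : ℝ) * (Bad m (d * m)).card ≤ (Wt m (d * m)).card := by
    exact_mod_cast ((Nat.mul_le_mul_left _ a2).trans a1).trans (hT.colA m _)
  have a4 : 1 ≤ ⌈1 / ε⌉₊ * ε := by
    rw [← div_le_iff₀ hε]
    exact Nat.le_ceil _
  have a5 : (0 : ℝ) ≤ (Bad m (d * m)).card := Nat.cast_nonneg _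
  nlinarith [mul_le_mul_of_nonneg_left a3 hε.le, mul_le_mul_of_nonneg_right a4 a5]

end MP7ebc2a.AA
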