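import Pool.Agent.Lib.AA25.Blue2

/-! One long column. -/

namespace MP7ebc2a.AA

namespace LONG

lemma one (hR : St_RZ) {H z v : ℕ} (m : ℕ) {M : Multiset ℕ} (hz : 1000 ≤ z) (hH : 30 * z ≤ H)
    (h1 : 10 * z ≤ v) (h2 : v ≤ 15 * z + 2) (hd : 180 * (df H 1 (20 * z) M + 7) ≤ H) :
    ∃ U ≤ M, U.card = 7 ∧ Rz m 3 {v} U := by
  obtain ⟨y, a1, a2⟩ : ∃ y, 42 * y ≤ v ∧ v < 42 * y + 42 := ⟨v / 42, by omega, by omega⟩
  have e1 := st_EX.mono H (17 * y) (19 * y) 1 (20 * z) M M (by omega) (by omega) fun _ _ _ => le_rfl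
  obtain ⟨U, u1, u2, -, u4⟩ := st_EX.ex H y 17 19 (v % 2) 1 (36 * y) M (by omega) (by norm_num)
    (by norm_num) (by omega) (by omega) ⟨18 * y, by ring⟩ (by omega) (by omega) (by omega)
  obtain ⟨x, hx⟩ := Multiset.card_pos_iff_exists_mem.1 (by omega : 0 < U.card)
  obtain ⟨x1, x2, x3⟩ := u4 x hx
  have e2 := st_EX.mono H (15 * y) (21 * y) 1 (20 * z) (M - {x}) (M - {x}) (by omega) (by omega)
    fun _ _ _ => le_rfl
  have e3 := st_EX.sub H 1 (20 * z) M {x}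
  rw [Multiset.card_singleton] at e3
  obtain ⟨W, w1, w2, w3, w4⟩ := st_EX.ex H y 15 21 (v % 2) 3 (3 * v - x) (M - {x}) (by omega)
    (by norm_num) (by norm_num) (by omega) (by omega) (Nat.even_iff.2 (by omega)) (by omega)
    (by omega) (by omega)
  have c7 : (x ::ₘ W).card = 7 := by rw [Multiset.card_cons, w2]
  refine ⟨x ::ₘ W, ?_, c7, hR.fano m v _ c7 (by rw [Multiset.sum_cons, w3]; omega) fun t ht => ?_⟩
  · rw [← Multiset.singleton_add, add_comm]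
    exact (le_tsub_iff_right (Multiset.singleton_le.2 (Multiset.mem_of_le u1 hx))).1 w1
  · rcases Multiset.mem_cons.1 ht with rfl | ht
    · omega
    · have := w4 t ht
      omega

lemma all (hR : St_RZ) {H z : ℕ} (m : ℕ) (hz : 1000 ≤ z) (hH : 30 * z ≤ H) (Y : Multiset ℕ) :
    (∀ v ∈ Y, 10 * z ≤ v ∧ v ≤ 15 * z + 2) → ∀ M : Multiset ℕ,
      180 * (df H 1 (20 * z) M + 7 * Y.card) ≤ H → ∃ U ≤ M, U.card = 7 * Y.card ∧ Rz m 3 Y U := by
  induction Y using Multiset.induction_on with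
  | empty => exact fun _ M _ => ⟨0, Multiset.zero_le _, rfl, hR.nil m 3⟩
  | cons v Y ih =>
    intro hY M hd
    rw [Multiset.card_cons] at hd
    have hv := hY v (Multiset.mem_cons_self _ _)
    obtain ⟨U, u1, u2, u3⟩ := one hR m (M := M) hz hH hv.1 hv.2 (by omega)
    have e := st_EX.sub H 1 (20 * z) M U
    obtain ⟨W, w1, w2, w3⟩ := ih (fun t ht => hY t (Multiset.mem_cons_of_mem ht)) (M - U) (by omega)
    refine ⟨U + W, ?_, by rw [Multiset.card_add, Multiset.card_cons]; omega, ?_⟩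
    · rw [add_comm]; exact (le_tsub_iff_right u1).1 w1
    · rw [← Multiset.singleton_add]; exact hR.add _ _ _ _ _ _ u3 w3

lemma num {z c u B : ℕ} (hz : 0 < z) (h1 : 20 * z < c) (h2 : c ≤ B * z) (hu : u = c / (10 * z)) :
    2 ≤ u ∧ 10 * u ≤ B ∧ 10 * z ≤ 2 * (c / (2 * u)) ∧ 2 * (c / (2 * u)) ≤ 15 * z := by
  have z0 : 0 < 10 * z := by omega
  have a1 : u * (10 * z) ≤ c := hu ▸ Nat.div_mul_le_self c _
  have a2 : c < u * (10 * z) + 10 * z := hu ▸ Nat.lt_div_mul_add z0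
  have a3 : 2 ≤ u := hu ▸ (Nat.le_div_iff_mul_le z0).2 (by omega)
  have a4 : 5 * z ≤ c / (2 * u) := (Nat.le_div_iff_mul_le (by omega)).2 (by linarith)
  have a5 := Nat.div_mul_le_self c (2 * u)
  refine ⟨a3, Nat.le_of_mul_le_mul_right (by linarith) hz, by omega, ?_⟩
  refine Nat.le_of_mul_le_mul_right ?_ (by omega : 0 < u)
  nlinarith

end LONG

theorem st_LONG (hC : St_CC) (hS : St_SUP) (hR : St_RZ) : St_LONG := by
  intro h m c M hh h1 h2 h3 h4 h5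
  have p0 := n0 hh 0 93 (by norm_num)
  have p1 := n0 hh 93 94 (by norm_num)
  have p2 := n0 hh 94 95 (by norm_num)
  have p3 := n0 hh 95 96 (by norm_num)
  have p4 := n0 hh 18 93 (by norm_num)
  have p5 := n0 hh 9 10 (by norm_num)
  rw [pow_zero] at p0
  obtain ⟨u, hu⟩ : ∃ u, u = c / (10 * h ^ 94) := ⟨_, rfl⟩
  obtain ⟨a1, a2, a3, a4⟩ := LONG.num (B := h ^ 9) (by omega) h1 (h3.trans_eq (by ring)) hu
  obtain ⟨Y, y1, y2, y3⟩ := hR.kk c c (2 * u) (by omega) (even_two_mul u)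
  have y4 : Y.card ≤ h ^ 18 :=
    (y1.trans (Nat.pow_le_pow_left (by omega : 2 * u ≤ h ^ 9) 2)).trans_eq (by ring)
  obtain ⟨U, u1, u2, u3⟩ := LONG.all hR (H := h ^ 96) (z := h ^ 94) c (by omega) (by omega) Y
    (fun v hv => by have := y2 v hv; omega) M (by omega)
  obtain ⟨f1, f2⟩ := hR.fin c _ U (hR.trans _ _ _ _ _ _ y3 u3)
  obtain ⟨q, hq⟩ : ∃ q, q + 1 = 3 * u := ⟨3 * u - 1, by omega⟩
  rw [show 3 * (2 * u - 1) + 1 = 2 * q by omega] at f2
  have g1 := hC.good c (2 * q) _ (by omega) (even_two_mul q) (fun x hx =>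
    (Multiset.mem_cons.1 hx).elim Eq.le (f1 x)) f2
  obtain ⟨D, P, d1, d2⟩ := hS.half (M - U)
  have e1 := d2 (h ^ 96) 1 (20 * h ^ 94)
  have e2 := st_EX.sub (h ^ 96) 1 (20 * h ^ 94) M U
  obtain ⟨r, rfl⟩ := Nat.exists_eq_add_of_le h2
  have q1 : r * q ≤ r * h ^ 10 := Nat.mul_le_mul_left r (by omega)
  obtain ⟨F, k1, k2, k3, k4⟩ := hS.fill h (h ^ 96 / 2) r (r * q) P hh (by omega) (by omega)
    (Or.inr (by rw [mul_comm 4]; exact Nat.mul_le_mul_left r (by omega))) q1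
    (q1.trans ((Nat.mul_le_mul_right _ (by omega : r ≤ h ^ 177)).trans_eq (by ring)))
  refine ⟨U + (F + F), ?_, by simp only [Multiset.card_add]; omega, 2 * q, even_two_mul q, ?_⟩
  · rw [add_comm]
    exact (le_tsub_iff_right u1).1 (d1 ▸ (add_le_add k1 k1).trans le_add_self)
  · rw [← Multiset.cons_add]
    exact hC.box _ _ _ _ _ (even_two_mul q) g1 (hC.pairs r q F k4 k2)

end MP7ebc2a.AA
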