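import Pool.Agent.Lib.AA25.C_ODD2b

/-! Typical partitions of `d m`, `d` odd and at most `h ^ 24`. -/

namespace MP7ebc2a.AA

theorem O2.main (hEX : St_EX) (hSB : St_SB) (hCH : St_CH) (hBS : St_BANDS) (hT : St_TYP) :
    St_ODD2 := by
  intro h d m s hodd h20 hd hh h6 hm ht hs
  obtain ⟨t1, t2, t3⟩ := hT h s ht hm
  have h1 : 1 ≤ d := by omega
  have h5 : 5 ≤ d := by omega
  have d2 := Nat.odd_iff.1 hodd
  obtain ⟨S, hS⟩ : ∃ S, S = s.filter (· < 28 * (d * h ^ 60)) := ⟨_, rfl⟩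
  obtain ⟨Bg, hBg⟩ : ∃ B, B = s.filter (¬ · < 28 * (d * h ^ 60)) := ⟨_, rfl⟩
  have sp : S + Bg = s := by rw [hS, hBg]; exact Multiset.filter_add_not _ _
  have q0 := O2.z3 hh h1 60 (by norm_num)
  have q1 := k1 hh hd 60 96 (by norm_num)
  have q2 := k1 hh hd 70 96 (by norm_num)
  have q3 := k2 hh d 60 70 (by norm_num)
  have q4 := O2.z2 hh d 60 (by norm_num)
  have mS : ∀ x ∈ S, x < 28 * (d * h ^ 60) := fun x hx => by
    rw [hS] at hx; exact (Multiset.mem_filter.1 hx).2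
  have mB : ∀ x ∈ Bg, 28 * (d * h ^ 60) ≤ x ∧ x ≤ h ^ 101 := fun x hx => by
    rw [hBg] at hx
    exact ⟨not_lt.1 (Multiset.mem_filter.1 hx).2, t1 x (Multiset.mem_filter.1 hx).1⟩
  have dS : df (h ^ 96) 1 (27 * (d * h ^ 60)) S ≤ h ^ 95 :=
    (hEX.mono _ _ _ 1 (h ^ 96) S s le_rfl (by omega) fun i _ hi => by
      rw [hS, Multiset.count_filter_of_pos (by omega)]).trans ht.2
  have dB : df (h ^ 96) (22 * (d * h ^ 70)) (30 * (d * h ^ 70)) Bg ≤ h ^ 95 :=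
    (hEX.mono _ _ _ 1 (h ^ 96) Bg s (by omega) (by omega) fun i hi _ => by
      rw [hBg, Multiset.count_filter_of_pos (by omega)]).trans ht.2
  have wS : S.sum ≤ 28 * (d * h ^ 60) * h ^ 101 := hS ▸ t3 _
  have cS : S.card + Bg.card ≤ h ^ 102 := by rw [← Multiset.card_add, sp]; exact t2
  clear hS hBg t1 t2 t3 ht
  subst sp
  obtain ⟨So, Se, rfl, o1, o2⟩ := par_split S
  rw [Multiset.sum_add] at wS
  rw [Multiset.card_add] at cS
  have po := sum_par o1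
  have pe := sum_par o2
  have c1 : d * So.card ≤ d * h ^ 102 := Nat.mul_le_mul_left _ (by omega)
  have pd : (d * So.card) % 2 = So.card % 2 := by rw [Nat.mul_mod, d2]; simp
  have ev : ∀ c, (2 * h ^ 93 * c) % 2 = 0 := fun c => by rw [mul_assoc]; omega
  have r1 := k2 hh d 161 162 (by norm_num)
  have r2 := k2 hh d 93 162 (by norm_num)
  have r3 := k3 hh h1 153 162 (by norm_num)
  have r4 := k2 hh d 102 162 (by norm_num)
  have r5 := k2 hh d 153 162 (by norm_num)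
  have r6 := k2 hh d 123 162 (by norm_num)
  have r7 := k2 hh d 154 162 (by norm_num)
  have n0 := Nat.zero_le (d * h ^ 162)
  obtain ⟨Hs, O, Zb, R, rfl, a1, a2, a3, a4, a5, a6, a7, a8, a9⟩ := O2.stageA hEX hh hd h20 Bg dB
    (So.sum + 2 * h ^ 93 * d + 2 * h ^ 153)
    (d * So.card + 2 * h ^ 93 * (d * (24 * h ^ 60 + 10 * h ^ 30 + 1))) Se.sum
    (2 * h ^ 93 * (d * (24 * h ^ 60 + 34 * h ^ 30 + 12)) + 2 * (d * h ^ 154))
    (by linarith [Nat.zero_le Se.sum]) (by linarith) (by linarith [Nat.zero_le So.sum])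
    (by linarith)
    (by have := ev d; have := ev (d * (24 * h ^ 60 + 10 * h ^ 30 + 1)); omega)
    (by have := ev (d * (24 * h ^ 60 + 34 * h ^ 30 + 12)); omega)
  clear r1 r2 r3 r4 r5 r6 r7 n0 dB
  obtain ⟨Bo, Be, rfl, b1, b2⟩ := par_split R
  simp only [Multiset.card_add] at cS
  obtain ⟨Lo, Bo', F1, S1, rfl, e1, l1, f1, f2, f3, g1⟩ := O2.stageBand hEX hBS hodd h20 hh hd h6 1 Bo
    (So + Se) (fun x hx => ⟨b1 x hx, mB x (by simp [hx])⟩) (by omega) (dS.trans (by omega))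
  have dS1 := df_add hEX (h ^ 96) 1 (27 * (d * h ^ 60)) F1 S1
  rw [← e1] at dS1
  replace dS1 : df (h ^ 96) 1 (27 * (d * h ^ 60)) S1 ≤ 2 * h ^ 95 := by
    linarith only [dS, dS1, f3, Nat.zero_le F1.card]
  clear dS
  obtain ⟨Le, Be', F2, S2, rfl, rfl, l2, f4, f5, f6, g2⟩ := O2.stageBand hEX hBS hodd h20 hh hd h6 0 Be
    S1 (fun x hx => ⟨b2 x hx, mB x (by simp [hx])⟩) (by omega) dS1
  have dS2 : df (h ^ 96) 1 (27 * (d * h ^ 60)) S2 ≤ 3 * h ^ 95 := by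
    linarith only [dS1, df_add hEX (h ^ 96) 1 (27 * (d * h ^ 60)) F2 S2, f6, Nat.zero_le F2.card]
  clear dS1
  obtain ⟨U, F3, S3, rfl, u1, u2, u3, u4, u5, g3⟩ := O2.stageO hEX hSB hh hd h20 hodd Lo S2 l1
    (fun x hx => ⟨b1 x (by simp [hx]), mB x (by simp [hx])⟩) dS2
  have dS3 := df_add hEX (h ^ 96) 1 (27 * (d * h ^ 60)) (U + F3) S3
  rw [Multiset.card_add] at dS3
  replace dS3 : df (h ^ 96) 1 (27 * (d * h ^ 60)) S3 ≤ 4 * h ^ 95 := by
    linarith only [dS2, dS3, u3]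
  clear dS2
  obtain ⟨U', S4, rfl, v1, v2, v3, v4, g4⟩ := O2.stageE hEX hSB hh hd h20 hodd Le S3 l2
    (fun x hx => ⟨b2 x (by simp [hx]), mB x (by simp [hx])⟩) dS3
  have dS4 : df (h ^ 96) 1 (27 * (d * h ^ 60)) S4 ≤ 5 * h ^ 95 := by
    linarith only [dS3, df_add hEX (h ^ 96) 1 (27 * (d * h ^ 60)) U' S4, v2]
  clear dS3
  obtain ⟨Ex, S4e, e4, x1, x2⟩ := par_split S4
  obtain ⟨rfl, rfl⟩ : So = U + Ex ∧ Se = F1 + F2 + F3 + U' + S4e :=
    par_unique (by rw [e1, e4]; abel) o1 o2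
      (fun x hx => (Multiset.mem_add.1 hx).elim (u1 x) (x1 x)) fun x hx => by
        simp only [Multiset.mem_add] at hx
        rcases hx with (((hx | hx) | hx) | hx) | hx
        exacts [f1 x hx, f4 x hx, u2 x hx, v1 x hx, x2 x hx]
  simp only [Multiset.card_add] at cS
  have g5 : GD d (Hs + O + Ex) := O2.finX hSB hodd h5 hh a1 a2 a3 a5 a6 x1
    (fun x hx => mS x (by simp [hx])) (by omega) (by
      simp only [Multiset.sum_add, Multiset.card_add] at a8 ⊢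
      linarith only [a8, u5])
  have g6 := hSB.add d _ _ (hSB.add d _ _ (hSB.add d _ _ (hSB.add d _ _ g1 g2) g3) g4) g5
  obtain ⟨c, hc⟩ := g6.dvd hCH
  simp only [Multiset.sum_add] at hc hs a9
  obtain ⟨Φ, hΦ⟩ := sub_eq (a := 2 * h ^ 93 * (d * (24 * h ^ 60 + 34 * h ^ 30 + 12)) + 2 * (d * h ^ 154))
    (b := F1.sum + F2.sum + F3.sum + U'.sum) (by have := k3 hh h1 153 154 (by norm_num); omega)
  obtain ⟨ψ, rfl⟩ : d ∣ Φ := by
    have : d * m = d * (c + 2 * h ^ 58 * CP (12 * h ^ 35 + 2)) + Φ := by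
      linarith only [hc, hs, a9, hΦ]
    exact (Nat.dvd_add_right (Dvd.intro _ rfl)).1 (this ▸ Dvd.intro _ rfl)
  have kk10 : d * 10 ≤ d * ψ := by
    linarith only [hΦ, f2, f5, u4, v4, k3 hh h1 153 154 (by norm_num),
      k1 hh hd 0 153 (by norm_num), Nat.zero_le d, Nat.zero_le (h ^ 153),
      Nat.zero_le (h ^ 93 * d * h ^ 60), Nat.zero_le (h ^ 93 * d * h ^ 30),
      Nat.zero_le (h ^ 93 * d)]
  obtain ⟨Br, S5, rfl, w1, w2, g7⟩ := O2.stageB hEX hSB hh hd h20 hodd S4 dS4 ψ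
    (par_aux hΦ (sum_par f1) (sum_par f4) (sum_par u2) (sum_par v1) (ev _)
      (by rw [Nat.mul_mod, d2]; simp))
    (Nat.le_of_mul_le_mul_left kk10 h1)
    (by linarith only [hΦ, v3, k3 hh h1 153 154 (by norm_num), Nat.zero_le F1.sum, Nat.zero_le F2.sum,
      Nat.zero_le F3.sum, Nat.zero_le (h ^ 153)])
  obtain ⟨Ex', Fz, rfl, y1, y2⟩ := par_split S5
  obtain ⟨rfl, rfl⟩ : Ex = Ex' ∧ S4e = Br + Fz :=
    par_unique (by rw [← e4]; abel) x1 x2 y1 fun x hx =>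
      (Multiset.mem_add.1 hx).elim (w1 x) (y2 x)
  have g8 : GD d (Zb + Fz) := O2.finZ hSB hodd h5 hh a4 a7 y2 (fun x hx => mS x (by simp [hx]))
    (by simp only [Multiset.card_add] at cS ⊢; omega) (by
      simp only [Multiset.sum_add] at a9 ⊢
      linarith only [a9, hΦ, w2])
  refine (congrArg (GD d) ?_).mp (hSB.add d _ _ (hSB.add d _ _ g6 g7) g8)
  abel

theorem st_ODD2 : St_ODD2 :=
  O2.main st_EX all_SB st_CH (st_BANDS (st_BAND all_SB st_EX st_CH) all_SB st_EX st_CH) st_TYP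

end MP7ebc2a.AA
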