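import Pool.Agent.Lib.AA25.Blue2

/-! Two stacked bins of degree seven. -/

namespace MP7ebc2a.AA
open Multiset

namespace ODDC

lemma shift {M : Multiset ℕ} {L a b : ℕ} (h : ∀ x ∈ M, a + L ≤ x ∧ x ≤ b + L) :
    ∃ Y : Multiset ℕ, M = Y.map (· + L) ∧ Y.card = M.card ∧ Y.sum + M.card * L = M.sum ∧
      ∀ y ∈ Y, a ≤ y ∧ y ≤ b := by
  induction M using Multiset.induction_on with
  | empty => exact ⟨0, by simp⟩
  | cons x M ih =>
    obtain ⟨Y, e1, e2, e3, e4⟩ := ih fun y hy => h y (mem_cons_of_mem hy)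
    have := h x (mem_cons_self _ _)
    refine ⟨(x - L) ::ₘ Y, by rw [map_cons, ← e1, Nat.sub_add_cancel (by omega)], by simp [e2],
      by rw [sum_cons, sum_cons, card_cons, add_mul]; omega, fun y hy => ?_⟩
    rcases mem_cons.1 hy with rfl | hy
    · omega
    · exact e4 y hy

lemma addz (hC : St_CC) {m d : ℕ} {ν : Multiset ℕ} (k : ℕ) (h : GC m d ν) :
    GC m d (ν + replicate k 0) :=
  hC.zero m d _ _ (by
    rw [filter_add, (filter_eq_nil (s := replicate k 0)).2 fun a ha => by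
      simp [eq_of_mem_replicate ha], add_zero]) h

lemma asm (hC : St_CC) {z o e y m1 m2 : ℕ} {a1 a2 be ga : Multiset ℕ}
    (g1 : GC m1 3 (replicate (be.card + be.card) (10 * z)))
    (g2 : GC m2 3 ((10 * z + o + e) ::ₘ (replicate (a1.card + a1.card + 1) (10 * z + o) +
      replicate (a2.card + a2.card) (10 * z) + replicate (2 * e) 1)))
    (hz : 1 ≤ z) (hy : 15 * z ≤ y) (h1 : ∀ f ∈ a1, 15 * z ≤ f ∧ f ≤ y)
    (h2 : ∀ f ∈ a2, 11 * z ≤ f ∧ f ≤ 15 * z) (h3 : ∀ f ∈ be, 5 * z ≤ f ∧ f ≤ 10 * z)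
    (h4 : ∀ f ∈ ga, f ≤ 5 * z) (s1 : y + a1.sum + a2.sum = m1 * 2)
    (s2 : be.sum + ga.sum = m2 * 2) (b1 : y ≤ m1) (b2 : 10 * z ≤ m2) :
    GC (m1 + m2) 7 ((y + (10 * z + o) + e) ::ₘ {y + (10 * z + o)} + replicate (2 * e) 1 +
      ((a1.map (· + (10 * z + o)) + a2.map (· + 10 * z) + be.map (· + 10 * z) + ga) +
       (a1.map (· + (10 * z + o)) + a2.map (· + 10 * z) + be.map (· + 10 * z) + ga))) := by
  have p1 := hC.plus _ _ _ _ _ g1 (hC.pairs m1 2 (y ::ₘ (a1 + a2)) (fun x hx => by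
    simp only [mem_cons, mem_add] at hx
    rcases hx with rfl | hx | hx
    · exact b1
    · have := h1 x hx; omega
    · have := h2 x hx; omega) (by rw [sum_cons, sum_add]; omega))
  have p2 := hC.plus _ _ _ _ _ g2 (hC.pairs m2 2 (be + ga) (fun x hx => by
    rcases mem_add.1 hx with hx | hx
    · have := h3 x hx; omega
    · have := h4 x hx; omega) (by rw [sum_add]; omega))
  obtain ⟨L, hL⟩ : ∃ L, L = 10 * z + o := ⟨_, rfl⟩
  rw [← hL] at p2 ⊢
  obtain ⟨Q, hQ⟩ : ∃ Q : Multiset (ℕ × ℕ), Q = a1.map (fun f => (f, L)) +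
    a2.map (fun f => (f, 10 * z)) + be.map (fun f => (10 * z, f)) + ga.map fun f => (0, f) :=
    ⟨_, rfl⟩
  have q1 : Q.map Prod.fst = a1 + a2 + replicate be.card (10 * z) + replicate ga.card 0 := by
    simp [hQ]
  have q2 : Q.map Prod.snd = replicate a1.card L + replicate a2.card (10 * z) + be + ga := by
    simp [hQ]
  have q3 : (Q.map fun x => x.1 + x.2) =
      a1.map (· + L) + a2.map (· + 10 * z) + be.map (· + 10 * z) + ga := by
    simp [hQ, add_comm]
  have ty : ∀ u ∈ ((y, L + e) ::ₘ {(y, L)} + replicate (2 * e) (0, 1) + (Q + Q)),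
      (u.1 = y ∧ L ≤ u.2) ∨ (15 * z ≤ u.1 ∧ u.1 ≤ y ∧ u.2 = L) ∨
      (11 * z ≤ u.1 ∧ u.1 ≤ 15 * z ∧ u.2 = 10 * z) ∨ (u.1 = 10 * z ∧ 5 * z ≤ u.2 ∧ u.2 ≤ 10 * z) ∨
      (u.1 = 0 ∧ u.2 ≤ 5 * z) := fun u hu => by
    simp only [mem_add, mem_cons, mem_singleton, or_self, hQ, mem_map] at hu
    rcases hu with ((rfl | rfl) | hu) | ((⟨f, hf, rfl⟩ | ⟨f, hf, rfl⟩) | ⟨f, hf, rfl⟩) | ⟨f, hf, rfl⟩
    · exact Or.inl ⟨rfl, Nat.le_add_right _ _⟩
    · exact Or.inl ⟨rfl, le_rfl⟩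
    · rw [eq_of_mem_replicate hu]
      exact Or.inr (Or.inr (Or.inr (Or.inr ⟨rfl, by omega⟩)))
    · exact Or.inr (Or.inl ⟨(h1 f hf).1, (h1 f hf).2, rfl⟩)
    · exact Or.inr (Or.inr (Or.inl ⟨(h2 f hf).1, (h2 f hf).2, rfl⟩))
    · exact Or.inr (Or.inr (Or.inr (Or.inl ⟨rfl, h3 f hf⟩)))
    · exact Or.inr (Or.inr (Or.inr (Or.inr ⟨rfl, h4 f hf⟩)))
  have := hC.stack m1 m2 7 _ (fun u hu w hw => by
    have := ty u hu
    have := ty w hw
    omega) ((congrArg (GC m1 7) ?_).mp (addz hC (2 * e + ga.card + ga.card) p1))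
    ((congrArg (GC m2 7) ?_).mp p2)
  · simpa only [Multiset.map_add, map_cons, map_singleton, map_replicate, q3, zero_add,
      add_assoc y] using this
  · simp only [Multiset.map_add, map_singleton, map_replicate, q1, replicate_add,
      ← singleton_add]
    abel
  · simp only [Multiset.map_add, map_singleton, map_replicate, q2, replicate_add,
      ← singleton_add, replicate_one]
    abel

end ODDC

open ODDC in
theorem st_ODDC (hC : St_CC) (hS : St_SUP) (hK : St_SEEDC) : St_ODDC := by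
  intro H p p' b b' κ K' e ν h1 h2 hA hA' hκ hb ho hH hd
  have b1 : 1 ≤ b' := by have := AP_ge p' h1; omega
  have p2 : 2 ≤ p := by
    by_contra hc
    have := AP_two p
    have : (p + 1) * (p + 2) ≤ 2 * 3 := Nat.mul_le_mul (by omega) (by omega)
    omega
  have g1 := hK p p (10 * κ) 0 0 (by omega) le_rfl (by omega)
  have g2 := hK p p' (10 * κ) K' e h1 h2 (by omega)
  rw [CP_eq (a := 4 * b) (by omega), hA, mul_assoc 10 κ p] at g1 g2
  rw [CP_eq (a := 4 * b') (by omega), hA'] at g2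
  have z2 : 2 ≤ κ * p := le_trans p2 (Nat.le_mul_of_pos_left _ hκ)
  have e1 : 10 * κ * (p * (4 * b)) = 40 * (b * (κ * p)) := by ring
  have e2 : K' * (p' * (4 * b')) = 4 * (b' * (K' * p')) := by ring
  have e3 : 80 * (κ * p * b) + K' * (4 * (p' * b')) + e =
    40 * (b * (κ * p)) + (40 * (b * (κ * p)) + 4 * (b' * (K' * p')) + e) := by ring
  rw [e1] at g1 g2
  rw [e2] at g2
  rw [e3]
  clear e1 e2 e3 hA hA' h1 h2 hκ p2
  generalize κ * p = z at *
  generalize K' * p' = o at *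
  simp only [zero_mul, add_zero, Nat.sub_self, replicate_zero, mul_zero] at g1
  rw [← replicate_succ, show 12 * b - 1 + 1 = 6 * b + 6 * b by omega] at g1
  have mo := fun H a b M (h1 : 1 ≤ a) (h2 : b ≤ 30 * z) => st_EX.mono H a b 1 (30 * z) M M h1 h2
    fun _ _ _ => le_rfl
  obtain ⟨x, x1, x2, x3, x4⟩ := hS.two H z e ν z2 (by omega) hH
    (by have := mo H (28 * z) (30 * z) ν (by omega) le_rfl; omega)
  obtain ⟨ν1, rfl⟩ := Multiset.le_iff_exists_add.1 x4
  have d1 := df_add st_EX H 1 (30 * z) ((x + e) ::ₘ {x}) ν1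
  rw [card_cons, card_singleton] at d1
  obtain ⟨ν2, rfl⟩ := Multiset.le_iff_exists_add.1 (le_count_iff_replicate_le.1 (show 2 * e ≤ ν1.count 1 by
    have := st_EX.cnt H 1 (30 * z) 1 ν1 le_rfl (by omega)
    omega))
  have d2 := df_add st_EX H 1 (30 * z) (replicate (2 * e) 1) ν2
  rw [card_replicate] at d2
  obtain ⟨D, P, rfl, d3⟩ := hS.half ν2
  replace d3 := d3 H 1 (30 * z)
  have d4 : 1000 * (df (H / 2) 1 (30 * z) P + 200 * b) ≤ H + 2000 := by omega
  clear d1 d2 d3 hd x4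
  have n1 : b' * o ≤ b' * z := Nat.mul_le_mul_left _ (by omega)
  have n2 : 10 * (b' * z) ≤ b * z := by rw [← mul_assoc]; exact Nat.mul_le_mul_right _ hb
  have n3 : z ≤ b' * z := Nat.le_mul_of_pos_left _ b1
  have n4 : b' * o + e ≤ b' * z := by
    have := Nat.mul_le_mul_left b' ho
    have := Nat.le_mul_of_pos_left e b1
    linarith
  obtain ⟨U, u1, u2, -, u4⟩ := st_EX.ex (H / 2) z 26 28 0 (3 * b') (2 * (81 * (b' * z))) P z2
    (by norm_num) (by norm_num) (by omega) (by norm_num) (even_two_mul _) (by linarith)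
    (by linarith) (by have := mo (H / 2) (26 * z) (28 * z) P (by omega) (by omega); omega)
  obtain ⟨f, hf⟩ := card_pos_iff_exists_mem.1 (by omega : 0 < U.card)
  obtain ⟨A1, rfl⟩ := exists_cons_of_mem hf
  replace u4 := fun x hx => u4 x (mem_cons_of_mem hx)
  rw [card_cons] at u2
  obtain ⟨P1, rfl⟩ := Multiset.le_iff_exists_add.1 ((le_cons_self A1 f).trans u1)
  have d5 := df_add st_EX (H / 2) 1 (30 * z) A1 P1
  have s1 : A1.card * (26 * z) ≤ A1.sum := sum_ge fun x hx => (u4 x hx).1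
  have s2 : A1.sum ≤ A1.card * (28 * z) := sum_le fun x hx => (u4 x hx).2.1
  have s3 := sum_par fun x hx => (u4 x hx).2.2
  have s4 : A1.card * z + z = 6 * (b' * z) := by
    have := congrArg (· * z) u2
    linarith
  have s5 : A1.card * o + o = 6 * (b' * o) := by
    have := congrArg (· * o) u2
    linarith
  obtain ⟨c, rfl⟩ := Nat.exists_eq_add_of_le (show b' ≤ b by omega)
  obtain ⟨T, hT⟩ := sub_eq (a := 140 * ((b' + c) * z) + 6 * (b' * o)) (b := x + A1.sum)
    (by linarith [Nat.zero_le (b' * o)])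
  obtain ⟨A2, v1, v2, v3, v4⟩ := st_EX.ex (H / 2) z 21 25 0 (3 * c) T P1 z2
    (by norm_num) (by norm_num) (by omega) (by norm_num)
    (by rw [Nat.even_iff] at x1 ⊢; omega) (by linarith [Nat.zero_le (b' * o)])
    (by linarith) (by have := mo (H / 2) (21 * z) (25 * z) P1 (by omega) (by omega); omega)
  obtain ⟨P2, rfl⟩ := Multiset.le_iff_exists_add.1 v1
  have d6 := df_add st_EX (H / 2) 1 (30 * z) A2 P2
  obtain ⟨B, w1, w2, w3, w4⟩ := st_EX.ex (H / 2) z 15 20 0 (3 * (b' + c))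
    (2 * (54 * ((b' + c) * z))) P2 z2 (by norm_num) (by norm_num) (by omega) (by norm_num)
    (even_two_mul _) (by linarith [Nat.zero_le ((b' + c) * z)])
    (by linarith [Nat.zero_le ((b' + c) * z)])
    (by have := mo (H / 2) (15 * z) (20 * z) P2 (by omega) (by omega); omega)
  obtain ⟨P3, rfl⟩ := Multiset.le_iff_exists_add.1 w1
  have d7 := df_add st_EX (H / 2) 1 (30 * z) B P3
  obtain ⟨G, y1, y2, y3, y4⟩ := fill st_EX (H := H / 2) (S := P3)
    (D := 2 * (16 * ((b' + c) * z) + (4 * (b' * o) + e))) z2 (by omega) (even_two_mul _)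
    (Or.inr (by linarith [Nat.zero_le (b' * o), Nat.zero_le e])) (by
      have := Nat.mul_le_mul_left z (show 180 * (df (H / 2) (2 * z) (5 * z) P3 + 40 * (b' + c)) ≤
        H / 2 by have := mo (H / 2) (2 * z) (5 * z) P3 (by omega) (by omega); omega)
      linarith [Nat.zero_le e])
  obtain ⟨P4, rfl⟩ := Multiset.le_iff_exists_add.1 y1
  have y5 : G.card ≤ 40 * (b' + c) :=
    Nat.le_of_mul_le_mul_left (c := z) (by linarith [Nat.zero_le e]) (by omega)
  obtain ⟨y, rfl⟩ := sub_eq (a := x) (b := 10 * z + o) (by omega)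
  obtain ⟨a1, rfl, i2, i3, i4⟩ := shift (M := A1) (L := 10 * z + o) (a := 15 * z) (b := y)
    fun f hf => by have := u4 f hf; omega
  obtain ⟨a2, rfl, j2, j3, j4⟩ := shift (M := A2) (L := 10 * z) (a := 11 * z) (b := 15 * z)
    fun f hf => by have := v4 f hf; omega
  obtain ⟨be, rfl, l2, l3, l4⟩ := shift (M := B) (L := 10 * z) (a := 5 * z) (b := 10 * z)
    fun f hf => by have := w4 f hf; omega
  refine ⟨_, ?_, ?_, asm hC (z := z) (o := o) (e := e) (y := y) (a1 := a1) (a2 := a2) (be := be)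
    (ga := G) ?_ ?_ (by omega) (by omega) i4 j4 l4 (fun f hf => (y4 f hf).2.2) ?_ ?_ (by linarith)
    (by linarith [Nat.zero_le (b' * o), Nat.zero_le e])⟩
  · exact Multiset.le_iff_exists_add.2 ⟨D + (P4 + P4), by abel⟩
  · simp only [card_add, card_cons, card_singleton, card_replicate]
    omega
  · rwa [l2, w2, show 2 * (3 * (b' + c)) = 6 * (b' + c) by ring]
  · rwa [show a1.card + a1.card + 1 = 12 * b' - 1 by omega,
      show a2.card + a2.card = 12 * (b' + c) - 12 * b' by omega]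
  · rw [v2, v3] at j3
    linarith
  · rw [w2, w3] at l3
    linarith

end MP7ebc2a.AA
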