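import Pool.Agent.Lib.AA25.Blue2

/-! The parameters of the two bins of degree seven. -/

namespace MP7ebc2a.AA

lemma AP_24 (g : ℕ) : AP (24 * g + 7) = 12 * (24 * g ^ 2 + 17 * g + 3) := by
  have := AP_two (24 * g + 7); linarith

theorem st_ODDG (hO : St_ODDC) : St_ODDG := by
  intro h m ν hh h1 h2 hdf
  have hp0 : 0 < h ^ 94 := pow_pos (by omega) _
  obtain ⟨t, ht⟩ : ∃ t, t = m / h ^ 94 := ⟨_, rfl⟩
  have t1 : h ^ 6 ≤ t := by
    rw [ht, Nat.le_div_iff_mul_le hp0, ← pow_add]; exact h1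
  have t2 : t ≤ h ^ 83 := by
    rw [ht]; refine Nat.div_le_of_le_mul ?_
    rw [← pow_add]; exact h2
  have t3 : t * h ^ 94 ≤ m := ht ▸ Nat.div_mul_le_self _ _
  have t4 : m < (t + 1) * h ^ 94 := by
    have := Nat.lt_div_mul_add (a := m) hp0
    rw [ht]; linarith
  obtain ⟨g, hg⟩ : ∃ g, g = Nat.sqrt t := ⟨_, rfl⟩
  have g1 : g ^ 2 ≤ t := hg ▸ Nat.sqrt_le' t
  have g2 : t < (g + 1) ^ 2 := hg ▸ Nat.lt_succ_sqrt' t
  have g3 : 19 ≤ g := by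
    have := n0 hh 0 6 (by norm_num)
    rw [pow_zero] at this
    rw [hg, Nat.le_sqrt']; omega
  obtain ⟨f, hf⟩ : ∃ f, f = Nat.sqrt g := ⟨_, rfl⟩
  have f1 : f ^ 2 ≤ g := hf ▸ Nat.sqrt_le' g
  have f2 : g < (f + 1) ^ 2 := hf ▸ Nat.lt_succ_sqrt' g
  have f3 : f ≤ g := hf ▸ Nat.sqrt_le_self g
  obtain ⟨G, hG⟩ : ∃ G, G = g ^ 2 := ⟨_, rfl⟩
  have G1 : 19 * g ≤ G := by rw [hG, sq]; exact Nat.mul_le_mul_right _ g3
  obtain ⟨p, hp⟩ : ∃ p, p = 24 * g + 7 := ⟨_, rfl⟩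
  obtain ⟨b, hb⟩ : ∃ b, b = 24 * g ^ 2 + 17 * g + 3 := ⟨_, rfl⟩
  obtain ⟨p', hp'⟩ : ∃ p', p' = 24 * f + 7 := ⟨_, rfl⟩
  obtain ⟨b', hb'⟩ : ∃ b', b' = 24 * f ^ 2 + 17 * f + 3 := ⟨_, rfl⟩
  have p1 : p ≤ 25 * g := by omega
  have b1 : b ≤ 26 * G := by rw [hb, ← hG]; omega
  have b2 : t + 1 ≤ 80 * b := by
    rw [hb]; linarith only [g2, Nat.zero_le g, Nat.zero_le (g ^ 2), Nat.succ_le_of_lt g2]
  have b3 : b' ≤ 42 * g := by omega
  have b4 : g ≤ b' := by rw [hb']; linarith only [f2, Nat.zero_le f, Nat.zero_le (f ^ 2)]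
  have b5 : 10 * b' ≤ b := by rw [hb, ← hG]; omega
  have q0 : 0 < 80 * (p * b) := by have : 0 < p * b := Nat.mul_pos (by omega) (by omega); omega
  have q1 : 0 < 4 * (p' * b') := by
    have : 0 < p' * b' := Nat.mul_pos (by omega) (by omega); omega
  obtain ⟨κ, hκ⟩ : ∃ κ, κ = m / (80 * (p * b)) := ⟨_, rfl⟩
  obtain ⟨ρ, hρ⟩ : ∃ ρ, ρ = m % (80 * (p * b)) := ⟨_, rfl⟩
  obtain ⟨K, hK⟩ : ∃ K, K = ρ / (4 * (p' * b')) := ⟨_, rfl⟩
  obtain ⟨e, he⟩ : ∃ e, e = ρ % (4 * (p' * b')) := ⟨_, rfl⟩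
  have r1 : 80 * (p * b) * κ + ρ = m := by rw [hκ, hρ]; exact Nat.div_add_mod _ _
  have r2 : 4 * (p' * b') * K + e = ρ := by rw [hK, he]; exact Nat.div_add_mod _ _
  have r3 : ρ < 80 * (p * b) := hρ ▸ Nat.mod_lt _ q0
  have r4 : e < 4 * (p' * b') := he ▸ Nat.mod_lt _ q1
  have G2 : G ≤ h ^ 83 := by rw [hG]; omega
  have e1 : e ≤ 4200 * G := by
    have : p' * b' ≤ (25 * g) * (42 * g) := Nat.mul_le_mul (by omega) b3
    rw [hG]; linarith only [this, r4]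
  have k1 : K * p' ≤ 13000 * G := by
    refine Nat.le_of_mul_le_mul_left ?_ (by omega : 0 < g)
    have a1 : g * (K * p') ≤ b' * (K * p') := Nat.mul_le_mul_right _ b4
    have a2 : p * b ≤ (25 * g) * (26 * G) := Nat.mul_le_mul p1 b1
    linarith only [a1, a2, r2, r3, Nat.zero_le e, Nat.zero_le (g * (K * p')), Nat.zero_le (g * G)]
  have z1 : κ * p ≤ h ^ 94 := by
    refine Nat.le_of_mul_le_mul_left ?_ (by omega : 0 < 80 * b)
    have : (t + 1) * h ^ 94 ≤ 80 * b * h ^ 94 := Nat.mul_le_mul_right _ b2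
    linarith only [this, t4, r1, Nat.zero_le ρ]
  have z2 : h ^ 94 ≤ 2080 * (κ * p + p) := by
    refine Nat.le_of_mul_le_mul_left ?_ (by omega : 0 < G)
    have a1 : G * h ^ 94 ≤ t * h ^ 94 := Nat.mul_le_mul_right _ (hG ▸ g1)
    have a2 : (κ * p + p) * b ≤ (κ * p + p) * (26 * G) := Nat.mul_le_mul_left _ b1
    linarith only [a1, a2, t3, r1, r3]
  have n1 := n0 hh 83 93 (by norm_num)
  have n2 := n0 hh 93 94 (by norm_num)
  have n3 := n0 hh 94 95 (by norm_num)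
  have n4 := n0 hh 95 96 (by norm_num)
  have z3 : K * p' + e ≤ κ * p := by omega
  have z4 : 1 ≤ κ := by
    rcases Nat.eq_zero_or_pos κ with h0 | h0
    · rw [h0] at z2; omega
    · exact h0
  have d1 : df (h ^ 96) 1 (30 * (κ * p)) ν ≤ h ^ 95 :=
    (st_EX.mono _ _ _ _ _ ν ν le_rfl (by omega) fun _ _ _ => le_rfl).trans hdf
  obtain ⟨μ, m1, m2, m3⟩ := hO (h ^ 96) p p' b b' κ K e ν (by omega) (by omega)
    (by rw [hp, hb]; exact AP_24 g) (by rw [hp', hb']; exact AP_24 f) z4 b5 z3 (by omega)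
    (by omega)
  refine ⟨μ, m1, by omega, ?_⟩
  have : 80 * (κ * p * b) + K * (4 * (p' * b')) + e = m := by rw [← r1, ← r2]; ring
  rwa [this] at m3

end MP7ebc2a.AA
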