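import Pool.Agent.Lib.AA25.Blue2

/-! Almost every partition with bounded parts has a small deficiency. -/

namespace MP7ebc2a.AA
open Finset

namespace P4

lemma mem {n m : ℕ} {l : Nat.Partition n} : l ∈ PM n m ↔ ∀ x ∈ l.parts, x ≤ m := by simp [PM]

lemma cnt {m : ℕ} (n i t : ℕ) (hi : 0 < i) (him : i ≤ m) (h : i * t ≤ n) :
    ((PM n m).filter fun l => t ≤ l.parts.count i).card = (PM (n - i * t) m).card := by
  symm
  refine card_bij (fun l _ => ⟨l.parts + Multiset.replicate t i, fun {x} hx => ?_, ?_⟩) ?_ ?_ ?_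
  · rcases Multiset.mem_add.1 hx with hx | hx
    · exact l.parts_pos hx
    · rw [Multiset.eq_of_mem_replicate hx]; exact hi
  · rw [Multiset.sum_add, l.parts_sum, Multiset.sum_replicate, smul_eq_mul, mul_comm t]; omega
  · intro l hl
    refine mem_filter.2 ⟨mem.2 fun x hx => ?_, by simp⟩
    rcases Multiset.mem_add.1 hx with hx | hx
    · exact mem.1 hl x hx
    · rw [Multiset.eq_of_mem_replicate hx]; exact him
  · intro l _ l' _ e
    exact Nat.Partition.ext (add_right_cancel (congrArg Nat.Partition.parts e))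
  · intro l hl
    have h1 := Multiset.le_count_iff_replicate_le.1 (mem_filter.1 hl).2
    have h2 := Multiset.sub_add_cancel h1
    refine ⟨⟨l.parts - Multiset.replicate t i, fun {x} hx =>
      l.parts_pos (Multiset.mem_of_le tsub_le_self hx), ?_⟩, mem.2 fun x hx =>
        mem.1 (mem_filter.1 hl).1 x (Multiset.mem_of_le tsub_le_self hx), Nat.Partition.ext h2⟩
    have h3 := congrArg Multiset.sum h2
    rw [Multiset.sum_add, l.parts_sum, Multiset.sum_replicate, smul_eq_mul, mul_comm t] at h3
    omega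

lemma mono {m a b : ℕ} (hm : 0 < m) (h : a ≤ b) : (PM a m).card ≤ (PM b m).card := by
  have := cnt b 1 (b - a) one_pos hm (by omega)
  rw [show b - 1 * (b - a) = a by omega] at this
  rw [← this]
  exact card_filter_le _ _

lemma many {m : ℕ} (hm : 0 < m) (k : ℕ) : ∑ l ∈ (PM k m).filter (fun l => l.parts.count 1 = 0),
    l.parts.toFinset.card ≤ (PM k m).card := by
  rw [← card_sigma,
    ← card_image_of_injective (f := Nat.Partition.parts) (PM k m) fun _ _ => Nat.Partition.ext]
  refine card_le_card_of_injOn (fun x => x.1.parts.erase x.2 + Multiset.replicate x.2 1) ?_ ?_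
  · rintro ⟨l, i⟩ hx
    simp only [coe_sigma, Set.mem_sigma_iff, mem_coe, Multiset.mem_toFinset] at hx
    refine mem_image.2 ⟨⟨_, fun {x} hx' => ?_, ?_⟩, mem.2 fun x hx' => ?_, rfl⟩
    · rcases Multiset.mem_add.1 hx' with h | h
      · exact l.parts_pos (Multiset.mem_of_mem_erase h)
      · rw [Multiset.eq_of_mem_replicate h]; exact one_pos
    · have := Multiset.sum_erase hx.2
      rw [l.parts_sum] at this
      simp only [Multiset.sum_add, Multiset.sum_replicate, smul_eq_mul]
      omega
    · rcases Multiset.mem_add.1 hx' with h | h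
      · exact mem.1 (mem_filter.1 hx.1).1 x (Multiset.mem_of_mem_erase h)
      · rw [Multiset.eq_of_mem_replicate h]; exact hm
  · rintro ⟨l, i⟩ hx ⟨l', i'⟩ hx' e
    simp only [coe_sigma, Set.mem_sigma_iff, mem_coe, Multiset.mem_toFinset, mem_filter] at hx hx' e
    have e1 := congrArg (Multiset.count 1) e
    have z := Multiset.count_le_of_le 1 (Multiset.erase_le i l.parts)
    have z' := Multiset.count_le_of_le 1 (Multiset.erase_le i' l'.parts)
    simp only [Multiset.count_add, Multiset.count_replicate_self] at e1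
    obtain rfl : i = i' := by omega
    have e2 := add_right_cancel e
    obtain rfl : l = l' := Nat.Partition.ext (by
      rw [← Multiset.cons_erase hx.2, e2, Multiset.cons_erase hx'.2])
    rfl

lemma noone {m : ℕ} (hm : 0 < m) (n k r : ℕ) (hk : k ≤ n) :
    r * ((PM k m).filter fun l => l.parts.count 1 = 0).card ≤
      (PM k m).card + r * (n + 1) ^ (2 * r) := by
  obtain ⟨S, h1, h2⟩ := P1.few n r
  set A := (PM k m).filter fun l => l.parts.count 1 = 0 with hA
  rw [← card_filter_add_card_filter_not (s := A) fun l => r ≤ l.parts.toFinset.card, mul_add]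
  refine Nat.add_le_add ?_ (Nat.mul_le_mul_left _ (le_trans ?_ h1))
  · refine le_trans ?_ ((sum_le_sum_of_subset (filter_subset
      (fun l => r ≤ l.parts.toFinset.card) A)).trans (many hm k))
    rw [mul_comm]
    exact card_nsmul_le_sum _ _ _ fun l hl => (mem_filter.1 hl).2
  · refine card_le_card_of_injOn Nat.Partition.parts (fun l hl => ?_) fun _ _ _ _ => Nat.Partition.ext
    refine h2 _ (not_le.1 (mem_filter.1 hl).2).le fun x hx =>
      ⟨(Nat.Partition.le_of_mem_parts hx).trans hk, (P1.cnt_le l hx).trans hk⟩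

lemma compl {m n i t : ℕ} (hi : 0 < i) (him : i ≤ m) (h : i * t ≤ n) :
    ((PM n m).filter fun l => l.parts.count i < t).card + (PM (n - i * t) m).card =
      (PM n m).card := by
  rw [← cnt n i t hi him h, add_comm,
    ← card_filter_add_card_filter_not (s := PM n m) fun l => t ≤ l.parts.count i]
  simp only [not_le]

lemma step {m n r : ℕ} (hm : 0 < m) (hb : r * (n + 1) ^ (2 * r) ≤ (PM n m).card) (k : ℕ) :
    k ≤ n → r * (PM n m).card ≤ r * (PM (n - k) m).card + 2 * k * (PM n m).card := by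
  induction k with
  | zero => simp
  | succ k ih =>
    intro hk
    have a := compl (m := m) (n := n - k) (i := 1) (t := 1) one_pos hm (by omega)
    have b := noone hm n (n - k) r (by omega)
    have c := mono hm (show n - k ≤ n by omega)
    have d := ih (by omega)
    simp only [Nat.lt_one_iff] at a
    rw [show n - k - 1 * 1 = n - (k + 1) by omega] at a
    rw [← a, mul_add] at d
    nlinarith

lemma defi {m n r H : ℕ} (hm : 0 < m) (hb : r * (n + 1) ^ (2 * r) ≤ (PM n m).card) (hH : H ≤ n)
    (hHm : H ≤ m) : r * ∑ l ∈ PM n m, df H 1 H l.parts ≤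
      2 * H * (PM n m).card * ∑ i ∈ Icc 1 H, H / i := by
  simp only [df]
  rw [sum_comm, mul_sum, mul_sum]
  refine sum_le_sum fun i hi => ?_
  have i0 : 0 < i := (mem_Icc.1 hi).1
  have a0 : i * (H / i) ≤ H := Nat.mul_div_le _ _
  have a := compl (m := m) (n := n) (t := H / i) i0 ((mem_Icc.1 hi).2.trans hHm) (by omega)
  have b := step hm hb (i * (H / i)) (by omega)
  have c : ∑ l ∈ PM n m, (H / i - l.parts.count i) ≤
      ((PM n m).filter fun l => l.parts.count i < H / i).card * (H / i) := by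
    rw [← smul_eq_mul, ← sum_const, sum_filter]
    refine sum_le_sum fun l _ => ?_
    split_ifs <;> omega
  generalize ((PM n m).filter fun l => l.parts.count i < H / i).card = w at *
  have d : r * w ≤ 2 * H * (PM n m).card := by
    have := Nat.mul_le_mul_right (PM n m).card a0
    rw [← a, mul_add] at b
    rw [a] at b
    nlinarith
  calc _ ≤ r * (w * (H / i)) := Nat.mul_le_mul_left _ c
    _ = r * w * (H / i) := by ring
    _ ≤ _ := Nat.mul_le_mul_right _ d

lemma harm {H h : ℕ} (hh : 10 ≤ h) (v : H ≤ 2 ^ (h / 10)) : ∑ i ∈ Icc 1 H, H / i ≤ H * h := by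
  rcases Nat.eq_zero_or_pos H with rfl | H0
  · simp
  have u : (harmonic H : ℝ) ≤ h := by
    refine (harmonic_le_one_add_log _).trans ?_
    have w : Real.log (H : ℕ) ≤ Real.log (2 ^ (h / 10)) :=
      Real.log_le_log (Nat.cast_pos.2 H0) (by exact_mod_cast v)
    rw [Real.log_pow] at w
    have x : ((h / 10 + 1 : ℕ) : ℝ) ≤ h := by exact_mod_cast (by omega : h / 10 + 1 ≤ h)
    have y : Real.log 2 ≤ 1 := (Real.log_le_sub_one_of_pos two_pos).trans (by norm_num)
    have z := mul_le_mul_of_nonneg_left y (Nat.cast_nonneg (α := ℝ) (h / 10))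
    rw [Nat.cast_add, Nat.cast_one] at x
    linarith
  have u' : harmonic H ≤ h := by exact_mod_cast u
  have := (EX.harm H H).trans (mul_le_mul_of_nonneg_left u' (Nat.cast_nonneg _))
  exact_mod_cast this

end P4

open P4 in
theorem st_P4 (hL : St_LOW) : St_P4 := by
  obtain ⟨h0, hev⟩ := P3.ev
  refine ⟨max h0 400, fun h hh n m H D n1 m1 H1 D0 HD => ?_⟩
  obtain ⟨a1, a2⟩ := max_le_iff.1 hh
  have hp : 0 < h := by omega
  have pw : ∀ {a b : ℕ}, a ≤ b → h ^ a ≤ h ^ b := fun hab => Nat.pow_le_pow_right hp hab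
  have e1 : h ^ 200 ≤ 2 ^ (h / 10) :=
    ((pw (by omega)).trans (Nat.pow_le_pow_left (Nat.le_succ h) 201)).trans (hev h a1)
  have r0 : 0 < h ^ 99 := Nat.pow_pos hp
  have b0 : 0 < h ^ 100 := Nat.pow_pos hp
  have hb : h ^ 99 * (n + 1) ^ (2 * h ^ 99) ≤ (PM n m).card := by
    refine le_trans ?_ (hL n m (h ^ 100) b0 m1)
    rw [← pow_mul, show 100 * 2 = 200 from rfl]
    have c0 : 0 < h ^ 200 := Nat.pow_pos hp
    have u2 : 2 ≤ n / h ^ 200 + 1 := Nat.succ_le_succ (Nat.div_pos n1 c0)
    have u3 : n + 1 ≤ (n / h ^ 200 + 1) * h ^ 200 := by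
      have := Nat.lt_div_mul_add (a := n) c0
      rw [add_mul, one_mul]
      omega
    generalize n / h ^ 200 + 1 = u at u2 u3 ⊢
    have u4 : n + 1 ≤ u ^ (h / 10 + 1) := by
      rw [pow_succ']
      exact u3.trans (Nat.mul_le_mul_left _ (e1.trans (Nat.pow_le_pow_left u2 _)))
    have v := pw (show 99 ≤ 200 by omega)
    have w : (h / 10 + 1) * (3 * h ^ 99) ≤ h ^ 100 - 1 := by
      have x : ((h / 10 + 1) * 3 + 1) * h ^ 99 ≤ h * h ^ 99 := Nat.mul_le_mul_right _ (by omega)
      rw [add_mul, one_mul, mul_assoc, show h * h ^ 99 = h ^ 100 by ring] at x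
      omega
    calc _ ≤ (n + 1) ^ (h ^ 99) * (n + 1) ^ (2 * h ^ 99) :=
          Nat.mul_le_mul_right _ (le_trans (by omega) (Nat.le_self_pow r0.ne' _))
      _ = (n + 1) ^ (3 * h ^ 99) := by rw [← pow_add]; congr 1; omega
      _ ≤ (u ^ (h / 10 + 1)) ^ (3 * h ^ 99) := Nat.pow_le_pow_left u4 _
      _ ≤ _ := by rw [← pow_mul]; exact Nat.pow_le_pow_right (by omega) w
  have h96 := pw (show 96 ≤ 100 by omega)
  have h97 := pw (show 96 ≤ 200 by omega)
  have u := (defi (H := H) (b0.trans_le m1) hb (by omega) (by omega)).trans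
    (Nat.mul_le_mul_left _ (harm (h := h) (by omega) (by omega)))
  have v := (card_nsmul_le_sum ((PM n m).filter fun l => D < df H 1 H l.parts)
    (fun l => df H 1 H l.parts) D fun l hl => (mem_filter.1 hl).2.le).trans
      (sum_le_sum_of_subset (filter_subset _ _))
  have w := Nat.mul_le_mul_left h ((Nat.mul_le_mul_left (h ^ 99) v).trans u)
  refine Nat.le_of_mul_le_mul_left (c := D * h ^ 99) ?_ (Nat.mul_pos D0 r0)
  calc _ = h * (h ^ 99 * (((PM n m).filter fun l => D < df H 1 H l.parts).card • D)) := by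
        rw [smul_eq_mul]; ring
    _ ≤ _ := w
    _ = H ^ 2 * h ^ 2 * (2 * (PM n m).card) := by ring
    _ ≤ _ := Nat.mul_le_mul_right _ HD

end MP7ebc2a.AA
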