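import Pool.Agent.Lib.AA25.Blue2

/-! Partitions into bounded parts: a lower bound, and every small part occurs often. -/

namespace MP7ebc2a.AA
open Finset

theorem st_LOW : St_LOW := by
  intro n m b h1 hb
  have e : (Fintype.piFinset fun _ : Fin (b - 1) => range (n / b ^ 2 + 1)).card =
      (n / b ^ 2 + 1) ^ (b - 1) := by simp
  rw [← e]
  refine card_le_card_of_surjOn (fun l i => l.parts.count (i.1 + 2)) fun c hc => ?_
  have h2 : ∀ i, c i ≤ n / b ^ 2 := fun i =>
    Nat.lt_succ_iff.1 (mem_range.1 (Fintype.mem_piFinset.1 hc i))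
  have h3 : ∑ i : Fin (b - 1), c i * (i.1 + 2) ≤ n := by
    refine (sum_le_card_nsmul _ _ (n / b ^ 2 * b) fun i _ =>
      Nat.mul_le_mul (h2 i) (by have := i.2; omega)).trans ?_
    rw [card_univ, Fintype.card_fin, smul_eq_mul]
    calc _ ≤ b * (n / b ^ 2 * b) := Nat.mul_le_mul_right _ (by omega)
      _ = n / b ^ 2 * b ^ 2 := by ring
      _ ≤ n := Nat.div_mul_le_self _ _
  have h4 : ∀ x ∈ ∑ i : Fin (b - 1), Multiset.replicate (c i) (i.1 + 2) +
      Multiset.replicate (n - ∑ i : Fin (b - 1), c i * (i.1 + 2)) 1, 0 < x ∧ x ≤ m := by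
    intro x hx
    rcases Multiset.mem_add.1 hx with h | h
    · obtain ⟨i, -, h⟩ := Multiset.mem_sum.1 h
      have := Multiset.eq_of_mem_replicate h
      have := i.2
      omega
    · have := Multiset.eq_of_mem_replicate h
      omega
  refine ⟨⟨_, fun {x} hx => (h4 x hx).1, ?_⟩, mem_filter.2 ⟨mem_univ _, fun x hx => (h4 x hx).2⟩,
    funext fun j => ?_⟩
  · simp only [Multiset.sum_add, Multiset.sum_sum, Multiset.sum_replicate, smul_eq_mul]
    omega
  · simp [Multiset.count_sum', Multiset.count_replicate, Fin.val_inj]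

namespace P5

lemma ext {s t : Multiset ℕ} {m : ℕ} (hm : 0 < m) (h : ∀ x, x ≠ m → s.count x = t.count x)
    (hs : s.sum = t.sum) : s = t := by
  have e : s.filter (fun x => ¬ x = m) = t.filter fun x => ¬ x = m := by
    ext x
    simp only [Multiset.count_filter]
    split_ifs with hx
    · rfl
    · exact h x hx
  have a := Multiset.filter_add_not (fun x => x = m) s
  have b := Multiset.filter_add_not (fun x => x = m) t
  rw [Multiset.filter_eq'] at a b
  have c := hs
  rw [← a, ← b, e] at c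
  simp only [Multiset.sum_add, Multiset.sum_replicate, smul_eq_mul, add_left_inj] at c
  rw [← a, ← b, e, Nat.eq_of_mul_eq_mul_right hm c]

lemma one (n k t : ℕ) (i : Fin (k + 1)) :
    ((PM n (k + 2)).filter fun l => l.parts.count (i.1 + 1) < t).card ≤ t * (n + 1) ^ k := by
  have e : (range t ×ˢ Fintype.piFinset fun _ : Fin k => range (n + 1)).card =
      t * (n + 1) ^ k := by simp
  rw [← e]
  refine card_le_card_of_injOn (fun l => (l.parts.count (i.1 + 1),
    fun j => l.parts.count ((i.succAbove j).1 + 1))) (fun l hl => ?_) fun l hl l' hl' h => ?_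
  · refine mem_coe.2 (mem_product.2 ⟨mem_range.2 (mem_filter.1 hl).2,
      Fintype.mem_piFinset.2 fun j => mem_range.2 (Nat.lt_succ_of_le ?_)⟩)
    by_cases hx : (i.succAbove j).1 + 1 ∈ l.parts
    · exact P1.cnt_le l hx
    · exact (Multiset.count_eq_zero_of_notMem hx).trans_le (Nat.zero_le _)
  · have a : ∀ j : Fin (k + 1), l.parts.count (j.1 + 1) = l'.parts.count (j.1 + 1) :=
      (Fin.forall_iff_succAbove i).2 ⟨congrArg Prod.fst h, congrFun (congrArg Prod.snd h)⟩
    have b := (mem_filter.1 (mem_filter.1 hl).1).2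
    have b' := (mem_filter.1 (mem_filter.1 hl').1).2
    refine Nat.Partition.ext (ext (m := k + 2) (by omega) (fun x hx => ?_)
      (l.parts_sum.trans l'.parts_sum.symm))
    by_cases h1 : 0 < x ∧ x ≤ k + 2
    · have := a ⟨x - 1, by omega⟩
      rwa [show x - 1 + 1 = x by omega] at this
    · rw [Multiset.count_eq_zero_of_notMem fun h => h1 ⟨l.parts_pos h, b x h⟩,
        Multiset.count_eq_zero_of_notMem fun h => h1 ⟨l'.parts_pos h, b' x h⟩]

end P5

theorem st_P5 : St_P5 := by
  classical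
  intro m t r hm
  obtain ⟨k, rfl⟩ : ∃ k, m = k + 2 := ⟨m - 2, by omega⟩
  refine ⟨r * ((k + 1) * t) * ((k + 2) ^ 2) ^ k * (k + 2) ^ 2, fun n hn => ?_⟩
  have p : 0 < (k + 2) ^ 2 := by positivity
  have a := st_LOW n (k + 2) (k + 2) (by omega) le_rfl
  have b : n + 1 ≤ (n / (k + 2) ^ 2 + 1) * (k + 2) ^ 2 := by
    rw [mul_comm]
    exact Nat.lt_mul_div_succ n p
  have c := (Nat.le_div_iff_mul_le p).2 hn
  generalize n / (k + 2) ^ 2 = u at a b c
  have d := (card_le_card (s := (PM n (k + 2)).filter fun l =>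
    ∃ i, 0 < i ∧ i < k + 2 ∧ l.parts.count i < t) (t := (univ : Finset (Fin (k + 1))).biUnion
      fun i => (PM n (k + 2)).filter fun l => l.parts.count (i.1 + 1) < t) fun l hl => ?_).trans
    (card_biUnion_le_card_mul _ _ _ fun i _ => P5.one n k t i)
  · rw [card_univ, Fintype.card_fin] at d
    refine le_trans ?_ a
    calc _ ≤ r * ((k + 1) * (t * (n + 1) ^ k)) := Nat.mul_le_mul_left _ d
      _ ≤ r * ((k + 1) * (t * ((u + 1) * (k + 2) ^ 2) ^ k)) := by gcongr
      _ = r * ((k + 1) * t) * ((k + 2) ^ 2) ^ k * (u + 1) ^ k := by rw [mul_pow]; ring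
      _ ≤ (u + 1) * (u + 1) ^ k := Nat.mul_le_mul_right _ (by omega)
      _ = _ := by rw [← pow_succ']; rfl
  · obtain ⟨h1, i, i0, i1, i2⟩ := mem_filter.1 hl
    exact mem_biUnion.2 ⟨⟨i - 1, by omega⟩, mem_univ _, mem_filter.2 ⟨h1, by
      rwa [show i - 1 + 1 = i by omega]⟩⟩

end MP7ebc2a.AA
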