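import Pool.Agent.Lib.AA25.Blue2

/-! Four copies of a cyclic filling. -/

namespace MP7ebc2a.AA
open Multiset

namespace QUAD

lemma len_card (n : ℕ) (c : Col) :
    len n c = ((Finset.range n).filter fun j => c j = true).card := by
  induction n with
  | zero => simp [len]
  | succ n ih =>
    rw [len, ih, Finset.range_add_one, Finset.filter_insert]
    split_ifs
    · rw [Finset.card_insert_of_notMem (by simp)]
    · rfl

lemma len_mem {m : ℕ} {c : List ℕ} (h : c.Nodup ∧ ∀ j ∈ c, j < m) :
    len m (fun j => decide (j ∈ c)) = c.length := by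
  rw [len_card, ← List.toFinset_card_of_nodup h.1]
  congr 1
  ext j
  simpa using h.2 j

/-- a cyclic filling by columns -/
lemma cycC {m : ℕ} (hm : 0 < m) (Q : Multiset ℕ) (h : ∀ x ∈ Q, x ≤ m) (S : ℕ) :
    ∃ T : Multiset Col, T.map (len m) = Q ∧
      ∀ i < m, T.countP (fun c => c i = true) + cn m S i = cn m (S + Q.sum) i := by
  obtain ⟨T, a, b, e⟩ := cyc hm Q h S
  refine ⟨T.map fun c j => decide (j ∈ c), ?_, fun i hi => ?_⟩
  · rw [Multiset.map_map, ← b]
    exact Multiset.map_congr rfl fun c hc => len_mem (a c hc)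
  · rw [← e i hi, countP_map, countP_eq_card_filter]
    congr 2
    exact filter_congr fun c _ => by simp

end QUAD

theorem st_QUAD (hC : St_CC) : St_QUAD := by
  intro m σ q V Q hm hF hQ hs
  obtain ⟨T, a1, a2, a3⟩ := hF.2.2 0
  obtain ⟨T', b1, b2⟩ := QUAD.cycC hm Q hQ σ
  have e : (T + (T' + T' + (T' + T'))).map (len m) = V + (Q + Q + (Q + Q)) := by
    simp only [Multiset.map_add, a1, b1]
  have hD : Des m 0 (4 * q) (T + (T' + T' + (T' + T'))) := by
    refine ⟨fun j hj => ?_, fun a _ b _ => ?_, fun n h1 h2 => absurd h2 (by omega)⟩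
    · have c1 := a3 j hj
      have c2 := b2 j hj
      rw [hs, cn_mul hm] at c2
      have c3 : cn m 0 j = 0 := by simp [cn]
      simp only [countP_add, zero_add] at c1 ⊢
      omega
    · simp only [countP_add]
      exact (a2 a b).add ⟨_, rfl⟩
  refine hC.good m _ _ hm ⟨2 * q, by ring⟩ (fun x hx => ?_) (e ▸ hD.good)
  obtain ⟨c, -, rfl⟩ := mem_map.1 (e ▸ hx)
  exact len_le m c

end MP7ebc2a.AA
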