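import Pool.Agent.Lib.AA25.Blue2

/-! Replacing a family of sets by one with the same intersection parities. -/

namespace MP7ebc2a.AA
open Finset

namespace RZ

lemma labels {ι : Type*} [Fintype ι] [DecidableEq ι] [Inhabited ι] (A : Col) (m : ℕ) (p : ι → ℕ)
    (h : ∑ x, p x = len m A) :
    ∃ φ : ℕ → ι, ∀ x, len m (fun j => A j && decide (φ j = x)) = p x := by
  induction m generalizing p with
  | zero =>
    refine ⟨fun _ => default, fun x => ?_⟩
    have := Finset.single_le_sum (f := p) (fun _ _ => Nat.zero_le _) (mem_univ x)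
    rw [len] at h ⊢
    omega
  | succ n ih =>
    rw [len] at h
    by_cases hA : A n = true
    · rw [if_pos hA] at h
      obtain ⟨x0, hx0⟩ : ∃ x0, 0 < p x0 := by
        by_contra! hc
        have : ∑ x, p x = 0 := Finset.sum_eq_zero fun x _ => by have := hc x; omega
        omega
      obtain ⟨φ, hφ⟩ := ih (Function.update p x0 (p x0 - 1)) (by
        rw [Finset.sum_update_of_mem (mem_univ _)]
        have := Finset.add_sum_erase univ p (mem_univ x0)
        rw [Finset.sdiff_singleton_eq_erase]
        omega)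
      refine ⟨Function.update φ n x0, fun x => ?_⟩
      rw [len, len_congr (c' := fun j => A j && decide (φ j = x))
        (fun j hj => by simp [Function.update_of_ne hj.ne]), hφ]
      by_cases hx : x = x0
      · subst hx
        simp only [hA, Function.update_self, decide_true, Bool.and_self, if_true]
        omega
      · simp [Function.update_of_ne hx, Ne.symm hx]
    · rw [if_neg hA] at h
      obtain ⟨φ, hφ⟩ := ih p (by omega)
      exact ⟨φ, fun x => by rw [len, hφ]; simp [hA]⟩

lemma design {ι κ : Type*} [Fintype ι] [DecidableEq ι] [Inhabited ι] (s : Finset κ)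
    (inc : ι → κ → Bool) (g m : ℕ) (p : ι → ℕ)
    (h1 : ∀ x, (s.filter fun l => inc x l = true).card = g)
    (h2 : ∀ x y, (s.filter fun l => inc x l = true ∧ inc y l = true).card % 2 = 1) :
    Rz m g {∑ x, p x} (s.val.map fun l => ∑ x, if inc x l = true then p x else 0) := by
  intro T0 hT
  obtain ⟨A, rfl, hA⟩ := Multiset.map_eq_singleton.1 hT
  obtain ⟨φ, hφ⟩ := labels A m p hA.symm
  refine ⟨s.val.map fun l j => A j && inc (φ j) l, ?_, fun a b => ?_, fun j => ?_⟩
  · rw [Multiset.map_map]
    refine Multiset.map_congr rfl fun l _ => ?_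
    have e : ∀ x, (if inc x l = true then p x else 0) = ∑ j ∈ range m,
        if inc x l = true then (if (A j && decide (φ j = x)) = true then 1 else 0) else 0 := by
      intro x
      rw [← hφ, len_eq_sum]
      split_ifs <;> simp
    rw [Function.comp_apply, len_eq_sum, Finset.sum_congr rfl fun x _ => e x, Finset.sum_comm]
    refine Finset.sum_congr rfl fun j _ => ?_
    rw [Finset.sum_eq_single (φ j) (fun x _ hx => by simp [Ne.symm hx]) (by simp)]
    cases A j <;> cases inc (φ j) l <;> simp
  · rw [countP_univ, ← Multiset.cons_zero, Multiset.countP_cons, Multiset.countP_zero]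
    have := h2 (φ a) (φ b)
    cases ha : A a <;> cases hb : A b <;> simp_all
  · rw [countP_univ, ← Multiset.cons_zero, Multiset.countP_cons, Multiset.countP_zero]
    have := h1 (φ j)
    cases ha : A j <;> simp_all

def fi (x l : Fin 7) : Bool := x = l || x = l + 1 || x = l + 3

lemma fano (m v : ℕ) (U : Multiset ℕ) (h7 : U.card = 7) (hs : U.sum = 3 * v)
    (h : ∀ y ∈ U, y % 2 = v % 2 ∧ v ≤ 3 * y) : Rz m 3 {v} U := by
  obtain ⟨y, rfl, -⟩ := index_cols (fun _ : ℕ => ()) (fun _ : Fin 7 => ()) univ U (by simp [h7])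
  have hy : ∀ l, y l % 2 = v % 2 ∧ v ≤ 3 * y l := fun l =>
    h _ (Multiset.mem_map_of_mem _ (mem_univ_val l))
  have hs' : ∑ l, y l = 3 * v := hs
  have hp : ∀ x, ∃ q, 2 * q + v = y x + y (x + 6) + y (x + 4) := fun x => by
    have := hy x
    have := hy (x + 6)
    have := hy (x + 4)
    exact ⟨(y x + y (x + 6) + y (x + 4) - v) / 2, by omega⟩
  choose p hp using hp
  have p0 : 2 * p 0 + v = y 0 + y 6 + y 4 := hp 0
  have p1 : 2 * p 1 + v = y 1 + y 0 + y 5 := hp 1
  have p2 : 2 * p 2 + v = y 2 + y 1 + y 6 := hp 2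
  have p3 : 2 * p 3 + v = y 3 + y 2 + y 0 := hp 3
  have p4 : 2 * p 4 + v = y 4 + y 3 + y 1 := hp 4
  have p5 : 2 * p 5 + v = y 5 + y 4 + y 2 := hp 5
  have p6 : 2 * p 6 + v = y 6 + y 5 + y 3 := hp 6
  have key := design univ fi 3 m p (by decide) (by decide)
  rw [Fin.sum_univ_seven] at hs'
  have e1 : ∑ x, p x = v := by rw [Fin.sum_univ_seven]; omega
  have e2 : (fun l => ∑ x, if fi x l = true then p x else 0) = y := by
    funext l
    rw [Fin.sum_univ_seven]
    fin_cases l <;> simp [fi] <;> omega
  rwa [e1, e2] at key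

lemma kk (m c k : ℕ) (hk : 0 < k) (he : Even k) : ∃ Y : Multiset ℕ, Y.card ≤ k ^ 2 ∧
    (∀ y ∈ Y, 2 * (c / k) ≤ y ∧ y ≤ 2 * (c / k) + 2) ∧ Rz m (k - 1) {c} Y := by
  have : Inhabited (Fin k) := ⟨⟨0, hk⟩⟩
  have h1 : ∀ x : Fin k, ((powersetCard 2 (univ : Finset (Fin k))).filter
      fun l => decide (x ∈ l) = true).card = k - 1 := fun x => by
    have := Finset.card_filter_powersetCard_subset {x} (univ : Finset (Fin k)) 2 (subset_univ _)
      (by simp)
    simpa using this
  have key := design (powersetCard 2 (univ : Finset (Fin k))) (fun x l => decide (x ∈ l)) (k - 1) m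
    (fun i => cn k c i) h1 (fun x y => by
      by_cases hxy : x = y
      · subst hxy
        obtain ⟨t, ht⟩ := he
        simp only [and_self]
        rw [h1]
        omega
      · have := Finset.card_filter_powersetCard_subset {x, y} (univ : Finset (Fin k)) 2
          (subset_univ _) (by rw [card_pair hxy])
        rw [card_pair hxy, Nat.sub_self, Nat.choose_zero_right] at this
        rw [Finset.filter_congr (q := fun l => {x, y} ⊆ l) fun l _ => by simp [insert_subset_iff],
          this])
  rw [Fin.sum_univ_eq_sum_range (cn k c), cn_sum hk] at key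
  refine ⟨_, ?_, fun y hy => ?_, key⟩
  · rw [Multiset.card_map, card_val, card_powersetCard, card_univ, Fintype.card_fin]
    exact Nat.choose_le_pow _ _
  · obtain ⟨l, hl, rfl⟩ := Multiset.mem_map.1 hy
    have hl' : l ∈ powersetCard 2 (univ : Finset (Fin k)) := hl
    obtain ⟨a, b, hab, rfl⟩ := card_eq_two.1 (mem_powersetCard.1 hl').2
    simp only [decide_eq_true_eq]
    rw [← Finset.sum_filter, Finset.filter_mem_eq_inter, univ_inter, sum_pair hab]
    unfold cn
    split_ifs <;> omega

lemma len_true (c : ℕ) : len c (fun _ => true) = c := by simp [len_eq_sum]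

end RZ

theorem st_RZ : St_RZ where
  nil m g T0 h := by
    rw [Multiset.map_eq_zero.1 h]
    exact ⟨0, by simp⟩
  add m g Y U Y' U' h h' T0 hT := by
    obtain ⟨T1, T2, rfl, e1, e2⟩ := map_eq_add _ _ _ _ hT
    obtain ⟨S1, a1, a2, a3⟩ := h _ e1
    obtain ⟨S2, b1, b2, b3⟩ := h' _ e2
    refine ⟨S1 + S2, by rw [Multiset.map_add, a1, b1], fun a b => ?_, fun j => ?_⟩
    · have := a2 a b
      have := b2 a b
      rw [Multiset.countP_add, Multiset.countP_add]
      omega
    · rw [Multiset.countP_add, Multiset.countP_add, a3, b3, mul_add]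
  trans m g g' Y U W h h' T0 hT := by
    obtain ⟨S1, a1, a2, a3⟩ := h _ hT
    obtain ⟨S2, b1, b2, b3⟩ := h' _ a1
    exact ⟨S2, b1, fun a b => (b2 a b).trans (a2 a b), fun j => by rw [b3, a3, mul_assoc]⟩
  fano := RZ.fano
  kk := RZ.kk
  fin c g U h := by
    obtain ⟨T, rfl, a2, a3⟩ := h {fun _ => true} (by simp [RZ.len_true])
    refine ⟨fun x hx => ?_, ?_⟩
    · obtain ⟨t, _, rfl⟩ := Multiset.mem_map.1 hx
      exact len_le _ _
    · have hD : Des c 0 (g + 1) ((fun _ => true) ::ₘ T) := by
        refine ⟨fun j _ => ?_, fun a _ b _ => ?_, fun n h1 h2 => by omega⟩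
        · rw [Multiset.countP_cons, a3, ← Multiset.cons_zero, Multiset.countP_cons]
          simp
        · have := a2 a b
          rw [← Multiset.cons_zero, Multiset.countP_cons] at this
          rw [Multiset.countP_cons, Nat.even_iff]
          simp only [and_self, if_true, Multiset.countP_zero] at this ⊢
          omega
      have := hD.good
      rwa [Nat.add_zero, Multiset.map_cons, RZ.len_true] at this

end MP7ebc2a.AA
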