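import Pool.Agent.Lib.AA25.Blue2

/-! The columns of two families of pyramids. -/

namespace MP7ebc2a.AA
open Finset

namespace SEEDC

lemma conj_range (s : Multiset ℕ) (N : ℕ) :
    conj s N = (Multiset.range N).map fun k => s.countP (k < ·) := by
  unfold conj
  rw [Fin.univ_val_map, List.ofFn_eq_map, Multiset.range, Multiset.map_coe,
    ← List.map_coe_finRange_eq_range, List.map_map]
  rfl

lemma rng_blk (f : ℕ → ℕ) (a b v : ℕ) (h : ∀ k, a ≤ k → k < a + b → f k = v) :
    (Multiset.range (a + b)).map f = (Multiset.range a).map f + Multiset.replicate b v := by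
  induction b with
  | zero => simp
  | succ b ih =>
    rw [← add_assoc, Multiset.range_succ, Multiset.map_cons, ih fun k h1 h2 => h k h1 (by omega),
      h (a + b) (by omega) (by omega), Multiset.replicate_succ, Multiset.add_cons]

lemma cp_rep (k n x : ℕ) :
    (Multiset.replicate n x).countP (k < ·) = if k < x then n else 0 := by
  induction n with
  | zero => simp
  | succ n ih =>
    rw [Multiset.replicate_succ, Multiset.countP_cons, ih]
    split_ifs <;> rfl

lemma seeds (p : ℕ) (hp : 1 ≤ p) (K : ℕ) :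
    GR (K * CP p) 3 (Multiset.replicate (K * p) (AP p)) := by
  induction K with
  | zero => simpa using st_CH.nil 3
  | succ K ih =>
    have h := st_SEED st_TR st_LINK p 0 hp
    rw [mul_zero, add_zero, add_zero, Multiset.replicate_zero, add_zero, ← Multiset.replicate_succ,
      Nat.sub_add_cancel hp] at h
    rw [add_mul, add_mul, one_mul, one_mul, Multiset.replicate_add]
    exact st_UNION _ _ _ _ _ ih h

lemma AP_pos (p : ℕ) : 1 ≤ AP p := Nat.choose_pos (by omega)

lemma AP_mono {p p' : ℕ} (h : p' ≤ p) : AP p' ≤ AP p := Nat.choose_le_choose 2 (by omega)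

end SEEDC

open SEEDC in
theorem st_SEEDC (hC : St_CC) : St_SEEDC := by
  intro p p' K K' e h1 h2 h3
  obtain ⟨K, rfl⟩ := Nat.exists_eq_add_of_le' h3
  have hp : 1 ≤ p := h1.trans h2
  obtain ⟨N, hN, hG⟩ := st_UNION _ _ _ _ _
    (st_UNION _ _ _ _ _ (st_SEED st_TR st_LINK p e hp) (seeds p hp K)) (seeds p' h1 K')
  have e1 : CP p + e + K * CP p + K' * CP p' = (K + 1) * CP p + K' * CP p' + e := by ring
  rw [e1] at hG
  have a1 := AP_pos p'
  have a2 := AP_mono h2
  have a3 : AP p + 2 * e ≤ N :=
    hN _ (Multiset.mem_add.2 (Or.inl (Multiset.mem_add.2 (Or.inl (Multiset.mem_cons_self _ _)))))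
  refine hC.zero _ _ _ _ ?_ hG
  have e2 : (K + 1) * p = K * p + p := by ring
  obtain ⟨r, rfl⟩ : ∃ r, N = 0 + 1 + (AP p' - 1) + (AP p - AP p') + 2 * e + r :=
    ⟨N - (AP p + 2 * e), by omega⟩
  rw [conj_range, rng_blk _ _ r 0, rng_blk _ _ (2 * e) 1, rng_blk _ _ (AP p - AP p') ((K + 1) * p),
    rng_blk _ _ (AP p' - 1) ((K + 1) * p + K' * p'), rng_blk _ 0 1 ((K + 1) * p + K' * p' + e)]
  · have z : (Multiset.replicate r 0).filter (· ≠ 0) = 0 :=
      Multiset.filter_eq_nil.2 fun x hx => by
        rw [Multiset.eq_of_mem_replicate hx]; exact fun h => h rfl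
    rw [Multiset.filter_add, z, add_zero, Multiset.range_zero, Multiset.map_zero, zero_add,
      Multiset.replicate_one, Multiset.singleton_add, Multiset.cons_add, Multiset.cons_add]
  all_goals
    intro k k1 k2
    simp only [Multiset.countP_add, Multiset.countP_cons, cp_rep]
    split_ifs <;> omega

end MP7ebc2a.AA
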