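import Pool.Agent.Lib.AA25.Blue2

/-! Three and four letters. -/

namespace MP7ebc2a.AA
open Finset

namespace SMALL

def V (a b c e : ℕ) : Multiset ℕ :=
  Multiset.replicate a 1 + Multiset.replicate b 2 + Multiset.replicate c 3 + Multiset.replicate e 4

def cols (l : List (List ℕ)) : Multiset Col :=
  (l.map fun c j => decide (j ∈ c) : List Col)

lemma V_add (a b c e a' b' c' e' : ℕ) :
    V (a + a') (b + b') (c + c') (e + e') = V a b c e + V a' b' c' e' := by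
  simp only [V, Multiset.replicate_add]
  abel

lemma V_sum (a b c e : ℕ) : (V a b c e).sum = a + 2 * b + 3 * c + 4 * e := by
  simp only [V, Multiset.sum_add, Multiset.sum_replicate, smul_eq_mul]
  ring

lemma V_le {m a b c e : ℕ} (h3 : 3 ≤ m) (h4 : e = 0 ∨ 4 ≤ m) : ∀ x ∈ V a b c e, x ≤ m := by
  intro x hx
  simp only [V, Multiset.mem_add, Multiset.mem_replicate] at hx
  omega

lemma V_eq (ν : Multiset ℕ) (h : ∀ x ∈ ν, 0 < x ∧ x ≤ 4) :
    ν = V (ν.count 1) (ν.count 2) (ν.count 3) (ν.count 4) := by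
  ext x
  simp only [V, Multiset.count_add, Multiset.count_replicate]
  by_cases hx : x ∈ ν
  · obtain ⟨h1, h2⟩ := h x hx
    interval_cases x <;> simp
  · have z := Multiset.count_eq_zero.2 hx
    rw [z]
    split_ifs <;> subst_vars <;> omega

lemma plusV (hC : St_CC) {m d d' a b c e a' b' c' e' : ℕ} (h : GC m d (V a b c e))
    (h' : GC m d' (V a' b' c' e')) : GC m (d + d') (V (a + a') (b + b') (c + c') (e + e')) := by
  rw [V_add]
  exact hC.plus _ _ _ _ _ h h'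

lemma pr (hC : St_CC) {m q a b c e : ℕ} (h3 : 3 ≤ m) (h4 : e = 0 ∨ 4 ≤ m)
    (hs : a + 2 * b + 3 * c + 4 * e = m * q) :
    GC m (2 * q) (V (a + a) (b + b) (c + c) (e + e)) := by
  rw [V_add]
  exact hC.pairs m q _ (V_le h3 h4) ((V_sum _ _ _ _).trans hs)

lemma opt (hC : St_CC) {m d a b c e : ℕ} (h3 : 3 ≤ m) (x : ℕ) (hx : x ≤ 1)
    (h : GC m d (V a b c e)) : GC m (x * d) (V (x * a) (x * b) (x * c) (x * e)) := by
  interval_cases x
  · simpa using pr hC (m := m) (q := 0) (a := 0) (b := 0) (c := 0) (e := 0) h3 (Or.inl rfl) rfl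
  · simpa using h

lemma g1 : Good 3 4 (V 6 3 0 0) := by
  have h : Des 2 1 4 (cols [[0, 2], [0, 2], [1, 2], [2], [0], [0], [1], [1], [1]]) := by
    refine ⟨by decide, by decide, fun n h1 h2 => ?_⟩
    obtain rfl : n = 2 := by omega
    exact ⟨2, by decide⟩
  have e : (cols [[0, 2], [0, 2], [1, 2], [2], [0], [0], [1], [1], [1]]).map (len (2 + 1)) =
      V 6 3 0 0 := by decide
  exact e ▸ h.good

lemma g2 : Good 3 4 (V 3 3 1 0) := by
  have h : Des 3 0 4 (cols [[0], [1], [2], [0, 1], [0, 2], [1, 2], [0, 1, 2]]) :=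
    ⟨by decide, by decide, fun n h1 h2 => by omega⟩
  have e : (cols [[0], [1], [2], [0, 1], [0, 2], [1, 2], [0, 1, 2]]).map (len (3 + 0)) =
      V 3 3 1 0 := by decide
  exact e ▸ h.good

lemma g3 : Good 4 8 (V 1 3 7 1) := by
  have h : Des 4 0 8 (cols [[3], [0, 3], [1, 3], [2, 3], [0, 1, 3], [0, 2, 3], [1, 2, 3],
      [0, 1, 2], [0, 1, 2], [0, 1, 2], [0, 1, 2], [0, 1, 2, 3]]) :=
    ⟨by decide, by decide, fun n h1 h2 => by omega⟩
  have e : (cols [[3], [0, 3], [1, 3], [2, 3], [0, 1, 3], [0, 2, 3], [1, 2, 3],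
      [0, 1, 2], [0, 1, 2], [0, 1, 2], [0, 1, 2], [0, 1, 2, 3]]).map (len (4 + 0)) =
      V 1 3 7 1 := by decide
  exact e ▸ h.good

lemma up (hC : St_CC) {a b c : ℕ} (h : GC 3 4 (V a b c 0)) : GC 4 4 (V (a + 4) b c 0) := by
  have o : GC 1 (2 * 2) (V 2 0 0 0 + V 2 0 0 0) :=
    hC.pairs 1 2 _ (by decide) (by decide)
  rw [← V_add] at o
  have := hC.box 3 1 4 _ _ ⟨2, rfl⟩ h o
  rwa [← V_add] at this

end SMALL

open SMALL in
theorem st_SMALL (hC : St_CC) : St_SMALL := by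
  intro m d ν hm hν hs hc
  have e := V_eq ν fun x hx => ⟨(hν x hx).1, by have := (hν x hx).2; omega⟩
  have s1 : GC 3 4 (V 6 3 0 0) := hC.good _ _ _ (by omega) ⟨2, rfl⟩ (V_le le_rfl (Or.inl rfl)) g1
  have s2 : GC 3 4 (V 3 3 1 0) := hC.good _ _ _ (by omega) ⟨2, rfl⟩ (V_le le_rfl (Or.inl rfl)) g2
  have s3 : GC 4 8 (V 1 3 7 1) :=
    hC.good _ _ _ (by omega) ⟨4, rfl⟩ (V_le (by omega) (Or.inr le_rfl)) g3
  rw [e, V_sum] at hs
  have c1 := hc 1 (by omega) (by omega)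
  have c2 := hc 2 (by omega) (by omega)
  rcases hm with rfl | rfl
  · have c4 : ν.count 4 = 0 := Multiset.count_eq_zero.2 fun h => by have := (hν 4 h).2; omega
    rw [c4] at e hs
    generalize ν.count 1 = n1, ν.count 2 = n2, ν.count 3 = n3 at e hs c1 c2
    obtain ⟨k, hk⟩ : ∃ k, k = 8 + d % 2 := ⟨_, rfl⟩
    obtain ⟨y, hy⟩ : ∃ y, y = n1 % 2 := ⟨_, rfl⟩
    obtain ⟨x, hx⟩ : ∃ x, x = (n2 + y) % 2 := ⟨_, rfl⟩
    obtain ⟨a, ha⟩ : ∃ a, n1 + 0 = x * 6 + y * 3 + (a + a) := ⟨(n1 - 6 * x - 3 * y) / 2, by omega⟩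
    obtain ⟨b, hb⟩ : ∃ b, n2 + 0 = x * 3 + y * 3 + (b + b) := ⟨(n2 - 3 * x - 3 * y) / 2, by omega⟩
    obtain ⟨c, hc'⟩ : ∃ c, n3 + k = x * 0 + y * 1 + (c + c) := ⟨(n3 + k - y) / 2, by omega⟩
    obtain ⟨q, hq⟩ : ∃ q, d + k = x * 4 + y * 4 + 2 * q := ⟨(d + k - 4 * x - 4 * y) / 2, by omega⟩
    refine hC.pad 3 d k ν ?_
    have r : Multiset.replicate k 3 = V 0 0 k 0 := by simp [V]
    have z : 0 + 0 = x * 0 + y * 0 + (0 + 0) := by omega
    rw [e, r, ← V_add, ha, hb, hc', hq, z]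
    exact plusV hC (plusV hC (opt hC le_rfl x (by omega) s1) (opt hC le_rfl y (by omega) s2))
      (pr hC le_rfl (Or.inl rfl) (by omega))
  · have c3 := hc 3 (by omega) (by omega)
    generalize ν.count 1 = n1, ν.count 2 = n2, ν.count 3 = n3, ν.count 4 = n4 at e hs c1 c2 c3
    obtain ⟨k, hk⟩ : ∃ k, k = 16 + d % 2 := ⟨_, rfl⟩
    obtain ⟨z, hz⟩ : ∃ z, z = (n4 + k) % 2 := ⟨_, rfl⟩
    obtain ⟨y, hy⟩ : ∃ y, y = (n1 + z) % 2 := ⟨_, rfl⟩
    obtain ⟨x, hx⟩ : ∃ x, x = (n2 + y + z) % 2 := ⟨_, rfl⟩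
    obtain ⟨a, ha⟩ : ∃ a, n1 + 0 = x * (6 + 4) + y * (3 + 4) + z * 1 + (a + a) :=
      ⟨(n1 - 10 * x - 7 * y - z) / 2, by omega⟩
    obtain ⟨b, hb⟩ : ∃ b, n2 + 0 = x * 3 + y * 3 + z * 3 + (b + b) :=
      ⟨(n2 - 3 * x - 3 * y - 3 * z) / 2, by omega⟩
    obtain ⟨c, hc'⟩ : ∃ c, n3 + 0 = x * 0 + y * 1 + z * 7 + (c + c) :=
      ⟨(n3 - y - 7 * z) / 2, by omega⟩
    obtain ⟨f, hf⟩ : ∃ f, n4 + k = x * 0 + y * 0 + z * 1 + (f + f) := ⟨(n4 + k - z) / 2, by omega⟩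
    obtain ⟨q, hq⟩ : ∃ q, d + k = x * 4 + y * 4 + z * 8 + 2 * q :=
      ⟨(d + k - 4 * x - 4 * y - 8 * z) / 2, by omega⟩
    refine hC.pad 4 d k ν ?_
    have r : Multiset.replicate k 4 = V 0 0 0 k := by simp [V]
    rw [e, r, ← V_add, ha, hb, hc', hf, hq]
    exact plusV hC (plusV hC (plusV hC (opt hC (by omega) x (by omega) (up hC s1))
      (opt hC (by omega) y (by omega) (up hC s2))) (opt hC (by omega) z (by omega) s3))
      (pr hC (by omega) (Or.inr le_rfl) (by omega))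

end MP7ebc2a.AA
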