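import Pool.Agent.Lib.AA25.Blue2

/-! Row SUP: the supply of columns. -/

namespace MP7ebc2a.AA
open Finset

namespace SUP

lemma half (M : Multiset ℕ) :
    ∃ D P, M = D + (P + P) ∧ ∀ H a b, df (H / 2) a b P ≤ df H a b M := by
  obtain ⟨P, hP⟩ : ∃ P : Multiset ℕ, ∀ i, P.count i = M.count i / 2 :=
    ⟨Finsupp.toMultiset (M.toFinsupp.mapRange (fun k => k / 2) (by simp)), fun i => by
      rw [Finsupp.count_toMultiset, Finsupp.mapRange_apply, Multiset.toFinsupp_apply]⟩
  refine ⟨M - (P + P), P, (tsub_add_cancel_of_le (Multiset.le_iff_count.2 fun i => ?_)).symm,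
    fun H a b => sum_le_sum fun i _ => ?_⟩
  · rw [Multiset.count_add, hP]
    omega
  · rw [hP, Nat.div_div_eq_div_mul, mul_comm, ← Nat.div_div_eq_div_mul]
    omega

lemma prog (f : ℕ → ℕ) {a b c k : ℕ} (h1 : a ≤ c) (h2 : c + 2 * k ≤ b) :
    ∑ j ∈ range (k + 1), f (c + 2 * j) ≤ ∑ i ∈ Icc a b, f i := by
  rw [← sum_image (s := range (k + 1)) (g := fun j => c + 2 * j) (f := f)
    fun x _ y _ h => by simp only at h; omega]
  refine sum_le_sum_of_subset fun i hi => ?_
  obtain ⟨j, hj, rfl⟩ := mem_image.1 hi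
  have := mem_range.1 hj
  exact mem_Icc.2 ⟨by omega, by omega⟩

lemma two (H z e : ℕ) (M : Multiset ℕ) (hz : 2 ≤ z) (he : e ≤ z) (hH : 60 * z ≤ H)
    (hd : 1000 * df H (28 * z) (30 * z) M < H) :
    ∃ x, Even x ∧ 28 * z ≤ x ∧ x ≤ 29 * z ∧ (x + e) ::ₘ {x} ≤ M := by
  by_contra! hn
  have z0 : 0 < 30 * z := by omega
  obtain ⟨w, hw⟩ : ∃ w, w = H / (30 * z) := ⟨_, rfl⟩
  have w2 : 2 ≤ w := by
    rw [hw, Nat.le_div_iff_mul_le z0]
    omega
  have a2 := Nat.lt_div_mul_add (a := H) z0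
  rw [← hw] at a2
  have wi : ∀ i, 0 < i → i ≤ 30 * z → w ≤ H / i := fun i h0 hi => hw ▸ Nat.div_le_div_left hi h0
  have key : ∀ j ∈ range (z / 2 + 1), w - 1 ≤ (H / (28 * z + 2 * j) - M.count (28 * z + 2 * j)) +
      (H / (28 * z + e + 2 * j) - M.count (28 * z + e + 2 * j)) := by
    intro j hj
    have := mem_range.1 hj
    have b1 := wi (28 * z + 2 * j) (by omega) (by omega)
    have b2 := wi (28 * z + e + 2 * j) (by omega) (by omega)
    by_contra hc
    refine hn (28 * z + 2 * j) ⟨14 * z + j, by ring⟩ (by omega) (by omega)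
      (Multiset.le_iff_count.2 fun i => ?_)
    rw [Multiset.count_cons, Multiset.count_singleton]
    split_ifs with c1 c2 c2
    · rw [c1]
      omega
    · rw [c1]
      omega
    · rw [c2, add_right_comm]
      omega
    · omega
  have s := sum_le_sum key
  rw [sum_add_distrib, sum_const, card_range, smul_eq_mul] at s
  have p1 := prog (fun i => H / i - M.count i) (a := 28 * z) (b := 30 * z) (c := 28 * z)
    (k := z / 2) le_rfl (by omega)
  have p2 := prog (fun i => H / i - M.count i) (a := 28 * z) (b := 30 * z) (c := 28 * z + e)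
    (k := z / 2) (by omega) (by omega)
  have s2 : (z / 2 + 1) * (w - 1) ≤ 2 * df H (28 * z) (30 * z) M := by
    rw [two_mul]
    exact s.trans (add_le_add p1 p2)
  obtain ⟨v, rfl⟩ := Nat.exists_eq_add_of_le w2
  have s3 : z * (1 + v) ≤ 2 * (z / 2 + 1) * (1 + v) := Nat.mul_le_mul_right _ (by omega)
  rw [show 2 + v - 1 = 1 + v by omega] at s2
  nlinarith [Nat.zero_le (z * v)]

lemma fill83 (h H r D : ℕ) (P : Multiset ℕ) (hh : 10 ^ 6 ≤ h) (hH : h ^ 96 ≤ 5 * H)
    (hd : df H 1 (20 * h ^ 94) P ≤ 10 * h ^ 95) (h0 : D = 0 ∨ 4 * r ≤ D) (h1 : D ≤ r * h ^ 10)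
    (h2 : D ≤ h ^ 187) : ∃ F ≤ P, F.sum = D ∧ F.card ≤ 2 * h ^ 93 ∧ ∀ f ∈ F, f ≤ r := by
  rcases Nat.eq_zero_or_pos D with rfl | D0
  · exact ⟨0, Multiset.zero_le _, rfl, Nat.zero_le _, by simp⟩
  have h4 : 4 * r ≤ D := by omega
  have r0 : 0 < r := Nat.pos_of_ne_zero fun e => by simp [e] at h1; omega
  have q0 : 0 < h ^ 10 := by positivity
  have q1 := n0 hh 10 80 (by norm_num)
  have q2 := n0 hh 80 90 (by norm_num)
  have q3 := n0 hh 90 93 (by norm_num)
  have q4 := n0 hh 93 94 (by norm_num)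
  have q5 := n0 hh 94 95 (by norm_num)
  have q6 := n0 hh 95 96 (by norm_num)
  have c1 := st_EX.cnt H 1 (20 * h ^ 94) 1 P le_rfl (by omega)
  rw [Nat.div_one] at c1
  rcases lt_or_ge r (h ^ 80) with hr | hr
  · have : D ≤ h ^ 90 := h1.trans ((Nat.mul_le_mul_right _ hr.le).trans_eq (by ring))
    refine ⟨Multiset.replicate D 1, Multiset.le_count_iff_replicate_le.1 (by omega), by simp,
      by rw [Multiset.card_replicate]; omega, fun f hf => ?_⟩
    rw [Multiset.eq_of_mem_replicate hf]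
    exact r0
  obtain ⟨z, z1, z2, z3, z4⟩ : ∃ z, 2 ≤ z ∧ 5 * z ≤ r ∧ z ≤ h ^ 94 ∧ D ≤ z * h ^ 93 := by
    rcases le_total (r / 5) (h ^ 94) with c | c
    · refine ⟨r / 5, by omega, by omega, c, h1.trans ?_⟩
      calc r * h ^ 10 ≤ (7 * (r / 5)) * h ^ 10 := Nat.mul_le_mul_right _ (by omega)
        _ = r / 5 * (7 * h ^ 10) := by ring
        _ ≤ _ := Nat.mul_le_mul_left _ (by omega)
    · exact ⟨h ^ 94, by omega, by omega, le_rfl, h2.trans_eq (by ring)⟩
  have m := (st_EX.mono H (2 * z) (5 * z) 1 (20 * h ^ 94) P P (by omega) (by omega)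
    fun _ _ _ => le_rfl).trans hd
  obtain ⟨F, f1, f2, f3, f4⟩ := fill st_EX (H := H) (z := z) (D := D - D % 2) (S := P) z1 (by omega)
    (Nat.even_iff.2 (by omega)) (.inr (by omega)) (by
      calc 180 * (z * df H (2 * z) (5 * z) P + (D - D % 2))
          ≤ 180 * (z * (10 * h ^ 95) + z * h ^ 93) :=
            Nat.mul_le_mul_left _ (add_le_add (Nat.mul_le_mul_left _ m) (by omega))
        _ = z * (1800 * h ^ 95 + 180 * h ^ 93) := by ring
        _ ≤ z * H := Nat.mul_le_mul_left _ (by omega))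
  have f5 : F.card ≤ h ^ 93 := Nat.le_of_mul_le_mul_left (by omega) (by omega : 0 < z)
  refine ⟨F + Multiset.replicate (D % 2) 1, Multiset.le_iff_count.2 fun i => ?_, ?_, ?_,
    fun f hf => ?_⟩
  · rw [Multiset.count_add, Multiset.count_replicate]
    split_ifs with c
    · rw [← c, Multiset.count_eq_zero_of_notMem fun k => by have := f4 1 k; omega]
      omega
    · exact Multiset.count_le_of_le i f1
  · rw [Multiset.sum_add, f2, Multiset.sum_replicate, smul_eq_mul]
    omega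
  · rw [Multiset.card_add, Multiset.card_replicate]
    omega
  · rcases Multiset.mem_add.1 hf with c | c
    · have := f4 f c
      omega
    · rw [Multiset.eq_of_mem_replicate c]
      exact r0

end SUP

theorem st_SUP : St_SUP where
  half := SUP.half
  two := SUP.two
  fill := SUP.fill83

end MP7ebc2a.AA
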