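import Pool.Agent.Lib.AA25.Blue2

/-! Row TRF: from partitions to dominant weights, by rows and by columns. -/

namespace MP7ebc2a.AA
open Finset

namespace TRF

lemma cnt0 (s : Multiset ℕ) (k : ℕ) : (s.filter (· ≠ 0)).countP (k < ·) = s.countP (k < ·) := by
  rw [Multiset.countP_filter]
  exact Multiset.countP_congr rfl fun x _ => propext (by omega)

lemma le_sum {m n : ℕ} {lam : Fin m → ℕ} (h : (univ.val.map lam).sum = n) :
    ∀ x ∈ univ.val.map lam, x ≤ n := fun x hx =>
  h ▸ Multiset.single_le_sum (fun _ _ => Nat.zero_le _) x hx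

lemma back {m n : ℕ} {lam : Fin m → ℕ} (hl : Antitone lam) (h : (univ.val.map lam).sum = n)
    (i : Fin m) : ((conj (univ.val.map lam) n).filter (· ≠ 0)).countP ((i : ℕ) < ·) = lam i := by
  rw [cnt0, CH.conj_eq, countP_univ]
  exact CH.cnt hl i (le_sum h _ (Multiset.mem_map_of_mem _ (mem_univ_val i)))

lemma self {n : ℕ} (l : Nat.Partition n) : l.parts.filter (· ≠ 0) = l.parts :=
  Multiset.filter_eq_self.2 fun _ ha => (l.parts_pos ha).ne'

end TRF

open Classical in
theorem st_TRF (hC : St_CC) : St_TRF where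
  colB m d := by
    refine le_trans (card_le_card_of_injOn
      (t := ((PM (d * m) m).filter fun l => ¬ GC m d l.parts).image fun l => l.parts)
      (fun lam => (conj (univ.val.map lam) (d * m)).filter (· ≠ 0)) ?_ ?_) card_image_le
    · intro lam hl
      rw [Bad, mem_coe, mem_filter, mem_piAntidiag] at hl
      obtain ⟨⟨u1, -⟩, u2, u3⟩ := hl
      have u4 : (univ.val.map lam).sum = d * m := u1
      have u5 := (CH.conj_sum _ _ (TRF.le_sum u4)).trans u4
      refine mem_coe.2 (mem_image.2 ⟨Nat.Partition.ofSums _ _ u5, ?_, rfl⟩)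
      rw [mem_filter, PM, mem_filter]
      refine ⟨⟨mem_univ _, fun x hx => ?_⟩, fun g => u3 (st_CH.inv _ d lam u2
        ⟨d * m, TRF.le_sum u4, hC.zero _ _ _ _ (TRF.self (Nat.Partition.ofSums _ _ u5)) g⟩)⟩
      have := Multiset.mem_of_mem_filter (p := (· ≠ 0)) (s := conj _ (d * m)) hx
      rw [CH.conj_eq] at this
      obtain ⟨k, -, rfl⟩ := Multiset.mem_map.1 this
      exact colLen_le _ _
    · intro f hf g hg e
      rw [Bad, mem_coe, mem_filter, mem_piAntidiag] at hf hg
      funext i
      rw [← TRF.back hf.2.1 hf.1.1 i, ← TRF.back hg.2.1 hg.1.1 i]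
      exact congrArg _ e
  colA m n := by
    refine card_le_card_of_injOn (fun l (i : Fin m) => l.parts.countP ((i : ℕ) < ·)) ?_ ?_
    · intro l hl
      rw [PM, mem_coe, mem_filter] at hl
      rw [Wt, mem_coe, mem_filter, mem_piAntidiag]
      refine ⟨⟨(CH.conj_sum _ _ hl.2).trans l.parts_sum, fun i _ => mem_univ i⟩, fun i j hij => ?_⟩
      simp only [Multiset.countP_eq_card_filter]
      exact Multiset.card_le_card
        (Multiset.monotone_filter_right _ fun x h => lt_of_le_of_lt hij h)
    · intro l hl l' hl' e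
      rw [PM, mem_coe, mem_filter] at hl hl'
      refine Nat.Partition.ext (ext_count hl.2 hl'.2 ?_ fun i => congrFun e i)
      have a : ∀ l : Nat.Partition n, l.parts.card = l.parts.countP (0 < ·) := fun l =>
        (Multiset.countP_eq_card.2 fun _ ha => l.parts_pos ha).symm
      rcases Nat.eq_zero_or_pos m with rfl | hm
      · have b : ∀ l : Nat.Partition n, (∀ x ∈ l.parts, x ≤ 0) → l.parts.card = 0 := fun l h =>
          (a l).trans (Multiset.countP_eq_zero.2 fun x hx => not_lt.2 (h x hx))
        rw [b l hl.2, b l' hl'.2]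
      · rw [a, a]
        exact congrFun e ⟨0, hm⟩
  rowB m d hd := by
    refine le_trans (card_le_card_of_injOn
      (t := (univ.filter fun l : Nat.Partition (d * m) => ¬ GD d l.parts).image fun l => l.parts)
      (fun lam => (univ.val.map lam).filter (· ≠ 0)) ?_ ?_) card_image_le
    · intro lam hl
      rw [Bad, mem_coe, mem_filter, mem_piAntidiag] at hl
      obtain ⟨⟨u1, -⟩, u2, u3⟩ := hl
      have u4 : (univ.val.map lam).sum = d * m := u1
      refine mem_coe.2 (mem_image.2 ⟨Nat.Partition.ofSums _ _ u4, ?_, rfl⟩)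
      rw [mem_filter]
      refine ⟨mem_univ _, fun ⟨m', g⟩ => u3 ?_⟩
      have u6 := st_CH.sum _ _ _ g
      rw [(Nat.Partition.ofSums _ _ u4).parts_sum, mul_comm] at u6
      obtain rfl := Nat.eq_of_mul_eq_mul_right hd u6
      exact st_CH.inv _ d lam u2 (st_CH.zero _ _ _ _ (TRF.self (Nat.Partition.ofSums _ _ u4)) g)
    · intro f hf g hg e
      rw [Bad, mem_coe, mem_filter] at hf hg
      exact FIN.anti_inj hf.2.1 hg.2.1 e
  rowA m n := by
    rw [← card_image_of_injective (f := fun l : Nat.Partition n => l.parts) _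
      fun a b hab => Nat.Partition.ext hab]
    refine le_trans (card_le_card ?_)
      (card_image_le (s := Wt m n) (f := fun lam => (univ.val.map lam).filter (· ≠ 0)))
    intro s hs
    obtain ⟨l, hl, rfl⟩ := mem_image.1 hs
    have u1 := (mem_filter.1 hl).2
    obtain ⟨lam, v1, v2⟩ := FIN.ex_anti m (l.parts + Multiset.replicate (m - l.parts.card) 0)
      (by rw [Multiset.card_add, Multiset.card_replicate]; omega)
    refine mem_image.2 ⟨lam, ?_, ?_⟩
    · rw [Wt, mem_filter, mem_piAntidiag]
      refine ⟨⟨?_, fun i _ => mem_univ i⟩, v1⟩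
      have : (univ.val.map lam).sum = n := by
        rw [v2, Multiset.sum_add, l.parts_sum]; simp
      exact this
    · rw [v2, Multiset.filter_add, TRF.self,
        Multiset.filter_eq_nil.2 fun a ha => by simp [Multiset.eq_of_mem_replicate ha], add_zero]

end MP7ebc2a.AA
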