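import Pool.Agent.Lib.AA25.C_CC
import Pool.Agent.Lib.AA25.C_SMALL
import Pool.Agent.Lib.AA25.C_SEEDC
import Pool.Agent.Lib.AA25.C_SUP
import Pool.Agent.Lib.AA25.C_RZ
import Pool.Agent.Lib.AA25.C_QUAD
import Pool.Agent.Lib.AA25.C_LONG
import Pool.Agent.Lib.AA25.C_BIN
import Pool.Agent.Lib.AA25.C_FARE
import Pool.Agent.Lib.AA25.C_ODDC
import Pool.Agent.Lib.AA25.C_ODDG
import Pool.Agent.Lib.AA25.C_ODD2
import Pool.Agent.Lib.AA25.C_EVEN2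
import Pool.Agent.Lib.AA25.C_P4
import Pool.Agent.Lib.AA25.C_P5
import Pool.Agent.Lib.AA25.C_TRF
import Pool.Agent.Lib.AA25.C_FIN

/-! Assembly of the blocks for all degrees. -/

namespace MP7ebc2a.AA

theorem all_FAR : St_FAR :=
  st_FAR st_CC (st_FARE st_CC st_SUP (st_QUAD st_CC) (st_LONG st_CC st_SUP st_RZ)
    (st_BIN st_CC st_SUP)) (st_ODDG (st_ODDC st_CC st_SUP (st_SEEDC st_CC)))

theorem all_FIN2 : St_FIN2 :=
  st_FIN2 (st_FINA (st_P4 st_LOW) all_FAR st_ODD2 st_EVEN2 (st_TRF st_CC)) st_P5 st_CC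
    (st_SMALL st_CC) (st_TRF st_CC)

end MP7ebc2a.AA
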