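import Pool.Agent.Lib.AA25.Blue3

/-! Degree three: rows are put side by side. -/

namespace MP7ebc2a.AA
open Equiv Finset

namespace DADD

lemma prodm {ι : Type} (s : Finset ι) (d : ι → ℕ) (c : ι → ℤ) :
    ∏ j ∈ s, Polynomial.monomial (d j) (c j) =
      Polynomial.monomial (∑ j ∈ s, d j) (∏ j ∈ s, c j) := by
  induction s using Finset.cons_induction with
  | empty => simp
  | cons a s ha h => rw [prod_cons, h, Polynomial.monomial_mul_monomial, sum_cons, prod_cons]

/-- two entries are below `c` -/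
def I (c : ℕ) (t : Fin 3 → ℕ) : Prop := ∃ k k', k ≠ k' ∧ t k < c ∧ t k' < c

lemma I_perm (c : ℕ) (σ : Perm (Fin 3)) (t : Fin 3 → ℕ) : I c (fun k => t (σ k)) ↔ I c t :=
  ⟨fun ⟨k, k', h, a, b⟩ => ⟨σ k, σ k', σ.injective.ne h, a, b⟩, fun ⟨k, k', h, a, b⟩ =>
    ⟨σ.symm k, σ.symm k', σ.symm.injective.ne h, by simpa using a, by simpa using b⟩⟩

lemma two {p : Fin 3 → Prop} (h : ∀ k k', ¬ p k → ¬ p k' → k = k') :
    ∃ k k', k ≠ k' ∧ p k ∧ p k' := by
  by_cases h0 : p 0
  · by_cases h1 : p 1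
    · exact ⟨0, 1, by decide, h0, h1⟩
    · exact ⟨0, 2, by decide, h0, by_contra fun h2 => absurd (h 1 2 h1 h2) (by decide)⟩
  · exact ⟨1, 2, by decide, by_contra fun h1 => absurd (h 0 1 h0 h1) (by decide),
      by_contra fun h2 => absurd (h 0 2 h0 h2) (by decide)⟩

variable {κ : Type} (a b : κ → ℕ)

/-- the boxes of the long rows -/
def eq : Bx a ⊕ Bx b ≃ Bx fun r => a r + b r :=
  (sigmaSumDistrib (fun r => Fin (a r)) fun r => Fin (b r)).symm.trans
    (sigmaCongrRight fun _ => finSumFinEquiv)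

/-- the position -/
def U : Bx a ⊕ Bx b → ℕ := Sum.elim (fun x => x.2) fun x => a x.1 + x.2

/-- the row -/
def V : Bx a ⊕ Bx b → κ := Sum.elim (fun x => x.1) fun x => x.1

lemma eq_U (x : Bx a ⊕ Bx b) : ((eq a b x).2 : ℕ) = U a b x := by rcases x with x | x <;> rfl

lemma eq_V (x : Bx a ⊕ Bx b) : (eq a b x).1 = V a b x := by rcases x with x | x <;> rfl

lemma U_lt (x : Bx a ⊕ Bx b) : U a b x < a (V a b x) + b (V a b x) := by
  rw [← eq_U, ← eq_V]
  exact (eq a b x).2.2

variable {a b} in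
lemma inj {x y : Bx a ⊕ Bx b} (h : V a b x = V a b y) (h' : U a b x = U a b y) : x = y := by
  rw [← eq_V, ← eq_V] at h
  rw [← eq_U, ← eq_U] at h'
  exact (eq a b).injective
    (Sigma.ext h ((Fin.heq_ext_iff (congrArg (fun r => a r + b r) h)).2 h'))

end DADD

open DADD Classical in
theorem st_ADD (hE : St_EV) (hI : St_INJ) (hS : St_SHIFT) : St_ADD := by
  intro κ α α' _ _ _ _ a b S c c' hc hab ⟨τ1, ω1, A1, E1, _⟩ ⟨τ2, ω0, A0, E0, O2⟩
  obtain ⟨ω2, A2, E2⟩ := hS a b c' τ2 ω0 A0 E0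
  refine hE.tr c' (U a b) (V a b) (fun _ => False) _ _ _ (eq a b) (Equiv.refl (α ⊕ α'))
    (eq_U a b) (fun x y => by rw [eq_V, eq_V]) (fun _ h => h) ?_
  set D := ∑ x : Bx a, (x.2 : ℕ) with hD
  let d : (Fin 3 → ℕ) → ℕ := fun t => if I c t then D + 1 else ∑ k, t k
  let f : (Fin 3 → ℕ) → ℤ := fun t => if I c t then ω2 t else ω1 t
  let τ : Bx a ⊕ Bx b ≃ (α ⊕ α') × Fin 3 :=
    (τ1.sumCongr τ2).trans (sumProdDistrib α α' (Fin 3)).symm
  have hA : Alt c' fun t => Polynomial.monomial (d t) (f t) := ⟨fun σ t => by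
      have e1 : d (fun k => t (σ k)) = d t := by simp only [d, I_perm, Equiv.sum_comp σ t]
      have e2 : f (fun k => t (σ k)) = ((Perm.sign σ : ℤˣ) : ℤ) * f t := by
        simp only [f, I_perm, A1.1, A2.1, Int.cast_id, mul_ite]
      beta_reduce
      rw [e1, e2, ← Polynomial.C_mul_monomial]
      rfl,
    fun t k k' h h1 h2 => by
      have : f t = 0 := (if_pos ⟨k, k', h, h1.trans_le hc, h2.trans_le hc⟩).trans
        (A2.2 t k k' h h1 h2)
      beta_reduce
      rw [this, map_zero]⟩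
  suffices h : Ev (U a b) (V a b) (fun t => Polynomial.monomial (d t) (f t)) τ ≠ 0 by
    obtain ⟨ω, h1, h2⟩ := hE.spec c' _ _ _ τ hA h
    exact ⟨τ, ω, h1, h2, fun _ _ _ h => h.elim⟩
  have key : ∀ g : Perm (Bx a ⊕ Bx b), (∀ x, V a b (g x) = V a b x) →
      (∏ j, Polynomial.monomial (d fun k => U a b (g (τ.symm (j, k))))
        (f fun k => U a b (g (τ.symm (j, k))))).coeff (D + Fintype.card α' * (D + 1)) =
      if (∀ j, ¬ I c fun k => U a b (g (.inl (τ1.symm (j, k))))) ∧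
          ∑ x, U a b (g (.inl x)) = D then
        (∏ j, ω1 fun k => U a b (g (.inl (τ1.symm (j, k))))) *
          ∏ j, ω2 fun k => U a b (g (.inr (τ2.symm (j, k)))) else 0 := fun g hg => by
    have i2 : ∀ j, I c fun k => U a b (g (.inr (τ2.symm (j, k)))) := fun j => by
      obtain ⟨k, k', h, h1, h2⟩ := two (p := fun k => S (τ2.symm (j, k)).1) (O2 j)
      have l : ∀ x : Bx b, S x.1 → U a b (g (.inr x)) < c := fun x hx => by
        have := U_lt a b (g (.inr x))
        rw [hg] at this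
        exact this.trans_le (hab _ hx)
      exact ⟨k, k', h, l _ h1, l _ h2⟩
    rw [prodm, Polynomial.coeff_monomial, Fintype.sum_sum_type, Fintype.prod_sum_type]
    change (if (∑ j, d fun k => U a b (g (.inl (τ1.symm (j, k))))) +
        (∑ j, d fun k => U a b (g (.inr (τ2.symm (j, k))))) = _ then
      (∏ j, f fun k => U a b (g (.inl (τ1.symm (j, k))))) *
        ∏ j, f fun k => U a b (g (.inr (τ2.symm (j, k)))) else 0) = _
    simp only [d, f, i2, if_true, sum_const, card_univ, smul_eq_mul, add_left_inj]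
    by_cases h : ∀ j, ¬ I c fun k => U a b (g (.inl (τ1.symm (j, k))))
    · simp only [h, if_false, not_false_eq_true, implies_true, true_and]
      rw [← Fintype.sum_prod_type' fun j k => U a b (g (.inl (τ1.symm (j, k)))),
        Equiv.sum_comp τ1.symm fun x => U a b (g (.inl x))]
    · obtain ⟨j, hj⟩ := not_forall.1 h
      refine (if_neg (Nat.lt_of_succ_le (le_trans ?_ (single_le_sum (fun _ _ => Nat.zero_le _)
        (mem_univ j)))).ne').trans (if_neg fun k => h k.1).symm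
      rw [if_pos (not_not.1 hj)]
  intro h0
  have h1 := congrArg (fun p => Polynomial.coeff p (D + Fintype.card α' * (D + 1))) h0
  simp only [Ev, Polynomial.finsetSum_coeff, Polynomial.coeff_intCast_mul,
    Polynomial.coeff_zero] at h1
  refine mul_ne_zero E1 E2 (Eq.trans ?_ h1)
  rw [Ev, Ev, sum_mul_sum, ← sum_product']
  have r : ∀ p ∈ (univ.filter fun g : Perm (Bx a) => ∀ x, (g x).1 = x.1) ×ˢ
      (univ.filter fun g : Perm (Bx b) => ∀ x, (g x).1 = x.1),
      ∀ x, V a b (Perm.sumCongrHom _ _ p x) = V a b x := fun p hp => by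
    simp only [mem_product, mem_filter, mem_univ, true_and] at hp
    rintro (x | x)
    · exact hp.1 x
    · exact hp.2 x
  refine sum_of_injOn (Perm.sumCongrHom _ _) Perm.sumCongrHom_injective.injOn
    (fun p hp => mem_filter.2 ⟨mem_univ _, r p hp⟩) (fun g hg hn => ?_) fun p hp => ?_
  · have hg := (mem_filter.1 hg).2
    rw [key g hg, if_neg, mul_zero]
    rintro ⟨-, h⟩
    obtain ⟨g1, k1, k2⟩ := (hI a (fun x => U a b (g (.inl x))) fun x y e1 e2 =>
      Sum.inl_injective (g.injective (inj ((hg _).trans (e1.trans (hg (.inl y)).symm)) e2))).2 h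
    obtain ⟨p, rfl⟩ := Perm.mem_sumCongrHom_range_of_perm_mapsTo_inl (σ := g) (by
      rintro _ ⟨x, rfl⟩
      exact ⟨g1 x, inj ((k1 x).trans (hg (.inl x)).symm) (k2 x).symm⟩)
    exact hn ⟨p, mem_product.2 ⟨mem_filter.2 ⟨mem_univ _, fun x => hg (.inl x)⟩,
      mem_filter.2 ⟨mem_univ _, fun x => hg (.inr x)⟩⟩, rfl⟩
  · rw [key _ (r p hp), Perm.sumCongrHom_apply, Perm.sign_sumCongr, Units.val_mul,
      mul_mul_mul_comm]
    simp only [Int.cast_id]
    refine congrArg _ ?_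
    split_ifs with h
    · rfl
    · by_contra h2
      refine h ⟨fun j ⟨k, k', e, l1, l2⟩ => h2 ?_, Equiv.sum_comp p.1 fun x => (x.2 : ℕ)⟩
      exact mul_eq_zero_of_left (prod_eq_zero (mem_univ j) (A1.2 _ k k' e l1 l2)) _

end MP7ebc2a.AA
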