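import Pool.Agent.Lib.AA25.Blue3

/-! Block ALTD: columns that contain all left rows do not see a unitriangular matrix. -/

namespace MP7ebc2a.AA
open Equiv Finset

namespace DALTD

variable {B S : Type} [Fintype B] [DecidableEq B]

/-- the matrix whose determinant is the alternating sum over the column permutations -/
def mt (r : B → S) (k : B → ℕ) (V : Matrix S S ℂ) (P : B → S) : Matrix B B ℂ :=
  Matrix.of fun y x => if k y = k x then V (P x) (r y) else 0

theorem det_mt (r : B → S) (k : B → ℕ) (V : Matrix S S ℂ) (P : B → S) :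
    ∑ g : Perm B with ∀ x, k (g x) = k x, (((Perm.sign g : ℤˣ) : ℤ) : ℂ) * ∏ x, V (P x) (r (g x)) =
      (mt r k V P).det := by
  rw [Matrix.det_apply', sum_filter]
  refine sum_congr rfl fun g _ => ?_
  by_cases h : ∀ x, k (g x) = k x
  · rw [if_pos h]
    refine congrArg _ (prod_congr rfl fun x _ => ?_)
    simp only [mt, Matrix.of_apply, if_pos (h x)]
  · rw [if_neg h]
    obtain ⟨x, hx⟩ := not_forall.1 h
    rw [prod_eq_zero (mem_univ x) (by simp only [mt, Matrix.of_apply, if_neg hx]), mul_zero]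

theorem swap [Fintype S] (r : B → S) (k : B → ℕ) (V : Matrix S S ℂ) (H : (B → S) → ℂ) :
    ∑ g : Perm B with ∀ x, k (g x) = k x, (((Perm.sign g : ℤˣ) : ℤ) : ℂ) *
      ∑ P : B → S, H P * ∏ x, V (P x) (r (g x)) = ∑ P : B → S, H P * (mt r k V P).det := by
  simp only [mul_sum]
  rw [sum_comm]
  refine sum_congr rfl fun P _ => ?_
  rw [← det_mt, mul_sum]
  exact sum_congr rfl fun g _ => by ring

theorem delta [Fintype S] [DecidableEq S] (H : (B → S) → ℂ) (Q : B → S) :
    ∑ P : B → S, H P * ∏ x, (1 : Matrix S S ℂ) (P x) (Q x) = H Q := by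
  rw [sum_eq_single Q]
  · simp
  · intro P _ hP
    obtain ⟨x, hx⟩ := Function.ne_iff.1 hP
    have h0 : ∏ y, (1 : Matrix S S ℂ) (P y) (Q y) = 0 :=
      prod_eq_zero (f := fun y => (1 : Matrix S S ℂ) (P y) (Q y)) (mem_univ x) (Matrix.one_apply_ne hx)
    rw [h0, mul_zero]
  · intro h
    exact absurd (mem_univ Q) h

variable {J : Type} [DecidableEq J] {s : ℕ}

/-- the weight of a row -/
def wt : Fin s ⊕ J → ℕ := Sum.elim (fun a => (a : ℕ)) fun _ => 0

theorem off {U : Matrix (Fin s) (Fin s) ℂ} (h0 : ∀ i j, i < j → U i j = 0) {a b : Fin s ⊕ J}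
    (hab : a ≠ b) (hw : wt a ≤ wt b) : Matrix.fromBlocks U 0 0 (1 : Matrix J J ℂ) a b = 0 := by
  rcases a with a | a <;> rcases b with b | b
  · have h1 : a ≠ b := fun h => hab (congrArg _ h)
    exact h0 a b (lt_of_le_of_ne hw h1)
  · rfl
  · rfl
  · have h1 : a ≠ b := fun h => hab (congrArg _ h)
    exact Matrix.one_apply_ne h1

theorem dia {U : Matrix (Fin s) (Fin s) ℂ} (h1 : ∀ i, U i i = 1) (a : Fin s ⊕ J) :
    Matrix.fromBlocks U 0 0 (1 : Matrix J J ℂ) a a = 1 := by
  rcases a with a | a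
  · exact h1 a
  · exact Matrix.one_apply_eq a

theorem det_one {r : B → Fin s ⊕ J} {k : B → ℕ} {U : Matrix (Fin s) (Fin s) ℂ}
    (hi : ∀ x y, r x = r y → k x = k y → x = y) (h0 : ∀ i j, i < j → U i j = 0)
    (h1 : ∀ i, U i i = 1) : (mt r k (Matrix.fromBlocks U 0 0 (1 : Matrix J J ℂ)) r).det = 1 := by
  have z : ∀ y x, y ≠ x → wt (r x) ≤ wt (r y) →
      mt r k (Matrix.fromBlocks U 0 0 (1 : Matrix J J ℂ)) r y x = 0 := fun y x hyx hw => by
    simp only [mt, Matrix.of_apply]
    split_ifs with h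
    · exact off h0 (fun e => hyx (hi y x e.symm h)) hw
    · rfl
  have hb : (mt r k (Matrix.fromBlocks U 0 0 (1 : Matrix J J ℂ)) r).BlockTriangular
      fun y => wt (r y) := fun y x h => z y x (fun e => by subst e; exact lt_irrefl _ h) h.le
  rw [hb.det]
  refine prod_eq_one fun a _ => ?_
  have e : (mt r k (Matrix.fromBlocks U 0 0 (1 : Matrix J J ℂ)) r).toSquareBlock
      (fun y => wt (r y)) a = 1 := by
    ext y x
    rw [Matrix.toSquareBlock_def, Matrix.of_apply]
    by_cases h : y = x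
    · subst h
      rw [Matrix.one_apply_eq]
      simp only [mt, Matrix.of_apply, if_true]
      exact dia h1 _
    · rw [Matrix.one_apply_ne h]
      exact z _ _ (fun e => h (Subtype.ext e)) (le_of_eq (x.2.trans y.2.symm))
  rw [e, Matrix.det_one]

omit [DecidableEq B] in
theorem fac {r : B → Fin s ⊕ J} {k : B → ℕ} (U : Matrix (Fin s) (Fin s) ℂ)
    (hi : ∀ x y, r x = r y → k x = k y → x = y) (hs : ∀ x a, ∃ y, k y = k x ∧ r y = .inl a)
    (P : B → Fin s ⊕ J) : mt r k (Matrix.fromBlocks U 0 0 (1 : Matrix J J ℂ)) P =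
      mt r k (Matrix.fromBlocks U 0 0 (1 : Matrix J J ℂ)) r * mt r k 1 P := by
  ext z x
  rw [Matrix.mul_apply]
  simp only [mt, Matrix.of_apply]
  by_cases h : ∃ y, k y = k x ∧ r y = P x
  · obtain ⟨y, hy, hr⟩ := h
    rw [sum_eq_single y]
    · rw [if_pos hy, hr, Matrix.one_apply_eq, mul_one, hy]
    · intro y' _ hne
      by_cases h' : k y' = k x
      · rw [if_pos h', Matrix.one_apply_ne fun e => hne (hi y' y (e.symm.trans hr.symm)
          (h'.trans hy.symm)), mul_zero]
      · rw [if_neg h', mul_zero]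
    · intro h'
      exact absurd (mem_univ y) h'
  · rw [sum_eq_zero]
    · split_ifs with h'
      · rcases hP : P x with a | j
        · obtain ⟨y, hy, hr⟩ := hs x a
          exact absurd ⟨y, hy, hr.trans hP.symm⟩ h
        · rcases hz : r z with b | j'
          · rfl
          · exact Matrix.one_apply_ne fun e => h ⟨z, h', by rw [hz, hP, e]⟩
      · rfl
    · intro y _
      by_cases h' : k y = k x
      · rw [if_pos h', Matrix.one_apply_ne fun e => h ⟨y, h', e.symm⟩, mul_zero]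
      · rw [if_neg h', mul_zero]

end DALTD

theorem st_ALTD : St_ALTD := by
  intro B J _ _ _ _ s r k U H hi hs h0 h1
  rw [DALTD.swap]
  have e : ∀ g : Perm B, (H fun x => r (g x)) =
      ∑ P : B → Fin s ⊕ J, H P * ∏ x, (1 : Matrix (Fin s ⊕ J) (Fin s ⊕ J) ℂ) (P x) (r (g x)) :=
    fun g => (DALTD.delta H fun x => r (g x)).symm
  simp only [e]
  rw [DALTD.swap]
  refine sum_congr rfl fun P _ => ?_
  rw [DALTD.fac U hi hs P, Matrix.det_mul, DALTD.det_one hi h0 h1, one_mul]

end MP7ebc2a.AA
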