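import Pool.Agent.Lib.AA25.Blue3

/-! Degree three: a capped part of the supply. -/

namespace MP7ebc2a.AA
open Finset

theorem st_CAP : St_CAP := by
  classical
  intro h G γ z M h2 hR hγ hz hM
  have hm : ∀ i ≤ z, h ^ (1995 - max γ 1000) ≤ mu h i := fun i hi => by
    have h0 : 0 < h := by omega
    rw [mu, Nat.le_div_iff_mul_le (lt_max_of_lt_right (pow_pos h0 _))]
    have : max i (h ^ 1000) ≤ h ^ max γ 1000 := max_le ((hi.trans hz).trans
      (Nat.pow_le_pow_right h0 (le_max_left _ _))) (Nat.pow_le_pow_right h0 (le_max_right _ _))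
    refine (Nat.mul_le_mul_left _ this).trans ?_
    rw [← pow_add, Nat.sub_add_cancel (max_le hγ (by omega))]
  have hz' : z ≤ h ^ 1995 := hz.trans (Nat.pow_le_pow_right (by omega) hγ)
  generalize h ^ (1995 - max γ 1000) = m at hm
  set F := (range (z + 1)).filter G with hF
  have mem : ∀ i, i ∈ F ↔ i ≤ z ∧ G i := fun i => by rw [hF, mem_filter, mem_range, Nat.lt_succ_iff]
  have c1 : ∀ i ∈ F, (m • F.val).count i = m := fun i hi => by
    rw [Multiset.count_nsmul, Multiset.count_eq_one_of_mem F.nodup hi, mul_one]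
  have c0 : ∀ i ∉ F, (m • F.val).count i = 0 := fun i hi => by
    rw [Multiset.count_nsmul, Multiset.count_eq_zero_of_notMem hi, mul_zero]
  have key : ∀ u k, 22 ≤ u → u + k * h ≤ z →
      k ≤ (F.filter fun x => u ≤ x ∧ x < u + k * h).card := fun u k hu => by
    induction k with
    | zero => exact fun _ => Nat.zero_le _
    | succ k ih =>
      intro hk
      rw [add_mul, one_mul] at hk ⊢
      obtain ⟨i, a, b, g⟩ := hR.1 (u + k * h) (by omega) (by omega)
      refine (ih (by omega)).trans_lt (card_lt_card ⟨fun x hx => ?_, fun e => ?_⟩)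
      · rw [mem_filter] at hx ⊢
        exact ⟨hx.1, hx.2.1, by omega⟩
      · have := (mem_filter.1 (e (mem_filter.2
          ⟨(mem i).2 ⟨by omega, g⟩, by omega, by omega⟩))).2.2
        omega
  refine ⟨m • F.val, Multiset.le_iff_count.2 fun i => ?_, fun i => ?_, fun u k hu hk => ?_,
    fun u hu h3 hz => (c1 u ((mem u).2 ⟨hz, hR.2 u hu h3⟩)).ge⟩
  · by_cases e : i ∈ F
    · rw [c1 i e]
      exact (hm i ((mem i).1 e).1).trans (hM i ((mem i).1 e).2 ((mem i).1 e).1)
    · rw [c0 i e]; exact Nat.zero_le _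
  · by_cases e : i ∈ F
    · rw [c1 i e]; exact hm i ((mem i).1 e).1
    · rw [c0 i e]; exact Nat.zero_le _
  · rw [Multiset.filter_nsmul, Multiset.card_nsmul, mul_comm]
    exact Nat.mul_le_mul_left _ (key u k hu hk)

end MP7ebc2a.AA
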