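import Pool.Agent.Lib.AA25.Blue3

/-! Degree three: chains of steps. -/

set_option linter.unusedVariables false

namespace MP7ebc2a.AA
open Equiv Finset

namespace DCHAIN

lemma ch (x : ℕ) (hx : 1 ≤ x) : x * x ≤ (3 * x / 2 + 1).choose 2 := by
  obtain ⟨a, ha⟩ : ∃ a, 3 * x / 2 = a := ⟨_, rfl⟩
  have h1 : 3 * x ≤ 2 * a + 1 := by omega
  rw [ha, Nat.choose_two_right, Nat.le_div_iff_mul_le (by norm_num), Nat.add_sub_cancel]
  nlinarith [Nat.mul_le_mul h1 h1]

lemma ap (x : ℕ) (hx : 2 ≤ x) : 22 ≤ AP (3 * x) ∧ AP (3 * x) ≤ 10 * (x * x) := by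
  have := AP_two (3 * x)
  constructor <;> nlinarith

lemma ldle (e : ℕ) : ld e ≤ 2 * e + 2 := Nat.add_le_add_right (Nat.sqrt_le_self _) 2

lemma dv {h : ℕ} (hh : 1 ≤ h) (l y : ℕ) : h ^ l / h ^ y + 1 ≤ 2 * h ^ (l - y) := by
  have h1 : 1 ≤ h ^ (l - y) := Nat.one_le_pow _ _ hh
  have h2 : h ^ l / h ^ y ≤ h ^ (l - y) := Nat.div_le_of_le_mul (by
    rw [← pow_add]; exact Nat.pow_le_pow_right hh (by omega))
  omega

lemma gs_ok : ∀ j < 1995, 450 ≤ j → chk [min ((j - 1) / 2 - 1) 840, min ((j - 1) / 2 - 2) 760,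
    min ((j - 1) / 2 - 3) 680, min ((j - 1) / 2 - 4) 600, min ((j - 1) / 2 - 5) 520]
    (min (j - 1) 1840) (min (j - 4) 1680) (l0 j) = true := by decide +kernel

end DCHAIN

open DCHAIN in
theorem st_CHAIN (hA : St_AR) (hU : St_UT) (hS : St_STEP) (hC : St_CAP) : St_CHAIN := by
  intro h G gs
  induction gs with
  | nil =>
    intro γ b l D M P hh hR hk hP hb hl hM
    have h1 : 1 ≤ h := by omega
    have pw : ∀ a a', a ≤ a' → h ^ a ≤ h ^ a' := fun a a' e => Nat.pow_le_pow_right h1 e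
    obtain ⟨k1, k2, k3⟩ : b ≤ 2 ∧ l ≤ 995 ∧ 4 ≤ γ := of_decide_eq_true hk
    obtain ⟨S, s1, s2, -, s4⟩ := hC h G 3 (h ^ 3) M (by omega) hR (by omega) le_rfl fun i gi hi => by
      have := hM i gi (by have := pw 3 γ (by omega); omega)
      rwa [List.length_nil, Nat.zero_add, Nat.one_mul] at this
    obtain ⟨a1, a2⟩ := ap h (by omega)
    have e2 : h ^ 2 = h * h := pow_two h
    have p2 : 1 ≤ h ^ 2 := Nat.one_le_pow _ _ h1
    have t : AP (3 * h) + h ^ 2 + ld (h ^ b) ≤ h ^ 3 := by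
      have := ldle (h ^ b)
      have := pw b 2 k1
      have := n0 hh 2 3 (by omega)
      omega
    obtain ⟨P', q1, -, q3, q4⟩ := hS (h ^ γ) (h ^ 2) (3 * h) (h ^ 2) (h ^ b) (h ^ l) (h ^ 995) 0 D S P
      (by omega) p2 hP hb (pw b 2 k1) (e2 ▸ ch h h1) (pw 2 γ (by omega)) hl
      (t.trans (pw 3 γ (by omega))) (by
        have d1 := Nat.mul_le_mul_left (3 * h) ((dv h1 l 2).trans
          (Nat.mul_le_mul_left 2 (pw (l - 2) 993 (by omega))))
        have d2 := n0 hh (993 + 1) 995 (by omega)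
        rw [pow_succ] at d2
        generalize h ^ 993 = x at d1 d2
        generalize h ^ 995 = y at d2 ⊢
        nlinarith) fun u u1 u2 => by
        refine (s4 u (a1.trans u1) (u2.trans t) (u2.trans t)).trans (le_of_eq ?_)
        rw [Multiset.count_eq_card_filter_eq]
        exact congrArg _ (Multiset.filter_congr fun x _ => by omega)
    have e : fs P' = tot P' := Multiset.map_congr rfl fun p hp => by have := q3 p hp; omega
    refine ⟨tot P', q1.trans s1, fun i => ?_, hA.gd _ _ (e ▸ q4)⟩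
    rw [List.length_nil, Nat.zero_add, Nat.one_mul]
    exact (Multiset.count_le_of_le i q1).trans (s2 i)
  | cons g gs ih =>
    intro γ b l D M P hh hR hk hP hb hl hM
    have h1 : 1 ≤ h := by omega
    have pw : ∀ a a', a ≤ a' → h ^ a ≤ h ^ a' := fun a a' e => Nat.pow_le_pow_right h1 e
    rw [chk, Bool.and_eq_true, decide_eq_true_eq] at hk
    obtain ⟨ν, hν⟩ : ∃ ν, l + 1 - γ + g + 1 = ν := ⟨_, rfl⟩
    obtain ⟨m, hm⟩ : ∃ m, 1995 - max (γ + 1) 1000 = m := ⟨_, rfl⟩
    rw [hν, hm] at hk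
    obtain ⟨⟨k1, k2, k3, k4, k5⟩, hk⟩ := hk
    rw [List.length_cons] at hM ⊢
    obtain ⟨S, s1, s2, s3, -⟩ := hC h G (γ + 1) (2 * h ^ γ) M (by omega) hR (by omega)
      (by have := n0 hh γ (γ + 1) (by omega); omega) fun i gi hi =>
        (Nat.le_mul_of_pos_left _ (by omega)).trans (hM i gi hi)
    rw [hm] at s3
    have g1 : h ≤ h ^ g := Nat.le_self_pow (by omega) h
    obtain ⟨a1, a2⟩ := ap (h ^ g) (by omega)
    have e2 : h ^ (2 * g) = h ^ g * h ^ g := by rw [two_mul, pow_add]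
    have p2 : 1 ≤ h ^ (γ - 1) := Nat.one_le_pow _ _ h1
    have t : AP (3 * h ^ g) + h ^ (γ - 1) + ld (h ^ b) ≤ h ^ γ := by
      have := ldle (h ^ b)
      have := pw b (γ - 1) (by omega)
      have := pw (2 * g) (γ - 1) (by omega)
      have := n0 hh (γ - 1) γ (by omega)
      omega
    obtain ⟨P', q1, q2, q3, q4⟩ := hS (h ^ γ) (h ^ (2 * g)) (3 * h ^ g) (h ^ (γ - 1)) (h ^ b) (h ^ l)
      (h ^ ν) (h ^ (ν - m + 1)) D S P (by omega) p2 hP hb (pw b _ k2) (e2 ▸ ch (h ^ g) (by omega))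
      (pw _ γ k1.le) hl t (by
        have d1 := Nat.mul_le_mul_left (3 * h ^ g) (dv h1 l (γ - 1))
        have d2 := n0 hh (g + (l - (γ - 1))) ν (by omega)
        rw [pow_add] at d2
        rw [mul_mul_mul_comm] at d1
        omega) fun u u1 u2 => by
        have d1 := pw _ _ k5
        have d2 := s3 u (h ^ (ν - m)) (a1.trans u1) (by rw [← pow_succ]; omega)
        rw [← pow_add, ← pow_succ] at d2
        exact ((pw ν _ (by omega)).trans d2).trans (Multiset.card_le_card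
          (Multiset.monotone_filter_right S fun x hx => ⟨hx.1, hx.2.le⟩))
    obtain ⟨U, u1, u2, u3⟩ := ih (2 * g) _ _ (D + tot P) (M - S) P' hh hR hk q4 q3 (by
      refine (hU.ldp h (ν - m + 1) (sn P') (by omega) fun e he => ?_).trans ?_
      · obtain ⟨p, hp, rfl⟩ := Multiset.mem_map.1 he
        exact q3 p hp
      · rw [sn, Multiset.card_map, add_assoc ν, pow_add h ν]
        exact Nat.mul_le_mul_right _ q2) fun i gi hi => by
      have d1 := hM i gi (by have := pw _ γ k1.le; omega)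
      have d2 := s2 i
      rw [Multiset.count_sub]
      rw [Nat.add_mul _ 1] at d1
      omega
    refine ⟨tot P' + U, (add_le_add q1 u1).trans (add_tsub_cancel_of_le s1).le, fun i => ?_,
      by rwa [← add_assoc]⟩
    have d1 := (Multiset.count_le_of_le i q1).trans (s2 i)
    have d2 := u2 i
    rw [Multiset.count_add, Nat.add_mul _ 1]
    omega

theorem st_ZONE (h : St_CHAIN) (hA : St_AR) : St_ZONE :=
  fun x G j D M P hh hR j1 j2 hP hb hl hM =>
    h x G _ _ _ _ D M P hh hR (DCHAIN.gs_ok j (by omega) j1) hP hb hl hM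

end MP7ebc2a.AA
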