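import Pool.Agent.Lib.AA25.Blue3

/-! Degree three: duality with the condition on the first columns. -/

namespace MP7ebc2a.AA
open Equiv Finset MvPolynomial

namespace DDUAL3

variable {β α : Type}

open Classical in
/-- the indicator of the condition -/
noncomputable def ind (p : β → Prop) (τ : β ≃ α × Fin 3) : ℤ := if One p τ then 1 else 0

lemma ind_congr {p : β → Prop} {τ τ' : β ≃ α × Fin 3} (h : One p τ ↔ One p τ') :
    ind p τ = ind p τ' := by
  rw [ind, ind, propext h]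

lemma ind_col {k : β → ℕ} {c : ℕ} {g : Perm β} (hg : ∀ x, k (g x) = k x) (τ : β ≃ α × Fin 3) :
    ind (fun x => k x < c) (g.trans τ) = ind (fun x => k x < c) τ := by
  have e : ∀ x, k (g.symm x) = k x := fun x => by rw [← hg, apply_symm_apply]
  exact ind_congr (by simp only [One, symm_trans_apply, e])

lemma ind_let (p : β → Prop) (w : Perm α) (τ : β ≃ α × Fin 3) :
    ind p (τ.trans (prodCongrLeft fun _ : Fin 3 => w)) = ind p τ :=
  ind_congr ⟨fun h j k k' => by simpa [prodCongrLeft] using h (w j) k k',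
    fun h j k k' => h (w.symm j) k k'⟩

lemma ind_slot (p : β → Prop) (σ : α → Perm (Fin 3)) (τ : β ≃ α × Fin 3) :
    ind p (τ.trans (prodCongrRight σ)) = ind p τ :=
  ind_congr ⟨fun h j k k' => by simpa [prodCongrRight] using h j (σ j k) (σ j k'),
    fun h j k k' a b => (σ j).symm.injective (h j _ _ a b)⟩

lemma ind_sq (p : β → Prop) (τ : β ≃ α × Fin 3) : ind p τ * ind p τ = ind p τ := by
  unfold ind
  split_ifs <;> simp

/-- two entries are below `c` -/
def Bad (c : ℕ) (t : Fin 3 → ℕ) : Prop := ∃ l l', l ≠ l' ∧ t l < c ∧ t l' < c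

open Classical in
/-- the alternating variable, with the bad triples removed -/
noncomputable def Yc (c : ℕ) (t : Fin 3 → ℕ) : MvPolynomial (Fin 3 → ℕ) ℤ :=
  if Bad c t then 0 else PROD.Y 1 t

lemma alt_Yc (c : ℕ) (x : (Fin 3 → ℕ) → ℤ) : Alt c fun t => eval x (Yc c t) := by
  refine ⟨fun σ t => ?_, fun t k k' h a b => ?_⟩
  · have e : Bad c (fun k => t (σ k)) ↔ Bad c t :=
      ⟨fun ⟨l, l', h, a, b⟩ => ⟨σ l, σ l', σ.injective.ne h, a, b⟩, fun ⟨l, l', h, a, b⟩ =>
        ⟨σ.symm l, σ.symm l', σ.symm.injective.ne h, by simpa using a, by simpa using b⟩⟩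
    have y := PROD.Y_perm 1 t σ.symm
    rw [symm_symm, Perm.sign_symm, pow_one] at y
    beta_reduce
    by_cases h : Bad c t
    · rw [Yc, Yc, if_pos h, if_pos (e.2 h), map_zero, mul_zero]
    · rw [Yc, Yc, if_neg h, if_neg (mt e.1 h), y, map_mul, eval_C, Int.cast_id]
  · beta_reduce
    rw [Yc, if_pos ⟨k, k', h, a, b⟩, map_zero]

lemma prod_Yc [Fintype α] (k : β → ℕ) (c : ℕ) (ρ : β ≃ α × Fin 3) :
    ∏ j, Yc c (fun l => k (ρ.symm (j, l))) = C (ind (fun x => k x < c) ρ) * PROD.W k 1 ρ := by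
  unfold ind
  split_ifs with h
  · rw [C_1, one_mul]
    exact prod_congr rfl fun j _ => if_neg fun ⟨l, l', e, a, b⟩ => e (h j l l' a b)
  · rw [C_0, zero_mul]
    simp only [One, not_forall] at h
    obtain ⟨j, l, l', a, b, e⟩ := h
    exact prod_eq_zero (mem_univ j) (if_pos ⟨l, l', e, a, b⟩)

lemma ev_ne [Fintype β] [DecidableEq β] [Fintype α] [DecidableEq α] {ι : Type} [DecidableEq ι]
    {r : β → ι} {k : β → ℕ} {c : ℕ} {φ : (β ≃ α × Fin 3) → ℤ} {τ : β ≃ α × Fin 3}
    (h1 : ∀ g : Perm β, (∀ x, k (g x) = k x) → ∀ τ, φ (g.trans τ) = φ τ)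
    (h2 : ∀ (w : Perm α) τ, φ (τ.trans (prodCongrLeft fun _ : Fin 3 => w)) = φ τ)
    (h3 : ∀ (σ : α → Perm (Fin 3)) τ, φ (τ.trans (prodCongrRight σ)) =
      (∏ j, ((Perm.sign (σ j) : ℤˣ) : ℤ)) * φ τ)
    (h5 : ∀ τ, ind (fun x => k x < c) τ * φ τ = φ τ) (h4 : alt r φ τ ≠ 0) :
    Ev k r (Yc c) τ ≠ 0 := by
  refine fun h => h4 ?_
  have h' : ∑ g : Perm β with ∀ x, r (g x) = r x, C ((Perm.sign g : ℤˣ) : ℤ) *
      (C (ind (fun x => k x < c) (g.trans τ)) * PROD.W k 1 (g.trans τ)) = 0 := by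
    refine Eq.trans (sum_equiv (Equiv.inv _) (fun g => ?_) fun g _ => ?_) h
    · simp only [mem_filter, mem_univ, true_and, inv_apply]
      exact ⟨fun h x => by rw [← h]; simp, fun h x => by rw [← h]; simp⟩
    · rw [← prod_Yc, inv_apply, Perm.sign_inv, eq_intCast]
      rfl
  have := st_FIB ((univ.filter fun g : Perm β => ∀ x, r (g x) = r x) ×ˢ
      (univ : Finset (α → Perm (Fin 3))))
    (fun i => ((Perm.sign i.1 : ℤˣ) : ℤ) * (ind (fun x => k x < c) (i.1.trans τ) *
      ∏ j, ((Perm.sign (i.2 j) : ℤˣ) : ℤ)))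
    (fun i j l => k (((i.1.trans τ).trans (prodCongrRight i.2)).symm (j, l)))
    (fun i => φ ((i.1.trans τ).trans (prodCongrRight i.2))) (by
      rw [← h', sum_product]
      refine sum_congr rfl fun g _ => ?_
      simp only [PROD.W, PROD.Y, prod_univ_sum, Fintype.piFinset_univ, mul_sum, pow_one]
      refine sum_congr rfl fun σ _ => ?_
      rw [prod_mul_distrib, ← map_prod, C_mul, C_mul, mul_assoc, mul_assoc]
      rfl) (fun i _ i' _ w hw => by
      generalize (i.1.trans τ).trans (prodCongrRight i.2) = ρ at hw ⊢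
      generalize (i'.1.trans τ).trans (prodCongrRight i'.2) = ρ' at hw ⊢
      refine Eq.trans (congrArg φ ?_) ((h1 (ρ.trans (ρ'.trans (prodCongrLeft fun _ => w.symm)).symm)
        (fun x => (congrFun (hw (ρ x).1) (ρ x).2).trans (by simp)) _).trans (h2 w.symm ρ'))
      rw [Equiv.trans_assoc, symm_trans_self, trans_refl])
  rw [sum_product] at this
  have e : ∀ (g : Perm β) (σ : α → Perm (Fin 3)), ((Perm.sign g : ℤˣ) : ℤ) *
      (ind (fun x => k x < c) (g.trans τ) * ∏ j, ((Perm.sign (σ j) : ℤˣ) : ℤ)) *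
        φ ((g.trans τ).trans (prodCongrRight σ)) =
      ((Perm.sign g : ℤˣ) : ℤ) * φ (g.trans τ) := fun g σ => by
    rw [h3, mul_assoc, mul_assoc, ← mul_assoc (∏ _, _), ← Units.coe_prod, DUAL.usq, one_mul, h5]
  simp only [e, sum_const, nsmul_eq_mul, ← mul_sum] at this
  exact (mul_eq_zero.1 this).resolve_left (Nat.cast_ne_zero.2 (card_ne_zero_of_mem (mem_univ 1)))

end DDUAL3

open DUAL DDUAL3 in
theorem st_DUAL3 (hE : St_EV) : St_DUAL3 := by
  intro β α ι _ _ _ _ _ r k p c φ τ0 h1 h2 h3 h4 h5 h6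
  let s : (β ≃ α × Fin 3) → ℤ := fun τ => ((Perm.sign (τ.trans τ0.symm) : ℤˣ) : ℤ)
  have s1 : ∀ (g : Perm β) τ, s (g.trans τ) = (Perm.sign g : ℤˣ) * s τ := fun g τ => by
    simp only [s]
    rw [Equiv.trans_assoc, Perm.sign_trans, Units.val_mul, mul_comm]
  have s2 : ∀ (p : Perm (α × Fin 3)) τ, s (τ.trans p) = (Perm.sign p : ℤˣ) * s τ := fun p τ => by
    simp only [s]
    rw [← Perm.sign_permCongr τ0.symm p, ← Units.val_mul, ← Perm.sign_trans]
    congr 2
    ext x
    simp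
  let A : (β ≃ α × Fin 3) → ℤ := fun τ => ind (fun x => k x < c) τ * alt k φ τ
  have ex : ∃ τ, φ τ ≠ 0 ∧ alt r (fun τ => s τ * A τ) τ ≠ 0 := by
    by_contra! h
    have a5 : ∀ τ, φ τ * ∑ g : Perm β with ∀ x, r (g x) = r x, A (g.trans τ) = 0 := fun τ => by
      rcases eq_or_ne (φ τ) 0 with e | e
      · rw [e, zero_mul]
      refine mul_eq_zero_of_right _ ((mul_eq_zero.1 (Eq.trans ?_ (h τ e))).resolve_left
        (Units.ne_zero (Perm.sign (τ.trans τ0.symm))))
      rw [mul_sum]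
      exact sum_congr rfl fun r _ => by
        beta_reduce
        rw [s1, ← mul_assoc (Perm.sign r : ℤ), ← mul_assoc (Perm.sign r : ℤ), usq, one_mul]
    have a6 : ∑ τ, φ τ * A τ = 0 := by
      have := sum_eq_zero fun τ (_ : τ ∈ univ) => a5 τ
      simp only [mul_sum] at this
      rw [sum_comm, sum_congr rfl (g := fun _ => ∑ τ, φ τ * A τ) fun g hg => by
        rw [← shift (fun τ => φ τ * A τ) g]
        exact sum_congr rfl fun τ _ => by rw [h1 g (mem_filter.1 hg).2], sum_const,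
        nsmul_eq_mul] at this
      exact (mul_eq_zero.1 this).resolve_left
        (Nat.cast_ne_zero.2 (card_ne_zero_of_mem (a := 1) (by simp)))
    have a7 : ∑ τ, alt k φ τ * A τ = 0 := by
      conv_lhs => enter [2, τ, 1]; unfold alt
      simp only [sum_mul]
      rw [sum_comm]
      refine sum_eq_zero fun g hg => Eq.trans (sum_congr rfl fun τ _ => ?_)
        ((shift (fun τ => φ τ * A τ) g).trans a6)
      simp only [A]
      rw [← alt_trans k φ g (mem_filter.1 hg).2 τ, ind_col (mem_filter.1 hg).2]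
      linear_combination (φ (g.trans τ) * ind (fun x => k x < c) τ * alt k φ (g.trans τ)) *
        usq (Perm.sign g)
    have a8 := (sum_eq_zero_iff_of_nonneg fun τ _ => show 0 ≤ alt k φ τ * A τ by
      simp only [A, ind]
      split_ifs
      · rw [one_mul]
        exact mul_self_nonneg _
      · simp).1 a7 τ0 (mem_univ _)
    simp only [A, ind, if_pos h5, one_mul] at a8
    exact h4 (mul_self_eq_zero.1 a8)
  obtain ⟨τ, t1, t2⟩ := ex
  have t3 : Ev k r (Yc c) τ ≠ 0 := by
    refine ev_ne (fun g hg τ => ?_) (fun w τ => ?_) (fun σ τ => ?_) (fun τ => ?_) t2 <;>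
      simp only [A]
    · rw [s1, ← alt_trans k φ g hg τ, ind_col hg]
      ring
    · rw [s2, alt_right k φ _ _ (h2 w), Perm.sign_prodCongrLeft, ind_let]
      simp only [prod_const, card_univ, Fintype.card_fin, Units.val_pow_eq_pow_val]
      linear_combination (s τ * ind (fun x => k x < c) τ * alt k φ τ *
        (((Perm.sign w : ℤˣ) : ℤ) ^ 2 + 1)) * usq (Perm.sign w)
    · rw [s2, alt_right k φ _ 1 (fun τ => by rw [h3, one_mul]), Perm.sign_prodCongrRight,
        Units.coe_prod, ind_slot]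
      ring
    · linear_combination (s τ * alt k φ τ) * ind_sq (fun x => k x < c) τ
  obtain ⟨x, hx⟩ : ∃ x, eval x (Ev k r (Yc c) τ) ≠ 0 := by
    by_contra! h
    exact t3 (MvPolynomial.funext fun x => (h x).trans (map_zero _).symm)
  exact ⟨τ, _, alt_Yc c x, hE.map (eval x) k r (Yc c) τ ▸ hx, h6 τ t1⟩

end MP7ebc2a.AA
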