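import Pool.Agent.Lib.AA25.Blue3

/-! Row FORM: the rows above `lo` are cut into pyramids. -/

namespace MP7ebc2a.AA
open Equiv Finset

namespace DFORM

lemma AP_succ (p : ℕ) : AP (p + 1) = AP p + p + 2 := by
  have h1 := AP_two p
  have h2 := AP_two (p + 1)
  nlinarith

lemma card_tot (P : Multiset (ℕ × ℕ)) : (tot P).card = P.card := by simp [tot]

lemma mem_sub_of_notMem {M U : Multiset ℕ} {x : ℕ} (hx : x ∈ M) (hU : x ∉ U) : x ∈ M - U := by
  rw [← Multiset.count_pos, Multiset.count_sub, Multiset.count_eq_zero.2 hU]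
  exact Multiset.count_pos.2 hx

lemma filt_le (M U : Multiset ℕ) (hU : U ≤ M) (p : ℕ → Prop) [DecidablePred p]
    (h : ∀ x ∈ M - U, ¬ p x) : (M.filter p).card = (U.filter p).card := by
  have e : M = U + (M - U) := (add_tsub_cancel_of_le hU).symm
  have z : (M - U).filter p = 0 := Multiset.filter_eq_nil.2 h
  calc (M.filter p).card = ((U + (M - U)).filter p).card := by rw [← e]
    _ = (U.filter p).card := by rw [Multiset.filter_add, z, add_zero]

/-- the top block -/
lemma topb (hU : St_UT) {h lo z Q hi : ℕ} {M : Multiset ℕ} (h1 : ∀ x ∈ M, x ≤ hi)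
    (h2 : 2 * hi < Q ^ 2) (h3 : Dens h lo z M) (h4 : lo ≤ z) (h5 : 2 * ((Q + 1) * h) ≤ lo)
    {x1 : ℕ} (m1 : x1 ∈ M) (l1 : lo ≤ x1) :
    ∃ p U x', p < Q ∧ U ≤ M ∧ U.card = p ∧ (∀ a ∈ U, AP p ≤ a ∧ ∀ b ∈ M - U, b ≤ a) ∧
      x' ∈ M - U ∧ (∀ b ∈ M - U, b ≤ x') ∧ x' < AP (p + 1) ∧ min x1 z ≤ x' + (Q + 1) * h := by
  classical
  obtain ⟨p, hp⟩ : ∃ p, p = Nat.findGreatest
      (fun p => p ≤ (M.filter fun x => AP p ≤ x).card) Q := ⟨_, rfl⟩
  have p1 : p ≤ Q := hp ▸ Nat.findGreatest_le Q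
  have p2 : p ≤ (M.filter fun x => AP p ≤ x).card := by
    rw [hp]
    exact Nat.findGreatest_spec (P := fun p => p ≤ (M.filter fun x => AP p ≤ x).card)
      (Nat.zero_le Q) (Nat.zero_le _)
  have Q0 : 0 < Q := by
    rcases Nat.eq_zero_or_pos Q with e | e
    · subst e; simp at h2
    · exact e
  have p3 : p < Q := by
    refine lt_of_le_of_ne p1 fun e => ?_
    subst e
    obtain ⟨x, hx⟩ := Multiset.card_pos_iff_exists_mem.1 (Q0.trans_le p2)
    obtain ⟨a1, a2⟩ := Multiset.mem_filter.1 hx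
    have := h1 x a1
    have := AP_two p
    nlinarith
  have p4 : ¬ (p + 1 ≤ (M.filter fun x => AP (p + 1) ≤ x).card) :=
    Nat.findGreatest_is_greatest (P := fun p => p ≤ (M.filter fun x => AP p ≤ x).card)
      (n := Q) (by omega) (by omega)
  obtain ⟨U, u1, u2, u3⟩ := EX.top M p
    (p2.trans (Multiset.card_le_card (Multiset.filter_le _ _)))
  have hm := hU.many h lo z (min x1 z) (Q + 1) M h3 (min_le_right _ _) ⟨x1, m1, min_le_left _ _⟩
    (by omega) (by omega)
  have ex : ∃ y ∈ M - U, min x1 z ≤ y + (Q + 1) * h := by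
    by_contra hc
    push Not at hc
    rw [filt_le M U u1 _ fun x hx hh => absurd hh.1 (not_le.2 (hc x hx))] at hm
    have := Multiset.card_le_card (Multiset.filter_le
      (fun x => min x1 z ≤ x + (Q + 1) * h ∧ x < min x1 z) U)
    omega
  obtain ⟨y, y1, y2⟩ := ex
  have hne : M - U ≠ 0 := fun e => by simp [e] at y1
  obtain ⟨x', a1, a2⟩ := Multiset.exists_max_image id hne
  refine ⟨p, U, x', p3, u1, u2, fun a ha => ⟨?_, u3 a ha⟩, a1, a2, ?_, ?_⟩
  · by_contra hc
    rw [filt_le M U u1 _ fun x hx hh => by have := u3 a ha x hx; omega] at p2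
    have : (U.filter fun x => AP p ≤ x) < U :=
      lt_of_le_of_ne (Multiset.filter_le _ _) fun e =>
        hc (Multiset.filter_eq_self.1 e a ha)
    have := Multiset.card_lt_card this
    omega
  · by_contra hc
    apply p4
    have hle : x' ::ₘ U ≤ M.filter fun x => AP (p + 1) ≤ x := by
      refine Multiset.le_filter.2 ⟨?_, fun a ha => ?_⟩
      · rw [← Multiset.singleton_add]
        exact (le_tsub_iff_right u1).1 (Multiset.singleton_le.2 a1)
      · rcases Multiset.mem_cons.1 ha with rfl | ha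
        · omega
        · have := u3 a ha x' a1
          omega
    have := Multiset.card_le_card hle
    rw [Multiset.card_cons] at this
    omega
  · have : y ≤ x' := a2 y y1
    omega

lemma dens_sub {h lo z : ℕ} {M U : Multiset ℕ} (h3 : Dens h lo z M)
    (u : ∀ a ∈ U, ∀ b ∈ M - U, b ≤ a) : Dens h lo z (M - U) := by
  rintro v v1 v2 ⟨y, y1, y2⟩
  obtain ⟨x, x1, x2, x3⟩ := h3 v v1 v2 ⟨y, Multiset.mem_of_le tsub_le_self y1, y2⟩
  refine ⟨x, mem_sub_of_notMem x1 fun hx => ?_, x2, x3⟩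
  have := u x hx y y1
  omega

end DFORM

open DFORM in
theorem st_FORM (hA : St_AR) (hT : St_TX) (hU : St_UT) : St_FORM := by
  intro h lo z w Q c hi M h1 h2 h3 h4 h5 h6 h7 h8
  induction hn : M.card using Nat.strong_induction_on generalizing M hi with
  | _ n ih =>
  by_cases hb : ∀ x ∈ M, x < lo
  · refine ⟨0, 0, M, by simp [tot], ?_, by simp, by simp [sn], by simp, fun _ => rfl, hb,
      by simp [tot]⟩
    simpa [fs] using hA.zero c 0 0
  push Not at hb
  obtain ⟨x0, m0, l0⟩ := hb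
  have hne : M ≠ 0 := fun e => by simp [e] at m0
  obtain ⟨x1, m1, m2⟩ := Multiset.exists_max_image id hne
  have m2' : ∀ x ∈ M, x ≤ x1 := m2
  have l1 : lo ≤ x1 := l0.trans (m2' x0 m0)
  obtain ⟨p, U, x', p1, u1, u2, u3, a1, a2, a3, a4⟩ := topb hU h1 h2 h3 h4 h5 m1 l1
  have aM : x' ∈ M := Multiset.mem_of_le tsub_le_self a1
  have b1 : x' ≤ x1 := m2' x' aM
  have b2 : x1 ≤ hi := h1 x1 m1
  have b3 : lo ≤ 2 * x' := by omega
  have b4 := AP_succ p
  have p0 : 1 ≤ p := by
    rcases Nat.eq_zero_or_pos p with e | e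
    · subst e
      have : AP (0 + 1) = 3 := by decide
      omega
    · exact e
  have hc : (M - U).card < n := by
    have := Multiset.card_le_card u1
    rw [Multiset.card_sub u1]
    omega
  obtain ⟨P, L, M', e1, e2, e3, e4, e5, e6, e7, e8⟩ := ih _ hc x' (M - U) a2 (by omega)
    (dens_sub h3 fun a ha => (u3 a ha).2) rfl
  have eM : M = U + (tot P + L + M') := by rw [← e1, add_tsub_cancel_of_le u1]
  have sM : ∀ y ∈ M', y ∈ M - U := fun y hy => by rw [e1]; exact Multiset.mem_add.2 (Or.inr hy)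
  have uu : ∀ x ∈ U, lo ≤ 2 * x ∧ ∀ y ∈ M', y ≤ x := fun x hx =>
    ⟨by have := (u3 x hx).2 x' a1; omega, fun y hy => (u3 x hx).2 y (sM y hy)⟩
  obtain ⟨d, hd⟩ := Nat.exists_eq_add_of_le b1
  have q1 : Q * x1 ≤ Q * hi := Nat.mul_le_mul_left _ b2
  have q2 : Q * x1 = Q * x' + Q * d := by rw [hd, mul_add]
  by_cases ht : x1 ≤ x' + w
  · obtain ⟨O, o1, o2, o3⟩ := hT.cpt p c 0 p0 (hU.cP lo c p h7 h8 (by omega)) (by simp)
    obtain ⟨P0, r1, r2, r3⟩ := hU.pair (d + Q + 2) O U (by omega) fun o ho b hb => by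
      have := o2 o ho
      simp only [Multiset.map_zero, Multiset.sum_zero, add_zero] at this
      have := (u3 b hb).1
      have := m2' b (Multiset.mem_of_le u1 hb)
      omega
    have c0 : P0.card = p := by rw [← card_tot, r2, u2]
    have s0 : (sn P0).sum ≤ p * (d + Q + 2) := by
      have := Multiset.sum_le_card_nsmul (sn P0) (d + Q + 2) fun x hx => by
        obtain ⟨q, hq, rfl⟩ := Multiset.mem_map.1 hx
        exact r3 q hq
      simpa [sn, c0] using this
    refine ⟨P0 + P, L, M', ?_, ?_, fun q hq => ?_, ?_, ?_, fun hz => e6 (by omega), e7,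
      fun x hx => ?_⟩
    · rw [eM, ← r2]
      simp only [tot, Multiset.map_add]
      abel
    · have := hA.add c 0 O 0 (fs P) o3 e2
      rw [← r1] at this
      simpa [fs] using this
    · rcases Multiset.mem_add.1 hq with hq | hq
      · have := r3 q hq
        omega
      · exact e3 q hq
    · have : sn (P0 + P) = sn P0 + sn P := Multiset.map_add _ _ _
      rw [this, Multiset.sum_add, Multiset.card_add, c0]
      have : p * d ≤ Q * d := Nat.mul_le_mul_right _ p1.le
      nlinarith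
    · omega
    · have : tot (P0 + P) = U + tot P := by rw [← r2]; exact Multiset.map_add _ _ _
      rw [this, add_assoc] at hx
      rcases Multiset.mem_add.1 hx with hx | hx
      · exact uu x hx
      · exact e8 x hx
  · refine ⟨P, U + L, M', ?_, e2, e3, by omega, ?_, fun hz => ?_, e7, fun x hx => ?_⟩
    · rw [eM]
      abel
    · rw [Multiset.card_add, u2, add_mul]
      have : p * w ≤ Q * d := Nat.mul_le_mul p1.le (by omega)
      omega
    · omega
    · rw [← add_assoc, add_comm (tot P), add_assoc] at hx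
      rcases Multiset.mem_add.1 hx with hx | hx
      · exact uu x hx
      · exact e8 x hx

end MP7ebc2a.AA
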