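import Pool.Agent.Lib.AA25.Blue3

/-! Row GD: a family without arms gives an invariant. -/

namespace MP7ebc2a.AA
open Equiv Finset

namespace DGD

lemma swp {α X : Type} [DecidableEq α] [DecidableEq X] (a : α) (s s' : X) :
    (Equiv.swap (a, s) (a, s') : Perm (α × X)) =
      Equiv.prodCongrRight fun j => if j = a then Equiv.swap s s' else 1 := by
  refine Equiv.ext fun z => ?_
  obtain ⟨j, l⟩ := z
  by_cases hj : j = a
  · subst hj
    rw [Equiv.prodCongrRight_apply, if_pos rfl]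
    exact ((Prod.mk_right_injective j).map_swap s s' l).symm
  · rw [Equiv.prodCongrRight_apply, if_neg hj, Equiv.swap_apply_of_ne_of_ne]
    · rfl
    · exact fun h => hj (congrArg Prod.fst h)
    · exact fun h => hj (congrArg Prod.fst h)

lemma col {β α ι κ : Type} [Fintype β] [DecidableEq β] [Fintype α] [DecidableEq α]
    [DecidableEq κ] {u : β → ι} {v : β → κ} {d a : ℕ} (h : GH β α u v d a 0) :
    ∃ f : β → α, ∀ x y, v x = v y → f x = f y → x = y := by
  obtain ⟨φ, -, -, h3, τ, h4⟩ := h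
  refine ⟨fun x => (τ x).1, fun x y hv hf => ?_⟩
  by_contra hxy
  have hg : ∀ z, v (Equiv.swap x y z) = v z := fun z => by
    rw [Equiv.swap_apply_def]
    split_ifs with h1 h2
    · rw [h1, hv]
    · rw [h2, hv]
    · rfl
  have e1 : (Equiv.swap x y).trans τ = τ.trans (Equiv.prodCongrRight
      fun j => if j = (τ x).1 then Equiv.swap (τ x).2 (τ y).2 else 1) := by
    rw [← swp]
    refine Equiv.ext fun z => ?_
    have hy : τ y = ((τ x).1, (τ y).2) := Prod.ext hf.symm rfl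
    rw [Equiv.trans_apply, Equiv.trans_apply, τ.injective.map_swap, ← hy]
  have e2 := DUAL.alt_trans v φ (Equiv.swap x y) hg τ
  rw [e1, DUAL.alt_right v φ _ _ (h3 _), pow_zero, one_mul, Perm.sign_swap hxy] at e2
  simp only [Units.val_neg, Units.val_one] at e2
  exact h4 (by linarith)

end DGD

theorem st_GD (hE : St_EV) : ∀ c M, AR c 0 M → GD 3 M := by
  rintro c M ⟨n, n', m, t, o, ht, ho, hF⟩
  have g := UNION.par (a' := 3) (b' := 0) (st_DUAL _ _ _ _ _ (hE.gh _ _ _ _ hF)) rfl rfl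
  have hM : univ.val.map (Sum.elim o t) = M := by rw [UNION.map_elim, ht, ho, add_zero]
  have hN : ∀ j, Sum.elim o t j ≤ ∑ i, Sum.elim o t i := fun j =>
    single_le_sum (f := Sum.elim o t) (fun _ _ => Nat.zero_le _) (mem_univ j)
  obtain ⟨f, hf⟩ := DGD.col g
  have hc : ∀ x ∈ conj (univ.val.map (Sum.elim o t)) (∑ i, Sum.elim o t i), x ≤ m := by
    intro x hx
    obtain ⟨k, -, rfl⟩ := Multiset.mem_map.1 hx
    rw [Multiset.countP_map]
    have h1 : Fintype.card {j // (k : ℕ) < Sum.elim o t j} ≤ Fintype.card (Fin m) :=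
      Fintype.card_le_of_injective (fun j => f ⟨j.1, ⟨k, j.2⟩⟩) fun j j' h =>
        Subtype.ext (congrArg Sigma.fst (hf ⟨j.1, ⟨k, j.2⟩⟩ ⟨j'.1, ⟨k, j'.2⟩⟩ rfl h))
    rw [Fintype.card_fin, Fintype.card_subtype] at h1
    exact h1
  refine ⟨m, ∑ i, Sum.elim o t i, fun x hx => ?_, ?_⟩
  · rw [← hM] at hx
    obtain ⟨j, -, rfl⟩ := Multiset.mem_map.1 hx
    exact hN j
  · rw [← hM]
    exact (UNION.hub hN hc).2 g

end MP7ebc2a.AA
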