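import Pool.Agent.Lib.AA25.Blue3

/-! Degree three: the shifted graphs with a given number of centres. -/

namespace MP7ebc2a.AA
open Equiv Finset

namespace DGR

theorem cnt {s : ℕ} (p : Fin s → Prop) [DecidablePred p] (lo hi : ℕ) (h : hi ≤ s)
    (hp : ∀ b, p b ↔ lo ≤ (b : ℕ) ∧ (b : ℕ) < hi) : (univ.filter p).card = hi - lo := by
  rw [← Nat.card_Ico, ← Finset.card_map Fin.valEmbedding]
  congr 1
  ext x
  simp only [mem_map, mem_filter, mem_univ, true_and, hp, Fin.valEmbedding_apply, mem_Ico]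
  exact ⟨fun ⟨_, k, e⟩ => e ▸ k, fun k => ⟨⟨x, by omega⟩, k, rfl⟩⟩

/-- the graph -/
def gr (s i q r : ℕ) : Finset (Fin s × Fin s) :=
  univ.filter fun e => (e.1 : ℕ) < i ∧ (e.1 : ℕ) ≤ e.2 ∧ (e.2 : ℕ) < q + if (e.1 : ℕ) < r then 1 else 0

theorem mem {s i q r : ℕ} {e : Fin s × Fin s} : e ∈ gr s i q r ↔
    (e.1 : ℕ) < i ∧ (e.1 : ℕ) ≤ e.2 ∧ (e.2 : ℕ) < q + if (e.1 : ℕ) < r then 1 else 0 := by
  simp [gr]

theorem out {s i q r : ℕ} (hs : q < s) (v : Fin s) : ((gr s i q r).filter fun e => e.1 = v).card =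
    if (v : ℕ) < i then (q + if (v : ℕ) < r then 1 else 0) - v else 0 := by
  have e : ((gr s i q r).filter fun e => e.1 = v).card =
      (univ.filter fun b : Fin s => (v, b) ∈ gr s i q r).card :=
    card_nbij' (fun e => e.2) (fun b => (v, b))
      (fun e he => by
        obtain ⟨k, rfl⟩ := mem_filter.1 (mem_coe.1 he)
        exact mem_coe.2 (mem_filter.2 ⟨mem_univ _, k⟩))
      (fun b hb => mem_coe.2 (mem_filter.2 ⟨(mem_filter.1 (mem_coe.1 hb)).2, rfl⟩))
      (fun e he => by
        obtain ⟨-, rfl⟩ := mem_filter.1 (mem_coe.1 he)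
        rfl)
      fun _ _ => rfl
  rw [e]
  by_cases h : (v : ℕ) < i
  · rw [if_pos h]
    exact cnt _ _ _ (by split_ifs <;> omega) fun b => by rw [mem, and_iff_right h]
  · rw [if_neg h]
    exact cnt _ 0 0 (by omega) fun b => by
      rw [mem]
      exact ⟨fun k => (h k.1).elim, fun k => by omega⟩

theorem inn {s i q r : ℕ} (hi : i ≤ q) (hr : r ≤ i) (hs : q < s) (v : Fin s) :
    ((gr s i q r).filter fun e => e.2 = v).card =
      if (v : ℕ) < i then (v : ℕ) + 1 else if (v : ℕ) < q then i else if (v : ℕ) = q then r else 0 := by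
  have e : ((gr s i q r).filter fun e => e.2 = v).card =
      (univ.filter fun b : Fin s => (b, v) ∈ gr s i q r).card :=
    card_nbij' (fun e => e.1) (fun b => (b, v))
      (fun e he => by
        obtain ⟨k, rfl⟩ := mem_filter.1 (mem_coe.1 he)
        exact mem_coe.2 (mem_filter.2 ⟨mem_univ _, k⟩))
      (fun b hb => mem_coe.2 (mem_filter.2 ⟨(mem_filter.1 (mem_coe.1 hb)).2, rfl⟩))
      (fun e he => by
        obtain ⟨-, rfl⟩ := mem_filter.1 (mem_coe.1 he)
        rfl)
      fun _ _ => rfl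
  refine e.trans ((cnt _ 0 (if (v : ℕ) < i then (v : ℕ) + 1 else if (v : ℕ) < q then i else
    if (v : ℕ) = q then r else 0) (by split_ifs <;> omega) fun b => ?_).trans (Nat.sub_zero _))
  rw [mem]
  dsimp only
  split_ifs <;> omega

theorem card {s i q r : ℕ} (hi : i ≤ q) (hr : r ≤ i) (hs : q < s) :
    (gr s i q r).card + i.choose 2 = i * q + r := by
  have e : ∀ (f : ℕ → ℕ) (a b : ℕ), a ≤ b →
      ∑ v ∈ range b, (if v < a then f v else 0) = ∑ v ∈ range a, f v := fun f a b h => by
    rw [← sum_filter]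
    congr 1
    ext v
    simp only [mem_filter, mem_range]
    omega
  rw [card_eq_sum_card_fiberwise (f := Prod.fst) (t := univ) fun _ _ => mem_coe.2 (mem_univ _),
    sum_congr rfl fun v _ => out hs v,
    Fin.sum_univ_eq_sum_range (fun v => if v < i then (q + if v < r then 1 else 0) - v else 0) s,
    e _ i s (by omega), Nat.choose_two_right, ← sum_range_id, ← sum_add_distrib,
    sum_congr rfl (g := fun v => q + if v < r then 1 else 0) fun v hv =>
      Nat.sub_add_cancel (by have := mem_range.1 hv; omega),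
    sum_add_distrib, e (fun _ => 1) r i hr]
  simp

end DGR

open DGR in
theorem st_GR : St_GR := by
  intro s i q r hi hr hs
  have hd : ∀ v : Fin s, dg (gr s i q r) v = (if (v : ℕ) < i then
      (q + if (v : ℕ) < r then 1 else 0) - v else 0) + if (v : ℕ) < i then (v : ℕ) + 1 else
        if (v : ℕ) < q then i else if (v : ℕ) = q then r else 0 := fun v => by
    rw [dg, out hs, inn hi hr hs]
  refine ⟨gr s i q r, fun e he => ?_, fun a b hab => ?_, card hi hr hs, fun v => ?_⟩
  · rw [mem] at he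
    refine ⟨he.2.1, fun a b h1 h2 h3 => mem.2 ?_⟩
    rw [Fin.le_def] at h1 h2 h3
    dsimp only
    revert he
    split_ifs <;> omega
  · rw [Fin.le_def] at hab
    rw [hd, hd]
    split_ifs <;> omega
  · rw [hd]
    split_ifs <;> omega

end MP7ebc2a.AA
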