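import Pool.Agent.Lib.AA25.Blue3

/-! Degree three, row HOST: large rows on top of a pyramid. -/

namespace MP7ebc2a.AA

theorem st_HOST (hA : St_AR) (hT : St_TX) (hU : St_UT) : St_HOST := by
  intro s c i T n D e hi B R S i1 iT cB cR hs hc hc' hn hB hR nS hS
  obtain ⟨m, hm, hmin⟩ : ∃ m ∈ B, ∀ x ∈ B, m ≤ x := by
    obtain ⟨x, hx⟩ := Multiset.card_pos_iff_exists_mem.1 (show 0 < B.card by omega)
    obtain ⟨m, h1, h2⟩ := B.toFinset.exists_min_image id ⟨x, Multiset.mem_toFinset.2 hx⟩
    exact ⟨m, Multiset.mem_toFinset.1 h1, fun y hy => h2 y (Multiset.mem_toFinset.2 hy)⟩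
  obtain ⟨m1, m2, -⟩ := hB m hm
  have lo : ∀ t ∈ S, T ≤ t / i ∧ t / i ≤ 2 * T := fun t ht =>
    ⟨(Nat.le_div_iff_mul_le i1).2 (by rw [mul_comm]; exact (hS t ht).1),
      Nat.div_le_of_le_mul (by have := (hS t ht).2; nlinarith)⟩
  have sm : ∀ U ≤ S, U.card * T ≤ (U.map fun t => t / i + i + 2).sum := fun U h => by
    have := Multiset.card_nsmul_le_sum (s := U.map fun t => t / i + i + 2) (a := T) fun x hx => by
      obtain ⟨t, ht, rfl⟩ := Multiset.mem_map.1 hx
      have := (lo t (Multiset.mem_of_le h ht)).1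
      omega
    rwa [Multiset.card_map, smul_eq_mul] at this
  obtain ⟨U, US, u1, u2⟩ := hU.cross (fun t => t / i + i + 2) (2 * T + i + 2) (m - AP s) S
    (fun t ht => by have := (lo t ht).2; omega) (by
      have := sm S le_rfl
      have := Nat.mul_le_mul_right T nS
      rw [mul_comm] at hn
      omega)
  have cU : U.card ≤ n := by
    have := sm U US
    refine (lt_of_mul_lt_mul_right (a := T) ?_ (Nat.zero_le _)).le
    rw [mul_comm] at hn
    omega
  obtain ⟨O, O', c1, c2, o1, o2, har⟩ := hT.ctr s c i U i1 (by omega) hc' fun t ht => by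
    have h := hS t (Multiset.mem_of_le US ht)
    have := (lo t (Multiset.mem_of_le US ht)).2
    exact ⟨h.2.trans hc, (Nat.mul_le_mul_left i iT).trans h.1, by omega⟩
  have sp : (U.map fun t => t / i + i + 2).sum = (U.map (· / i)).sum + U.card * (i + 2) := by
    simp only [add_assoc, Multiset.sum_map_add, Multiset.map_const', Multiset.sum_replicate,
      smul_eq_mul, mul_add]
  obtain ⟨P, p1, p2, p3⟩ := hU.pair (D + 2 * T + (i + 2) * (n + 1)) O B (c1.trans cB.symm)
    fun o ho b hb => by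
      have := o1 o ho
      have := hmin b hb
      have := (hB b hb).2.2 m hm
      have := Nat.mul_le_mul_right (i + 2) cU
      rw [mul_add (i + 2), mul_comm (i + 2) n]
      omega
  obtain ⟨P', q1, q2, q3⟩ := hU.pair e O' R (c2.trans cR.symm) fun o ho b hb => by
    have := o2 o ho
    have := hR b hb
    have := Nat.mul_le_mul_left i cU
    omega
  refine ⟨U, US, cU, P, P', p2, q2, ?_, p3, q3⟩
  rw [show fs (P + P') = O + O' by rw [← p1, ← q1]; exact Multiset.map_add _ _ _]
  exact hA.drop _ _ _ har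

end MP7ebc2a.AA
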