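import Pool.Agent.Lib.AA25.Blue3

/-! Degree three, row HOSTS: all blocks of large rows are placed on pyramids. -/

namespace MP7ebc2a.AA
open Equiv Finset

namespace DHOSTS

theorem size {a X Q z : ℕ} (h : 1 + a ≤ X) (hz : X ≤ z) (hQ : 2 * z < Q ^ 2) :
    ∃ s, AP s + a ≤ X ∧ X < AP (s + 1) + a ∧ AP (s + 1) ≤ AP s + Q ∧ s ≤ Q := by
  have e : ∃ s, X < AP (s + 1) + a := ⟨X, by have := AP_two (X + 1); nlinarith⟩
  have h1 : AP (Nat.find e) + a ≤ X := by
    rcases h0 : Nat.find e with _ | s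
    · exact h
    · exact not_lt.1 (Nat.find_min e (h0 ▸ s.lt_succ_self))
  have h2 := AP_two (Nat.find e)
  have h3 := AP_two (Nat.find e + 1)
  have h4 : Nat.find e + 1 < Q := lt_of_pow_lt_pow_left₀ 2 Q.zero_le (by nlinarith)
  exact ⟨_, h1, Nat.find_spec e, by nlinarith, by omega⟩

end DHOSTS

theorem st_HOSTS (hA : St_AR) (hU : St_UT) (hH : St_HOST) : St_HOSTS := by
  intro h lo z Q c T ρ n D hi Bs M S S' r1 rT hn hc hc' l1 l2 l3 hQ
  induction Bs using Multiset.induction_on generalizing M S S' with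
  | empty =>
    intro _ _ _ _ _ _ _ _
    exact ⟨0, zero_le, 0, zero_le, 0, 0, M, rfl, (zero_add M).symm, hA.zero c 0 0, by simp,
      by simp, by simp, by simp [tot]⟩
  | cons B Bs ih =>
    intro hz hD ⟨y, y1, y2⟩ hB s1 s2 s3 s4
    rw [Multiset.card_cons] at y2 s1 s3
    obtain ⟨X, X1, X2⟩ := M.exists_max_image id (Multiset.card_pos.1
      (Multiset.card_pos_iff_exists_mem.2 ⟨y, y1⟩))
    have y3 : y ≤ X := X2 y y1
    obtain ⟨b1, b2⟩ := hB B (Multiset.mem_cons_self _ _)
    have many := hU.many h lo z X (Q + 1) M hD (hz X X1) ⟨X, X1, le_rfl⟩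
    generalize (Q + 1) * h = k at *
    have y4 : lo + (Bs.card + 1) * k + k ≤ X := by nlinarith
    have y5 : k ≤ (Bs.card + 1) * k := Nat.le_mul_of_pos_left _ (Nat.succ_pos _)
    replace many := many (by omega) (by omega)
    obtain ⟨s, a1, a2, a3, a4⟩ := DHOSTS.size (a := ρ * n + k) (by omega) (hz X X1) hQ
    have c1 := hU.cP lo c s l1 l2 (by omega)
    have c2 : 2 * T + ρ + 2 ≤ s := by
      refine (pow_le_pow_iff_left₀ (Nat.zero_le _) (Nat.zero_le _) two_ne_zero).1
        (hc'.trans (c1.trans ((Nat.choose_le_pow _ _).trans (Nat.pow_le_pow_left ?_ 2))))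
      by_contra k0
      obtain rfl | rfl : s = 0 ∨ s = 1 := by omega
      all_goals
        have : 4 ≤ (2 * T + ρ + 2) ^ 2 := Nat.pow_le_pow_left (by omega : 2 ≤ _) 2
        have : c ≤ 0 := c1
        omega
    obtain ⟨R, t0, t1, t2⟩ := st_EX.top M (s - B.card)
      (by have := Multiset.card_le_card (Multiset.filter_le (fun x => X ≤ x + k ∧ x < X) M); omega)
    obtain ⟨M1, rfl⟩ := Multiset.le_iff_exists_add.1 t0
    rw [add_tsub_cancel_left] at t2
    obtain ⟨w, w1, w2⟩ : ∃ w ∈ M1, X ≤ w + k := by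
      by_contra! k0
      rw [Multiset.filter_add, Multiset.filter_eq_nil.2 fun x hx e => (k0 x hx).not_ge e.1,
        add_zero] at many
      have := Multiset.card_le_card (Multiset.filter_le (fun x => X ≤ x + k ∧ x < X) R)
      omega
    have i1 : 1 ≤ B.card ∧ B.card ≤ ρ := by omega
    have i2 := Nat.mul_le_mul_right n i1.2
    have i3 := Nat.mul_le_mul_right T i1.2
    have i4 := Nat.mul_le_mul_right (n + 1) (Nat.add_le_add_right i1.2 2)
    have host := fun S => hH s c B.card T n D (ρ * n + k + Q + 2) hi B R S i1.1 (by omega) rfl t1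
      (by omega) (by omega) c1 hn
      (fun x hx => ⟨by have := (b2 x hx).2.2 X X1; omega, (b2 x hx).1, (b2 x hx).2.1⟩)
      fun x hx => ⟨by have := t2 x hx w w1; omega,
        by have : x ≤ X := X2 x (Multiset.mem_add.2 (.inl hx)); omega⟩
    rw [Nat.add_one_mul] at s1 s3
    obtain ⟨U, u1, U', u2, u3, u4, P, P', p1, p2, p3, p4, p5⟩ : ∃ U ≤ S, ∃ U' ≤ S', U.card ≤ n ∧
        U'.card ≤ n ∧ ∃ P P', tot P = B ∧ tot P' = R ∧ AR c 0 (U + U' + fs (P + P')) ∧
        (∀ p ∈ P, p.2 ≤ D + 2 * T + (B.card + 2) * (n + 1)) ∧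
        ∀ p ∈ P', p.2 ≤ ρ * n + k + Q + 2 := by
      rcases b1 with b1 | b1
      · obtain ⟨U, u1, u2, P, P', q⟩ := host S' (by omega) (b1 ▸ s4)
        exact ⟨0, zero_le, U, u1, Nat.zero_le _, u2, P, P', by rwa [zero_add]⟩
      · obtain ⟨U, u1, u2, P, P', q⟩ := host S (by omega) (by rwa [b1, one_mul])
        exact ⟨U, u1, 0, zero_le, u2, Nat.zero_le _, P, P', by rwa [add_zero]⟩
    have m1 : ∀ x ∈ M1, x ∈ R + M1 := fun x hx => Multiset.mem_add.2 (.inr hx)
    obtain ⟨V, v1, V', v2, O, O', M', o1, rfl, o3, o4, o5, o6, o7⟩ := ih M1 (S - U) (S' - U')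
      (fun x hx => hz x (m1 x hx))
      (fun u h1 h2 ⟨y, h3, h4⟩ => by
        obtain ⟨x, h5, h6⟩ := hD u h1 h2 ⟨y, m1 y h3, h4⟩
        refine ⟨x, (Multiset.mem_add.1 h5).resolve_left fun e => ?_, h6⟩
        have := t2 x e y h3
        omega)
      ⟨w, w1, by omega⟩
      (fun B' hB' => ⟨(hB B' (Multiset.mem_cons_of_mem hB')).1, fun x hx =>
        let ⟨g1, g2, g3⟩ := (hB B' (Multiset.mem_cons_of_mem hB')).2 x hx
        ⟨g1, g2, fun y hy => g3 y (m1 y hy)⟩⟩)
      (by rw [Multiset.card_sub u1]; omega)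
      (fun t ht => s2 t (Multiset.mem_of_le (Multiset.sub_le_self _ _) ht))
      (by rw [Multiset.card_sub u2]; omega)
      (fun t ht => s4 t (Multiset.mem_of_le (Multiset.sub_le_self _ _) ht))
    refine ⟨U + V, add_le_of_le_tsub_left_of_le u1 v1, U' + V', add_le_of_le_tsub_left_of_le u2 v2,
      P + O, P' + O', M', ?_, ?_, ?_, fun p hp => ?_, ?_, fun p hp => ?_, fun x hx => ?_⟩
    · rw [Multiset.sum_cons, ← p1, ← o1]
      exact Multiset.map_add _ _ _
    · rw [← p2, ← add_assoc]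
      exact congrArg (· + M') (Multiset.map_add _ _ _).symm
    · have e : U + V + (U' + V') + fs (P + O + (P' + O')) =
          U + U' + fs (P + P') + (V + V' + fs (O + O')) := by
        simp only [fs, Multiset.map_add]
        abel
      rw [e]
      exact hA.add c 0 _ 0 _ p3 o3
    · rcases Multiset.mem_add.1 hp with hp | hp
      · have := p4 p hp
        omega
      · exact o4 p hp
    · have : P'.card = R.card := by rw [← p2, tot, Multiset.card_map]
      rw [Multiset.card_add, Multiset.card_cons, Nat.add_one_mul]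
      omega
    · exact (Multiset.mem_add.1 hp).elim (p5 p) (o6 p)
    · rw [tot, Multiset.map_add] at hx
      rcases Multiset.mem_add.1 hx with hx | hx
      · replace hx : x ∈ R := p2 ▸ hx
        exact ⟨by have := t2 x hx w w1; omega,
          fun y hy => t2 x hx y (Multiset.mem_add.2 (.inr hy))⟩
      · exact o7 x hx

end MP7ebc2a.AA
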