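import Pool.Agent.Lib.AA25.Blue3

/-! The highest weight lemma for functions of the rows of different letters. -/

namespace MP7ebc2a.AA
open Equiv Finset

namespace DHW2

variable {Y : Type} [Fintype Y] [DecidableEq Y] {M N : ℕ} {ν : Fin N → ℕ} (hν : ∀ k, ν k ≤ M)
  (Θ : (Y → Fin M) → ℤ)

/-- the function of the fillings -/
def ph (F : Bx ν → Y) : ℤ :=
  ∑ e : Bx ν ≃ Y, if ⇑e = F then Θ (fun y => HW.rw hν (e.symm y)) else 0

lemma ph_coe (e : Bx ν ≃ Y) : ph hν Θ e = Θ fun y => HW.rw hν (e.symm y) := by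
  rw [ph, sum_eq_single e (fun e' _ h => if_neg fun h' => h (DFunLike.coe_injective h'))
    (fun h => absurd (mem_univ _) h), if_pos rfl]

lemma ph_ne {F : Bx ν → Y} (h : ph hν Θ F ≠ 0) : ∃ e : Bx ν ≃ Y, ⇑e = F := by
  obtain ⟨e, -, he⟩ := exists_ne_zero_of_sum_ne_zero h
  exact ⟨e, by_contra fun h' => he (if_neg h')⟩

lemma ph_zero {F : Bx ν → Y} (h : ∀ e : Bx ν ≃ Y, ⇑e ≠ F) : ph hν Θ F = 0 :=
  by_contra fun h' => (ph_ne hν Θ h').elim h

lemma ph_row (g : Perm (Bx ν)) (hg : ∀ x, ((g x).2 : ℕ) = x.2) (F : Bx ν → Y) :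
    ph hν Θ (F ∘ g) = ph hν Θ F := by
  by_cases h : ∃ e : Bx ν ≃ Y, ⇑e = F
  · obtain ⟨e, rfl⟩ := h
    rw [← Equiv.coe_trans, ph_coe, ph_coe]
    refine congrArg Θ (funext fun y => (HW.rw_eq hν).2 ?_)
    have := hg (g.symm (e.symm y))
    rw [apply_symm_apply] at this
    exact this.symm
  · push Not at h
    rw [ph_zero hν Θ h, ph_zero hν Θ fun e he => h (g.symm.trans e) ?_]
    rw [Equiv.coe_trans, he]
    exact funext fun x => congrArg F (g.apply_symm_apply x)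

lemma gen (K : ℕ) (hK : ∀ P, Θ P ≠ 0 →
    #{e : Bx ν ≃ Y | (fun y => HW.rw hν (e.symm y)) = P} = K) (Z : Matrix (Fin M) Y ℂ) :
    ∑ f, (ph hν Θ f : ℂ) * ∏ x : Bx ν, Z (Fin.castLE (hν x.1) x.2) (f x) =
      K * ∑ P, (Θ P : ℂ) * ∏ y, Z (P y) y := by
  have h1 : ∑ f, (ph hν Θ f : ℂ) * ∏ x : Bx ν, Z (Fin.castLE (hν x.1) x.2) (f x) =
      ∑ e : Bx ν ≃ Y, (Θ (fun y => HW.rw hν (e.symm y)) : ℂ) *
        ∏ y, Z (HW.rw hν (e.symm y)) y := by
    simp only [ph, Int.cast_sum, sum_mul]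
    rw [sum_comm]
    refine sum_congr rfl fun e _ => ?_
    rw [sum_eq_single (⇑e) (fun f _ h => by rw [if_neg (Ne.symm h), Int.cast_zero, zero_mul])
      (fun h => absurd (mem_univ _) h), if_pos rfl, ← Equiv.prod_comp e]
    simp only [symm_apply_apply]
    rfl
  rw [h1, ← sum_fiberwise univ fun e : Bx ν ≃ Y => fun y => HW.rw hν (e.symm y), mul_sum]
  refine sum_congr rfl fun P _ => ?_
  rw [sum_congr rfl (g := fun _ => (Θ P : ℂ) * ∏ y, Z (P y) y) fun e he => by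
    rw [← (mem_filter.1 he).2], sum_const, nsmul_eq_mul]
  by_cases h : Θ P = 0
  · simp only [h, Int.cast_zero, zero_mul, mul_zero]
  · rw [hK P h]

end DHW2

open DHW2 in
theorem st_HW2 : St_HW2 := by
  intro Y _ _ M N ν hν Θ hw hU ⟨P0, h0⟩
  have hK : ∀ P, Θ P ≠ 0 → #{e : Bx ν ≃ Y | (fun y => HW.rw hν (e.symm y)) = P} =
      #{e : Bx ν ≃ Y | (fun y => HW.rw hν (e.symm y)) = P0} := fun P hP => by
    obtain ⟨w, hw'⟩ := FIB.exists_equiv P P0 fun a => (hw P hP a).trans (hw P0 h0 a).symm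
    refine card_bij' (fun e _ => e.trans w) (fun e _ => e.trans w.symm) (fun e he => ?_)
      (fun e he => ?_) (fun e _ => by ext1; simp) fun e _ => by ext1; simp
    · rw [mem_filter_univ] at he ⊢
      refine funext fun y => (congrFun he (w.symm y)).trans ?_
      rw [← hw', apply_symm_apply]
    · rw [mem_filter_univ] at he ⊢
      exact funext fun y => (congrFun he (w y)).trans (hw' y)
  obtain ⟨w, hw'⟩ := FIB.exists_equiv P0 (HW.rw hν) fun a =>
    (hw P0 h0 a).trans (HW.card_rw hν a).symm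
  obtain ⟨f, hf⟩ := st_HW M N ν hν (ph hν Θ) (ph_row hν Θ) (fun U Z h1 h2 => by
    rw [gen hν Θ _ hK, gen hν Θ _ hK, hU U Z h1 h2]) ⟨w.symm, by
      rw [ph_coe]
      exact (congrArg Θ (funext hw')).trans_ne h0⟩
  obtain ⟨g0, -, hg0⟩ := exists_ne_zero_of_sum_ne_zero hf
  obtain ⟨e1, he1⟩ := ph_ne hν Θ (right_ne_zero_of_mul hg0)
  have he : f = ⇑(g0.symm.trans e1) := by
    rw [Equiv.coe_trans, he1]
    exact funext fun x => congrArg f (g0.apply_symm_apply x).symm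
  refine ⟨g0.symm.trans e1, Ne.symm (hf.symm.trans_eq ?_)⟩
  rw [he]
  refine sum_nbij' (·⁻¹) (·⁻¹) (fun g hg => ?_) (fun g hg => ?_) (fun g _ => inv_inv g)
    (fun g _ => inv_inv g) fun g _ => ?_
  · rw [mem_filter_univ] at hg ⊢
    exact fun x => (hg (g⁻¹ x)).symm.trans (congrArg Sigma.fst (g.apply_symm_apply x))
  · rw [mem_filter_univ] at hg ⊢
    exact fun x => (hg (g⁻¹ x)).symm.trans (congrArg Sigma.fst (g.apply_symm_apply x))
  · rw [← Equiv.coe_trans, ph_coe, Perm.sign_inv]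
    rfl

end MP7ebc2a.AA
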