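import Pool.Agent.Lib.AA25.Blue3

/-! Row INJ: values that differ inside every row. -/

namespace MP7ebc2a.AA
open Equiv Finset

namespace DINJ

theorem le_of_mono {n : ℕ} (f : Fin n → ℕ) (hf : StrictMono f) :
    ∀ (k : ℕ) (h : k < n), k ≤ f ⟨k, h⟩ := by
  intro k
  induction k with
  | zero => intro h; exact Nat.zero_le _
  | succ k ih =>
    intro h
    have h1 := ih (Nat.lt_of_succ_lt h)
    have h2 : f ⟨k, Nat.lt_of_succ_lt h⟩ < f ⟨k + 1, h⟩ := hf (Fin.mk_lt_mk.2 (Nat.lt_succ_self k))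
    omega

theorem row {n : ℕ} (P : Fin n → ℕ) (hP : Function.Injective P) :
    ∑ i : Fin n, (i : ℕ) ≤ ∑ i, P i ∧
      (∑ i : Fin n, (i : ℕ) = ∑ i, P i → ∃ σ : Perm (Fin n), ∀ i, P i = σ i) := by
  have hm : StrictMono (P ∘ Tuple.sort P) :=
    (Tuple.monotone_sort P).strictMono_of_injective (hP.comp (Tuple.sort P).injective)
  have hle : ∀ i : Fin n, (i : ℕ) ≤ P (Tuple.sort P i) := fun i => le_of_mono _ hm i i.2
  have hs : ∑ i, P (Tuple.sort P i) = ∑ i, P i := Equiv.sum_comp (Tuple.sort P) P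
  refine ⟨hs ▸ sum_le_sum fun i _ => hle i, fun h => ⟨(Tuple.sort P).symm, fun i => ?_⟩⟩
  rw [← hs] at h
  have := (sum_eq_sum_iff_of_le fun i _ => hle i).1 h ((Tuple.sort P).symm i) (mem_univ _)
  rw [Equiv.apply_symm_apply] at this
  exact this.symm

end DINJ

theorem st_INJ : St_INJ := by
  intro κ _ _ a P hP
  have hr : ∀ r : κ, Function.Injective fun i : Fin (a r) => P ⟨r, i⟩ := fun r i j h => by
    have := hP ⟨r, i⟩ ⟨r, j⟩ rfl h
    exact eq_of_heq (Sigma.mk.inj this).2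
  have e1 : ∑ x : Bx a, (x.2 : ℕ) = ∑ r, ∑ i : Fin (a r), (i : ℕ) :=
    Fintype.sum_sigma (fun x : Bx a => (x.2 : ℕ))
  have e2 : ∑ x, P x = ∑ r, ∑ i : Fin (a r), P ⟨r, i⟩ := Fintype.sum_sigma P
  rw [e1, e2]
  refine ⟨sum_le_sum fun r _ => (DINJ.row _ (hr r)).1, fun h => ?_⟩
  have h' := (sum_eq_sum_iff_of_le fun r _ => (DINJ.row _ (hr r)).1).1 h.symm
  choose σ hσ using fun r => (DINJ.row _ (hr r)).2 (h' r (mem_univ _))
  exact ⟨Equiv.Perm.sigmaCongrRight σ, fun x => rfl, fun x => hσ x.1 x.2⟩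

end MP7ebc2a.AA
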