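import Pool.Agent.Lib.AA25.Blue3

/-! Degree three: typical partitions are good. -/

namespace MP7ebc2a.AA
open Finset

namespace DMAIN

theorem cut (s : Multiset ℕ) (f : ℕ → ℕ) (hf : ∀ i, f i ≤ s.count i) :
    ∃ M : Multiset ℕ, ∀ i, M.count i = f i := by
  refine ⟨∑ j ∈ s.toFinset, Multiset.replicate (f j) j, fun i => ?_⟩
  rw [Multiset.count_sum']
  simp only [Multiset.count_replicate, Finset.sum_ite_eq']
  split_ifs with h
  · rfl
  · have := hf i
    rw [Multiset.count_eq_zero_of_notMem (by simpa using h)] at this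
    omega

theorem few (W : Multiset ℕ) (K c : ℕ) (h1 : ∀ x ∈ W, x < K) (h2 : ∀ i, i < K → W.count i ≤ c) :
    W.sum ≤ c * K * K := by
  have h3 : W ≤ c • (Finset.range K).val := Multiset.le_iff_count.2 fun i => by
    by_cases hi : i < K
    · rw [Multiset.count_nsmul,
        Multiset.count_eq_one_of_mem (Finset.range K).nodup (by simpa using hi), mul_one]
      exact h2 i hi
    · rw [Multiset.count_eq_zero_of_notMem fun m => hi (h1 i m)]
      exact Nat.zero_le _
  have h4 : W.card ≤ c * K := by simpa using Multiset.card_le_card h3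
  exact (Multiset.sum_le_card_nsmul W K fun x hx => (h1 x hx).le).trans
    (Nat.mul_le_mul_right K h4)

theorem mu_lo {h i : ℕ} (hh : 0 < h) (hi : i ≤ h ^ 1000) : h * mu h i = h ^ 996 := by
  rw [mu, max_eq_right hi, Nat.pow_div (by norm_num) hh, ← pow_succ']

theorem dvd3 {A : Multiset ℕ} (h : GD 3 A) : 3 ∣ A.sum := by
  obtain ⟨m, h⟩ := h
  exact ⟨m, by rw [st_CH.sum m 3 A h, mul_comm]⟩

/-- the reserve of small rows -/
def T0 (a : ℕ) : Multiset ℕ := Multiset.replicate (6 * a) 1 + Multiset.replicate (4 * a) 6 +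
  Multiset.replicate (3 * a) 10 + Multiset.replicate 15 21

theorem T0_count {a : ℕ} (ha : 3 ≤ a) (i : ℕ) :
    (T0 a).count i ≤ 6 * a ∧ (i = 0 ∨ 22 ≤ i → (T0 a).count i = 0) := by
  simp only [T0, Multiset.count_add, Multiset.count_replicate]
  split_ifs <;> omega

theorem T0_dvd (a : ℕ) : 3 ∣ (T0 a).sum := by
  simp only [T0, Multiset.sum_add, Multiset.sum_replicate, smul_eq_mul]
  omega

end DMAIN

open DMAIN in
theorem st_MAIN (hA : St_AR) (hU : St_UT) (hZ : St_ZONE) (hT : St_TOP) (hL : St_LOOP)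
    (hY : St_TINY) : St_MAIN := by
  intro h s hh ⟨t1, t2, t3, t4⟩ hs
  have h0 : 0 < h := by omega
  have pw : ∀ a b : ℕ, a ≤ b → h ^ a ≤ h ^ b := fun a b => Nat.pow_le_pow_right h0
  have big : ∀ a b : ℕ, a < b → 10 ^ 6 * h ^ a ≤ h ^ b := fun a b hab =>
    (Nat.mul_le_mul_right _ hh).trans (by rw [← pow_succ']; exact pw _ _ hab)
  have hR : Rich h fun i => 22 ≤ i ∧ h * mu h i ≤ s.count i := by
    refine ⟨fun u u1 u2 => ?_, fun i i1 i2 => ⟨i1, ?_⟩⟩
    · obtain ⟨i, i1, i2, i3⟩ := t4 u u1 u2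
      exact ⟨i, i1, i2, u1.trans i1, i3⟩
    · rw [mu_lo h0 (i2.trans (pw _ _ (by norm_num)))]
      exact (pw _ _ (by norm_num)).trans (t3 i (by omega) i2)
  obtain ⟨M, hM⟩ := cut s (fun i => if h ^ 1000 ≤ i then s.count i else
    if 22 ≤ i then min (s.count i) (h ^ 996) else 0) fun i => by split_ifs <;> omega
  have b1 := big 0 3 (by norm_num)
  have b2 := big 1900 1950 (by norm_num)
  have b3 := big 0 1900 (by norm_num)
  have b4 := big 1896 1900 (by norm_num)
  have b5 := pw 3 1000 (by norm_num)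
  have b6 := pw 450 1000 (by norm_num)
  rw [pow_zero] at b1 b3
  have m1 : ∀ i, 22 ≤ i ∧ h * mu h i ≤ s.count i → h * mu h i ≤ M.count i := fun i ⟨i1, i2⟩ => by
    rw [hM]
    split_ifs with a
    · exact i2
    · exact le_min i2 (mu_lo h0 (not_le.1 a).le).le
  have m2 : ∀ i, i < h ^ 1000 → M.count i ≤ h ^ 996 := fun i hi => by
    rw [hM]
    split_ifs <;> omega
  have m3 : ∀ x ∈ M, 22 ≤ x := fun x hx => by
    have := Multiset.count_pos.2 hx
    rw [hM] at this
    split_ifs at this <;> omega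
  obtain ⟨D, hD⟩ : ∃ D, s = T0 (h ^ 1900) + M + D := Multiset.le_iff_exists_add.1
    (Multiset.le_iff_count.2 fun i => by
      obtain ⟨c1, c2⟩ := T0_count (a := h ^ 1900) (by omega) i
      have := t3 i
      rw [Multiset.count_add, hM]
      split_ifs <;> omega)
  have d1 : ∀ x ∈ D, x ≤ h ^ 1000 := fun x hx => by
    have e1 := Multiset.count_pos.2 hx
    have e2 := congrArg (Multiset.count x) hD
    rw [Multiset.count_add, Multiset.count_add, hM] at e2
    split_ifs at e2 <;> omega
  have hc := congrArg Multiset.card hD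
  rw [Multiset.card_add, Multiset.card_add] at hc
  have p1 : fs (D.map fun x => (0, x)) = Multiset.replicate D.card 0 := by simp [fs]
  have p2 : sn (D.map fun x => (0, x)) = D := by simp [sn]
  have p3 : tot (D.map fun x => (0, x)) = D := by simp [tot]
  obtain ⟨U, u1, u2, u3⟩ := hZ h _ 1994 0 M (D.map fun x => (0, x)) hh hR (by norm_num) le_rfl
    (by rw [zero_add, p1]; exact hA.zero _ 0 _)
    (fun p hp => by
      obtain ⟨x, hx, rfl⟩ := Multiset.mem_map.1 hp
      exact (d1 x hx).trans (pw _ _ (by norm_num)))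
    (by
      rw [p2]
      refine (hU.ldp h 1000 D (by omega) d1).trans
        ((Nat.mul_le_mul_right _ (show D.card ≤ h ^ 2002 by omega)).trans ?_)
      rw [← pow_add]
      exact pw _ _ (by norm_num [l0]))
    fun i hi _ => (Nat.mul_le_mul_right _ (by omega)).trans (m1 i hi)
  rw [zero_add, p3] at u3
  obtain ⟨M1, rfl⟩ := Multiset.le_iff_exists_add.1 u1
  rw [Multiset.card_add] at hc
  obtain ⟨A, M2, rfl, a1, a2, a3⟩ := hT h _ (h - 6) M1 hh hR (by omega) (by omega)
    (fun x hx => (t1 x (by simp [hD, hx])).2) fun i hi => by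
      have e1 := m1 i hi
      have e2 := u2 i
      rw [Multiset.count_add] at e1
      rw [Nat.sub_mul]
      omega
  rw [Multiset.card_add] at hc
  obtain ⟨B, W, rfl, w1, w2⟩ := hL h _ 1544 _ M2 hh hR le_rfl (by omega) (by omega)
    (fun i hi => by
      have := m2 i hi
      simp only [Multiset.count_add] at this
      omega) a2 a3
  have w3 : W.sum ≤ h ^ 1896 := by
    refine (few W _ (h ^ 996) w2 fun i hi => ?_).trans (by rw [← pow_add, ← pow_add])
    have := m2 i (by omega)
    simp only [Multiset.count_add] at this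
    omega
  have w4 : 3 ∣ W.sum := by
    have e1 := dvd3 u3
    have e2 := dvd3 a1
    have e3 := dvd3 w1
    have e4 := T0_dvd (h ^ 1900)
    simp only [hD, Multiset.sum_add] at hs e1
    omega
  have w5 : GD 3 (W + T0 (h ^ 1900)) :=
    hY _ W (fun x hx => le_trans (by norm_num) (m3 x (by simp [hx]))) (by omega) w4
  have e : s = D + U + A + B + (W + T0 (h ^ 1900)) := by
    rw [hD]
    abel
  rw [e]
  exact all_SB.add _ _ _ (all_SB.add _ _ _ (all_SB.add _ _ _ u3 a1) w1) w5

end MP7ebc2a.AA
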