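import Pool.Agent.Lib.AA25.Blue3

/-! Degree three: the coefficients do not all vanish. -/

namespace MP7ebc2a.AA
open Equiv Finset

namespace DNZ

/-- the number of matchings of two triples -/
def N {ρ : Type} [DecidableEq ρ] (u t : Fin 3 → ρ) : ℕ :=
  (univ.filter fun σ : Perm (Fin 3) => ∀ l, t (σ l) = u l).card

lemma N_eq {ρ : Type} [DecidableEq ρ] (u t : Fin 3 → ρ) :
    N u t = if univ.val.map u = univ.val.map t then N u u else 0 := by
  split_ifs with h
  · obtain ⟨w, hw⟩ := FIB.exists_perm h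
    refine (card_equiv (Equiv.mulLeft w) fun σ => ?_).symm
    simp only [mem_filter, mem_univ, true_and, coe_mulLeft, Perm.mul_apply, hw]
  · refine card_eq_zero.2 (filter_eq_empty_iff.2 fun σ _ hσ => h (FIB.map_perm σ hσ))

lemma N_ne {ρ : Type} [DecidableEq ρ] (u : Fin 3 → ρ) : N u u ≠ 0 :=
  card_ne_zero.2 ⟨1, mem_filter.2 ⟨mem_univ _, fun _ => rfl⟩⟩

lemma expand {α U : Type} [Fintype α] [DecidableEq α] [Fintype U] (w : α → U → ℚ)
    (n : α → α → U → ℚ) : (Matrix.of fun i j => ∑ u, w j u * n i j u).det =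
      ∑ A : α → U, (∏ j, w j (A j)) * (Matrix.of fun i j => n i j (A j)).det := by
  simp only [Matrix.det_apply', Matrix.of_apply, Fintype.prod_sum, mul_sum, prod_mul_distrib]
  rw [sum_comm]
  exact sum_congr rfl fun A _ => sum_congr rfl fun σ _ => mul_left_comm _ _ _

variable {α J B B' : Type} {s : ℕ}

/-- the weights of the columns -/
def w (k : B → ℕ) (q : ℕ → Fin s → Fin s → ℚ) : B ⊕ B' → Option (Fin s × Fin s) → ℚ
  | .inl x, some p => q (k x) p.1 p.2
  | .inl _, none => 0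
  | .inr _, some _ => 0
  | .inr _, none => 1

/-- the triples of the columns -/
def t (d : B' → Fin 3 → Fin s ⊕ J) (r : B → Fin s ⊕ J) :
    B ⊕ B' → Option (Fin s × Fin s) → Fin 3 → Fin s ⊕ J
  | .inl x, some p => ![r x, .inl p.1, .inl p.2]
  | .inl x, none => fun _ => r x
  | .inr b, _ => d b

theorem w.rlz : True := by
  have := @w.eq_def
  trivial

theorem t.rlz : True := by
  have := @t.eq_def
  trivial

variable [DecidableEq J]

/-- the matrix of the products -/
def M (c : α → Fin 3 → Fin s ⊕ J) (ε : B ⊕ B' ≃ α) (r : B → Fin s ⊕ J) (k : B → ℕ)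
    (q : ℕ → Fin s → Fin s → ℚ) : Matrix α α ℚ := Matrix.of fun i j =>
  ∑ u, w k q (ε.symm j) u * N (c i) (t (fun b => c (ε (.inr b))) r (ε.symm j) u)

lemma map3 {ρ : Type} (a b d : ρ) : univ.val.map ![a, b, d] = {a, b, d} := by
  rw [Fin.univ_val_map]
  rfl

lemma M_inl (c : α → Fin 3 → Fin s ⊕ J) (ε : B ⊕ B' ≃ α) (r : B → Fin s ⊕ J) (k : B → ℕ)
    (q : ℕ → Fin s → Fin s → ℚ) (i : α) (x : B) : M c ε r k q i (ε (.inl x)) =
      N (c i) (c i) * ∑ a, ∑ b,
        if univ.val.map (c i) = {r x, Sum.inl a, Sum.inl b} then q (k x) a b else 0 := by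
  rw [M, Matrix.of_apply, symm_apply_apply, Fintype.sum_option, Fintype.sum_prod_type, mul_sum]
  refine (add_eq_right.2 (zero_mul _)).trans (sum_congr rfl fun a _ => ?_)
  rw [mul_sum]
  refine sum_congr rfl fun b _ => ?_
  change q (k x) a b * (N (c i) ![r x, .inl a, .inl b] : ℚ) = _
  rw [N_eq, map3]
  split_ifs
  · exact mul_comm _ _
  · simp

lemma M_inr (c : α → Fin 3 → Fin s ⊕ J) (ε : B ⊕ B' ≃ α) (r : B → Fin s ⊕ J) (k : B → ℕ)
    (q : ℕ → Fin s → Fin s → ℚ) (i : α) (b : B') :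
    M c ε r k q i (ε (.inr b)) = N (c i) (c (ε (.inr b))) := by
  rw [M, Matrix.of_apply, symm_apply_apply, Fintype.sum_option]
  exact (add_eq_left.2 (sum_eq_zero fun _ _ => zero_mul _)).trans (one_mul _)

variable [Fintype α] [DecidableEq α]

lemma det_M (c : α → Fin 3 → Fin s ⊕ J) (ε : B ⊕ B' ≃ α) (r : B → Fin s ⊕ J) (k : B → ℕ)
    (q : ℕ → Fin s → Fin s → ℚ) : (M c ε r k q).det = ∑ A : α → Option (Fin s × Fin s),
      (∏ j, w k q (ε.symm j) (A j)) *
        (f0 c (fun y => t (fun b => c (ε (.inr b))) r (ε.symm y.1) (A y.1) y.2) : ℚ) := by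
  rw [M, expand]
  refine sum_congr rfl fun A _ => congrArg _ ?_
  rw [f0, Int.cast_det]
  rfl

lemma det_perm [Fintype B] [DecidableEq B] [Fintype B'] [DecidableEq B']
    (c : α → Fin 3 → Fin s ⊕ J) (ε : B ⊕ B' ≃ α) (r : B → Fin s ⊕ J) (k : B → ℕ)
    (q : ℕ → Fin s → Fin s → ℚ) (g : Perm B) (hg : ∀ x, k (g x) = k x) :
    (M c ε (fun x => r (g x)) k q).det = ((Perm.sign g : ℤˣ) : ℤ) * (M c ε r k q).det := by
  have e : M c ε (fun x => r (g x)) k q =
      (M c ε r k q).submatrix id (ε.permCongr (Perm.sumCongr g 1)) := by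
    ext i j
    obtain ⟨z, rfl⟩ := ε.surjective j
    rw [Matrix.submatrix_apply, permCongr_apply, symm_apply_apply]
    rcases z with x | b
    · rw [M_inl, ← hg x]
      exact (M_inl c ε r k q i (g x)).symm
    · rw [M_inr]
      exact (M_inr c ε r k q i b).symm
  rw [e, Matrix.det_permute', Perm.sign_permCongr, Perm.sign_sumCongr, Perm.sign_one, mul_one]

end DNZ

open DNZ in
theorem st_NZ : St_NZ := by
  intro α J B Y _ _ _ _ _ s c e f r k q hd he hu hI
  classical
  by_contra h0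
  push Not at h0
  have fi : Function.Injective f := fun x y h =>
    Sum.inl_injective (e.injective (by rw [he, he, h]))
  let ε : B ⊕ {i // i ∉ Set.range f} ≃ α :=
    ((Equiv.ofInjective f fi).sumCongr (Equiv.refl _)).trans (Equiv.sumCompl (· ∈ Set.range f))
  have e1 : ∀ x, ε (.inl x) = f x := fun _ => rfl
  have e2 : ∀ b x, f x ≠ ε (.inr b) := fun b x h => b.2 ⟨x, h⟩
  have h1 : ∑ g : Perm B with ∀ x, k (g x) = k x,
      (((Perm.sign g : ℤˣ) : ℤ) : ℚ) * (M c ε (fun x => r (g x)) k q).det = 0 := by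
    simp only [det_M, mul_sum]
    rw [sum_comm]
    refine sum_eq_zero fun A _ => ?_
    by_cases hA : ∏ j, w k q (ε.symm j) (A j) = 0
    · simp only [hA, zero_mul, mul_zero, sum_const_zero]
    have h2 : ∀ y : Y, ∃ a, ∀ r' : B → Fin s ⊕ J, t (fun b => c (ε (.inr b))) r'
        (ε.symm (e (.inr y)).1) (A (e (.inr y)).1) (e (.inr y)).2 = .inl a := fun y => by
      have h3 := prod_ne_zero_iff.1 hA (e (.inr y)).1 (mem_univ _)
      have h4 : ∀ x, e (.inr y) ≠ (f x, 0) := fun x h =>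
        Sum.inr_ne_inl (e.injective (h.trans (he x).symm))
      generalize e (.inr y) = z at h3 h4
      obtain ⟨j, l⟩ := z
      obtain ⟨z, rfl⟩ := ε.surjective j
      simp only [symm_apply_apply] at h3 ⊢
      rcases z with x | b
      · rcases hz : A (ε (.inl x)) with _ | p
        · exact absurd (hz ▸ rfl) h3
        · fin_cases l
          · exact absurd rfl (h4 x)
          · exact ⟨p.1, fun _ => rfl⟩
          · exact ⟨p.2, fun _ => rfl⟩
      · obtain ⟨a, ha⟩ := hu _ (e2 b) l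
        exact ⟨a, fun _ => ha⟩
    choose P hP using h2
    have h5 : ∀ r' : B → Fin s ⊕ J, (fun y : α × Fin 3 => t (fun b => c (ε (.inr b))) r'
        (ε.symm y.1) (A y.1) y.2) = fun y => Sum.elim r' (fun y' => .inl (P y')) (e.symm y) :=
      fun r' => funext fun y => by
        obtain ⟨z, rfl⟩ := e.surjective y
        rw [symm_apply_apply]
        rcases z with x | y
        · rw [he, ← e1]
          simp only [symm_apply_apply]
          rcases A (ε (.inl x)) with _ | p <;> rfl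
        · exact hP y r'
    have h6 := congrArg (fun z : ℤ => (∏ j, w k q (ε.symm j) (A j)) * (z : ℚ)) (h0 P)
    simp only [Th, Int.cast_sum, Int.cast_mul, mul_sum, Int.cast_zero, mul_zero] at h6
    rw [← h6]
    exact sum_congr rfl fun g _ => by rw [h5, mul_left_comm]
  have h2 : (M c ε r k q).det = 0 := by
    rw [sum_congr rfl fun g hg => by
      rw [det_perm c ε r k q g (mem_filter.1 hg).2, ← mul_assoc, ← Int.cast_mul, ← Units.val_mul,
        Int.units_mul_self, Units.val_one, Int.cast_one, one_mul], sum_const, nsmul_eq_mul] at h1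
    refine (mul_eq_zero.1 h1).resolve_left (Nat.cast_ne_zero.2 (card_ne_zero.2 ⟨1, ?_⟩))
    exact mem_filter.2 ⟨mem_univ _, fun _ => rfl⟩
  obtain ⟨v, v0, hv⟩ := Matrix.exists_mulVec_eq_zero_iff.2 h2
  refine v0 (hI v fun i => ?_)
  have h3 := congrFun hv i
  have n0 : (N (c i) (c i) : ℚ) ≠ 0 := Nat.cast_ne_zero.2 (N_ne _)
  rw [Matrix.mulVec, dotProduct, ← ε.sum_comp, Fintype.sum_sum_type] at h3
  refine (mul_eq_zero.1 (Eq.trans ?_ h3)).resolve_left n0
  rw [mul_add, mul_sum]
  refine congrArg₂ _ (sum_congr rfl fun x _ => by rw [M_inl, e1]; ring) ?_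
  have h4 : ∀ b, ε (.inr b) ≠ i → M c ε r k q i (ε (.inr b)) * v (ε (.inr b)) = 0 := fun b hb => by
    rw [M_inr, N_eq, if_neg fun h => hb (hd _ _ h).symm, Nat.cast_zero, zero_mul]
  split_ifs with h
  · rw [sum_eq_single (⟨i, fun ⟨x, hx⟩ => h x hx⟩ : {i // i ∉ Set.range f})
      (fun b _ hb => h4 b fun h : b.1 = i => hb (Subtype.ext h))
      fun h => absurd (mem_univ _) h, M_inr]
    rfl
  · rw [mul_zero]
    exact (sum_eq_zero fun b _ => h4 b fun hb => h fun x => hb ▸ e2 b x).symm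

end MP7ebc2a.AA
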