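import Pool.Agent.Lib.AA25.Blue3

/-! Almost every partition has many ones, small parts and few parts. -/

namespace MP7ebc2a.AA
open Finset

namespace DP6

lemma ev (k : ℕ) : ∃ h0 : ℕ, ∀ h ≥ h0, (h + 1) ^ k ≤ 2 ^ (h / 10) := by
  have t := (tendsto_pow_const_div_const_pow_of_one_lt k (r := 2) one_lt_two).eventually
    (gt_mem_nhds (show (0 : ℝ) < 1 / 20 ^ k by positivity))
  obtain ⟨g0, hg⟩ := Filter.eventually_atTop.1 t
  refine ⟨10 * (g0 + 1), fun h hh => ?_⟩
  have a := hg (h / 10) (by omega)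
  rw [div_lt_div_iff₀ (by positivity) (by positivity), one_mul, ← mul_pow] at a
  have b : (h / 10 * 20) ^ k < 2 ^ (h / 10) := by exact_mod_cast a
  exact (Nat.pow_le_pow_left (by omega) _).trans b.le

lemma two {h k : ℕ} (h1 : 1 ≤ h) (hh : 2 * k ≤ h) : (h + 1) ^ k ≤ 2 * h ^ k := by
  have h0 : (2 * k : ℝ) ≤ h := by exact_mod_cast hh
  have h1' : (1 : ℝ) ≤ h := by exact_mod_cast h1
  have p : (0 : ℝ) < h + 1 := by linarith
  have u : 1 / ((h : ℝ) + 1) ≤ 1 := by rw [div_le_one p]; linarith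
  have u' : k * (1 / ((h : ℝ) + 1)) ≤ 1 / 2 := by
    rw [mul_one_div, div_le_iff₀ p]
    linarith
  have a := one_add_mul_le_pow (a := -(1 / ((h : ℝ) + 1))) (by linarith) k
  rw [show 1 + -(1 / ((h : ℝ) + 1)) = h / (h + 1) by field_simp; ring, div_pow,
    le_div_iff₀ (by positivity)] at a
  have b : ((h : ℝ) + 1) ^ k ≤ 2 * h ^ k := by
    have q : (0 : ℝ) < (h + 1) ^ k := by positivity
    nlinarith
  exact_mod_cast b

lemma harm {h X : ℕ} (h0 : 2 ≤ h) (X0 : 0 < X) (v : X ≤ 2 ^ (h / 10)) :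
    ∑ i ∈ Icc 1 X, X / i ≤ X * h := by
  have u : (harmonic X : ℝ) ≤ h := by
    refine (harmonic_le_one_add_log _).trans ?_
    have w : Real.log X ≤ Real.log (2 ^ (h / 10)) :=
      Real.log_le_log (Nat.cast_pos.2 X0) (by exact_mod_cast v)
    rw [Real.log_pow] at w
    have x : ((h / 10 + 1 : ℕ) : ℝ) ≤ h := by exact_mod_cast (by omega : h / 10 + 1 ≤ h)
    have y : Real.log 2 ≤ 1 := (Real.log_le_sub_one_of_pos two_pos).trans (by norm_num)
    have z := mul_le_mul_of_nonneg_left y (Nat.cast_nonneg (α := ℝ) (h / 10))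
    rw [Nat.cast_add, Nat.cast_one] at x
    linarith
  have u' : harmonic X ≤ h := by exact_mod_cast u
  have := (EX.harm X X).trans (mul_le_mul_of_nonneg_left u' (Nat.cast_nonneg _))
  exact_mod_cast this

open P3 in
open Classical in
lemma main (k : ℕ) : ∃ h0 : ℕ, ∀ h ≥ h0, ∀ n, h ^ (2 * k + 6) ≤ n → n < (h + 1) ^ (2 * k + 6) →
    h * (univ.filter fun l : Nat.Partition n => ¬ (h ^ (k + 1) ≤ l.parts.count 1 ∧
      (∀ x ∈ l.parts, x ≤ h ^ (k + 4)) ∧ l.parts.card ≤ h ^ (k + 5))).card ≤ 3 * pn n := by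
  have h1 := st_P1
  obtain ⟨h0, hev⟩ := ev (2 * k + 6 + 1)
  refine ⟨max h0 (2 * (2 * k + 6)), fun h hh n n1 n2 => ?_⟩
  obtain ⟨a1, a2⟩ := max_le_iff.1 hh
  have e1 := hev h a1
  have hp : 0 < h := by omega
  have e2 := two hp a2
  have pw : ∀ {a b : ℕ}, a ≤ b → h ^ a ≤ h ^ b := fun hab => Nat.pow_le_pow_right hp hab
  have J0 : 0 < 3 * h ^ (k + 3) := Nat.mul_pos (by omega) (Nat.pow_pos hp)
  have J4 : 4 * n ≤ (3 * h ^ (k + 3)) ^ 2 := by
    rw [mul_pow, ← pow_mul, show (k + 3) * 2 = 2 * k + 6 by ring]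
    omega
  have e3 : (h + 1) * (h + 1) ^ (2 * k + 6) ≤ 2 ^ (h / 10) := (pow_succ' _ _).symm.trans_le e1
  have e4 : n + 1 ≤ 2 ^ (h / 10) :=
    le_trans (le_trans n2 (Nat.le_mul_of_pos_left _ (Nat.succ_pos h))) e3
  have v4 := pw (show k + 4 ≤ 2 * k + 6 by omega)
  have b1 : h * (n * pn (n - h ^ (k + 4))) ≤ pn n := by
    have u : h / 10 * (3 * h ^ (k + 3)) ≤ h ^ (k + 4) := by
      rw [pow_succ' h (k + 3), ← mul_assoc]
      exact Nat.mul_le_mul_right _ (by omega)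
    refine le_trans ?_ (iter h1 J0 J4 (h / 10) (by omega))
    rw [← mul_assoc]
    exact Nat.mul_le_mul ((Nat.mul_le_mul (by omega) n2.le).trans e3) (h1.mono (by omega))
  have hb : h ^ (k + 2) * (n + 1) ^ (2 * h ^ (k + 2)) ≤ pn n := by
    have r0 : 0 < h ^ (k + 2) := Nat.pow_pos hp
    have v := pw (show k + 2 ≤ 2 * k + 6 by omega)
    have u : h / 10 * (3 * h ^ (k + 2)) * (3 * h ^ (k + 3)) ≤ n := by
      refine le_trans ?_ n1
      calc _ = (h / 10 * 9) * (h ^ (k + 2) * h ^ (k + 3)) := by ring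
        _ ≤ h * (h ^ (k + 2) * h ^ (k + 3)) := Nat.mul_le_mul_right _ (by omega)
        _ = h ^ (2 * k + 6) := by ring
    refine le_trans ?_ ((Nat.le_mul_of_pos_right _ Fintype.card_pos).trans (iter h1 J0 J4 _ u))
    calc _ ≤ (n + 1) ^ (h ^ (k + 2)) * (n + 1) ^ (2 * h ^ (k + 2)) :=
          Nat.mul_le_mul_right _ (le_trans (by omega) (Nat.le_self_pow r0.ne' _))
      _ = (n + 1) ^ (3 * h ^ (k + 2)) := by rw [← pow_add]; congr 1; omega
      _ ≤ _ := by rw [pow_mul 2]; exact Nat.pow_le_pow_left e4 _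
  have hs := harm (h := h) (X := h ^ (k + 4)) (by omega) (Nat.pow_pos hp) (by omega)
  have b2 : h * (univ.filter fun l : Nat.Partition n => l.parts.count 1 < h ^ (k + 1)).card ≤
      2 * pn n := by
    have v := (pw (show k + 1 ≤ 2 * k + 6 by omega)).trans n1
    have a := compl h1 (n := n) (i := 1) (t := h ^ (k + 1)) one_pos (by omega)
    have b := step h1 st_P2 (Nat.pow_pos hp) hb (h ^ (k + 1)) v
    rw [one_mul] at a
    refine Nat.le_of_mul_le_mul_left (c := h ^ (k + 1)) ?_ (Nat.pow_pos hp)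
    rw [← mul_assoc, ← pow_succ, ← mul_assoc, mul_comm _ 2]
    nth_rw 1 [← a] at b
    rw [mul_add] at b
    exact Nat.le_of_add_le_add_right (b.trans_eq (add_comm _ _))
  have b3 := big h1 (v4.trans n1)
  have u := (card_le_card (s := univ.filter fun l : Nat.Partition n =>
    ¬ (h ^ (k + 1) ≤ l.parts.count 1 ∧ (∀ x ∈ l.parts, x ≤ h ^ (k + 4)) ∧
      l.parts.card ≤ h ^ (k + 5))) fun l hl => ?_).trans
    (card_union_le (univ.filter fun l : Nat.Partition n =>
      ∃ x ∈ l.parts, h ^ (k + 4) < x * l.parts.count x) (univ.filter fun l : Nat.Partition n =>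
        l.parts.count 1 < h ^ (k + 1)))
  · have v := Nat.mul_le_mul_left h u
    have w := Nat.mul_le_mul_left h b3
    rw [mul_add] at v
    omega
  · by_contra hc
    simp only [mem_union, mem_filter, mem_univ, true_and, not_or, not_exists, not_and,
      not_lt] at hc
    have c1 : ∀ x ∈ l.parts, x ≤ h ^ (k + 4) := fun x hx =>
      (Nat.le_mul_of_pos_right _ (Multiset.count_pos.2 hx)).trans (hc.1 x hx)
    have c2 : ∀ x, x * l.parts.count x ≤ h ^ (k + 4) := fun x => by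
      by_cases hx : x ∈ l.parts
      · exact hc.1 x hx
      · simp [Multiset.count_eq_zero_of_notMem hx]
    refine (mem_filter.1 hl).2 ⟨hc.2, c1, ?_⟩
    rw [← Multiset.sum_count_eq_card (s := Icc 1 (h ^ (k + 4))) fun x hx =>
      mem_Icc.2 ⟨l.parts_pos hx, c1 x hx⟩, pow_succ h (k + 4)]
    exact (sum_le_sum fun i hi => (Nat.le_div_iff_mul_le (mem_Icc.1 hi).1).2
      ((mul_comm _ _).trans_le (c2 i))).trans hs

end DP6

theorem st_P6 : St_P6 := DP6.main 1997

end MP7ebc2a.AA
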