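import Pool.Agent.Lib.AA25.Blue3

/-! Degree three: almost all partitions are typical, and the final count. -/

namespace MP7ebc2a.AA
open Finset

namespace DP7

lemma ev : ∃ h0 : ℕ, ∀ h ≥ h0, h ^ 1996 ≤ 2 ^ h := by
  have h1 := (tendsto_pow_const_div_const_pow_of_one_lt 1996 (r := 2) one_lt_two).eventually
    (gt_mem_nhds zero_lt_one)
  obtain ⟨h0, hh⟩ := Filter.eventually_atTop.1 h1
  refine ⟨h0, fun h hge => ?_⟩
  have h2 := hh h hge
  rw [div_lt_one (by positivity)] at h2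
  exact_mod_cast h2.le

lemma un {ι : Type} (I : Finset ι) (f : ι → ℕ) {h a T p : ℕ} (ha : 0 < a) (hI : I.card ≤ a)
    (hT : a * h ≤ T) (hf : ∀ i ∈ I, T * f i ≤ p) : h * ∑ i ∈ I, f i ≤ p := by
  refine Nat.le_of_mul_le_mul_left ?_ ha
  calc a * (h * ∑ i ∈ I, f i) = a * h * ∑ i ∈ I, f i := by ring
    _ ≤ T * ∑ i ∈ I, f i := Nat.mul_le_mul_right _ hT
    _ = ∑ i ∈ I, T * f i := mul_sum _ _ _
    _ ≤ I.card * p := by simpa using sum_le_card_nsmul I _ p hf
    _ ≤ a * p := Nat.mul_le_mul_right _ hI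

lemma mu_le (h i : ℕ) : mu h i * i ≤ h ^ 1995 :=
  (Nat.mul_le_mul_left _ (le_max_left i (h ^ 1000))).trans (Nat.div_mul_le_self _ _)

end DP7

open Classical in
theorem st_P7 (hS : St_SW) (h6 : St_P6) : St_P7 := by
  obtain ⟨h0, hh0⟩ := h6
  obtain ⟨h1, hh1⟩ := DP7.ev
  refine ⟨h0 + h1 + 2, fun h hh n r1 r2 => ?_⟩
  have hp : 0 < h := by omega
  have pw : ∀ {a b : ℕ}, a ≤ b → h ^ a ≤ h ^ b := fun hab => Nat.pow_le_pow_right hp hab
  have p0 := hh0 h (by omega) n r1 r2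
  obtain ⟨A, hA⟩ : ∃ A : ℕ → Finset (Nat.Partition n), ∀ i, A i = univ.filter fun l =>
    h ^ 1998 ≤ l.parts.count 1 ∧ ∀ j ∈ ({i} : Finset ℕ), l.parts.count j < h ^ 1950 :=
    ⟨_, fun _ => rfl⟩
  obtain ⟨B, hB⟩ : ∃ B : ℕ → Finset (Nat.Partition n), ∀ u, B u = univ.filter fun l =>
    h ^ 1998 ≤ l.parts.count 1 ∧ ∀ j ∈ Ico u (u + h), l.parts.count j < h * mu h j :=
    ⟨_, fun _ => rfl⟩
  have p1 : h * ∑ i ∈ Icc 2 (h ^ 3), (A i).card ≤ pn n := by
    refine DP7.un _ _ (a := h ^ 3) (T := h ^ 44) (Nat.pow_pos hp) (by rw [Nat.card_Icc]; omega)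
      (by rw [← pow_succ]; exact pw (by norm_num)) fun i hi => ?_
    have hi' := mem_Icc.1 hi
    have := hS n (h ^ 1998) (h ^ 44) {i} (fun _ => h ^ 1950)
      (fun j hj => by rw [mem_singleton.1 hj]; exact hi'.1) (by
        rw [sum_singleton]
        calc h ^ 44 * (h ^ 1950 * i) ≤ h ^ 44 * (h ^ 1950 * h ^ 3) :=
              Nat.mul_le_mul_left _ (Nat.mul_le_mul_left _ hi'.2)
          _ = h ^ 1997 := by ring
          _ ≤ h ^ 1998 := pw (by norm_num))
    rw [card_singleton, pow_one] at this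
    rw [hA]
    exact this
  have p2 : h * ∑ u ∈ Ico 22 (h ^ 1995), (B u).card ≤ pn n := by
    refine DP7.un _ _ (a := h ^ 1995) (T := 2 ^ h) (Nat.pow_pos hp) (by rw [Nat.card_Ico]; omega)
      (by rw [← pow_succ]; exact hh1 h (by omega)) fun u hu => ?_
    have hu' := mem_Ico.1 hu
    have := hS n (h ^ 1998) 2 (Ico u (u + h)) (fun j => h * mu h j)
      (fun j hj => by have := (mem_Ico.1 hj).1; omega) (by
        have a1 : ∑ j ∈ Ico u (u + h), h * mu h j * j ≤ (Ico u (u + h)).card • (h * h ^ 1995) :=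
          sum_le_card_nsmul _ _ _ fun j _ => by
            rw [mul_assoc]
            exact Nat.mul_le_mul_left _ (DP7.mu_le h j)
        rw [Nat.card_Ico, Nat.add_sub_cancel_left, smul_eq_mul] at a1
        calc 2 * ∑ j ∈ Ico u (u + h), h * mu h j * j ≤ h * (h * (h * h ^ 1995)) :=
              Nat.mul_le_mul (by omega) a1
          _ = h ^ 1998 := by ring)
    rw [Nat.card_Ico, Nat.add_sub_cancel_left] at this
    rw [hB]
    exact this
  obtain ⟨N, hN⟩ : ∃ N, N = univ.filter fun l : Nat.Partition n => ¬ (h ^ 1998 ≤ l.parts.count 1 ∧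
    (∀ x ∈ l.parts, x ≤ h ^ 2001) ∧ l.parts.card ≤ h ^ 2002) := ⟨_, rfl⟩
  rw [← hN] at p0
  have sub : (univ.filter fun l : Nat.Partition n => ¬ Typ3 h l.parts) ⊆
      N ∪ ((Icc 2 (h ^ 3)).biUnion A ∪ (Ico 22 (h ^ 1995)).biUnion B) := fun l hl => by
    by_contra hn
    simp only [mem_union, mem_biUnion, not_or, not_exists, not_and] at hn
    obtain ⟨n1, n2, n3⟩ := hn
    rw [hN, mem_filter, not_and, not_not] at n1
    obtain ⟨u1, u2, u3⟩ := n1 (mem_univ _)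
    refine (mem_filter.1 hl).2 ⟨fun x hx => ⟨l.parts_pos hx, u2 x hx⟩, u3, fun i i1 i2 => ?_,
      fun u v1 v2 => ?_⟩
    · rcases i1.eq_or_lt with rfl | i3
      · exact (pw (by norm_num)).trans u1
      · refine not_lt.1 fun hc => n2 i (mem_Icc.2 ⟨i3, i2⟩) ?_
        rw [hA]
        exact mem_filter.2 ⟨mem_univ _, u1, fun j hj => by rw [mem_singleton.1 hj]; exact hc⟩
    · by_contra hc
      refine n3 u (mem_Ico.2 ⟨v1, by omega⟩) ?_
      rw [hB]
      exact mem_filter.2 ⟨mem_univ _, u1, fun j hj => not_le.1 fun hj' =>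
        hc ⟨j, (mem_Ico.1 hj).1, (mem_Ico.1 hj).2, hj'⟩⟩
  have c1 := (card_le_card sub).trans ((card_union_le _ _).trans (Nat.add_le_add_left
    ((card_union_le _ _).trans (Nat.add_le_add card_biUnion_le card_biUnion_le)) _))
  have c2 := Nat.mul_le_mul_left h c1
  rw [mul_add, mul_add] at c2
  omega

open Classical in
theorem st_FIN3 (h7 : St_P7) (hM : St_MAIN) : St_FIN3 := by
  intro ε hε
  obtain ⟨N2, hN2⟩ := all_FIN2 ε hε
  obtain ⟨h0, hh0⟩ := h7
  obtain ⟨K, K0, K1, K2⟩ : ∃ K : ℕ, h0 ≤ K ∧ 10 ^ 6 ≤ K ∧ ⌈10 / ε⌉₊ ≤ K :=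
    ⟨h0 + 10 ^ 6 + ⌈10 / ε⌉₊, by omega, by omega, by omega⟩
  refine ⟨N2 + K ^ 4000, fun m d h3 hd hn => ?_⟩
  rcases hd.eq_or_lt with rfl | hd4
  swap
  · exact hN2 m d h3 hd4 (le_trans (Nat.le_add_right _ _) hn)
  obtain ⟨h, r1, r2⟩ := FIN2.root 4000 (3 * m) (by norm_num)
  have s1 : K ≤ h := Nat.lt_succ_iff.1 (lt_of_pow_lt_pow_left₀ 4000 (Nat.zero_le _)
    ((le_trans (Nat.le_add_left _ _) hn).trans_lt r2))
  have hT := st_TRF st_CC
  have s2 : h ^ 2002 ≤ m := by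
    have := n0 (h := h) (K1.trans s1) 2002 4000 (by norm_num)
    generalize h ^ 2002 = a at this ⊢
    generalize h ^ 4000 = b at this r1
    omega
  have p3 := hh0 h (K0.trans s1) (3 * m) r1 r2
  obtain ⟨N, hN⟩ : ∃ N, N = univ.filter fun l : Nat.Partition (3 * m) => ¬ Typ3 h l.parts :=
    ⟨_, rfl⟩
  rw [← hN] at p3
  have t1 : pn (3 * m) ≤ (Wt m (3 * m)).card + N.card := by
    rw [pn, ← card_univ, ← card_filter_add_card_filter_not (s := univ)
      fun l : Nat.Partition (3 * m) => Typ3 h l.parts, hN]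
    refine Nat.add_le_add_right (le_trans (card_le_card fun l hl => ?_) (hT.rowA m _)) _
    exact mem_filter.2 ⟨mem_univ _, (mem_filter.1 hl).2.2.1.trans s2⟩
  have t2 : (Bad m (3 * m)).card ≤ N.card := by
    refine (hT.rowB m 3 (by norm_num)).trans (card_le_card fun l hl => ?_)
    rw [hN]
    exact mem_filter.2 ⟨mem_univ _, fun t => (mem_filter.1 hl).2
      (hM h _ (K1.trans s1) t (by rw [l.parts_sum]; exact Dvd.intro _ rfl))⟩
  have t3 : h * (Bad m (3 * m)).card ≤ 10 * (Wt m (3 * m)).card := by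
    have a1 : 10 * N.card ≤ h * N.card := Nat.mul_le_mul_right _ (by omega)
    have a2 := Nat.mul_le_mul_left h t2
    omega
  have hp' : (0 : ℝ) < h := by exact_mod_cast (by omega : 0 < h)
  have h10 : (10 : ℝ) ≤ h * ε := by
    rw [← div_le_iff₀ hε]
    exact (Nat.le_ceil _).trans (by exact_mod_cast K2.trans s1)
  have b3 : (h : ℝ) * (Bad m (3 * m)).card ≤ 10 * (Wt m (3 * m)).card := by exact_mod_cast t3
  refine le_of_mul_le_mul_left (b3.trans ?_) hp'
  rw [← mul_assoc]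
  exact mul_le_mul_of_nonneg_right h10 (Nat.cast_nonneg _)

end MP7ebc2a.AA
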