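import Pool.Agent.Lib.AA25.Blue3

/-! Degree three: the coefficients of the determinant of polarised monomials. -/

namespace MP7ebc2a.AA
open Equiv Finset

namespace DPHI

variable {α ρ : Type} [DecidableEq ρ]

/-- the number of ways to read `a` on the slots of `t` -/
def N (a t : Fin 3 → ρ) : ℕ := (univ.filter fun σ : Perm (Fin 3) => ∀ l, t (σ l) = a l).card

theorem entry [Fintype ρ] (a : Fin 3 → ρ) (X : Fin 3 → ρ → ℂ) :
    ∑ σ : Perm (Fin 3), ∏ l, X (σ l) (a l) = ∑ t : Fin 3 → ρ, (N a t : ℂ) * ∏ l, X l (t l) := by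
  simp only [N, card_filter, Nat.cast_sum, sum_mul, Nat.cast_ite, Nat.cast_one, Nat.cast_zero,
    ite_mul, one_mul, zero_mul]
  rw [sum_comm]
  refine sum_congr rfl fun σ _ => ?_
  rw [sum_eq_single (fun l => a (σ.symm l)) (fun t _ ht => if_neg fun h => ht (funext fun l => by
    rw [← h, apply_symm_apply])) (fun h => absurd (mem_univ _) h),
    if_pos fun l => congrArg a (σ.symm_apply_apply l), ← Equiv.prod_comp σ fun l => X l (a (σ.symm l))]
  simp only [symm_apply_apply]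

variable [Fintype α] [DecidableEq α]

theorem f0_eq (c : α → Fin 3 → ρ) (P : α × Fin 3 → ρ) : f0 c P =
    ∑ w : Perm α, ((Perm.sign w : ℤˣ) : ℤ) * ∏ j, (N (c (w j)) (fun l => P (j, l)) : ℤ) := by
  rw [f0, Matrix.det_apply']
  rfl

theorem lin [Fintype ρ] (c : α → Fin 3 → ρ) (ζ : α × Fin 3 → ρ → ℂ) :
    F3 c ζ = ∑ P : α × Fin 3 → ρ, (f0 c P : ℂ) * ∏ y, ζ y (P y) := by
  have e : ∀ i j, ∑ σ : Perm (Fin 3), ∏ l, ζ (j, σ l) (c i l) =
      ∑ t : Fin 3 → ρ, (N (c i) t : ℂ) * ∏ l, ζ (j, l) (t l) :=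
    fun i j => entry (c i) fun l => ζ (j, l)
  rw [F3, Matrix.det_apply']
  simp only [Matrix.of_apply, e, f0_eq, prod_univ_sum, Fintype.piFinset_univ, mul_sum, Int.cast_sum,
    Int.cast_mul, Int.cast_prod, Int.cast_natCast, sum_mul]
  rw [sum_comm]
  refine (Fintype.sum_equiv (Equiv.curry α (Fin 3) ρ) _ _ fun P => ?_).symm
  refine sum_congr rfl fun w _ => ?_
  rw [prod_mul_distrib, Fintype.prod_prod_type, mul_assoc]
  rfl

theorem wt (c : α → Fin 3 → ρ) (P : α × Fin 3 → ρ) (h : f0 c P ≠ 0) :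
    ∃ w : Perm (α × Fin 3), (∀ j l l', (w (j, l)).1 = (w (j, l')).1) ∧
      ∀ y, P y = c (w y).1 (w y).2 := by
  rw [f0_eq] at h
  obtain ⟨w, -, hw⟩ := exists_ne_zero_of_sum_ne_zero h
  have k : ∀ j, ∃ σ : Perm (Fin 3), ∀ l, P (j, σ l) = c (w j) l := fun j => by
    have := prod_ne_zero_iff.1 (right_ne_zero_of_mul hw) j (mem_univ j)
    obtain ⟨σ, hσ⟩ := card_ne_zero.1 (Nat.cast_ne_zero.1 this)
    exact ⟨σ, (mem_filter.1 hσ).2⟩
  choose σ hσ using k
  refine ⟨Equiv.prodShear w fun j => (σ j).symm, fun _ _ _ => rfl, fun y => ?_⟩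
  have := hσ y.1 ((σ y.1).symm y.2)
  rw [apply_symm_apply] at this
  exact this

theorem lett (c : α → Fin 3 → ρ) (P : α × Fin 3 → ρ) (w : Perm α) :
    f0 c (fun y => P (w y.1, y.2)) = ((Perm.sign w : ℤˣ) : ℤ) * f0 c P :=
  Matrix.det_permute' w (Matrix.of fun i j : α =>
    (((univ.filter fun σ : Perm (Fin 3) => ∀ l, P (j, σ l) = c i l).card : ℕ) : ℤ))

theorem slot (c : α → Fin 3 → ρ) (P : α × Fin 3 → ρ) (σ : α → Perm (Fin 3)) :
    f0 c (fun y => P (y.1, σ y.1 y.2)) = f0 c P := by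
  refine congrArg Matrix.det (Matrix.ext fun i j => congrArg Nat.cast ?_)
  exact card_equiv (Equiv.mulLeft (σ j)) fun τ => by
    simp only [mem_filter, mem_univ, true_and, Equiv.coe_mulLeft, Perm.coe_mul, Function.comp_apply]

end DPHI

theorem st_PHI : St_PHI := ⟨DPHI.lin, DPHI.wt, DPHI.lett, DPHI.slot⟩

end MP7ebc2a.AA
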