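import Pool.Agent.Lib.AA25.Blue3

/-! Invariance of the determinant of the polarised monomials under lower triangular matrices. -/

namespace MP7ebc2a.AA
open Equiv Finset

namespace DPINV

variable {α J : Type} [Fintype α] [DecidableEq α] [Fintype J] [DecidableEq J] {s : ℕ}

/-- the weight of a variable -/
def wt (x : Fin s ⊕ J) : ℕ := Sum.elim (fun a : Fin s => (a : ℕ)) (fun _ => 0) x

/-- the action of `V` on the monomials -/
def Tm (c : α → Fin 3 → Fin s ⊕ J) (V : Matrix (Fin s ⊕ J) (Fin s ⊕ J) ℂ) : Matrix α α ℂ :=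
  Matrix.of fun i i' =>
    ∑ t : Fin 3 → Fin s ⊕ J with univ.val.map (c i') = univ.val.map t, ∏ l, V (c i l) (t l)

variable {c : α → Fin 3 → Fin s ⊕ J} {U : Matrix (Fin s) (Fin s) ℂ}

omit [Fintype J] in
lemma ent (u1 : ∀ i j, i < j → U i j = 0) {x y : Fin s ⊕ J}
    (h : Matrix.fromBlocks U 0 0 (1 : Matrix J J ℂ) x y ≠ 0) :
    (y = x ∨ ∃ a b, y = .inl a ∧ x = .inl b ∧ a ≤ b) ∧ wt y ≤ wt x ∧ (wt y = wt x → y = x) := by
  rcases x with b | i <;> rcases y with a | j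
  · have k : a ≤ b := not_lt.1 fun k => h (u1 _ _ k)
    exact ⟨Or.inr ⟨a, b, rfl, rfl, k⟩, k, fun e => congrArg Sum.inl (Fin.ext e)⟩
  · exact absurd rfl h
  · exact absurd rfl h
  · have k : i = j := by
      by_contra k
      exact h (Matrix.one_apply_ne k)
    subst k
    exact ⟨Or.inl rfl, le_rfl, fun _ => rfl⟩

omit [Fintype α] [DecidableEq α] [Fintype J] in
lemma wt_le (u1 : ∀ i j, i < j → U i j = 0) {i i' : α} {t : Fin 3 → Fin s ⊕ J}
    (e : univ.val.map (c i') = univ.val.map t)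
    (h : ∏ l, Matrix.fromBlocks U 0 0 (1 : Matrix J J ℂ) (c i l) (t l) ≠ 0) :
    ∑ l, wt (c i' l) ≤ ∑ l, wt (c i l) ∧ (∑ l, wt (c i' l) = ∑ l, wt (c i l) → t = c i) := by
  obtain ⟨w, hw⟩ := FIB.exists_perm e
  have h1 : ∑ l, wt (c i' l) = ∑ l, wt (t l) := by
    rw [← Equiv.sum_comp w fun l => wt (t l)]
    simp only [hw]
  have h3 := fun l => (ent u1 (prod_ne_zero_iff.1 h l (mem_univ l))).2
  have h2 : ∀ l ∈ univ, wt (t l) ≤ wt (c i l) := fun l _ => (h3 l).1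
  rw [h1]
  exact ⟨sum_le_sum h2, fun k => funext fun l =>
    (h3 l).2 ((sum_eq_sum_iff_of_le h2).1 k l (mem_univ l))⟩

lemma det_Tm (h1 : Dist c) (u1 : ∀ i j, i < j → U i j = 0) (u2 : ∀ i, U i i = 1) :
    (Tm c (Matrix.fromBlocks U 0 0 (1 : Matrix J J ℂ))).det = 1 := by
  rw [Matrix.det_apply', sum_eq_single 1 (fun σ _ hσ => ?_) (by simp)]
  · rw [Perm.sign_one, Units.val_one, Int.cast_one, one_mul]
    refine prod_eq_one fun i _ => ?_
    rw [Tm, Perm.one_apply, Matrix.of_apply, sum_eq_single_of_mem (c i) (by simp) fun t ht h => ?_]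
    · refine prod_eq_one fun l _ => ?_
      rcases c i l with a | j
      · exact u2 a
      · exact Matrix.one_apply_eq j
    · by_contra h0
      exact h ((wt_le u1 (mem_filter.1 ht).2 h0).2 rfl)
  · by_contra h0
    have h2 := fun i => exists_ne_zero_of_sum_ne_zero
      (prod_ne_zero_iff.1 (right_ne_zero_of_mul h0) i (mem_univ i))
    choose t ht h3 using h2
    have h4 := fun i => wt_le u1 (mem_filter.1 (ht i)).2 (h3 i)
    have h5 := (sum_eq_sum_iff_of_le fun i _ => (h4 i).1).1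
      (Equiv.sum_comp σ fun i => ∑ l, wt (c i l)).symm
    refine hσ (Equiv.ext fun i => (h1 _ _ ?_).symm)
    rw [← (h4 i).2 (h5 i (mem_univ i))]
    exact (mem_filter.1 (ht i)).2

omit [Fintype α] [DecidableEq α] in
lemma per {ρ : Type} (ζ : α × Fin 3 → ρ → ℂ) (j : α) {t t' : Fin 3 → ρ}
    (e : univ.val.map t = univ.val.map t') :
    ∑ σ : Perm (Fin 3), ∏ l, ζ (j, σ l) (t l) = ∑ σ : Perm (Fin 3), ∏ l, ζ (j, σ l) (t' l) := by
  obtain ⟨w, hw⟩ := FIB.exists_perm e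
  rw [← Equiv.sum_comp (Equiv.mulRight w)]
  refine sum_congr rfl fun σ _ => ?_
  rw [← Equiv.prod_comp w fun l => ζ (j, σ l) (t' l)]
  simp only [hw, coe_mulRight, Perm.mul_apply]

omit [DecidableEq α] in
lemma mul (h1 : Dist c) (h2 : Cl c) (u1 : ∀ i j, i < j → U i j = 0)
    (ζ : α × Fin 3 → Fin s ⊕ J → ℂ) :
    (Matrix.of fun i j : α => ∑ σ : Perm (Fin 3), ∏ l,
      (Matrix.fromBlocks U 0 0 (1 : Matrix J J ℂ)).mulVec (ζ (j, σ l)) (c i l)) =
    Tm c (Matrix.fromBlocks U 0 0 (1 : Matrix J J ℂ)) *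
      Matrix.of fun i j : α => ∑ σ : Perm (Fin 3), ∏ l, ζ (j, σ l) (c i l) := by
  ext i j
  generalize hV : Matrix.fromBlocks U 0 0 (1 : Matrix J J ℂ) = V
  have k : ∀ σ : Perm (Fin 3), ∏ l, V.mulVec (ζ (j, σ l)) (c i l) =
      ∑ t : Fin 3 → Fin s ⊕ J, (∏ l, V (c i l) (t l)) * ∏ l, ζ (j, σ l) (t l) := fun σ => by
    simp only [Matrix.mulVec, dotProduct, prod_univ_sum, Fintype.piFinset_univ, prod_mul_distrib]
  rw [Matrix.of_apply, Matrix.mul_apply, sum_congr rfl fun σ _ => k σ, sum_comm]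
  simp only [Tm, Matrix.of_apply, sum_filter]
  refine Eq.trans ?_ (sum_congr rfl fun i' _ => sum_mul _ _ _).symm
  refine Eq.trans (sum_congr rfl fun t _ => ?_) sum_comm
  rw [← mul_sum]
  by_cases h : ∏ l, V (c i l) (t l) = 0
  · simp [h]
  · obtain ⟨i', e⟩ := h2 i t fun l =>
      (ent u1 (by rw [hV]; exact prod_ne_zero_iff.1 h l (mem_univ l))).1
    rw [sum_eq_single i' (fun k _ hk => by
      rw [if_neg fun e' => hk (h1 _ _ (e'.trans e.symm)), zero_mul]) (by simp), if_pos e,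
      per ζ j e]

end DPINV

theorem st_PINV : St_PINV := by
  intro α J _ _ _ _ s c U ζ h1 h2 u1 u2
  rw [F3, F3, DPINV.mul h1 h2 u1, Matrix.det_mul, DPINV.det_Tm h1 u1 u2, one_mul]

end MP7ebc2a.AA
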