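import Pool.Agent.Lib.AA25.Blue3

/-! Row QUADS: generic quadrics. -/

open Finset Matrix

namespace MP7ebc2a.AA

namespace DQUADS

open Polynomial in
theorem gen {ι : Type} [Fintype ι] [DecidableEq ι] (A B : Matrix ι ι ℚ)
    (h : (∀ v, A *ᵥ v = 0 → v = 0) ∨ ∀ v, B *ᵥ v = 0 → v = 0) :
    {e : ℚ | ¬∀ v, ((1 - e) • A + e • B) *ᵥ v = 0 → v = 0}.Finite := by
  have key : ∀ D : Matrix ι ι ℚ, (¬∀ v, D *ᵥ v = 0 → v = 0) ↔ D.det = 0 := fun D => by
    rw [← Matrix.exists_mulVec_eq_zero_iff]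
    push Not
    exact exists_congr fun v => and_comm
  set p : ℚ[X] := (Matrix.of fun i j => (1 - X) * C (A i j) + X * C (B i j)).det with hp
  have ev : ∀ e, p.eval e = ((1 - e) • A + e • B).det := fun e => by
    rw [hp, ← coe_evalRingHom, RingHom.map_det]
    congr 1
    ext i j
    simp [mul_comm e]
  have p0 : p ≠ 0 := fun c => by
    rcases h with h | h
    · exact (key A).2 (by simpa [c] using (ev 0).symm) h
    · exact (key B).2 (by simpa [c] using (ev 1).symm) h
  refine (finite_setOfPred_isRoot p0).subset fun e he => ?_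
  exact (ev e).trans ((key _).1 he)

theorem tri {s : ℕ} {x y z x' y' z' : Fin s} (h : ({x, y, z} : Multiset (Fin s)) = {x', y', z'}) :
    ((x : ℕ) = x' ∨ (x : ℕ) = y' ∨ (x : ℕ) = z') ∧ ((y : ℕ) = x' ∨ (y : ℕ) = y' ∨ (y : ℕ) = z') ∧
    ((z : ℕ) = x' ∨ (z : ℕ) = y' ∨ (z : ℕ) = z') ∧ ((x' : ℕ) = x ∨ (x' : ℕ) = y ∨ (x' : ℕ) = z) ∧
    ((y' : ℕ) = x ∨ (y' : ℕ) = y ∨ (y' : ℕ) = z) ∧ ((z' : ℕ) = x ∨ (z' : ℕ) = y ∨ (z' : ℕ) = z) ∧
    (x : ℕ) + (y + z) = x' + (y' + z') := by
  have m : ∀ u : Fin s, (u = x ∨ u = y ∨ u = z) ↔ u = x' ∨ u = y' ∨ u = z' := fun u => by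
    simpa using (congrArg (u ∈ ·) h).to_iff
  simp only [← Fin.ext_iff]
  exact ⟨(m x).1 (by simp), (m y).1 (by simp), (m z).1 (by simp), (m x').2 (by simp),
    (m y').2 (by simp), (m z').2 (by simp),
    by simpa using congrArg (fun t => (t.map Fin.val).sum) h⟩

theorem pairs (s n : ℕ) (h : n ≤ (s / 2 + 1).choose 2) : ∃ a b a' b' : Fin n → Fin s,
    (∀ k, (a k : ℕ) ≤ b k ∧ (b k : ℕ) < s / 2 ∧ (a' k : ℕ) = a k + s / 2 ∧ (b' k : ℕ) = b k + s / 2) ∧
    ∀ k k', (a k : ℕ) = a k' → (b k : ℕ) = b k' → k = k' := by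
  obtain ⟨m⟩ : Nonempty (Fin n ↪ {p : Fin (s / 2) × Fin (s / 2) // p.1 ≤ p.2}) :=
    Function.Embedding.nonempty_of_card_le (by
      rw [← Fintype.card_congr Sym2.sortEquiv, Sym2.card]; simpa using h)
  refine ⟨fun k => ⟨(m k).1.1, by have := (m k).1.1.2; omega⟩,
    fun k => ⟨(m k).1.2, by have := (m k).1.2.2; omega⟩,
    fun k => ⟨(m k).1.1 + s / 2, by have := (m k).1.1.2; omega⟩,
    fun k => ⟨(m k).1.2 + s / 2, by have := (m k).1.2.2; omega⟩,
    fun k => ⟨(m k).2, (m k).1.2.2, rfl, rfl⟩, fun k k' e e' => m.injective ?_⟩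
  exact Subtype.ext (Prod.ext (Fin.ext e) (Fin.ext e'))

variable {s n : ℕ}

/-- the coefficient of a monomial in the product of a variable and a quadric -/
def co (q : ℕ → Fin s → Fin s → ℚ) (S : Sym (Fin s) 3) (x : Fin s × Fin n) : ℚ :=
  ∑ a, ∑ b, if S.1 = {x.1, a, b} then q x.2 a b else 0

/-- the matrix of the linear system -/
def mt (π : Fin s × Fin n → Sym (Fin s) 3) (q : ℕ → Fin s → Fin s → ℚ) :
    Matrix (Sym (Fin s) 3) (Sym (Fin s) 3) ℚ := Matrix.of fun S T =>
  ∑ x, (if π x = T then co q S x else 0) + if T = S then (if ∀ x, π x ≠ S then 1 else 0) else 0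

theorem mt_mul (π : Fin s × Fin n → Sym (Fin s) 3) (q : ℕ → Fin s → Fin s → ℚ)
    (v : Sym (Fin s) 3 → ℚ) (S : Sym (Fin s) 3) :
    (mt π q *ᵥ v) S = ∑ x, v (π x) * co q S x + if ∀ x, π x ≠ S then v S else 0 := by
  simp only [mt, Matrix.mulVec, dotProduct, Matrix.of_apply, add_mul, sum_add_distrib, sum_mul,
    ite_mul, zero_mul, one_mul, sum_ite_eq', mem_univ, if_true]
  rw [sum_comm]
  simp only [sum_ite_eq, mem_univ, if_true, mul_comm]

theorem mt_lin (π : Fin s × Fin n → Sym (Fin s) 3) (q q' : ℕ → Fin s → Fin s → ℚ) (e : ℚ) :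
    mt π (fun k a b => (1 - e) * q k a b + e * q' k a b) = (1 - e) • mt π q + e • mt π q' := by
  have c : ∀ S (x : Fin s × Fin n), co (fun k a b => (1 - e) * q k a b + e * q' k a b) S x =
      (1 - e) * co q S x + e * co q' S x := fun S x => by
    simp only [co, mul_sum, ← sum_add_distrib]
    exact sum_congr rfl fun a _ => sum_congr rfl fun b _ => by split_ifs <;> simp
  ext S T
  have d : ∑ x, (if π x = T then (1 - e) * co q S x + e * co q' S x else 0) =
      (1 - e) * ∑ x, (if π x = T then co q S x else 0) +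
        e * ∑ x, if π x = T then co q' S x else 0 := by
    simp only [mul_sum, ← sum_add_distrib]
    exact sum_congr rfl fun a _ => by split_ifs <;> simp
  simp only [mt, c, d, Matrix.of_apply, Matrix.add_apply, Matrix.smul_apply, smul_eq_mul]
  ring

theorem base (s n : ℕ) (h : n ≤ (s / 2 + 1).choose 2) :
    ∃ (q : ℕ → Fin s → Fin s → ℚ) (π : Fin s × Fin n → Sym (Fin s) 3), Function.Injective π ∧
      (∀ k a b, b < a → q k a b = 0) ∧ ∀ v, mt π q *ᵥ v = 0 → v = 0 := by
  obtain ⟨a, b, a', b', h1, h2⟩ := pairs s n h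
  let π : Fin s × Fin n → Sym (Fin s) 3 := fun x =>
    ⟨if s / 2 ≤ x.1 then {x.1, a x.2, b x.2} else {x.1, a' x.2, b' x.2}, by split_ifs <;> rfl⟩
  let ν : Fin s × Fin n → Sym (Fin s) 3 := fun x =>
    ⟨if s / 2 ≤ x.1 then {x.1, a' x.2, b' x.2} else {x.1, a x.2, b x.2}, by split_ifs <;> rfl⟩
  have inj : Function.Injective π := fun x y e => by
    have := h1 x.2
    have := h1 y.2
    have e := congrArg Subtype.val e
    dsimp only [π] at e
    split_ifs at e <;> have := tri e <;>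
      exact Prod.ext (Fin.ext (by omega)) (h2 _ _ (by omega) (by omega))
  have ne : ∀ x y, π y ≠ ν x := fun x y e => by
    have := h1 x.2
    have := h1 y.2
    have e := congrArg Subtype.val e
    dsimp only [π, ν] at e
    split_ifs at e <;> have := tri e <;> omega
  refine ⟨fun k u w => if h : k < n then (if w = b ⟨k, h⟩ then if u = a ⟨k, h⟩ then 1 else 0 else 0) +
    (if w = b' ⟨k, h⟩ then if u = a' ⟨k, h⟩ then 1 else 0 else 0) else 0, π, inj,
    fun k u w l => ?_, fun v hv => ?_⟩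
  · by_cases c : k < n
    · have := h1 ⟨k, c⟩
      have l' : (w : ℕ) < u := l
      simp only [dif_pos c, Fin.ext_iff]
      split_ifs <;> first | omega | simp
    · exact dif_neg c
  have c : ∀ S x, co (fun k u w => if h : k < n then
      (if w = b ⟨k, h⟩ then if u = a ⟨k, h⟩ then 1 else 0 else 0) +
      (if w = b' ⟨k, h⟩ then if u = a' ⟨k, h⟩ then 1 else 0 else 0) else 0) S x =
      (if S = π x then 1 else 0) + if S = ν x then 1 else 0 := fun S x => by
    have i : ∀ (p : Prop) [Decidable p] (r t : ℚ), (if p then r + t else 0) =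
        (if p then r else 0) + if p then t else 0 := fun p _ r t => by split_ifs <;> simp
    have j : ∀ u₀ w₀ : Fin s, (∑ u, ∑ w, if S.1 = {x.1, u, w} then
        (if w = w₀ then if u = u₀ then (1 : ℚ) else 0 else 0) else 0) =
        if S.1 = {x.1, u₀, w₀} then 1 else 0 := fun u₀ w₀ => by
      rw [sum_eq_single u₀ (fun u _ c => by simp [c]) (by simp),
        sum_eq_single w₀ (fun u _ c => by simp [c]) (by simp), if_pos rfl, if_pos rfl]
    have k : ∀ (T : Sym (Fin s) 3) (m : Multiset (Fin s)), T.1 = m →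
        (if S = T then (1 : ℚ) else 0) = if S.1 = m then 1 else 0 := fun T m e =>
      if_congr (e ▸ Subtype.ext_iff) rfl rfl
    simp only [co, dif_pos x.2.2, i, sum_add_distrib, j]
    by_cases d : s / 2 ≤ x.1
    · rw [k (π x) _ (if_pos d), k (ν x) _ (if_pos d)]
    · rw [k (π x) _ (if_neg d), k (ν x) _ (if_neg d), add_comm]
  have e := fun S => (mt_mul π _ v S).symm.trans (congrFun hv S)
  simp only [c, Pi.zero_apply] at e
  have z : ∀ y, v (π y) = 0 := fun y => by
    have := e (π y)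
    rw [if_neg fun c => c y rfl, sum_eq_single y (fun x _ c => by
      rw [if_neg (ne x y), if_neg fun d => c (inj d).symm]; simp) (by simp), if_neg (ne y y)] at this
    simpa using this
  funext S
  by_cases d : ∀ x, π x ≠ S
  · simpa [z, d] using e S
  · push Not at d
    obtain ⟨x, rfl⟩ := d
    exact z x

end DQUADS

open DQUADS in
theorem st_QUADS : St_QUADS := by
  intro J _ s n G hn hG _
  obtain ⟨q, π, inj, q0, hq⟩ := base s n hn
  let q' : ℕ → Fin s → Fin s → ℚ := fun k a b =>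
    if a ≤ b then ((finProdFinEquiv (a, b) : ℕ) : ℚ) ^ k else 0
  let W : ∀ j, (ℕ → Fin s → Fin s → ℚ) → Matrix (Fin (G j).card) (Fin (G j).card) ℚ := fun j q =>
    Matrix.of fun i k => q k ((G j).equivFin.symm i).1.1 ((G j).equivFin.symm i).1.2
  have hW : ∀ j v, W j q' *ᵥ v = 0 → v = 0 := fun j v hv =>
    Matrix.eq_zero_of_forall_index_sum_mul_pow_eq_zero
      (f := fun i => ((finProdFinEquiv ((G j).equivFin.symm i).1 : ℕ) : ℚ))
      (fun i i' e => (G j).equivFin.symm.injective (Subtype.ext (finProdFinEquiv.injective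
        (Fin.ext (Nat.cast_injective e))))) fun i => by
      simpa [W, q', Matrix.mulVec, dotProduct, hG j _ ((G j).equivFin.symm i).2, mul_comm]
        using congrFun hv i
  obtain ⟨e, he⟩ := ((gen (mt π q) (mt π q') (Or.inl hq)).union
    (Set.finite_iUnion fun j => gen (W j q) (W j q') (Or.inr (hW j)))).exists_notMem
  simp only [Set.mem_union, Set.mem_iUnion, Set.mem_ofPred_eq, not_or, not_exists, not_not] at he
  refine ⟨fun k a b => (1 - e) * q k a b + e * q' k a b, π, inj, fun k a b l => ?_,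
    fun v hv => he.1 v ?_, fun j v hv => he.2 j v ?_⟩
  · simp [q0 k a b l, q', l.not_ge]
  · rw [← mt_lin]
    exact funext fun S => (mt_mul π _ v S).trans (hv S)
  · funext i
    simpa [W, Matrix.mulVec, dotProduct, mul_comm] using hv _ ((G j).equivFin.symm i).2

end MP7ebc2a.AA
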