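import Pool.Agent.Lib.AA25.Blue3

/-! Families with arms: change of index sets and the closure rules. -/

namespace MP7ebc2a.AA
open Equiv Finset

namespace DREAL

lemma trb (hE : St_EV) {κ κ' α α' : Type} [Fintype κ] [DecidableEq κ] [Fintype κ'] [DecidableEq κ']
    [Fintype α] [Fintype α'] {c : ℕ} {ν : κ → ℕ} {ν' : κ' → ℕ} {p : κ → Prop} {p' : κ' → Prop}
    (w : κ → κ') (e : α ≃ α') (hw : Function.Injective w) (h1 : ∀ r, ν r = ν' (w r))
    (h0 : ∀ r', ν' r' = 0 ∨ ∃ r, w r = r') (hp : ∀ r, p' (w r) → p r)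
    (h : FB c (Bx ν) α (fun x => (x.2 : ℕ)) (fun x => x.1) fun x => p x.1) :
    FB c (Bx ν') α' (fun x => (x.2 : ℕ)) (fun x => x.1) fun x => p' x.1 := by
  refine hE.tr c _ _ _ _ _ _
    (Equiv.ofBijective (fun x : Bx ν => (⟨w x.1, Fin.cast (h1 _) x.2⟩ : Bx ν')) ⟨?_, ?_⟩) e
    (fun _ => rfl) (fun x y => hw.eq_iff.symm) (fun x => hp x.1) h
  · rintro ⟨r, i⟩ ⟨r', i'⟩ h
    obtain rfl : r = r' := hw (congrArg Sigma.fst h)
    have : (i : ℕ) = i' := congrArg (fun x : Bx ν' => (x.2 : ℕ)) h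
    rw [Fin.ext this]
  · rintro ⟨r', i⟩
    rcases h0 r' with z | ⟨r, rfl⟩
    · exact absurd (i.2.trans_eq z) (Nat.not_lt_zero _)
    · exact ⟨⟨r, Fin.cast (h1 r).symm i⟩, rfl⟩

lemma eqv {J J' : Type} [Fintype J] [Fintype J'] {t : J → ℕ} {t' : J' → ℕ}
    (h : univ.val.map t = univ.val.map t') : ∃ w : J ≃ J', ∀ j, t' (w j) = t j := by
  refine FIB.exists_equiv t t' fun a => ?_
  have := congrArg (Multiset.countP (· = a)) h
  rw [Multiset.countP_map, Multiset.countP_map] at this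
  exact this

lemma msum {A B : Type} [Fintype A] [Fintype B] (g : A ⊕ B → ℕ) :
    univ.val.map g = (univ.val.map fun a => g (.inl a)) + univ.val.map fun b => g (.inr b) := by
  rw [← univ_disjSum_univ, val_disjSum, Multiset.disjSum, Multiset.map_add, Multiset.map_map,
    Multiset.map_map]
  rfl

lemma swap (hE : St_EV) {J J' K K' : Type} [Fintype J] [DecidableEq J] [Fintype J'] [DecidableEq J']
    [Fintype K] [DecidableEq K] [Fintype K'] [DecidableEq K'] {c m : ℕ} {t : J → ℕ} {o : J' → ℕ}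
    {t' : K → ℕ} {o' : K' → ℕ} (ht : univ.val.map t = univ.val.map t')
    (ho : univ.val.map o = univ.val.map o')
    (h : FB c (Bx (Sum.elim o t)) (Fin m) (fun x => (x.2 : ℕ)) (fun x => x.1)
      fun x => x.1.isRight = true) :
    FB c (Bx (Sum.elim o' t')) (Fin m) (fun x => (x.2 : ℕ)) (fun x => x.1)
      fun x => x.1.isRight = true := by
  obtain ⟨a, ha⟩ := eqv ht
  obtain ⟨b, hb⟩ := eqv ho
  exact trb hE (ν' := Sum.elim o' t') (p := fun r => r.isRight = true)
    (p' := fun r => r.isRight = true) (b.sumCongr a)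
    (Equiv.refl _) (Equiv.injective _) (by rintro (r | r) <;> simp [ha, hb])
    (fun r => Or.inr ((b.sumCongr a).surjective r)) (by rintro (r | r) <;> simp) h

end DREAL

open DREAL in
theorem st_REAL (hE : St_EV) : St_REAL := by
  intro J J' _ _ _ _ c t o
  refine ⟨fun ⟨n, n', m, t0, o0, h1, h2, h⟩ => ⟨m, swap hE h1 h2 h⟩, fun ⟨m, h⟩ => ?_⟩
  have a := (Multiset.map_map t (Fintype.equivFin J).symm _).symm.trans
    (congrArg _ (Multiset.map_univ_val_equiv (Fintype.equivFin J).symm))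
  have b := (Multiset.map_map o (Fintype.equivFin J').symm _).symm.trans
    (congrArg _ (Multiset.map_univ_val_equiv (Fintype.equivFin J').symm))
  exact ⟨_, _, m, _, _, a, b, swap hE a.symm b.symm h⟩

namespace DREAL

/-- a family without arms -/
lemma of_fb (hE : St_EV) (hR : St_REAL) {κ α : Type} [Fintype κ] [DecidableEq κ] [Fintype α]
    {c : ℕ} {ν : κ → ℕ} {p : κ → Prop}
    (h : FB c (Bx ν) α (fun x => (x.2 : ℕ)) (fun x => x.1) fun x => p x.1) :
    AR c 0 (univ.val.map ν) :=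
  (hR c (fun e : Empty => e.elim) ν).2 ⟨_, trb hE (p' := fun r => r.isRight = true) Sum.inl
    (Fintype.equivFin α) Sum.inl_injective (fun _ => rfl)
    (by rintro (r | r); exacts [Or.inr ⟨r, rfl⟩, r.elim]) (fun r e => by simp at e) h⟩

end DREAL

open DREAL in
theorem st_AR (hE : St_EV) (hR : St_REAL) (hA : St_ADD) (hG : ∀ c M, AR c 0 M → GD 3 M) :
    St_AR := by
  refine ⟨fun c k k' => ?_, ?_, ?_, hG, ?_, fun c c' P O hc h1 h2 hO => ?_⟩
  · have : IsEmpty (Bx (Sum.elim (fun _ : Fin k' => 0) fun _ : Fin k => 0)) :=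
      ⟨by rintro ⟨r | r, i⟩ <;> exact i.elim0⟩
    refine ⟨k, k', 0, fun _ => 0, fun _ => 0, by simp, by simp, Equiv.equivOfIsEmpty _ _, 0,
      ⟨fun _ _ => by simp, fun _ _ _ _ _ _ => rfl⟩, ?_, fun j => j.elim0⟩
    rw [Ev, Finset.sum_eq_single 1 (fun g _ e => absurd (Subsingleton.elim _ _) e) (by simp)]
    simp
  · rintro c _ _ _ _ ⟨n, n', m, t, o, rfl, rfl, h⟩ ⟨l, l', m', t', o', rfl, rfl, h'⟩
    have s := hE.tr c _ _ _ (fun x : Bx (Sum.elim (Sum.elim o t) (Sum.elim o' t')) => (x.2 : ℕ))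
      (fun x => x.1) (fun x => (Equiv.sumSumSumComm _ _ _ _ x.1).isRight = true)
      (Equiv.sumSigmaDistrib fun k => Fin (Sum.elim (Sum.elim o t) (Sum.elim o' t') k)).symm
      finSumFinEquiv (by rintro (x | x) <;> rfl)
      (by rintro (x | x) (y | y) <;> exact Iff.rfl)
      (by rintro (⟨r | r, i⟩ | ⟨r | r, i⟩) <;> exact id) (hE.prod c _ _ _ _ _ _ h h')
    have := (hR c (Sum.elim t t') (Sum.elim o o')).2 ⟨_, trb hE
      (p := fun r => (Equiv.sumSumSumComm _ _ _ _ r).isRight = true)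
      (p' := fun r => r.isRight = true) (Equiv.sumSumSumComm _ _ _ _) (Equiv.refl _)
      (Equiv.injective _) (by rintro ((r | r) | (r | r)) <;> rfl)
      (fun r => Or.inr (Equiv.surjective _ r)) (fun _ => id) s⟩
    rwa [msum, msum (Sum.elim o o')] at this
  · rintro c c' E O hc ⟨n, n', m, t, o, h1, h2, τ, ω, a, b⟩
    exact ⟨n, n', m, t, o, h1, h2, τ, ω,
      ⟨a.1, fun s k k' e x y => a.2 s k k' e (x.trans_le hc) (y.trans_le hc)⟩, b⟩
  · rintro c _ _ ⟨n, n', m, t, o, rfl, rfl, h⟩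
    have := of_fb hE hR (p := fun r => Sum.isRight r = true) h
    rwa [msum, add_comm] at this
  · obtain ⟨n, f, rfl, -⟩ := CH.sorted P Prod.fst
    obtain ⟨n', o, rfl, -⟩ := CH.sorted O id
    rw [fs, Multiset.map_map] at h1
    rw [sn, Multiset.map_map] at h2
    obtain ⟨m, a⟩ := (hR c (fun e : Empty => e.elim) _).1 h1
    obtain ⟨m', b⟩ := (hR c' _ _).1 h2
    have := of_fb hE hR (p := fun _ => False) (hA (Sum.elim (fun _ => 0) (Prod.fst ∘ f))
      (Sum.elim o (Prod.snd ∘ f)) (fun r => r.isLeft = true) c c' hc ?_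
      (trb hE (p := fun r => r.isRight = true) (p' := fun _ => False)
        (Sum.elim Sum.inr fun e : Empty => e.elim) (Equiv.refl _) ?_ ?_ ?_ (fun _ e => e.elim) a)
      (trb hE (p := fun r => Sum.isRight r = true) (p' := fun r => ¬Sum.isLeft r = true)
        (ν := Sum.elim o (Prod.snd ∘ f)) id (Equiv.refl _)
        Function.injective_id (fun _ => rfl) (fun r => Or.inr ⟨r, rfl⟩)
        (by rintro (r | r) <;> simp) b))
    · rw [msum, add_comm] at this
      rw [tot, Multiset.map_map]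
      simpa only [Sum.elim_inl, Sum.elim_inr, zero_add, Function.comp_def] using this
    · rintro (r | r) e
      · simpa using hO _ (Multiset.mem_map_of_mem _ (mem_univ_val r))
      · simp at e
    · rintro (r | r) (s | s) e
      exacts [congrArg _ (Sum.inr_injective e), s.elim, r.elim, r.elim]
    · rintro (r | r)
      exacts [rfl, r.elim]
    · rintro (r | r)
      exacts [Or.inl rfl, Or.inr ⟨.inl r, rfl⟩]

end MP7ebc2a.AA
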