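import Pool.Agent.Lib.AA25.Blue3

/-! Degree three: shifting the positions inside the rows. -/

namespace MP7ebc2a.AA
open Equiv Finset Polynomial

namespace DSHIFT

variable {κ : Type} [Fintype κ] [DecidableEq κ] (a : κ → ℕ) {b : κ → ℕ}

/-- the matrix of the falling factorials, row by row -/
def mx (P : Bx b → ℕ) : Matrix (Bx b) (Bx b) ℤ := Matrix.of fun x y =>
  if x.1 = y.1 then ((a x.1 + x.2).descFactorial (P y) : ℤ) else 0

theorem det_mx (P : Bx b → ℕ) : (mx a P).det = ∑ g : Perm (Bx b) with ∀ x, (g x).1 = x.1,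
    ((Perm.sign g : ℤˣ) : ℤ) * ∏ x, ((a (g x).1 + (g x).2).descFactorial (P x) : ℤ) := by
  rw [Matrix.det_apply', sum_filter]
  refine sum_congr rfl fun g _ => ?_
  simp only [mx, Matrix.of_apply, prod_ite_zero, mem_univ, true_imp_iff, mul_ite, mul_zero,
    Int.cast_id]

theorem det_ne : (mx a fun x : Bx b => (x.2 : ℕ)).det ≠ 0 := fun h => by
  obtain ⟨v, v0, hv⟩ := Matrix.exists_mulVec_eq_zero_iff.2 h
  refine v0 (funext fun ⟨r, i⟩ => congrFun (Matrix.eq_zero_of_mulVec_eq_zero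
    (M := Matrix.of fun i j : Fin (b r) => (descPochhammer ℤ j).eval ((a r + i : ℕ) : ℤ))
    (v := fun j => v ⟨r, j⟩) ?_ (funext fun i => ?_)) i)
  · rw [← Matrix.det_eval_matrixOfPolynomials_eq_det_vandermonde _ _
      (fun i => descPochhammer_natDegree ℤ i) fun i => monic_descPochhammer ℤ i,
      Matrix.det_vandermonde_ne_zero_iff]
    exact fun i j h => Fin.ext (by simpa using h)
  · have := congrFun hv ⟨r, i⟩
    rw [Matrix.mulVec, dotProduct, Fintype.sum_sigma, sum_eq_single r (fun r' _ h => by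
      simp [mx, h.symm]) (by simp)] at this
    simpa only [mx, Matrix.of_apply, if_true, Matrix.mulVec, dotProduct,
      descPochhammer_eval_eq_descFactorial, Pi.zero_apply] using this

theorem det_perm (g : Perm (Bx b)) (hg : ∀ x, (g x).1 = x.1) :
    (mx a fun x => ((g x).2 : ℕ)).det =
      ((Perm.sign g : ℤˣ) : ℤ) * (mx a fun x : Bx b => (x.2 : ℕ)).det := by
  rw [← Int.cast_id (n := ((Perm.sign g : ℤˣ) : ℤ)), ← Matrix.det_permute']
  congr 1
  ext x y
  simp only [mx, Matrix.of_apply, Matrix.submatrix_apply, id, hg]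

theorem inj {P : Bx b → ℕ} (h : (mx a P).det ≠ 0) (x y : Bx b) (e : x.1 = y.1) (e' : P x = P y) :
    x = y := by_contra fun hn => h (Matrix.det_zero_of_column_eq hn fun k => by
      simp only [mx, Matrix.of_apply, e, e'])

/-- the new function -/
noncomputable def om (D : ℕ) (ω : (Fin 3 → ℕ) → ℤ) (t : Fin 3 → ℕ) : ℤ[X] :=
  ∑ p : Fin 3 → Fin D,
    C ((∏ k, ((t k).descFactorial (p k) : ℤ)) * ω fun k => p k) * X ^ ∑ k, (p k : ℕ)

theorem alt (D : ℕ) {c : ℕ} {ω : (Fin 3 → ℕ) → ℤ} (h : Alt c ω) : Alt c (om D ω) := by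
  refine ⟨fun σ t => ?_, fun t k k' hk h1 h2 => sum_eq_zero fun p _ => ?_⟩
  · rw [om, om, mul_sum, ← (σ.symm.arrowCongr (Equiv.refl (Fin D))).sum_comp]
    refine sum_congr rfl fun p _ => ?_
    simp only [arrowCongr_apply, symm_symm, Equiv.coe_refl, Function.comp, id]
    rw [h.1 σ fun k => p k, Equiv.prod_comp σ fun k => ((t k).descFactorial (p k) : ℤ),
      Equiv.sum_comp σ fun k => (p k : ℕ), mul_left_comm, C_mul, mul_assoc]
    rfl
  · have z : ∀ k, t k < c → c ≤ p k → ∏ k, ((t k).descFactorial (p k) : ℤ) = 0 := fun k h1 h2 =>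
      prod_eq_zero (mem_univ k) (by rw [Nat.descFactorial_of_lt (h1.trans_le h2), Nat.cast_zero])
    rcases le_or_gt c (p k) with e | e
    · rw [z k h1 e, zero_mul, C_0, zero_mul]
    rcases le_or_gt c (p k') with e' | e'
    · rw [z k' h2 e', zero_mul, C_0, zero_mul]
    · rw [h.2 _ k k' hk e e', mul_zero, C_0, zero_mul]

theorem prod_om {β α : Type} [Fintype β] [DecidableEq β] [Fintype α] (D : ℕ)
    (ω : (Fin 3 → ℕ) → ℤ) (τ : β ≃ α × Fin 3) (t : β → ℕ) :
    ∏ j, om D ω (fun k => t (τ.symm (j, k))) = ∑ P : β → Fin D,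
      C ((∏ x, ((t x).descFactorial (P x) : ℤ)) * ∏ j, ω fun k => P (τ.symm (j, k))) *
        X ^ ∑ x, (P x : ℕ) := by
  classical
  simp only [om]
  rw [prod_univ_sum, Fintype.piFinset_univ]
  refine (Fintype.sum_equiv ((τ.arrowCongr (Equiv.refl _)).trans (Equiv.curry _ _ _)) _ _
    fun P => ?_).symm
  rw [prod_mul_distrib, ← map_prod, prod_mul_distrib, prod_pow_eq_pow_sum, ← τ.symm.prod_comp,
    ← τ.symm.sum_comp, Fintype.prod_prod_type, Fintype.sum_prod_type]
  rfl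

end DSHIFT

theorem st_SHIFT (hE : St_EV) (hI : St_INJ) : St_SHIFT := by
  intro κ α _ _ _ a b c τ ω hω h
  have lt : ∀ x : Bx b, (x.2 : ℕ) < ∑ r, b r := fun x =>
    x.2.2.trans_le (single_le_sum (fun _ _ => Nat.zero_le _) (mem_univ x.1))
  refine hE.spec c _ _ (DSHIFT.om (∑ r, b r) ω) τ (DSHIFT.alt _ hω) fun h0 =>
    mul_ne_zero (DSHIFT.det_ne a (b := b)) h ?_
  have k := congrArg (coeff · (∑ x : Bx b, (x.2 : ℕ))) h0
  have q := fun g : Perm (Bx b) => DSHIFT.prod_om (∑ r, b r) ω τ fun x => a (g x).1 + (g x).2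
  simp only [Ev, q, finsetSum_coeff, coeff_intCast_mul,
    Int.cast_id, coeff_C_mul_X_pow, coeff_zero, mul_sum] at k
  rw [sum_comm] at k
  rw [Ev, mul_sum, ← k]
  refine sum_of_injOn (fun g x => ⟨(g x).2, lt _⟩) (fun g hg g' hg' e => Equiv.ext fun x => ?_)
    (fun _ _ => mem_univ _) (fun P _ hP => ?_) fun g hg => ?_
  · have e1 := ((mem_filter.1 hg).2 x).trans ((mem_filter.1 hg').2 x).symm
    exact Sigma.ext e1 ((Fin.heq_ext_iff (congrArg b e1)).2 (congrArg Fin.val (congrFun e x)))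
  · split_ifs with e
    · simp only [← mul_assoc, ← sum_mul]
      refine mul_eq_zero_of_left ((DSHIFT.det_mx a _).symm.trans (by_contra fun hn => hP ?_)) _
      obtain ⟨g, g1, g2⟩ := (hI b _ (DSHIFT.inj a hn)).2 e.symm
      exact ⟨g, mem_filter.2 ⟨mem_univ _, g1⟩, funext fun x => Fin.ext (g2 x).symm⟩
    · simp
  · simp only [if_pos (Equiv.sum_comp g fun x => (x.2 : ℕ)).symm, ← mul_assoc, ← sum_mul,
      Int.cast_id]
    rw [mul_comm (Matrix.det _), ← DSHIFT.det_perm a g (mem_filter.1 hg).2, DSHIFT.det_mx]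

end MP7ebc2a.AA
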