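import Pool.Agent.Lib.AA25.Blue3

/-! Row STEP: one step of the packing. -/

namespace MP7ebc2a.AA

namespace DSTEP

theorem clus (hA : St_AR) (hT : St_TX) (hU : St_UT) {c s y β : ℕ} (hs : 1 ≤ s) (hβ : β ≤ c)
    (hc : c ≤ (s / 2 + 1).choose 2) (k : ℕ) : ∀ E : Multiset ℕ, (∀ e ∈ E, e ≤ β) →
    (E.map ld).sum < (k + 1) * y → ∃ O : Multiset ℕ, O.card ≤ s * (k + 1) ∧
      (∀ o ∈ O, AP s ≤ o ∧ o ≤ AP s + y + ld β) ∧ AR c E O := by
  have one : ∀ (k : ℕ) (E : Multiset ℕ), (∀ e ∈ E, e ≤ β) → (E.map ld).sum ≤ y + ld β →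
      ∃ O : Multiset ℕ, O.card ≤ s * (k + 1) ∧
        (∀ o ∈ O, AP s ≤ o ∧ o ≤ AP s + y + ld β) ∧ AR c E O := fun k E hE h => by
    obtain ⟨O, h1, h2, h3⟩ := hT.cpt s c E hs hc fun e he => (hE e he).trans hβ
    exact ⟨O, h1.le.trans (Nat.le_mul_of_pos_right _ k.succ_pos),
      fun o ho => ⟨(h2 o ho).1, by have := (h2 o ho).2; omega⟩, h3⟩
  induction k with
  | zero => exact fun E hE h => one 0 E hE (by omega)
  | succ k ih =>
    intro E hE h
    rcases le_or_gt (E.map ld).sum (y + ld β) with h1 | h1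
    · exact one _ E hE h1
    obtain ⟨U, hU1, hU2, hU3⟩ := hU.cross ld (ld β) _ E (fun x hx => hU.ldm (hE x hx)) h1
    obtain ⟨R, rfl⟩ := Multiset.le_iff_exists_add.1 hU1
    rw [Multiset.map_add, Multiset.sum_add, Nat.add_mul (k + 1), one_mul] at h
    obtain ⟨O, a1, a2, a3⟩ := one 0 U (fun e he => hE e (Multiset.mem_add.2 (.inl he))) hU2
    obtain ⟨O', b1, b2, b3⟩ := ih R (fun e he => hE e (Multiset.mem_add.2 (.inr he))) (by omega)
    refine ⟨O + O', ?_, fun o ho => (Multiset.mem_add.1 ho).elim (a2 o) (b2 o),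
      hA.add _ _ _ _ _ a3 b3⟩
    rw [Multiset.card_add, Nat.mul_add s (k + 1)]
    omega

end DSTEP

theorem st_STEP (hA : St_AR) (hT : St_TX) (hU : St_UT) : St_STEP := by
  intro c c' s y β Λ n β' D S P hs hy h0 hP hβ hc hcc hΛ hb hn hS
  obtain ⟨O, o1, o2, o3⟩ := DSTEP.clus hA hT hU (y := y) hs hβ hc (Λ / y) (sn P) (fun e he => by
    obtain ⟨p, hp, rfl⟩ := Multiset.mem_map.1 he
    exact hP p hp) (hΛ.trans_lt (by rw [mul_comm]; exact Nat.lt_mul_div_succ Λ hy))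
  obtain ⟨P', p1, p2, p3⟩ := hU.sel β' n O S (o1.trans hn) fun o ho => hS o (o2 o ho).1 (o2 o ho).2
  refine ⟨P', p2, ?_, p3, ?_⟩
  · have := o1.trans hn
    rwa [← p1, fs, Multiset.card_map] at this
  · have e1 : fs (D.map (fun d => (d, 0)) + P) = D + fs P := by simp [fs]
    have e2 : sn (D.map (fun d => (d, 0)) + P) = Multiset.replicate D.card 0 + sn P := by simp [sn]
    have e3 : tot (D.map (fun d => (d, 0)) + P) = D + tot P := by simp [tot]
    have := hA.join c c' _ O hcc (e1 ▸ h0) (by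
      have := hA.add _ _ _ _ _ (hA.zero c' D.card 0) o3
      rwa [Multiset.replicate_zero, zero_add, ← e2] at this) fun o ho => (o2 o ho).2.trans hb
    rwa [e3, ← p1] at this

end MP7ebc2a.AA
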