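import Pool.Agent.Lib.AA25.Blue3

/-! Degree three, row SW: ones are traded for copies of rare parts. -/

namespace MP7ebc2a.AA
open Equiv Finset

namespace DSW

/-- the added parts -/
def ad (J : Finset ℕ) (a : J → ℕ) : Multiset ℕ := ∑ i : J, Multiset.replicate (a i) (i : ℕ)

theorem ad_sum (J : Finset ℕ) (a : J → ℕ) : (ad J a).sum = ∑ i : J, a i * i := by
  have := map_sum Multiset.sumAddMonoidHom (fun i : J => Multiset.replicate (a i) (i : ℕ)) univ
  simp only [Multiset.coe_sumAddMonoidHom, Multiset.sum_replicate, smul_eq_mul] at this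
  exact this

theorem ad_count (J : Finset ℕ) (a : J → ℕ) (j : J) : (ad J a).count (j : ℕ) = a j := by
  rw [ad, Multiset.count_sum', Finset.sum_eq_single j]
  · exact Multiset.count_replicate_self _ _
  · intro i _ h
    rw [Multiset.count_replicate, if_neg fun e => h (Subtype.ext e)]
  · exact fun h => (h (mem_univ j)).elim

theorem ad_mem {J : Finset ℕ} {a : J → ℕ} {x : ℕ} (h : x ∈ ad J a) : x ∈ J := by
  obtain ⟨i, -, hi⟩ := Multiset.mem_sum.1 h
  rw [Multiset.eq_of_mem_replicate hi]
  exact i.2

/-- the switched partition -/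
def sw {n : ℕ} {J : Finset ℕ} (hJ : ∀ i ∈ J, 2 ≤ i) (l : Nat.Partition n) (a : J → ℕ)
    (h : Multiset.replicate (∑ i : J, a i * i) 1 ≤ l.parts) : Nat.Partition n where
  parts := l.parts - Multiset.replicate (∑ i : J, a i * i) 1 + ad J a
  parts_pos hx := by
    rcases Multiset.mem_add.1 hx with k | k
    · exact l.parts_pos (Multiset.mem_of_le tsub_le_self k)
    · exact lt_of_lt_of_le two_pos (hJ _ (ad_mem k))
  parts_sum := by
    have e := congrArg Multiset.sum (tsub_add_cancel_of_le h)
    rw [Multiset.sum_add, Multiset.sum_replicate, smul_eq_mul, mul_one, l.parts_sum] at e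
    rw [Multiset.sum_add, ad_sum, e]

theorem sw_count {n : ℕ} {J : Finset ℕ} (hJ : ∀ i ∈ J, 2 ≤ i) (l : Nat.Partition n) (a : J → ℕ)
    (h : Multiset.replicate (∑ i : J, a i * i) 1 ≤ l.parts) (j : J) :
    (sw hJ l a h).parts.count (j : ℕ) = l.parts.count (j : ℕ) + a j := by
  have k : (1 : ℕ) ≠ j := by
    have := hJ _ j.2
    omega
  show Multiset.count _ (_ + _) = _
  rw [Multiset.count_add, Multiset.count_sub, Multiset.count_replicate, if_neg k, Nat.sub_zero,
    ad_count]

end DSW

open DSW in
theorem st_SW : St_SW := by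
  intro n L T J μ hJ hL
  have hle : ∀ (l : {l : Nat.Partition n // L ≤ l.parts.count 1 ∧ ∀ i ∈ J, l.parts.count i < μ i})
      (t : J → Fin T), Multiset.replicate (∑ i : J, (t i * μ i) * i) 1 ≤ l.1.parts := fun l t => by
    rw [← Multiset.le_count_iff_replicate_le]
    refine le_trans ?_ (hL.trans l.2.1)
    rw [← Finset.sum_coe_sort J, Finset.mul_sum]
    refine Finset.sum_le_sum fun i _ => ?_
    rw [mul_assoc]
    exact Nat.mul_le_mul_right _ (t i).2.le
  have key := Fintype.card_le_of_injective
    (fun p : (J → Fin T) × {l : Nat.Partition n //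
        L ≤ l.parts.count 1 ∧ ∀ i ∈ J, l.parts.count i < μ i} =>
      sw hJ p.2.1 (fun i => p.1 i * μ i) (hle p.2 p.1)) (by
    rintro ⟨t, l⟩ ⟨t', l'⟩ h
    have ht : t = t' := funext fun j => Fin.ext (by
      have e := congrArg (fun q : Nat.Partition n => q.parts.count (j : ℕ) / μ j) h
      have a := l.2.2 _ j.2
      have a' := l'.2.2 _ j.2
      have p : 0 < μ j := lt_of_le_of_lt (Nat.zero_le _) a
      simp only [sw_count] at e
      rwa [Nat.add_mul_div_right _ _ p, Nat.add_mul_div_right _ _ p, Nat.div_eq_of_lt a,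
        Nat.div_eq_of_lt a', zero_add, zero_add] at e)
    subst ht
    have e : _ + _ = _ + _ := congrArg Nat.Partition.parts h
    have e' := add_right_cancel e
    refine Prod.ext rfl (Subtype.ext (Nat.Partition.ext ?_))
    exact (tsub_add_cancel_of_le (hle l t)).symm.trans
      ((congrArg (· + _) e').trans (tsub_add_cancel_of_le (hle l' t))))
  rwa [Fintype.card_prod, Fintype.card_fun, Fintype.card_fin, Fintype.card_coe,
    Fintype.card_subtype] at key

end MP7ebc2a.AA
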