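import Pool.Agent.Lib.AA25.Blue3

/-! The coefficients after the first columns are filled: invariance and weights. -/

namespace MP7ebc2a.AA
open Equiv Finset

namespace DTH

variable {α J B Y : Type} [Fintype α] [DecidableEq α] [Fintype J] [DecidableEq J] [Fintype B]
  [DecidableEq B] [Fintype Y] [DecidableEq Y] {s : ℕ}

/-- the vectors on the slots -/
def ze (e : B ⊕ Y ≃ α × Fin 3) (A : B → Fin s ⊕ J → ℂ) (W : Matrix (Fin s) Y ℂ) :
    α × Fin 3 → Fin s ⊕ J → ℂ :=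
  fun y => Sum.elim A (fun y' => Sum.elim (fun a => W a y') fun _ => 0) (e.symm y)

/-- the sum over the remaining boxes -/
noncomputable def H (c : α → Fin 3 → Fin s ⊕ J) (e : B ⊕ Y ≃ α × Fin 3) (W : Matrix (Fin s) Y ℂ)
    (Q : B → Fin s ⊕ J) : ℂ :=
  ∑ P : Y → Fin s, (f0 c (fun y => Sum.elim Q (fun y' => .inl (P y')) (e.symm y)) : ℂ) *
    ∏ y, W (P y) y

theorem key (hP : St_PHI) (c : α → Fin 3 → Fin s ⊕ J) (e : B ⊕ Y ≃ α × Fin 3)
    (A : B → Fin s ⊕ J → ℂ) (W : Matrix (Fin s) Y ℂ) :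
    F3 c (ze e A W) = ∑ Q : B → Fin s ⊕ J, H c e W Q * ∏ x, A x (Q x) := by
  rw [hP.lin, ← ((Equiv.sumArrowEquivProdArrow B Y (Fin s ⊕ J)).symm.trans
    (e.arrowCongr (Equiv.refl (Fin s ⊕ J)))).sum_comp, Fintype.sum_prod_type]
  refine sum_congr rfl fun Q _ => ?_
  rw [H, sum_mul]
  symm
  refine Fintype.sum_of_injective (fun (P : Y → Fin s) (y : Y) => (Sum.inl (P y) : Fin s ⊕ J))
    (fun P P' h => funext fun y => Sum.inl_injective (congrFun h y)) _ _ (fun R hR => ?_)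
    fun P => ?_
  · have : ∃ y j, R y = Sum.inr j := by
      by_contra hc
      push Not at hc
      have h1 : ∀ y, ∃ a, R y = Sum.inl a := fun y => by
        rcases h : R y with a | j
        · exact ⟨a, rfl⟩
        · exact absurd h (hc y j)
      choose P hP' using h1
      exact hR ⟨P, funext fun y => (hP' y).symm⟩
    obtain ⟨y, j, h⟩ := this
    refine mul_eq_zero_of_right _ (prod_eq_zero (mem_univ (e (.inr y))) ?_)
    simp [ze, h, Equiv.sumArrowEquivProdArrow]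
  · rw [← e.prod_comp, Fintype.prod_sum_type, mul_assoc, mul_comm (∏ y, W (P y) y)]
    simp [ze, Equiv.sumArrowEquivProdArrow, Equiv.arrowCongr, Function.comp_def]

theorem sing (G : (B → Fin s ⊕ J) → ℂ) (t : B → Fin s ⊕ J) :
    ∑ Q : B → Fin s ⊕ J, G Q * ∏ x, (Pi.single (t x) (1 : ℂ) : Fin s ⊕ J → ℂ) (Q x) = G t := by
  rw [sum_eq_single t (fun Q _ h => ?_) fun h => absurd (mem_univ _) h]
  · simp
  · obtain ⟨x, hx⟩ := Function.ne_iff.1 h
    exact mul_eq_zero_of_right _ (prod_eq_zero (mem_univ x) (Pi.single_eq_of_ne hx _))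

theorem swap (c : α → Fin 3 → Fin s ⊕ J) (e : B ⊕ Y ≃ α × Fin 3) (r : B → Fin s ⊕ J) (k : B → ℕ)
    (W : Matrix (Fin s) Y ℂ) : ∑ P, (Th c e r k P : ℂ) * ∏ y, W (P y) y =
      ∑ g : Perm B with ∀ x, k (g x) = k x,
        (((Perm.sign g : ℤˣ) : ℤ) : ℂ) * H c e W fun x => r (g x) := by
  simp only [Th, H, Int.cast_sum, Int.cast_mul, sum_mul, mul_sum, mul_assoc]
  exact sum_comm

theorem act (e : B ⊕ Y ≃ α × Fin 3) (t : B → Fin s ⊕ J) (U : Matrix (Fin s) (Fin s) ℂ)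
    (Z : Matrix (Fin s) Y ℂ) :
    (fun y => (Matrix.fromBlocks U 0 0 (1 : Matrix J J ℂ)).mulVec
      (ze e (fun x => Pi.single (t x) 1) Z y)) =
    ze e (fun x a => Matrix.fromBlocks U 0 0 (1 : Matrix J J ℂ) a (t x)) (U * Z) := by
  funext y a
  obtain ⟨z, rfl⟩ := e.surjective y
  rcases z with x | y'
  · simp [ze]
  · rcases a with a | j
    · simp [ze, Matrix.mulVec, dotProduct, Fintype.sum_sum_type, Matrix.mul_apply]
    · simp [ze, Matrix.mulVec, dotProduct, Fintype.sum_sum_type]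

end DTH

theorem st_TH (hP : St_PHI) (hI : St_PINV) (hA : St_ALTD) : St_TH where
  inv c e r k U Z hD hC h1 h2 h3 h4 := by
    rw [DTH.swap, DTH.swap, ← hA r k U (DTH.H c e (U * Z)) h1 h2 h3 h4]
    refine sum_congr rfl fun g _ => congrArg _ ?_
    rw [← DTH.key hP c e (fun x a => Matrix.fromBlocks U 0 0 1 a (r (g x))) (U * Z),
      ← DTH.act e (fun x => r (g x)) U Z, hI c U _ hD hC h3 h4, DTH.key hP, DTH.sing]
  wt c e r k P h a := by
    obtain ⟨g, -, hg⟩ := exists_ne_zero_of_sum_ne_zero h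
    obtain ⟨w, -, hw⟩ := hP.wt c _ (right_ne_zero_of_mul hg)
    simp only [card_filter]
    have a1 := Equiv.sum_comp w fun y : _ × Fin 3 => if c y.1 y.2 = Sum.inl a then (1 : ℕ) else 0
    have a2 := e.sum_comp fun y => if c (w y).1 (w y).2 = Sum.inl a then (1 : ℕ) else 0
    have a3 := Equiv.sum_comp g fun x => if r x = Sum.inl a then (1 : ℕ) else 0
    rw [← a1, ← a2, ← a3, Fintype.sum_sum_type, add_comm]
    simp only [← hw, Equiv.symm_apply_apply, Sum.elim_inl, Sum.elim_inr, Sum.inl.injEq]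

end MP7ebc2a.AA
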