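import Pool.Agent.Lib.AA25.Blue3

/-! Row TINY: the small parts are packed into seeds. -/

namespace MP7ebc2a.AA

open Multiset

namespace DTINY

theorem s1 (e : ℕ) : GD 3 ({3 + 2 * e} + e • {1}) := by
  have h := st_SEED st_TR st_LINK 1 e le_rfl
  rw [show AP 1 = 3 from rfl, Nat.sub_self, replicate_zero, zero_add, ← nsmul_singleton,
    ← singleton_add] at h
  exact ⟨_, h⟩

theorem s2 (e : ℕ) : GD 3 ({6 + 2 * e} + ({6} + e • {1})) := by
  have h := st_SEED st_TR st_LINK 2 e one_le_two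
  rw [show AP 2 = 6 from rfl, ← nsmul_singleton 1, ← singleton_add] at h
  exact ⟨_, h⟩

theorem s3 : GD 3 (3 • {10}) := ⟨_, st_SEED st_TR st_LINK 3 0 (by norm_num)⟩

theorem s5 : GD 3 (5 • {21}) := ⟨_, st_SEED st_TR st_LINK 5 0 (by norm_num)⟩

theorem rep {s : Multiset ℕ} (h : GD 3 s) (k : ℕ) : GD 3 (k • s) := by
  induction k with
  | zero => exact ⟨0, by rw [zero_nsmul]; exact st_CH.nil 3⟩
  | succ k ih => rw [succ_nsmul]; exact all_SB.add _ _ _ ih h

theorem base (W : Multiset ℕ) (hW : ∀ x ∈ W, 6 ≤ x) : ∃ q v : ℕ,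
    2 * q + 3 * W.card + 3 * v = W.sum ∧ GD 3 (W + (q • {1} + v • {6})) := by
  induction W using Multiset.induction_on with
  | empty => exact ⟨0, 0, rfl, 0, by simpa using st_CH.nil 3⟩
  | cons x W ih =>
    obtain ⟨q, v, h1, h2⟩ := ih fun y hy => hW y (mem_cons_of_mem hy)
    have h6 := hW x (mem_cons_self _ _)
    rw [card_cons, sum_cons, ← singleton_add]
    obtain ⟨e, rfl | rfl⟩ : ∃ e, x = 3 + 2 * e ∨ x = 6 + 2 * e := by
      rcases Nat.even_or_odd' x with ⟨k, h | h⟩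
      · exact ⟨k - 3, Or.inr (by omega)⟩
      · exact ⟨k - 1, Or.inl (by omega)⟩
    · refine ⟨q + e, v, by omega, ?_⟩
      have := all_SB.add _ _ _ (s1 e) h2
      rwa [show ({3 + 2 * e} + e • {1} + (W + (q • {1} + v • {6})) : Multiset ℕ) =
        {3 + 2 * e} + W + ((q + e) • {1} + v • {6}) by rw [add_nsmul]; abel] at this
    · refine ⟨q + e, v + 1, by omega, ?_⟩
      have := all_SB.add _ _ _ (s2 e) h2
      rwa [show ({6 + 2 * e} + ({6} + e • {1}) + (W + (q • {1} + v • {6})) : Multiset ℕ) =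
        {6 + 2 * e} + W + ((q + e) • {1} + (v + 1) • {6}) by
          rw [add_nsmul, succ_nsmul]; abel] at this

end DTINY

open DTINY in
theorem st_TINY : St_TINY := by
  intro a W hW ha h3
  obtain ⟨q, v, h1, h2⟩ := base W hW
  obtain ⟨al, b, t, u, pr, e1, e2, e3, e4⟩ : ∃ al b t u pr : ℕ, q + 2 * t + 9 * u = 6 * a ∧
      v + t + 2 * pr = 4 * a ∧ 3 * al + t = 3 * a ∧ 5 * b + u = 15 := by
    obtain ⟨al, b, hb, hp, k, hk⟩ : ∃ al b, b ≤ 3 ∧ 6 * al + 45 * b = q + 135 ∧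
        ∃ k, a + v + al = 2 * k := by
      obtain ⟨r, hr⟩ : ∃ r, q = 3 * r := ⟨q / 3, by omega⟩
      rcases Nat.even_or_odd' r with ⟨k, h | h⟩ <;>
        rcases Nat.even_or_odd' (a + v + k) with ⟨j, g | g⟩
      · exact ⟨k, 3, le_rfl, by omega, j, g⟩
      · exact ⟨k + 15, 1, by omega, by omega, j + 8, by omega⟩
      · exact ⟨k + 8, 2, by omega, by omega, j + 4, by omega⟩
      · exact ⟨k + 23, 0, by omega, by omega, j + 12, by omega⟩
    exact ⟨al, b, 3 * a - 3 * al, 15 - 5 * b, k + al - v, by omega, by omega, by omega, by omega⟩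
  have := all_SB.add _ _ _ (all_SB.add _ _ _ (all_SB.add _ _ _ (all_SB.add _ _ _
    (all_SB.add _ _ _ h2 (rep s3 al)) (rep (s2 2) t)) (rep s5 b)) (rep (s1 9) u)) (rep (s2 0) pr)
  simp only [← nsmul_singleton]
  rw [← e1, ← e2, ← e3, ← e4]
  refine Eq.mp (congrArg _ ?_) this
  norm_num only
  module

end MP7ebc2a.AA
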