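import Pool.Agent.Lib.AA25.Blue3

/-! Degree three: pyramids with arms. -/

namespace MP7ebc2a.AA
open Equiv Finset

namespace DTOOL

variable {X J : Type}

lemma tri_iff [LinearOrder X] {a b a' b' : X} {j j' : J} (h : a ≤ b) (h' : a' ≤ b') :
    ({.inl a, .inl b, .inr j} : Multiset (X ⊕ J)) = {.inr j', .inl a', .inl b'} ↔
      j = j' ∧ a = a' ∧ b = b' := by
  constructor
  · intro e
    have e1 : ({a, b} : Multiset X) = {a', b'} := congrArg (Multiset.filterMap Sum.getLeft?) e
    have e2 : ({j} : Multiset J) = {j'} := congrArg (Multiset.filterMap Sum.getRight?) e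
    refine ⟨Multiset.singleton_inj.1 e2, ?_⟩
    rcases Multiset.cons_eq_cons.1 e1 with ⟨k, k'⟩ | ⟨-, s, k, k'⟩
    · exact ⟨k, Multiset.singleton_inj.1 k'⟩
    · obtain ⟨rfl, -⟩ := (Multiset.singleton_eq_cons_iff _).1 k
      obtain ⟨rfl, -⟩ := (Multiset.singleton_eq_cons_iff _).1 k'
      exact ⟨h.antisymm h', h'.antisymm h⟩
  · rintro ⟨rfl, rfl, rfl⟩
    exact (congrArg (Multiset.cons _) (Multiset.pair_comm _ _)).trans (Multiset.cons_swap _ _ _)

lemma no_right {s : Multiset X} {t : Multiset (X ⊕ J)} {j : J} (h : .inr j ∈ t) :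
    s.map Sum.inl ≠ t := fun e => by
  obtain ⟨a, -, ha⟩ := Multiset.mem_map.1 (e ▸ h)
  exact Sum.inl_ne_inr ha

end DTOOL

open SEED DTOOL in
theorem st_TOOL (hE : St_EV) (hR : St_REAL) (hJ : St_JET) (hQ : St_QUADS) : St_TOOL := by
  intro J _ _ s n G hn hG
  obtain ⟨q, π, πi, q0, q1, q2⟩ := hQ s n G hn (fun j e he => ((hG j).1 e he).1) fun j => (hG j).2.2
  choose c0 hc0 using exists_fn (X := Fin s)
  let c : Sym (Fin s) 3 ⊕ (Σ j, G j) → Fin 3 → Fin s ⊕ J :=
    Sum.elim (fun S l => .inl (c0 S l)) fun e => ![.inl e.2.1.1, .inl e.2.1.2, .inr e.1]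
  have c1 : ∀ S, univ.val.map (c (.inl S)) = S.1.map Sum.inl := fun S => by
    rw [← hc0, Multiset.map_map]; rfl
  have c2 : ∀ e, univ.val.map (c (.inr e)) = {.inl e.2.1.1, .inl e.2.1.2, .inr e.1} := fun e => rfl
  have le : ∀ e : Σ j, G j, e.2.1.1 ≤ e.2.1.2 := fun e => ((hG e.1).1 _ e.2.2).1
  let lam : Fin s ⊕ J → ℕ := Sum.elim (fun v => AP s + ∑ j, dg (G j) v) fun j => (G j).card
  have l1 : ∀ a, n ≤ lam (.inl a) := fun a =>
    (hn.trans (Nat.choose_le_choose 2 (by omega : s / 2 + 1 ≤ s + 2))).trans (Nat.le_add_right _ _)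
  have l2 : ∀ j, lam (.inr j) ≤ n := fun j => (hG j).2.2
  let E : Bx (fun r => min (lam r) n) ≃ (Fin s × Fin n) ⊕ Σ j, G j :=
    (sumSigmaDistrib _).trans (sumCongr
      ((sigmaCongrRight fun a => finCongr (min_eq_right (l1 a))).trans (sigmaEquivProd _ _))
      (sigmaCongrRight fun j => (finCongr (min_eq_left (l2 j))).trans (G j).equivFin.symm))
  have un : ∀ i, (∀ x, Sum.map π id (E x) ≠ i) ↔ ∃ S, i = .inl S ∧ ∀ x, π x ≠ S := fun i => by
    rw [E.forall_congr_right (q := fun y => Sum.map π id y ≠ i), Sum.forall]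
    rcases i with S | e
    · simp
    · simp
  refine (hR n _ _).2 ⟨_, hE.tr n _ _ _ _ _ _ (Equiv.refl _) (Fintype.equivFin _) (fun _ => rfl)
    (fun _ _ => Iff.rfl) (fun _ h => h) (hJ s n c lam (fun x => Sum.map π id (E x)) q
      (fun i i' h => ?_) (fun i t h => ?_) (fun r => ?_) (fun a b h => ?_) l1 l2
      (fun i l l' h h' => ?_) ((πi.sumMap Function.injective_id).comp E.injective)
      (fun i h l => ?_) fun v hv => ?_)⟩
  · rcases i with S | e <;> rcases i' with S' | e'
    · rw [c1, c1] at h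
      exact congrArg _ (Subtype.ext (Multiset.map_injective Sum.inl_injective h))
    · exact (no_right (j := e'.1) (by simp) ((c1 S).symm.trans (h.trans (c2 e')))).elim
    · exact (no_right (j := e.1) (by simp) ((c1 S').symm.trans (h.symm.trans (c2 e)))).elim
    · obtain ⟨j, ⟨a, b⟩, h1⟩ := e
      obtain ⟨j', ⟨a', b'⟩, h2⟩ := e'
      obtain ⟨rfl, rfl, rfl⟩ := (tri_iff (le ⟨j, _, h1⟩) (le ⟨j', _, h2⟩)).1
        (h.trans ((tri_iff (le ⟨j', _, h2⟩) (le ⟨j', _, h2⟩)).2 ⟨rfl, rfl, rfl⟩))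
      rfl
  · rcases i with S | ⟨j, e, he⟩
    · choose u hu using fun l => show ∃ a, t l = .inl a from
        (h l).elim (fun k => ⟨_, k⟩) fun ⟨a, _, k, _⟩ => ⟨a, k⟩
      exact ⟨.inl ⟨univ.val.map u, Multiset.card_map _ _⟩,
        (c1 _).trans ((Multiset.map_map _ _ _).trans (congrArg (univ.val.map ·) (funext hu).symm))⟩
    · obtain ⟨a, ha, a1⟩ : ∃ a, t 0 = .inl a ∧ a ≤ e.1 :=
        (h 0).elim (fun k => ⟨_, k, le_rfl⟩) fun ⟨a, _, k, k', k''⟩ => ⟨a, k, Sum.inl.inj k' ▸ k''⟩
      obtain ⟨b, hb, b1⟩ : ∃ a, t 1 = .inl a ∧ a ≤ e.2 :=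
        (h 1).elim (fun k => ⟨_, k, le_rfl⟩) fun ⟨a, _, k, k', k''⟩ => ⟨a, k, Sum.inl.inj k' ▸ k''⟩
      have h2 : t 2 = .inr j := (h 2).elim id fun ⟨_, _, _, k, _⟩ => (Sum.inr_ne_inl k).elim
      have e0 : univ.val.map t = {.inl a, .inl b, .inr j} := by
        rw [← ha, ← hb, ← h2]; rfl
      obtain ⟨g1, g2⟩ := (hG j).1 e he
      rcases le_total a b with k | k
      · exact ⟨.inr ⟨j, (a, b), g2 a b a1 b1 k⟩, e0.symm⟩
      · exact ⟨.inr ⟨j, (b, a), g2 b a (k.trans a1) (a1.trans g1) k⟩,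
          (Multiset.cons_swap _ _ _).trans e0.symm⟩
  · rw [card_filter, Fintype.sum_prod_type, Fintype.sum_sum_type,
      sum_congr rfl fun S _ => (count_fn _ r).trans (congrArg _ (c1 S)), Fintype.sum_sigma]
    simp only [c, Sum.elim_inr, Fin.sum_univ_three, Matrix.cons_val]
    rcases r with v | j
    · rw [sum_congr rfl fun S _ => Multiset.count_map_eq_count' _ _ Sum.inl_injective _, count_all]
      refine congrArg (AP s + ·) (sum_congr rfl fun j _ => ?_)
      rw [dg, card_filter, card_filter, ← sum_add_distrib, ← sum_coe_sort (G j)]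
      simp
    · rw [sum_eq_zero fun S _ => Multiset.count_eq_zero.2 fun k => no_right k rfl, zero_add,
        sum_eq_single j (fun j' _ k => by simp [k]) (by simp)]
      simp [lam]
  · exact Nat.add_le_add_left (sum_le_sum fun j _ => (hG j).2.1 h) _
  · rcases i with S | e
    · exact absurd h Bool.false_ne_true
    · have k : ∀ l, (c (.inr e) l).isRight = true → l = 2 := fun l => by
        fin_cases l <;> simp [c]
      rw [k l h, k l' h']
  · obtain ⟨S, rfl, -⟩ := (un i).1 h
    exact ⟨_, rfl⟩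
  · have v1 : (fun S => v (.inl S)) = 0 := q1 _ fun S => by
      have := hv (.inl S)
      beta_reduce at this
      rw [← E.symm.sum_comp, Fintype.sum_sum_type, sum_eq_zero (s := (univ : Finset (Σ j, G j)))
        fun e _ => mul_eq_zero_of_right _ (sum_eq_zero fun a _ => sum_eq_zero fun b _ => if_neg
          ((c1 S).symm ▸ no_right (j := e.1) (Multiset.mem_cons_self _ _))), add_zero,
        if_congr (Q := ∀ x, π x ≠ S) ((un _).trans (by simp)) rfl rfl] at this
      refine Eq.trans (congrArg (· + _) (sum_congr rfl fun x _ => ?_)) this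
      rw [E.apply_symm_apply]
      refine congrArg (_ * ·) (sum_congr rfl fun a _ => sum_congr rfl fun b _ =>
        if_congr ?_ rfl rfl)
      rw [c1]
      exact ((Multiset.map_injective Sum.inl_injective).eq_iff (b := {x.1, a, b})).symm
    funext i
    rcases i with S | ⟨j, e⟩
    · exact congrFun v1 S
    have v2 := q2 j (fun k => v (.inr ⟨j, (G j).equivFin.symm k⟩)) fun e he => by
      have := hv (.inr ⟨j, e, he⟩)
      beta_reduce at this
      rw [← E.symm.sum_comp, Fintype.sum_sum_type, sum_eq_zero (s := (univ : Finset (Fin s × Fin n)))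
        fun x _ => mul_eq_zero_of_left (by rw [E.apply_symm_apply]; exact congrFun v1 _) _,
        zero_add, if_neg fun k => by simpa using (un _).1 k, add_zero, Fintype.sum_sigma,
        sum_eq_single j (fun j' _ k => sum_eq_zero fun y _ => ?_) (by simp),
        ← (G j).equivFin.symm.sum_comp] at this
      · refine Eq.trans (sum_congr rfl fun k _ => ?_) this
        rw [E.apply_symm_apply]
        refine congrArg (_ * ·) ?_
        have hk : ((E.symm (.inr ⟨j, (G j).equivFin.symm k⟩)).2 : ℕ) = k :=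
          congrArg Fin.val ((G j).equivFin.apply_symm_apply k)
        rw [hk, sum_eq_single e.1 (fun a _ h => sum_eq_zero fun b _ => ?_) (by simp),
          sum_eq_single e.2 (fun b _ h => ?_) (by simp)]
        · exact (if_pos ((tri_iff (le ⟨j, e, he⟩) (le ⟨j, e, he⟩)).2 ⟨rfl, rfl, rfl⟩)).symm
        · rcases le_or_gt e.1 b with w | w
          · exact if_neg fun k => h ((tri_iff (le ⟨j, e, he⟩) w).1 k).2.2.symm
          · rw [q0 _ _ _ w, ite_self]
        · rcases le_or_gt a b with w | w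
          · exact if_neg fun k => h ((tri_iff (le ⟨j, e, he⟩) w).1 k).2.1.symm
          · rw [q0 _ _ _ w, ite_self]
      · refine mul_eq_zero_of_right _ (sum_eq_zero fun a _ => sum_eq_zero fun b _ => ?_)
        rcases le_or_gt a b with w | w
        · exact if_neg fun k' => k ((tri_iff (le ⟨j, e, he⟩) w).1 k').1.symm
        · rw [q0 _ _ _ w, ite_self]
    simpa using congrFun v2 ((G j).equivFin e)

end MP7ebc2a.AA
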