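import Pool.Agent.Lib.AA25.Blue3

/-! Degree three, row TOP: the rows above the last zone. -/

namespace MP7ebc2a.AA

namespace DTOP

lemma load (hU : St_UT) {h : ℕ} (hh : 10 ^ 6 ≤ h) (P : Multiset (ℕ × ℕ)) (hc : P.card ≤ h ^ 2002)
    (hs : (sn P).sum ≤ P.card * (2 * h ^ 1001 + 2) + 2 * h ^ 1001 * h ^ 2001) :
    ((sn P).map ld).sum ≤ h ^ 2603 := by
  have h0 : 0 < h := by omega
  have h1 := hU.lds (h ^ 501) (sn P)
  have hc' : (sn P).card ≤ h ^ 2002 := by rwa [sn, Multiset.card_map]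
  have a1 : P.card * (2 * h ^ 1001 + 2) ≤ h ^ 2002 * (2 * h ^ 1001 + 2) := Nat.mul_le_mul_right _ hc
  have a2 : (sn P).card * (h ^ 501 * (h ^ 501 + 2)) ≤ h ^ 2002 * (h ^ 501 * (h ^ 501 + 2)) :=
    Nat.mul_le_mul_right _ hc'
  have e1 : h ^ 2002 * (2 * h ^ 1001 + 2) = 2 * h ^ 3003 + 2 * h ^ 2002 := by ring
  have e2 : h ^ 2002 * (h ^ 501 * (h ^ 501 + 2)) = h ^ 3004 + 2 * h ^ 2503 := by ring
  have e3 : 2 * h ^ 1001 * h ^ 2001 = 2 * h ^ 3002 := by ring
  have e4 : h ^ 501 * h ^ 2603 = h ^ 3104 := by ring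
  have b1 := n0 hh 3003 3104 (by norm_num)
  have b2 := n0 hh 2002 3104 (by norm_num)
  have b3 := n0 hh 3004 3104 (by norm_num)
  have b4 := n0 hh 2503 3104 (by norm_num)
  have b5 := n0 hh 3002 3104 (by norm_num)
  refine Nat.le_of_mul_le_mul_left (c := h ^ 501) ?_ (Nat.pow_pos h0)
  rw [e4]
  rw [e1] at a1
  rw [e2] at a2
  rw [e3] at hs
  omega

lemma few {h : ℕ} (hh : 10 ^ 6 ≤ h) {k : ℕ} (hk : k * h ^ 1670 ≤ 2 * h ^ 1001 * h ^ 2001) :
    k ≤ h ^ 1333 := by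
  have h0 : 0 < h := by omega
  have e3 : 2 * h ^ 1001 * h ^ 2001 = 2 * h ^ 3002 := by ring
  have e4 : h ^ 1333 * h ^ 1670 = h ^ 3003 := by ring
  have b5 := n0 hh 3002 3003 (by norm_num)
  refine Nat.le_of_mul_le_mul_right (c := h ^ 1670) ?_ (Nat.pow_pos h0)
  rw [e4]
  rw [e3] at hk
  omega

lemma mu_pos {h i : ℕ} (hh : 10 ^ 6 ≤ h) (hi : i ≤ h ^ 1995) : 0 < mu h i := by
  have h0 : 0 < h := by omega
  refine Nat.div_pos (max_le hi (Nat.pow_le_pow_right h0 (by norm_num))) ?_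
  exact lt_max_of_lt_right (Nat.pow_pos h0)

end DTOP

theorem st_TOP (hU : St_UT) (hF : St_FORM) (hZ : St_ZONE) (hH : St_TOPH) : St_TOP := by
  intro h G r M hh hR hr hc hx hG
  have h0 : 0 < h := by omega
  have p0 : 0 < h ^ 1001 := Nat.pow_pos h0
  have q1 := n0 hh 1001 1002 (by norm_num)
  have q2 := n0 hh 1002 1670 (by norm_num)
  have q3 := n0 hh 1670 1680 (by norm_num)
  have q4 := n0 hh 1680 1840 (by norm_num)
  have q5 := n0 hh 1840 1994 (by norm_num)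
  have q6 := n0 hh 1994 1995 (by norm_num)
  have q7 := n0 hh 2001 2002 (by norm_num)
  have p7 : 0 < h ^ 2002 := Nat.pow_pos h0
  have q8 : h ≤ h ^ 1001 := Nat.le_self_pow (by norm_num) h
  have e1 : (2 * h ^ 1001) ^ 2 = 4 * h ^ 2002 := by ring
  have e2 : (2 * h ^ 1001 + 1) * h = 2 * h ^ 1002 + h := by ring
  have hD : Dens h (h ^ 1994) (h ^ 1995) M := by
    intro u hu hz _
    obtain ⟨i, h1, h2, h3⟩ := hR.1 u (by omega) hz
    have h4 := DTOP.mu_pos (i := i) hh (by omega)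
    have h5 := hG i h3
    have h6 : 0 < r * mu h i := Nat.mul_pos (by omega) h4
    exact ⟨i, Multiset.count_pos.1 (by omega), h1, h2⟩
  obtain ⟨P, L, M1, hM, hA, hp, hs, hL, -, hlo, hbig⟩ := hF h (h ^ 1994) (h ^ 1995) (h ^ 1670)
    (2 * h ^ 1001) (h ^ 1840) (h ^ 2001) M hx (by rw [e1]; omega) hD (by omega) (by rw [e2]; omega)
    (by rw [e2]; omega) (by omega) (by omega)
  have hcP : P.card ≤ h ^ 2002 := by
    have e := congrArg Multiset.card hM
    rw [Multiset.card_add, Multiset.card_add, tot, Multiset.card_map] at e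
    omega
  have hcnt : ∀ i, (2 * i < h ^ 1994 ∨ ∃ y ∈ M1, i < y) → M1.count i = M.count i := by
    intro i hi
    have hn : i ∉ tot P + L := fun hm => by
      obtain ⟨a1, a2⟩ := hbig i hm
      rcases hi with hi | ⟨y, hy, hi⟩
      · omega
      · have := a2 y hy
        omega
    rw [hM, Multiset.count_add _ (tot P + L), Multiset.count_eq_zero_of_notMem hn, zero_add]
  have m1 : min (1994 - 1) 1840 = 1840 := by norm_num
  have m2 : min (1994 - 4) 1680 = 1680 := by norm_num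
  have m3 : l0 1994 = 2603 := by norm_num [l0]
  obtain ⟨U, hUM, hUc, hGD⟩ := hZ h G 1994 0 M1 P hh hR (by norm_num) le_rfl
    (by rw [m1, zero_add]; exact hA)
    (by
      rw [m2]
      intro p hpP
      have := hp p hpP
      omega)
    (by rw [m3]; exact DTOP.load hU hh P hcP hs)
    (by
      rw [m1]
      intro i hi hle
      rw [hcnt i (Or.inl (by omega))]
      exact (Nat.mul_le_mul_right _ (by omega)).trans (hG i hi))
  obtain ⟨M2, rfl⟩ := Multiset.le_iff_exists_add.1 hUM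
  have hin : ∀ y ∈ M2, y ∈ U + M2 := fun y hy => Multiset.mem_add.2 (Or.inr hy)
  obtain ⟨A, M', hM2, hGD', hI⟩ := hH h G (r - 6) L M2 hh hR (by omega) (DTOP.few hh hL)
    (fun x hxL => ⟨hx x (by rw [hM]; simp [hxL]), fun y hy =>
      (hbig x (Multiset.mem_add.2 (Or.inr hxL))).2 y (hin y hy)⟩)
    (fun x hx2 => hlo x (hin x hx2))
    (by
      intro i hi hor
      have a1 := hcnt i (hor.imp_right fun ⟨y, hy, hiy⟩ => ⟨y, hin y hy, hiy⟩)
      have a2 := hG i hi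
      have a3 := hUc i
      rw [Multiset.count_add] at a1
      rw [Nat.sub_mul]
      omega)
  refine ⟨0 + tot P + U + (L + A), M', ?_, all_SB.add _ _ _ hGD hGD', fun x hx' => ?_, ?_⟩
  · rw [hM, hM2]
    abel
  · exact hlo x (hin x (by rw [hM2]; exact Multiset.mem_add.2 (Or.inr hx')))
  · rwa [Nat.sub_sub] at hI

end MP7ebc2a.AA
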