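import Pool.Agent.Lib.AA25.Blue3

/-! The discarded rows are put on top of pyramids. -/

namespace MP7ebc2a.AA
open Multiset

namespace DTOPH

lemma mu_pos {h i : ℕ} (hh : 10 ^ 6 ≤ h) (hi : i ≤ h ^ 1995) : 1 ≤ mu h i := by
  have h0 : 0 < h := by omega
  refine (Nat.le_div_iff_mul_le (lt_max_of_lt_right (pow_pos h0 _))).2 ?_
  rw [one_mul]
  exact max_le hi (Nat.pow_le_pow_right h0 (by norm_num))

/-- a part of the supply in the window from `h ^ a` to `2 * h ^ a` -/
lemma win (hC : St_CAP) {h : ℕ} {G : ℕ → Prop} (hh : 10 ^ 6 ≤ h) (hR : Rich h G) (a : ℕ)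
    (ha : a + 2 ≤ 1995) (M : Multiset ℕ)
    (hM : ∀ i, G i → i ≤ 2 * h ^ (a + 1) → mu h i ≤ M.count i) :
    ∃ S ≤ M, (∀ i, S.count i ≤ mu h i) ∧ h ^ a * h ^ (1995 - max (a + 2) 1000) ≤ S.card ∧
      ∀ t ∈ S, h ^ (a + 1) ≤ t ∧ t ≤ 2 * h ^ (a + 1) := by
  have e1 := n0 hh (a + 1) (a + 2) (by omega)
  have e0 := n0 hh 0 (a + 1) (by omega)
  rw [pow_zero] at e0
  obtain ⟨S, s1, s2, s3, -⟩ := hC h G (a + 2) (2 * h ^ (a + 1)) M (by omega) hR ha (by omega) hM
  have e2 : h ^ a * h = h ^ (a + 1) := by ring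
  have := s3 (h ^ (a + 1)) (h ^ a) (by omega) (by omega)
  refine ⟨_, (filter_le _ _).trans s1, fun i => (count_le_of_le i (filter_le _ _)).trans (s2 i),
    this, fun t ht => ?_⟩
  have := (mem_filter.1 ht).2
  omega

lemma card_tot (P : Multiset (ℕ × ℕ)) : (tot P).card = P.card := card_map _ _

lemma card_sn (P : Multiset (ℕ × ℕ)) : (sn P).card = P.card := card_map _ _

lemma load (hU : St_UT) {h : ℕ} (hh : 10 ^ 6 ≤ h) (b a : ℕ) (P : Multiset (ℕ × ℕ))
    (hP : ∀ p ∈ P, p.2 ≤ h ^ b) (hc : P.card ≤ h ^ a) :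
    ((sn P).map ld).sum ≤ h ^ (a + ((b + 1) / 2 + 1)) := by
  refine (hU.ldp h b (sn P) (by omega) fun e he => ?_).trans ?_
  · obtain ⟨p, hp, rfl⟩ := mem_map.1 he
    exact hP p hp
  · rw [card_sn, pow_add h a]
    exact Nat.mul_le_mul_right _ hc

lemma blocks {h x : ℕ} (hh : 10 ^ 6 ≤ h) (hx : x ≤ h ^ 1333) :
    x / h ^ 500 + h ^ 500 * (h ^ 2001 / h ^ 1670 + 1) ≤ h ^ 834 := by
  have h0 : 0 < h := by omega
  have e1 : x / h ^ 500 ≤ h ^ 833 := by
    refine (Nat.div_le_div_right hx).trans_eq ?_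
    rw [Nat.pow_div (by norm_num) h0]
  have e2 : h ^ 2001 / h ^ 1670 = h ^ 331 := by rw [Nat.pow_div (by norm_num) h0]
  have e3 : h ^ 500 * (h ^ 331 + 1) = h ^ 831 + h ^ 500 := by ring
  have e4 := n0 hh 833 834 (by norm_num)
  have e5 := n0 hh 831 834 (by norm_num)
  have e6 := n0 hh 500 834 (by norm_num)
  rw [e2, e3]
  omega

lemma num {h k : ℕ} (hh : 10 ^ 6 ≤ h) (hk : k ≤ h ^ 834) :
    k * (h ^ 1006 + 1) ≤ h ^ 1841 ∧ (k + 1) * ((2 * h ^ 997 + 1) * h) ≤ h ^ 1993 ∧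
      k * (2 * h ^ 997) ≤ h ^ 1832 ∧
      h ^ 500 * (h ^ 1006 + 1) + (2 * h ^ 997 + 1) * h + 2 * h ^ 997 + 2 ≤ h ^ 1507 ∧
      h ^ 1670 + 2 * h ^ 995 + (h ^ 500 + 2) * (h ^ 1006 + 1 + 1) ≤ h ^ 1671 ∧
      (2 * h ^ 995 + h ^ 500 + 2) ^ 2 ≤ h ^ 1992 := by
  have z : ∀ a, 0 < a → 1000000 ≤ h ^ a := fun a ha => by simpa using n0 hh 0 a ha
  refine ⟨?_, ?_, ?_, ?_, ?_, ?_⟩
  · have e1 := n0 hh 1006 1007 (by norm_num)
    have e2 := z 1006 (by norm_num)
    calc k * (h ^ 1006 + 1) ≤ h ^ 834 * h ^ 1007 := Nat.mul_le_mul hk (by omega)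
      _ = h ^ 1841 := by ring
  · have e1 := n0 hh 834 835 (by norm_num)
    have e2 := z 834 (by norm_num)
    have e3 := n0 hh 997 998 (by norm_num)
    have e4 := z 997 (by norm_num)
    calc (k + 1) * ((2 * h ^ 997 + 1) * h) ≤ h ^ 835 * (h ^ 998 * h) :=
          Nat.mul_le_mul (by omega) (Nat.mul_le_mul_right _ (by omega))
      _ = h ^ 1834 := by ring
      _ ≤ h ^ 1993 := Nat.pow_le_pow_right (by omega) (by norm_num)
  · have e3 := n0 hh 997 998 (by norm_num)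
    calc k * (2 * h ^ 997) ≤ h ^ 834 * h ^ 998 := Nat.mul_le_mul hk (by omega)
      _ = h ^ 1832 := by ring
  · have e0 : h ^ 500 * (h ^ 1006 + 1) + (2 * h ^ 997 + 1) * h =
        h ^ 1506 + h ^ 500 + 2 * h ^ 998 + h ^ 1 := by ring
    have e1 := n0 hh 1506 1507 (by norm_num)
    have e2 := n0 hh 500 1507 (by norm_num)
    have e3 := n0 hh 998 1507 (by norm_num)
    have e4 := n0 hh 1 1507 (by norm_num)
    have e5 := n0 hh 997 1507 (by norm_num)
    have e6 := z 1507 (by norm_num)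
    rw [e0]
    omega
  · have e0 : (h ^ 500 + 2) * (h ^ 1006 + 1 + 1) =
        h ^ 1506 + 2 * h ^ 500 + 2 * h ^ 1006 + 4 := by ring
    have e1 := n0 hh 1506 1671 (by norm_num)
    have e2 := n0 hh 500 1671 (by norm_num)
    have e3 := n0 hh 1006 1671 (by norm_num)
    have e4 := n0 hh 995 1671 (by norm_num)
    have e5 := n0 hh 1670 1671 (by norm_num)
    have e6 := z 1671 (by norm_num)
    rw [e0]
    omega
  · have e1 := n0 hh 995 996 (by norm_num)
    have e2 := n0 hh 500 996 (by norm_num)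
    have e6 := z 996 (by norm_num)
    calc (2 * h ^ 995 + h ^ 500 + 2) ^ 2 ≤ (h ^ 996) ^ 2 := Nat.pow_le_pow_left (by omega) 2
      _ = h ^ 1992 := by ring

end DTOPH

open DTOPH in
theorem st_TOPH (hA : St_AR) (hU : St_UT) (hC : St_CAP) (hZ : St_ZONE) (hH : St_HOSTS) :
    St_TOPH := by
  intro h G r L M hh hR hr hL hLM hM hI
  have h0 : 0 < h := by omega
  have z : ∀ a, 0 < a → 1000000 ≤ h ^ a := fun a ha => by simpa using n0 hh 0 a ha
  obtain ⟨Bs, b1, b2, b3⟩ := hU.block (h ^ 500) (h ^ 1670) (h ^ 2001) L (pow_pos h0 _)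
    (pow_pos h0 _) fun x hx => (hLM x hx).1
  have b4 : Bs.card ≤ h ^ 834 := b2.trans (blocks hh hL)
  obtain ⟨n1, n2, n3, n4, n5, n6⟩ := num hh b4
  have q1 := n0 hh 995 1993 (by norm_num)
  have q2 := n0 hh 1495 1992 (by norm_num)
  have q3 := n0 hh 1993 1994 (by norm_num)
  have q4 := n0 hh 1992 1993 (by norm_num)
  have q5 := n0 hh 1994 1995 (by norm_num)
  have q6 := n0 hh 1840 1993 (by norm_num)
  have q7 := n0 hh 1507 1993 (by norm_num)
  have q8 := n0 hh 1 1993 (by norm_num)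
  have q9 := z 1993 (by norm_num)
  rw [pow_one] at q8
  obtain ⟨r', rfl⟩ : ∃ r', r = r' + 9 := ⟨r - 9, by omega⟩
  have hI' : ∀ i, G i → (2 * i < h ^ 1994 ∨ ∃ y ∈ M, i < y) →
      r' * mu h i + 9 * mu h i ≤ M.count i := fun i hi hc => by
    have := hI i hi hc
    rwa [add_mul] at this
  obtain ⟨S, s1, s2, s3, s4⟩ := win hC hh hR 994 (by norm_num) M fun i hi hz => by
    have := hI' i hi (Or.inl (by norm_num at hz; omega))
    omega
  obtain ⟨M0, rfl⟩ := Multiset.le_iff_exists_add.1 s1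
  obtain ⟨S', t1, t2, t3, t4⟩ := win hC hh hR 1494 (by norm_num) M0 fun i hi hz => by
    have := hI' i hi (Or.inl (by norm_num at hz; omega))
    have := s2 i
    rw [count_add] at *
    omega
  obtain ⟨M1, rfl⟩ := Multiset.le_iff_exists_add.1 t1
  norm_num at s3 s4 t3 t4
  have c1 : ∀ i, G i → (2 * i < h ^ 1994 ∨ ∃ y ∈ M1, i < y) →
      r' * mu h i + 7 * mu h i ≤ M1.count i := fun i hi hc => by
    have h1 := hI' i hi (hc.imp id fun ⟨y, hy, h⟩ => ⟨y, by simp [hy], h⟩)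
    have h2 := s2 i
    have h3 := t2 i
    rw [count_add, count_add] at h1
    omega
  have c2 : ∀ i, G i → i ≤ h ^ 1995 → (2 * i < h ^ 1994 ∨ ∃ y ∈ M1, i < y) → i ∈ M1 :=
    fun i hi h1 hc => by
      have h2 := c1 i hi hc
      have h3 := mu_pos hh h1
      exact one_le_count_iff_mem.1 (by omega)
  have e1 : h ^ 500 * h ^ 995 = h ^ 1495 := by ring
  have e2 : h ^ 995 * (h ^ 1006 + 1) = h ^ 2001 + h ^ 995 := by ring
  have e3 : (2 * h ^ 997) ^ 2 = 4 * h ^ 1994 := by ring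
  have e4 : h ^ 994 * h ^ 995 = h ^ 1989 := by ring
  have e5 : h ^ 1494 * h ^ 499 = h ^ 1993 := by ring
  have e6 := z 995 (by norm_num)
  have e7 := n0 hh 1841 1989 (by norm_num)
  have e8 := n0 hh 1841 1993 (by norm_num)
  obtain ⟨U, u1, U', u2, P, P', M2, p1, p2, p3, p4, p5, p6, p7⟩ :=
    hH h (4 * h ^ 1993) (h ^ 1994) (2 * h ^ 997) (h ^ 1992) (h ^ 995) (h ^ 500) (h ^ 1006 + 1)
      (h ^ 1670) (h ^ 2001) Bs M1 S S' (pow_pos h0 _) (Nat.pow_le_pow_right h0 (by norm_num))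
      (by omega) (by omega) n6 (by omega) (by omega) (by omega) (by omega)
      (fun x hx => (hM x (by simp [hx])).le)
      (fun u h1 h2 ⟨y, hy, h3⟩ => by
        obtain ⟨i, i1, i2, i3⟩ := hR.1 u (by omega) (by omega)
        exact ⟨i, c2 i i3 (by omega) (Or.inr ⟨y, hy, by omega⟩), i1, i2⟩)
      (by
        obtain ⟨i, i1, i2, i3⟩ := hR.1 (5 * h ^ 1993) (by omega) (by omega)
        exact ⟨i, c2 i i3 (by omega) (Or.inl (by omega)), by omega⟩)
      (fun B hB => ⟨(b3 B hB).1, fun x hx => by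
        have hx' : x ∈ L := b1 ▸ mem_of_le (le_sum_of_mem hB) hx
        exact ⟨(hLM x hx').1, (b3 B hB).2 x hx, fun y hy => (hLM x hx').2 y (by simp [hy])⟩⟩)
      (by omega) s4 (by omega) (by rw [e1]; exact t4)
  have l1 := load hU hh 1671 1333 P (fun p hp => (p4 p hp).trans n5)
    (by rw [← card_tot, p1, b1]; exact hL)
  have l2 := load hU hh 1507 1832 P' (fun p hp => (p6 p hp).trans n4) (p5.trans n3)
  have c3 : ∀ i, i < 4 * h ^ 1993 → M2.count i = M1.count i := fun i hi => by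
    have : (tot P').count i = 0 := count_eq_zero.2 fun hm => by have := (p7 i hm).1; omega
    rw [p2, count_add, this, zero_add]
  obtain ⟨V, v1, v2, v3⟩ := hZ h G 1993 (U + U') M2 (P + P') hh hR (by norm_num) (by norm_num)
    (hA.mono _ _ _ _ (Nat.pow_le_pow_right h0 (by norm_num)) p3)
    (fun p hp => by
      rcases mem_add.1 hp with hp | hp
      · exact ((p4 p hp).trans n5).trans (Nat.pow_le_pow_right h0 (by norm_num))
      · exact ((p6 p hp).trans n4).trans (Nat.pow_le_pow_right h0 (by norm_num)))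
    (by
      have f1 := n0 hh 2170 2603 (by norm_num)
      have f2 := n0 hh 2587 2603 (by norm_num)
      have f3 : l0 1993 = 2603 := by decide
      rw [f3, sn, Multiset.map_add, Multiset.map_add, Multiset.sum_add]
      norm_num at l1 l2
      simp only [sn] at l1 l2
      omega)
    (fun i hi hz => by
      norm_num at hz
      have := c1 i hi (Or.inl (by omega))
      rw [c3 i (by omega)]
      omega)
  obtain ⟨S2, rfl⟩ := Multiset.le_iff_exists_add.1 u1
  obtain ⟨S2', rfl⟩ := Multiset.le_iff_exists_add.1 u2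
  obtain ⟨W, rfl⟩ := Multiset.le_iff_exists_add.1 v1
  refine ⟨U + U' + tot P' + V, S2 + S2' + W, by rw [p2]; abel, ?_, fun i hi hc => ?_⟩
  · have : L + (U + U' + tot P' + V) = U + U' + tot (P + P') + V := by
      rw [← b1, ← p1, tot, tot, tot, Multiset.map_add]
      abel
    rw [this]
    exact v3
  · have h1 := hI' i hi (hc.imp (fun _ => by omega) fun ⟨y, hy, h⟩ => ⟨y, by
      rw [p2]
      simp only [mem_add] at hy ⊢
      tauto, h⟩)
    have h2 := s2 i
    have h3 := t2 i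
    have h4 := v2 i
    have h5 : (tot P').count i = 0 := count_eq_zero.2 fun hm => by
      obtain ⟨g1, g2⟩ := p7 i hm
      rcases hc with hc | ⟨y, hy, hc⟩
      · omega
      · simp only [mem_add] at hy
        rcases hy with (hy | hy) | hy
        · have := (s4 y (by simp [hy])).2
          omega
        · have := (t4 y (by simp [hy])).2
          omega
        · have := g2 y (by simp [hy])
          omega
    rw [p2] at h1
    simp only [count_add] at h1 h2 h3 ⊢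
    rw [show r' + 9 - 8 = r' + 1 by omega, add_mul]
    omega

end MP7ebc2a.AA
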