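import Pool.Agent.Lib.AA25.Blue3

/-! Degree three: arms on a pyramid. -/

namespace MP7ebc2a.AA
open Equiv Finset

namespace DTX

theorem enum (E : Multiset ℕ) : ∃ (n : ℕ) (a : Fin n → ℕ), E = univ.val.map a :=
  Quot.inductionOn E fun l => ⟨_, l.get, by rw [Fin.univ_val_map, List.ofFn_get]; rfl⟩

theorem tri (e : ℕ) : ∃ i r, r ≤ i ∧ 2 * e = i * i + i + 2 * r := by
  induction e with
  | zero => exact ⟨0, 0, le_rfl, rfl⟩
  | succ e ih =>
    obtain ⟨i, r, h1, h2⟩ := ih
    rcases h1.lt_or_eq with h | h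
    · exact ⟨i, r + 1, h, by omega⟩
    · exact ⟨i + 1, 0, Nat.zero_le _, by rw [mul_add, h2, h]; ring⟩

theorem ch2 (i : ℕ) : 2 * i.choose 2 + i = i * i := by
  induction i with
  | zero => rfl
  | succ i ih =>
    have h : (i + 1).choose 2 = i.choose 1 + i.choose 2 := rfl
    rw [h, Nat.choose_one_right, show (i + 1) * (i + 1) = i * i + 2 * i + 1 by ring]
    omega

theorem sum_eq {n : ℕ} (a : Fin n → ℕ) (f : ℕ → ℕ) :
    ((univ.val.map a).map f).sum = ∑ j, f (a j) := by
  rw [Multiset.map_map]; rfl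

end DTX

open DTX in
theorem st_TX (hT : St_TOOL) (hG : St_GR) : St_TX := by
  constructor
  · intro s c E hs hc hE
    obtain ⟨n, a, rfl⟩ := enum E
    have ha : ∀ j, a j ≤ c := fun j => hE _ (Multiset.mem_map_of_mem _ (mem_univ_val j))
    have key : ∀ j, ∃ G : Finset (Fin s × Fin s), Shifted G ∧ Antitone (dg G) ∧ G.card = a j ∧
        ∀ v, dg G v ≤ ld (a j) := fun j => by
      obtain ⟨i, r, h1, h2⟩ := tri (a j)
      have h3 := ch2 (s / 2 + 1)
      have h4 := ha j
      have h5 : i ≤ s / 2 := by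
        by_contra h
        have h6 : s / 2 + 1 ≤ i := by omega
        have := Nat.mul_le_mul h6 h6
        omega
      obtain ⟨G, g1, g2, g3, g4⟩ := hG s i i r le_rfl h1 (by omega)
      have h6 := ch2 i
      have h7 : i ≤ Nat.sqrt (2 * a j) := Nat.le_sqrt.2 (by omega)
      refine ⟨G, g1, g2, by omega, fun v => ?_⟩
      unfold ld
      rcases lt_or_ge (v : ℕ) i with h | h
      · have := ((g4 v).1 h).2
        omega
      · have := (g4 v).2 h
        omega
    choose G g1 g2 g3 g4 using key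
    have := hT s c G hc fun j => ⟨g1 j, g2 j, (g3 j).trans_le (ha j)⟩
    simp only [g3] at this
    refine ⟨_, by simp, fun o ho => ?_, this⟩
    obtain ⟨v, -, rfl⟩ := Multiset.mem_map.1 ho
    rw [sum_eq]
    exact ⟨Nat.le_add_right _ _, Nat.add_le_add_left (sum_le_sum fun j _ => g4 j v) _⟩
  · intro s c i E hi his hc hE
    obtain ⟨n, a, rfl⟩ := enum E
    have ha := fun j => hE _ (Multiset.mem_map_of_mem a (mem_univ_val j))
    have key : ∀ j, ∃ G : Finset (Fin s × Fin s), Shifted G ∧ Antitone (dg G) ∧ G.card = a j ∧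
        ∀ v : Fin s, ((v : ℕ) < i → a j / i ≤ dg G v ∧ dg G v ≤ a j / i + i + 2) ∧
          (i ≤ (v : ℕ) → dg G v ≤ i) := fun j => by
      obtain ⟨h1, h2, h3⟩ := ha j
      have h4 := ch2 i
      have h5 : (a j + i.choose 2) / i ≤ a j / i + i := by
        rw [← Nat.add_mul_div_right _ _ hi]
        exact Nat.div_le_div_right (by omega)
      have h6 : a j / i ≤ (a j + i.choose 2) / i := Nat.div_le_div_right (by omega)
      have h7 : i ≤ a j / i := (Nat.le_div_iff_mul_le hi).2 h2
      obtain ⟨G, g1, g2, g3, g4⟩ := hG s i ((a j + i.choose 2) / i) ((a j + i.choose 2) % i)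
        (h7.trans h6) (Nat.mod_lt _ hi).le (by omega)
      rw [Nat.div_add_mod] at g3
      refine ⟨G, g1, g2, by omega, fun v => ⟨fun h => ?_, (g4 v).2⟩⟩
      have := (g4 v).1 h
      omega
    choose G g1 g2 g3 g4 using key
    have := hT s c G hc fun j => ⟨g1 j, g2 j, (g3 j).trans_le (ha j).1⟩
    simp only [g3] at this
    have c1 : (univ.filter fun v : Fin s => (v : ℕ) < i).card = i := by
      rw [Fin.card_filter_val_lt, min_eq_right his]
    have c2 := card_filter_add_card_filter_not (s := univ) fun v : Fin s => (v : ℕ) < i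
    rw [c1, card_univ, Fintype.card_fin] at c2
    refine ⟨(univ.filter fun v : Fin s => (v : ℕ) < i).val.map fun v => AP s + ∑ j, dg (G j) v,
      (univ.filter fun v : Fin s => ¬(v : ℕ) < i).val.map fun v => AP s + ∑ j, dg (G j) v,
      by rw [Multiset.card_map, card_val, c1], by rw [Multiset.card_map, card_val]; omega,
      fun o ho => ?_, fun o ho => ?_, ?_⟩
    · obtain ⟨v, hv, rfl⟩ := Multiset.mem_map.1 ho
      have hv' := (mem_filter.1 (mem_def.2 hv)).2
      rw [sum_eq, sum_eq]
      exact ⟨Nat.add_le_add_left (sum_le_sum fun j _ => ((g4 j v).1 hv').1) _,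
        Nat.add_le_add_left (sum_le_sum fun j _ => ((g4 j v).1 hv').2) _⟩
    · obtain ⟨v, hv, rfl⟩ := Multiset.mem_map.1 ho
      have hv' := not_lt.1 (mem_filter.1 (mem_def.2 hv)).2
      refine ⟨Nat.le_add_right _ _, Nat.add_le_add_left
        ((sum_le_card_nsmul _ _ _ fun j _ => (g4 j v).2 hv').trans_eq ?_) _⟩
      rw [Multiset.card_map, card_val, smul_eq_mul, mul_comm]
    · rwa [← Multiset.map_add, filter_val, filter_val, Multiset.filter_add_not]

end MP7ebc2a.AA
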