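import Pool.Agent.Lib.AA25.Blue3

/-! Counting tools for the packing argument. -/

namespace MP7ebc2a.AA
open Equiv Finset

namespace DUT

lemma fs_cons (a : ℕ × ℕ) (P : Multiset (ℕ × ℕ)) : fs (a ::ₘ P) = a.1 ::ₘ fs P :=
  Multiset.map_cons _ _ _

lemma tot_cons (a : ℕ × ℕ) (P : Multiset (ℕ × ℕ)) : tot (a ::ₘ P) = (a.1 + a.2) ::ₘ tot P :=
  Multiset.map_cons _ _ _

lemma pair (e : ℕ) (O : Multiset ℕ) : ∀ B : Multiset ℕ, O.card = B.card →
    (∀ o ∈ O, ∀ b ∈ B, o ≤ b ∧ b ≤ o + e) → ∃ P, fs P = O ∧ tot P = B ∧ ∀ p ∈ P, p.2 ≤ e := by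
  induction O using Multiset.induction_on with
  | empty =>
    intro B hc _
    have hB : B = 0 := Multiset.card_eq_zero.1 (by simpa using hc.symm)
    exact ⟨0, rfl, hB.symm, fun p hp => absurd hp (Multiset.notMem_zero p)⟩
  | cons o O ih =>
    intro B hc h
    have hpos : 0 < B.card := by rw [← hc, Multiset.card_cons]; omega
    obtain ⟨b, hb⟩ := Multiset.card_pos_iff_exists_mem.1 hpos
    obtain ⟨B', rfl⟩ := Multiset.exists_cons_of_mem hb
    rw [Multiset.card_cons, Multiset.card_cons] at hc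
    obtain ⟨P, h1, h2, h3⟩ := ih B' (by omega) fun o' ho' b' hb' =>
      h o' (Multiset.mem_cons_of_mem ho') b' (Multiset.mem_cons_of_mem hb')
    obtain ⟨k1, k2⟩ := h o (Multiset.mem_cons_self _ _) b hb
    refine ⟨(o, b - o) ::ₘ P, by rw [fs_cons, h1], ?_, ?_⟩
    · rw [tot_cons, h2]
      have : o + (b - o) = b := by omega
      simp only [this]
    · intro p hp
      rcases Multiset.mem_cons.1 hp with rfl | hp
      · simp only []; omega
      · exact h3 p hp

lemma sel (e : ℕ) (O : Multiset ℕ) : ∀ (n : ℕ) (S : Multiset ℕ), O.card ≤ n →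
    (∀ o ∈ O, n ≤ (S.filter fun x => o ≤ x ∧ x ≤ o + e).card) →
    ∃ P, fs P = O ∧ tot P ≤ S ∧ ∀ p ∈ P, p.2 ≤ e := by
  induction O using Multiset.induction_on with
  | empty =>
    intro n S _ _
    exact ⟨0, rfl, Multiset.zero_le _, fun p hp => absurd hp (Multiset.notMem_zero p)⟩
  | cons o O ih =>
    intro n S hc h
    rw [Multiset.card_cons] at hc
    have hpos : 0 < (S.filter fun x => o ≤ x ∧ x ≤ o + e).card :=
      lt_of_lt_of_le (by omega) (h o (Multiset.mem_cons_self _ _))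
    obtain ⟨b, hb⟩ := Multiset.card_pos_iff_exists_mem.1 hpos
    obtain ⟨hbS, k1, k2⟩ := Multiset.mem_filter.1 hb
    obtain ⟨S', rfl⟩ := Multiset.exists_cons_of_mem hbS
    obtain ⟨P, h1, h2, h3⟩ := ih (n - 1) S' (by omega) fun o' ho' => by
      have := h o' (Multiset.mem_cons_of_mem ho')
      by_cases hq : o' ≤ b ∧ b ≤ o' + e
      · rw [Multiset.filter_cons_of_pos (p := fun x => o' ≤ x ∧ x ≤ o' + e) _ hq,
          Multiset.card_cons] at this
        omega
      · rw [Multiset.filter_cons_of_neg (p := fun x => o' ≤ x ∧ x ≤ o' + e) _ hq] at this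
        omega
    refine ⟨(o, b - o) ::ₘ P, by rw [fs_cons, h1], ?_, ?_⟩
    · rw [tot_cons]
      have : o + (b - o) = b := by omega
      simp only [this]
      exact Multiset.cons_le_cons _ h2
    · intro p hp
      rcases Multiset.mem_cons.1 hp with rfl | hp
      · simp only []; omega
      · exact h3 p hp

lemma ldm : Monotone ld := fun a b h => by
  have := Nat.sqrt_le_sqrt (show 2 * a ≤ 2 * b by omega)
  unfold ld; omega

lemma lds (ζ : ℕ) (E : Multiset ℕ) : ζ * (E.map ld).sum ≤ E.sum + E.card * (ζ * (ζ + 2)) := by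
  induction E using Multiset.induction_on with
  | empty => simp
  | cons e E ih =>
    rw [Multiset.map_cons, Multiset.sum_cons, Multiset.sum_cons, Multiset.card_cons]
    have h1 := Nat.sqrt_le (2 * e)
    have h2 : ζ * ld e ≤ e + ζ * (ζ + 2) := by
      unfold ld
      generalize Nat.sqrt (2 * e) = r at h1
      have h3 : 2 * ζ * r ≤ ζ ^ 2 + r ^ 2 := two_mul_le_add_sq ζ r
      nlinarith
    nlinarith

lemma ldp (h b : ℕ) (E : Multiset ℕ) (hh : 10 ≤ h) (hE : ∀ e ∈ E, e ≤ h ^ b) :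
    (E.map ld).sum ≤ E.card * h ^ ((b + 1) / 2 + 1) := by
  have key : ∀ x ∈ E.map ld, x ≤ h ^ ((b + 1) / 2 + 1) := by
    intro x hx
    obtain ⟨e, he, rfl⟩ := Multiset.mem_map.1 hx
    have h1 : h ^ b ≤ h ^ ((b + 1) / 2) * h ^ ((b + 1) / 2) := by
      rw [← pow_add]; exact Nat.pow_le_pow_right (by omega) (by omega)
    have h2 : 1 ≤ h ^ ((b + 1) / 2) := Nat.one_le_pow _ _ (by omega)
    have h3 := hE e he
    rw [pow_succ]
    generalize h ^ ((b + 1) / 2) = X at h1 h2
    have h4 : Nat.sqrt (2 * e) ≤ 2 * X := by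
      have : Nat.sqrt (2 * e) ≤ Nat.sqrt ((2 * X) * (2 * X)) :=
        Nat.sqrt_le_sqrt (show 2 * e ≤ (2 * X) * (2 * X) by nlinarith)
      rwa [Nat.sqrt_eq] at this
    unfold ld
    nlinarith
  have := Multiset.sum_le_card_nsmul _ _ key
  rwa [Multiset.card_map, smul_eq_mul] at this

lemma cross (f : ℕ → ℕ) (W a : ℕ) (S : Multiset ℕ) : (∀ x ∈ S, f x ≤ W) → a < (S.map f).sum →
    ∃ U ≤ S, (U.map f).sum ≤ a ∧ a < (U.map f).sum + W := by
  induction S using Multiset.induction_on with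
  | empty => intro _ h; simp at h
  | cons x S ih =>
    intro hW ha
    rw [Multiset.map_cons, Multiset.sum_cons] at ha
    by_cases hc : a < (S.map f).sum
    · obtain ⟨U, hU, h1⟩ := ih (fun y hy => hW y (Multiset.mem_cons_of_mem hy)) hc
      exact ⟨U, hU.trans (Multiset.le_cons_self _ _), h1⟩
    · have := hW x (Multiset.mem_cons_self _ _)
      exact ⟨S, Multiset.le_cons_self _ _, by omega, by omega⟩

lemma many (h lo z t k : ℕ) (M : Multiset ℕ) (hD : Dens h lo z M) (hz : t ≤ z)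
    (hy : ∃ y ∈ M, t ≤ y) : lo + 2 * (k * h) ≤ 2 * t → k * h ≤ t →
    k ≤ (M.filter fun x => t ≤ x + k * h ∧ x < t).card := by
  induction k with
  | zero => intro _ _; exact Nat.zero_le _
  | succ k ih =>
    intro h1 h2
    have e : (k + 1) * h = k * h + h := by ring
    rw [e] at h1 h2 ⊢
    have ih' := ih (by omega) (by omega)
    obtain ⟨y, hyM, hty⟩ := hy
    obtain ⟨x, hx, k1, k2⟩ := hD (t - (k * h + h)) (by omega) (by omega) ⟨y, hyM, by omega⟩
    obtain ⟨M', rfl⟩ := Multiset.exists_cons_of_mem hx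
    rw [Multiset.filter_cons_of_neg (p := fun x => t ≤ x + k * h ∧ x < t) _ (by omega)] at ih'
    rw [Multiset.filter_cons_of_pos (p := fun x => t ≤ x + (k * h + h) ∧ x < t) _
      ⟨by omega, by omega⟩, Multiset.card_cons]
    have := Multiset.card_le_card (Multiset.monotone_filter_right M'
      (p := fun x => t ≤ x + k * h ∧ x < t) (q := fun x => t ≤ x + (k * h + h) ∧ x < t)
      fun x hx => ⟨by omega, hx.2⟩)
    omega

lemma cP (lo c s : ℕ) (h1 : 200 ≤ lo) (h2 : 16 * c ≤ lo) (h3 : lo ≤ 2 * AP (s + 1)) :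
    c ≤ (s / 2 + 1).choose 2 := by
  rw [AP_two] at h3
  rw [Nat.choose_two_right, Nat.add_sub_cancel, Nat.le_div_iff_mul_le (by norm_num)]
  have h4 : s ≤ 2 * (s / 2) + 1 := by omega
  generalize s / 2 = m at h4
  have h5 : (s + 1 + 1) * (s + 1 + 2) ≤ (2 * m + 3) * (2 * m + 4) :=
    Nat.mul_le_mul (by omega) (by omega)
  have h6 : 3 ≤ m := by
    by_contra hc
    have : (2 * m + 3) * (2 * m + 4) ≤ 7 * 8 := Nat.mul_le_mul (by omega) (by omega)
    omega
  nlinarith

lemma block (ρ D hi : ℕ) (hρ : 0 < ρ) (n : ℕ) : ∀ L : Multiset ℕ, L.card = n → (∀ x ∈ L, x ≤ hi) →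
    0 < D → ∃ Bs : Multiset (Multiset ℕ), Bs.sum = L ∧
      Bs.card ≤ L.card / ρ + ρ * (hi / D + 1) ∧
      ∀ B ∈ Bs, (B.card = ρ ∨ B.card = 1) ∧ ∀ x ∈ B, ∀ y ∈ B, x ≤ y + D := by
  induction n using Nat.strong_induction_on with
  | _ n ih =>
  intro L hn hL hD
  by_cases hq : ∃ q, ρ ≤ (L.filter fun x => q = x / D).card
  · obtain ⟨q, hq⟩ := hq
    have hpos : 0 < (Multiset.powersetCard ρ (L.filter fun x => q = x / D)).card := by
      rw [Multiset.card_powersetCard]; exact Nat.choose_pos hq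
    obtain ⟨B, hB⟩ := Multiset.card_pos_iff_exists_mem.1 hpos
    obtain ⟨hB1, hB2⟩ := Multiset.mem_powersetCard.1 hB
    obtain ⟨L', hL'⟩ := Multiset.le_iff_exists_add.1 (hB1.trans (Multiset.filter_le _ _))
    have hc : L.card = L'.card + ρ := by rw [hL', Multiset.card_add, hB2, add_comm]
    obtain ⟨Bs, h1, h2, h3⟩ := ih L'.card (by omega) L' rfl
      (fun x hx => hL x (by rw [hL']; exact Multiset.mem_add.2 (Or.inr hx))) hD
    refine ⟨B ::ₘ Bs, by rw [Multiset.sum_cons, h1, ← hL'], ?_, ?_⟩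
    · rw [Multiset.card_cons, hc, Nat.add_div_right _ hρ]; omega
    · intro B' hB'
      rcases Multiset.mem_cons.1 hB' with rfl | hB'
      · refine ⟨Or.inl hB2, fun x hx y hy => ?_⟩
        have k1 := (Multiset.mem_filter.1 (Multiset.mem_of_le hB1 hx)).2
        have k2 := (Multiset.mem_filter.1 (Multiset.mem_of_le hB1 hy)).2
        have k3 := Nat.div_add_mod x D
        have k4 := Nat.div_add_mod y D
        have k5 := Nat.mod_lt x hD
        rw [← k1] at k3
        rw [← k2] at k4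
        omega
      · exact h3 B' hB'
  · refine ⟨L.map fun a => ({a} : Multiset ℕ), Multiset.sum_map_singleton L, ?_, ?_⟩
    · rw [Multiset.card_map]
      have h1 : ∑ q ∈ range (hi / D + 1), Multiset.count q (L.map fun x => x / D)
          = (L.map fun x => x / D).card := Multiset.sum_count_eq_card fun a ha => by
        obtain ⟨x, hx, rfl⟩ := Multiset.mem_map.1 ha
        exact mem_range.2 (Nat.lt_succ_of_le (Nat.div_le_div_right (hL x hx)))
      have h2 : ∑ q ∈ range (hi / D + 1), Multiset.count q (L.map fun x => x / D)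
          ≤ (range (hi / D + 1)).card • ρ := sum_le_card_nsmul _ _ _ fun q _ => by
        rw [Multiset.count_map]
        exact le_of_lt (not_le.1 fun hc => hq ⟨q, hc⟩)
      rw [h1, Multiset.card_map, card_range, smul_eq_mul, mul_comm] at h2
      exact h2.trans (Nat.le_add_left _ _)
    · intro B hB
      obtain ⟨a, _, rfl⟩ := Multiset.mem_map.1 hB
      refine ⟨Or.inr (Multiset.card_singleton a), fun x hx y hy => ?_⟩
      rw [Multiset.mem_singleton.1 hx, Multiset.mem_singleton.1 hy]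
      exact Nat.le_add_right _ _

end DUT

theorem st_UT : St_UT where
  pair e O B := DUT.pair e O B
  sel e n O S := DUT.sel e O n S
  ldm := DUT.ldm
  lds := DUT.lds
  ldp := DUT.ldp
  cross := DUT.cross
  many := DUT.many
  cP := DUT.cP
  block ρ D hi L hρ hD hL := DUT.block ρ D hi hρ _ L rfl hL hD

end MP7ebc2a.AA
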