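import Pool.Agent.Lib.AA25.D_EV
import Pool.Agent.Lib.AA25.D_INJ
import Pool.Agent.Lib.AA25.D_SHIFT
import Pool.Agent.Lib.AA25.D_ADD
import Pool.Agent.Lib.AA25.D_REAL
import Pool.Agent.Lib.AA25.D_GD
import Pool.Agent.Lib.AA25.D_DUAL3
import Pool.Agent.Lib.AA25.D_PHI
import Pool.Agent.Lib.AA25.D_PINV
import Pool.Agent.Lib.AA25.D_HW2
import Pool.Agent.Lib.AA25.D_ALTD
import Pool.Agent.Lib.AA25.D_TH
import Pool.Agent.Lib.AA25.D_NZ
import Pool.Agent.Lib.AA25.D_JET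
import Pool.Agent.Lib.AA25.D_QUADS
import Pool.Agent.Lib.AA25.D_TOOL
import Pool.Agent.Lib.AA25.D_GR
import Pool.Agent.Lib.AA25.D_TX
import Pool.Agent.Lib.AA25.D_UT
import Pool.Agent.Lib.AA25.D_STEP
import Pool.Agent.Lib.AA25.D_CAP
import Pool.Agent.Lib.AA25.D_CHAIN
import Pool.Agent.Lib.AA25.D_FORM
import Pool.Agent.Lib.AA25.D_HOST
import Pool.Agent.Lib.AA25.D_HOSTS
import Pool.Agent.Lib.AA25.D_TOPH
import Pool.Agent.Lib.AA25.D_TOP
import Pool.Agent.Lib.AA25.D_LOOP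
import Pool.Agent.Lib.AA25.D_TINY
import Pool.Agent.Lib.AA25.D_MAIN
import Pool.Agent.Lib.AA25.D_SW
import Pool.Agent.Lib.AA25.D_P6
import Pool.Agent.Lib.AA25.D_P7

/-! Assembly of the blocks for degree three. -/

namespace MP7ebc2a.AA

theorem all_AR : St_AR :=
  st_AR st_EV (st_REAL st_EV) (st_ADD st_EV st_INJ (st_SHIFT st_EV st_INJ)) (st_GD st_EV)

theorem all_TX : St_TX :=
  st_TX (st_TOOL st_EV (st_REAL st_EV) (st_JET st_EV (st_DUAL3 st_EV) st_PHI st_HW2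
    (st_TH st_PHI st_PINV st_ALTD) st_NZ) st_QUADS) st_GR

theorem all_ZONE : St_ZONE :=
  st_ZONE (st_CHAIN all_AR st_UT (st_STEP all_AR all_TX st_UT) st_CAP) all_AR

theorem all_FIN3 : St_FIN3 :=
  have hF := st_FORM all_AR all_TX st_UT
  st_FIN3 (st_P7 st_SW st_P6) (st_MAIN all_AR st_UT all_ZONE
    (st_TOP st_UT hF all_ZONE (st_TOPH all_AR st_UT st_CAP all_ZONE
      (st_HOSTS all_AR st_UT (st_HOST all_AR all_TX st_UT))))
    (st_LOOP all_AR st_UT hF all_ZONE) st_TINY)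

end MP7ebc2a.AA
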