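import Pool.Agent.Lib.AA25.Blue

/-! Extraction of parts from a window, and consequences of typicality. -/

namespace MP7ebc2a.AA
open Finset

namespace EX

lemma cnt_le (s : Finset ℕ) (U : Multiset ℕ) : ∑ i ∈ s, U.count i ≤ U.card := by
  have h := Multiset.sum_count_eq_card (s := s ∪ U.toFinset) (m := U) fun a ha => by simp [ha]
  rw [← h]
  exact sum_le_sum_of_subset subset_union_left

lemma sub (H a b : ℕ) (M U : Multiset ℕ) : df H a b (M - U) ≤ df H a b M + U.card := by
  refine le_trans ?_ (Nat.add_le_add_left (cnt_le (Icc a b) U) _)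
  rw [df, df, ← sum_add_distrib]
  refine sum_le_sum fun i _ => ?_
  rw [Multiset.count_sub]
  omega

lemma miss {H a b : ℕ} {M : Multiset ℕ} (ha : 0 < a) (G : Finset ℕ)
    (hG : ∀ i ∈ G, a ≤ i ∧ i ≤ b ∧ i ∉ M) : G.card * (H / b) ≤ df H a b M := by
  refine le_trans ?_ (sum_le_sum_of_subset (s := G) fun i hi =>
    mem_Icc.2 ⟨(hG i hi).1, (hG i hi).2.1⟩)
  refine le_trans (le_of_eq (smul_eq_mul _ _).symm) (card_nsmul_le_sum _ _ _ fun i hi => ?_)
  rw [Multiset.count_eq_zero_of_notMem (hG i hi).2.2, Nat.sub_zero]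
  exact Nat.div_le_div_left (hG i hi).2.1 (by have := (hG i hi).1; omega)

lemma pair {H z a b ε s : ℕ} {M : Multiset ℕ} (hz : 2 ≤ z) (ha : 0 < a) (hb : b ≤ 30 * z)
    (hH : 30 * z ≤ H) (hε : ε < 2) (h1 : a + z ≤ s) (h2 : s + z ≤ b)
    (hd : 180 * df H a b M < H) :
    ∃ j, 1 ≤ j ∧ j ≤ z ∧ (s - j) % 2 = ε ∧ s - j ∈ M ∧ s + j ∈ M := by
  by_contra hc
  push Not at hc
  obtain ⟨j0, h0, h0', h0''⟩ : ∃ j0, 1 ≤ j0 ∧ j0 ≤ 2 ∧ (s - j0) % 2 = ε := by
    by_cases h : (s - 1) % 2 = ε
    · exact ⟨1, le_rfl, by omega, h⟩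
    · exact ⟨2, by omega, le_rfl, by omega⟩
  have hm := miss (H := H) (b := b) (M := M) ha ((range (z / 2)).image fun u =>
    if s - (j0 + 2 * u) ∈ M then s + (j0 + 2 * u) else s - (j0 + 2 * u)) fun i hi => by
      obtain ⟨u, hu, rfl⟩ := mem_image.1 hi
      have := mem_range.1 hu
      split_ifs with h
      · exact ⟨by omega, by omega, hc _ (by omega) (by omega) (by omega) h⟩
      · exact ⟨by omega, by omega, h⟩
  rw [card_image_of_injOn, card_range] at hm
  · have w1 : H / (30 * z) ≤ H / b := Nat.div_le_div_left hb (by omega)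
    have w2 : 1 ≤ H / (30 * z) := (Nat.le_div_iff_mul_le (by omega)).2 (by omega)
    have w3 : H < 30 * z * (H / (30 * z) + 1) := Nat.lt_mul_div_succ _ (by omega)
    have w4 : z ≤ 3 * (z / 2) := by omega
    have w5 := Nat.mul_le_mul_left (z / 2) w1
    generalize H / (30 * z) = w at *
    generalize z / 2 = y at *
    nlinarith
  · intro u hu v hv e
    have := mem_range.1 hu
    have := mem_range.1 hv
    simp only at e
    split_ifs at e <;> omega

lemma ex {H z a b ε : ℕ} (hz : 2 ≤ z) (ha : 0 < a) (hb : b ≤ 30 * z) (hH : 30 * z ≤ H) (hε : ε < 2)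
    (k : ℕ) : ∀ (t : ℕ) (M : Multiset ℕ), k * (a + z) ≤ t → t + k * z ≤ k * b →
      180 * (df H a b M + 2 * k) ≤ H →
      ∃ U ≤ M, U.card = 2 * k ∧ U.sum = 2 * t ∧ ∀ x ∈ U, a ≤ x ∧ x ≤ b ∧ x % 2 = ε := by
  induction k with
  | zero => exact fun t M _ h _ => ⟨0, zero_le, by simp, by simp; omega, by simp⟩
  | succ k ih =>
    intro t M h1 h2 h3
    have hab : a + z + z ≤ b := by
      refine Nat.le_of_mul_le_mul_left ?_ (Nat.succ_pos k)
      nlinarith
    have hk : k * (a + z) + k * z ≤ k * b := by nlinarith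
    obtain ⟨s, s1, s2, s3, s4, s5⟩ : ∃ s, a + z ≤ s ∧ s + z ≤ b ∧ s ≤ t ∧ k * (a + z) ≤ t - s ∧
        t - s + k * z ≤ k * b := by
      rw [add_mul, one_mul] at h1
      rw [add_mul, add_mul, one_mul, one_mul] at h2
      exact ⟨max (a + z) (t + k * z - k * b), by omega, by omega, by omega, by omega, by omega⟩
    obtain ⟨j, j1, j2, j3, j4, j5⟩ := pair (M := M) hz ha hb hH hε s1 s2 (by omega)
    have hP : ({s - j, s + j} : Multiset ℕ) ≤ M := by
      refine (Multiset.le_iff_subset ?_).2 fun x hx => ?_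
      · simp; omega
      · simp only [Multiset.insert_eq_cons, Multiset.mem_cons, Multiset.mem_singleton] at hx
        rcases hx with rfl | rfl <;> assumption
    have hs := sub H a b M {s - j, s + j}
    rw [Multiset.card_pair] at hs
    obtain ⟨U, u1, u2, u3, u4⟩ := ih (t - s) (M - {s - j, s + j}) s4 s5 (by omega)
    refine ⟨U + {s - j, s + j}, (le_tsub_iff_right hP).1 u1, ?_, ?_, fun x hx => ?_⟩
    · rw [Multiset.card_add, u2, Multiset.card_pair]; ring
    · simp [u3]; omega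
    · rcases Multiset.mem_add.1 hx with hx | hx
      · exact u4 x hx
      · simp only [Multiset.insert_eq_cons, Multiset.mem_cons, Multiset.mem_singleton] at hx
        omega

lemma dist {H a b q r L K : ℕ} {M : Multiset ℕ} (hq : 0 < q) (ha : 0 < a) (har : a ≤ r)
    (hb : r + q * L ≤ b) (hd : df H a b M < H / b * (L + 1 - K)) :
    ∃ U ≤ M, U.Nodup ∧ U.card = K ∧ ∀ x ∈ U, a ≤ x ∧ x ≤ b ∧ x % q = r % q := by
  set P : Finset ℕ := (range (L + 1)).image fun l => r + q * l with hP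
  have c : P.card = L + 1 := by
    rw [hP, card_image_of_injective, card_range]
    exact fun u v e => Nat.eq_of_mul_eq_mul_left hq (Nat.add_left_cancel e)
  have m : ∀ x ∈ P, a ≤ x ∧ x ≤ b ∧ x % q = r % q := fun x hx => by
    obtain ⟨l, hl, rfl⟩ := mem_image.1 hx
    have := Nat.mul_le_mul_left q (Nat.lt_succ_iff.1 (mem_range.1 hl))
    exact ⟨by omega, by omega, by simp⟩
  have h1 := miss (H := H) (b := b) (M := M) ha (P.filter (· ∉ M)) fun i hi =>
    ⟨(m i (mem_filter.1 hi).1).1, (m i (mem_filter.1 hi).1).2.1, (mem_filter.1 hi).2⟩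
  have h2 : (P.filter (· ∉ M)).card < L + 1 - K := by
    rw [mul_comm] at h1
    exact Nat.lt_of_mul_lt_mul_left (h1.trans_lt hd)
  have h3 := card_filter_add_card_filter_not (s := P) (· ∈ M)
  obtain ⟨U, u1, u2⟩ := exists_subset_card_eq (s := P.filter (· ∈ M)) (n := K) (by omega)
  exact ⟨U.val, (Multiset.le_iff_subset U.nodup).2 fun x hx => (mem_filter.1 (u1 hx)).2, U.nodup,
    u2, fun x hx => m x (mem_filter.1 (u1 hx)).1⟩

lemma top (M : Multiset ℕ) (r : ℕ) : r ≤ M.card →
    ∃ U ≤ M, U.card = r ∧ ∀ a ∈ U, ∀ b ∈ M - U, b ≤ a := by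
  induction r with
  | zero => exact fun _ => ⟨0, zero_le, rfl, by simp⟩
  | succ r ih =>
    intro hr
    obtain ⟨U, u1, u2, u3⟩ := ih (by omega)
    have hne : M - U ≠ 0 := fun e => by
      have := Multiset.card_sub u1
      rw [e, Multiset.card_zero] at this
      omega
    obtain ⟨a, a1, a2⟩ := Multiset.exists_max_image id hne
    have hs : M - (a ::ₘ U) ≤ M - U := tsub_le_tsub_left (Multiset.le_cons_self _ _) _
    refine ⟨a ::ₘ U, ?_, by simp [u2], fun x hx b hb => ?_⟩
    · rw [← Multiset.singleton_add]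
      exact (le_tsub_iff_right u1).1 (Multiset.singleton_le.2 a1)
    · rcases Multiset.mem_cons.1 hx with rfl | hx
      · exact a2 b (Multiset.mem_of_le hs hb)
      · exact u3 x hx b (Multiset.mem_of_le hs hb)

lemma harm (N X : ℕ) : ((∑ i ∈ Icc 1 N, X / i : ℕ) : ℚ) ≤ X * harmonic N := by
  rw [harmonic_eq_sum_Icc, mul_sum, Nat.cast_sum]
  exact sum_le_sum fun i _ => Nat.cast_div_le.trans_eq (div_eq_mul_inv _ _)

end EX

theorem st_EX : St_EX where
  sub := EX.sub
  mono H a b a' b' M M' h1 h2 h3 := by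
    refine le_trans (sum_le_sum fun i hi => ?_) (sum_le_sum_of_subset (Icc_subset_Icc h1 h2))
    have := h3 i (mem_Icc.1 hi).1 (mem_Icc.1 hi).2
    omega
  cnt H a b i M h1 h2 := by
    have : H / i - M.count i ≤ df H a b M :=
      single_le_sum (f := fun i => H / i - M.count i) (fun _ _ => Nat.zero_le _) (mem_Icc.2 ⟨h1, h2⟩)
    omega
  ex H z c c' ε k T M hz hc hc' hH hε hT h1 h2 h3 := by
    obtain ⟨t, rfl⟩ := hT
    rw [← two_mul] at *
    exact EX.ex hz (by positivity) (Nat.mul_le_mul_right _ hc') hH hε k t M (by nlinarith)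
      (by nlinarith) h3
  dist _ _ _ _ _ _ _ _ := EX.dist
  top := EX.top

theorem st_TYP : St_TYP := by
  intro h s ⟨h1, _⟩ hh
  have a1 : ∀ x ∈ s, x ≤ h ^ 101 := fun x hx =>
    (Nat.le_mul_of_pos_right _ (Multiset.count_pos.2 hx)).trans (h1 x hx).2
  have a2 : ∀ x, x * s.count x ≤ h ^ 101 := fun x => by
    by_cases hx : x ∈ s
    · exact (h1 x hx).2
    · simp [Multiset.count_eq_zero_of_notMem hx]
  refine ⟨a1, ?_, fun y => ?_⟩
  · rw [← Multiset.sum_count_eq_card (s := Icc 1 (h ^ 101)) fun x hx =>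
      mem_Icc.2 ⟨(h1 x hx).1, a1 x hx⟩]
    refine (sum_le_sum fun i hi => (Nat.le_div_iff_mul_le (mem_Icc.1 hi).1).2
      ((mul_comm _ _).trans_le (a2 i))).trans ?_
    have := (EX.harm (h ^ 101) (h ^ 101)).trans (mul_le_mul_of_nonneg_left hh (by positivity))
    rw [pow_succ h 101]
    exact_mod_cast this
  · rw [sum_multiset_count_of_subset _ (range y) fun x hx => by
      simp only [Multiset.mem_toFinset, Multiset.mem_filter] at hx
      exact mem_range.2 hx.2]
    refine (sum_le_card_nsmul _ _ (h ^ 101) fun x _ => ?_).trans (by simp)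
    rw [smul_eq_mul, mul_comm]
    exact (Nat.mul_le_mul_left _ (Multiset.count_le_of_le _ (Multiset.filter_le _ _))).trans (a2 x)

end MP7ebc2a.AA
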