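import Pool.Agent.Lib.AA25.B_FIB

/-! A highest weight vector is not killed by the column antisymmetriser. -/

namespace MP7ebc2a.AA
open Equiv Finset ComplexConjugate

namespace HW

variable {α : Type} [Fintype α] {M N : ℕ} {ν : Fin N → ℕ} (hν : ∀ k, ν k ≤ M)

/-- the row of a box -/
def rw (x : Bx ν) : Fin M := Fin.castLE (hν x.1) x.2

lemma rw_eq {x y : Bx ν} : rw hν x = rw hν y ↔ (x.2 : ℕ) = y.2 := Fin.ext_iff

lemma card_rw (i : Fin M) : #{x | rw hν x = i} = #{k | (i : ℕ) < ν k} := by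
  refine card_bij (fun x _ => x.1) (fun x hx => ?_) (fun x hx y hy h => ?_) fun k hk => ?_
  · rw [mem_filter_univ] at hx ⊢
    exact hx ▸ x.2.2
  · rw [mem_filter_univ] at hx hy
    exact Sigma.ext h ((Fin.heq_ext_iff (congrArg ν h)).2 ((rw_eq hν).1 (hx.trans hy.symm)))
  · exact ⟨⟨k, ⟨i, (mem_filter.1 hk).2⟩⟩, mem_filter.2 ⟨mem_univ _, rfl⟩, rfl⟩

/-- fillings, and the fillings given by permutations -/
def ui : (Bx ν → Fin M) ⊕ Perm (Bx ν) → Bx ν → Fin M := Sum.elim id fun g => rw hν ∘ g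

variable (φ : (Bx ν → α) → ℤ) (G : Matrix (Fin M) α ℂ)

def Q (u : Bx ν → Fin M) : ℂ := ∑ f, (φ f : ℂ) * ∏ x, G (u x) (f x)

lemma Q_comp (u : Bx ν → Fin M) (g : Perm (Bx ν)) :
    Q φ G (u ∘ g) = ∑ f, (φ (f ∘ g) : ℂ) * ∏ x, G (u x) (f x) := by
  rw [Q, ← Equiv.sum_comp (arrowCongr g.symm (Equiv.refl α))]
  exact sum_congr rfl fun f _ => congrArg _ (Equiv.prod_comp g fun x => G (u x) (f x))

lemma Q_mul (Y : Matrix (Fin M) (Fin M) ℂ) :
    Q φ (Y * G) (rw hν) = ∑ u, Q φ G u * ∏ x, Y (rw hν x) (u x) := by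
  simp only [Q, Matrix.mul_apply, prod_univ_sum, Fintype.piFinset_univ, mul_sum, sum_mul,
    prod_mul_distrib]
  rw [sum_comm]
  exact sum_congr rfl fun u _ => sum_congr rfl fun f _ => by ring

/-- the part of the right content -/
def H0 (Y : Matrix (Fin M) (Fin M) ℂ) : ℂ :=
  ∑ u with univ.val.map u = univ.val.map (rw hν), Q φ G u * ∏ x, Y (rw hν x) (u x)

lemma H0_mul {U : Matrix (Fin M) (Fin M) ℂ}
    (h : ∀ Z : Matrix (Fin M) α ℂ, Q φ (U * Z) (rw hν) = Q φ Z (rw hν))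
    (Y : Matrix (Fin M) (Fin M) ℂ) : H0 hν φ G (U * Y) = H0 hν φ G Y := by
  have h1 := FIB.fn univ (fun u : Bx ν → Fin M => Q φ G u * ∏ x, (U * Y) (rw hν x) (u x) -
      Q φ G u * ∏ x, Y (rw hν x) (u x)) (fun u => u)
    (fun u => if univ.val.map u = univ.val.map (rw hν) then 1 else 0) (fun z => by
      have := h (Y * Matrix.diagonal z * G)
      rw [← Matrix.mul_assoc, ← Matrix.mul_assoc, Q_mul, Q_mul, ← sub_eq_zero,
        ← sum_sub_distrib] at this
      simpa only [Matrix.mul_diagonal, prod_mul_distrib, sub_mul, mul_assoc] using this)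
    fun u _ u' _ w hw => by rw [FIB.map_perm w hw]
  simp only [mul_ite, mul_one, mul_zero, ← sum_filter, sum_sub_distrib] at h1
  exact sub_eq_zero.1 h1

lemma H0_upper {B : Matrix (Fin M) (Fin M) ℂ} (h : ∀ i j, j < i → B i j = 0) :
    H0 hν φ G B = Q φ G (rw hν) * ∏ i, B i i ^ #{k | (i : ℕ) < ν k} := by
  rw [H0, sum_eq_single_of_mem (rw hν) (by simp) fun u hu h0 => ?_]
  · rw [← prod_fiberwise' univ (rw hν) fun i => B i i]
    simp only [prod_const, card_rw]
  · by_contra h1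
    obtain ⟨w, hw⟩ := FIB.exists_perm (mem_filter.1 hu).2
    have h2 : ∀ x ∈ univ, (rw hν x : ℕ) ≤ u x := fun x hx => not_lt.1 fun k =>
      prod_ne_zero_iff.1 (right_ne_zero_of_mul h1) x hx (h _ _ k)
    have h3 := (sum_eq_sum_iff_of_le h2).1 (by
      rw [← Equiv.sum_comp w]
      exact sum_congr rfl fun x _ => by rw [hw])
    exact h0 (funext fun x => Fin.ext (h3 x (mem_univ x)).symm)

lemma H0_eq (h : ∀ (U : Matrix (Fin M) (Fin M) ℂ) (Z : Matrix (Fin M) α ℂ),
    (∀ i j, i < j → U i j = 0) → (∀ i, U i i = 1) → Q φ (U * Z) (rw hν) = Q φ Z (rw hν))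
    (Y : Matrix (Fin M) (Fin M) ℂ) : H0 hν φ G Y = ∑ g : Perm (Bx ν) with ∀ x, (g x).1 = x.1,
      Q φ G (rw hν) * ((Perm.sign g : ℤˣ) : ℤ) * ∏ x, Y (rw hν x) (rw hν (g x)) := by
  have h1 : H0 hν φ G = fun Y => Q φ G (rw hν) * EE hν Y fun k => Fin.castLE (hν k) := by
    refine eq_of_LU ?_ ?_ ?_
    · unfold H0
      fun_prop
    · unfold EE
      exact continuous_const.mul (continuous_finsetProd _ fun k _ =>
        (continuous_id.matrix_submatrix _ _).matrix_det)
    · rintro _ ⟨u, b, u1, u2, b1, -, rfl⟩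
      rw [H0_mul hν φ G fun Z => h u Z u1 u2, H0_upper hν φ G b1, EE_LU hν u b u1 u2 b1]
  simp only [h1, mul_assoc, ← mul_sum]
  exact congrArg _ (st_SIG ν fun x y => Y (rw hν x) (rw hν y)).symm

end HW

open HW in
theorem st_HW : St_HW := by
  intro α _ _ M N ν hν φ hr hU ⟨f0, hf0⟩
  by_contra hc
  push Not at hc
  have h1 : ∀ G : Matrix (Fin M) α ℂ, Q φ G (rw hν) = 0 := fun G => by
    have a1 : ∑ g : Perm (Bx ν) with ∀ x, (g x).1 = x.1,
        (((Perm.sign g : ℤˣ) : ℤ) : ℂ) * Q φ G (rw hν ∘ g) = 0 := by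
      simp only [Q_comp, mul_sum, ← mul_assoc]
      rw [sum_comm]
      refine sum_eq_zero fun f _ => ?_
      rw [← sum_mul]
      exact mul_eq_zero_of_left (by exact_mod_cast hc f) _
    have a2 := FIB.fn (({u | univ.val.map u = univ.val.map (rw hν)} : Finset (Bx ν → Fin M)).disjSum
        ({g | ∀ x, (g x).1 = x.1} : Finset (Perm (Bx ν))))
      (Sum.elim (Q φ G) fun g => -(Q φ G (rw hν) * ((Perm.sign g : ℤˣ) : ℤ)))
      (fun i x => (rw hν x, ui hν i x))
      (fun i => conj (Q φ G (ui hν i))) (fun z => by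
        have := H0_eq hν φ G hU (Matrix.of fun i j => z (i, j))
        rw [sum_disjSum]
        simp only [Sum.elim_inl, Sum.elim_inr, neg_mul, sum_neg_distrib]
        exact add_neg_eq_zero.2 this) fun i _ i' _ w hw => by
      have e : ui hν i = ui hν i' ∘ w := funext fun x => (congrArg Prod.snd (hw x)).symm
      rw [e, Q_comp]
      simp only [hr w fun x => (rw_eq hν).1 (congrArg Prod.fst (hw x))]
      rfl
    have a3 := congrArg conj a1
    rw [map_sum, map_zero] at a3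
    simp only [map_mul, map_intCast] at a3
    rw [sum_disjSum] at a2
    simp only [ui, Sum.elim_inl, Sum.elim_inr, neg_mul, sum_neg_distrib, mul_assoc, ← mul_sum, a3,
      mul_zero, neg_zero, add_zero, id, Complex.mul_conj] at a2
    norm_cast at a2
    exact Complex.normSq_eq_zero.1 ((sum_eq_zero_iff_of_nonneg fun u _ =>
      Complex.normSq_nonneg (Q φ G u)).1 a2 _ (by simp))
  have h2 := FIB.fn univ (fun f : Bx ν → α => (φ f : ℂ)) (fun f x => (rw hν x, f x))
    (fun f => φ f) (fun z => h1 (Matrix.of fun i j => z (i, j))) fun f _ f' _ w hw => by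
      rw [← hr w (fun x => (rw_eq hν).1 (congrArg Prod.fst (hw x))) f']
      exact congrArg (fun f => (φ f : ℂ)) (funext fun x => (congrArg Prod.snd (hw x)).symm)
  exact hf0 (mul_self_eq_zero.1 ((sum_eq_zero_iff_of_nonneg fun f _ =>
    mul_self_nonneg (φ f)).1 (by exact_mod_cast h2) _ (mem_univ _)))

end MP7ebc2a.AA
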