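import Pool.Agent.Lib.AA25.B_ODD1

/-! Typical partitions of `d m`, `d` odd. -/

namespace MP7ebc2a.AA

lemma par_split (M : Multiset ℕ) :
    ∃ A B, M = A + B ∧ (∀ x ∈ A, x % 2 = 1) ∧ ∀ x ∈ B, x % 2 = 0 :=
  ⟨M.filter (· % 2 = 1), M.filter (¬ · % 2 = 1), (Multiset.filter_add_not _ _).symm,
    fun x hx => (Multiset.mem_filter.1 hx).2, fun x hx => by
      have := (Multiset.mem_filter.1 hx).2; omega⟩

lemma par_unique {A B A' B' : Multiset ℕ} (h : A + B = A' + B') (a : ∀ x ∈ A, x % 2 = 1)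
    (b : ∀ x ∈ B, x % 2 = 0) (a' : ∀ x ∈ A', x % 2 = 1) (b' : ∀ x ∈ B', x % 2 = 0) :
    A = A' ∧ B = B' := by
  have h1 := congrArg (Multiset.filter (· % 2 = 1)) h
  rw [Multiset.filter_add, Multiset.filter_add, Multiset.filter_eq_self.2 a,
    Multiset.filter_eq_self.2 a', Multiset.filter_eq_nil.2 fun x hx => by have := b x hx; omega,
    Multiset.filter_eq_nil.2 fun x hx => by have := b' x hx; omega, add_zero, add_zero] at h1
  subst h1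
  exact ⟨rfl, add_left_cancel h⟩

lemma GD.dvd (hCH : St_CH) {d : ℕ} {s : Multiset ℕ} (h : GD d s) : d ∣ s.sum := by
  obtain ⟨m, hm⟩ := h
  exact ⟨m, by rw [hCH.sum _ _ _ hm, mul_comm]⟩

lemma df_add (hEX : St_EX) (H a b : ℕ) (U R : Multiset ℕ) :
    df H a b R ≤ df H a b (U + R) + U.card := by
  simpa using hEX.sub H a b (U + R) U

lemma stageBand (hEX : St_EX) (hBS : St_BANDS) {h d : ℕ} (hodd : Odd d) (h5 : 5 ≤ d)
    (hd : 10000 * d ≤ h) (h6 : 5 ^ h * h ^ 101 < 6 ^ h) (ε : ℕ) (M S' : Multiset ℕ)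
    (m1' : ∀ x ∈ M, x % 2 = ε ∧ 28 * (d * h ^ 82) ≤ x ∧ x ≤ h ^ 101) (m2' : M.card ≤ h ^ 102)
    (m3' : df (h ^ 96) 1 (27 * (d * h ^ 82)) S' ≤ 2 * h ^ 95) :
    ∃ L M' F S'', M = L + M' ∧ S' = F + S'' ∧ L.card ≤ h ^ 52 ∧ (∀ f ∈ F, f % 2 = 0) ∧
      1000 * F.sum ≤ h ^ 155 ∧ 2 * F.card ≤ h ^ 95 ∧ GD d (M' + F) := by
  have h1 : 1 ≤ d := by omega
  have q1 := m1 hd h1 82 96 (by norm_num)
  have q4 := m2z hd h1 82 (by norm_num)
  have q5 := m0z hd h1 51 (by norm_num)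
  have q6 := m3 hd h1 1 82 (by norm_num)
  rw [pow_one] at q6
  have k1 := Nat.mul_le_mul_left (3 * d * h ^ 51) m2'
  have k2 := Nat.mul_le_mul_left (d * h ^ 82) ((hEX.mono (h ^ 96) (2 * (d * h ^ 82))
    (5 * (d * h ^ 82)) 1 (27 * (d * h ^ 82)) S' S' (by omega) (by omega)
    fun _ _ _ => le_rfl).trans m3')
  have k3 := Nat.mul_le_mul_right (h ^ 153) h1
  obtain ⟨L, l1, F, f1, l2, f2, f3, g⟩ := hBS d (d * h ^ 82) (h ^ 101) (h ^ 51) ε (h ^ 96) h M S'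
    hodd h5 (by omega) (by omega) (by omega)
    (by linarith [m0 hd h1 101 102 (by norm_num), m0z hd h1 101 (by norm_num)]) (by omega) (fun x hx => by
      have := (m1' x hx).2
      refine ⟨(m1' x hx).1, this.1, this.2, ((Nat.mul_le_mul_left _ this.2).trans_lt h6).trans_le
        (Nat.le_mul_of_pos_right _ (by omega))⟩)
    (by linarith [m2 hd h1 177 178 (by norm_num), m2 hd h1 153 178 (by norm_num), Nat.zero_le (d * h ^ 178)])
  obtain ⟨M', rfl⟩ := Multiset.le_iff_exists_add.1 l1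
  obtain ⟨S'', rfl⟩ := Multiset.le_iff_exists_add.1 f1
  rw [add_tsub_cancel_left] at g
  have k4 : 1000 * F.sum ≤ h ^ 155 := by linarith [m1 hd h1 153 155 (by norm_num), Nat.zero_le (h ^ 155)]
  refine ⟨L, M', F, S'', rfl, rfl, by linarith, fun f hf => Nat.even_iff.1 (f2 f hf).1, k4, ?_, g⟩
  have k5 : F.card * (2 * (d * h ^ 82)) ≤ F.sum := sum_ge fun f hf => (f2 f hf).2.1
  refine Nat.le_of_mul_le_mul_left ?_ (by omega : 0 < d * h ^ 82)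
  linarith [m3 hd h1 155 177 (by norm_num), Nat.zero_le (h ^ 155), Nat.zero_le F.sum]

lemma AX_le {h d : ℕ} (h5 : 5 ≤ d) (hd : 10000 * d ≤ h) :
    AP (12 * h ^ 47 + 1) ≤ 15 * (d * h ^ 94) ∧ AP (12 * h ^ 47 + 2) ≤ 15 * (d * h ^ 94) := by
  have h1 : 1 ≤ d := by omega
  rw [AP_1, AP_2]
  have := Nat.mul_le_mul_right (h ^ 94) h5
  have := m0 hd h1 47 94 (by norm_num)
  have := m0z hd h1 94 (by norm_num)
  constructor <;> linarith [Nat.zero_le (h ^ 94)]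

lemma finX (hSB : St_SB) {h d : ℕ} (hodd : Odd d) (h5 : 5 ≤ d) (hd : 10000 * d ≤ h)
    {Hs O Ex : Multiset ℕ} (a1 : Hs.Nodup) (a2 : Hs.card = 2 * h ^ 46)
    (a3 : O.card = 2 * h ^ 46 * (12 * h ^ 47))
    (a5 : ∀ x ∈ Hs, 28 * (d * h ^ 94) ≤ x ∧ x % 2 = 1)
    (a6 : ∀ x ∈ O, 22 * (d * h ^ 94) ≤ x ∧ x ≤ 27 * (d * h ^ 94) ∧ x % 2 = 1)
    (x1 : ∀ x ∈ Ex, x % 2 = 1) (x2 : ∀ x ∈ Ex, x < 28 * (d * h ^ 82)) (x3 : Ex.card ≤ h ^ 102)
    (hs : (Hs + O + Ex).sum = d * (2 * h ^ 46 * CP (12 * h ^ 47 + 1) + Ex.card)) :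
    GD d (Hs + O + Ex) := by
  have h1 : 1 ≤ d := by omega
  have A1 := (AX_le h5 hd).1
  have q3 := m2 hd h1 82 94 (by norm_num)
  have q4 := m3z hd h1 94 (by norm_num)
  have k1 : Ex.card / (2 * h ^ 46) ≤ h ^ 56 := Nat.div_le_of_le_mul (by
    have : 2 * h ^ 46 * h ^ 56 = 2 * h ^ 102 := by ring
    omega)
  have k2 := m3 hd h1 56 94 (by norm_num)
  refine hSB.sbx d (12 * h ^ 47 + 1) (2 * h ^ 46) Hs O Ex hodd h5
    (by have := m0z hd h1 47 (by norm_num); omega) (by have := m0z hd h1 46 (by norm_num); omega)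
    (by rw [AP_1, Nat.odd_iff]; omega) a1 a2 a3 (fun x hx => ?_) (fun a ha b hb => ?_)
    (fun b hb => ⟨?_, fun x hx => ?_⟩) hs
  · simp only [Multiset.mem_add] at hx
    rw [Nat.odd_iff]
    rcases hx with (hx | hx) | hx
    exacts [(a5 x hx).2, (a6 x hx).2.2, x1 x hx]
  · have := a5 a ha; have := a6 b hb; omega
  · have := a6 b hb; omega
  · have := a6 b hb; have := x2 x hx; omega

lemma finZ (hSB : St_SB) {h d : ℕ} (hodd : Odd d) (h5 : 5 ≤ d) (hd : 10000 * d ≤ h)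
    {Zb Fz : Multiset ℕ} (a4 : Zb.card = 2 * h ^ 46 * (12 * h ^ 47 + 2))
    (a7 : ∀ x ∈ Zb, 22 * (d * h ^ 94) ≤ x ∧ x % 2 = 0) (y1 : ∀ x ∈ Fz, x % 2 = 0)
    (y2 : ∀ x ∈ Fz, x < 28 * (d * h ^ 82)) (y3 : (Zb + Fz).card ≤ h ^ 102)
    (hs : (Zb + Fz).sum = d * (2 * h ^ 46 * CP (12 * h ^ 47 + 2))) : GD d (Zb + Fz) := by
  have h1 : 1 ≤ d := by omega
  have A1 := (AX_le h5 hd).2
  have q3 := m2 hd h1 82 94 (by norm_num)
  refine hSB.sb d (12 * h ^ 47 + 2) (2 * h ^ 46) Zb Fz hodd h5 (by omega) a4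
    (fun b hb => ⟨?_, ?_, fun x hx => ?_⟩) (fun f hf => Nat.even_iff.2 (y1 f hf)) hs (y3.trans ?_)
  · rw [AP_2, (a7 b hb).2]; omega
  · have := a7 b hb; omega
  · have := a7 b hb; have := y2 x hx; omega
  · rw [CP_eq (AP_2 (h ^ 47))]
    linarith [m0 hd h1 102 187 (by norm_num), Nat.zero_le (h ^ 102), Nat.zero_le (h ^ 140),
      Nat.zero_le (h ^ 93), Nat.zero_le (h ^ 46)]

lemma par_aux {a b c e x y ψ t a' b' c' e' : ℕ} (h : t + (a + b + c + e) = x + 2 * y)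
    (ha : a % 2 = a' * 0 % 2) (hb : b % 2 = b' * 0 % 2) (hc : c % 2 = c' * 0 % 2)
    (he : e % 2 = e' * 0 % 2) (hx : x % 2 = 0) (ht : t % 2 = ψ % 2) : ψ % 2 = 0 := by
  omega

theorem st_ODD (hEX : St_EX) (hSB : St_SB) (hCH : St_CH) (hBS : St_BANDS) (hT : St_TYP) :
    St_ODD := by
  intro h d m s hodd h5 hd h6 hh ht hs
  obtain ⟨t1, t2, t3⟩ := hT h s ht hh
  have h1 : 1 ≤ d := by omega
  have d2 := Nat.odd_iff.1 hodd
  obtain ⟨S, hS⟩ : ∃ S, S = s.filter (· < 28 * (d * h ^ 82)) := ⟨_, rfl⟩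
  obtain ⟨Bg, hBg⟩ : ∃ B, B = s.filter (¬ · < 28 * (d * h ^ 82)) := ⟨_, rfl⟩
  have sp : S + Bg = s := by rw [hS, hBg]; exact Multiset.filter_add_not _ _
  have q0 := m3z hd h1 82 (by norm_num)
  have q1 := m1 hd h1 82 96 (by norm_num)
  have q2 := m1 hd h1 94 96 (by norm_num)
  have q3 := m2 hd h1 82 94 (by norm_num)
  have q4 := m2z hd h1 82 (by norm_num)
  have mS : ∀ x ∈ S, x < 28 * (d * h ^ 82) := fun x hx => by
    rw [hS] at hx; exact (Multiset.mem_filter.1 hx).2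
  have mB : ∀ x ∈ Bg, 28 * (d * h ^ 82) ≤ x ∧ x ≤ h ^ 101 := fun x hx => by
    rw [hBg] at hx
    exact ⟨not_lt.1 (Multiset.mem_filter.1 hx).2, t1 x (Multiset.mem_filter.1 hx).1⟩
  have dS : df (h ^ 96) 1 (27 * (d * h ^ 82)) S ≤ h ^ 95 :=
    (hEX.mono _ _ _ 1 (h ^ 96) S s le_rfl (by omega) fun i _ hi => by
      rw [hS, Multiset.count_filter_of_pos (by omega)]).trans ht.2
  have dB : df (h ^ 96) (22 * (d * h ^ 94)) (30 * (d * h ^ 94)) Bg ≤ h ^ 95 :=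
    (hEX.mono _ _ _ 1 (h ^ 96) Bg s (by omega) (by omega) fun i hi _ => by
      rw [hBg, Multiset.count_filter_of_pos (by omega)]).trans ht.2
  have wS : S.sum ≤ 28 * (d * h ^ 82) * h ^ 101 := hS ▸ t3 _
  have cS : S.card + Bg.card ≤ h ^ 102 := by rw [← Multiset.card_add, sp]; exact t2
  clear hS hBg t1 t2 t3 ht
  subst sp
  obtain ⟨So, Se, rfl, o1, o2⟩ := par_split S
  rw [Multiset.sum_add] at wS
  rw [Multiset.card_add] at cS
  have po := sum_par o1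
  have pe := sum_par o2
  have c1 : d * So.card ≤ d * h ^ 102 := Nat.mul_le_mul_left _ (by omega)
  have pd : (d * So.card) % 2 = So.card % 2 := by rw [Nat.mul_mod, d2]; simp
  have ev : ∀ c, (2 * h ^ 80 * c) % 2 = 0 := fun c => by rw [mul_assoc]; omega
  have r1 := m1 hd h1 183 185 (by norm_num)
  have r2 := m1 hd h1 80 185 (by norm_num)
  have r3 := m0 hd h1 153 185 (by norm_num)
  have r4 := m1 hd h1 102 185 (by norm_num)
  have r5 := m1 hd h1 162 185 (by norm_num)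
  have r6 := m1 hd h1 121 185 (by norm_num)
  have r7 := m0 hd h1 155 185 (by norm_num)
  have n0 := Nat.zero_le (h ^ 185)
  obtain ⟨Hs, O, Zb, R, rfl, a1, a2, a3, a4, a5, a6, a7, a8, a9⟩ := stageA hEX hd h5 Bg dB
    (So.sum + 2 * h ^ 80 * d + 2 * h ^ 153)
    (d * So.card + 2 * h ^ 80 * (d * (24 * h ^ 82 + 10 * h ^ 41 + 1))) Se.sum
    (2 * h ^ 80 * (d * (24 * h ^ 82 + 34 * h ^ 41 + 12)) + 2 * h ^ 155)
    (by linarith [Nat.zero_le Se.sum]) (by linarith) (by linarith [Nat.zero_le So.sum])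
    (by linarith)
    (by have := ev d; have := ev (d * (24 * h ^ 82 + 10 * h ^ 41 + 1)); omega)
    (by have := ev (d * (24 * h ^ 82 + 34 * h ^ 41 + 12)); omega)
  clear r1 r2 r3 r4 r5 r6 r7 n0 dB
  obtain ⟨Bo, Be, rfl, b1, b2⟩ := par_split R
  simp only [Multiset.card_add] at cS
  obtain ⟨Lo, Bo', F1, S1, rfl, e1, l1, f1, f2, f3, g1⟩ := stageBand hEX hBS hodd h5 hd h6 1 Bo
    (So + Se) (fun x hx => ⟨b1 x hx, mB x (by simp [hx])⟩) (by omega) (dS.trans (by omega))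
  have dS1 := df_add hEX (h ^ 96) 1 (27 * (d * h ^ 82)) F1 S1
  rw [← e1] at dS1
  replace dS1 : df (h ^ 96) 1 (27 * (d * h ^ 82)) S1 ≤ 2 * h ^ 95 := by
    linarith only [dS, dS1, f3, Nat.zero_le F1.card]
  clear dS
  obtain ⟨Le, Be', F2, S2, rfl, rfl, l2, f4, f5, f6, g2⟩ := stageBand hEX hBS hodd h5 hd h6 0 Be
    S1 (fun x hx => ⟨b2 x hx, mB x (by simp [hx])⟩) (by omega) dS1
  have dS2 : df (h ^ 96) 1 (27 * (d * h ^ 82)) S2 ≤ 3 * h ^ 95 := by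
    linarith only [dS1, df_add hEX (h ^ 96) 1 (27 * (d * h ^ 82)) F2 S2, f6, Nat.zero_le F2.card]
  clear dS1
  obtain ⟨U, F3, S3, rfl, u1, u2, u3, u4, u5, g3⟩ := stageO hEX hSB hd h5 hodd Lo S2 l1
    (fun x hx => ⟨b1 x (by simp [hx]), mB x (by simp [hx])⟩) dS2
  have dS3 := df_add hEX (h ^ 96) 1 (27 * (d * h ^ 82)) (U + F3) S3
  rw [Multiset.card_add] at dS3
  replace dS3 : df (h ^ 96) 1 (27 * (d * h ^ 82)) S3 ≤ 4 * h ^ 95 := by
    linarith only [dS2, dS3, u3]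
  clear dS2
  obtain ⟨U', S4, rfl, v1, v2, v3, v4, g4⟩ := stageE hEX hSB hd h5 hodd Le S3 l2
    (fun x hx => ⟨b2 x (by simp [hx]), mB x (by simp [hx])⟩) dS3
  have dS4 : df (h ^ 96) 1 (27 * (d * h ^ 82)) S4 ≤ 5 * h ^ 95 := by
    linarith only [dS3, df_add hEX (h ^ 96) 1 (27 * (d * h ^ 82)) U' S4, v2]
  clear dS3
  obtain ⟨Ex, S4e, e4, x1, x2⟩ := par_split S4
  obtain ⟨rfl, rfl⟩ : So = U + Ex ∧ Se = F1 + F2 + F3 + U' + S4e :=
    par_unique (by rw [e1, e4]; abel) o1 o2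
      (fun x hx => (Multiset.mem_add.1 hx).elim (u1 x) (x1 x)) fun x hx => by
        simp only [Multiset.mem_add] at hx
        rcases hx with (((hx | hx) | hx) | hx) | hx
        exacts [f1 x hx, f4 x hx, u2 x hx, v1 x hx, x2 x hx]
  simp only [Multiset.card_add] at cS
  have g5 : GD d (Hs + O + Ex) := finX hSB hodd h5 hd a1 a2 a3 a5 a6 x1
    (fun x hx => mS x (by simp [hx])) (by omega) (by
      simp only [Multiset.sum_add, Multiset.card_add] at a8 ⊢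
      linarith only [a8, u5])
  have g6 := hSB.add d _ _ (hSB.add d _ _ (hSB.add d _ _ (hSB.add d _ _ g1 g2) g3) g4) g5
  obtain ⟨c, hc⟩ := g6.dvd hCH
  simp only [Multiset.sum_add] at hc hs a9
  obtain ⟨Φ, hΦ⟩ := sub_eq (a := 2 * h ^ 80 * (d * (24 * h ^ 82 + 34 * h ^ 41 + 12)) + 2 * h ^ 155)
    (b := F1.sum + F2.sum + F3.sum + U'.sum) (by have := m0 hd h1 153 155 (by norm_num); omega)
  obtain ⟨ψ, rfl⟩ : d ∣ Φ := by
    have : d * m = d * (c + 2 * h ^ 46 * CP (12 * h ^ 47 + 2)) + Φ := by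
      linarith only [hc, hs, a9, hΦ]
    exact (Nat.dvd_add_right (Dvd.intro _ rfl)).1 (this ▸ Dvd.intro _ rfl)
  have k10 : d * 10 ≤ d * ψ := by
    linarith only [hΦ, f2, f5, u4, v4, m0 hd h1 153 155 (by norm_num),
      m1 hd h1 0 153 (by norm_num), Nat.zero_le d, Nat.zero_le (h ^ 153),
      Nat.zero_le (h ^ 80 * d * h ^ 82), Nat.zero_le (h ^ 80 * d * h ^ 41),
      Nat.zero_le (h ^ 80 * d)]
  obtain ⟨Br, S5, rfl, w1, w2, g7⟩ := stageB hEX hSB hd h5 hodd S4 dS4 ψ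
    (par_aux hΦ (sum_par f1) (sum_par f4) (sum_par u2) (sum_par v1) (ev _)
      (by rw [Nat.mul_mod, d2]; simp))
    (Nat.le_of_mul_le_mul_left k10 h1)
    (by linarith only [hΦ, v3, m0 hd h1 153 155 (by norm_num), Nat.zero_le F1.sum, Nat.zero_le F2.sum,
      Nat.zero_le F3.sum, Nat.zero_le (h ^ 153)])
  obtain ⟨Ex', Fz, rfl, y1, y2⟩ := par_split S5
  obtain ⟨rfl, rfl⟩ : Ex = Ex' ∧ S4e = Br + Fz :=
    par_unique (by rw [← e4]; abel) x1 x2 y1 fun x hx =>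
      (Multiset.mem_add.1 hx).elim (w1 x) (y2 x)
  have g8 : GD d (Zb + Fz) := finZ hSB hodd h5 hd a4 a7 y2 (fun x hx => mS x (by simp [hx]))
    (by simp only [Multiset.card_add] at cS ⊢; omega) (by
      simp only [Multiset.sum_add] at a9 ⊢
      linarith only [a9, hΦ, w2])
  refine (congrArg (GD d) ?_).mp (hSB.add d _ _ (hSB.add d _ _ g6 g7) g8)
  abel

end MP7ebc2a.AA
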