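import Pool.Agent.Lib.AA25.U

/-! The special bins for odd `d`. -/

namespace MP7ebc2a.AA

variable {h d : ℕ}

lemma sub_eq {a b : ℕ} (h : b ≤ a) : ∃ c, c + b = a := ⟨a - b, Nat.sub_add_cancel h⟩

lemma m0z (hd : 10000 * d ≤ h) (h1 : 1 ≤ d) (b : ℕ) (hb : 0 < b) :
    10000 ≤ h ^ b := by simpa using m0 hd h1 0 b hb

lemma m2z (hd : 10000 * d ≤ h) (h1 : 1 ≤ d) (b : ℕ) (hb : 0 < b) :
    10000 * d ≤ d * h ^ b := by simpa using m2 hd h1 0 b hb

lemma m3z (hd : 10000 * d ≤ h) (h1 : 1 ≤ d) (b : ℕ) (hb : 0 < b) :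
    10000 ≤ d * h ^ b := by simpa using m3 hd h1 0 b hb

/-- the large rows of the two absorbing bins -/
lemma stageA (hEX : St_EX) (hd : 10000 * d ≤ h) (h5 : 5 ≤ d) (Bg : Multiset ℕ)
    (hB : df (h ^ 96) (22 * (d * h ^ 94)) (30 * (d * h ^ 94)) Bg ≤ h ^ 95)
    (W V W' V' : ℕ) (w1 : W ≤ h ^ 185) (w2 : V ≤ h ^ 185) (w3 : W' ≤ h ^ 185) (w4 : V' ≤ h ^ 185)
    (e1 : (W + V) % 2 = 0) (e2 : (W' + V') % 2 = 0) :
    ∃ Hs O Zb R, Bg = Hs + O + Zb + R ∧ Hs.Nodup ∧ Hs.card = 2 * h ^ 46 ∧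
      O.card = 2 * h ^ 46 * (12 * h ^ 47) ∧ Zb.card = 2 * h ^ 46 * (12 * h ^ 47 + 2) ∧
      (∀ x ∈ Hs, 28 * (d * h ^ 94) ≤ x ∧ x % 2 = 1) ∧
      (∀ x ∈ O, 22 * (d * h ^ 94) ≤ x ∧ x ≤ 27 * (d * h ^ 94) ∧ x % 2 = 1) ∧
      (∀ x ∈ Zb, 22 * (d * h ^ 94) ≤ x ∧ x % 2 = 0) ∧
      Hs.sum + O.sum + W = d * (2 * h ^ 46 * CP (12 * h ^ 47 + 1)) + V ∧
      Zb.sum + W' = d * (2 * h ^ 46 * CP (12 * h ^ 47 + 2)) + V' := by
  have h1 : 1 ≤ d := by omega
  have q0 := m3z hd h1 94 (by norm_num)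
  have q1 := m3 hd h1 46 94 (by norm_num)
  have q2 := m1 hd h1 94 96 (by norm_num)
  have q3 := m0 hd h1 95 96 (by norm_num)
  have q4 := m0 hd h1 46 95 (by norm_num)
  have q5 := m0 hd h1 93 95 (by norm_num)
  have q6 := m3 hd h1 185 187 (by norm_num)
  have q7 := m2 hd h1 140 187 (by norm_num)
  have q8 := m2 hd h1 93 187 (by norm_num)
  have q9 := m2 hd h1 46 187 (by norm_num)
  have n46 := Nat.zero_le (d * h ^ 46)
  have n93 := Nat.zero_le (d * h ^ 93)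
  have n140 := Nat.zero_le (d * h ^ 140)
  have n187 := Nat.zero_le (d * h ^ 187)
  obtain ⟨Hs, a1, a2, a3, a4⟩ := hEX.dist (h ^ 96) (28 * (d * h ^ 94)) (30 * (d * h ^ 94)) 2
    (28 * (d * h ^ 94) + 1) (d * h ^ 94 - 1) (2 * h ^ 46) Bg (by norm_num) (by omega) (by omega)
    (by omega) (dist_cond (c := 60) (by omega) (by omega) (by omega) (by
      have := hEX.mono (h ^ 96) (28 * (d * h ^ 94)) (30 * (d * h ^ 94)) (22 * (d * h ^ 94))
        (30 * (d * h ^ 94)) Bg Bg (by omega) le_rfl fun _ _ _ => le_rfl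
      omega))
  have s1 : Hs.card * (28 * (d * h ^ 94)) ≤ Hs.sum := sum_ge fun x hx => (a4 x hx).1
  have s2 : Hs.sum ≤ Hs.card * (30 * (d * h ^ 94)) := sum_le fun x hx => (a4 x hx).2.1
  have s3 := sum_par (ε := 1) (M := Hs) fun x hx => by have := (a4 x hx).2.2; omega
  rw [a3] at s1 s2 s3
  have c1 := CP_eq (AP_1 (h ^ 47))
  have c2 := CP_eq (AP_2 (h ^ 47))
  obtain ⟨T, hT⟩ := sub_eq (a := d * (2 * h ^ 46 * CP (12 * h ^ 47 + 1)) + V) (b := Hs.sum + W)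
    (by rw [c1]; linarith [Nat.zero_le V])
  have d1 := hEX.sub (h ^ 96) (22 * (d * h ^ 94)) (27 * (d * h ^ 94)) Bg Hs
  have d0 := hEX.mono (h ^ 96) (22 * (d * h ^ 94)) (27 * (d * h ^ 94)) (22 * (d * h ^ 94))
    (30 * (d * h ^ 94)) Bg Bg le_rfl (by omega) fun _ _ _ => le_rfl
  have ev : ∀ c, (d * (2 * h ^ 46 * c)) % 2 = 0 := fun c => by
    rw [show d * (2 * h ^ 46 * c) = 2 * (d * h ^ 46 * c) by ring]; omega
  obtain ⟨O, b1, b2, b3, b4⟩ := hEX.ex (h ^ 96) (d * h ^ 94) 22 27 1 (12 * h ^ 93) T (Bg - Hs)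
    (by omega) (by norm_num) (by norm_num) (by omega) (by norm_num)
    (by have := ev (CP (12 * h ^ 47 + 1)); rw [Nat.even_iff]; omega)
    (by rw [c1] at hT; linarith [Nat.zero_le V]) (by rw [c1] at hT; linarith [Nat.zero_le W])
    (by omega)
  have d2 := hEX.sub (h ^ 96) (22 * (d * h ^ 94)) (27 * (d * h ^ 94)) (Bg - Hs) O
  obtain ⟨T', hT'⟩ := sub_eq (a := d * (2 * h ^ 46 * CP (12 * h ^ 47 + 2)) + V') (b := W')
    (by rw [c2]; linarith [Nat.zero_le V'])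
  obtain ⟨Zb, z1, z2, z3, z4⟩ := hEX.ex (h ^ 96) (d * h ^ 94) 22 27 0 (12 * h ^ 93 + 2 * h ^ 46) T'
    (Bg - Hs - O) (by omega) (by norm_num) (by norm_num) (by omega) (by norm_num)
    (by have := ev (CP (12 * h ^ 47 + 2)); rw [Nat.even_iff]; omega)
    (by rw [c2] at hT'; linarith [Nat.zero_le V']) (by rw [c2] at hT'; linarith [Nat.zero_le W'])
    (by omega)
  refine ⟨Hs, O, Zb, Bg - Hs - O - Zb, ?_, a2, a3, by rw [b2]; ring, by rw [z2]; ring,
    fun x hx => ⟨(a4 x hx).1, by have := (a4 x hx).2.2; omega⟩, b4,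
    fun x hx => ⟨(z4 x hx).1, (z4 x hx).2.2⟩, by omega, by omega⟩
  rw [add_assoc, add_assoc, add_tsub_cancel_of_le z1, add_tsub_cancel_of_le b1,
    add_tsub_cancel_of_le a1]

lemma exists_u (p l u0 : ℕ) (hp : p % 2 = 1) :
    ∃ k, p ∣ l + (2 * u0 + 2 * k) ∧ k ≤ p := by
  have a1 := Nat.mod_lt (l + 2 * u0) (by omega : 0 < p)
  have a2 := Nat.div_add_mod (l + 2 * u0) p
  obtain ⟨r, hr⟩ : ∃ r, r = (l + 2 * u0) % p := ⟨_, rfl⟩
  rw [← hr] at a1 a2
  rcases Nat.even_or_odd' (p - r) with ⟨k, hk | hk⟩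
  · exact ⟨k, ⟨(l + 2 * u0) / p + 1, by rw [mul_add p]; omega⟩, by omega⟩
  · exact ⟨k + (p + 1) / 2, ⟨(l + 2 * u0) / p + 2, by rw [mul_add p]; omega⟩, by omega⟩

/-- the bin for the left-over odd rows -/
lemma stageO (hEX : St_EX) (hSB : St_SB) (hd : 10000 * d ≤ h) (h5 : 5 ≤ d) (hodd : Odd d)
    (L S : Multiset ℕ) (l1 : L.card ≤ h ^ 52)
    (l2 : ∀ x ∈ L, x % 2 = 1 ∧ 28 * (d * h ^ 82) ≤ x ∧ x ≤ h ^ 101)
    (hS : df (h ^ 96) 1 (27 * (d * h ^ 82)) S ≤ 3 * h ^ 95) :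
    ∃ U F R, S = U + F + R ∧ (∀ x ∈ U, x % 2 = 1) ∧ (∀ x ∈ F, x % 2 = 0) ∧
      U.card + F.card ≤ h ^ 95 ∧ F.sum ≤ 3 * h ^ 153 ∧
      U.sum + 2 * h ^ 80 * d + 2 * h ^ 153 =
        2 * h ^ 80 * (d * (24 * h ^ 82 + 10 * h ^ 41 + 1)) + d * U.card ∧ GD d (L + U + F) := by
  have h1 : 1 ≤ d := by omega
  have q0 := m3z hd h1 82 (by norm_num)
  have q1 := m1 hd h1 82 96 (by norm_num)
  have q2 := m0 hd h1 95 96 (by norm_num)
  have q3 := m0 hd h1 41 95 (by norm_num)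
  have q4 := m0 hd h1 80 95 (by norm_num)
  have q5 := m0z hd h1 41 (by norm_num)
  have q6 := m3 hd h1 153 162 (by norm_num)
  have q7 := m2 hd h1 123 162 (by norm_num)
  have q8 := m2 hd h1 82 162 (by norm_num)
  have q9 := m2 hd h1 121 162 (by norm_num)
  have q10 := m2 hd h1 80 162 (by norm_num)
  have q11 := m2 hd h1 41 162 (by norm_num)
  have q12 := m2z hd h1 162 (by norm_num)
  have q13 := m0 hd h1 41 82 (by norm_num)
  have q14 := m1 hd h1 134 153 (by norm_num)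
  have q15 := m1 hd h1 123 153 (by norm_num)
  have q16 := m1 hd h1 82 153 (by norm_num)
  have q17 := m2 hd h1 41 82 (by norm_num)
  have q18 := m2z hd h1 82 (by norm_num)
  have n41 := Nat.zero_le (d * h ^ 41)
  have n80 := Nat.zero_le (d * h ^ 80)
  have n82 := Nat.zero_le (d * h ^ 82)
  have n121 := Nat.zero_le (d * h ^ 121)
  have n123 := Nat.zero_le (d * h ^ 123)
  have n134 := Nat.zero_le (d * h ^ 134)
  have n162 := Nat.zero_le (d * h ^ 162)
  have n0 := Nat.zero_le (h ^ 153)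
  obtain ⟨k, k1, k2⟩ := exists_u (12 * h ^ 41 + 1) L.card (h ^ 80) (by omega)
  have k3 := Nat.mul_le_mul_left d k2
  have k4 := Nat.mul_le_mul_left (d * h ^ 82) k2
  obtain ⟨T, hT⟩ := sub_eq (a := 2 * h ^ 80 * (d * (24 * h ^ 82 + 10 * h ^ 41 + 1)) +
    d * (2 * (h ^ 80 + k))) (b := 2 * h ^ 80 * d + 2 * h ^ 153)
    (by linarith [Nat.zero_le (d * k)])
  have mo := fun a b h1 h2 => hEX.mono (h ^ 96) a b 1 (27 * (d * h ^ 82)) S S h1 h2
    fun _ _ _ => le_rfl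
  have d0 := mo (22 * (d * h ^ 82)) (27 * (d * h ^ 82)) (by omega) le_rfl
  have d1 := mo (2 * (d * h ^ 82)) (5 * (d * h ^ 82)) (by omega) (by omega)
  obtain ⟨U, u1, u2, u3, u4⟩ := hEX.ex (h ^ 96) (d * h ^ 82) 22 27 1 (h ^ 80 + k) T S
    (by omega) (by norm_num) (by norm_num) (by omega) (by norm_num)
    (⟨h ^ 80 * (d * (24 * h ^ 82 + 10 * h ^ 41 + 1)) + d * (h ^ 80 + k) -
      (h ^ 80 * d + h ^ 153), by
        have : T + 2 * (h ^ 80 * d + h ^ 153) =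
          2 * (h ^ 80 * (d * (24 * h ^ 82 + 10 * h ^ 41 + 1)) + d * (h ^ 80 + k)) := by linarith
        omega⟩)
    (by linarith [Nat.zero_le (d * k)]) (by linarith [Nat.zero_le (d * h ^ 82 * k)]) (by omega)
  have d2 := hEX.sub (h ^ 96) (2 * (d * h ^ 82)) (5 * (d * h ^ 82)) S U
  have s1 : L.sum ≤ h ^ 153 :=
    (sum_le fun x hx => (l2 x hx).2.2).trans ((Nat.mul_le_mul_right _ l1).trans (by linarith))
  have s2 := sum_par fun x hx => (l2 x hx).1
  obtain ⟨a, ha⟩ : ∃ a, a = 24 * h ^ 82 + 10 * h ^ 41 + 1 := ⟨_, rfl⟩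
  have t1 : d * a ≤ 25 * (d * h ^ 82) := by rw [ha]; linarith
  have t2 : d ≤ d * a := Nat.le_mul_of_pos_right _ (by omega)
  have t3 : (d * a) % 2 = 1 := by
    rw [Nat.mul_mod, Nat.odd_iff.1 hodd, show a % 2 = 1 by omega]
  have t4 := Nat.mul_le_mul l1 t1
  have t5 := Nat.mul_le_mul k2 t1
  have t6 := Nat.mul_le_mul_left k t2
  rw [← ha] at hT ⊢
  obtain ⟨D, hD⟩ := sub_eq (a := (L.card + 2 * (h ^ 80 + k)) * (d * a)) (b := L.sum + T)
    (by linarith [Nat.zero_le (L.card * (d * a))])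
  have D1 : D ≤ 3 * h ^ 153 := by linarith [Nat.zero_le L.sum, Nat.zero_le (d * k)]
  have d3 := Nat.mul_le_mul_left (d * h ^ 82)
    (by omega : df (h ^ 96) (2 * (d * h ^ 82)) (5 * (d * h ^ 82)) (S - U) ≤ 4 * h ^ 95)
  obtain ⟨F, f1, f2, f3, f4⟩ := fill hEX (S := S - U) (H := h ^ 96) (z := d * h ^ 82) (D := D)
    (by omega) (by omega) (by
      have a1 : (L.card * (d * a)) % 2 = (L.card * 1) % 2 := by
        rw [Nat.mul_mod, t3, Nat.mul_mod L.card 1]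
      have a2 := sum_par fun x hx => (u4 x hx).2.2
      rw [u2, u3] at a2
      have a3 : D + (L.sum + T) = L.card * (d * a) + 2 * ((h ^ 80 + k) * (d * a)) := by linarith
      rw [Nat.even_iff]
      omega)
    (Or.inr (by linarith [Nat.zero_le (L.card * (d * a))]))
    (by linarith [m2 hd h1 177 178 (by norm_num), m3 hd h1 153 178 (by norm_num)])
  have f5 : F.card ≤ h ^ 72 := by
    refine Nat.le_of_mul_le_mul_left ?_ (by omega : 0 < d * h ^ 82)
    linarith [m3 hd h1 153 154 (by norm_num)]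
  have q19 := m0 hd h1 72 95 (by norm_num)
  have t7 : 3 * a ≤ 15 * (d * h ^ 82) := by
    have := Nat.mul_le_mul_right (h ^ 82) h5
    omega
  have hs : (L + U + F).sum = (L + U).card * (d * a) := by
    simp only [Multiset.sum_add, Multiset.card_add, u2, u3, f2]; linarith
  refine ⟨U, F, S - U - F, ?_, fun x hx => (u4 x hx).2.2, fun x hx => Nat.even_iff.1 (f4 x hx).1,
    by omega, by omega, by rw [u2, u3]; linarith,
    sba hSB (p := 12 * h ^ 41 + 1) hodd h5 (by omega) (by rw [AP_1, ha]; ring)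
      (by rw [Multiset.card_add, u2, mul_add]; exact k1) (fun b hb => ?_)
      (fun f hf => (f4 f hf).1) hs (card_of_ge (by omega : 0 < d) (fun x hx => ?_)
        (by rw [hs]; ring))⟩
  · rw [add_assoc, add_tsub_cancel_of_le f1, add_tsub_cancel_of_le u1]
  · have : b % 2 = 1 ∧ 22 * (d * h ^ 82) ≤ b := by
      rcases Multiset.mem_add.1 hb with hb | hb
      · have := l2 b hb; omega
      · have := u4 b hb; omega
    exact ⟨by omega, by omega, fun f hf => by have := f4 f hf; omega⟩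
  · simp only [Multiset.mem_add] at hx
    rcases hx with (hx | hx) | hx
    · have := l2 x hx; omega
    · have := u4 x hx; omega
    · have := f4 x hx; omega

/-- the bin for the left-over even rows -/
lemma stageE (hEX : St_EX) (hSB : St_SB) (hd : 10000 * d ≤ h) (h5 : 5 ≤ d) (hodd : Odd d)
    (L S : Multiset ℕ) (l1 : L.card ≤ h ^ 52)
    (l2 : ∀ x ∈ L, x % 2 = 0 ∧ 28 * (d * h ^ 82) ≤ x ∧ x ≤ h ^ 101)
    (hS : df (h ^ 96) 1 (27 * (d * h ^ 82)) S ≤ 4 * h ^ 95) :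
    ∃ U R, S = U + R ∧ (∀ x ∈ U, x % 2 = 0) ∧ U.card ≤ h ^ 95 ∧
      2 * h ^ 80 * (d * (24 * h ^ 82 + 34 * h ^ 41 + 12)) ≤ U.sum + h ^ 153 ∧
      U.sum ≤ 2 * h ^ 80 * (d * (24 * h ^ 82 + 34 * h ^ 41 + 12)) + h ^ 153 ∧ GD d (L + U) := by
  have h1 : 1 ≤ d := by omega
  have q0 := m3z hd h1 82 (by norm_num)
  have q1 := m1 hd h1 82 96 (by norm_num)
  have q2 := m0 hd h1 95 96 (by norm_num)
  have q3 := m0 hd h1 41 95 (by norm_num)
  have q4 := m0 hd h1 80 95 (by norm_num)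
  have q5 := m0z hd h1 41 (by norm_num)
  have q6 := m3 hd h1 153 162 (by norm_num)
  have q13 := m0 hd h1 41 82 (by norm_num)
  have q14 := m1 hd h1 134 153 (by norm_num)
  have q15 := m1 hd h1 123 153 (by norm_num)
  have q16 := m1 hd h1 82 153 (by norm_num)
  have q17 := m2 hd h1 41 82 (by norm_num)
  have q18 := m2z hd h1 82 (by norm_num)
  have n41 := Nat.zero_le (d * h ^ 41)
  have n80 := Nat.zero_le (d * h ^ 80)
  have n82 := Nat.zero_le (d * h ^ 82)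
  have n121 := Nat.zero_le (d * h ^ 121)
  have n123 := Nat.zero_le (d * h ^ 123)
  have n134 := Nat.zero_le (d * h ^ 134)
  have n162 := Nat.zero_le (d * h ^ 162)
  have n0 := Nat.zero_le (h ^ 153)
  obtain ⟨k, k1, k2⟩ := exists_u (12 * h ^ 41 + 7) L.card (h ^ 80) (by omega)
  have s1 : L.sum ≤ h ^ 153 :=
    (sum_le fun x hx => (l2 x hx).2.2).trans ((Nat.mul_le_mul_right _ l1).trans (by linarith))
  have s2 := sum_par fun x hx => (l2 x hx).1
  obtain ⟨a, ha⟩ : ∃ a, a = 24 * h ^ 82 + 34 * h ^ 41 + 12 := ⟨_, rfl⟩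
  have t1 : d * a ≤ 25 * (d * h ^ 82) := by rw [ha]; linarith
  have t2 : 24 * (d * h ^ 82) ≤ d * a := by rw [ha]; linarith
  have t3 : (d * a) % 2 = 0 := by
    rw [Nat.mul_mod, Nat.odd_iff.1 hodd, show a % 2 = 0 by omega]
  have t4 := Nat.mul_le_mul l1 t1
  have t5 := Nat.mul_le_mul k2 t1
  have t6 := Nat.mul_le_mul_left k t2
  have t8 := Nat.mul_le_mul_left k t1
  have t9 := Nat.mul_le_mul_left (h ^ 80) t1
  have t10 := Nat.mul_le_mul_left (h ^ 80) t2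
  rw [← ha]
  obtain ⟨T, hT⟩ := sub_eq (a := (L.card + 2 * (h ^ 80 + k)) * (d * a)) (b := L.sum)
    (by linarith [Nat.zero_le (L.card * (d * a)), Nat.zero_le (k * (d * a))])
  have d0 := hEX.mono (h ^ 96) (22 * (d * h ^ 82)) (27 * (d * h ^ 82)) 1 (27 * (d * h ^ 82)) S S
    (by omega) le_rfl fun _ _ _ => le_rfl
  obtain ⟨U, u1, u2, u3, u4⟩ := hEX.ex (h ^ 96) (d * h ^ 82) 22 27 0 (h ^ 80 + k) T S
    (by omega) (by norm_num) (by norm_num) (by omega) (by norm_num)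
    (by
      have a1 : ((L.card + 2 * (h ^ 80 + k)) * (d * a)) % 2 = 0 := by rw [Nat.mul_mod, t3]; simp
      rw [Nat.even_iff]
      omega)
    (by linarith [Nat.zero_le (L.card * (d * a)), Nat.zero_le (k * (d * h ^ 82))])
    (by linarith [Nat.zero_le L.sum, Nat.zero_le (k * (d * h ^ 82))]) (by omega)
  have t7 : 3 * a ≤ 15 * (d * h ^ 82) := by
    have := Nat.mul_le_mul_right (h ^ 82) h5
    omega
  have hs : (L + U + 0).sum = (L + U).card * (d * a) := by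
    simp only [Multiset.sum_add, Multiset.card_add, u2, u3, add_zero]; linarith
  have b1 : ∀ b ∈ L + U, b % 2 = 0 ∧ 22 * (d * h ^ 82) ≤ b := fun b hb => by
    rcases Multiset.mem_add.1 hb with hb | hb
    · have := l2 b hb; omega
    · have := u4 b hb; omega
  refine ⟨U, S - U, (add_tsub_cancel_of_le u1).symm, fun x hx => (u4 x hx).2.2, by omega,
    by rw [u3]; linarith [Nat.zero_le (L.card * (d * a)), Nat.zero_le (k * (d * a))],
    by rw [u3]; linarith [Nat.zero_le L.sum], ?_⟩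
  simpa using sba hSB (p := 12 * h ^ 41 + 7) (F := 0) hodd h5 (by omega) (by rw [AP_7, ha]; ring)
    (by rw [Multiset.card_add, u2, mul_add]; exact k1)
    (fun b hb => by have := b1 b hb; exact ⟨by omega, by omega, by simp⟩) (by simp) hs
    (card_of_ge (by omega : 0 < d) (fun x hx => by have := b1 x (by simpa using hx); omega)
      (by rw [hs]; ring))

/-- bricks of even rows with a prescribed total -/
lemma stageB (hEX : St_EX) (hSB : St_SB) (hd : 10000 * d ≤ h) (h5 : 5 ≤ d) (hodd : Odd d)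
    (S : Multiset ℕ) (hS : df (h ^ 96) 1 (27 * (d * h ^ 82)) S ≤ 5 * h ^ 95) (ψ : ℕ)
    (p1 : ψ % 2 = 0) (p2 : 10 ≤ ψ) (p3 : d * ψ ≤ 3 * h ^ 155) :
    ∃ B R, S = B + R ∧ (∀ x ∈ B, x % 2 = 0) ∧ B.sum = d * ψ ∧ GD d B := by
  have h1 : 1 ≤ d := by omega
  have q0 := m3z hd h1 62 (by norm_num)
  have q1 := m1 hd h1 62 96 (by norm_num)
  have q2 := m0 hd h1 95 96 (by norm_num)
  have q3 := m2 hd h1 62 82 (by norm_num)
  have q4 := m0 hd h1 93 95 (by norm_num)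
  have q5 := m0z hd h1 31 (by norm_num)
  have q6 := m0 hd h1 31 62 (by norm_num)
  have q7 := m0 hd h1 62 93 (by norm_num)
  have q8 := m2 hd h1 31 62 (by norm_num)
  have q9 := m2z hd h1 62 (by norm_num)
  have n31 := Nat.zero_le (d * h ^ 31)
  have n62 := Nat.zero_le (d * h ^ 62)
  have nn31 := Nat.zero_le (h ^ 31)
  have nn62 := Nat.zero_le (h ^ 62)
  have nn93 := Nat.zero_le (h ^ 93)
  obtain ⟨κ, hκ⟩ : ∃ κ, κ = ψ % 4 / 2 := ⟨_, rfl⟩
  obtain ⟨a, ha⟩ : ∃ a, a = 12 * h ^ 62 + 7 * h ^ 31 + 1 := ⟨_, rfl⟩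
  obtain ⟨g, hg⟩ : ∃ g, g = 6 * h ^ 31 + 1 := ⟨_, rfl⟩
  have c0 : 0 < g * a := Nat.mul_pos (by omega) (by omega)
  have c1 : g * a ≤ h ^ 95 := by rw [hg, ha]; linarith
  obtain ⟨K, hK⟩ : ∃ K, K = (ψ - 10 * κ) / 4 / (g * a) := ⟨_, rfl⟩
  obtain ⟨j, hj⟩ : ∃ j, j = (ψ - 10 * κ) / 4 % (g * a) := ⟨_, rfl⟩
  have j1 : j < g * a := hj ▸ Nat.mod_lt _ c0
  have j2 : 4 * (g * a * K) + 4 * j + 10 * κ = ψ := by
    have := Nat.div_add_mod ((ψ - 10 * κ) / 4) (g * a)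
    rw [← hK, ← hj] at this
    omega
  have t1 : d * (2 * a) ≤ 25 * (d * h ^ 62) := by rw [ha]; linarith
  have t2 : 24 * (d * h ^ 62) ≤ d * (2 * a) := by rw [ha]; linarith
  have t3 := Nat.mul_le_mul_left (g * K) t1
  have t4 := Nat.mul_le_mul_left (g * K) t2
  have j3 : d * (4 * (g * a * K)) ≤ d * ψ := Nat.mul_le_mul_left _ (by omega)
  have k1 : g * K ≤ h ^ 93 := by
    refine Nat.le_of_mul_le_mul_left ?_ (by omega : 0 < d * h ^ 62)
    have := Nat.mul_le_mul_right (h ^ 155) h1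
    linarith [Nat.zero_le (d * h ^ 155)]
  have d0 := hEX.mono (h ^ 96) (22 * (d * h ^ 62)) (27 * (d * h ^ 62)) 1 (27 * (d * h ^ 82)) S S
    (by omega) (by omega) fun _ _ _ => le_rfl
  obtain ⟨U, u1, u2, u3, u4⟩ := hEX.ex (h ^ 96) (d * h ^ 62) 22 27 0 (g * K)
    (2 * (g * K) * (d * (2 * a))) S (by omega) (by norm_num) (by norm_num) (by omega) (by norm_num)
    (by rw [mul_assoc]; exact even_two_mul _) (by linarith [Nat.zero_le (g * K * (d * h ^ 62))])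
    (by linarith [Nat.zero_le (g * K * (d * h ^ 62))]) (by omega)
  have t7 : 3 * (2 * a) ≤ 15 * (d * h ^ 62) := by
    have := Nat.mul_le_mul_right (h ^ 62) h5
    omega
  have g1 : GD d U := by
    simpa using sba hSB (p := 12 * h ^ 31 + 2) (a := 2 * a) (B := U) (F := 0) hodd h5 (by omega)
      (by rw [AP_2, ha]; ring) ⟨K, by rw [u2, hg]; ring⟩
      (fun b hb => by have := u4 b hb; exact ⟨by omega, by omega, by simp⟩) (by simp)
      (by rw [add_zero, u2, u3]) (by rw [add_zero]; exact Nat.le_mul_of_pos_right _ (by omega))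
  have d1 := hEX.sub (h ^ 96) 1 (27 * (d * h ^ 82)) S U
  have cn : ∀ i, 0 < i → i ≤ 4 * d → 3 * h ^ 95 ≤ (S - U).count i := fun i i0 hi => by
    have a1 := hEX.cnt (h ^ 96) 1 (27 * (d * h ^ 82)) i (S - U) i0 (by omega)
    have a2 : 10 * h ^ 95 ≤ h ^ 96 / i := by
      rw [Nat.le_div_iff_mul_le i0]
      have := Nat.mul_le_mul_left (h ^ 95) hi
      linarith [m1 hd h1 95 96 (by norm_num), Nat.zero_le (d * h ^ 95)]
    omega
  have v1 : Multiset.replicate (2 * j) (2 * d) + (Multiset.replicate κ (2 * d) +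
      Multiset.replicate (2 * κ) (4 * d)) ≤ S - U := by
    rw [Multiset.le_iff_count]
    intro i
    simp only [Multiset.count_add, Multiset.count_replicate]
    have := cn (2 * d) (by omega) (by omega)
    have := cn (4 * d) (by omega) (by omega)
    split_ifs with a b b
    · omega
    · subst a; omega
    · subst b; omega
    · omega
  have g2 : GD d (Multiset.replicate (2 * j) (2 * d)) := by
    simpa using hSB.sb d 2 j (Multiset.replicate (2 * j) (2 * d)) 0 hodd h5 (by norm_num)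
      (by simp [mul_comm]) (fun b hb => by
        rw [Multiset.eq_of_mem_replicate hb, show AP 2 = 6 by decide]
        exact ⟨by omega, by omega, by simp⟩) (by simp)
      (by simp [show CP 2 = 4 by decide]; ring) (by simp [show CP 2 = 4 by decide]; omega)
  have g3 : GD d (Multiset.replicate κ (2 * d) + Multiset.replicate (2 * κ) (4 * d)) := by
    simpa using hSB.sb d 3 κ (Multiset.replicate κ (2 * d) + Multiset.replicate (2 * κ) (4 * d)) 0
      hodd h5 (by norm_num) (by simp; omega) (fun b hb => by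
        rw [show AP 3 = 10 by decide]
        rcases Multiset.mem_add.1 hb with hb | hb <;> rw [Multiset.eq_of_mem_replicate hb] <;>
          exact ⟨by omega, by omega, by simp⟩) (by simp)
      (by simp [show CP 3 = 10 by decide]; ring) (by simp [show CP 3 = 10 by decide]; omega)
  obtain ⟨R, hR⟩ := Multiset.le_iff_exists_add.1 v1
  refine ⟨_, R, ?_, fun x hx => ?_, ?_, hSB.add d _ _ g1 (hSB.add d _ _ g2 g3)⟩
  · rw [add_assoc, ← hR, add_tsub_cancel_of_le u1]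
  · simp only [Multiset.mem_add] at hx
    rcases hx with hx | hx | hx | hx
    · exact (u4 x hx).2.2
    all_goals rw [Multiset.eq_of_mem_replicate hx]; omega
  · simp only [Multiset.sum_add, Multiset.sum_replicate, smul_eq_mul, u3, ← j2]
    ring

end MP7ebc2a.AA
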