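import Pool.Agent.Lib.AA25.B_HW

/-! Closed families of monomials give highest weight vectors. -/

namespace MP7ebc2a.AA
open Equiv Finset

namespace PYR

open HW

variable {α : Type} [Fintype α] [DecidableEq α] {M N d : ℕ} (c : α → Fin d → Fin M)

/-- the monomials evaluated on the columns of `Z` -/
def Mon (Z : Matrix (Fin M) α ℂ) : Matrix α α ℂ := Matrix.of fun i j => ∏ l, Z (c i l) j

/-- the action of `U` on the monomials -/
def Tm (U : Matrix (Fin M) (Fin M) ℂ) : Matrix α α ℂ := Matrix.of fun i i' =>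
  ∑ t : Fin d → Fin M with univ.val.map (c i') = univ.val.map t, ∏ l, U (c i l) (t l)

variable {c} {U : Matrix (Fin M) (Fin M) ℂ}

omit [Fintype α] [DecidableEq α] in
lemma le_of_ne (u1 : ∀ i j, i < j → U i j = 0) {i : α} {t : Fin d → Fin M}
    (h : ∏ l, U (c i l) (t l) ≠ 0) (l : Fin d) : t l ≤ c i l :=
  not_lt.1 fun k => prod_ne_zero_iff.1 h l (mem_univ l) (u1 _ _ k)

omit [DecidableEq α] in
lemma Mon_mul (h1 : ∀ i j, univ.val.map (c i) = univ.val.map (c j) → i = j)
    (h2 : ∀ j (t : Fin d → Fin M), (∀ k, t k ≤ c j k) → ∃ i, univ.val.map (c i) = univ.val.map t)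
    (u1 : ∀ i j, i < j → U i j = 0) (Z : Matrix (Fin M) α ℂ) :
    Mon c (U * Z) = Tm c U * Mon c Z := by
  ext i j
  simp only [Mon, Tm, Matrix.mul_apply, Matrix.of_apply, prod_univ_sum, Fintype.piFinset_univ,
    prod_mul_distrib, sum_filter, sum_mul]
  rw [sum_comm]
  refine sum_congr rfl fun t _ => ?_
  by_cases h : ∏ l, U (c i l) (t l) = 0
  · simp [h]
  · obtain ⟨i', e⟩ := h2 i t (le_of_ne u1 h)
    obtain ⟨w, hw⟩ := FIB.exists_perm e
    rw [sum_eq_single i' (fun k _ hk => by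
      rw [if_neg fun e' => hk (h1 _ _ (e'.trans e.symm)), zero_mul]) (by simp), if_pos e,
      ← Equiv.prod_comp w fun l => Z (t l) j]
    simp only [hw]

omit [Fintype α] [DecidableEq α] in
lemma wt_le (u1 : ∀ i j, i < j → U i j = 0) {i i' : α} {t : Fin d → Fin M}
    (e : univ.val.map (c i') = univ.val.map t) (h : ∏ l, U (c i l) (t l) ≠ 0) :
    ∑ l, (c i' l : ℕ) ≤ ∑ l, (c i l : ℕ) ∧ (∑ l, (c i' l : ℕ) = ∑ l, (c i l : ℕ) → t = c i) := by
  obtain ⟨w, hw⟩ := FIB.exists_perm e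
  have h1 : ∑ l, (c i' l : ℕ) = ∑ l, (t l : ℕ) := by
    rw [← Equiv.sum_comp w fun l => (t l : ℕ)]
    simp only [hw]
  have h2 : ∀ l ∈ univ, (t l : ℕ) ≤ c i l := fun l _ => le_of_ne u1 h l
  rw [h1]
  exact ⟨sum_le_sum h2, fun k => funext fun l =>
    Fin.ext ((sum_eq_sum_iff_of_le h2).1 k l (mem_univ l))⟩

lemma det_Tm (h1 : ∀ i j, univ.val.map (c i) = univ.val.map (c j) → i = j)
    (u1 : ∀ i j, i < j → U i j = 0) (u2 : ∀ i, U i i = 1) : (Tm c U).det = 1 := by
  rw [Matrix.det_apply', sum_eq_single 1 (fun σ _ hσ => ?_) (by simp)]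
  · rw [Perm.sign_one, Units.val_one, Int.cast_one, one_mul]
    refine prod_eq_one fun i _ => ?_
    rw [Tm, Perm.one_apply, Matrix.of_apply, sum_eq_single_of_mem (c i) (by simp) fun t ht h => ?_]
    · exact prod_eq_one fun l _ => u2 _
    · by_contra h0
      exact h ((wt_le u1 (mem_filter.1 ht).2 h0).2 rfl)
  · by_contra h0
    have h2 := fun i => exists_ne_zero_of_sum_ne_zero
      (prod_ne_zero_iff.1 (right_ne_zero_of_mul h0) i (mem_univ i))
    choose t ht h3 using h2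
    have h4 := fun i => wt_le u1 (mem_filter.1 (ht i)).2 (h3 i)
    have h5 := (sum_eq_sum_iff_of_le fun i _ => (h4 i).1).1
      (Equiv.sum_comp σ fun i => ∑ l, (c i l : ℕ)).symm
    refine hσ (Equiv.ext fun i => (h1 _ _ ?_).symm)
    rw [← (h4 i).2 (h5 i (mem_univ i))]
    exact (mem_filter.1 (ht i)).2

variable {ν : Fin N → ℕ} (e : Bx ν ≃ α × Fin d)

/-- the coefficients of the determinant -/
def ph (f : Bx ν → α) : ℤ := ∑ w : Perm α, ∑ g : Perm (Bx ν) with ∀ x, ((g x).2 : ℕ) = x.2,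
  if f = fun x => w (e (g x)).1 then ((Perm.sign w : ℤˣ) : ℤ) else 0

lemma ph_row (g : Perm (Bx ν)) (hg : ∀ x, ((g x).2 : ℕ) = x.2) (f : Bx ν → α) :
    ph e (f ∘ g) = ph e f := by
  refine sum_congr rfl fun w _ => (sum_equiv (Equiv.mulRight g) (fun k => ?_) fun k _ => ?_).symm
  · simp only [mem_filter_univ, coe_mulRight, Perm.mul_apply]
    exact ⟨fun h x => (h _).trans (hg x), fun h x => by
      obtain ⟨y, rfl⟩ := g.surjective x
      exact (h y).trans (hg y).symm⟩
  · refine if_congr ⟨fun h => by rw [h]; rfl, fun h => funext fun x => ?_⟩ rfl rfl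
    obtain ⟨y, rfl⟩ := g.surjective x
    exact congrFun h y

lemma ph_perm (v : Perm α) (f : Bx ν → α) :
    ph e (v ∘ f) = ((Perm.sign v : ℤˣ) : ℤ) * ph e f := by
  rw [ph, ph, mul_sum, ← Equiv.sum_comp (Equiv.mulLeft v)]
  refine sum_congr rfl fun w _ => ?_
  rw [mul_sum]
  refine sum_congr rfl fun g _ => ?_
  rw [mul_ite, mul_zero, coe_mulLeft, Perm.sign_mul, Units.val_mul]
  exact if_congr ⟨fun h => funext fun x => v.injective (congrFun h x), fun h => by rw [h]; rfl⟩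
    rfl rfl

lemma ph_sum (hν : ∀ k, ν k ≤ M) (he : ∀ x, c (e x).1 (e x).2 = rw hν x) (Z : Matrix (Fin M) α ℂ) :
    Q (ph e) Z (rw hν) = #{g : Perm (Bx ν) | ∀ x, ((g x).2 : ℕ) = x.2} * (Mon c Z).det := by
  simp only [Q, ph, Int.cast_sum, Int.cast_ite, Int.cast_zero, sum_mul, ite_mul, zero_mul]
  rw [sum_comm, ← Matrix.det_transpose, Matrix.det_apply', mul_sum]
  refine sum_congr rfl fun w _ => ?_
  rw [sum_comm, ← nsmul_eq_mul, ← sum_const]
  refine sum_congr rfl fun g hg => ?_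
  rw [sum_ite_eq', if_pos (mem_univ _)]
  congr 1
  simp only [Mon, Matrix.transpose_apply, Matrix.of_apply]
  rw [← Fintype.prod_prod_type', ← Equiv.prod_comp (g.trans e)]
  refine prod_congr rfl fun x _ => ?_
  rw [trans_apply, he, (rw_eq hν).2 ((mem_filter.1 hg).2 x)]

lemma ph_ne (hν : ∀ k, ν k ≤ M) (he : ∀ x, c (e x).1 (e x).2 = rw hν x)
    (h1 : ∀ i j, univ.val.map (c i) = univ.val.map (c j) → i = j) :
    ph e (fun x => (e x).1) ≠ 0 := by
  rw [ph, sum_eq_single 1 (fun w _ hw => sum_eq_zero fun g hg => if_neg fun h => hw ?_) (by simp)]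
  · refine (sum_pos' (fun g _ => ?_) ⟨1, by simp, by simp⟩).ne'
    split_ifs <;> simp
  · refine Equiv.ext fun i => h1 _ _ ?_
    have a1 : ∀ l, (e (g (e.symm (w i, l)))).1 = i := fun l =>
      w.injective ((congrFun h _).symm.trans (by rw [apply_symm_apply]))
    have a2 : Function.Injective fun l => (e (g (e.symm (w i, l)))).2 := fun l l' k =>
      congrArg Prod.snd (e.symm.injective (g.injective (e.injective
        (Prod.ext ((a1 l).trans (a1 l').symm) k))))
    refine FIB.map_perm (Equiv.ofBijective _ (Finite.injective_iff_bijective.1 a2)) fun l => ?_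
    have a3 := he (e.symm (w i, l))
    have a4 := he (g (e.symm (w i, l)))
    rw [apply_symm_apply] at a3
    rw [a1, (rw_eq hν).2 ((mem_filter.1 hg).2 _)] at a4
    exact a4.trans a3.symm

end PYR

open HW PYR in
theorem st_PYR : St_PYR := by
  intro α _ _ M N d c ν hν h1 h2 h3
  obtain ⟨e, he⟩ := FIB.exists_equiv (rw hν) (fun x : α × Fin d => c x.1 x.2) fun r => by
    rw [card_rw, h3]
  obtain ⟨f, hf⟩ := st_HW M N ν hν (ph e) (ph_row e) (fun U Z u1 u2 =>
    (ph_sum e hν he _).trans (((ph_sum e hν he Z).trans (by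
      rw [Mon_mul h1 h2 u1, Matrix.det_mul, det_Tm h1 u1 u2, one_mul])).symm)) ⟨_, ph_ne e hν he h1⟩
  obtain ⟨g, -, hg⟩ := exists_ne_zero_of_sum_ne_zero hf
  obtain ⟨w, -, hw⟩ := exists_ne_zero_of_sum_ne_zero (right_ne_zero_of_mul hg)
  obtain ⟨k, -, hk⟩ := exists_ne_zero_of_sum_ne_zero hw
  have h4 : f = fun x => w (e (k (g.symm x))).1 := funext fun x => by
    obtain ⟨y, rfl⟩ := g.surjective x
    rw [symm_apply_apply]
    exact congrFun (ite_ne_right_iff.1 hk).1 y
  refine ⟨fun τ => ph e fun x => (τ x).1, fun g hg τ => ph_row e g hg fun x => (τ x).1,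
    fun w τ => ?_, fun σ τ => ?_,
    ((g.symm.trans k).trans e).trans (Equiv.prodCongrLeft fun _ => w), ?_⟩
  · rw [pow_one]
    exact ph_perm e w fun x => (τ x).1
  · rw [pow_zero, one_mul]
    rfl
  · rw [h4] at hf
    exact hf

end MP7ebc2a.AA
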