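import Pool.Agent.Lib.AA25.Blue

/-! Transport and duality for the hub. -/

namespace MP7ebc2a.AA
open Equiv Finset

lemma TR.par (u : ℤˣ) {a a' : ℕ} (h : a % 2 = a' % 2) : (u : ℤ) ^ a = (u : ℤ) ^ a' := by
  rw [← Units.val_pow_eq_pow_val, ← Units.val_pow_eq_pow_val, Int.units_pow_eq_pow_mod_two, h,
    ← Int.units_pow_eq_pow_mod_two]

theorem st_TR : St_TR := by
  intro β β' α α' ι ι' κ κ' _ _ _ _ _ _ _ _ _ _ u v u' v' d a b a' b' e f hu hv ha hb
  rintro ⟨φ, h1, h2, h3, τ, h4⟩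
  refine ⟨fun τ' => φ (e.trans (τ'.trans (f.symm.prodCongr (Equiv.refl _)))), fun g hg τ' => ?_,
    fun w τ' => ?_, fun σ τ' => ?_, e.symm.trans (τ.trans (f.prodCongr (Equiv.refl _))), ?_⟩
  · refine Eq.trans (congrArg φ ?_)
      (h1 (e.symm.permCongr g) (fun x => (hu _ _).2 (by simpa using hg _)) _)
    ext x <;> simp
  · rw [← TR.par _ ha, ← Perm.sign_permCongr f.symm w, ← h2]
    refine congrArg φ ?_
    ext x <;> simp [prodCongrLeft]
  · rw [← Units.coe_prod, ← TR.par _ hb, Units.coe_prod, ← Equiv.prod_comp f, ← h3]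
    refine congrArg φ ?_
    ext x <;> simp [prodCongrRight]
  · refine fun h => h4 (Eq.trans ?_ h)
    refine sum_equiv e.permCongr (fun g => ?_) fun g _ => ?_
    · simp only [mem_filter, mem_univ, true_and, permCongr_apply]
      exact ⟨fun h x => by simpa using (hv _ _).1 (h (e.symm x)), fun h x => by
        simpa [← hv] using h (e x)⟩
    · rw [Perm.sign_permCongr]
      congr 2
      ext x <;> simp

namespace DUAL

variable {β X κ : Type} [Fintype β] [DecidableEq β] [DecidableEq κ]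

lemma usq (u : ℤˣ) : (u : ℤ) * u = 1 := by rw [← Units.val_mul, Int.units_mul_self, Units.val_one]

lemma alt_trans (v : β → κ) (φ : (β ≃ X) → ℤ) (g : Perm β) (hg : ∀ x, v (g x) = v x) (τ : β ≃ X) :
    ((Perm.sign g : ℤˣ) : ℤ) * alt v φ (g.trans τ) = alt v φ τ := by
  unfold alt
  rw [mul_sum]
  refine sum_equiv (Equiv.mulLeft g) (fun h => by simp [hg]) fun h _ => ?_
  rw [coe_mulLeft, Perm.sign_mul, Units.val_mul, mul_assoc]
  rfl

lemma alt_right (v : β → κ) (φ : (β ≃ X) → ℤ) (p : X ≃ X) (c : ℤ) (h : ∀ τ, φ (τ.trans p) = c * φ τ)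
    (τ : β ≃ X) : alt v φ (τ.trans p) = c * alt v φ τ := by
  unfold alt
  rw [mul_sum]
  exact sum_congr rfl fun g _ => by rw [← Equiv.trans_assoc, h, mul_left_comm]

lemma shift [Fintype X] [DecidableEq X] (F : (β ≃ X) → ℤ) (g : Perm β) :
    ∑ τ, F (g.trans τ) = ∑ τ, F τ :=
  Equiv.sum_comp (Equiv.equivCongr g.symm (Equiv.refl X)) F

end DUAL

open DUAL in
theorem st_DUAL : St_DUAL := by
  intro β α ι κ _ _ _ _ _ _ u v d a b
  rintro ⟨φ, h1, h2, h3, τ0, h4⟩
  let s : (β ≃ α × Fin d) → ℤ := fun τ => ((Perm.sign (τ.trans τ0.symm) : ℤˣ) : ℤ)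
  have s1 : ∀ (g : Perm β) τ, s (g.trans τ) = (Perm.sign g : ℤˣ) * s τ := fun g τ => by
    simp only [s]
    rw [Equiv.trans_assoc, Perm.sign_trans, Units.val_mul, mul_comm]
  have s2 : ∀ (p : Perm (α × Fin d)) τ, s (τ.trans p) = (Perm.sign p : ℤˣ) * s τ := fun p τ => by
    simp only [s]
    rw [← Perm.sign_permCongr τ0.symm p, ← Units.val_mul, ← Perm.sign_trans]
    congr 2
    ext x
    simp
  refine ⟨fun τ => s τ * alt v φ τ, fun g hg τ => ?_, fun w τ => ?_, fun σ τ => ?_, ?_⟩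
  · beta_reduce
    rw [s1, ← alt_trans v φ g hg τ]; ring
  · beta_reduce
    rw [s2, alt_right v φ _ _ (h2 w), Perm.sign_prodCongrLeft]
    simp only [prod_const, card_univ, Fintype.card_fin, Units.val_pow_eq_pow_val]
    ring
  · beta_reduce
    rw [s2, alt_right v φ _ _ (h3 σ), Perm.sign_prodCongrRight, Units.coe_prod]
    ring
  by_contra! h
  have h5 : ∀ τ, ∑ r : Perm β with ∀ x, u (r x) = u x, alt v φ (r.trans τ) = 0 := fun τ => by
    refine (mul_eq_zero.1 (Eq.trans ?_ (h τ))).resolve_left (Units.ne_zero (Perm.sign (τ.trans τ0.symm)))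
    rw [mul_sum]
    exact sum_congr rfl fun r _ => by beta_reduce; rw [s1, ← mul_assoc, ← mul_assoc, usq, one_mul]
  have h6 : ∑ τ, φ τ * alt v φ τ = 0 := by
    have : ∑ τ, φ τ * ∑ r : Perm β with ∀ x, u (r x) = u x, alt v φ (r.trans τ) = 0 := by
      simp [h5]
    simp only [mul_sum] at this
    rw [sum_comm, sum_congr rfl (g := fun _ => ∑ τ, φ τ * alt v φ τ) fun r hr => by
      rw [← shift (fun τ => φ τ * alt v φ τ) r]
      exact sum_congr rfl fun τ _ => by rw [h1 r (mem_filter.1 hr).2], sum_const, nsmul_eq_mul] at this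
    exact (mul_eq_zero.1 this).resolve_left (Nat.cast_ne_zero.2 (card_ne_zero_of_mem (a := 1) (by simp)))
  have h7 : ∑ τ, alt v φ τ * alt v φ τ = 0 := by
    conv_lhs => enter [2, τ, 1]; unfold alt
    simp only [sum_mul]
    rw [sum_comm]
    refine sum_eq_zero fun g hg => Eq.trans (sum_congr rfl fun τ _ => ?_)
      ((shift (fun τ => φ τ * alt v φ τ) g).trans h6)
    rw [← alt_trans v φ g (mem_filter.1 hg).2 τ]
    linear_combination (φ (g.trans τ) * alt v φ (g.trans τ)) * usq (Perm.sign g)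
  exact h4 (mul_self_eq_zero.1 ((sum_eq_zero_iff_of_nonneg fun τ _ => mul_self_nonneg _).1 h7 τ0
    (mem_univ _)))

end MP7ebc2a.AA
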