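import Pool.Agent.Lib.AA25.Old

/-! Almost every partition of `d m` has an invariant: definitions and block statements. -/

namespace MP7ebc2a.AA
open Equiv Finset

/-! ### the hub: functions on labelled fillings -/

/-- signed sum over the permutations of the boxes that preserve `v` -/
def alt {β X κ : Type} [Fintype β] [DecidableEq β] [DecidableEq κ] (v : β → κ)
    (φ : (β ≃ X) → ℤ) (τ : β ≃ X) : ℤ :=
  ∑ g : Perm β with ∀ x, v (g x) = v x, ((Perm.sign g : ℤˣ) : ℤ) * φ (g.trans τ)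

def GH (β α : Type) [Fintype β] [DecidableEq β] [Fintype α] [DecidableEq α] {ι κ : Type}
    [DecidableEq κ] (u : β → ι) (v : β → κ) (d a b : ℕ) : Prop :=
  ∃ φ : (β ≃ α × Fin d) → ℤ,
    (∀ g : Perm β, (∀ x, u (g x) = u x) → ∀ τ, φ (g.trans τ) = φ τ) ∧
    (∀ (w : Perm α) τ, φ (τ.trans (Equiv.prodCongrLeft fun _ : Fin d => w)) =
      ((Perm.sign w : ℤˣ) : ℤ) ^ a * φ τ) ∧
    (∀ (σ : α → Perm (Fin d)) τ, φ (τ.trans (Equiv.prodCongrRight σ)) =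
      (∏ j, ((Perm.sign (σ j) : ℤˣ) : ℤ)) ^ b * φ τ) ∧
    ∃ τ, alt v φ τ ≠ 0

/-- boxes of a shape given by the lengths of its lines -/
abbrev Bx {ι : Type} (ν : ι → ℕ) : Type := Σ k, Fin (ν k)

/-- column form: `ν` is the multiset of column lengths -/
def GC (m d : ℕ) (ν : Multiset ℕ) : Prop :=
  (∀ x ∈ ν, x ≤ m) ∧
    ∃ e, Even (d + (e + 1)) ∧ Good m (d + (e + 1)) (ν + Multiset.replicate (e + 1) m)

/-- the first `N` columns of the partition with rows `s` -/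
def conj (s : Multiset ℕ) (N : ℕ) : Multiset ℕ :=
  (univ : Finset (Fin N)).val.map fun k : Fin N => s.countP ((k : ℕ) < ·)

/-- row form: the partition with rows `s` has an invariant for `GL_m`, `|s| = m d` -/
def GR (m d : ℕ) (s : Multiset ℕ) : Prop := ∃ N, (∀ x ∈ s, x ≤ N) ∧ GC m d (conj s N)

def GD (d : ℕ) (s : Multiset ℕ) : Prop := ∃ m, GR m d s

/-- pairs of rows that are ordered in the same way -/
def Chain (P : Multiset (ℕ × ℕ)) : Prop := ∀ x ∈ P, ∀ y ∈ P, x.1 < y.1 → x.2 ≤ y.2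

def AP (p : ℕ) : ℕ := (p + 2).choose 2
def CP (p : ℕ) : ℕ := (p + 2).choose 3

/-- deficiency of the supply of parts in the window `[a, b]` -/
def df (H a b : ℕ) (M : Multiset ℕ) : ℕ := ∑ i ∈ Icc a b, (H / i - M.count i)

def Typ (h : ℕ) (s : Multiset ℕ) : Prop :=
  (∀ x ∈ s, 0 < x ∧ x * s.count x ≤ h ^ 101) ∧ df (h ^ 96) 1 (h ^ 96) s ≤ h ^ 95

def pn (n : ℕ) : ℕ := Fintype.card (Nat.Partition n)

/-- every irreducible polynomial module of highest weight `lam` has an `N(T)`-fixed vector -/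
def HasInv {m : ℕ} (lam : Fin m → ℕ) : Prop :=
  ∀ (V : Type) [AddCommGroup V] [Module ℂ V] [FiniteDimensional ℂ V]
    (ρ : Representation ℂ (GL (Fin m) ℂ) V), IsPolynomialRep ρ → ρ.IsIrreducible →
    HasHighestWeight ρ lam → ∃ v : V, v ≠ 0 ∧ ∀ n ∈ Subgroup.normalizer (torus m),
      ρ (Matrix.SpecialLinearGroup.toGL n) v = v

/-! ### theory -/

/-- a vanishing combination of monomials vanishes against every function of the monomial -/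
def St_FIB : Prop := ∀ {R I J σ : Type} [CommRing R] [Fintype J] (s : Finset I) (c : I → R)
  (t : I → J → σ) (χ : I → R),
    ∑ i ∈ s, MvPolynomial.C (c i) * ∏ j, (MvPolynomial.X (t i j) : MvPolynomial σ R) = 0 →
    (∀ i ∈ s, ∀ i' ∈ s, ∀ w : Perm J, (∀ j, t i' (w j) = t i j) → χ i = χ i') →
    ∑ i ∈ s, c i * χ i = 0

/-- the signed sum over the permutations preserving the lines factors -/
def St_SIG : Prop := ∀ {R ι : Type} [CommRing R] [Fintype ι] [DecidableEq ι] (ν : ι → ℕ)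
  (M : Bx ν → Bx ν → R),
    ∑ g : Perm (Bx ν) with ∀ x, (g x).1 = x.1, (((Perm.sign g : ℤˣ) : ℤ) : R) * ∏ x, M x (g x) =
      ∏ k, (Matrix.of fun i j : Fin (ν k) => M ⟨k, i⟩ ⟨k, j⟩).det

def St_TR : Prop := ∀ {β β' α α' ι ι' κ κ' : Type} [Fintype β] [DecidableEq β] [Fintype α]
  [DecidableEq α] [Fintype β'] [DecidableEq β'] [Fintype α'] [DecidableEq α'] [DecidableEq κ]
  [DecidableEq κ'] (u : β → ι) (v : β → κ) (u' : β' → ι') (v' : β' → κ') (d a b a' b' : ℕ)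
  (e : β ≃ β') (_ : α ≃ α'), (∀ x y, u x = u y ↔ u' (e x) = u' (e y)) →
    (∀ x y, v x = v y ↔ v' (e x) = v' (e y)) → a % 2 = a' % 2 → b % 2 = b' % 2 →
    GH β α u v d a b → GH β' α' u' v' d a' b'

def St_DUAL : Prop := ∀ {β α ι κ : Type} [Fintype β] [DecidableEq β] [Fintype α]
  [DecidableEq α] [DecidableEq ι] [DecidableEq κ] (u : β → ι) (v : β → κ) (d a b : ℕ),
    GH β α u v d a b → GH β α v u d (a + d) (b + 1)

def St_PROD : Prop := ∀ {β β' α α' ι κ κ' : Type} [Fintype β] [DecidableEq β] [Fintype α]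
  [DecidableEq α] [Fintype β'] [DecidableEq β'] [Fintype α'] [DecidableEq α'] [DecidableEq κ]
  [DecidableEq κ'] (u : β → ι) (v : β → κ) (u' : β' → ι) (v' : β' → κ') (d b : ℕ),
    GH β α u v d 0 b → GH β' α' u' v' d 0 b →
    GH (β ⊕ β') (α ⊕ α') (Sum.elim u u') (Sum.map v v') d 0 b

def St_LINK : Prop := ∀ (m d N : ℕ) (ν : Fin N → ℕ), (∀ k, ν k ≤ m) →
  (GC m d (univ.val.map ν) ↔
    GH (Bx ν) (Fin m) (fun x => (x.2 : ℕ)) (fun x => x.1) d d 0)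

/-- a highest weight vector is not killed by the column antisymmetriser -/
def St_HW : Prop := ∀ {α : Type} [Fintype α] [DecidableEq α] (M N : ℕ) (ν : Fin N → ℕ)
  (hν : ∀ k, ν k ≤ M) (φ : (Bx ν → α) → ℤ),
    (∀ g : Perm (Bx ν), (∀ x, ((g x).2 : ℕ) = x.2) → ∀ f, φ (f ∘ g) = φ f) →
    (∀ (U : Matrix (Fin M) (Fin M) ℂ) (Z : Matrix (Fin M) α ℂ), (∀ i j, i < j → U i j = 0) →
      (∀ i, U i i = 1) →
      ∑ f, (φ f : ℂ) * ∏ x : Bx ν, (U * Z) (Fin.castLE (hν x.1) x.2) (f x) =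
        ∑ f, (φ f : ℂ) * ∏ x : Bx ν, Z (Fin.castLE (hν x.1) x.2) (f x)) →
    (∃ f, φ f ≠ 0) →
    ∃ f, ∑ g : Perm (Bx ν) with ∀ x, (g x).1 = x.1, ((Perm.sign g : ℤˣ) : ℤ) * φ (f ∘ g) ≠ 0

/-- closed families of monomials -/
def St_PYR : Prop := ∀ {α : Type} [Fintype α] [DecidableEq α] (M N d : ℕ) (c : α → Fin d → Fin M)
  (ν : Fin N → ℕ), (∀ k, ν k ≤ M) →
    (∀ i j, univ.val.map (c i) = univ.val.map (c j) → i = j) →
    (∀ j (t : Fin d → Fin M), (∀ k, t k ≤ c j k) → ∃ i, univ.val.map (c i) = univ.val.map t) →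
    (∀ r : Fin M, (univ.filter fun k => (r : ℕ) < ν k).card =
      (univ.filter fun x : α × Fin d => c x.1 x.2 = r).card) →
    GH (Bx ν) α (fun x => (x.2 : ℕ)) (fun x => x.1) d 1 0

def St_SEED : Prop := ∀ p e : ℕ, 1 ≤ p → GR (CP p + e) 3
  ((AP p + 2 * e) ::ₘ (Multiset.replicate (p - 1) (AP p) + Multiset.replicate e 1))

structure St_CH : Prop where
  ch : ∀ (P : Multiset (ℕ × ℕ)) (N N' : ℕ), Chain P → (∀ x ∈ P, x.1 ≤ N ∧ x.2 ≤ N') →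
    conj (P.map fun x => x.1 + x.2) (N + N') = conj (P.map Prod.fst) N + conj (P.map Prod.snd) N'
  sum : ∀ m d s, GR m d s → s.sum = m * d
  zero : ∀ m d s t, s.filter (· ≠ 0) = t.filter (· ≠ 0) → GR m d s → GR m d t
  nil : ∀ d, GR 0 d 0
  plus : ∀ m d d' P, Chain P → GR m d (P.map Prod.fst) → GR m d' (P.map Prod.snd) →
    GR m (d + d') (P.map fun x => x.1 + x.2)
  wt : ∀ m d (s : Multiset ℕ), Even d → (∀ x ∈ s, Even x) → s.sum = m * d →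
    s.countP (0 < ·) ≤ m → GR m d s
  one : ∀ m, GR m 1 (Multiset.replicate m 1)
  inv : ∀ m d (lam : Fin m → ℕ), Antitone lam → GR m d (univ.val.map lam) → HasInv lam

def St_UNION : Prop := ∀ m m' d s s', GR m d s → GR m' d s' → GR (m + m') d (s + s')

def St_BOX : Prop := ∀ m m' d P, Even d → Chain P → GR m d (P.map Prod.fst) →
  GR m' d (P.map Prod.snd) → GR (m + m') d (P.map fun x => x.1 + x.2)

/-! ### packing -/

structure St_EX : Prop where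
  sub : ∀ H a b (M U : Multiset ℕ), df H a b (M - U) ≤ df H a b M + U.card
  mono : ∀ H a b a' b' (M M' : Multiset ℕ), a' ≤ a → b ≤ b' →
    (∀ i, a ≤ i → i ≤ b → M'.count i ≤ M.count i) → df H a b M ≤ df H a' b' M'
  cnt : ∀ H a b i (M : Multiset ℕ), a ≤ i → i ≤ b → H / i ≤ M.count i + df H a b M
  /-- `2 k` elements of a given parity with a given sum -/
  ex : ∀ H z c c' ε k T (M : Multiset ℕ), 2 ≤ z → 1 ≤ c → c' ≤ 30 → 30 * z ≤ H → ε < 2 → Even T →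
    2 * k * ((c + 1) * z) ≤ T → T + 2 * k * z ≤ 2 * k * (c' * z) →
    180 * (df H (c * z) (c' * z) M + 2 * k) ≤ H →
    ∃ U ≤ M, U.card = 2 * k ∧ U.sum = T ∧ ∀ x ∈ U, c * z ≤ x ∧ x ≤ c' * z ∧ x % 2 = ε
  /-- `K` different elements in an arithmetic progression -/
  dist : ∀ H a b q r L K (M : Multiset ℕ), 0 < q → 0 < a → a ≤ r → r + q * L ≤ b →
    df H a b M < H / b * (L + 1 - K) →
    ∃ U ≤ M, U.Nodup ∧ U.card = K ∧ ∀ x ∈ U, a ≤ x ∧ x ≤ b ∧ x % q = r % q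
  top : ∀ (M : Multiset ℕ) (r : ℕ), r ≤ M.card →
    ∃ U ≤ M, U.card = r ∧ ∀ a ∈ U, ∀ b ∈ M - U, b ≤ a

structure St_SB : Prop where
  sb : ∀ d p K (B F : Multiset ℕ), Odd d → 5 ≤ d → 1 ≤ p → B.card = K * p →
    (∀ b ∈ B, b % 2 = AP p % 2 ∧ AP p ≤ b ∧ ∀ f ∈ F, AP p + f ≤ b) → (∀ f ∈ F, Even f) →
    (B + F).sum = d * (K * CP p) → (B + F).card ≤ K * CP p → GD d (B + F)
  sbx : ∀ d p K (Hs O Ex : Multiset ℕ), Odd d → 5 ≤ d → 2 ≤ p → 1 ≤ K → Odd (AP p) →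
    Hs.Nodup → Hs.card = K → O.card = K * (p - 1) → (∀ x ∈ Hs + O + Ex, Odd x) →
    (∀ a ∈ Hs, ∀ b ∈ O, b + 2 * (Ex.card / K) + 2 ≤ a) →
    (∀ b ∈ O, AP p ≤ b ∧ ∀ x ∈ Ex, AP p + x ≤ b + 1) →
    (Hs + O + Ex).sum = d * (K * CP p + Ex.card) → GD d (Hs + O + Ex)
  /-- even `d`: `K p` large rows, `K (C - p)` odd rows, at most one even row `e` between them
  (`mid`) and even rows `F` below them -/
  sbe : ∀ d p K a (B S mid F : Multiset ℕ), Even d → 4 ≤ d → 1 ≤ p → AP p = 3 * a →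
    B.card = K * p → S.card = K * (CP p - p) →
    (∀ b ∈ B, b % 2 = (AP p + 1) % 2 ∧ AP p + 1 + (d - 4) * a ≤ b ∧
      ∀ x ∈ S + mid + F, AP p + 1 + (d - 4) * a + x ≤ b) →
    (∀ x ∈ S, Odd x) → (∀ e ∈ mid, Even e ∧ d ≤ e ∧ ∀ x ∈ S + F, d + x ≤ e) →
    (∀ f ∈ F, Even f ∧ ∀ x ∈ S, f < x) → d ∣ (B + S + mid + F).sum →
    d * ((B + S + mid + F).card + K * CP p + mid.card) ≤ (B + S + mid + F).sum →
    GD d (B + S + mid + F)
  add : ∀ d s s', GD d s → GD d s' → GD d (s + s')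

/-- one band of rows of the same parity -/
def St_BAND : Prop := ∀ d z Λ P ε (M : Multiset ℕ), Odd d → 5 ≤ d → d ≤ z → 100000 ≤ z → 16 ≤ P →
  8 * Λ < P ^ 2 → (∀ x ∈ M, x % 2 = ε ∧ 28 * z ≤ x ∧ x ≤ Λ ∧ ∀ y ∈ M, 5 * x ≤ 6 * y) →
  ∃ L ≤ M, L.card ≤ P ∧ ∃ D, Even D ∧ (D = 0 ∨ 18 * z ≤ D) ∧ D ≤ P * Λ + 3 * d * P * M.card ∧
    ∀ F : Multiset ℕ, (∀ f ∈ F, Even f ∧ 2 * z ≤ f ∧ f ≤ 5 * z) → F.sum = D → GD d (M - L + F)

/-- all bands -/
def St_BANDS : Prop := ∀ d z Λ P ε H j (M S : Multiset ℕ), Odd d → 5 ≤ d → d ≤ z → 100000 ≤ z →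
  16 ≤ P → 8 * Λ < P ^ 2 → 30 * z ≤ H →
  (∀ x ∈ M, x % 2 = ε ∧ 28 * z ≤ x ∧ x ≤ Λ ∧ 5 ^ j * x < 6 ^ j * (28 * z)) →
  180 * (z * df H (2 * z) (5 * z) S + (j * (P * Λ) + 3 * d * P * M.card)) ≤ z * H →
  ∃ L ≤ M, ∃ F ≤ S, L.card ≤ j * P ∧ (∀ f ∈ F, Even f ∧ 2 * z ≤ f ∧ f ≤ 5 * z) ∧
    F.sum ≤ j * (P * Λ) + 3 * d * P * M.card ∧ GD d (M - L + F)

/-- consequences of typicality -/
def St_TYP : Prop := ∀ h (s : Multiset ℕ), Typ h s → harmonic (h ^ 101) ≤ h →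
  (∀ x ∈ s, x ≤ h ^ 101) ∧ s.card ≤ h ^ 102 ∧ ∀ y, (s.filter (· < y)).sum ≤ y * h ^ 101

def St_ODD : Prop := ∀ h d m (s : Multiset ℕ), Odd d → 5 ≤ d → 10000 * d ≤ h →
  5 ^ h * h ^ 101 < 6 ^ h → harmonic (h ^ 101) ≤ h → Typ h s → s.sum = m * d → GD d s

def St_EVEN : Prop := ∀ h d m (s : Multiset ℕ), Even d → 4 ≤ d → 10000 * d ≤ h →
  harmonic (h ^ 101) ≤ h → Typ h s → s.sum = m * d → GD d s

/-! ### counting -/

structure St_P1 : Prop where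
  cnt : ∀ n i t, 0 < i → i * t ≤ n →
    (univ.filter fun l : Nat.Partition n => t ≤ l.parts.count i).card = pn (n - i * t)
  mono : Monotone pn
  dbl : ∀ J k, 0 < J → 4 * k ≤ J ^ 2 → J ≤ k → 2 * pn (k - J) ≤ pn k

def St_P2 : Prop := ∀ n k r, 0 < r → k ≤ n →
  r * (univ.filter fun l : Nat.Partition k => l.parts.count 1 = 0).card ≤
    pn k + r * (n + 1) ^ (2 * r)

open Classical in
def St_P3 : Prop := ∀ ε : ℝ, 0 < ε → ∃ h0 : ℕ, ∀ h ≥ h0, ∀ n, h ^ 200 ≤ n → n < (h + 1) ^ 200 →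
  ((univ.filter fun l : Nat.Partition n => ¬ Typ h l.parts).card : ℝ) ≤ ε * pn n

open Classical in
def St_FIN : Prop := ∀ ε : ℝ, 0 < ε → ∃ M : ℕ, ∀ m ≥ M, ∀ d, 4 ≤ d → d ^ 400 ≤ m →
  (((piAntidiag univ (d * m)).filter fun lam : Fin m → ℕ => Antitone lam ∧ ¬ HasInv lam).card : ℝ) ≤
    ε * ((piAntidiag univ (d * m)).filter fun lam : Fin m → ℕ => Antitone lam).card

end MP7ebc2a.AA
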