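import Pool.Agent.Lib.AA25.W3

/-! The combinatorial theorem for shapes with many columns in three windows. -/

namespace MP7ebc2a.AA
open Multiset

lemma take_of_le {α : Type*} (p : α → Prop) [DecidablePred p] (V : Multiset α) {a : ℕ}
    (h : a ≤ V.countP p) : ∃ s r, V = s + r ∧ card s = a ∧ ∀ x ∈ s, p x := by
  rw [countP_eq_card_filter] at h
  obtain ⟨s, r, e, hs, -⟩ := split_card a (card (V.filter p) - a) (V.filter p) (by omega)
  refine ⟨s, r + V.filter fun x => ¬ p x, by rw [← add_assoc, ← e, filter_add_not], hs,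
    fun x hx => (mem_filter.1 (e ▸ mem_add.2 (Or.inl hx) : x ∈ V.filter p)).2⟩

lemma pigeon (p : ℕ → Prop) [DecidablePred p] (key : ℕ → ℕ) (K : Finset ℕ) (V : Multiset ℕ)
    (h1 : ∀ x, p x → key x ∈ K) {a : ℕ} (h : K.card * a < V.countP p) :
    ∃ y ∈ K, a < V.countP fun x => p x ∧ key x = y := by
  have : V.countP p = ∑ y ∈ K, V.countP fun x => p x ∧ key x = y := by
    clear h
    induction V using Multiset.induction_on with
    | empty => simp
    | cons a V ih =>
      simp only [countP_cons, Finset.sum_add_distrib, ← ih]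
      by_cases hp : p a
      · simp [hp, h1 a hp]
      · simp [hp]
  by_contra! h'
  have := this ▸ Finset.sum_le_card_nsmul _ _ _ h'
  exact absurd h (not_lt.2 this)

lemma sum_lin (f : ℕ → ℕ) (a b : ℕ) (V : Multiset ℕ) (h : ∀ x ∈ V, a * x ≤ b * f x) :
    a * V.sum ≤ b * (V.map f).sum := by
  induction V using Multiset.induction_on with
  | empty => simp
  | cons x V ih =>
    have := h x (mem_cons_self _ _)
    have := ih fun y hy => h y (mem_cons_of_mem hy)
    simp only [map_cons, sum_cons, mul_add]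
    omega

theorem caseA {n q l : ℕ} (ν : Multiset ℕ) (hm : 2000 ≤ n + 7) (hl : Nat.log 2 (n + 7) < l)
    (hle : ∀ x ∈ ν, x ≤ n + 7) (h8 : 8 ∣ card ν) (hs : ν.sum = (n + 7) * (4 * q))
    (hmid : 70000 * l ≤ ν.countP fun x => 45 * (n + 7) ≤ 100 * x ∧ 100 * x ≤ 55 * (n + 7))
    (htop : 70000 * l ≤ ν.countP fun x => 56 * (n + 7) ≤ 100 * x ∧ 100 * x ≤ 99 * (n + 7))
    (hA : 2 * ν.countP (fun x => 55 * (n + 7) < 100 * x) + 70000 * l ≤ 8 * q) :
    ∃ T : Multiset Col, T.map (len (n + 7)) = ν ∧ Des n 7 (4 * q) T := by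
  have hn : 0 < n := by omega
  have hl' : Nat.log 2 n < l := (Nat.log_mono_right (by omega)).trans_lt hl
  obtain ⟨TW, r1, rfl, cTW, hTW⟩ := take_of_le _ ν (a := 6 + (1100 + 896 * l))
    (le_trans (by omega) htop)
  rw [countP_add, countP_eq_zero.2 fun x hx => by have := hTW x hx; omega, zero_add] at hmid
  obtain ⟨k, hk, hk'⟩ := pigeon _ (fun x => 100 * x / (n + 7)) (Finset.Icc 45 55) r1
    (fun x hx => Finset.mem_Icc.2 ⟨(Nat.le_div_iff_mul_le (by omega)).2 hx.1,
      Nat.div_le_of_le_mul (by rw [mul_comm (n + 7)]; exact hx.2)⟩) (a := 6272 * l + 6)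
    (lt_of_lt_of_le (by simp; omega) hmid)
  obtain ⟨RC, r2, rfl, cRC, hRC⟩ := take_of_le _ r1 hk'.le
  obtain ⟨Rs, Cp, rfl, cR, cC⟩ := split_card _ _ _ cRC
  obtain ⟨Tb, TW', rfl, cT, cTW'⟩ := split_card _ _ _ cTW
  obtain ⟨H0, L0, rfl, hH, hL⟩ : ∃ H0 L0, r2 = H0 + L0 ∧ (∀ x ∈ H0, 55 * (n + 7) < 100 * x) ∧
      ∀ x ∈ L0, 100 * x ≤ 55 * (n + 7) :=
    ⟨_, _, (filter_add_not (fun x => 55 * (n + 7) < 100 * x) r2).symm,
      fun x hx => (mem_filter.1 hx).2, fun x hx => not_lt.1 (mem_filter.1 hx).2⟩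
  obtain ⟨V1, V1', e1, f1, c1⟩ := group_all hn hl' (TW'.map (· - 7)) fun x hx => by
    obtain ⟨x, hx', rfl⟩ := mem_map.1 hx
    have := hTW x (mem_add.2 (Or.inr hx'))
    omega
  obtain ⟨K1, K2, rfl, rfl, rfl⟩ := map_eq_add _ _ _ _ e1
  clear e1 hk' hmid htop cTW cRC
  simp only [mem_add, or_imp, forall_and] at hle hTW hRC
  obtain ⟨⟨hT, hK1, hK2⟩, hT', hK1', hK2'⟩ := hTW
  obtain ⟨⟨⟨hR, hC⟩, hR', hC'⟩, hR'', -⟩ := hRC
  obtain ⟨-, -, hH', -⟩ := hle
  simp only [countP_add] at hA
  rw [countP_eq_card.2 hH, (countP_eq_card (s := Tb)).2 fun x h => by have := hT x h; omega,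
    (countP_eq_card (s := K1)).2 fun x h => by have := hK1 x h; omega,
    (countP_eq_card (s := K2)).2 fun x h => by have := hK2 x h; omega] at hA
  simp only [card_add, card_map, sum_add] at h8 hs cTW' c1
  obtain ⟨dl, hdl⟩ : ∃ dl, 4 * q = 6 + card K1 + card K2 + card H0 + dl :=
    ⟨4 * q - (6 + card K1 + card K2 + card H0), by omega⟩
  obtain ⟨Q0, rfl, q1, q2⟩ := choose_le (min 7) L0 (7 * dl - 4 * (6272 * l)) (by
    have a1 := sum_lin (fun _ => 1) 1 (n + 7) Tb fun x hx => by have := hT' x hx; omega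
    have a2 := sum_lin (fun _ => 1) 1 (n + 7) K1 fun x hx => by have := hK1' x hx; omega
    have a3 := sum_lin (fun _ => 1) 1 (n + 7) K2 fun x hx => by have := hK2' x hx; omega
    have a4 := sum_lin (fun _ => 1) 1 (n + 7) H0 fun x hx => by have := hH' x hx; omega
    have a5 := sum_lin (fun _ => 55) 100 (n + 7) Rs fun x hx => by have := hR' x hx; omega
    have a6 := sum_lin (fun _ => 55) 100 (n + 7) Cp fun x hx => by have := hC' x hx; omega
    have a7 := sum_lin (min 7) 7 (n + 7) L0 fun x hx => by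
      have := hL x hx
      rcases le_total 7 x with h | h
      · rw [min_eq_left h]; omega
      · rw [min_eq_right h]; exact Nat.mul_le_mul_right _ (by omega)
    simp only [map_const', sum_replicate, smul_eq_mul, cT, cR, cC, mul_one] at a1 a2 a3 a4 a5 a6
    rw [hdl] at hs
    have : 700 * dl ≤ 385 * (6272 * l + 6) + 100 * (L0.map (min 7)).sum :=
      Nat.le_of_mul_le_mul_left (c := n + 7) (by linarith) (by omega)
    omega)
  obtain ⟨PT, rfl, t1⟩ := attach_card (β := Col)
    (Finset.univ.val.map fun (j : Fin 6) (i : ℕ) => decide ((j : ℕ) < i)) Tb (by simp [cT])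
  obtain ⟨PC, rfl, t2⟩ := attach_card (β := Col)
    (Finset.univ.val.map fun (j : Fin 6) (i : ℕ) => decide (i ≤ (j : ℕ))) Cp (by simp [cC])
  have cm : ∀ {α β : Type} (f : α → β) (U : Multiset α) (p : β → Prop) [DecidablePred p],
      (U.map f).countP p = U.countP fun u => p (f u) := fun f U p _ => by
    rw [countP_map, countP_eq_card_filter]
  have l7 : len 7 (fun _ => true) = 7 := rfl
  have t3 : (PT.map fun p => len 7 p.2).sum = 21 := by
    rw [← Function.comp_def (len 7), ← Multiset.map_map, t1]; rfl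
  have t4 : (PC.map fun p => len 7 p.2).sum = 21 := by
    rw [← Function.comp_def (len 7), ← Multiset.map_map, t2]; rfl
  have t5 : ∀ i < 7, PT.countP (fun p => p.2 i = true) = i :=
    fun i hi => by
      rw [← cm Prod.snd PT fun b => b i = true, t1]
      interval_cases i <;> rfl
  have t6 : ∀ i < 7, PC.countP (fun p => p.2 i = true) = 6 - i := fun i hi => by
    rw [← cm Prod.snd PC fun b => b i = true, t2]
    interval_cases i <;> rfl
  have t7 : ∀ i < 7, PT.countP (fun p => ¬ p.2 i = true) = 6 - i := fun i hi => by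
    rw [← cm Prod.snd PT fun b => ¬ b i = true, t1]
    interval_cases i <;> rfl
  simp only [forall_mem_map_iff] at hT hT' hC hC' hL
  obtain ⟨V3, Lf, e3, f3, c3⟩ := group_all hn hl' ((K2 + H0).map (· - 7) +
    (PT + PC).map (fun p => p.1 - len 7 p.2) + Q0.map fun p => p.1 - p.2) fun x hx => by
      simp only [Multiset.map_add, mem_add, mem_map] at hx
      rcases hx with ((⟨y, h, rfl⟩ | ⟨y, h, rfl⟩) | ⟨y, h, rfl⟩ | ⟨y, h, rfl⟩) | ⟨y, h, rfl⟩
      · have := hK2' y h; omega
      · have := hH' y h; omega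
      · have := hT' y h; omega
      · have := hC' y h; omega
      · have := hL y h; omega
  have hLf : ∀ c ∈ Lf, c ≤ n + 7 - 7 := fun x hx => by
    have := e3 ▸ mem_add.2 (Or.inr hx)
    simp only [Multiset.map_add, mem_add, mem_map] at this
    rcases this with ((⟨y, h, rfl⟩ | ⟨y, h, rfl⟩) | ⟨y, h, rfl⟩ | ⟨y, h, rfl⟩) | ⟨y, h, rfl⟩
    · have := hK2' y h; omega
    · have := hH' y h; omega
    · have := hT' y h; omega
    · have := hC' y h; omega
    · have := hL y h; omega
  have hkk := Finset.mem_Icc.1 hk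
  have k1 : 45 * (n + 7) ≤ k * (n + 7) := Nat.mul_le_mul_right _ hkk.1
  obtain ⟨QR, rfl, r1, r2, f4⟩ := reserve hm (lo := k * (n + 7) / 100 - 7) (by omega) Lf Rs hLf
    (fun x hx => by
      have a1 := Nat.div_mul_le_self (100 * x) (n + 7)
      have a2 := Nat.lt_div_mul_add (a := 100 * x) (by omega : 0 < n + 7)
      have := hR' x hx
      rw [hR'' x hx] at a1 a2
      omega) (by omega) (by
      obtain ⟨_, _, a1, -⟩ := f1
      obtain ⟨_, _, a2, -⟩ := f3
      have := congrArg card e3
      simp only [card_add, card_map] at this a1 h8 cT cC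
      omega) (by
      obtain ⟨_, a1, -⟩ := f1
      obtain ⟨_, a2, -⟩ := f3
      have a3 := congrArg sum e3
      have a4 := sum_sub id (fun _ => 7) K1 fun x hx => by have := hK1 x hx; dsimp only [id]; omega
      have a5 := sum_sub id (fun _ => 7) K2 fun x hx => by have := hK2 x hx; dsimp only [id]; omega
      have a6 := sum_sub id (fun _ => 7) H0 fun x hx => by have := hH x hx; dsimp only [id]; omega
      have a7 := sum_sub Prod.fst (fun p => len 7 p.2) PT fun x hx => by
        have := hT x hx; have := len_le 7 x.2; omega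
      have a8 := sum_sub Prod.fst (fun p => len 7 p.2) PC fun x hx => by
        have := hC x hx; have := len_le 7 x.2; omega
      have a9 := sum_sub Prod.fst Prod.snd Q0 fun x hx => (q1 x hx).trans (min_le_right _ _)
      simp only [Multiset.map_add, sum_add, id, map_const', sum_replicate, smul_eq_mul,
        map_id'] at a3 a4 a5 a6
      rw [mul_left_comm] at hs
      omega)
  obtain ⟨Pc, e5, d5⟩ := cyc7 (Q0 + QR) (fun x hx => by
    rcases mem_add.1 hx with h | h
    exacts [(q1 x h).trans (min_le_left _ _), r1 x h]) 0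
  have p1 : Pc.map Prod.fst = Q0.map Prod.fst + QR.map Prod.fst := by
    rw [← Multiset.map_add, ← e5, Multiset.map_map]; rfl
  have p2 : ∀ p ∈ Pc, len 7 p.2 ≤ p.1 ∧ 100 * p.1 ≤ 55 * (n + 7) := fun p hp => by
    have := e5 ▸ mem_map_of_mem (fun p : ℕ × Col => (p.1, len 7 p.2)) hp
    rcases mem_add.1 this with h | h
    · exact ⟨(q1 _ h).trans (min_le_right _ _), hL _ h⟩
    · have := hR _ (mem_map_of_mem _ h)
      have := len_le 7 p.2
      exact ⟨by omega, hR' _ (mem_map_of_mem _ h)⟩
  have p3 : ∀ i < 7, Pc.countP (fun p => p.2 i = true) = dl := fun i hi => by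
    have := d5 i hi
    rw [Multiset.map_add, sum_add, q2, r2, cR, show 0 + (7 * dl - 4 * (6272 * l) + 4 * (6272 * l))
      = 7 * dl by omega, cn_mul (by norm_num)] at this
    simpa [cn] using this
  have e6 : (K1.map (fun x => (x, fun _ => true)) + ((K2 + H0).map (fun x => (x, fun _ => true)) +
      (PT + PC) + Pc)).map (Prod.fst : ℕ × Col → ℕ) = PT.map Prod.fst + (K1 + K2) +
      (QR.map Prod.fst + PC.map Prod.fst + (H0 + Q0.map Prod.fst)) := by
    simp only [Multiset.map_add, Multiset.map_map, Function.comp_def, map_id', p1]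
    abel
  rw [← e6]
  refine assemble (τ := (56 * (n + 7) + 99) / 100) hn _ _ (fun p hp => ?_) ?_ ?_ ?_
    (fun i hi => ?_) (fun p hp => ?_) (fun i hi => ?_) (fun p hp => ?_) (by rw [card_map]; omega)
  · simp only [Multiset.map_add, mem_add, mem_map] at hp
    have := len_le 7 p.2
    rcases hp with ⟨y, h, rfl⟩ | ((⟨y, h, rfl⟩ | ⟨y, h, rfl⟩) | h | h) | h
    · have := hK1 y h; dsimp only at *; omega
    · have := hK2 y h; dsimp only at *; omega
    · have := hH y h; dsimp only at *; omega
    · have := hT p h; omega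
    · have := hC p h; omega
    · exact (p2 p h).1
  · rw [Multiset.map_map]; exact f1
  · have : Pc.map (fun p => p.1 - len 7 p.2) =
        Q0.map (fun p => p.1 - p.2) + QR.map fun p => p.1 - p.2 := by
      rw [← Multiset.map_add, ← e5, Multiset.map_map]; rfl
    rw [Multiset.map_add _ _ Pc, Multiset.map_add _ _ (PT + PC), Multiset.map_map, this,
      ← add_assoc]
    exact (congrArg (fun V => FE n (V + _)) e3).mpr (add_assoc V3 _ _ ▸ f3.add f4)
  · rw [e6]
    simpa only [sum_add] using hs
  · have := t5 i hi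
    have := t6 i hi
    simp only [countP_add, cm, countP_True, p3 i hi]
    omega
  · simp only [Multiset.map_add, mem_add, mem_map] at hp
    rcases hp with ⟨y, h, rfl⟩ | ((⟨y, h, rfl⟩ | ⟨y, h, rfl⟩) | h | h) | h
    · simp
    · simp
    · simp
    · have := hT p h; omega
    · have := hC' p h; omega
    · have := (p2 p h).2; omega
  · rw [← t7 i hi]
    simp only [countP_add, cm, not_true, and_false, countP_False]
    rw [countP_eq_zero (s := PC) |>.2 fun p h e => by have := hC' p h; omega,
      countP_eq_zero (s := Pc) |>.2 fun p h e => by have := (p2 p h).2; omega]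
    simp only [zero_add, add_zero]
    exact countP_congr rfl fun p h => by
      have := hT p h
      exact propext (and_iff_right (by omega))
  · obtain ⟨y, h, rfl⟩ := mem_map.1 hp
    have := hK1 y h
    have := hK1' y h
    simp only [l7]
    omega

theorem good_windows {m q l : ℕ} (ν : Multiset ℕ) (hm : 2000 ≤ m) (hl : Nat.log 2 m < l)
    (hle : ∀ x ∈ ν, x ≤ m) (h8 : 8 ∣ card ν) (hs : ν.sum = m * (4 * q))
    (hbot : 70000 * l ≤ ν.countP fun x => m ≤ 100 * x ∧ 100 * x ≤ 44 * m)
    (hmid : 70000 * l ≤ ν.countP fun x => 45 * m ≤ 100 * x ∧ 100 * x ≤ 55 * m)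
    (htop : 70000 * l ≤ ν.countP fun x => 56 * m ≤ 100 * x ∧ 100 * x ≤ 99 * m) :
    Good m (4 * q) ν := by
  obtain ⟨n, rfl⟩ : ∃ n, m = n + 7 := ⟨m - 7, by omega⟩
  by_cases hA : 2 * ν.countP (fun x => 55 * (n + 7) < 100 * x) + 70000 * l ≤ 8 * q
  · obtain ⟨T, rfl, h⟩ := caseA ν hm hl hle h8 hs hmid htop hA
    exact h.good
  obtain ⟨N, hN⟩ := h8
  have e1 := sum_sub (fun _ => n + 7) id ν hle
  simp only [id, map_id', map_const', sum_replicate, smul_eq_mul, hs, hN] at e1
  have hq : q ≤ 2 * N := Nat.le_of_mul_le_mul_left (c := n + 7) 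
    (by linarith [Nat.zero_le (ν.map fun x => n + 7 - x).sum]) (by omega)
  obtain ⟨q', hq'⟩ := Nat.exists_eq_add_of_le hq
  have cm : ∀ (p : ℕ → Prop) [DecidablePred p], (ν.map (n + 7 - ·)).countP p =
      ν.countP fun x => p (n + 7 - x) := fun p _ => by rw [countP_map, countP_eq_card_filter]
  have mono : ∀ (p p' : ℕ → Prop) [DecidablePred p] [DecidablePred p'],
      (∀ x ≤ n + 7, p x → p' x) → ν.countP p ≤ ν.countP p' := fun p p' _ _ h => by
    have := countP_lin ν p (fun x => p' x ∧ ¬ p x) p' (fun _ => False) fun x hx => by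
      have := h x (hle x hx)
      by_cases p x <;> by_cases p' x <;> simp_all
    rw [countP_False] at this
    omega
  obtain ⟨T, e, h⟩ := caseA (q := q') (ν.map (n + 7 - ·)) hm hl
    (fun x hx => by obtain ⟨y, _, rfl⟩ := mem_map.1 hx; omega) (by simp [hN]) (by nlinarith)
    (by rw [cm]; exact hmid.trans (mono _ _ fun x _ _ => by omega))
    (by rw [cm]; exact hbot.trans (mono _ _ fun x _ _ => by omega)) (by
      have a1 := countP_lin ν (fun x => 55 * (n + 7) < 100 * (n + 7 - x))
        (fun x => 45 * (n + 7) ≤ 100 * x) (fun _ => True) (fun _ => False) fun x hx => by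
          have := hle x hx
          simp only [if_true, if_false]
          split_ifs <;> omega
      have a2 := countP_lin ν (fun x => 55 * (n + 7) < 100 * x)
        (fun x => 45 * (n + 7) ≤ 100 * x ∧ 100 * x ≤ 55 * (n + 7))
        (fun x => 45 * (n + 7) ≤ 100 * x) (fun _ => False) fun x hx => by
          simp only [if_false]
          split_ifs <;> omega
      simp only [countP_True, countP_False] at a1 a2
      rw [cm]
      omega)
  have hc : card T = 8 * N := by rw [← hN, ← card_map (len (n + 7)), e, card_map]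
  have := (h.compl (hc ▸ ⟨4 * N, by ring⟩)).good
  rw [hc, show 8 * N - 4 * q' = 4 * q by omega, Multiset.map_map] at this
  convert this using 1
  have e' := congrArg (Multiset.map (n + 7 - ·)) e
  rw [Multiset.map_map, Multiset.map_map, map_congr rfl (g := id) (t := ν) fun x hx => by
    have := hle x hx
    simp only [Function.comp_apply, id]
    omega, map_id] at e'
  rw [← e']
  exact map_congr rfl fun c _ => (len_not _ _).symm

end MP7ebc2a.AA
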