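import Pool.Agent.Lib.AA25.All
import Pool.Agent.Lib.AA25.W4
import Pool.Agent.Lib.AA25.W7

/-! All degrees `d ≥ 4`: definitions and block statements in the column picture. -/

namespace MP7ebc2a.AA
open Finset

/-- the rules for multisets of column lengths -/
structure St_CC : Prop where
  zero : ∀ m d (ν μ : Multiset ℕ), ν.filter (· ≠ 0) = μ.filter (· ≠ 0) → GC m d ν → GC m d μ
  sum : ∀ m d ν, GC m d ν → ν.sum = m * d
  pad : ∀ m d k ν, GC m (d + k) (ν + Multiset.replicate k m) → GC m d ν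
  plus : ∀ m d d' ν ν', GC m d ν → GC m d' ν' → GC m (d + d') (ν + ν')
  box : ∀ m m' d ν ν', Even d → GC m d ν → GC m' d ν' → GC (m + m') d (ν + ν')
  pairs : ∀ m q (F : Multiset ℕ), (∀ x ∈ F, x ≤ m) → F.sum = m * q → GC m (2 * q) (F + F)
  good : ∀ m d (ν : Multiset ℕ), 0 < m → Even d → (∀ x ∈ ν, x ≤ m) → Good m d ν → GC m d ν
  stack : ∀ m m' d (P : Multiset (ℕ × ℕ)), Chain P → GC m d (P.map Prod.fst) →
    GC m' d (P.map Prod.snd) → GC (m + m') d (P.map fun x => x.1 + x.2)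
  win : ∀ m d l (ν : Multiset ℕ), 2000 ≤ m → Nat.log 2 m < l → (∀ x ∈ ν, x ≤ m) →
    ν.sum = m * d → 70000 * l ≤ ν.countP (fun x => m ≤ 100 * x ∧ 100 * x ≤ 44 * m) →
    70000 * l ≤ ν.countP (fun x => 45 * m ≤ 100 * x ∧ 100 * x ≤ 55 * m) →
    70000 * l ≤ ν.countP (fun x => 56 * m ≤ 100 * x ∧ 100 * x ≤ 99 * m) → GC m d ν
  far : ∀ m d (ν : Multiset ℕ), 5 ≤ m → 216 * m ^ 2 ≤ ν.count 2 → (∀ x ∈ ν, x ≤ m) →
    ν.sum = m * d → GC m d ν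

/-- three and four letters -/
def St_SMALL : Prop := ∀ m d (ν : Multiset ℕ), m = 3 ∨ m = 4 → (∀ x ∈ ν, 0 < x ∧ x ≤ m) →
  ν.sum = m * d → (∀ i, 0 < i → i < m → 20 ≤ ν.count i) → GC m d ν

/-- the columns of two families of pyramids -/
def St_SEEDC : Prop := ∀ p p' K K' e : ℕ, 1 ≤ p' → p' ≤ p → 1 ≤ K →
  GC (K * CP p + K' * CP p' + e) 3 ((K * p + K' * p' + e) ::ₘ
    (Multiset.replicate (AP p' - 1) (K * p + K' * p') + Multiset.replicate (AP p - AP p') (K * p) +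
      Multiset.replicate (2 * e) 1))

structure St_SUP : Prop where
  half : ∀ M : Multiset ℕ, ∃ D P, M = D + (P + P) ∧ ∀ H a b, df (H / 2) a b P ≤ df H a b M
  /-- two elements at a given distance -/
  two : ∀ H z e (M : Multiset ℕ), 2 ≤ z → e ≤ z → 60 * z ≤ H →
    1000 * df H (28 * z) (30 * z) M < H →
    ∃ x, Even x ∧ 28 * z ≤ x ∧ x ≤ 29 * z ∧ (x + e) ::ₘ {x} ≤ M
  /-- a given total from few elements that are at most `r` -/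
  fill : ∀ h H r D (P : Multiset ℕ), 10 ^ 6 ≤ h → h ^ 96 ≤ 5 * H →
    df H 1 (20 * h ^ 94) P ≤ 10 * h ^ 95 → D = 0 ∨ 4 * r ≤ D → D ≤ r * h ^ 10 → D ≤ h ^ 187 →
    ∃ F ≤ P, F.sum = D ∧ F.card ≤ 2 * h ^ 93 ∧ ∀ f ∈ F, f ≤ r

/-- every family of sets with sizes `Y` can be replaced by a family with sizes `U` that has the
same intersection parities and `g` times the degrees -/
def Rz (m g : ℕ) (Y U : Multiset ℕ) : Prop := ∀ T0 : Multiset Col, T0.map (len m) = Y →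
  ∃ T : Multiset Col, T.map (len m) = U ∧
    (∀ a b, (T.countP fun c => c a = true ∧ c b = true) % 2 =
      (T0.countP fun c => c a = true ∧ c b = true) % 2) ∧
    ∀ j, T.countP (fun c => c j = true) = g * T0.countP fun c => c j = true

structure St_RZ : Prop where
  nil : ∀ m g, Rz m g 0 0
  add : ∀ m g Y U Y' U', Rz m g Y U → Rz m g Y' U' → Rz m g (Y + Y') (U + U')
  trans : ∀ m g g' Y U W, Rz m g Y U → Rz m g' U W → Rz m (g' * g) Y W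
  fano : ∀ m v (U : Multiset ℕ), U.card = 7 → U.sum = 3 * v →
    (∀ y ∈ U, y % 2 = v % 2 ∧ v ≤ 3 * y) → Rz m 3 {v} U
  kk : ∀ m c k, 0 < k → Even k → ∃ Y : Multiset ℕ, Y.card ≤ k ^ 2 ∧
    (∀ y ∈ Y, 2 * (c / k) ≤ y ∧ y ≤ 2 * (c / k) + 2) ∧ Rz m (k - 1) {c} Y
  fin : ∀ c g U, Rz c g {c} U → (∀ x ∈ U, x ≤ c) ∧ Good c (g + 1) (c ::ₘ U)

def St_QUAD : Prop := ∀ m σ q (V Q : Multiset ℕ), 0 < m → Fil m σ V → (∀ x ∈ Q, x ≤ m) →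
  σ + Q.sum = m * q → GC m (4 * q) (V + (Q + Q + (Q + Q)))

/-- one long column -/
def St_LONG : Prop := ∀ h m c (M : Multiset ℕ), 10 ^ 6 ≤ h → 20 * h ^ 94 < c → c ≤ m →
  c ≤ h ^ 103 → m ≤ h ^ 177 → df (h ^ 96) 1 (20 * h ^ 94) M ≤ 4 * h ^ 95 →
  ∃ U ≤ M, U.card ≤ 5 * h ^ 93 ∧ ∃ g, Even g ∧ GC m g (c ::ₘ U)

/-- few short columns -/
def St_BIN : Prop := ∀ h m (S P : Multiset ℕ), 10 ^ 6 ≤ h → h ^ 100 ≤ m → m ≤ h ^ 177 →
  Nat.log 2 m < h → S.card ≤ 896 * h → (∀ x ∈ S, x ≤ 20 * h ^ 94) → Even S.sum →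
  df (h ^ 96 / 2) 1 (20 * h ^ 94) P ≤ 5 * h ^ 95 → ∃ F ≤ P, ∃ g, Even g ∧ GC m g (S + (F + F))

def St_FARE : Prop := ∀ h m d (ν : Multiset ℕ), 10 ^ 6 ≤ h → Even d → h ^ 100 ≤ m →
  m ≤ h ^ 177 → Nat.log 2 m < h → (∀ x ∈ ν, x ≤ m ∧ x ≤ h ^ 103) → ν.sum = m * d →
  df (h ^ 96) 1 (h ^ 96) ν ≤ 2 * h ^ 95 → GC m d ν

/-- two stacked bins of degree seven -/
def St_ODDC : Prop := ∀ H p p' b b' κ K' e (ν : Multiset ℕ), 1 ≤ p' → p' ≤ p → AP p = 12 * b →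
  AP p' = 12 * b' → 1 ≤ κ → 10 * b' ≤ b → K' * p' + e ≤ κ * p → 60 * (κ * p) ≤ H →
  1000 * (df H 1 (30 * (κ * p)) ν + 200 * b + 2 * e) ≤ H →
  ∃ μ ≤ ν, μ.card ≤ 200 * b + 2 * e ∧ GC (80 * (κ * p * b) + K' * (4 * (p' * b')) + e) 7 μ

def St_ODDG : Prop := ∀ h m (ν : Multiset ℕ), 10 ^ 6 ≤ h → h ^ 100 ≤ m → m ≤ h ^ 177 →
  df (h ^ 96) 1 (h ^ 96) ν ≤ h ^ 95 → ∃ μ ≤ ν, μ.card ≤ h ^ 95 ∧ GC m 7 μ

def St_FAR : Prop := ∀ h m d (ν : Multiset ℕ), 10 ^ 6 ≤ h → h ^ 100 ≤ m →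
  m ≤ h ^ 177 → Nat.log 2 m < h → (∀ x ∈ ν, x ≤ m ∧ x ≤ h ^ 103) → ν.sum = m * d →
  df (h ^ 96) 1 (h ^ 96) ν ≤ h ^ 95 → GC m d ν

def St_ODD2 : Prop := ∀ h d m (s : Multiset ℕ), Odd d → 20 ≤ d → d ≤ h ^ 24 → 10000 ≤ h →
  5 ^ h * h ^ 101 < 6 ^ h → harmonic (h ^ 101) ≤ h → Typ h s → s.sum = m * d → GD d s

def St_EVEN2 : Prop := ∀ h d m (s : Multiset ℕ), Even d → 4 ≤ d → d ≤ h ^ 24 → 10000 ≤ h →
  harmonic (h ^ 101) ≤ h → Typ h s → df (h ^ 70) 1 (h ^ 70) s ≤ h ^ 43 → s.sum = m * d → GD d s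

/-- partitions of `n` into parts that are at most `m` -/
def PM (n m : ℕ) : Finset (Nat.Partition n) := univ.filter fun l => ∀ x ∈ l.parts, x ≤ m

def St_LOW : Prop := ∀ n m b, 1 ≤ b → b ≤ m → (n / b ^ 2 + 1) ^ (b - 1) ≤ (PM n m).card

def St_P4 : Prop := ∃ h0 : ℕ, ∀ h ≥ h0, ∀ n m H D, h ^ 200 ≤ n → h ^ 100 ≤ m → H ≤ h ^ 96 →
  0 < D → H ^ 2 * h ^ 2 ≤ D * h ^ 99 →
  h * ((PM n m).filter fun l => D < df H 1 H l.parts).card ≤ 2 * (PM n m).card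

open Classical in
def St_P5 : Prop := ∀ m t r, 2 ≤ m → ∃ n0, ∀ n ≥ n0,
  r * ((PM n m).filter fun l => ∃ i, 0 < i ∧ i < m ∧ l.parts.count i < t).card ≤ (PM n m).card

/-- the dominant weights -/
def Wt (m n : ℕ) : Finset (Fin m → ℕ) := (piAntidiag univ n).filter fun lam => Antitone lam

open Classical in
/-- the dominant weights without an invariant -/
noncomputable def Bad (m n : ℕ) : Finset (Fin m → ℕ) :=
  (piAntidiag univ n).filter fun lam => Antitone lam ∧ ¬ HasInv lam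

open Classical in
structure St_TRF : Prop where
  colB : ∀ m d, (Bad m (d * m)).card ≤ ((PM (d * m) m).filter fun l => ¬ GC m d l.parts).card
  colA : ∀ m n, (PM n m).card ≤ (Wt m n).card
  rowB : ∀ m d, 0 < d → (Bad m (d * m)).card ≤
    (univ.filter fun l : Nat.Partition (d * m) => ¬ GD d l.parts).card
  rowA : ∀ m n, (univ.filter fun l : Nat.Partition n => l.parts.card ≤ m).card ≤ (Wt m n).card

def St_FINA : Prop := ∀ ε : ℝ, 0 < ε → ∃ M : ℕ, ∀ m ≥ M, ∀ d, 4 ≤ d →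
  ((Bad m (d * m)).card : ℝ) ≤ ε * (Wt m (d * m)).card

def St_FIN2 : Prop := ∀ ε : ℝ, 0 < ε → ∃ N : ℕ, ∀ m d, 3 ≤ m → 4 ≤ d → N ≤ d * m →
  ((Bad m (d * m)).card : ℝ) ≤ ε * (Wt m (d * m)).card

section pw
variable {h d : ℕ}

lemma n0 (hh : 10 ^ 6 ≤ h) (a b : ℕ) (hab : a < b) : 1000000 * h ^ a ≤ h ^ b :=
  calc 1000000 * h ^ a ≤ h * h ^ a := Nat.mul_le_mul_right _ (by omega)
    _ = h ^ (a + 1) := by ring
    _ ≤ h ^ b := Nat.pow_le_pow_right (by omega) hab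

lemma k0 (hh : 10000 ≤ h) (a b : ℕ) (hab : a < b) : 10000 * h ^ a ≤ h ^ b :=
  m0 (d := 1) (by omega) le_rfl a b hab

lemma k1 (hh : 10000 ≤ h) (hd : d ≤ h ^ 24) (a b : ℕ) (hab : a + 24 < b) :
    10000 * (d * h ^ a) ≤ h ^ b :=
  le_trans (Nat.mul_le_mul_left _ ((Nat.mul_le_mul_right _ hd).trans_eq (by ring)))
    (k0 hh (a + 24) b hab)

lemma k2 (hh : 10000 ≤ h) (d a b : ℕ) (hab : a < b) : 10000 * (d * h ^ a) ≤ d * h ^ b := by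
  rw [mul_left_comm]
  exact Nat.mul_le_mul_left _ (k0 hh a b hab)

lemma k3 (hh : 10000 ≤ h) (h1 : 1 ≤ d) (a b : ℕ) (hab : a < b) : 10000 * h ^ a ≤ d * h ^ b :=
  (k0 hh a b hab).trans (Nat.le_mul_of_pos_left _ h1)

end pw

end MP7ebc2a.AA
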