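import Pool.Agent.Lib.AA25.All2

/-! Degree three: definitions and block statements. -/

namespace MP7ebc2a.AA
open Equiv Finset

/-! ### values of fillings -/

/-- alternating, and zero on the triples with two entries below `c` -/
def Alt {R : Type} [CommRing R] (c : ℕ) (ω : (Fin 3 → ℕ) → R) : Prop :=
  (∀ (σ : Perm (Fin 3)) (t : Fin 3 → ℕ),
    ω (fun k => t (σ k)) = (((Perm.sign σ : ℤˣ) : ℤ) : R) * ω t) ∧
    ∀ (t : Fin 3 → ℕ) (k k' : Fin 3), k ≠ k' → t k < c → t k' < c → ω t = 0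

/-- the value of a filling; `u` is the position of a box in its row, `v` is its row -/
def Ev {R β α κ : Type} [CommRing R] [Fintype β] [DecidableEq β] [Fintype α] [DecidableEq κ]
    (u : β → ℕ) (v : β → κ) (ω : (Fin 3 → ℕ) → R) (τ : β ≃ α × Fin 3) : R :=
  ∑ g : Perm β with ∀ x, v (g x) = v x,
    (((Perm.sign g : ℤˣ) : ℤ) : R) * ∏ j, ω fun k => u (g (τ.symm (j, k)))

/-- every letter has at most one box with property `p` -/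
def One {β α : Type} (p : β → Prop) (τ : β ≃ α × Fin 3) : Prop :=
  ∀ j k k', p (τ.symm (j, k)) → p (τ.symm (j, k')) → k = k'

def FB (c : ℕ) (β α : Type) [Fintype β] [DecidableEq β] [Fintype α] {κ : Type} [DecidableEq κ]
    (u : β → ℕ) (v : β → κ) (p : β → Prop) : Prop :=
  ∃ (τ : β ≃ α × Fin 3) (ω : (Fin 3 → ℕ) → ℤ), Alt c ω ∧ Ev u v ω τ ≠ 0 ∧ One p τ

/-- a family with arms `E` and output rows `O` -/
def AR (c : ℕ) (E O : Multiset ℕ) : Prop :=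
  ∃ (n n' m : ℕ) (t : Fin n → ℕ) (o : Fin n' → ℕ), univ.val.map t = E ∧ univ.val.map o = O ∧
    FB c (Bx (Sum.elim o t)) (Fin m) (fun x => (x.2 : ℕ)) (fun x => x.1) fun x => x.1.isRight = true

def fs (P : Multiset (ℕ × ℕ)) : Multiset ℕ := P.map Prod.fst
def sn (P : Multiset (ℕ × ℕ)) : Multiset ℕ := P.map Prod.snd
def tot (P : Multiset (ℕ × ℕ)) : Multiset ℕ := P.map fun p => p.1 + p.2

structure St_EV : Prop where
  map : ∀ {R R' β α κ : Type} [CommRing R] [CommRing R'] [Fintype β] [DecidableEq β] [Fintype α]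
    [DecidableEq κ] (f : R →+* R') (u : β → ℕ) (v : β → κ) (ω : (Fin 3 → ℕ) → R)
    (τ : β ≃ α × Fin 3), f (Ev u v ω τ) = Ev u v (fun t => f (ω t)) τ
  spec : ∀ {β α κ : Type} [Fintype β] [DecidableEq β] [Fintype α] [DecidableEq κ] (c : ℕ)
    (u : β → ℕ) (v : β → κ) (ω : (Fin 3 → ℕ) → Polynomial ℤ) (τ : β ≃ α × Fin 3), Alt c ω →
    Ev u v ω τ ≠ 0 → ∃ ω' : (Fin 3 → ℕ) → ℤ, Alt c ω' ∧ Ev u v ω' τ ≠ 0
  tr : ∀ {β β' α α' κ κ' : Type} [Fintype β] [DecidableEq β] [Fintype α] [DecidableEq κ]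
    [Fintype β'] [DecidableEq β'] [Fintype α'] [DecidableEq κ'] (c : ℕ) (u : β → ℕ) (v : β → κ)
    (p : β → Prop) (u' : β' → ℕ) (v' : β' → κ') (p' : β' → Prop) (e : β ≃ β') (_ : α ≃ α'),
    (∀ x, u' (e x) = u x) → (∀ x y, v x = v y ↔ v' (e x) = v' (e y)) → (∀ x, p' (e x) → p x) →
    FB c β α u v p → FB c β' α' u' v' p'
  prod : ∀ {β β' α α' κ κ' : Type} [Fintype β] [DecidableEq β] [Fintype α] [DecidableEq κ]
    [Fintype β'] [DecidableEq β'] [Fintype α'] [DecidableEq κ'] (c : ℕ) (u : β → ℕ) (v : β → κ)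
    (p : β → Prop) (u' : β' → ℕ) (v' : β' → κ') (p' : β' → Prop), FB c β α u v p →
    FB c β' α' u' v' p' → FB c (β ⊕ β') (α ⊕ α') (Sum.elim u u') (Sum.map v v') (Sum.elim p p')
  gh : ∀ {β α κ : Type} [Fintype β] [DecidableEq β] [Fintype α] [DecidableEq α] [DecidableEq κ]
    (c : ℕ) (u : β → ℕ) (v : β → κ) (p : β → Prop), FB c β α u v p → GH β α u v 3 0 1

/-- values that differ inside every row have at least the sum of the positions -/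
def St_INJ : Prop := ∀ {κ : Type} [Fintype κ] [DecidableEq κ] (a : κ → ℕ) (P : Bx a → ℕ),
  (∀ x y, x.1 = y.1 → P x = P y → x = y) → ∑ x : Bx a, (x.2 : ℕ) ≤ ∑ x, P x ∧
    (∑ x, P x = ∑ x : Bx a, (x.2 : ℕ) →
      ∃ g : Perm (Bx a), (∀ x, (g x).1 = x.1) ∧ ∀ x, P x = (g x).2)

def St_SHIFT : Prop := ∀ {κ α : Type} [Fintype κ] [DecidableEq κ] [Fintype α] (a b : κ → ℕ) (c : ℕ)
  (τ : Bx b ≃ α × Fin 3) (ω : (Fin 3 → ℕ) → ℤ), Alt c ω →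
    Ev (fun x : Bx b => (x.2 : ℕ)) (fun x => x.1) ω τ ≠ 0 →
    ∃ ω' : (Fin 3 → ℕ) → ℤ, Alt c ω' ∧ Ev (fun x : Bx b => a x.1 + x.2) (fun x => x.1) ω' τ ≠ 0

def St_ADD : Prop := ∀ {κ α α' : Type} [Fintype κ] [DecidableEq κ] [Fintype α] [Fintype α']
  (a b : κ → ℕ) (S : κ → Prop) (c c' : ℕ), c' ≤ c → (∀ r, S r → a r + b r ≤ c) →
    FB c (Bx a) α (fun x => (x.2 : ℕ)) (fun x => x.1) (fun _ => False) →
    FB c' (Bx b) α' (fun x => (x.2 : ℕ)) (fun x => x.1) (fun x => ¬ S x.1) →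
    FB c' (Bx fun r => a r + b r) (α ⊕ α') (fun x => (x.2 : ℕ)) (fun x => x.1) fun _ => False

def St_REAL : Prop := ∀ {J J' : Type} [Fintype J] [DecidableEq J] [Fintype J'] [DecidableEq J']
  (c : ℕ) (t : J → ℕ) (o : J' → ℕ), AR c (univ.val.map t) (univ.val.map o) ↔
    ∃ m, FB c (Bx (Sum.elim o t)) (Fin m) (fun x => (x.2 : ℕ)) (fun x => x.1)
      fun x => x.1.isRight = true

structure St_AR : Prop where
  zero : ∀ c k k', AR c (Multiset.replicate k 0) (Multiset.replicate k' 0)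
  add : ∀ c E O E' O', AR c E O → AR c E' O' → AR c (E + E') (O + O')
  mono : ∀ c c' E O, c' ≤ c → AR c E O → AR c' E O
  gd : ∀ c M, AR c 0 M → GD 3 M
  drop : ∀ c E O, AR c E O → AR c 0 (E + O)
  join : ∀ c c' P O, c' ≤ c → AR c 0 (fs P) → AR c' (sn P) O → (∀ o ∈ O, o ≤ c) →
    AR c' 0 (tot P + O)

/-! ### pyramids with arms -/

/-- from functions that are symmetric in the rows `r`; `k` is the column -/
def St_DUAL3 : Prop := ∀ {β α ι : Type} [Fintype β] [DecidableEq β] [Fintype α] [DecidableEq α]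
  [DecidableEq ι] (r : β → ι) (k : β → ℕ) (p : β → Prop) (c : ℕ) (φ : (β ≃ α × Fin 3) → ℤ)
  (τ0 : β ≃ α × Fin 3), (∀ g : Perm β, (∀ x, r (g x) = r x) → ∀ τ, φ (g.trans τ) = φ τ) →
    (∀ (w : Perm α) τ, φ (τ.trans (Equiv.prodCongrLeft fun _ : Fin 3 => w)) =
      ((Perm.sign w : ℤˣ) : ℤ) * φ τ) →
    (∀ (σ : α → Perm (Fin 3)) τ, φ (τ.trans (Equiv.prodCongrRight σ)) = φ τ) →
    alt k φ τ0 ≠ 0 → One (fun x => k x < c) τ0 → (∀ τ, φ τ ≠ 0 → One p τ) → FB c β α k r p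

/-- the determinant of the polarised monomials `c i` -/
noncomputable def F3 {α ρ : Type} [Fintype α] [DecidableEq α] (c : α → Fin 3 → ρ)
    (ζ : α × Fin 3 → ρ → ℂ) : ℂ :=
  (Matrix.of fun i j : α => ∑ σ : Perm (Fin 3), ∏ l, ζ (j, σ l) (c i l)).det

/-- its coefficients -/
def f0 {α ρ : Type} [Fintype α] [DecidableEq α] [DecidableEq ρ] (c : α → Fin 3 → ρ)
    (P : α × Fin 3 → ρ) : ℤ :=
  (Matrix.of fun i j : α =>
    (((univ.filter fun σ : Perm (Fin 3) => ∀ l, P (j, σ l) = c i l).card : ℕ) : ℤ)).det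

/-- the monomials are different -/
def Dist {α ρ : Type} (c : α → Fin 3 → ρ) : Prop :=
  ∀ i j, univ.val.map (c i) = univ.val.map (c j) → i = j

/-- the family is closed under lowering the left variables -/
def Cl {α J : Type} {s : ℕ} (c : α → Fin 3 → Fin s ⊕ J) : Prop :=
  ∀ i (t : Fin 3 → Fin s ⊕ J),
    (∀ l, t l = c i l ∨ ∃ a b, t l = .inl a ∧ c i l = .inl b ∧ a ≤ b) →
    ∃ i', univ.val.map (c i') = univ.val.map t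

structure St_PHI : Prop where
  lin : ∀ {α ρ : Type} [Fintype α] [DecidableEq α] [Fintype ρ] [DecidableEq ρ]
    (c : α → Fin 3 → ρ) (ζ : α × Fin 3 → ρ → ℂ),
    F3 c ζ = ∑ P : α × Fin 3 → ρ, (f0 c P : ℂ) * ∏ y, ζ y (P y)
  wt : ∀ {α ρ : Type} [Fintype α] [DecidableEq α] [DecidableEq ρ] (c : α → Fin 3 → ρ)
    (P : α × Fin 3 → ρ), f0 c P ≠ 0 →
    ∃ w : Perm (α × Fin 3), (∀ j l l', (w (j, l)).1 = (w (j, l')).1) ∧
      ∀ y, P y = c (w y).1 (w y).2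
  lett : ∀ {α ρ : Type} [Fintype α] [DecidableEq α] [DecidableEq ρ] (c : α → Fin 3 → ρ)
    (P : α × Fin 3 → ρ) (w : Perm α),
    f0 c (fun y => P (w y.1, y.2)) = ((Perm.sign w : ℤˣ) : ℤ) * f0 c P
  slot : ∀ {α ρ : Type} [Fintype α] [DecidableEq α] [DecidableEq ρ] (c : α → Fin 3 → ρ)
    (P : α × Fin 3 → ρ) (σ : α → Perm (Fin 3)), f0 c (fun y => P (y.1, σ y.1 y.2)) = f0 c P

def St_PINV : Prop := ∀ {α J : Type} [Fintype α] [DecidableEq α] [Fintype J] [DecidableEq J] {s : ℕ}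
  (c : α → Fin 3 → Fin s ⊕ J) (U : Matrix (Fin s) (Fin s) ℂ) (ζ : α × Fin 3 → Fin s ⊕ J → ℂ),
    Dist c → Cl c → (∀ i j, i < j → U i j = 0) → (∀ i, U i i = 1) →
    F3 c (fun y => (Matrix.fromBlocks U 0 0 (1 : Matrix J J ℂ)).mulVec (ζ y)) = F3 c ζ

/-- the highest weight lemma for functions of the rows of different letters -/
def St_HW2 : Prop := ∀ {Y : Type} [Fintype Y] [DecidableEq Y] (M N : ℕ) (ν : Fin N → ℕ)
  (hν : ∀ k, ν k ≤ M) (Θ : (Y → Fin M) → ℤ),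
    (∀ P, Θ P ≠ 0 → ∀ r : Fin M,
      (univ.filter fun y => P y = r).card = (univ.filter fun k => (r : ℕ) < ν k).card) →
    (∀ (U : Matrix (Fin M) (Fin M) ℂ) (Z : Matrix (Fin M) Y ℂ), (∀ i j, i < j → U i j = 0) →
      (∀ i, U i i = 1) →
      ∑ P, (Θ P : ℂ) * ∏ y, (U * Z) (P y) y = ∑ P, (Θ P : ℂ) * ∏ y, Z (P y) y) →
    (∃ P, Θ P ≠ 0) → ∃ e : Bx ν ≃ Y, ∑ g : Perm (Bx ν) with ∀ x, (g x).1 = x.1,
      ((Perm.sign g : ℤˣ) : ℤ) * Θ (fun y => HW.rw hν (g (e.symm y))) ≠ 0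

/-- columns that contain all left rows do not see a unitriangular matrix -/
def St_ALTD : Prop := ∀ {B J : Type} [Fintype B] [DecidableEq B] [Fintype J] [DecidableEq J] {s : ℕ}
  (r : B → Fin s ⊕ J) (k : B → ℕ) (U : Matrix (Fin s) (Fin s) ℂ) (H : (B → Fin s ⊕ J) → ℂ),
    (∀ x y, r x = r y → k x = k y → x = y) → (∀ x a, ∃ y, k y = k x ∧ r y = .inl a) →
    (∀ i j, i < j → U i j = 0) → (∀ i, U i i = 1) →
    ∑ g : Perm B with ∀ x, k (g x) = k x, (((Perm.sign g : ℤˣ) : ℤ) : ℂ) *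
        ∑ P : B → Fin s ⊕ J,
          H P * ∏ x, Matrix.fromBlocks U 0 0 (1 : Matrix J J ℂ) (P x) (r (g x)) =
      ∑ g : Perm B with ∀ x, k (g x) = k x, (((Perm.sign g : ℤˣ) : ℤ) : ℂ) * H fun x => r (g x)

/-- the coefficients after the first columns are filled -/
def Th {α J B Y : Type} [Fintype α] [DecidableEq α] [DecidableEq J] [Fintype B] [DecidableEq B]
    {s : ℕ} (c : α → Fin 3 → Fin s ⊕ J) (e : B ⊕ Y ≃ α × Fin 3) (r : B → Fin s ⊕ J) (k : B → ℕ)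
    (P : Y → Fin s) : ℤ :=
  ∑ g : Perm B with ∀ x, k (g x) = k x, ((Perm.sign g : ℤˣ) : ℤ) *
    f0 c fun y => Sum.elim (fun x => r (g x)) (fun y' => .inl (P y')) (e.symm y)

structure St_TH : Prop where
  inv : ∀ {α J B Y : Type} [Fintype α] [DecidableEq α] [Fintype J] [DecidableEq J] [Fintype B]
    [DecidableEq B] [Fintype Y] [DecidableEq Y] {s : ℕ} (c : α → Fin 3 → Fin s ⊕ J)
    (e : B ⊕ Y ≃ α × Fin 3) (r : B → Fin s ⊕ J) (k : B → ℕ) (U : Matrix (Fin s) (Fin s) ℂ)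
    (Z : Matrix (Fin s) Y ℂ), Dist c → Cl c → (∀ x y, r x = r y → k x = k y → x = y) →
    (∀ x a, ∃ y, k y = k x ∧ r y = .inl a) → (∀ i j, i < j → U i j = 0) → (∀ i, U i i = 1) →
    ∑ P, (Th c e r k P : ℂ) * ∏ y, (U * Z) (P y) y = ∑ P, (Th c e r k P : ℂ) * ∏ y, Z (P y) y
  wt : ∀ {α J B Y : Type} [Fintype α] [DecidableEq α] [DecidableEq J] [Fintype B]
    [DecidableEq B] [Fintype Y] {s : ℕ} (c : α → Fin 3 → Fin s ⊕ J)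
    (e : B ⊕ Y ≃ α × Fin 3) (r : B → Fin s ⊕ J) (k : B → ℕ) (P : Y → Fin s), Th c e r k P ≠ 0 →
    ∀ a, (univ.filter fun y => P y = a).card + (univ.filter fun x => r x = .inl a).card =
      (univ.filter fun y : α × Fin 3 => c y.1 y.2 = .inl a).card

/-- the products of the row variables with the quadrics `q`, and the unused monomials, are
independent -/
def Ind {α J B : Type} [Fintype B] [DecidableEq α] [DecidableEq J] {s : ℕ}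
    (c : α → Fin 3 → Fin s ⊕ J) (f : B → α) (r : B → Fin s ⊕ J) (k : B → ℕ)
    (q : ℕ → Fin s → Fin s → ℚ) : Prop :=
  ∀ v : α → ℚ, (∀ i, ∑ x, v (f x) * (∑ a, ∑ b,
      if univ.val.map (c i) = {r x, Sum.inl a, Sum.inl b} then q (k x) a b else 0) +
    (if ∀ x, f x ≠ i then v i else 0) = 0) → v = 0

def St_NZ : Prop := ∀ {α J B Y : Type} [Fintype α] [DecidableEq α] [DecidableEq J] [Fintype B]
  [DecidableEq B] {s : ℕ} (c : α → Fin 3 → Fin s ⊕ J) (e : B ⊕ Y ≃ α × Fin 3) (f : B → α)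
  (r : B → Fin s ⊕ J) (k : B → ℕ) (q : ℕ → Fin s → Fin s → ℚ), Dist c →
    (∀ x, e (.inl x) = (f x, 0)) → (∀ i, (∀ x, f x ≠ i) → ∀ l, ∃ a, c i l = .inl a) →
    Ind c f r k q → ∃ P, Th c e r k P ≠ 0

def St_JET : Prop := ∀ {α J : Type} [Fintype α] [DecidableEq α] [Fintype J] [DecidableEq J]
  (s n : ℕ) (c : α → Fin 3 → Fin s ⊕ J) (lam : Fin s ⊕ J → ℕ)
  (f : Bx (fun r => min (lam r) n) → α) (q : ℕ → Fin s → Fin s → ℚ), Dist c → Cl c →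
    (∀ r, (univ.filter fun y : α × Fin 3 => c y.1 y.2 = r).card = lam r) →
    (Antitone fun a => lam (.inl a)) → (∀ a, n ≤ lam (.inl a)) → (∀ j, lam (.inr j) ≤ n) →
    (∀ i l l', (c i l).isRight = true → (c i l').isRight = true → l = l') →
    Function.Injective f → (∀ i, (∀ x, f x ≠ i) → ∀ l, ∃ a, c i l = .inl a) →
    Ind c f (fun x => x.1) (fun x => (x.2 : ℕ)) q →
    FB n (Bx lam) α (fun x => (x.2 : ℕ)) (fun x => x.1) fun x => x.1.isRight = true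

/-- quadrics without linear relations whose first members are independent on given sets -/
def St_QUADS : Prop := ∀ {J : Type} [Fintype J] (s n : ℕ) (G : J → Finset (Fin s × Fin s)),
  n ≤ (s / 2 + 1).choose 2 → (∀ j, ∀ e ∈ G j, e.1 ≤ e.2) → (∀ j, (G j).card ≤ n) →
  ∃ (q : ℕ → Fin s → Fin s → ℚ) (π : Fin s × Fin n → Sym (Fin s) 3), Function.Injective π ∧
    (∀ k a b, b < a → q k a b = 0) ∧
    (∀ v : Sym (Fin s) 3 → ℚ, (∀ S : Sym (Fin s) 3, ∑ x : Fin s × Fin n, v (π x) * (∑ a, ∑ b,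
        if S.1 = {x.1, a, b} then q x.2 a b else 0) + (if ∀ x, π x ≠ S then v S else 0) = 0) →
      v = 0) ∧
    ∀ j (v : Fin (G j).card → ℚ), (∀ e ∈ G j, ∑ k, v k * q k e.1 e.2 = 0) → v = 0

/-- the degree of a vertex, loops counted twice -/
def dg {s : ℕ} (G : Finset (Fin s × Fin s)) (v : Fin s) : ℕ :=
  (G.filter fun e => e.1 = v).card + (G.filter fun e => e.2 = v).card

def Shifted {s : ℕ} (G : Finset (Fin s × Fin s)) : Prop :=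
  ∀ e ∈ G, e.1 ≤ e.2 ∧ ∀ a b, a ≤ e.1 → b ≤ e.2 → a ≤ b → (a, b) ∈ G

def St_TOOL : Prop := ∀ {J : Type} [Fintype J] [DecidableEq J] (s c : ℕ)
  (G : J → Finset (Fin s × Fin s)), c ≤ (s / 2 + 1).choose 2 →
    (∀ j, Shifted (G j) ∧ Antitone (dg (G j)) ∧ (G j).card ≤ c) →
    AR c (univ.val.map fun j => (G j).card) (univ.val.map fun v => AP s + ∑ j, dg (G j) v)

/-- the graphs with `i` centres -/
def St_GR : Prop := ∀ s i q r : ℕ, i ≤ q → r ≤ i → q < s → ∃ G : Finset (Fin s × Fin s),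
  Shifted G ∧ Antitone (dg G) ∧ G.card + i.choose 2 = i * q + r ∧
    ∀ v : Fin s, ((v : ℕ) < i → q + 1 ≤ dg G v ∧ dg G v ≤ q + 2) ∧ (i ≤ (v : ℕ) → dg G v ≤ i)

/-- the load of an arm -/
def ld (e : ℕ) : ℕ := Nat.sqrt (2 * e) + 2

structure St_TX : Prop where
  cpt : ∀ s c (E : Multiset ℕ), 1 ≤ s → c ≤ (s / 2 + 1).choose 2 → (∀ e ∈ E, e ≤ c) →
    ∃ O : Multiset ℕ, O.card = s ∧ (∀ o ∈ O, AP s ≤ o ∧ o ≤ AP s + (E.map ld).sum) ∧ AR c E O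
  ctr : ∀ s c i (E : Multiset ℕ), 1 ≤ i → i ≤ s → c ≤ (s / 2 + 1).choose 2 →
    (∀ t ∈ E, t ≤ c ∧ i * i ≤ t ∧ t / i + i + 2 ≤ s) →
    ∃ O O' : Multiset ℕ, O.card = i ∧ O'.card = s - i ∧
      (∀ o ∈ O, AP s + (E.map (· / i)).sum ≤ o ∧ o ≤ AP s + (E.map fun t => t / i + i + 2).sum) ∧
      (∀ o ∈ O', AP s ≤ o ∧ o ≤ AP s + i * E.card) ∧ AR c E (O + O')

/-! ### packing -/

/-- below a row of `M` every window of `h` sizes contains a row -/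
def Dens (h lo z : ℕ) (M : Multiset ℕ) : Prop :=
  ∀ u, lo ≤ 2 * u → u + h ≤ z → (∃ y ∈ M, u + h ≤ y) → ∃ x ∈ M, u ≤ x ∧ x < u + h

structure St_UT : Prop where
  pair : ∀ e (O B : Multiset ℕ), O.card = B.card → (∀ o ∈ O, ∀ b ∈ B, o ≤ b ∧ b ≤ o + e) →
    ∃ P, fs P = O ∧ tot P = B ∧ ∀ p ∈ P, p.2 ≤ e
  sel : ∀ e n (O S : Multiset ℕ), O.card ≤ n →
    (∀ o ∈ O, n ≤ (S.filter fun x => o ≤ x ∧ x ≤ o + e).card) →
    ∃ P, fs P = O ∧ tot P ≤ S ∧ ∀ p ∈ P, p.2 ≤ e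
  ldm : Monotone ld
  lds : ∀ ζ (E : Multiset ℕ), ζ * (E.map ld).sum ≤ E.sum + E.card * (ζ * (ζ + 2))
  ldp : ∀ h b (E : Multiset ℕ), 10 ≤ h → (∀ e ∈ E, e ≤ h ^ b) →
    (E.map ld).sum ≤ E.card * h ^ ((b + 1) / 2 + 1)
  cross : ∀ (f : ℕ → ℕ) W a (S : Multiset ℕ), (∀ x ∈ S, f x ≤ W) → a < (S.map f).sum →
    ∃ U ≤ S, (U.map f).sum ≤ a ∧ a < (U.map f).sum + W
  many : ∀ h lo z t k (M : Multiset ℕ), Dens h lo z M → t ≤ z → (∃ y ∈ M, t ≤ y) →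
    lo + 2 * (k * h) ≤ 2 * t → k * h ≤ t →
    k ≤ (M.filter fun x => t ≤ x + k * h ∧ x < t).card
  cP : ∀ lo c s, 200 ≤ lo → 16 * c ≤ lo → lo ≤ 2 * AP (s + 1) → c ≤ (s / 2 + 1).choose 2
  block : ∀ ρ D hi (L : Multiset ℕ), 0 < ρ → 0 < D → (∀ x ∈ L, x ≤ hi) →
    ∃ Bs : Multiset (Multiset ℕ), Bs.sum = L ∧ Bs.card ≤ L.card / ρ + ρ * (hi / D + 1) ∧
      ∀ B ∈ Bs, (B.card = ρ ∨ B.card = 1) ∧ ∀ x ∈ B, ∀ y ∈ B, x ≤ y + D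

def St_STEP : Prop := ∀ c c' s y β Λ n β' (D S : Multiset ℕ) (P : Multiset (ℕ × ℕ)), 1 ≤ s → 0 < y →
  AR c 0 (D + fs P) → (∀ p ∈ P, p.2 ≤ β) → β ≤ c' → c' ≤ (s / 2 + 1).choose 2 → c' ≤ c →
  ((sn P).map ld).sum ≤ Λ → AP s + y + ld β ≤ c → s * (Λ / y + 1) ≤ n →
  (∀ u, AP s ≤ u → u ≤ AP s + y + ld β → n ≤ (S.filter fun x => u ≤ x ∧ x ≤ u + β').card) →
  ∃ P', tot P' ≤ S ∧ P'.card ≤ n ∧ (∀ p ∈ P', p.2 ≤ β') ∧ AR c' 0 (D + tot P + fs P')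

/-- the number of copies of a size that one step may use -/
def mu (h i : ℕ) : ℕ := h ^ 1995 / max i (h ^ 1000)

def Rich (h : ℕ) (G : ℕ → Prop) : Prop :=
  (∀ u, 22 ≤ u → u + h ≤ h ^ 1995 → ∃ i, u ≤ i ∧ i < u + h ∧ G i) ∧
    ∀ i, 22 ≤ i → i ≤ h ^ 3 → G i

def Inv (h r j : ℕ) (G : ℕ → Prop) (M : Multiset ℕ) : Prop :=
  ∀ i, G i → (2 * i < h ^ j ∨ ∃ y ∈ M, i < y) → r * mu h i ≤ M.count i

/-- a part of the supply with `h ^ m` copies of every good size up to `z` -/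
def St_CAP : Prop := ∀ h (G : ℕ → Prop) γ z (M : Multiset ℕ), 2 ≤ h → Rich h G → γ ≤ 1995 →
  z ≤ h ^ γ → (∀ i, G i → i ≤ z → mu h i ≤ M.count i) →
  ∃ S ≤ M, (∀ i, S.count i ≤ mu h i) ∧
    (∀ u k, 22 ≤ u → u + k * h ≤ z → k * h ^ (1995 - max γ 1000) ≤
      (S.filter fun x => u ≤ x ∧ x < u + k * h).card) ∧
    ∀ u, 22 ≤ u → u ≤ h ^ 3 → u ≤ z → h ^ (1995 - max γ 1000) ≤ S.count u

/-- the exponents along a chain of steps -/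
def chk : List ℕ → ℕ → ℕ → ℕ → Bool
  | [], γ, b, l => decide (b ≤ 2 ∧ l ≤ 995 ∧ 4 ≤ γ)
  | g :: gs, γ, b, l =>
    decide (2 * g < γ ∧ b ≤ 2 * g ∧ 2 ≤ g ∧ γ ≤ 1990 ∧
        l + 1 - γ + g + 1 - (1995 - max (γ + 1) 1000) + 1 ≤ γ) &&
      chk gs (2 * g) (l + 1 - γ + g + 1 - (1995 - max (γ + 1) 1000) + 1)
        (l + 1 - γ + g + 1 + (l + 1 - γ + g + 1 - (1995 - max (γ + 1) 1000) + 2) / 2 + 1)

def St_CHAIN : Prop := ∀ h (G : ℕ → Prop) (gs : List ℕ) γ b l (D M : Multiset ℕ)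
  (P : Multiset (ℕ × ℕ)), 10 ^ 6 ≤ h → Rich h G → chk gs γ b l = true →
  AR (h ^ γ) 0 (D + fs P) → (∀ p ∈ P, p.2 ≤ h ^ b) → ((sn P).map ld).sum ≤ h ^ l →
  (∀ i, G i → i ≤ 2 * h ^ γ → (gs.length + 1) * mu h i ≤ M.count i) →
  ∃ U ≤ M, (∀ i, U.count i ≤ (gs.length + 1) * mu h i) ∧ GD 3 (D + tot P + U)

def l0 (j : ℕ) : ℕ := 2002 - (1000 - j) + j / 4 + 4 + (j - 1000) / 10

def St_ZONE : Prop := ∀ h (G : ℕ → Prop) j (D M : Multiset ℕ) (P : Multiset (ℕ × ℕ)), 10 ^ 6 ≤ h →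
  Rich h G → 450 ≤ j → j ≤ 1994 → AR (h ^ min (j - 1) 1840) 0 (D + fs P) →
  (∀ p ∈ P, p.2 ≤ h ^ min (j - 4) 1680) → ((sn P).map ld).sum ≤ h ^ l0 j →
  (∀ i, G i → i ≤ 2 * h ^ min (j - 1) 1840 → 6 * mu h i ≤ M.count i) →
  ∃ U ≤ M, (∀ i, U.count i ≤ 6 * mu h i) ∧ GD 3 (D + tot P + U)

/-- the rows above `lo` are cut into pyramids -/
def St_FORM : Prop := ∀ h lo z w Q c hi (M : Multiset ℕ), (∀ x ∈ M, x ≤ hi) → 2 * hi < Q ^ 2 →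
  Dens h lo z M → lo ≤ z → 2 * ((Q + 1) * h) ≤ lo → (Q + 1) * h ≤ w → 200 ≤ lo → 16 * c ≤ lo →
  ∃ P L M', M = tot P + L + M' ∧ AR c 0 (fs P) ∧ (∀ p ∈ P, p.2 ≤ w + Q + 2) ∧
    (sn P).sum ≤ P.card * (Q + 2) + Q * hi ∧ L.card * w ≤ Q * hi ∧ (hi ≤ z → L = 0) ∧
    (∀ x ∈ M', x < lo) ∧ ∀ x ∈ tot P + L, lo ≤ 2 * x ∧ ∀ y ∈ M', y ≤ x

/-- large rows `B` on top of a pyramid -/
def St_HOST : Prop := ∀ s c i T n D e hi (B R S : Multiset ℕ), 1 ≤ i → i ≤ T → B.card = i →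
  R.card = s - i → 2 * T + i + 2 ≤ s → 2 * (i * T) ≤ c → c ≤ (s / 2 + 1).choose 2 → hi < T * n →
  (∀ x ∈ B, AP s ≤ x ∧ x ≤ hi ∧ ∀ y ∈ B, x ≤ y + D) →
  (∀ x ∈ R, AP s + i * n ≤ x ∧ x ≤ AP s + e) → n ≤ S.card →
  (∀ t ∈ S, i * T ≤ t ∧ t ≤ 2 * (i * T)) →
  ∃ U ≤ S, U.card ≤ n ∧ ∃ P P', tot P = B ∧ tot P' = R ∧ AR c 0 (U + fs (P + P')) ∧
    (∀ p ∈ P, p.2 ≤ D + 2 * T + (i + 2) * (n + 1)) ∧ ∀ p ∈ P', p.2 ≤ e

def St_HOSTS : Prop := ∀ h lo z Q c T ρ n D hi (Bs : Multiset (Multiset ℕ)) (M S S' : Multiset ℕ),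
  1 ≤ ρ → ρ ≤ T → hi < T * n → 2 * (ρ * T) ≤ c → (2 * T + ρ + 2) ^ 2 ≤ c → 200 ≤ lo →
  16 * c ≤ lo → 2 * (ρ * n + (Q + 1) * h) ≤ lo → 2 * z < Q ^ 2 → (∀ x ∈ M, x ≤ z) →
  Dens h lo z M → (∃ y ∈ M, lo + (Bs.card + 1) * ((Q + 1) * h) ≤ y) →
  (∀ B ∈ Bs, (B.card = ρ ∨ B.card = 1) ∧
    ∀ x ∈ B, x ≤ hi ∧ (∀ y ∈ B, x ≤ y + D) ∧ ∀ y ∈ M, y ≤ x) →
  Bs.card * n ≤ S.card → (∀ t ∈ S, T ≤ t ∧ t ≤ 2 * T) →
  Bs.card * n ≤ S'.card → (∀ t ∈ S', ρ * T ≤ t ∧ t ≤ 2 * (ρ * T)) →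
  ∃ U ≤ S, ∃ U' ≤ S', ∃ P P' M', tot P = Bs.sum ∧ M = tot P' + M' ∧
    AR c 0 (U + U' + fs (P + P')) ∧ (∀ p ∈ P, p.2 ≤ D + 2 * T + (ρ + 2) * (n + 1)) ∧
    P'.card ≤ Bs.card * Q ∧ (∀ p ∈ P', p.2 ≤ ρ * n + (Q + 1) * h + Q + 2) ∧
    ∀ x ∈ tot P', lo ≤ x ∧ ∀ y ∈ M', y ≤ x

/-- the discarded rows -/
def St_TOPH : Prop := ∀ h (G : ℕ → Prop) r (L M : Multiset ℕ), 10 ^ 6 ≤ h → Rich h G → 9 ≤ r →
  L.card ≤ h ^ 1333 → (∀ x ∈ L, x ≤ h ^ 2001 ∧ ∀ y ∈ M, y ≤ x) → (∀ x ∈ M, x < h ^ 1994) →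
  Inv h r 1994 G M → ∃ A M', M = A + M' ∧ GD 3 (L + A) ∧ Inv h (r - 8) 1993 G M'

def St_TOP : Prop := ∀ h (G : ℕ → Prop) r (M : Multiset ℕ), 10 ^ 6 ≤ h → Rich h G → 15 ≤ r →
  M.card ≤ h ^ 2002 → (∀ x ∈ M, x ≤ h ^ 2001) → (∀ i, G i → r * mu h i ≤ M.count i) →
  ∃ A M', M = A + M' ∧ GD 3 A ∧ (∀ x ∈ M', x < h ^ 1994) ∧ Inv h (r - 14) 1993 G M'

def St_LOOP : Prop := ∀ h (G : ℕ → Prop) k r (M : Multiset ℕ), 10 ^ 6 ≤ h → Rich h G → k ≤ 1544 →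
  6 * k + 1 ≤ r → M.card ≤ h ^ 2002 → (∀ i, i < h ^ 1000 → M.count i ≤ h ^ 996) →
  (∀ x ∈ M, x < h ^ (450 + k)) → Inv h r (449 + k) G M →
  ∃ A M', M = A + M' ∧ GD 3 A ∧ ∀ x ∈ M', x < h ^ 450

def St_TINY : Prop := ∀ a (W : Multiset ℕ), (∀ x ∈ W, 6 ≤ x) → W.sum + 135 ≤ a → 3 ∣ W.sum →
  GD 3 (W + (Multiset.replicate (6 * a) 1 + Multiset.replicate (4 * a) 6 +
    Multiset.replicate (3 * a) 10 + Multiset.replicate 15 21))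

def Typ3 (h : ℕ) (s : Multiset ℕ) : Prop :=
  (∀ x ∈ s, 0 < x ∧ x ≤ h ^ 2001) ∧ s.card ≤ h ^ 2002 ∧
    (∀ i, 1 ≤ i → i ≤ h ^ 3 → h ^ 1950 ≤ s.count i) ∧
    ∀ u, 22 ≤ u → u + h ≤ h ^ 1995 → ∃ i, u ≤ i ∧ i < u + h ∧ h * mu h i ≤ s.count i

def St_MAIN : Prop := ∀ h (s : Multiset ℕ), 10 ^ 6 ≤ h → Typ3 h s → 3 ∣ s.sum → GD 3 s

/-! ### counting -/

/-- switching: ones are traded for copies of rare parts -/
def St_SW : Prop := ∀ n L T (J : Finset ℕ) (μ : ℕ → ℕ), (∀ i ∈ J, 2 ≤ i) →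
  T * ∑ i ∈ J, μ i * i ≤ L → T ^ J.card * (univ.filter fun l : Nat.Partition n =>
    L ≤ l.parts.count 1 ∧ ∀ i ∈ J, l.parts.count i < μ i).card ≤ pn n

/-- many ones, no long rows, few rows -/
def St_P6 : Prop := ∃ h0 : ℕ, ∀ h ≥ h0, ∀ n, h ^ 4000 ≤ n → n < (h + 1) ^ 4000 →
  h * (univ.filter fun l : Nat.Partition n => ¬ (h ^ 1998 ≤ l.parts.count 1 ∧
    (∀ x ∈ l.parts, x ≤ h ^ 2001) ∧ l.parts.card ≤ h ^ 2002)).card ≤ 3 * pn n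

open Classical in
def St_P7 : Prop := ∃ h0 : ℕ, ∀ h ≥ h0, ∀ n, h ^ 4000 ≤ n → n < (h + 1) ^ 4000 →
  h * (univ.filter fun l : Nat.Partition n => ¬ Typ3 h l.parts).card ≤ 5 * pn n

def St_FIN3 : Prop := ∀ ε : ℝ, 0 < ε → ∃ N : ℕ, ∀ m d, 3 ≤ m → 3 ≤ d → N ≤ d * m →
  ((Bad m (d * m)).card : ℝ) ≤ ε * (Wt m (d * m)).card

end MP7ebc2a.AA
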