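import Pool.Agent.Lib.AA25.Blue2

/-! The rules for multisets of column lengths. -/

namespace MP7ebc2a.AA
open Finset

namespace CC
variable {m d : ℕ} {ν μ : Multiset ℕ}

lemma good_cons : Good m d (0 ::ₘ ν) ↔ Good m d ν := by
  constructor
  · rintro ⟨T, h1, h2, h3⟩
    have h0 : 0 ∈ T.map List.length := h2 ▸ Multiset.mem_cons_self _ _
    obtain ⟨c, hc, l⟩ := Multiset.mem_map.1 h0
    obtain rfl := List.length_eq_zero_iff.1 l
    obtain ⟨U, rfl⟩ := Multiset.exists_cons_of_mem hc
    refine ⟨U, ⟨fun c hc => h1.1 c (Multiset.mem_cons_of_mem hc), fun j hj => ?_⟩, ?_, ?_⟩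
    · simpa using h1.2 j hj
    · simpa using h2
    · simpa [NZ, Psi, D, Dn] using h3
  · intro h
    simpa using (Good.nil m).add h

lemma good_rep (k : ℕ) : Good m d (ν + Multiset.replicate k 0) ↔ Good m d ν := by
  induction k with
  | zero => simp
  | succ k ih => rw [Multiset.replicate_succ, Multiset.add_cons, good_cons, ih]

lemma split (ν : Multiset ℕ) : ν.filter (· ≠ 0) + Multiset.replicate (ν.count 0) 0 = ν := by
  rw [← Multiset.filter_eq', add_comm]
  exact Multiset.filter_add_not _ ν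

lemma good_zero (e : ν.filter (· ≠ 0) = μ.filter (· ≠ 0)) (h : Good m d ν) : Good m d μ := by
  rw [← split ν, good_rep, e] at h
  rw [← split μ, good_rep]
  exact h

lemma zero (e : ν.filter (· ≠ 0) = μ.filter (· ≠ 0)) (h : GC m d ν) : GC m d μ := by
  obtain ⟨h1, k, h2, h3⟩ := h
  refine ⟨fun x hx => ?_, k, h2, good_zero (by rw [Multiset.filter_add, Multiset.filter_add, e]) h3⟩
  by_cases z : x = 0
  · omega
  · exact h1 x (Multiset.mem_filter.1 (e ▸ Multiset.mem_filter.2 ⟨hx, z⟩ : x ∈ ν.filter (· ≠ 0))).1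

lemma rep_le (k : ℕ) {a : ℕ} (ha : a ≤ m) (h : ∀ x ∈ ν, x ≤ m) :
    ∀ x ∈ ν + Multiset.replicate k a, x ≤ m := fun x hx =>
  (Multiset.mem_add.1 hx).elim (h x) fun h => (Multiset.eq_of_mem_replicate h).trans_le ha

/-- conjugating twice changes only zeros -/
lemma cc {M N : ℕ} (h : ∀ x ∈ ν, x ≤ M) (h' : ∀ y ∈ conj ν M, y ≤ N) :
    (conj (conj ν M) N).filter (· ≠ 0) = ν.filter (· ≠ 0) := by
  have r : ∀ k, (Multiset.replicate k 0).filter (· ≠ 0) = 0 := fun k =>
    Multiset.filter_eq_nil.2 fun x hx => by simp [Multiset.eq_of_mem_replicate hx]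
  have r' : ∀ k i : ℕ, (Multiset.replicate k 0).countP (i < ·) = 0 := fun k i =>
    Multiset.countP_eq_zero.2 fun x hx => by simp [Multiset.eq_of_mem_replicate hx]
  have hl : Antitone fun k : Fin M => ν.countP ((k : ℕ) < ·) := fun i j hij => by
    simp only [Multiset.countP_eq_card_filter]
    exact Multiset.card_le_card (Multiset.monotone_filter_right ν fun x h => lt_of_le_of_lt hij h)
  have e : conj (conj ν M) N + Multiset.replicate ν.card 0 = ν + Multiset.replicate N 0 := by
    rw [show conj (conj ν M) N = _ from CH.conj_eq (fun k : Fin M => ν.countP ((k : ℕ) < ·)) N]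
    refine ext_count (m := M) (rep_le _ (Nat.zero_le _) fun x hx => ?_) (rep_le _ (Nat.zero_le _) h)
      (by simp [add_comm]) fun i => ?_
    · obtain ⟨k, -, rfl⟩ := Multiset.mem_map.1 hx
      exact colLen_le _ _
    · rw [Multiset.countP_add, Multiset.countP_add, r', r', countP_univ,
        CH.cnt hl i (h' _ (Multiset.mem_map_of_mem _ (mem_univ_val i)))]
  have := congrArg (Multiset.filter (· ≠ 0)) e
  rwa [Multiset.filter_add, Multiset.filter_add, r, r, add_zero, add_zero] at this

lemma toR (h : GC m d ν) : GR m d (conj ν m) := by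
  have b : ∀ y ∈ conj ν m, y ≤ ν.card := fun y hy => by
    obtain ⟨k, -, rfl⟩ := Multiset.mem_map.1 hy
    exact Multiset.countP_le_card _ _
  exact ⟨_, b, zero (cc h.1 b).symm h⟩

lemma two (hm : 0 < m) : Good m (1 + 1) (Multiset.replicate (1 + 1) m) :=
  CH.dbl (ν := Multiset.replicate 1 m) hm (fun _ hx => (Multiset.eq_of_mem_replicate hx).le) (by simp)

end CC

open CC in
theorem st_CC : St_CC where
  zero _ _ _ _ := zero
  sum m d ν := by
    rintro ⟨-, e, -, h3⟩
    have := good_sum h3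
    rw [Multiset.sum_add, Multiset.sum_replicate, smul_eq_mul] at this
    linarith
  pad m d k ν := by
    rintro ⟨h1, e, h2, h3⟩
    rw [add_assoc ν, ← Multiset.replicate_add, add_assoc d, ← add_assoc k] at h3
    rw [add_assoc d, ← add_assoc k] at h2
    exact ⟨fun x hx => h1 x (Multiset.mem_add.2 (Or.inl hx)), k + e, h2, h3⟩
  plus m d d' ν ν' := by
    rintro ⟨h2, e, h3, h4⟩ ⟨h2', e', h3', h4'⟩
    have a : d + d' + (e + 1 + e' + 1) = d + (e + 1) + (d' + (e' + 1)) := by ring
    refine ⟨fun x hx => (Multiset.mem_add.1 hx).elim (h2 x) (h2' x), e + 1 + e', a ▸ h3.add h3', ?_⟩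
    rw [a, add_assoc (e + 1), Multiset.replicate_add, add_add_add_comm ν]
    exact h4.add h4'
  box m m' d ν ν' hd h2 h2' := by
    have hd := Nat.even_iff.1 hd
    obtain ⟨n, f, rfl, -⟩ := CH.sorted ν id
    obtain ⟨n', f', rfl, -⟩ := CH.sorted ν' id
    have a := fun k => h2.1 _ (Multiset.mem_map_of_mem f (mem_univ_val k))
    have a' := fun k => h2'.1 _ (Multiset.mem_map_of_mem f' (mem_univ_val k))
    rw [← UNION.map_elim]
    refine (UNION.link ?_).2 (UNION.par (UNION.ps (UNION.par ((UNION.link a).1 h2) hd rfl)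
      (UNION.par ((UNION.link a').1 h2') hd rfl)) hd.symm rfl)
    rintro (k | k)
    exacts [(a k).trans (Nat.le_add_right _ _), (a' k).trans (Nat.le_add_left _ _)]
  pairs m q F h1 h2 := by
    have b : ∀ x ∈ F + F, x ≤ m := fun x hx => (Multiset.mem_add.1 hx).elim (h1 x) (h1 x)
    rcases Nat.eq_zero_or_pos m with rfl | hm
    · obtain ⟨N, -, h⟩ := CH.nil (2 * q)
      refine zero ?_ h
      rw [Multiset.filter_eq_nil.2 fun x hx => by have := h.1 x hx; omega,
        Multiset.filter_eq_nil.2 fun x hx => by have := b x hx; omega]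
    refine ⟨b, 1, ⟨q + 1, by ring⟩, ?_⟩
    rw [show 2 * q + (1 + 1) = q + 1 + (q + 1) by ring, Multiset.replicate_add, add_add_add_comm F]
    refine CH.dbl hm (rep_le _ le_rfl h1) ?_
    rw [Multiset.sum_add, Multiset.sum_replicate, one_smul, h2, mul_add, mul_one]
  good m d ν hm hd h1 h := ⟨h1, 1, hd.add ⟨1, rfl⟩, h.add (two hm)⟩
  stack m m' d P hP h h' := by
    have b : ∀ x ∈ P, x.1 ≤ m ∧ x.2 ≤ m' := fun x hx =>
      ⟨h.1 _ (Multiset.mem_map_of_mem _ hx), h'.1 _ (Multiset.mem_map_of_mem _ hx)⟩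
    have u := st_UNION _ _ _ _ _ (toR h) (toR h')
    rw [← CH.ch P m m' hP b] at u
    obtain ⟨N, h1, h2⟩ := u
    refine zero (cc (fun x hx => ?_) h1) h2
    obtain ⟨y, hy, rfl⟩ := Multiset.mem_map.1 hx
    exact add_le_add (b y hy).1 (b y hy).2
  win m d l ν hm hl h1 hs w1 w2 w3 := by
    refine ⟨h1, 3 * d + 3, ⟨2 * d + 2, by ring⟩, ?_⟩
    rw [show d + (3 * d + 3 + 1) = 4 * (d + 1) by ring,
      ← good_rep (7 * (ν + Multiset.replicate (3 * d + 3 + 1) m).card)]
    have c : ∀ (p : ℕ → Prop) [DecidablePred p] (A B : Multiset ℕ),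
        ν.countP p ≤ (ν + A + B).countP p := fun p _ A B => by
      rw [Multiset.countP_add, Multiset.countP_add]; omega
    refine good_windows _ hm hl (rep_le _ (Nat.zero_le _) (rep_le _ le_rfl h1)) ?_ ?_
      (w1.trans (c _ _ _)) (w2.trans (c _ _ _)) (w3.trans (c _ _ _))
    · rw [Multiset.card_add, Multiset.card_replicate]
      omega
    · rw [Multiset.sum_add, Multiset.sum_add, Multiset.sum_replicate, Multiset.sum_replicate, hs,
        smul_eq_mul, smul_zero]
      ring
  far m d ν hm h0 h1 hs := by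
    refine ⟨h1, d + 1, ⟨d + 1, by ring⟩, Ray.good_far hm (Or.inl (h0.trans ?_)) (rep_le _ le_rfl h1) ?_⟩
    · rw [Multiset.countP_add, Multiset.count, Multiset.countP_eq_card_filter,
        Multiset.countP_eq_card_filter]
      exact (Multiset.card_le_card (Multiset.monotone_filter_right ν fun x h => by
        omega)).trans (Nat.le_add_right _ _)
    · rw [Multiset.sum_add, Multiset.sum_replicate, hs, smul_eq_mul]
      ring

end MP7ebc2a.AA
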