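import Pool.Agent.Lib.AA25.Blue2

/-! The packing for even `d` up to `h ^ 24`. -/

namespace MP7ebc2a.AA
open Multiset

open EVEN in
theorem st_EVEN2 : St_EVEN2 := by
  intro h d m s hd h4 hh24 hh hH hs t4 hm
  have hEX := st_EX
  obtain ⟨-, t2, -⟩ := st_TYP h s hs hH
  obtain ⟨t3, -⟩ := hs
  have d1 : 1 ≤ d := by omega
  have h0 : 0 < h := by omega
  obtain ⟨y, hy⟩ : ∃ y, y = h ^ 20 := ⟨_, rfl⟩
  have y1 : 1 ≤ y := hy ▸ Nat.one_le_pow _ _ h0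
  have y2 : y ^ 2 = h ^ 40 := by rw [hy]; ring
  have y3 : y ^ 3 = h ^ 60 := by rw [hy]; ring
  have y4 : y ≤ y ^ 2 := by nlinarith
  have y5 : y ^ 2 ≤ y ^ 3 := by nlinarith
  have z1 := k0 hh 67 70 (by norm_num)
  have z2 := k0 hh 43 70 (by norm_num)
  have z3 := k1 hh hh24 43 70 (by norm_num)
  have z4 := k1 hh hh24 0 67 (by norm_num)
  have z5 : 0 < h ^ 43 := Nat.pow_pos h0
  have z7 : 0 < d * h ^ 43 := Nat.mul_pos d1 z5
  rw [pow_zero, mul_one] at z4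
  obtain ⟨L, hL1, hL2⟩ : ∃ L, d + d * L ≤ 2 * h ^ 67 ∧ 2 * h ^ 67 ≤ 2 * (d * L) := by
    have a1 := Nat.div_add_mod (2 * h ^ 67) d
    have a2 := Nat.mod_lt (2 * h ^ 67) d1
    have a3 : 1 ≤ 2 * h ^ 67 / d := (Nat.le_div_iff_mul_le d1).2 (by omega)
    obtain ⟨L, hL⟩ := Nat.exists_eq_add_of_le a3
    rw [hL, mul_add, mul_one] at a1
    exact ⟨L, by omega, by omega⟩
  have hdf : ∀ a b, 1 ≤ a → b ≤ h ^ 70 → df (h ^ 70) a b s ≤ h ^ 43 := fun a b h1 h2 =>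
    (hEX.mono _ a b 1 (h ^ 70) s s h1 h2 fun _ _ _ => le_rfl).trans t4
  have win : ∀ c c', 1 ≤ c → c' ≤ 30 → 1 ≤ c * (2 * h ^ 67) ∧ c' * (2 * h ^ 67) ≤ h ^ 70 :=
    fun c c' h1 h2 => ⟨Nat.mul_pos h1 (by omega),
      (Nat.mul_le_mul_right _ h2).trans (by omega)⟩
  have pq : (12 * (2 * y + 1) + 1) * (24 * (2 * y + 1) ^ 2 + 10 * (2 * y + 1)) =
      4 * (576 * y ^ 3 + 1008 * y ^ 2 + 581 * y + 110) + 2 := by ring
  refine core hEX all_SB st_CH (z := 2 * h ^ 67) (p := 12 * (2 * y + 1) + 1)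
    (q := 24 * (2 * y + 1) ^ 2 + 10 * (2 * y + 1)) (t := h ^ 59) (μ := h ^ 34) (j := h ^ 59)
    hd h4 (by omega) (AP_1 _) (by omega) ?_ ?_ ?_ ?_ ?_ ?_ ?_ ?_ ?_ ?_ ?_ ?_ hm
  · have a1 := k1 hh hh24 40 67 (by norm_num)
    refine le_trans (Nat.mul_le_mul_left _ (?_ : _ ≤ 10000 * h ^ 40)) ?_
    · nlinarith
    · rw [mul_left_comm]
      omega
  · rw [CP_eq (AP_1 _)]
    exact Nat.sub_eq_of_eq_add (by ring)
  · omega
  · have a1 := k0 hh 60 61 (by norm_num)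
    have a2 := k0 hh 61 67 (by norm_num)
    omega
  · have a1 := k0 hh 102 107 (by norm_num)
    have a2 : h ^ 40 * h ^ 67 ≤ (24 * (2 * y + 1) ^ 2 + 10 * (2 * y + 1)) * (2 * h ^ 67) :=
      Nat.mul_le_mul (by nlinarith) (by omega)
    have a3 : h ^ 40 * h ^ 67 = h ^ 107 := by ring
    omega
  · have a1 := k0 hh 59 60 (by norm_num)
    omega
  · have a1 := k1 hh hh24 34 59 (by norm_num)
    have a2 : 0 < h ^ 59 := Nat.pow_pos h0
    omega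
  · have a1 := k0 hh 59 67 (by norm_num)
    omega
  · calc d * s.card ≤ h ^ 24 * h ^ 102 := Nat.mul_le_mul hh24 t2
      _ = h ^ 59 * h ^ 67 := by ring
      _ ≤ _ := Nat.mul_le_mul_left _ (by omega)
  · intro x hx h1
    have a1 := (t3 x hx).2
    have a2 : h ^ 67 * s.count x ≤ x * s.count x := Nat.mul_le_mul_right _ (by omega)
    have a3 : h ^ 101 = h ^ 67 * h ^ 34 := by ring
    exact Nat.le_of_mul_le_mul_left (a2.trans (a3 ▸ a1)) (by omega)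
  · intro c N c1 c2
    obtain ⟨w1, w2⟩ := win c (c + 1) c1 (by omega)
    have r1 := Nat.mod_lt (N + c * (2 * h ^ 67)) d1
    have r2 : (c + 1) * (2 * h ^ 67) = c * (2 * h ^ 67) + 2 * h ^ 67 := by ring
    have r3 : (c + 1) * (2 * h ^ 67) ≤ 60 * d * L := by
      calc (c + 1) * (2 * h ^ 67) ≤ 30 * (2 * (d * L)) := Nat.mul_le_mul (by omega) hL2
        _ = 60 * d * L := by ring
    obtain ⟨U, u1, -, u3, u4⟩ := hEX.dist (h ^ 70) (c * (2 * h ^ 67)) ((c + 1) * (2 * h ^ 67)) d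
      (c * (2 * h ^ 67) + (d - (N + c * (2 * h ^ 67)) % d)) L 1 s d1 w1 (by omega) (by omega)
      (lt_of_le_of_lt (hdf _ _ w1 w2) (dist_cond w2 r3 (by omega) (by
        have : 2 * (60 * d) * h ^ 43 = 120 * (d * h ^ 43) := by ring
        omega)))
    obtain ⟨e, rfl⟩ := card_eq_one.1 u3
    obtain ⟨v1, v2, v3⟩ := u4 e (mem_singleton_self e)
    refine ⟨e, singleton_le.1 u1, v1, v2, Nat.dvd_of_mod_eq_zero ?_⟩
    rw [Nat.add_mod, v3, ← Nat.add_mod, ← add_assoc]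
    have r4 := Nat.div_add_mod (N + c * (2 * h ^ 67)) d
    have r5 : N + c * (2 * h ^ 67) + (d - (N + c * (2 * h ^ 67)) % d) =
        d * ((N + c * (2 * h ^ 67)) / d + 1) := by
      rw [mul_add]
      omega
    rw [r5, Nat.mul_mod_right]
  · intro c ε K c1 c2 he hK
    obtain ⟨w1, w2⟩ := win c (c + 2) c1 (by omega)
    have r1 : c * (2 * h ^ 67) % 2 = 0 := Nat.even_iff.1 ((even_two_mul _).mul_left _)
    have r2 : (c + 2) * (2 * h ^ 67) = c * (2 * h ^ 67) + 2 * (2 * h ^ 67) := by ring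
    have r3 : (c + 2) * (2 * h ^ 67) ≤ 30 * (2 * h ^ 67) := Nat.mul_le_mul_right _ (by omega)
    obtain ⟨U, u1, -, u3, u4⟩ := hEX.dist (h ^ 70) (c * (2 * h ^ 67)) ((c + 2) * (2 * h ^ 67)) 2
      (c * (2 * h ^ 67) + ε) (2 * h ^ 67 - 1) K s (by norm_num) w1 (by omega) (by omega)
      (lt_of_le_of_lt (hdf _ _ w1 w2) (dist_cond (c := 60) w2 (by omega) (by omega) (by omega)))
    exact ⟨U, u1, u3, fun x hx => ⟨(u4 x hx).1, (u4 x hx).2.1, by have := (u4 x hx).2.2; omega⟩⟩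

end MP7ebc2a.AA
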