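import Pool.Agent.Lib.AA25.Blue2

/-! The special bins for odd `d` up to `h ^ 24`. -/

namespace MP7ebc2a.AA.O2

variable {h d : ℕ}

lemma z0 (hh : 10000 ≤ h) (b : ℕ) (hb : 0 < b) : 10000 ≤ h ^ b := by simpa using k0 hh 0 b hb

lemma z2 (hh : 10000 ≤ h) (d b : ℕ) (hb : 0 < b) : 10000 * d ≤ d * h ^ b := by
  simpa using k2 hh d 0 b hb

lemma z3 (hh : 10000 ≤ h) (h1 : 1 ≤ d) (b : ℕ) (hb : 0 < b) : 10000 ≤ d * h ^ b := by
  simpa using k3 hh h1 0 b hb

/-- the large rows of the two absorbing bins -/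
lemma stageA (hEX : St_EX) (hh : 10000 ≤ h) (hd : d ≤ h ^ 24) (h20 : 20 ≤ d) (Bg : Multiset ℕ)
    (hB : df (h ^ 96) (22 * (d * h ^ 70)) (30 * (d * h ^ 70)) Bg ≤ h ^ 95)
    (W V W' V' : ℕ) (w1 : W ≤ d * h ^ 162) (w2 : V ≤ d * h ^ 162) (w3 : W' ≤ d * h ^ 162) (w4 : V' ≤ d * h ^ 162)
    (e1 : (W + V) % 2 = 0) (e2 : (W' + V') % 2 = 0) :
    ∃ Hs O Zb R, Bg = Hs + O + Zb + R ∧ Hs.Nodup ∧ Hs.card = 2 * h ^ 58 ∧
      O.card = 2 * h ^ 58 * (12 * h ^ 35) ∧ Zb.card = 2 * h ^ 58 * (12 * h ^ 35 + 2) ∧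
      (∀ x ∈ Hs, 28 * (d * h ^ 70) ≤ x ∧ x % 2 = 1) ∧
      (∀ x ∈ O, 22 * (d * h ^ 70) ≤ x ∧ x ≤ 27 * (d * h ^ 70) ∧ x % 2 = 1) ∧
      (∀ x ∈ Zb, 22 * (d * h ^ 70) ≤ x ∧ x % 2 = 0) ∧
      Hs.sum + O.sum + W = d * (2 * h ^ 58 * CP (12 * h ^ 35 + 1)) + V ∧
      Zb.sum + W' = d * (2 * h ^ 58 * CP (12 * h ^ 35 + 2)) + V' := by
  have h1 : 1 ≤ d := by omega
  have h5 : 5 ≤ d := by omega
  have q0 := z3 hh h1 70 (by norm_num)
  have q1 := k3 hh h1 58 70 (by norm_num)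
  have q2 := k1 hh hd 70 96 (by norm_num)
  have q3 := k0 hh 95 96 (by norm_num)
  have q4 := k0 hh 58 95 (by norm_num)
  have q5 := k0 hh 93 95 (by norm_num)
  have q6 := k2 hh d 162 163 (by norm_num)
  have q7 := k2 hh d 128 163 (by norm_num)
  have q8 := k2 hh d 93 163 (by norm_num)
  have q9 := k2 hh d 58 163 (by norm_num)
  have n46 := Nat.zero_le (d * h ^ 58)
  have n93 := Nat.zero_le (d * h ^ 93)
  have n140 := Nat.zero_le (d * h ^ 128)
  have n187 := Nat.zero_le (d * h ^ 163)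
  obtain ⟨Hs, a1, a2, a3, a4⟩ := hEX.dist (h ^ 96) (28 * (d * h ^ 70)) (30 * (d * h ^ 70)) 2
    (28 * (d * h ^ 70) + 1) (d * h ^ 70 - 1) (2 * h ^ 58) Bg (by norm_num) (by omega) (by omega)
    (by omega) (dist_cond (c := 60) (by omega) (by omega) (by omega) (by
      have := hEX.mono (h ^ 96) (28 * (d * h ^ 70)) (30 * (d * h ^ 70)) (22 * (d * h ^ 70))
        (30 * (d * h ^ 70)) Bg Bg (by omega) le_rfl fun _ _ _ => le_rfl
      omega))
  have s1 : Hs.card * (28 * (d * h ^ 70)) ≤ Hs.sum := sum_ge fun x hx => (a4 x hx).1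
  have s2 : Hs.sum ≤ Hs.card * (30 * (d * h ^ 70)) := sum_le fun x hx => (a4 x hx).2.1
  have s3 := sum_par (ε := 1) (M := Hs) fun x hx => by have := (a4 x hx).2.2; omega
  rw [a3] at s1 s2 s3
  have c1 := CP_eq (AP_1 (h ^ 35))
  have c2 := CP_eq (AP_2 (h ^ 35))
  obtain ⟨T, hT⟩ := sub_eq (a := d * (2 * h ^ 58 * CP (12 * h ^ 35 + 1)) + V) (b := Hs.sum + W)
    (by rw [c1]; linarith [Nat.zero_le V])
  have d1 := hEX.sub (h ^ 96) (22 * (d * h ^ 70)) (27 * (d * h ^ 70)) Bg Hs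
  have d0 := hEX.mono (h ^ 96) (22 * (d * h ^ 70)) (27 * (d * h ^ 70)) (22 * (d * h ^ 70))
    (30 * (d * h ^ 70)) Bg Bg le_rfl (by omega) fun _ _ _ => le_rfl
  have ev : ∀ c, (d * (2 * h ^ 58 * c)) % 2 = 0 := fun c => by
    rw [show d * (2 * h ^ 58 * c) = 2 * (d * h ^ 58 * c) by ring]; omega
  obtain ⟨O, b1, b2, b3, b4⟩ := hEX.ex (h ^ 96) (d * h ^ 70) 22 27 1 (12 * h ^ 93) T (Bg - Hs)
    (by omega) (by norm_num) (by norm_num) (by omega) (by norm_num)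
    (by have := ev (CP (12 * h ^ 35 + 1)); rw [Nat.even_iff]; omega)
    (by rw [c1] at hT; linarith [Nat.zero_le V]) (by rw [c1] at hT; linarith [Nat.zero_le W])
    (by omega)
  have d2 := hEX.sub (h ^ 96) (22 * (d * h ^ 70)) (27 * (d * h ^ 70)) (Bg - Hs) O
  obtain ⟨T', hT'⟩ := sub_eq (a := d * (2 * h ^ 58 * CP (12 * h ^ 35 + 2)) + V') (b := W')
    (by rw [c2]; linarith [Nat.zero_le V'])
  obtain ⟨Zb, z1, z2, z3, z4⟩ := hEX.ex (h ^ 96) (d * h ^ 70) 22 27 0 (12 * h ^ 93 + 2 * h ^ 58) T'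
    (Bg - Hs - O) (by omega) (by norm_num) (by norm_num) (by omega) (by norm_num)
    (by have := ev (CP (12 * h ^ 35 + 2)); rw [Nat.even_iff]; omega)
    (by rw [c2] at hT'; linarith [Nat.zero_le V']) (by rw [c2] at hT'; linarith [Nat.zero_le W'])
    (by omega)
  refine ⟨Hs, O, Zb, Bg - Hs - O - Zb, ?_, a2, a3, by rw [b2]; ring, by rw [z2]; ring,
    fun x hx => ⟨(a4 x hx).1, by have := (a4 x hx).2.2; omega⟩, b4,
    fun x hx => ⟨(z4 x hx).1, (z4 x hx).2.2⟩, by omega, by omega⟩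
  rw [add_assoc, add_assoc, add_tsub_cancel_of_le z1, add_tsub_cancel_of_le b1,
    add_tsub_cancel_of_le a1]

/-- the bin for the left-over odd rows -/
lemma stageO (hEX : St_EX) (hSB : St_SB) (hh : 10000 ≤ h) (hd : d ≤ h ^ 24)
    (h20 : 20 ≤ d) (hodd : Odd d)
    (L S : Multiset ℕ) (l1 : L.card ≤ h ^ 52)
    (l2 : ∀ x ∈ L, x % 2 = 1 ∧ 28 * (d * h ^ 60) ≤ x ∧ x ≤ h ^ 101)
    (hS : df (h ^ 96) 1 (27 * (d * h ^ 60)) S ≤ 3 * h ^ 95) :
    ∃ U F R, S = U + F + R ∧ (∀ x ∈ U, x % 2 = 1) ∧ (∀ x ∈ F, x % 2 = 0) ∧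
      U.card + F.card ≤ h ^ 95 ∧ F.sum ≤ 3 * h ^ 153 ∧
      U.sum + 2 * h ^ 93 * d + 2 * h ^ 153 =
        2 * h ^ 93 * (d * (24 * h ^ 60 + 10 * h ^ 30 + 1)) + d * U.card ∧ GD d (L + U + F) := by
  have h1 : 1 ≤ d := by omega
  have h5 : 5 ≤ d := by omega
  have q0 := z3 hh h1 60 (by norm_num)
  have q1 := k1 hh hd 60 96 (by norm_num)
  have q2 := k0 hh 95 96 (by norm_num)
  have q3 := k0 hh 30 95 (by norm_num)
  have q4 := k0 hh 93 95 (by norm_num)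
  have q5 := z0 hh 30 (by norm_num)
  have q6 := Nat.mul_le_mul_right (h ^ 153) h20
  have q7 := k2 hh d 90 153 (by norm_num)
  have q8 := k2 hh d 60 153 (by norm_num)
  have q9 := k2 hh d 123 153 (by norm_num)
  have q10 := k2 hh d 93 153 (by norm_num)
  have q11 := k2 hh d 30 153 (by norm_num)
  have q12 := z2 hh d 153 (by norm_num)
  have q13 := k0 hh 30 60 (by norm_num)
  have q14 := k1 hh hd 112 153 (by norm_num)
  have q15 := k1 hh hd 90 153 (by norm_num)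
  have q16 := k1 hh hd 60 153 (by norm_num)
  have q17 := k2 hh d 30 60 (by norm_num)
  have q18 := z2 hh d 60 (by norm_num)
  have n41 := Nat.zero_le (d * h ^ 30)
  have n80 := Nat.zero_le (d * h ^ 93)
  have n82 := Nat.zero_le (d * h ^ 60)
  have n121 := Nat.zero_le (d * h ^ 123)
  have n123 := Nat.zero_le (d * h ^ 90)
  have n134 := Nat.zero_le (d * h ^ 112)
  have n162 := Nat.zero_le (d * h ^ 153)
  have n0 := Nat.zero_le (h ^ 153)
  obtain ⟨k, kk1, kk2⟩ := exists_u (12 * h ^ 30 + 1) L.card (h ^ 93) (by omega)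
  have kk3 := Nat.mul_le_mul_left d kk2
  have kk4 := Nat.mul_le_mul_left (d * h ^ 60) kk2
  obtain ⟨T, hT⟩ := sub_eq (a := 2 * h ^ 93 * (d * (24 * h ^ 60 + 10 * h ^ 30 + 1)) +
    d * (2 * (h ^ 93 + k))) (b := 2 * h ^ 93 * d + 2 * h ^ 153)
    (by linarith [Nat.zero_le (d * k)])
  have mo := fun a b h1 h2 => hEX.mono (h ^ 96) a b 1 (27 * (d * h ^ 60)) S S h1 h2
    fun _ _ _ => le_rfl
  have d0 := mo (22 * (d * h ^ 60)) (27 * (d * h ^ 60)) (by omega) le_rfl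
  have d1 := mo (2 * (d * h ^ 60)) (5 * (d * h ^ 60)) (by omega) (by omega)
  obtain ⟨U, u1, u2, u3, u4⟩ := hEX.ex (h ^ 96) (d * h ^ 60) 22 27 1 (h ^ 93 + k) T S
    (by omega) (by norm_num) (by norm_num) (by omega) (by norm_num)
    (⟨h ^ 93 * (d * (24 * h ^ 60 + 10 * h ^ 30 + 1)) + d * (h ^ 93 + k) -
      (h ^ 93 * d + h ^ 153), by
        have : T + 2 * (h ^ 93 * d + h ^ 153) =
          2 * (h ^ 93 * (d * (24 * h ^ 60 + 10 * h ^ 30 + 1)) + d * (h ^ 93 + k)) := by linarith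
        omega⟩)
    (by linarith [Nat.zero_le (d * k)]) (by linarith [Nat.zero_le (d * h ^ 60 * k)]) (by omega)
  have d2 := hEX.sub (h ^ 96) (2 * (d * h ^ 60)) (5 * (d * h ^ 60)) S U
  have s1 : L.sum ≤ h ^ 153 :=
    (sum_le fun x hx => (l2 x hx).2.2).trans ((Nat.mul_le_mul_right _ l1).trans (by linarith))
  have s2 := sum_par fun x hx => (l2 x hx).1
  obtain ⟨a, ha⟩ : ∃ a, a = 24 * h ^ 60 + 10 * h ^ 30 + 1 := ⟨_, rfl⟩
  have t1 : d * a ≤ 25 * (d * h ^ 60) := by rw [ha]; linarith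
  have t2 : d ≤ d * a := Nat.le_mul_of_pos_right _ (by omega)
  have t3 : (d * a) % 2 = 1 := by
    rw [Nat.mul_mod, Nat.odd_iff.1 hodd, show a % 2 = 1 by omega]
  have t4 := Nat.mul_le_mul l1 t1
  have t5 := Nat.mul_le_mul kk2 t1
  have t6 := Nat.mul_le_mul_left k t2
  rw [← ha] at hT ⊢
  obtain ⟨D, hD⟩ := sub_eq (a := (L.card + 2 * (h ^ 93 + k)) * (d * a)) (b := L.sum + T)
    (by linarith [Nat.zero_le (L.card * (d * a))])
  have D1 : D ≤ 3 * h ^ 153 := by linarith [Nat.zero_le L.sum, Nat.zero_le (d * k)]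
  have d3 := Nat.mul_le_mul_left (d * h ^ 60)
    (by omega : df (h ^ 96) (2 * (d * h ^ 60)) (5 * (d * h ^ 60)) (S - U) ≤ 4 * h ^ 95)
  obtain ⟨F, f1, f2, f3, f4⟩ := fill hEX (S := S - U) (H := h ^ 96) (z := d * h ^ 60) (D := D)
    (by omega) (by omega) (by
      have a1 : (L.card * (d * a)) % 2 = (L.card * 1) % 2 := by
        rw [Nat.mul_mod, t3, Nat.mul_mod L.card 1]
      have a2 := sum_par fun x hx => (u4 x hx).2.2
      rw [u2, u3] at a2
      have a3 : D + (L.sum + T) = L.card * (d * a) + 2 * ((h ^ 93 + k) * (d * a)) := by linarith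
      rw [Nat.even_iff]
      omega)
    (Or.inr (by linarith [Nat.zero_le (L.card * (d * a))]))
    (by linarith [k2 hh d 155 156 (by norm_num), k3 hh h1 153 156 (by norm_num)])
  have f5 : F.card ≤ h ^ 94 := by
    refine Nat.le_of_mul_le_mul_left ?_ (by omega : 0 < d * h ^ 60)
    linarith [k3 hh h1 153 154 (by norm_num)]
  have q19 := k0 hh 94 95 (by norm_num)
  have t7 : 3 * a ≤ 15 * (d * h ^ 60) := by
    have := Nat.mul_le_mul_right (h ^ 60) h5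
    omega
  have hs : (L + U + F).sum = (L + U).card * (d * a) := by
    simp only [Multiset.sum_add, Multiset.card_add, u2, u3, f2]; linarith
  refine ⟨U, F, S - U - F, ?_, fun x hx => (u4 x hx).2.2, fun x hx => Nat.even_iff.1 (f4 x hx).1,
    by omega, by omega, by rw [u2, u3]; linarith,
    sba hSB (p := 12 * h ^ 30 + 1) hodd h5 (by omega) (by rw [AP_1, ha]; ring)
      (by rw [Multiset.card_add, u2, mul_add]; exact kk1) (fun b hb => ?_)
      (fun f hf => (f4 f hf).1) hs (card_of_ge (by omega : 0 < d) (fun x hx => ?_)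
        (by rw [hs]; ring))⟩
  · rw [add_assoc, add_tsub_cancel_of_le f1, add_tsub_cancel_of_le u1]
  · have : b % 2 = 1 ∧ 22 * (d * h ^ 60) ≤ b := by
      rcases Multiset.mem_add.1 hb with hb | hb
      · have := l2 b hb; omega
      · have := u4 b hb; omega
    exact ⟨by omega, by omega, fun f hf => by have := f4 f hf; omega⟩
  · simp only [Multiset.mem_add] at hx
    rcases hx with (hx | hx) | hx
    · have := l2 x hx; omega
    · have := u4 x hx; omega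
    · have := f4 x hx; omega

/-- the bin for the left-over even rows -/
lemma stageE (hEX : St_EX) (hSB : St_SB) (hh : 10000 ≤ h) (hd : d ≤ h ^ 24)
    (h20 : 20 ≤ d) (hodd : Odd d)
    (L S : Multiset ℕ) (l1 : L.card ≤ h ^ 52)
    (l2 : ∀ x ∈ L, x % 2 = 0 ∧ 28 * (d * h ^ 60) ≤ x ∧ x ≤ h ^ 101)
    (hS : df (h ^ 96) 1 (27 * (d * h ^ 60)) S ≤ 4 * h ^ 95) :
    ∃ U R, S = U + R ∧ (∀ x ∈ U, x % 2 = 0) ∧ U.card ≤ h ^ 95 ∧
      2 * h ^ 93 * (d * (24 * h ^ 60 + 34 * h ^ 30 + 12)) ≤ U.sum + h ^ 153 ∧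
      U.sum ≤ 2 * h ^ 93 * (d * (24 * h ^ 60 + 34 * h ^ 30 + 12)) + h ^ 153 ∧ GD d (L + U) := by
  have h1 : 1 ≤ d := by omega
  have h5 : 5 ≤ d := by omega
  have q0 := z3 hh h1 60 (by norm_num)
  have q1 := k1 hh hd 60 96 (by norm_num)
  have q2 := k0 hh 95 96 (by norm_num)
  have q3 := k0 hh 30 95 (by norm_num)
  have q4 := k0 hh 93 95 (by norm_num)
  have q5 := z0 hh 30 (by norm_num)
  have q6 := Nat.mul_le_mul_right (h ^ 153) h20
  have q13 := k0 hh 30 60 (by norm_num)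
  have q14 := k1 hh hd 112 153 (by norm_num)
  have q15 := k1 hh hd 90 153 (by norm_num)
  have q16 := k1 hh hd 60 153 (by norm_num)
  have q17 := k2 hh d 30 60 (by norm_num)
  have q18 := z2 hh d 60 (by norm_num)
  have n41 := Nat.zero_le (d * h ^ 30)
  have n80 := Nat.zero_le (d * h ^ 93)
  have n82 := Nat.zero_le (d * h ^ 60)
  have n121 := Nat.zero_le (d * h ^ 123)
  have n123 := Nat.zero_le (d * h ^ 90)
  have n134 := Nat.zero_le (d * h ^ 112)
  have n162 := Nat.zero_le (d * h ^ 153)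
  have n0 := Nat.zero_le (h ^ 153)
  obtain ⟨k, kk1, kk2⟩ := exists_u (12 * h ^ 30 + 7) L.card (h ^ 93) (by omega)
  have s1 : L.sum ≤ h ^ 153 :=
    (sum_le fun x hx => (l2 x hx).2.2).trans ((Nat.mul_le_mul_right _ l1).trans (by linarith))
  have s2 := sum_par fun x hx => (l2 x hx).1
  obtain ⟨a, ha⟩ : ∃ a, a = 24 * h ^ 60 + 34 * h ^ 30 + 12 := ⟨_, rfl⟩
  have t1 : d * a ≤ 25 * (d * h ^ 60) := by rw [ha]; linarith
  have t2 : 24 * (d * h ^ 60) ≤ d * a := by rw [ha]; linarith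
  have t3 : (d * a) % 2 = 0 := by
    rw [Nat.mul_mod, Nat.odd_iff.1 hodd, show a % 2 = 0 by omega]
  have t4 := Nat.mul_le_mul l1 t1
  have t5 := Nat.mul_le_mul kk2 t1
  have t6 := Nat.mul_le_mul_left k t2
  have t8 := Nat.mul_le_mul_left k t1
  have t9 := Nat.mul_le_mul_left (h ^ 93) t1
  have t10 := Nat.mul_le_mul_left (h ^ 93) t2
  rw [← ha]
  obtain ⟨T, hT⟩ := sub_eq (a := (L.card + 2 * (h ^ 93 + k)) * (d * a)) (b := L.sum)
    (by linarith [Nat.zero_le (L.card * (d * a)), Nat.zero_le (k * (d * a))])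
  have d0 := hEX.mono (h ^ 96) (22 * (d * h ^ 60)) (27 * (d * h ^ 60)) 1 (27 * (d * h ^ 60)) S S
    (by omega) le_rfl fun _ _ _ => le_rfl
  obtain ⟨U, u1, u2, u3, u4⟩ := hEX.ex (h ^ 96) (d * h ^ 60) 22 27 0 (h ^ 93 + k) T S
    (by omega) (by norm_num) (by norm_num) (by omega) (by norm_num)
    (by
      have a1 : ((L.card + 2 * (h ^ 93 + k)) * (d * a)) % 2 = 0 := by rw [Nat.mul_mod, t3]; simp
      rw [Nat.even_iff]
      omega)
    (by linarith [Nat.zero_le (L.card * (d * a)), Nat.zero_le (k * (d * h ^ 60))])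
    (by linarith [Nat.zero_le L.sum, Nat.zero_le (k * (d * h ^ 60))]) (by omega)
  have t7 : 3 * a ≤ 15 * (d * h ^ 60) := by
    have := Nat.mul_le_mul_right (h ^ 60) h5
    omega
  have hs : (L + U + 0).sum = (L + U).card * (d * a) := by
    simp only [Multiset.sum_add, Multiset.card_add, u2, u3, add_zero]; linarith
  have b1 : ∀ b ∈ L + U, b % 2 = 0 ∧ 22 * (d * h ^ 60) ≤ b := fun b hb => by
    rcases Multiset.mem_add.1 hb with hb | hb
    · have := l2 b hb; omega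
    · have := u4 b hb; omega
  refine ⟨U, S - U, (add_tsub_cancel_of_le u1).symm, fun x hx => (u4 x hx).2.2, by omega,
    by rw [u3]; linarith [Nat.zero_le (L.card * (d * a)), Nat.zero_le (k * (d * a))],
    by rw [u3]; linarith [Nat.zero_le L.sum], ?_⟩
  simpa using sba hSB (p := 12 * h ^ 30 + 7) (F := 0) hodd h5 (by omega) (by rw [AP_7, ha]; ring)
    (by rw [Multiset.card_add, u2, mul_add]; exact kk1)
    (fun b hb => by have := b1 b hb; exact ⟨by omega, by omega, by simp⟩) (by simp) hs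
    (card_of_ge (by omega : 0 < d) (fun x hx => by have := b1 x (by simpa using hx); omega)
      (by rw [hs]; ring))

end MP7ebc2a.AA.O2
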