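import Pool.Agent.Lib.AA25.C_ODD2a

/-! Bricks and bands for odd `d` up to `h ^ 24`. -/

namespace MP7ebc2a.AA.O2

variable {h d : ℕ}

/-- bins with two large rows -/
lemma bin2 (hEX : St_EX) (hSB : St_SB) (h20 : 20 ≤ d) (hodd : Odd d) (H j : ℕ) (M : Multiset ℕ)
    (hH : 6 * d ≤ H) (hM : 180 * (df H 1 (6 * d) M + 2 * j) ≤ H) :
    ∃ B R, M = B + R ∧ B.card = 2 * j ∧ (∀ x ∈ B, x % 2 = 0) ∧ B.sum = d * (4 * j) ∧ GD d B := by
  obtain ⟨z, hz⟩ : ∃ z, z = d / 10 := ⟨_, rfl⟩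
  have a1 := Nat.mul_le_mul_left j (by omega : 19 * z ≤ 2 * d)
  have a2 := Nat.mul_le_mul_left j (by omega : 2 * d ≤ 29 * z)
  have d0 := hEX.mono H (18 * z) (30 * z) 1 (6 * d) M M (by omega) (by omega) fun _ _ _ => le_rfl
  obtain ⟨U, u1, u2, u3, u4⟩ := hEX.ex H z 18 30 0 j (d * (4 * j)) M (by omega) (by norm_num)
    (by norm_num) (by omega) (by norm_num) ⟨d * (2 * j), by ring⟩ (by linarith) (by linarith)
    (by omega)
  refine ⟨U, M - U, (add_tsub_cancel_of_le u1).symm, u2, fun x hx => (u4 x hx).2.2, u3, ?_⟩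
  simpa using hSB.sb d 2 j U 0 hodd (by omega) (by norm_num) (by omega) (fun b hb => by
      rw [show AP 2 = 6 by decide]
      have := u4 b hb
      exact ⟨by omega, by omega, by simp⟩) (by simp)
    (by rw [add_zero, u3, show CP 2 = 4 by decide]; ring)
    (by rw [add_zero, show CP 2 = 4 by decide]; omega)

/-- bins with three large rows -/
lemma bin3 (hEX : St_EX) (hSB : St_SB) (h20 : 20 ≤ d) (hodd : Odd d) (H j : ℕ) (M : Multiset ℕ)
    (hH : 6 * d ≤ H) (hM : 180 * (df H 1 (6 * d) M + 3 * j) ≤ H) :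
    ∃ B R, M = B + R ∧ (∀ x ∈ B, x % 2 = 0) ∧ B.sum = d * (10 * j) ∧ GD d B := by
  obtain ⟨z, hz⟩ : ∃ z, z = d / 5 := ⟨_, rfl⟩
  have a1 := Nat.mul_le_mul_left j (by omega : 4 * z ≤ d)
  have a2 := Nat.mul_le_mul_left j (by omega : 10 * d ≤ 73 * z)
  have d0 := hEX.mono H (15 * z) (18 * z) 1 (6 * d) M M (by omega) (by omega) fun _ _ _ => le_rfl
  obtain ⟨U, u1, u2, -, u4⟩ := hEX.ex H z 15 18 0 j (2 * j * (16 * z)) M (by omega) (by norm_num)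
    (by norm_num) (by omega) (by norm_num) ⟨j * (16 * z), by ring⟩ le_rfl
    (by linarith [Nat.zero_le (j * z)]) (by omega)
  obtain ⟨X, x1, x2, -⟩ := hEX.top U j (by omega)
  have x3 := fun x hx => u4 x (Multiset.mem_of_le x1 hx)
  have s1 : X.card * (15 * z) ≤ X.sum := sum_ge fun x hx => (x3 x hx).1
  have s2 : X.sum ≤ X.card * (18 * z) := sum_le fun x hx => (x3 x hx).2.1
  have s3 := sum_par fun x hx => (x3 x hx).2.2
  rw [x2] at s1 s2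
  obtain ⟨T, hT⟩ := sub_eq (a := 2 * (d * (5 * j))) (b := X.sum)
    (by linarith [Nat.zero_le (j * z)])
  have d1 := hEX.sub H 1 (6 * d) M X
  have d2 := hEX.mono H (10 * z) (30 * z) 1 (6 * d) (M - X) (M - X) (by omega) (by omega)
    fun _ _ _ => le_rfl
  obtain ⟨Y, y1, y2, y3, y4⟩ := hEX.ex H z 10 30 0 j T (M - X) (by omega) (by norm_num)
    (by norm_num) (by omega) (by norm_num) (by rw [Nat.even_iff]; omega) (by linarith)
    (by linarith) (by omega)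
  have b1 : ∀ b ∈ X + Y, 10 * z ≤ b ∧ b % 2 = 0 := fun b hb => by
    rcases Multiset.mem_add.1 hb with hb | hb
    · have := x3 b hb; omega
    · have := y4 b hb; omega
  have hs : (X + Y).sum = d * (10 * j) := by rw [Multiset.sum_add, y3]; linarith
  refine ⟨X + Y, M - X - Y, ?_, fun x hx => (b1 x hx).2, hs, ?_⟩
  · rw [add_assoc, add_tsub_cancel_of_le y1, add_tsub_cancel_of_le (x1.trans u1)]
  simpa using hSB.sb d 3 j (X + Y) 0 hodd (by omega) (by norm_num)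
    (by rw [Multiset.card_add]; omega) (fun b hb => by
      rw [show AP 3 = 10 by decide]
      have := b1 b hb
      exact ⟨by omega, by omega, by simp⟩) (by simp)
    (by rw [add_zero, hs, show CP 3 = 10 by decide]; ring)
    (by rw [add_zero, show CP 3 = 10 by decide, Multiset.card_add]; omega)

/-- bricks of even rows with a prescribed total -/
lemma stageB (hEX : St_EX) (hSB : St_SB) (hh : 10000 ≤ h) (hd : d ≤ h ^ 24)
    (h20 : 20 ≤ d) (hodd : Odd d)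
    (S : Multiset ℕ) (hS : df (h ^ 96) 1 (27 * (d * h ^ 60)) S ≤ 5 * h ^ 95) (ψ : ℕ)
    (p1 : ψ % 2 = 0) (p2 : 10 ≤ ψ) (p3 : d * ψ ≤ 3 * (d * h ^ 154)) :
    ∃ B R, S = B + R ∧ (∀ x ∈ B, x % 2 = 0) ∧ B.sum = d * ψ ∧ GD d B := by
  have h1 : 1 ≤ d := by omega
  have h5 : 5 ≤ d := by omega
  have q0 := z3 hh h1 60 (by norm_num)
  have q1 := k1 hh hd 60 96 (by norm_num)
  have q2 := k0 hh 95 96 (by norm_num)
  have q4 := k0 hh 94 95 (by norm_num)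
  have q5 := z0 hh 30 (by norm_num)
  have q6 := k0 hh 30 60 (by norm_num)
  have q7 := k0 hh 60 90 (by norm_num)
  have q8 := k2 hh d 30 60 (by norm_num)
  have q9 := z2 hh d 60 (by norm_num)
  have n31 := Nat.zero_le (d * h ^ 30)
  have n62 := Nat.zero_le (d * h ^ 60)
  have nn31 := Nat.zero_le (h ^ 30)
  have nn62 := Nat.zero_le (h ^ 60)
  have nn93 := Nat.zero_le (h ^ 90)
  obtain ⟨κ, hκ⟩ : ∃ κ, κ = ψ % 4 / 2 := ⟨_, rfl⟩
  obtain ⟨a, ha⟩ : ∃ a, a = 12 * h ^ 60 + 7 * h ^ 30 + 1 := ⟨_, rfl⟩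
  obtain ⟨g, hg⟩ : ∃ g, g = 6 * h ^ 30 + 1 := ⟨_, rfl⟩
  have c0 : 0 < g * a := Nat.mul_pos (by omega) (by omega)
  have c1 : g * a ≤ h ^ 94 := by rw [hg, ha]; linarith [k0 hh 90 94 (by norm_num)]
  obtain ⟨K, hK⟩ : ∃ K, K = (ψ - 10 * κ) / 4 / (g * a) := ⟨_, rfl⟩
  obtain ⟨j, hj⟩ : ∃ j, j = (ψ - 10 * κ) / 4 % (g * a) := ⟨_, rfl⟩
  have j1 : j < g * a := hj ▸ Nat.mod_lt _ c0
  have j2 : 4 * (g * a * K) + 4 * j + 10 * κ = ψ := by
    have := Nat.div_add_mod ((ψ - 10 * κ) / 4) (g * a)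
    rw [← hK, ← hj] at this
    omega
  have t1 : d * (2 * a) ≤ 25 * (d * h ^ 60) := by rw [ha]; linarith
  have t2 : 24 * (d * h ^ 60) ≤ d * (2 * a) := by rw [ha]; linarith
  have t3 := Nat.mul_le_mul_left (g * K) t1
  have t4 := Nat.mul_le_mul_left (g * K) t2
  have j3 : d * (4 * (g * a * K)) ≤ d * ψ := Nat.mul_le_mul_left _ (by omega)
  have kk1 : g * K ≤ h ^ 94 := by
    refine Nat.le_of_mul_le_mul_left ?_ (by omega : 0 < d * h ^ 60)
    linarith [Nat.zero_le (d * h ^ 154)]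
  have d0 := hEX.mono (h ^ 96) (22 * (d * h ^ 60)) (27 * (d * h ^ 60)) 1 (27 * (d * h ^ 60)) S S
    (by omega) (by omega) fun _ _ _ => le_rfl
  obtain ⟨U, u1, u2, u3, u4⟩ := hEX.ex (h ^ 96) (d * h ^ 60) 22 27 0 (g * K)
    (2 * (g * K) * (d * (2 * a))) S (by omega) (by norm_num) (by norm_num) (by omega) (by norm_num)
    (by rw [mul_assoc]; exact even_two_mul _) (by linarith [Nat.zero_le (g * K * (d * h ^ 60))])
    (by linarith [Nat.zero_le (g * K * (d * h ^ 60))]) (by omega)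
  have t7 : 3 * (2 * a) ≤ 15 * (d * h ^ 60) := by
    have := Nat.mul_le_mul_right (h ^ 60) h5
    omega
  have g1 : GD d U := by
    simpa using sba hSB (p := 12 * h ^ 30 + 2) (a := 2 * a) (B := U) (F := 0) hodd h5 (by omega)
      (by rw [AP_2, ha]; ring) ⟨K, by rw [u2, hg]; ring⟩
      (fun b hb => by have := u4 b hb; exact ⟨by omega, by omega, by simp⟩) (by simp)
      (by rw [add_zero, u2, u3]) (by rw [add_zero]; exact Nat.le_mul_of_pos_right _ (by omega))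
  have d1 := hEX.sub (h ^ 96) 1 (27 * (d * h ^ 60)) S U
  have d2 := hEX.mono (h ^ 96) 1 (6 * d) 1 (27 * (d * h ^ 60)) (S - U) (S - U) le_rfl (by omega)
    fun _ _ _ => le_rfl
  obtain ⟨B2, R2, e2, v1, v2, v3, g2⟩ := bin2 hEX hSB h20 hodd (h ^ 96) j (S - U) (by omega)
    (by omega)
  have d3 := df_add hEX (h ^ 96) 1 (6 * d) B2 R2
  rw [← e2] at d3
  obtain ⟨B3, R, rfl, w2, w3, g3⟩ := bin3 hEX hSB h20 hodd (h ^ 96) κ R2 (by omega) (by omega)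
  refine ⟨_, R, ?_, fun x hx => ?_, ?_, hSB.add d _ _ g1 (hSB.add d _ _ g2 g3)⟩
  · rw [add_assoc, add_assoc, ← e2, add_tsub_cancel_of_le u1]
  · simp only [Multiset.mem_add] at hx
    rcases hx with hx | hx | hx
    exacts [(u4 x hx).2.2, v2 x hx, w2 x hx]
  · simp only [Multiset.sum_add, u3, v3, w3, ← j2]
    ring

lemma stageBand (hEX : St_EX) (hBS : St_BANDS) (hodd : Odd d) (h20 : 20 ≤ d)
    (hh : 10000 ≤ h)
    (hd : d ≤ h ^ 24) (h6 : 5 ^ h * h ^ 101 < 6 ^ h) (ε : ℕ) (M S' : Multiset ℕ)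
    (m1' : ∀ x ∈ M, x % 2 = ε ∧ 28 * (d * h ^ 60) ≤ x ∧ x ≤ h ^ 101) (m2' : M.card ≤ h ^ 102)
    (m3' : df (h ^ 96) 1 (27 * (d * h ^ 60)) S' ≤ 2 * h ^ 95) :
    ∃ L M' F S'', M = L + M' ∧ S' = F + S'' ∧ L.card ≤ h ^ 52 ∧ (∀ f ∈ F, f % 2 = 0) ∧
      1000 * F.sum ≤ d * h ^ 154 ∧ 2 * F.card ≤ h ^ 95 ∧ GD d (M' + F) := by
  have h1 : 1 ≤ d := by omega
  have h5 : 5 ≤ d := by omega
  have q1 := k1 hh hd 60 96 (by norm_num)
  have q4 := z2 hh d 60 (by norm_num)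
  have q5 := z0 hh 51 (by norm_num)
  have kk1 := Nat.mul_le_mul_left (3 * d * h ^ 51) m2'
  have kk2 := Nat.mul_le_mul_left (d * h ^ 60) ((hEX.mono (h ^ 96) (2 * (d * h ^ 60))
    (5 * (d * h ^ 60)) 1 (27 * (d * h ^ 60)) S' S' (by omega) (by omega)
    fun _ _ _ => le_rfl).trans m3')
  have kk3 := Nat.mul_le_mul_right (h ^ 153) h1
  obtain ⟨L, l1, F, f1, l2, f2, f3, g⟩ := hBS d (d * h ^ 60) (h ^ 101) (h ^ 51) ε (h ^ 96) h M S'
    hodd h5 (by omega) (by omega) (by omega)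
    (by linarith [k0 hh 101 102 (by norm_num), z0 hh 101 (by norm_num)]) (by omega) (fun x hx => by
      have := (m1' x hx).2
      refine ⟨(m1' x hx).1, this.1, this.2, ((Nat.mul_le_mul_left _ this.2).trans_lt h6).trans_le
        (Nat.le_mul_of_pos_right _ (by omega))⟩)
    (by linarith [k2 hh d 155 156 (by norm_num), k2 hh d 153 156 (by norm_num), Nat.zero_le (d * h ^ 156)])
  obtain ⟨M', rfl⟩ := Multiset.le_iff_exists_add.1 l1
  obtain ⟨S'', rfl⟩ := Multiset.le_iff_exists_add.1 f1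
  rw [add_tsub_cancel_left] at g
  have kk4 : 1000 * F.sum ≤ d * h ^ 154 := by
    linarith [k2 hh d 153 154 (by norm_num), Nat.zero_le (d * h ^ 154)]
  refine ⟨L, M', F, S'', rfl, rfl, by linarith, fun f hf => Nat.even_iff.1 (f2 f hf).1, kk4, ?_, g⟩
  have kk5 : F.card * (2 * (d * h ^ 60)) ≤ F.sum := sum_ge fun f hf => (f2 f hf).2.1
  refine Nat.le_of_mul_le_mul_left ?_ (by omega : 0 < d * h ^ 60)
  linarith [k2 hh d 154 155 (by norm_num), Nat.zero_le (d * h ^ 154), Nat.zero_le F.sum]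

lemma AX_le (h5 : 5 ≤ d) (hh : 10000 ≤ h) :
    AP (12 * h ^ 35 + 1) ≤ 15 * (d * h ^ 70) ∧ AP (12 * h ^ 35 + 2) ≤ 15 * (d * h ^ 70) := by
  have h1 : 1 ≤ d := by omega
  rw [AP_1, AP_2]
  have := Nat.mul_le_mul_right (h ^ 70) h5
  have := k0 hh 35 70 (by norm_num)
  have := z0 hh 70 (by norm_num)
  constructor <;> linarith [Nat.zero_le (h ^ 70)]

lemma finX (hSB : St_SB) (hodd : Odd d) (h5 : 5 ≤ d) (hh : 10000 ≤ h)
    {Hs O Ex : Multiset ℕ} (a1 : Hs.Nodup) (a2 : Hs.card = 2 * h ^ 58)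
    (a3 : O.card = 2 * h ^ 58 * (12 * h ^ 35))
    (a5 : ∀ x ∈ Hs, 28 * (d * h ^ 70) ≤ x ∧ x % 2 = 1)
    (a6 : ∀ x ∈ O, 22 * (d * h ^ 70) ≤ x ∧ x ≤ 27 * (d * h ^ 70) ∧ x % 2 = 1)
    (x1 : ∀ x ∈ Ex, x % 2 = 1) (x2 : ∀ x ∈ Ex, x < 28 * (d * h ^ 60)) (x3 : Ex.card ≤ h ^ 102)
    (hs : (Hs + O + Ex).sum = d * (2 * h ^ 58 * CP (12 * h ^ 35 + 1) + Ex.card)) :
    GD d (Hs + O + Ex) := by
  have h1 : 1 ≤ d := by omega
  have A1 := (AX_le h5 hh).1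
  have q3 := k2 hh d 60 70 (by norm_num)
  have q4 := z3 hh h1 70 (by norm_num)
  have kk1 : Ex.card / (2 * h ^ 58) ≤ h ^ 44 := Nat.div_le_of_le_mul (by
    have : 2 * h ^ 58 * h ^ 44 = 2 * h ^ 102 := by ring
    omega)
  have kk2 := k3 hh h1 44 70 (by norm_num)
  refine hSB.sbx d (12 * h ^ 35 + 1) (2 * h ^ 58) Hs O Ex hodd h5
    (by have := z0 hh 35 (by norm_num); omega) (by have := z0 hh 58 (by norm_num); omega)
    (by rw [AP_1, Nat.odd_iff]; omega) a1 a2 a3 (fun x hx => ?_) (fun a ha b hb => ?_)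
    (fun b hb => ⟨?_, fun x hx => ?_⟩) hs
  · simp only [Multiset.mem_add] at hx
    rw [Nat.odd_iff]
    rcases hx with (hx | hx) | hx
    exacts [(a5 x hx).2, (a6 x hx).2.2, x1 x hx]
  · have := a5 a ha; have := a6 b hb; omega
  · have := a6 b hb; omega
  · have := a6 b hb; have := x2 x hx; omega

lemma finZ (hSB : St_SB) (hodd : Odd d) (h5 : 5 ≤ d) (hh : 10000 ≤ h)
    {Zb Fz : Multiset ℕ} (a4 : Zb.card = 2 * h ^ 58 * (12 * h ^ 35 + 2))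
    (a7 : ∀ x ∈ Zb, 22 * (d * h ^ 70) ≤ x ∧ x % 2 = 0) (y1 : ∀ x ∈ Fz, x % 2 = 0)
    (y2 : ∀ x ∈ Fz, x < 28 * (d * h ^ 60)) (y3 : (Zb + Fz).card ≤ h ^ 102)
    (hs : (Zb + Fz).sum = d * (2 * h ^ 58 * CP (12 * h ^ 35 + 2))) : GD d (Zb + Fz) := by
  have h1 : 1 ≤ d := by omega
  have A1 := (AX_le h5 hh).2
  have q3 := k2 hh d 60 70 (by norm_num)
  refine hSB.sb d (12 * h ^ 35 + 2) (2 * h ^ 58) Zb Fz hodd h5 (by omega) a4
    (fun b hb => ⟨?_, ?_, fun x hx => ?_⟩) (fun f hf => Nat.even_iff.2 (y1 f hf)) hs (y3.trans ?_)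
  · rw [AP_2, (a7 b hb).2]; omega
  · have := a7 b hb; omega
  · have := a7 b hb; have := y2 x hx; omega
  · rw [CP_eq (AP_2 (h ^ 35))]
    linarith [k0 hh 102 163 (by norm_num), Nat.zero_le (h ^ 102), Nat.zero_le (h ^ 128),
      Nat.zero_le (h ^ 93), Nat.zero_le (h ^ 58)]

end MP7ebc2a.AA.O2
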