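import Pool.Agent.Lib.AA25.Blue3

/-! Degree three: values of fillings. -/

namespace MP7ebc2a.AA
open Equiv Finset

namespace DEV

variable {R R' β β' α α' κ κ' : Type} [CommRing R] [CommRing R'] [Fintype β] [DecidableEq β]
  [Fintype α] [DecidableEq κ] [Fintype β'] [DecidableEq β'] [Fintype α'] [DecidableEq κ']

lemma map (f : R →+* R') (u : β → ℕ) (v : β → κ) (ω : (Fin 3 → ℕ) → R) (τ : β ≃ α × Fin 3) :
    f (Ev u v ω τ) = Ev u v (fun t => f (ω t)) τ := by
  simp only [Ev, map_sum, map_mul, map_prod, map_intCast]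

lemma alt_map (f : R →+* R') {c : ℕ} {ω : (Fin 3 → ℕ) → R} (h : Alt c ω) :
    Alt c fun t => f (ω t) :=
  ⟨fun σ t => by simp only [h.1, map_mul, map_intCast],
    fun t k k' h1 h2 h3 => (congrArg f (h.2 t k k' h1 h2 h3)).trans (map_zero f)⟩

lemma spec (c : ℕ) (u : β → ℕ) (v : β → κ) (ω : (Fin 3 → ℕ) → Polynomial ℤ) (τ : β ≃ α × Fin 3)
    (h : Alt c ω) (h0 : Ev u v ω τ ≠ 0) : ∃ ω' : (Fin 3 → ℕ) → ℤ, Alt c ω' ∧ Ev u v ω' τ ≠ 0 := by
  obtain ⟨a, ha⟩ : ∃ a, (Ev u v ω τ).eval a ≠ 0 := by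
    by_contra! k
    exact h0 (Polynomial.funext fun a => (k a).trans Polynomial.eval_zero.symm)
  exact ⟨_, alt_map (Polynomial.evalRingHom a) h, map (Polynomial.evalRingHom a) u v ω τ ▸ ha⟩

lemma mul (u : β → ℕ) (v : β → κ) (u' : β' → ℕ) (v' : β' → κ') (ω : (Fin 3 → ℕ) → R)
    (τ : β ≃ α × Fin 3) (τ' : β' ≃ α' × Fin 3) : Ev u v ω τ * Ev u' v' ω τ' =
      Ev (Sum.elim u u') (Sum.map v v') ω
        ((τ.sumCongr τ').trans (sumProdDistrib α α' (Fin 3)).symm) := by
  rw [Ev, Ev, sum_mul_sum, ← sum_product']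
  refine sum_nbij (Perm.sumCongrHom β β') (fun g hg => ?_) Perm.sumCongrHom_injective.injOn
    (fun g hg => ?_) fun g _ => ?_
  · simp only [mem_product, mem_filter, mem_univ, true_and] at hg ⊢
    rintro (x | x) <;> simp [hg.1, hg.2]
  · have hg := (mem_filter.1 hg).2
    obtain ⟨p, rfl⟩ := Perm.mem_sumCongrHom_range_of_perm_mapsTo_inl (σ := g) (by
      rintro _ ⟨x, rfl⟩
      have := hg (Sum.inl x)
      rcases e : g (Sum.inl x) with y | y
      · exact ⟨y, rfl⟩
      · simp [e] at this)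
    refine ⟨p, ?_, rfl⟩
    simp only [coe_product, Set.mem_prod, mem_coe, mem_filter, mem_univ, true_and]
    exact ⟨fun x => by simpa using hg (Sum.inl x), fun x => by simpa using hg (Sum.inr x)⟩
  · rw [Perm.sumCongrHom_apply, Perm.sign_sumCongr, Units.val_mul, Int.cast_mul, mul_mul_mul_comm,
      Fintype.prod_sum_type]
    rfl

end DEV

open DEV in
theorem st_EV : St_EV where
  map := DEV.map
  spec := DEV.spec
  tr := by
    intro β β' α α' κ κ' _ _ _ _ _ _ _ _ c u v p u' v' p' e f hu hv hp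
    rintro ⟨τ, ω, h1, h2, h3⟩
    refine ⟨e.symm.trans (τ.trans (f.prodCongr (Equiv.refl _))), ω, h1,
      fun h => h2 (Eq.trans ?_ h), fun j k k' a b => h3 (f.symm j) k k' (hp _ a) (hp _ b)⟩
    refine sum_equiv e.permCongr (fun g => ?_) fun g _ => ?_
    · simp only [mem_filter, mem_univ, true_and, permCongr_apply]
      exact ⟨fun h x => by simpa using (hv _ _).1 (h (e.symm x)), fun h x => by
        simpa [← hv] using h (e x)⟩
    · rw [Perm.sign_permCongr]
      refine congrArg _ (Fintype.prod_equiv f _ _ fun j => congrArg ω (funext fun k => ?_))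
      rw [← hu]
      simp
  prod := by
    intro β β' α α' κ κ' _ _ _ _ _ _ _ _ c u v p u' v' p'
    rintro ⟨τ, ω, h1, h2, h3⟩ ⟨τ', ω', k1, k2, k3⟩
    let w : (Fin 3 → ℕ) → Polynomial ℤ := fun t =>
      (1 - Polynomial.X) * Polynomial.C (ω t) + Polynomial.X * Polynomial.C (ω' t)
    obtain ⟨w', a, b⟩ := DEV.spec c (Sum.elim u u') (Sum.map v v') w
      ((τ.sumCongr τ').trans (sumProdDistrib α α' (Fin 3)).symm)
      ⟨fun σ t => by simp only [w, h1.1, k1.1, map_mul, map_intCast]; ring,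
        fun t k k' a b d => by simp [w, h1.2 t k k' a b d, k1.2 t k k' a b d]⟩ (by
        rw [← DEV.mul]
        refine mul_ne_zero (fun h => h2 ?_) fun h => k2 ?_
        · have := DEV.map (Polynomial.evalRingHom 0) u v w τ
          rw [h, map_zero] at this
          simpa [w] using this.symm
        · have := DEV.map (Polynomial.evalRingHom 1) u' v' w τ'
          rw [h, map_zero] at this
          simpa [w] using this.symm)
    refine ⟨_, w', a, b, ?_⟩
    rintro (j | j) k k'
    exacts [h3 j k k', k3 j k k']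
  gh := by
    intro β α κ _ _ _ _ _ c u v p
    rintro ⟨τ, ω, h1, h2, -⟩
    refine ⟨fun ρ => ∏ j, ω fun k => u (ρ.symm (j, k)), fun g hg ρ => ?_, fun w ρ => ?_,
      fun σ ρ => ?_, τ, fun h => h2 (Eq.trans ?_ h)⟩
    · refine prod_congr rfl fun j _ => congrArg ω (funext fun k => ?_)
      rw [← hg]
      simp
    · rw [pow_zero, one_mul]
      exact Equiv.prod_comp w.symm fun j => ω fun k => u (ρ.symm (j, k))
    · beta_reduce
      rw [pow_one, ← prod_mul_distrib]
      refine prod_congr rfl fun j _ => ?_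
      rw [← Perm.sign_symm]
      exact h1.1 (σ j).symm fun k => u (ρ.symm (j, k))
    · refine sum_equiv (Equiv.inv _) (fun g => ?_) fun g _ => ?_
      · simp only [mem_filter, mem_univ, true_and, inv_apply]
        exact ⟨fun h x => by simpa using (h (g⁻¹ x)).symm, fun h x => by simpa using (h (g x)).symm⟩
      · rw [inv_apply, Perm.sign_inv]
        rfl

end MP7ebc2a.AA
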