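import Pool.Agent.Lib.AA25.Blue3

/-! From a closed family of monomials to a filling of the whole shape. -/

namespace MP7ebc2a.AA
open Equiv Finset

namespace DJET

lemma alt_inv {β X κ : Type} [Fintype β] [DecidableEq β] [DecidableEq κ] (v : β → κ)
    (φ : (β ≃ X) → ℤ) (τ : β ≃ X) : alt v φ τ =
      ∑ g : Perm β with ∀ x, v (g x) = v x, ((Perm.sign g : ℤˣ) : ℤ) * φ (g.symm.trans τ) := by
  have k : ∀ g : Perm β, (∀ x, v (g x) = v x) → ∀ x, v (g.symm x) = v x := fun g hg x => by
    rw [← hg (g.symm x), apply_symm_apply]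
  refine sum_nbij' (fun g => g.symm) (fun g => g.symm) (fun g hg => ?_) (fun g hg => ?_)
    (fun _ _ => rfl) (fun _ _ => rfl) fun g _ => ?_
  · exact mem_filter.2 ⟨mem_univ _, k g (mem_filter.1 hg).2⟩
  · exact mem_filter.2 ⟨mem_univ _, k g (mem_filter.1 hg).2⟩
  · rw [Perm.sign_symm, symm_symm]

/-- permutations that keep the columns, when the two parts have different columns -/
lemma split {B C ι : Type} [Fintype B] [DecidableEq B] [Fintype C] [DecidableEq C]
    [DecidableEq ι] (n : ℕ) (k : B → ℕ) (l : C → ι) (m : ι → ℕ) (hk : ∀ x, k x < n)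
    (hm : Function.Injective m) (F : Perm (B ⊕ C) → ℤ) :
    ∑ g : Perm (B ⊕ C) with ∀ x, Sum.elim k (fun y => n + m (l y)) (g x) =
        Sum.elim k (fun y => n + m (l y)) x, ((Perm.sign g : ℤˣ) : ℤ) * F g =
      ∑ b : Perm C with ∀ y, l (b y) = l y, ((Perm.sign b : ℤˣ) : ℤ) *
        ∑ a : Perm B with ∀ x, k (a x) = k x, ((Perm.sign a : ℤˣ) : ℤ) * F (a.sumCongr b) := by
  simp only [mul_sum]
  rw [sum_comm, ← sum_product']
  symm
  refine sum_nbij (Perm.sumCongrHom B C) (fun g hg => ?_) Perm.sumCongrHom_injective.injOn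
    (fun g hg => ?_) fun g _ => ?_
  · simp only [mem_product, mem_filter, mem_univ, true_and] at hg ⊢
    rintro (x | x) <;> simp [hg.1, hg.2]
  · have hg := (mem_filter.1 hg).2
    obtain ⟨p, rfl⟩ := Perm.mem_sumCongrHom_range_of_perm_mapsTo_inl (σ := g) (by
      rintro _ ⟨x, rfl⟩
      have := hg (Sum.inl x)
      rcases e : g (Sum.inl x) with y | y
      · exact ⟨y, rfl⟩
      · have := hk x
        simp only [e, Sum.elim_inr, Sum.elim_inl] at *
        omega)
    refine ⟨p, ?_, rfl⟩
    simp only [coe_product, Set.mem_prod, mem_coe, mem_filter, mem_univ, true_and]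
    exact ⟨fun x => by simpa using hg (Sum.inl x), fun x => hm (by simpa using hg (Sum.inr x))⟩
  · rw [Perm.sumCongrHom_apply, Perm.sign_sumCongr, Units.val_mul]
    ring

lemma card_row {ι : Type} [Fintype ι] [DecidableEq ι] (ν : ι → ℕ) (r : ι) :
    #{x : Bx ν | x.1 = r} = ν r := by
  rw [card_filter, Fintype.sum_sigma, sum_eq_single_of_mem r (mem_univ _) fun b _ hb => by simp [hb]]
  simp

end DJET

open DJET in
theorem st_JET (hE : St_EV) (hD : St_DUAL3) (hP : St_PHI) (hW : St_HW2) (hT : St_TH)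
    (hN : St_NZ) : St_JET := by
  intro α J _ _ _ _ s n c lam f q hd hc hl ha hn hj h1 hf hu hI
  classical
  have hf' : Function.Injective fun x => ((f x, 0) : α × Fin 3) := fun x y h =>
    hf (congrArg Prod.fst h)
  let B := Bx fun r => min (lam r) n
  let Y := {y : α × Fin 3 // y ∉ Set.range fun x => ((f x, 0) : α × Fin 3)}
  let e : B ⊕ Y ≃ α × Fin 3 :=
    ((Equiv.ofInjective _ hf').sumCongr (Equiv.refl _)).trans (Equiv.sumCompl _)
  have he : ∀ x, e (.inl x) = (f x, 0) := fun _ => rfl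
  have kn : ∀ x : B, (x.2 : ℕ) < n := fun x => x.2.2.trans_le (min_le_right _ _)
  let μ : Fin s → ℕ := fun a => lam (.inl a) - n
  have hμ : Antitone μ := fun a b h => Nat.sub_le_sub_right (ha h) n
  have hN' : ∀ a, μ a ≤ ∑ a, μ a := fun a => single_le_sum (fun _ _ => Nat.zero_le _) (mem_univ a)
  let ν : Fin (∑ a, μ a) → ℕ := fun k => colLen μ k
  have hν : ∀ k, ν k ≤ s := fun k => colLen_le μ k
  have ext : ∀ x y : B, x.1 = y.1 → (x.2 : ℕ) = y.2 → x = y := fun x y h h' =>
    Sigma.ext h ((Fin.heq_ext_iff (by rw [h])).2 h')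
  obtain ⟨e', h0⟩ := hW s _ ν hν (Th c e (fun x : B => x.1) fun x => (x.2 : ℕ))
    (fun P hP a => by
      have := hT.wt c e (fun x : B => x.1) (fun x => (x.2 : ℕ)) P hP a
      rw [hl, card_row, min_eq_right (hn a)] at this
      simp only [ν, lt_colLen hμ]
      rw [card_lt_fin (hN' a)]
      exact Nat.eq_sub_of_add_eq this)
    (fun U Z => hT.inv c e _ _ U Z hd hc ext fun x a =>
      ⟨⟨.inl a, x.2, lt_min ((kn x).trans_le (hn a)) (kn x)⟩, rfl, rfl⟩)
    (hN c e f _ _ q hd he hu hI)
  let R : B ⊕ Bx ν → Fin s ⊕ J := Sum.elim (fun x => x.1) fun x => .inl (HW.rw hν x)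
  let K : B ⊕ Bx ν → ℕ := Sum.elim (fun x => x.2) fun x => n + x.1
  have key : FB n (B ⊕ Bx ν) α K R fun x => (R x).isRight = true := by
    refine hD R K _ n (fun τ => f0 c fun y => R (τ.symm y))
      (((Equiv.refl B).sumCongr e').trans e) (fun g hg τ => ?_) (fun w τ => ?_) (fun σ τ => ?_) ?_
      (fun j k k' hk hk' => ?_) fun τ hτ j k k' hk hk' => ?_
    · refine congrArg (f0 c) (funext fun y => ?_)
      rw [← hg]
      simp
    · rw [← Perm.sign_symm]
      exact hP.lett c (fun y => R (τ.symm y)) w.symm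
    · exact hP.slot c (fun y => R (τ.symm y)) fun j => (σ j).symm
    · rw [alt_inv]
      refine fun h => h0 (Eq.trans ?_ h)
      refine Eq.trans ?_ (split n (fun x : B => (x.2 : ℕ)) (fun x : Bx ν => x.1) Fin.val kn
        Fin.val_injective fun g => f0 c fun y =>
          R ((g.symm.trans (((Equiv.refl B).sumCongr e').trans e)).symm y)).symm
      refine sum_congr rfl fun b _ => congrArg _ (sum_congr rfl fun a _ => congrArg _
        (congrArg (f0 c) (funext fun y => ?_)))
      obtain ⟨z, rfl⟩ := e.surjective y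
      rcases z with z | z <;> simp [R]
    · have z : ∀ k, K ((((Equiv.refl B).sumCongr e').trans e).symm (j, k)) < n → k = 0 :=
        fun k hk => by
          obtain ⟨z, hz⟩ := (((Equiv.refl B).sumCongr e').trans e).surjective (j, k)
          rw [← hz, symm_apply_apply] at hk
          rcases z with z | z
          · exact (congrArg Prod.snd hz).symm
          · exact absurd hk (by simp [K])
      rw [z k hk, z k' hk']
    · obtain ⟨w, w1, w2⟩ := hP.wt c _ hτ
      rw [w2] at hk hk'
      rw [← w1 j k k'] at hk'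
      exact congrArg Prod.snd (w.injective (Prod.ext (w1 j k k') (h1 _ _ _ hk hk')))
  have lt : ∀ x, K x < lam (R x) := by
    rintro (x | x)
    · exact x.2.2.trans_le (min_le_left _ _)
    · have : (x.1 : ℕ) < μ (HW.rw hν x) := (lt_colLen hμ _ _).1 x.2.2
      exact Nat.add_lt_of_lt_sub' this
  have bij : Function.Bijective fun x => (⟨R x, K x, lt x⟩ : Bx lam) := by
    refine ⟨fun x y h => ?_, fun ⟨r, k⟩ => ?_⟩
    · have a : R x = R y := congrArg Sigma.fst h
      have b : K x = K y := congrArg (fun z : Bx lam => (z.2 : ℕ)) h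
      rcases x with x | x <;> rcases y with y | y
      · exact congrArg _ (ext x y a b)
      · exact absurd (kn x) (by simp only [K, Sum.elim_inl, Sum.elim_inr] at b; omega)
      · exact absurd (kn y) (by simp only [K, Sum.elim_inl, Sum.elim_inr] at b; omega)
      · have b' : x.1 = y.1 := Fin.ext (Nat.add_left_cancel b)
        exact congrArg _ (Sigma.ext b' ((Fin.heq_ext_iff (congrArg ν b')).2
          ((HW.rw_eq hν).1 (Sum.inl_injective a))))
    · by_cases hk : (k : ℕ) < n
      · exact ⟨.inl ⟨r, k, lt_min k.2 hk⟩, rfl⟩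
      · rcases r with a | j
        · have b : (k : ℕ) - n < μ a := Nat.sub_lt_sub_right (not_lt.1 hk) k.2
          refine ⟨.inr ⟨⟨k - n, b.trans_le (hN' a)⟩, a, (lt_colLen hμ _ _).2 b⟩, ?_⟩
          exact Sigma.ext rfl (heq_of_eq (Fin.ext (Nat.add_sub_cancel' (not_lt.1 hk))))
        · exact absurd (k.2.trans_le (hj j)) hk
  exact hE.tr n K R _ _ _ _ (Equiv.ofBijective _ bij) (Equiv.refl α) (fun _ => rfl)
    (fun _ _ => Iff.rfl) (fun _ h => h) key

end MP7ebc2a.AA
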