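import Pool.Agent.Lib.AA25.Blue3

/-! Degree three, row LOOP: the zones one after the other. -/

namespace MP7ebc2a.AA
open Finset

namespace DLOOP

lemma card_le (s : Multiset ℕ) (N m : ℕ) (h1 : ∀ x ∈ s, x < N) (h2 : ∀ i < N, s.count i ≤ m) :
    s.card ≤ m * N := by
  have h : s ≤ m • Multiset.range N := Multiset.le_iff_count.2 fun i => by
    by_cases hi : i < N
    · rw [Multiset.count_nsmul, Multiset.count_eq_one_of_mem (Multiset.nodup_range N)
        (Multiset.mem_range.2 hi), mul_one]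
      exact h2 i hi
    · rw [Multiset.count_eq_zero.2 fun hx => hi (h1 i hx)]
      exact Nat.zero_le _
  simpa using Multiset.card_le_card h

lemma load {h j n S T : ℕ} (hh : 10 ^ 6 ≤ h) (j1 : j ≤ 1993) (hn : n ≤ h ^ (2002 - (1000 - j)))
    (hT : T ≤ n * (h ^ ((j + 1) / 2 + 1) + 2) + h ^ ((j + 1) / 2 + 1) * h ^ (j + 1))
    (hS : h ^ (j / 4 + 1) * S ≤ T + n * (h ^ (j / 4 + 1) * (h ^ (j / 4 + 1) + 2))) :
    S ≤ h ^ l0 j := by
  have h1 : 1 ≤ h := by omega
  have p : ∀ a, 0 < h ^ a := fun a => Nat.pow_pos h1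
  have m : ∀ a b, a ≤ b → h ^ a ≤ h ^ b := fun a b => Nat.pow_le_pow_right h1
  set a := 2002 - (1000 - j) with ha
  set W := h ^ (2 * (j / 4) + 3) with hW
  have q1 : h ^ ((j + 1) / 2 + 1) ≤ W := m _ _ (by omega)
  have q2 : h ^ (j + 1) ≤ h ^ a := m _ _ (by omega)
  have q3 : h ^ (j / 4 + 1) * h ^ (j / 4 + 1) ≤ W := by
    rw [← pow_add]
    exact m _ _ (by omega)
  have q4 : h ^ (j / 4 + 1) ≤ W := m _ _ (by omega)
  have q5 : 0 < W := p _
  have e1 : n * (h ^ ((j + 1) / 2 + 1) + 2) ≤ h ^ a * (3 * W) := Nat.mul_le_mul hn (by omega)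
  have e2 : h ^ ((j + 1) / 2 + 1) * h ^ (j + 1) ≤ W * h ^ a := Nat.mul_le_mul q1 q2
  have e3 : n * (h ^ (j / 4 + 1) * (h ^ (j / 4 + 1) + 2)) ≤ h ^ a * (3 * W) :=
    Nat.mul_le_mul hn (by rw [mul_add]; omega)
  have e4 : 1000000 * (h ^ a * W) ≤ h ^ (j / 4 + 1) * h ^ l0 j := by
    rw [hW, ← pow_add, ← pow_add]
    exact n0 hh _ _ (by unfold l0; omega)
  refine Nat.le_of_mul_le_mul_left ?_ (p (j / 4 + 1))
  have e5 : h ^ a * (3 * W) = 3 * (h ^ a * W) := by ring
  have e6 : W * h ^ a = h ^ a * W := mul_comm _ _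
  omega

end DLOOP

open DLOOP

theorem st_LOOP (hA : St_AR) (hU : St_UT) (hF : St_FORM) (hZ : St_ZONE) : St_LOOP := by
  intro h G k
  induction k with
  | zero =>
    intro r M _ _ _ _ _ _ hx _
    exact ⟨0, M, (zero_add M).symm, hA.gd 0 0 (hA.zero 0 0 0), hx⟩
  | succ k ih =>
    intro r M hh hR hk hr hc hn hx hI
    obtain ⟨j, hj⟩ : ∃ j, j = 450 + k := ⟨_, rfl⟩
    rw [show 450 + (k + 1) = j + 1 by omega] at hx
    rw [show 449 + (k + 1) = j by omega] at hI
    have h1 : 1 ≤ h := by omega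
    have p : ∀ a, 0 < h ^ a := fun a => Nat.pow_pos h1
    have m : ∀ a b, a ≤ b → h ^ a ≤ h ^ b := fun a b => Nat.pow_le_pow_right h1
    have g0 : 1000000 ≤ h ^ j := by simpa using n0 hh 0 j (by omega)
    have g1 := n0 hh (min (j - 1) 1840) j (by omega)
    have g2 : (h ^ ((j + 1) / 2 + 1) + 1) * h ≤ 2 * h ^ ((j + 1) / 2 + 2) := by
      rw [pow_succ h ((j + 1) / 2 + 1), ← mul_assoc]
      exact Nat.mul_le_mul_right _ (by have := p ((j + 1) / 2 + 1); omega)
    have g3 := n0 hh ((j + 1) / 2 + 2) j (by omega)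
    have g4 := n0 hh ((j + 1) / 2 + 2) (min (j - 4) 1680) (by omega)
    have g5 := m ((j + 1) / 2 + 1) ((j + 1) / 2 + 2) (by omega)
    have g6 := p ((j + 1) / 2 + 1)
    obtain ⟨P, L, M', e, a1, a2, a3, -, a5, a6, a7⟩ := hF h (h ^ j) (h ^ 1995)
      ((h ^ ((j + 1) / 2 + 1) + 1) * h) (h ^ ((j + 1) / 2 + 1)) (h ^ min (j - 1) 1840) (h ^ (j + 1)) M
      (fun x b => (hx x b).le)
      (by
        have := n0 hh (j + 1) (((j + 1) / 2 + 1) * 2) (by omega)
        have := p (j + 1)
        rw [← pow_mul]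
        omega)
      (fun u u1 u2 ⟨y, y1, y2⟩ => by
        obtain ⟨i, i1, i2, i3⟩ := hR.1 u (by omega) u2
        have t := hI i i3 (Or.inr ⟨y, y1, by omega⟩)
        have t1 : 0 < mu h i := Nat.div_pos (max_le (by omega) (m _ _ (by omega)))
          (lt_max_of_lt_right (p _))
        exact ⟨i, Multiset.count_pos.1 (lt_of_lt_of_le (Nat.mul_pos (by omega) t1) t), i1, i2⟩)
      (m _ _ (by omega)) (by omega) le_rfl (by omega) (by omega)
    rw [a5 (m _ _ (by omega)), add_zero] at e a7
    have sub : ∀ i, M.count i = (tot P).count i + M'.count i := fun i => by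
      rw [e, Multiset.count_add]
    have keep : ∀ i, G i → (2 * i < h ^ j ∨ ∃ y ∈ M', i < y) → r * mu h i ≤ M'.count i :=
      fun i b c => by
      have t := hI i b (c.imp_right fun ⟨y, y1, y2⟩ => ⟨y, e ▸ Multiset.mem_add.2 (Or.inr y1), y2⟩)
      have t0 : (tot P).count i = 0 := Multiset.count_eq_zero.2 fun d => by
        rcases c with c | ⟨y, y1, y2⟩
        · have := (a7 i d).1
          omega
        · have := (a7 i d).2 y y1
          omega
      rwa [sub, t0, zero_add] at t
    have cP : P.card ≤ h ^ (2002 - (1000 - j)) := by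
      have t : P.card ≤ M.card := by
        rw [e, Multiset.card_add, tot, Multiset.card_map]
        omega
      refine t.trans ?_
      by_cases b : j < 1000
      · refine (card_le M _ (h ^ 996) hx fun i c =>
          hn i (c.trans_le (m _ _ (by omega)))).trans ?_
        rw [← pow_add]
        exact m _ _ (by omega)
      · exact hc.trans (m _ _ (by omega))
    obtain ⟨U, u1, u2, u3⟩ := hZ h G j 0 M' P hh hR (by omega) (by omega)
      (by rwa [zero_add]) (fun q b => by have := a2 q b; omega)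
      (load hh (by omega) cP a3 (by
        have t := hU.lds (h ^ (j / 4 + 1)) (sn P)
        rwa [show (sn P).card = P.card from Multiset.card_map _ _] at t))
      (fun i b c => (Nat.mul_le_mul_right _ (by omega)).trans (keep i b (Or.inl (by
        have := p (min (j - 1) 1840)
        omega))))
    obtain ⟨N, rfl⟩ := Multiset.le_iff_exists_add.1 u1
    obtain ⟨A, M₀, e2, b1, b2⟩ := ih (r - 6) N hh hR (by omega) (by omega)
      (by
        rw [e, Multiset.card_add, Multiset.card_add] at hc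
        omega)
      (fun i b => by
        have := hn i b
        rw [sub, Multiset.count_add] at this
        omega)
      (fun x b => hj ▸ a6 x (Multiset.mem_add.2 (Or.inr b)))
      (fun i b c => by
        have t := keep i b (c.imp (fun d => d.trans_le (m _ _ (by omega)))
          fun ⟨y, y1, y2⟩ => ⟨y, Multiset.mem_add.2 (Or.inr y1), y2⟩)
        have := u2 i
        rw [Multiset.count_add] at t
        rw [Nat.sub_mul]
        omega)
    refine ⟨0 + tot P + U + A, M₀, ?_, all_SB.add 3 _ _ u3 b1, b2⟩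
    rw [e, e2, zero_add]
    simp only [add_assoc]

end MP7ebc2a.AA
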