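import Pool.Agent.Lib.MP_7ebc2a_al.Step
import Pool.Agent.Lib.MP_7ebc2a_al.Rep3

/-! Lemmas of the earlier files on this problem that are used again, repeated here so that the
long chain of finite certificates is not imported. -/

namespace MP7ebc2a.AA
open Equiv Matrix

lemma index_cols {α β ι : Type*} [Inhabited α] (f : α → β) (g : ι → β) (s : Finset ι)
    (T : Multiset α) (h : T.map f = s.val.map g) :
    ∃ c : ι → α, T = s.val.map c ∧ ∀ k ∈ s, f (c k) = g k := by
  classical
  induction s using Finset.induction_on generalizing T with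
  | empty => exact ⟨default, by simpa using h, by simp⟩
  | insert k s hk ih =>
    rw [Finset.insert_val_of_notMem hk, Multiset.map_cons] at h
    obtain ⟨a, ha, h1, h2⟩ := (Multiset.map_eq_cons f T _ _).2 h
    obtain ⟨c, h3, h4⟩ := ih _ h2
    refine ⟨Function.update c k a, ?_, fun j hj => ?_⟩
    · rw [Finset.insert_val_of_notMem hk, Multiset.map_cons, Function.update_self,
        ← Multiset.cons_erase ha, h3]
      congr 1
      exact Multiset.map_congr rfl fun j hj =>
        (Function.update_of_ne (fun e => hk (by rw [← e]; exact hj)) _ _).symm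
    · rcases Finset.mem_insert.1 hj with rfl | hj
      · simpa using h1
      · rw [Function.update_of_ne (fun e => hk (by rw [← e]; exact hj)), h4 j hj]

variable {R : Type*} [CommRing R] {m : ℕ}

def mat (m : ℕ) (Z : ℕ → ℕ → R) : Matrix (Fin m) (Fin m) R := Matrix.of fun i j => Z i j

lemma D_full {c : List ℕ} (h1 : c.Nodup) (h2 : ∀ j ∈ c, j < m) (h3 : c.length = m) :
    ∃ σ : Perm (Fin m), ∀ Z : ℕ → ℕ → R, D Z c = (Perm.sign σ : ℤ) * (mat m Z).det := by
  subst h3
  let f : Fin c.length → Fin c.length := fun i => ⟨c.getD i 0, h2 _ (getD_mem i.2)⟩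
  have hf : Function.Injective f := by
    intro a b hab
    have hab' : c.getD a 0 = c.getD b 0 := congrArg Fin.val hab
    rw [List.getD_eq_getElem _ _ a.2, List.getD_eq_getElem _ _ b.2] at hab'
    exact Fin.ext ((List.Nodup.getElem_inj_iff h1).1 hab')
  refine ⟨Equiv.ofBijective f (Finite.injective_iff_bijective.1 hf), fun Z => ?_⟩
  rw [← det_permute']
  rfl

lemma E_full (Z : ℕ → ℕ → R) (T : Multiset (List ℕ))
    (h : ∀ c ∈ T, (c.Nodup ∧ ∀ j ∈ c, j < m) ∧ c.length = m) (w : Perm (Fin m)) :
    E (fun r j => Z r (wa w j)) T = ((Perm.sign w : ℤ) : R) ^ T.card * E Z T := by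
  induction T using Multiset.induction_on with
  | empty => simp
  | cons c T ih =>
    have hc := h c (Multiset.mem_cons_self _ _)
    obtain ⟨σ, hσ⟩ := D_full (R := R) hc.1.1 hc.1.2 hc.2
    have : mat m (fun r j => Z r (wa w j)) = (mat m Z).submatrix id w := by
      ext i j; simp [mat, wa_coe]
    rw [E_cons, E_cons, ih fun c' h' => h c' (Multiset.mem_cons_of_mem h'), hσ, hσ, this,
      det_permute', Multiset.card_cons]
    ring

def colLen (lam : Fin m → ℕ) (k : ℕ) : ℕ := (Finset.univ.filter fun i => k < lam i).card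

lemma colLen_le (lam : Fin m → ℕ) (k : ℕ) : colLen lam k ≤ m :=
  (Finset.card_le_univ _).trans (by simp)

lemma lt_colLen {lam : Fin m → ℕ} (hl : Antitone lam) (i : Fin m) (k : ℕ) :
    (i : ℕ) < colLen lam k ↔ k < lam i := by
  unfold colLen
  constructor
  · intro h
    by_contra hk
    have : (Finset.univ.filter fun j => k < lam j) ⊆ Finset.Iio i := fun j hj => by
      rw [Finset.mem_Iio]
      by_contra hij
      have := hl (not_lt.1 hij)
      have := (Finset.mem_filter.1 hj).2
      omega
    have := Finset.card_le_card this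
    rw [Fin.card_Iio] at this
    omega
  · intro h
    have : Finset.Iic i ⊆ Finset.univ.filter fun j => k < lam j := fun j hj =>
      Finset.mem_filter.2 ⟨Finset.mem_univ _, h.trans_le (hl (Finset.mem_Iic.1 hj))⟩
    have := Finset.card_le_card this
    rw [Fin.card_Iic] at this
    omega

lemma card_lt_fin {N a : ℕ} (h : a ≤ N) :
    (Finset.univ.filter fun k : Fin N => (k : ℕ) < a).card = a := by
  rw [Fin.card_filter_val_lt]; omega

lemma countP_univ {ι α : Type*} (s : Finset ι) (f : ι → α) (p : α → Prop) [DecidablePred p] :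
    (s.val.map f).countP p = (s.filter fun i => p (f i)).card := by
  rw [Multiset.countP_map]; rfl

/-- the number of `i < S` congruent to `j` modulo `n` -/
def cn (n S j : ℕ) : ℕ := S / n + if j < S % n then 1 else 0

lemma cn_sum {n : ℕ} (hn : 0 < n) (S : ℕ) : ∑ j ∈ Finset.range n, cn n S j = S := by
  have := Nat.mod_lt S hn
  simp only [cn, Finset.sum_add_distrib, Finset.sum_const, Finset.card_range, smul_eq_mul]
  rw [← Finset.card_filter, show (Finset.range n).filter (· < S % n) = Finset.range (S % n) by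
    ext j; simp; omega, Finset.card_range, Nat.div_add_mod]

lemma cn_add {n : ℕ} (S σ : ℕ) {j : ℕ} (hj : j < n) :
    cn n (S + σ) j = cn n S j + σ / n ∨ cn n (S + σ) j = cn n S j + (σ / n + 1) := by
  have hn : 0 < n := by omega
  have h1 := Nat.mod_lt S hn
  have h2 := Nat.mod_lt σ hn
  unfold cn
  rw [Nat.add_div hn]
  by_cases h : n ≤ S % n + σ % n
  · have := Nat.add_mod_add_of_le_add_mod h
    split_ifs <;> omega
  · have := Nat.add_mod_of_add_mod_lt (not_le.1 h)
    split_ifs <;> omega

lemma cn_mul {n : ℕ} (hn : 0 < n) (q j : ℕ) : cn n (n * q) j = q := by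
  simp [cn, Nat.mul_div_cancel_left _ hn]

def VC (m : ℕ) (T : Multiset (List ℕ)) : Prop := ∀ c ∈ T, c.Nodup ∧ ∀ j ∈ c, j < m

lemma len_filter (p : ℕ → Prop) [DecidablePred p] :
    ((List.range m).filter p).length = ∑ i ∈ Finset.range m, if p i then 1 else 0 := by
  induction m with
  | zero => simp
  | succ m ih =>
    rw [List.range_succ, List.filter_append, List.length_append, ih, Finset.sum_range_succ]
    by_cases h : p m <;> simp [h]

lemma cyc (hm : 0 < m) (ν : Multiset ℕ) (h : ∀ x ∈ ν, x ≤ m) (S : ℕ) :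
    ∃ T, VC m T ∧ T.map List.length = ν ∧
      ∀ i < m, T.countP (i ∈ ·) + cn m S i = cn m (S + ν.sum) i := by
  induction ν using Multiset.induction_on generalizing S with
  | empty => exact ⟨0, by simp [VC], by simp, by simp⟩
  | cons q Q ih =>
    obtain ⟨P, e0, e1, e2⟩ := ih (fun x hx => h x (Multiset.mem_cons_of_mem hx)) (S + q)
    have h7 := h q (Multiset.mem_cons_self _ _)
    have key : ∀ i < m, (if cn m S i < cn m (S + q) i then 1 else 0) + cn m S i =
        cn m (S + q) i := fun i hi => by
      rcases h7.eq_or_lt with rfl | h7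
      · have : cn q (S + q) i = cn q S i + 1 := by
          simp only [cn, Nat.add_div_right _ hm, Nat.add_mod_right]; omega
        rw [this, if_pos (by omega), add_comm]
      · have := cn_add S q hi
        rw [Nat.div_eq_of_lt h7] at this
        split_ifs <;> omega
    refine ⟨(List.range m).filter (fun i => cn m S i < cn m (S + q) i) ::ₘ P, fun c hc => ?_, ?_,
      fun i hi => ?_⟩
    · rcases Multiset.mem_cons.1 hc with rfl | hc
      · exact ⟨List.nodup_range.filter _, fun j hj => List.mem_range.1 (List.mem_filter.1 hj).1⟩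
      · exact e0 c hc
    · have := Finset.sum_congr rfl fun i hi => key i (Finset.mem_range.1 hi)
      rw [Finset.sum_add_distrib, cn_sum hm, cn_sum hm, ← len_filter] at this
      rw [Multiset.map_cons, e1]
      congr 1
      omega
    · have := e2 i hi
      have := key i hi
      rw [Multiset.countP_cons, Multiset.sum_cons, ← add_assoc S]
      simp only [List.mem_filter, List.mem_range, hi, true_and, decide_eq_true_eq]
      omega

lemma sum_count {T : Multiset (List ℕ)} (hT : VC m T) :
    ∑ j ∈ Finset.range m, T.countP (j ∈ ·) = (T.map List.length).sum := by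
  induction T using Multiset.induction_on with
  | empty => simp
  | cons c T ih =>
    have hc := hT c (Multiset.mem_cons_self _ _)
    simp only [Multiset.countP_cons, Finset.sum_add_distrib, Multiset.map_cons, Multiset.sum_cons,
      ih fun l hl => hT l (Multiset.mem_cons_of_mem hl)]
    rw [add_comm, ← Finset.card_filter, ← List.toFinset_card_of_nodup hc.1]
    congr 2
    ext j
    simpa using hc.2 j

lemma good_sum {d : ℕ} {ν : Multiset ℕ} (h : Good m d ν) : ν.sum = m * d := by
  obtain ⟨T, h1, rfl, _⟩ := h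
  rw [← sum_count h1.1, Finset.sum_congr rfl fun j hj => h1.2 j (Finset.mem_range.1 hj)]
  simp

lemma ext_count {ν μ : Multiset ℕ} (h1 : ∀ x ∈ ν, x ≤ m) (h2 : ∀ x ∈ μ, x ≤ m)
    (h3 : ν.card = μ.card) (h4 : ∀ i : Fin m, ν.countP ((i : ℕ) < ·) = μ.countP ((i : ℕ) < ·)) :
    ν = μ := by
  have a : ∀ (ν : Multiset ℕ) (x : ℕ), ν.countP (x ≤ ·) = ν.count x + ν.countP (x + 1 ≤ ·) := by
    intro ν x
    induction ν using Multiset.induction_on with
    | empty => simp
    | cons a ν ih =>
      rw [Multiset.countP_cons, Multiset.countP_cons, Multiset.count_cons, ih]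
      split_ifs <;> omega
  have b : ∀ x, ν.countP (x ≤ ·) = μ.countP (x ≤ ·) := fun x => by
    rcases x with _ | x
    · simpa using h3
    by_cases hx : x < m
    · exact h4 ⟨x, hx⟩
    rw [Multiset.countP_eq_zero.2 fun y hy => by have := h1 y hy; omega,
      Multiset.countP_eq_zero.2 fun y hy => by have := h2 y hy; omega]
  ext x
  have := a ν x; have := a μ x; have := b x; have := b (x + 1)
  omega

theorem good_of_phi {N d e : ℕ} {ν : Fin N → ℕ} (hν : ∀ k, ν k ≤ m) (he : Even (d + e))
    (A : Matrix (Fin m) (Fin m) ℂ) (τ : Fill m ν) (h0 : A.det ≠ 0) (h1 : ∀ j, content τ j = d)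
    (h2 : Phi hν d A τ ≠ 0) :
    Good m (d + e) ((Finset.univ : Finset (Fin N)).val.map ν + Multiset.replicate e m) := by
  have inj : ∀ k, Function.Injective (τ k) := fun k i j hij => by
    by_contra hc
    refine h2 (Finset.sum_eq_zero fun w _ => mul_eq_zero_of_right _
      (Finset.prod_eq_zero (Finset.mem_univ k) (det_zero_of_column_eq hc fun r => ?_)))
    simp [act, hij]
  let c : Fin N → List ℕ := fun k => List.ofFn fun i => (τ k i : ℕ)
  let Z : ℕ → ℕ → ℂ := fun r j => if h : r < m ∧ j < m then A ⟨r, h.1⟩ ⟨j, h.2⟩ else 0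
  have hZ : mat m Z = A := by ext i j; simp [mat, Z]
  have h5 : ∀ l ∈ Multiset.replicate e (List.range m), (l.Nodup ∧ ∀ j ∈ l, j < m) ∧ l.length = m :=
    fun l hl => by
      rw [Multiset.eq_of_mem_replicate hl]
      exact ⟨⟨List.nodup_range, fun j hj => List.mem_range.1 hj⟩, List.length_range⟩
  refine ⟨Finset.univ.val.map c + Multiset.replicate e (List.range m), ⟨fun l hl => ?_,
    fun j hj => ?_⟩, by
      rw [Multiset.map_add, Multiset.map_map, Multiset.map_replicate, List.length_range]
      simp only [c, Function.comp_def, List.length_ofFn], NZ_of Z ?_⟩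
  · rcases Multiset.mem_add.1 hl with hl | hl
    · obtain ⟨k, _, rfl⟩ := Multiset.mem_map.1 hl
      exact ⟨List.nodup_ofFn.2 (Fin.val_injective.comp (inj k)), by simp [c, List.mem_ofFn]⟩
    · exact (h5 l hl).1
  · rw [Multiset.countP_add, (Multiset.countP_eq_card (s := Multiset.replicate e (List.range m))).2
      fun l hl => by rw [Multiset.eq_of_mem_replicate hl]; exact List.mem_range.2 hj,
      Multiset.card_replicate,
      countP_univ, ← h1 ⟨j, hj⟩, content, Finset.card_filter]
    congr 1
    refine Finset.sum_congr rfl fun k _ => ?_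
    split_ifs with h
    · obtain ⟨i, hi⟩ := List.mem_ofFn.1 h
      refine (Finset.card_eq_one.2 ⟨i, ?_⟩).symm
      ext i'
      simp only [Finset.mem_filter, Finset.mem_univ, true_and, Finset.mem_singleton]
      exact ⟨fun e => inj k (e.trans (Fin.ext hi).symm), fun e => e ▸ Fin.ext hi⟩
    · rw [eq_comm, Finset.card_eq_zero, Finset.filter_eq_empty_iff]
      exact fun i _ e => h (List.mem_ofFn.2 ⟨i, congrArg Fin.val e⟩)
  · have key : Psi m Z (Finset.univ.val.map c + Multiset.replicate e (List.range m)) =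
        Phi hν d A τ * E Z (Multiset.replicate e (List.range m)) := by
      unfold Psi Phi
      rw [Finset.sum_mul]
      refine Finset.sum_congr rfl fun w _ => ?_
      have e1 : ((Perm.sign w : ℤ) : ℂ) ^ e = ((Perm.sign w : ℤ) : ℂ) ^ d := by
        rcases Int.units_eq_one_or (Perm.sign w) with h | h
        · simp [h]
        · simp only [h, Units.val_neg, Units.val_one, Int.cast_neg, Int.cast_one]
          exact neg_one_pow_congr (Nat.even_add.1 he).symm
      have e2 : E (fun r j => Z r (wa w j)) ((Finset.univ : Finset (Fin N)).val.map c) =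
          EE hν A (act w τ) := by
        unfold E EE
        rw [Multiset.map_map]
        refine Finset.prod_congr rfl fun k _ => ?_
        rw [Function.comp_apply, D, List.length_ofFn, Dn, ← hZ]
        congr 1
        ext i j
        simp [mat, act, c, ← wa_coe]
      rw [E_add, E_full _ _ h5, Multiset.card_replicate, e2, e1]
      ring
    rw [key]
    refine mul_ne_zero h2 (Multiset.prod_ne_zero fun h => ?_)
    obtain ⟨l, hl, h⟩ := Multiset.mem_map.1 h
    obtain ⟨σ, hσ⟩ := D_full (R := ℂ) (h5 l hl).1.1 (h5 l hl).1.2 (h5 l hl).2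
    rw [hσ, hZ] at h
    exact mul_ne_zero (by simp) h0 h

theorem fill_of_good {d N e : ℕ} {ν : Fin N → ℕ} (hν : ∀ k, ν k ≤ m) (he : Even (d + (e + 1)))
    (hG : Good m (d + (e + 1))
      ((Finset.univ : Finset (Fin N)).val.map ν +
        Multiset.replicate (e + 1) m)) :
    ∃ Z : Matrix (Fin m) (Fin m) ℤ, Z.det ≠ 0 ∧ ∃ τ : Fill m ν,
      (∀ j, content τ j = d) ∧ Phi hν d Z τ ≠ 0 := by
  obtain ⟨T, hv, hT, hnz⟩ := hG
  obtain ⟨T1, T2, rfl, h1, h2⟩ := map_eq_add _ _ _ _ hT
  obtain ⟨h3, h4⟩ := len_of_rep h2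
  have h5 : ∀ c ∈ T2, (c.Nodup ∧ ∀ j ∈ c, j < m) ∧ c.length = m := fun c hc =>
    ⟨hv.1 c (Multiset.mem_add.2 (Or.inr hc)), h4 c hc⟩
  obtain ⟨c, rfl, hc⟩ := index_cols _ _ _ _ h1
  have hc1 : ∀ k, (c k).length = ν k := fun k => hc k (Finset.mem_univ _)
  have hc2 : ∀ k, (c k).Nodup ∧ ∀ j ∈ c k, j < m := fun k =>
    hv.1 _ (Multiset.mem_add.2 (Or.inl (Multiset.mem_map_of_mem _ (Finset.mem_univ_val k))))
  obtain ⟨x, hx⟩ : ∃ x : ℕ × ℕ → ℤ, MvPolynomial.eval x
      (Psi m Xg ((Finset.univ : Finset (Fin N)).val.map c + T2)) ≠ 0 := by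
    by_contra! h
    exact hnz (MvPolynomial.funext fun x => by simpa using h x)
  rw [map_Psi] at hx
  set Z : ℕ → ℕ → ℤ := fun r j => MvPolynomial.eval x (Xg r j)
  let τ : Fill m ν := fun k i =>
    ⟨(c k).getD i 0, (hc2 k).2 _ (getD_mem (by rw [hc1]; exact i.2))⟩
  have key : Psi m Z ((Finset.univ : Finset (Fin N)).val.map c + T2) =
      Phi hν d (mat m Z) τ * E Z T2 := by
    unfold Psi Phi
    rw [Finset.sum_mul]
    refine Finset.sum_congr rfl fun w _ => ?_
    have e1 : ((Perm.sign w : ℤ) : ℤ) ^ (e + 1) = ((Perm.sign w : ℤ) : ℤ) ^ d := by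
      rcases Int.units_eq_one_or (Perm.sign w) with h | h
      · simp [h]
      · simp only [h, Units.val_neg, Units.val_one]
        exact neg_one_pow_congr (Nat.even_add.1 he).symm
    have e2 : E (fun r j => Z r (wa w j)) ((Finset.univ : Finset (Fin N)).val.map c) =
        EE hν (mat m Z) (act w τ) := by
      unfold E EE
      rw [Multiset.map_map]
      refine Finset.prod_congr rfl fun k _ => ?_
      rw [Function.comp_apply, D, hc1, Dn]
      congr 1
      ext i j
      simp [mat, act, τ, ← wa_coe]
    rw [E_add, E_full _ _ h5, h3, e2]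
    simp only [Int.cast_id, e1]
    ring
  rw [key] at hx
  refine ⟨mat m Z, fun h0 => right_ne_zero_of_mul hx ?_, τ, fun j => ?_, left_ne_zero_of_mul hx⟩
  · obtain ⟨a, ha⟩ := Multiset.card_pos_iff_exists_mem.1 (by omega : 0 < T2.card)
    obtain ⟨σ, hσ⟩ := D_full (R := ℤ) (h5 a ha).1.1 (h5 a ha).1.2 (h5 a ha).2
    rw [← Multiset.cons_erase ha, E_cons, hσ, h0]
    simp
  · have e1 := hv.2 j j.2
    have e2 : T2.countP ((j : ℕ) ∈ ·) = e + 1 := by
      rw [← h3, Multiset.countP_eq_card]
      intro a ha
      have := Finset.eq_of_subset_of_card_le (s := a.toFinset) (t := Finset.range m)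
        (fun i hi => Finset.mem_range.2 ((h5 a ha).1.2 i (List.mem_toFinset.1 hi)))
        (by rw [List.toFinset_card_of_nodup (h5 a ha).1.1, (h5 a ha).2]; simp)
      rw [← List.mem_toFinset, this]
      simp
    rw [Multiset.countP_add, e2, Multiset.countP_map] at e1
    rw [← Nat.add_right_cancel e1]
    change _ = (Finset.univ.filter fun k => (j : ℕ) ∈ c k).card
    rw [content, Finset.card_filter]
    refine Finset.sum_congr rfl fun k _ => ?_
    have g : ∀ i : Fin (ν k), (τ k i : ℕ) = (c k)[(i : ℕ)]'(by rw [hc1]; exact i.2) :=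
      fun i => List.getD_eq_getElem _ _ _
    split_ifs with h
    · obtain ⟨i, hi, e⟩ := List.getElem_of_mem h
      refine Finset.card_eq_one.2 ⟨⟨i, by rwa [← hc1]⟩, ?_⟩
      ext i'
      simp only [Finset.mem_filter, Finset.mem_univ, true_and, Finset.mem_singleton, Fin.ext_iff, g,
        ← e]
      exact (hc2 k).1.getElem_inj_iff
    · rw [Finset.card_eq_zero, Finset.filter_eq_empty_iff]
      intro i _ e
      exact h (by rw [← e, g]; exact List.getElem_mem _)

end MP7ebc2a.AA
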