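import Pool.Agent.Lib.AA25.W5

/-! Pencils given by pairs of columns, and chains of them. -/

namespace MP7ebc2a.AA.Ray
open Equiv Matrix

variable {R : Type} [CommRing R] [IsDomain R] {m : ℕ} {y : ℕ → R}

def cA (y : ℕ → R) (q : Fin 4 → ℕ) : R := (y (q 1) - y (q 0)) * (y (q 3) - y (q 2))

def cB (y : ℕ → R) (q : Fin 4 → ℕ) : R := (y (q 2) - y (q 0)) * (y (q 3) - y (q 1))

/-- the value of a pencil at a permutation -/
def pen (y : ℕ → R) (q : Fin 4 → ℕ) (k : R × R) (w : Perm (Fin m)) : R :=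
  k.1 * cA y (wa w ∘ q) + k.2 * cB y (wa w ∘ q)

lemma pencil (h : Dis m y) {r : ℕ} (h2 : 2 ≤ r) (hr : r + 2 ≤ m) {q : Fin 4 → ℕ}
    (hq : Function.Injective q) (hm : ∀ i, q i < m) :
    ∃ (α : ℕ → ℕ) (U : Perm (Fin m) → R), ∑ j ∈ Finset.range m, α j = 2 * r ∧ (∀ w, U w ≠ 0) ∧
      ∀ k, (fun w => U w * pen y q k w) ∈ Sp m y α {r, r} := by
  obtain ⟨s, hs, hc⟩ := Finset.exists_subset_card_eq (s := Finset.range m \ Finset.univ.image q)
    (n := r - 2) (by
      rw [Finset.card_sdiff_of_subset (fun j hj => by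
        obtain ⟨i, _, rfl⟩ := Finset.mem_image.1 hj
        exact Finset.mem_range.2 (hm i)), Finset.card_image_of_injective _ hq]
      simp; omega)
  set K := s.toList
  have k1 : K.Nodup := s.nodup_toList
  have k2 : ∀ j ∈ K, j < m := fun j hj =>
    Finset.mem_range.1 (Finset.mem_sdiff.1 (hs (Finset.mem_toList.1 hj))).1
  have k3 : ∀ i, q i ∉ K := fun i hj =>
    (Finset.mem_sdiff.1 (hs (Finset.mem_toList.1 hj))).2 (Finset.mem_image_of_mem _ (by simp))
  have k4 : K.length = r - 2 := by rw [Finset.length_toList, hc]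
  have v : ∀ a b, a ≠ b → (K ++ [q a] ++ [q b]).Nodup ∧ ∀ j ∈ K ++ [q a] ++ [q b], j < m := by
    intro a b hab
    refine ⟨?_, fun j hj => ?_⟩
    · have : ∀ x ∈ K, ∀ i, x ≠ q i := fun x hx i e => k3 i (e ▸ hx)
      simp only [List.append_assoc, List.nodup_append, k1, true_and]
      simpa [hq.ne hab] using fun x hx => ⟨this x hx a, this x hx b⟩
    · simp only [List.mem_append, List.mem_singleton] at hj
      rcases hj with (hj | rfl) | rfl
      exacts [k2 j hj, hm _, hm _]
  have vc : ∀ a b c e, a ≠ b → c ≠ e → VC m {K ++ [q a] ++ [q b], K ++ [q c] ++ [q e]} := by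
    intro a b c e h1 h2 l hl
    simp only [Multiset.insert_eq_cons, Multiset.mem_cons, Multiset.mem_singleton] at hl
    rcases hl with rfl | rfl
    exacts [v a b h1, v c e h2]
  have ln : ∀ a b c e, Multiset.map List.length {K ++ [q a] ++ [q b], K ++ [q c] ++ [q e]} =
      {r, r} := by
    intro a b c e
    simp [k4, show r - 2 + 2 = r by omega]
  refine ⟨fun j => Multiset.countP (j ∈ ·) {K ++ [q 0] ++ [q 1], K ++ [q 2] ++ [q 3]},
    fun w => vd (fun j => y (wa w j)) K ^ 2 * ∏ i, pd (fun j => y (wa w j)) K (q i), ?_,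
    fun w => mul_ne_zero (pow_ne_zero _ (vd_ne (h.wa w) K k1 k2))
      (Finset.prod_ne_zero_iff.2 fun i _ => pd_ne (h.wa w) k2 (hm i) (k3 i)), fun k => ?_⟩
  · rw [sum_count (vc 0 1 2 3 (by decide) (by decide)), ln]
    simp [two_mul]
  · have e : (fun w : Perm (Fin m) => (vd (fun j => y (wa w j)) K ^ 2 *
        ∏ i, pd (fun j => y (wa w j)) K (q i)) * pen y q k w) =
        k.1 • ev m y {K ++ [q 0] ++ [q 1], K ++ [q 2] ++ [q 3]} +
          k.2 • ev m y {K ++ [q 0] ++ [q 2], K ++ [q 1] ++ [q 3]} := by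
      ext w
      have e1 : ∀ a b, ev m y {a, b} w = vd (fun j => y (wa w j)) a * vd (fun j => y (wa w j)) b :=
        fun a b => by simp [ev, E, vd]
      simp only [Pi.add_apply, Pi.smul_apply, smul_eq_mul, e1, vd_two, pen, cA, cB,
        Fin.prod_univ_four, Function.comp_apply]
      ring
    rw [e]
    refine Submodule.add_mem _ (Submodule.smul_mem _ _ (Submodule.subset_span
      ⟨_, vc 0 1 2 3 (by decide) (by decide), fun _ _ => rfl, ln _ _ _ _, rfl⟩))
      (Submodule.smul_mem _ _ (Submodule.subset_span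
      ⟨_, vc 0 2 1 3 (by decide) (by decide), fun j _ => ?_, ln _ _ _ _, rfl⟩))
    have n : ∀ a b, a ≠ b → j = q a → j ≠ q b := fun a b hab e e' => hab (hq (e.symm.trans e'))
    have n' : ∀ a, j ∈ K → j ≠ q a := fun a hj e => k3 a (e ▸ hj)
    simp only [Multiset.insert_eq_cons, Multiset.countP_cons, ← Multiset.cons_zero,
      Multiset.countP_zero, List.mem_append, List.mem_singleton]
    by_cases a0 : j ∈ K
    · simp [a0]
    by_cases a1 : j = q 1
    · simp [a0, n 1 0 (by decide) a1, n 1 2 (by decide) a1, n 1 3 (by decide) a1, eq_true a1]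
    by_cases a2 : j = q 2
    · simp [a0, n 2 0 (by decide) a2, a1, n 2 3 (by decide) a2, eq_true a2]
    simp [a0, a1, a2]

lemma cA_ne (h : Dis m y) {q : Fin 4 → ℕ} (hq : Function.Injective q) (hm : ∀ i, q i < m) :
    cA y q ≠ 0 :=
  mul_ne_zero (h.ne (hm _) (hm _) (hq.ne (by decide))) (h.ne (hm _) (hm _) (hq.ne (by decide)))

lemma cB_ne (h : Dis m y) {q : Fin 4 → ℕ} (hq : Function.Injective q) (hm : ∀ i, q i < m) :
    cB y q ≠ 0 :=
  mul_ne_zero (h.ne (hm _) (hm _) (hq.ne (by decide))) (h.ne (hm _) (hm _) (hq.ne (by decide)))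

/-- the permutations that are removed by a block of pencils -/
def BX [NeZero m] (y : ℕ → R) (q : Fin 4 → ℕ) (k : Fin m → R × R) : Set (Perm (Fin m)) :=
  {w | ∃ t, pen y q (k t) (Equiv.addRight t) ≠ 0 ∧ pen y q (k t) (w * Equiv.addRight t) = 0}

lemma block [NeZero m] (h : Dis m y) {r : ℕ} (h2 : 2 ≤ r) (hr : r + 2 ≤ m) {q : Fin 4 → ℕ}
    (hq : Function.Injective q) (hm : ∀ i, q i < m) (k : Fin m → R × R) :
    Kill m y (2 * r) (Multiset.replicate (2 * m) r) (BX y q k) := by
  classical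
  obtain ⟨α, U, a1, a2, a3⟩ := pencil h h2 hr hq hm
  let k' : Fin m → R × R := fun t => if pen y q (k t) (Equiv.addRight t) ≠ 0 then k t else (1, 0)
  have := sp_prod Finset.univ _ _ _ fun t _ => sp_shift (a3 (k' t)) (Equiv.addRight t)
  rw [show ∑ t : Fin m, ({r, r} : Multiset ℕ) = Multiset.replicate (2 * m) r by
    rw [Finset.sum_const, Finset.card_univ, Fintype.card_fin, mul_comm, ← Multiset.nsmul_replicate]
    rfl] at this
  replace this := sp_congr (β := fun _ => 2 * r) this ?_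
  refine ⟨_, this, ?_, ?_⟩
  rotate_right
  · intro j hj
    rw [← a1, Finset.sum_apply, ← Fin.sum_univ_eq_sum_range,
      ← Equiv.sum_comp (Equiv.subLeft (⟨j, hj⟩ : Fin m))]
    refine Finset.sum_congr rfl fun t _ => congrArg α ?_
    have := wa_coe (Equiv.addRight (Equiv.subLeft (⟨j, hj⟩ : Fin m) t))⁻¹ ⟨j, hj⟩
    refine this.trans (congrArg _ ?_)
    simp [Perm.inv_def]
  · rw [Finset.prod_apply]
    refine Finset.prod_ne_zero_iff.2 fun t _ => mul_ne_zero (a2 _) ?_
    rw [one_mul]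
    simp only [k']
    split_ifs with e
    · exact e
    · simpa [pen] using cA_ne h ((wa_inj _).comp hq) fun i => wa_lt _ (hm i)
  · rintro w ⟨t, e1, e2⟩
    rw [Finset.prod_apply]
    refine Finset.prod_eq_zero (Finset.mem_univ t) (mul_eq_zero_of_right _ ?_)
    simp only [k', if_pos e1, e2]

/-- the product of the differences between one point and all other points -/
def pi (m : ℕ) (y : ℕ → R) (a : ℕ) : R := ∏ j ∈ (Finset.range m).erase a, (y a - y j)

lemma pi_ne (h : Dis m y) {a : ℕ} (ha : a < m) : pi m y a ≠ 0 :=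
  Finset.prod_ne_zero_iff.2 fun _ hj => h.ne ha (Finset.mem_range.1 (Finset.mem_of_mem_erase hj))
    (Finset.ne_of_mem_erase hj).symm

lemma pi_wa (w : Perm (Fin m)) (a : ℕ) : pi m (fun j => y (wa w j)) a = pi m y (wa w a) := by
  refine Finset.prod_nbij' (wa w) (wa w⁻¹) (fun j hj => ?_) (fun j hj => ?_) (fun j _ => ?_)
    (fun j _ => ?_) fun _ _ => rfl
  · simp only [Finset.mem_erase, Finset.mem_range] at hj ⊢
    exact ⟨(wa_inj w).ne hj.1, wa_lt w hj.2⟩
  · simp only [Finset.mem_erase, Finset.mem_range] at hj ⊢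
    exact ⟨fun e => hj.1 (by rw [← e, ← wa_mul]; simp), wa_lt _ hj.2⟩
  · simp [← wa_mul]
  · simp [← wa_mul]

lemma single (y : ℕ → R) {a : ℕ} (ha : a < m) : ∃ u ∈ Sp m y (fun _ => 1) {1, m - 1},
    ∀ w, u w * pi m y (wa w a) = (mat m fun r j => y (wa w j) ^ r).det := by
  set L := ((Finset.range m).erase a).toList
  have l1 : L.Nodup := Finset.nodup_toList _
  have l2 : ∀ j, j ∈ L ↔ j ≠ a ∧ j < m := fun j => by simp [L]
  have l3 : L.length = m - 1 := by
    rw [Finset.length_toList, Finset.card_erase_of_mem (Finset.mem_range.2 ha), Finset.card_range]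
  obtain ⟨σ, hσ⟩ := D_full (R := R) (m := m) (c := L ++ [a])
    (by simpa [List.nodup_append, l1] using fun j hj => ((l2 j).1 hj).1)
    (fun j hj => by
      rcases List.mem_append.1 hj with hj | hj
      exacts [((l2 j).1 hj).2, List.mem_singleton.1 hj ▸ ha])
    (by simp [l3]; omega)
  refine ⟨((Perm.sign σ : ℤ) : R) • ev m y {[a], L}, Submodule.smul_mem _ _ (Submodule.subset_span
    ⟨_, fun l hl => ?_, fun j hj => ?_, by simp [l3], rfl⟩), fun w => ?_⟩
  · simp only [Multiset.insert_eq_cons, Multiset.mem_cons, Multiset.mem_singleton] at hl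
    rcases hl with rfl | rfl
    exacts [by simpa using ha, ⟨l1, fun j hj => ((l2 j).1 hj).2⟩]
  · simp only [Multiset.insert_eq_cons, Multiset.countP_cons, ← Multiset.cons_zero,
      Multiset.countP_zero, l2, List.mem_singleton, hj]
    by_cases e : j = a <;> simp [e]
  · have e1 := hσ fun r j => y (wa w j) ^ r
    have e2 := vd_snoc' (fun j => y (wa w j)) L a
    have e3 : pd (fun j => y (wa w j)) L a = pi m y (wa w a) := by
      rw [← pi_wa, pd, pi, Finset.prod_map_toList]
    have e4 : ev m y {[a], L} w = vd (fun j => y (wa w j)) L := by simp [ev, E, vd, D, Dn]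
    rw [Pi.smul_apply, smul_eq_mul, e4, mul_assoc, ← e3, ← e2, vd, e1, ← mul_assoc,
      ← Int.cast_mul, ← Units.val_mul, Int.units_mul_self]
    simp

/-- the permutations that are removed by a pair of complementary columns -/
def PX (y : ℕ → R) (a b a' b' : Fin m) : Set (Perm (Fin m)) :=
  {w | pi m y a' * pi m y b ≠ pi m y b' * pi m y a ∧ w a = a' ∧ w b = b'}

lemma pair (h : Dis m y) (a b a' b' : Fin m) : Kill m y 1 {1, m - 1} (PX y a b a' b') := by
  obtain ⟨u, u1, u2⟩ := single y a.2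
  obtain ⟨v, v1, v2⟩ := single y b.2
  have hd : ∀ w : Perm (Fin m), (mat m fun r j => y (wa w j) ^ r).det ≠ 0 := fun w => by
    obtain ⟨σ, hσ⟩ := D_full (R := R) (m := m) (c := List.range m) List.nodup_range
      (fun j hj => List.mem_range.1 hj) List.length_range
    have := vd_ne (h.wa w) _ List.nodup_range fun j hj => List.mem_range.1 hj
    rw [vd, hσ] at this
    exact right_ne_zero_of_mul this
  by_cases e : pi m y a' * pi m y b = pi m y b' * pi m y a
  · exact ⟨u, u1, left_ne_zero_of_mul ((u2 1).symm ▸ hd 1), fun w hw => absurd e hw.1⟩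
  refine ⟨pi m y a' • u - pi m y b' • v, Submodule.sub_mem _ (Submodule.smul_mem _ _ u1)
    (Submodule.smul_mem _ _ v1), fun e0 => e ?_, fun w hw => ?_⟩
  · have e1 := u2 1
    have e2 := v2 1
    simp only [Pi.sub_apply, Pi.smul_apply, smul_eq_mul, wa_one] at e0 e1 e2
    have e3 := hd 1
    simp only [wa_one] at e3
    refine mul_left_cancel₀ e3 ?_
    linear_combination (pi m y a * pi m y b) * e0 - pi m y a' * pi m y b * e1 +
      pi m y b' * pi m y a * e2
  · have e1 := u2 w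
    have e2 := v2 w
    rw [wa_coe, hw.2.1] at e1
    rw [wa_coe, hw.2.2] at e2
    simp only [Pi.sub_apply, Pi.smul_apply, smul_eq_mul]
    linear_combination e1 - e2

/-- a list of tasks, each of which uses up some columns -/
lemma chain {ι : Type} (hm : 0 < m) (h : Dis m y) (X : ι → Set (Perm (Fin m)))
    (P : ℕ → Multiset ℕ → Prop)
    (hP : ∀ n ν, P (n + 1) ν → ∃ e μ ν', ν = μ + ν' ∧ μ.sum = m * e ∧ P n ν' ∧
      ∀ i, Kill m y e μ (X i))
    (s : Finset ι) (ν : Multiset ℕ) (d : ℕ) (h0 : P s.card ν) (h1 : ∀ x ∈ ν, x ≤ m)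
    (h2 : ν.sum = m * d) : ∃ Y, Kill m y d ν Y ∧ ∀ i ∈ s, X i ⊆ Y := by
  classical
  induction s using Finset.induction_on generalizing ν d with
  | empty => exact ⟨_, kill_empty hm h h1 h2, by simp⟩
  | insert i s hi ih =>
    rw [Finset.card_insert_of_notMem hi] at h0
    obtain ⟨e, μ, ν', rfl, a1, a2, a3⟩ := hP _ _ h0
    rw [Multiset.sum_add, a1] at h2
    obtain ⟨d, rfl⟩ : ∃ d', d = e + d' :=
      Nat.exists_eq_add_of_le (Nat.le_of_mul_le_mul_left (by omega) hm)
    obtain ⟨Y, b1, b2⟩ := ih ν' d a2 (fun x hx => h1 x (Multiset.mem_add.2 (Or.inr hx)))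
      (by rw [mul_add] at h2; omega)
    refine ⟨_, (a3 i).mul b1, fun j hj => ?_⟩
    rcases Finset.mem_insert.1 hj with rfl | hj
    exacts [Set.subset_union_left, (b2 j hj).trans Set.subset_union_right]

lemma good_blocks [NeZero m] {ι : Type} (h : Dis m y) (q : ι → Fin 4 → ℕ)
    (hq : ∀ i, Function.Injective (q i)) (hm : ∀ i j, q i j < m) (k : ι → Fin m → R × R)
    (s : Finset ι) (hs : ∀ w ≠ 1, ∃ i ∈ s, w ∈ BX y (q i) (k i)) {ν : Multiset ℕ} {d : ℕ}
    (h0 : 2 * m * (s.card + m) ≤ ν.countP fun x => 2 ≤ x ∧ x + 2 ≤ m) (h1 : ∀ x ∈ ν, x ≤ m)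
    (h2 : ν.sum = m * d) : Good m d ν := by
  obtain ⟨Y, a1, a2⟩ := chain (NeZero.pos m) h (fun i => BX y (q i) (k i))
    (fun n ν => 2 * m * (n + m) ≤ ν.countP fun x => 2 ≤ x ∧ x + 2 ≤ m) (fun n ν hν => by
      obtain ⟨r, r1, r2⟩ : ∃ r, (2 ≤ r ∧ r + 2 ≤ m) ∧ 2 * m ≤ ν.count r := by
        by_contra! hc
        have e : (ν.countP fun x => 2 ≤ x ∧ x + 2 ≤ m) =
            ∑ r ∈ (Finset.range m).filter fun x => 2 ≤ x ∧ x + 2 ≤ m, ν.count r := by
          rw [Multiset.countP_eq_card_filter, ← Multiset.sum_count_eq_card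
            (s := (Finset.range m).filter fun x => 2 ≤ x ∧ x + 2 ≤ m) fun x hx => by
              have := (Multiset.mem_filter.1 hx).2
              simp only [Finset.mem_filter, Finset.mem_range]; omega]
          exact Finset.sum_congr rfl fun r hr =>
            Multiset.count_filter_of_pos (Finset.mem_filter.1 hr).2
        have := Finset.sum_le_card_nsmul ((Finset.range m).filter fun x => 2 ≤ x ∧ x + 2 ≤ m)
          (fun r => ν.count r) (2 * m) fun r hr => (hc r (Finset.mem_filter.1 hr).2).le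
        have e' := Finset.card_filter_le (Finset.range m) fun x => 2 ≤ x ∧ x + 2 ≤ m
        rw [Finset.card_range] at e'
        have := NeZero.pos m
        rw [smul_eq_mul] at *
        nlinarith
      obtain ⟨ν', rfl⟩ := Multiset.le_iff_exists_add.1 (Multiset.le_count_iff_replicate_le.1 r2)
      refine ⟨2 * r, _, ν', rfl, by simp; ring, ?_, fun i => block h r1.1 r1.2 (hq i) (hm i) _⟩
      have := Multiset.countP_le_card (fun x => 2 ≤ x ∧ x + 2 ≤ m) (Multiset.replicate (2 * m) r)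
      rw [Multiset.countP_add] at hν
      rw [Multiset.card_replicate] at this
      nlinarith) s ν d h0 h1 h2
  exact a1.good fun w hw => let ⟨i, hi, e⟩ := hs w hw; a2 i hi e

lemma good_pairs {ι : Type} (hm : 3 ≤ m) (h : Dis m y) (a b a' b' : ι → Fin m)
    (s : Finset ι) (hs : ∀ w ≠ 1, ∃ i ∈ s, w ∈ PX y (a i) (b i) (a' i) (b' i)) {ν : Multiset ℕ}
    {d : ℕ} (h0 : s.card ≤ ν.count 1 ∧ s.card ≤ ν.count (m - 1)) (h1 : ∀ x ∈ ν, x ≤ m)
    (h2 : ν.sum = m * d) : Good m d ν := by
  obtain ⟨Y, a1, a2⟩ := chain (by omega) h (fun i => PX y (a i) (b i) (a' i) (b' i))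
    (fun n ν => n ≤ ν.count 1 ∧ n ≤ ν.count (m - 1)) (fun n ν hν => by
      have e : m - 1 ≠ 1 := by omega
      obtain ⟨ν, rfl⟩ := Multiset.exists_cons_of_mem (Multiset.count_pos.1 (by omega : 0 < ν.count 1))
      rw [Multiset.count_cons_of_ne e] at hν
      obtain ⟨ν, rfl⟩ := Multiset.exists_cons_of_mem
        (Multiset.count_pos.1 (by omega : 0 < ν.count (m - 1)))
      refine ⟨1, {1, m - 1}, ν, by simp, by simp; omega, ?_, fun i => pair h _ _ _ _⟩
      simp only [Multiset.count_cons_self, Multiset.count_cons_of_ne e.symm] at hν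
      omega) s ν d h0 h1 h2
  exact a1.good fun w hw => let ⟨i, hi, e⟩ := hs w hw; a2 i hi e

end MP7ebc2a.AA.Ray
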